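import Pool.Agent.Lib.MP_e06174_ag.Reduced

/-! Regular differentials on irrational curves, the Hurwitz inequality, Riemann's inequality. -/

set_option linter.unusedSectionVars false

open Polynomial IntermediateField Module

namespace Pool.Agent.Lib.MP_e06174_ag

open Place

variable {k F : Type*} [Field k] [Field F] [Algebra k F] [CharZero k] [IsAlgClosed k] {x : F}

lemma IsCoord.exists_dual (h : IsCoord k x) :
    ∃ (d : ℕ) (b b' : Fin d → F) (a : Fin d → ℕ), d = finrank k⟮x⟯ F ∧
      (∀ f : Fin d → k[X], ∑ i, aeval x (f i) * b i = 0 → f = 0) ∧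
      (∀ i (p : Place k F), p.Ge 0 x → p.Ge 0 (b i)) ∧ (∀ i, Inf k x (a i) (b i)) ∧
      (∃ j, a j = 0) ∧ LinearIndependent k b' ∧
      (∀ j (p : Place k F) (c : k), p.At x c → p.Ge (1 - p.ord (x - algebraMap k F c)) (b' j)) ∧
      ∀ j (p : Place k F), p.ord x < 0 → p.Ge (1 + p.ord x) (x ^ a j * b' j) := by
  classical
  have hres : ∀ (p : Place k F) y, p.Ge 0 y → ∃ c, p.At y c := fun p y hy => ⟨_, h.at_cen hy⟩
  have hx0 := ne_zero_of_transcendental h.trans
  have hh := h
  obtain ⟨_, _, _, _, _, _, hxe, hd⟩ := hh.setup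
  obtain ⟨b, a, hb, ha, hkc⟩ := exists_reduced (k := k) (F := F)
  rw [← hxe] at ha hkc
  let B := basisOfTopLeSpanOfCardEqFinrank b hb.top_le (by simp)
  have hB : ∀ i, B i = b i := fun i => by simp [B]
  have halg : ∀ P : k[X], algebraMap (RatFunc k) F (algebraMap k[X] (RatFunc k) P) = aeval x P :=
    fun P => by rw [← IsScalarTower.algebraMap_apply, alg_eq_aeval, ← hxe]
  have hspan : ∀ y, IsIntegral k[X] y → ∃ f : Fin (finrank (RatFunc k) F) → k[X],
      y = ∑ i, aeval x (f i) * b i := by
    intro y hy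
    obtain ⟨f, hf⟩ := (Submodule.mem_span_range_iff_exists_fun k[X]).1 (hb.span y hy)
    refine ⟨f, hf.symm.trans (Finset.sum_congr rfl fun i _ => ?_)⟩
    rw [Algebra.smul_def, alg_eq_aeval, ← hxe]
  have hrepr : ∀ (g : F) (q : k[X]) (f : Fin (finrank (RatFunc k) F) → k[X]), q ≠ 0 →
      aeval x q * g = ∑ i, aeval x (f i) * b i → ∀ j,
      Algebra.trace (RatFunc k) F (B.traceDual j * g) =
        aeval RatFunc.X (f j) / aeval RatFunc.X q := by
    intro g q f hq hg j
    have h1 : g = ∑ i, (aeval RatFunc.X (f i) / aeval RatFunc.X q : RatFunc k) • B i := by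
      apply mul_left_cancel₀ (aeval_ne_zero h.trans hq)
      rw [hg, Finset.mul_sum]
      refine Finset.sum_congr rfl fun i _ => ?_
      rw [Algebra.smul_def, map_div₀, RatFunc.aeval_X_left_eq_algebraMap,
        RatFunc.aeval_X_left_eq_algebraMap, halg, halg, hB]
      field_simp [aeval_ne_zero h.trans hq]
    rw [h1, Finset.mul_sum, map_sum]
    simp only [mul_smul_comm, map_smul, Basis.trace_traceDual_mul, smul_eq_mul, mul_ite, mul_one,
      mul_zero, Finset.sum_ite_eq', Finset.mem_univ, if_true]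
  have hint : ∀ y, IsIntegral k[X] y ↔ ∀ p : Place k F, p.Ge 0 x → p.Ge 0 y := fun y => by
    rw [isIntegral_iff_forall, ← hxe]
  have hι : IsScalarTower.toAlgHom k (RatFunc k) F RatFunc.X = x := by rw [toAlgHom_X, hxe]
  refine ⟨_, b, B.traceDual, a, hd, ?_, fun i => (hint _).1 (hb.int i), ha, ?_, ?_, ?_, ?_⟩
  · intro f hf
    have h1 := Fintype.linearIndependent_iff.1 hb.linearIndependent
      (fun i => algebraMap k[X] (RatFunc k) (f i)) (by
        rw [← hf]
        exact Finset.sum_congr rfl fun i _ => by rw [Algebra.smul_def, halg])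
    funext i
    simpa using h1 i
  · obtain ⟨f, hf⟩ := hspan 1 isIntegral_one
    obtain ⟨j, hj⟩ : ∃ j, f j ≠ 0 := by
      by_contra h1
      push Not at h1
      simp [h1] at hf
    have := degree_bound hx0 ha hkc f (m := 0) (by rw [← hf]; simpa using inf_zpow (x := x) 0) j hj
    exact ⟨j, by omega⟩
  · exact B.traceDual.linearIndependent.restrict_scalars' k
  · intro j p c hc
    obtain ⟨e, he, he'⟩ := At.over (hxe ▸ hc)
    rw [← hxe] at he'
    rw [he']
    refine ge_of_trace he (hres p) fun g hg => ?_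
    obtain ⟨q₀, hq₀, h1⟩ := h.exists_multiple g
    obtain ⟨q, hq, hq'⟩ := exists_eq_pow_rootMultiplicity_mul_and_not_dvd q₀ hq₀ c
    have hq0 : q ≠ 0 := by rintro rfl; simp at hq'
    have h2 : IsIntegral k[X] (aeval x q * g) := (hint _).2 fun w hw => by
      by_cases hwc : w.At x c
      · obtain ⟨e', he', -⟩ := At.over (hxe ▸ hwc)
        exact (hw.aeval q).mul' (hg w e' he') (by simp)
      · have h3 := h1 w hw
        rw [At, not_ge_iff] at hwc
        have h4 := (hw.sub (ge_const c)).le hwc.1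
        have h5 : aeval x q * g = ((x - algebraMap k F c) ^ q₀.rootMultiplicity c)⁻¹ *
            (aeval x q₀ * g) := by
          conv_rhs => rw [hq]
          simp only [map_mul, map_pow, map_sub, aeval_X, aeval_C]
          have : (x - algebraMap k F c) ^ q₀.rootMultiplicity c ≠ 0 := pow_ne_zero _ hwc.1
          rw [← hq]
          field_simp
        rw [h5]
        refine (ge_of_le (n := 0) ?_).mul' h3 (by simp)
        rw [ord_inv, ord_pow, show w.ord (x - algebraMap k F c) = 0 by omega]; simp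
    obtain ⟨f, hf⟩ := hspan _ h2
    rw [hrepr g q f hq0 hf j, div_eq_mul_inv]
    refine ((vAt_at c).ge_zero.aeval _).mul' (ge_of_le (n := 0) ?_) (by simp)
    rw [ord_inv, (vAt_at c).ord_aeval RatFunc.transcendental_X hq0,
      rootMultiplicity_eq_zero (fun h => hq' (dvd_iff_isRoot.2 h))]
    simp
  · intro j p hp
    obtain ⟨e, he, he'⟩ := over_of_pole (hxe ▸ hp)
    rw [← hxe] at he'
    rw [he', ← sub_eq_add_neg]
    refine ge_of_trace he (hres p) fun g hg => ?_
    obtain ⟨q, hq, h1⟩ := h.exists_multiple g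
    obtain ⟨f, hf⟩ := hspan _ ((hint _).2 h1)
    have h2 : Inf k x 0 g := fun w hw => by
      obtain ⟨e', he', -⟩ := over_of_pole (hxe ▸ hw)
      simpa using hg w e' he'
    have h3 := (inf_aeval (x := x) (P := q) le_rfl).mul h2
    rw [hf] at h3
    have h4 : x ^ a j * B.traceDual j * g =
        (RatFunc.X ^ a j : RatFunc k) • (B.traceDual j * g) := by
      rw [Algebra.smul_def, map_pow, alg_X, ← hxe, mul_assoc]
    rw [h4, map_smul, hrepr g q f hq hf j, smul_eq_mul]
    by_cases hfj : f j = 0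
    · simp [hfj]
    have h5 := degree_bound hx0 ha hkc f h3 j hfj
    have h6 : (vInf (k := k)).ord RatFunc.X < 0 := by rw [vInf_X]; omega
    refine ge_of_le ?_
    rw [Place.ord_mul _ (pow_ne_zero _ RatFunc.X_ne_zero) (div_ne_zero
      (aeval_ne_zero RatFunc.transcendental_X hfj) (aeval_ne_zero RatFunc.transcendental_X hq)),
      ord_div_of_pole h6 RatFunc.transcendental_X hfj hq, ord_pow, vInf_X]
    omega

lemma linearIndependent_of_poly {ι σ : Type*} [Fintype ι] [Fintype σ] {b : ι → F}
    (hb : ∀ f : ι → k[X], ∑ i, aeval x (f i) * b i = 0 → f = 0) (r : σ → ι) (n : σ → ℕ)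
    (hinj : ∀ s t, r s = r t → n s = n t → s = t) :
    LinearIndependent k fun s => x ^ n s * b (r s) := by
  classical
  rw [Fintype.linearIndependent_iff]
  intro c hc s
  have h1 := hb (fun i => ∑ t ∈ Finset.univ.filter fun t => r t = i, monomial (n t) (c t)) (by
    rw [← hc, ← Finset.sum_fiberwise (s := Finset.univ) (g := r)]
    refine Finset.sum_congr rfl fun i _ => ?_
    rw [map_sum, Finset.sum_mul]
    refine Finset.sum_congr rfl fun t ht => ?_
    rw [← (Finset.mem_filter.1 ht).2, aeval_monomial, Algebra.smul_def, mul_assoc])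
  have h2 := congrArg (fun P : k[X] => P.coeff (n s)) (congrFun h1 (r s))
  simp only [finsetSum_coeff, coeff_monomial, Pi.zero_apply, coeff_zero] at h2
  rw [Finset.sum_eq_single s] at h2
  · simpa using h2
  · intro t ht hts
    rw [if_neg fun h => hts (hinj t s (Finset.mem_filter.1 ht).2 h)]
  · simp

/-- An irrational curve carries a nonzero regular differential `f dx`. -/
theorem IsCoord.exists_regular (h : IsCoord k x) (hirr : ∀ t : F, k⟮t⟯ ≠ ⊤) :
    ∃ f : F, f ≠ 0 ∧ ∀ p : Place k F, 1 ≤ p.ord (f * p.loc x) := by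
  classical
  have hx0 := ne_zero_of_transcendental h.trans
  obtain ⟨d, b, b', a, hd, hind, hreg, hinf, ⟨j₀, hj₀⟩, hind', hfin', hinf'⟩ := h.exists_dual
  by_cases h2 : ∃ j, 2 ≤ a j
  · obtain ⟨j, hj⟩ := h2
    have h0 := hind'.ne_zero j
    refine ⟨b' j, h0, fun p => ?_⟩
    rw [p.ord_mul h0 (loc_ne_zero h.trans)]
    rcases h.pole_or_at p with hp | ⟨c, hc⟩
    · have h3 := (hinf' j p hp).le (mul_ne_zero (pow_ne_zero _ hx0) h0)
      rw [p.ord_mul (pow_ne_zero _ hx0) h0, ord_pow] at h3
      rw [loc_eq_of_pole hp]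
      have : (2 : ℤ) ≤ a j := by exact_mod_cast hj
      nlinarith
    · have h3 := (hfin' j p c hc).le h0
      rw [hc.loc_eq]; omega
  exfalso
  push Not at h2
  let r : Option (Fin d) → Fin d := fun s => s.getD j₀
  let n : Option (Fin d) → ℕ := fun s => if s.isSome then 0 else 1
  have h3 := linearIndependent_of_poly hind r n (by
    rintro (_ | s) (_ | t) <;> simp [r, n])
  let V := Submodule.span k (Set.range fun s => x ^ n s * b (r s))
  have : FiniteDimensional k V := FiniteDimensional.span_of_finite k (Set.finite_range _)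
  have h4 : finrank k V = d + 1 := by simpa using finrank_span_eq_card h3
  have h5 := h.finrank_le_of_irrational hirr h.finite_pole.toFinset _
    (fun p => (p.ord x).natAbs) rfl V (fun y hy p hp => by
      have hp' : p.Ge 0 x := ge_of_le (by simpa using hp)
      refine (Submodule.span_le (p := p.fil 0)).2 ?_ hy
      rintro _ ⟨s, rfl⟩
      exact Ge.mul' (hp'.pow _) (hreg _ p hp') (by simp))
    (fun y hy p hp => by
      have hp' : p.ord x < 0 := by simpa using hp
      refine (Submodule.span_le (p := p.fil _)).2 ?_ hy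
      rintro _ ⟨s, rfl⟩
      have h6 : Inf k x 1 (x ^ n s * b (r s)) := by
        have h7 := (inf_zpow (k := k) (x := x) (n s)).mul (hinf (r s))
        rw [zpow_natCast] at h7
        refine h7.mono ?_
        rcases s with _ | s
        · simp [n, r, hj₀]
        · have := h2 s
          simp [n, r]; omega
      exact (h6 p hp').mono (by omega))
  have h6 := h.sum_pole_le h.finite_pole.toFinset fun p hp => by simpa using hp
  have h7 : 0 < d := Fin.pos j₀
  omega

/-- The form of the Hurwitz inequality that we use. -/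
theorem IsCoord.exists_hurwitz (h : IsCoord k x) (hd : 2 ≤ finrank k⟮x⟯ F) (p₀ : Place k F)
    (hp₀ : p₀.ord x < 0) :
    ∃ f : F, f ≠ 0 ∧ (∀ p : Place k F, ¬ p.ord x < 0 → 1 ≤ p.ord (f * p.loc x)) ∧
      (∀ p : Place k F, p.ord x < 0 → 1 + p.ord x ≤ p.ord (f * x)) ∧
      1 + p₀.ord x + (finrank k⟮x⟯ F - 2 : ℕ) ≤ p₀.ord (f * x) := by
  classical
  have hx0 := ne_zero_of_transcendental h.trans
  obtain ⟨d, b, b', a, hd', hind, hreg, hinf, ⟨j₀, hj₀⟩, hind', hfin', hinf'⟩ := h.exists_dual
  have hconst : ∀ j, a j = 0 → ∃ c : k, b j = algebraMap k F c := fun j hj =>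
    h.const_of_forall_ge fun p => by
      by_cases hp : p.ord x < 0
      · simpa [hj] using hinf j p hp
      · exact hreg j p (ge_of_le (by omega))
  have huniq : ∀ j, j ≠ j₀ → 1 ≤ a j := by
    intro j hj
    by_contra h1
    obtain ⟨c, hc⟩ := hconst j (by omega)
    obtain ⟨c₀, hc₀⟩ := hconst j₀ hj₀
    have h2 := hind (Pi.single j (C c₀) - Pi.single j₀ (C c)) (by
      simp only [Pi.sub_apply, map_sub, sub_mul, Finset.sum_sub_distrib]
      rw [Finset.sum_eq_single j (fun i _ hi => by simp [hi]) (by simp),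
        Finset.sum_eq_single j₀ (fun i _ hi => by simp [hi]) (by simp)]
      simp [hc, hc₀, mul_comm])
    have h3 := congrFun h2 j
    simp [hj] at h3
    have h4 := hind (Pi.single j₀ 1) (by
      rw [Finset.sum_eq_single j₀ (fun i _ hi => by simp [hi]) (by simp)]
      simp [hc₀, h3])
    simpa using congrFun h4 j₀
  have h3 : LinearIndependent k fun s : {j // j ≠ j₀} => b' s :=
    hind'.comp _ Subtype.val_injective
  let V := Submodule.span k (Set.range fun s : {j // j ≠ j₀} => b' s)
  have : FiniteDimensional k V := FiniteDimensional.span_of_finite k (Set.finite_range _)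
  have h4 : finrank k V = d - 1 := by simpa using finrank_span_eq_card h3
  have h5 : ∀ p : Place k F, p.ord x < 0 → V ≤ p.fil 1 := by
    intro p hp
    refine Submodule.span_le.2 ?_
    rintro _ ⟨s, rfl⟩
    have h0 := hind'.ne_zero s.1
    have h3 := (hinf' s p hp).le (mul_ne_zero (pow_ne_zero _ hx0) h0)
    rw [p.ord_mul (pow_ne_zero _ hx0) h0, ord_pow] at h3
    have : (1 : ℤ) ≤ a s := by exact_mod_cast huniq s s.2
    exact ge_of_le (by nlinarith)
  obtain ⟨f, hf, hf0, hf'⟩ := h.exists_vanish p₀ (d - 2) 1 V (h5 p₀ hp₀) (by omega)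
  refine ⟨f, hf0, fun p hp => ?_, fun p hp => ?_, ?_⟩
  · obtain ⟨c, hc⟩ := (h.pole_or_at p).resolve_left hp
    have h6 : V ≤ p.fil (1 - p.ord (x - algebraMap k F c)) := by
      refine Submodule.span_le.2 ?_
      rintro _ ⟨s, rfl⟩
      exact hfin' s p c hc
    have := Ge.le (h6 hf) hf0
    rw [p.ord_mul hf0 (loc_ne_zero h.trans), hc.loc_eq]; omega
  · have := Ge.le (h5 p hp hf) hf0
    rw [p.ord_mul hf0 hx0]; omega
  · have := hf'.le hf0
    rw [p₀.ord_mul hf0 hx0, ← hd']; omega

/-- Riemann's inequality for multiples of the polar divisor of `x`. -/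
theorem IsCoord.exists_many (h : IsCoord k x) :
    ∃ c : ℕ, ∀ M : ℕ, ∃ w : Fin (finrank k⟮x⟯ F) × Fin M → F, LinearIndependent k w ∧
      (∀ s (p : Place k F), p.Ge 0 x → p.Ge 0 (w s)) ∧ ∀ s, Inf k x (M + c) (w s) := by
  obtain ⟨d, b, b', a, rfl, hind, hreg, hinf, -⟩ := h.exists_dual
  refine ⟨∑ i, a i, fun M => ⟨fun s => x ^ (s.2 : ℕ) * b s.1,
    linearIndependent_of_poly hind (fun s : Fin (finrank k⟮x⟯ F) × Fin M => s.1)
      (fun s => (s.2 : ℕ))
      fun s t h1 h2 => Prod.ext h1 (Fin.ext h2), fun s p hp => ?_, fun s => ?_⟩⟩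
  · exact Ge.mul' (hp.pow _) (hreg _ p hp) (by simp)
  · have h7 := (inf_zpow (k := k) (x := x) (s.2 : ℕ)).mul (hinf s.1)
    rw [zpow_natCast] at h7
    refine h7.mono ?_
    have h1 : a s.1 ≤ ∑ i, a i :=
      Finset.single_le_sum (f := a) (fun _ _ => Nat.zero_le _) (Finset.mem_univ _)
    have := s.2.2
    omega

end Pool.Agent.Lib.MP_e06174_ag
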