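import Pool.Agent.Lib.MP_e06174_ag.Defs
import Pool.Agent.Lib.MP_e06174_ag.ThmA

/-! Regularity and non-vanishing of the forms `Ψ (dx₁ ∧ ⋯ ∧ dxₙ)^m`. -/

set_option linter.unusedSectionVars false

open scoped TensorProduct
open KaehlerDifferential

namespace Pool.Agent.Lib.MP_e06174_ag

open Place

lemma multilinear_mem_span {L : Type*} [Field L] (O : Subring L) {ι M P : Type*} [Fintype ι]
    [AddCommGroup M] [Module L M] [AddCommGroup P] [Module L P]
    (f : MultilinearMap L (fun _ : ι => M) P) (S : Set M) (T : Submodule O P)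
    (hT : ∀ s : ι → M, (∀ i, s i ∈ S) → f s ∈ T) (m : ι → M)
    (hm : ∀ i, m i ∈ Submodule.span O S) : f m ∈ T := by
  classical
  choose n c g hg using fun i => Submodule.mem_span_set'.1 (hm i)
  have h1 : m = fun i => ∑ j, (c i j : L) • (g i j : M) := funext fun i => (hg i).symm
  rw [h1, f.map_sum]
  refine T.sum_mem fun r _ => ?_
  rw [f.map_smul_univ]
  have h2 : (∏ i, (c i (r i) : L)) = ((∏ i, c i (r i) : O) : L) := by simp
  rw [h2]
  exact T.smul_mem _ (hT _ fun i => (g i (r i)).2)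

variable {L : Type} [Field L] [Algebra ℂ L] {n : ℕ}

/-- The forms that are regular along the subring `O`. -/
noncomputable def regularForms (L : Type) [Field L] [Algebra ℂ L] (n m : ℕ) (O : Subring L) :
    Submodule O (⨂[L]^m (ExteriorAlgebra L Ω[L⁄ℂ])) :=
  Submodule.span O {ω | ∃ f : Fin m → Fin n → L, (∀ a b, f a b ∈ O) ∧
    ω = PiTensorProduct.tprod L fun a => ExteriorAlgebra.ιMulti L n fun b => D ℂ L (f a b)}

/-- The span of the differentials of elements of `O`. -/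
noncomputable def reg1 (O : Subring L) : Submodule O Ω[L⁄ℂ] :=
  Submodule.span O {η | ∃ f ∈ O, η = D ℂ L f}

/-- The span of the wedges of differentials of elements of `O`. -/
noncomputable def regN (n : ℕ) (O : Subring L) : Submodule O (ExteriorAlgebra L Ω[L⁄ℂ]) :=
  Submodule.span O {η | ∃ f : Fin n → L, (∀ b, f b ∈ O) ∧
    η = ExteriorAlgebra.ιMulti L n fun b => D ℂ L (f b)}

lemma wedge_mem {O : Subring L} (η : Fin n → Ω[L⁄ℂ]) (h : ∀ b, η b ∈ reg1 O) :
    ExteriorAlgebra.ιMulti L n η ∈ regN n O := by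
  refine multilinear_mem_span O (ExteriorAlgebra.ιMulti L n).toMultilinearMap _ _ ?_ η h
  intro s hs
  choose f hf hf' using hs
  exact Submodule.subset_span ⟨f, hf, by rw [show s = fun b => D ℂ L (f b) from funext hf']; rfl⟩

lemma pow_mem {O : Subring L} {m : ℕ} (η : Fin m → ExteriorAlgebra L Ω[L⁄ℂ]) (h : ∀ a, η a ∈ regN n O) :
    PiTensorProduct.tprod L η ∈ regularForms L n m O := by
  refine multilinear_mem_span O (PiTensorProduct.tprod L) _ _ ?_ η h
  intro s hs
  choose f hf hf' using hs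
  exact Submodule.subset_span ⟨f, hf, by rw [show s = _ from funext hf']⟩

lemma dlog_decomp (v : Place ℂ L) {π : L} (hπ0 : π ≠ 0) (hπ : v.ord π = 1) {u : L} (hu : u ≠ 0) :
    ∃ (c : ℤ) (η : Ω[L⁄ℂ]), η ∈ reg1 v.O.toSubring ∧
      u⁻¹ • D ℂ L u = (c : L) • (π⁻¹ • D ℂ L π) + η := by
  set c := v.ord u with hc
  set ε := u * π ^ (-c) with hε
  have hε0 : ε ≠ 0 := mul_ne_zero hu (zpow_ne_zero _ hπ0)
  have hord : v.ord ε = 0 := by
    rw [hε, v.ord_mul hu (zpow_ne_zero _ hπ0), ord_zpow, hπ]; ring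
  have h1 : ε ∈ v.O := mem_O.2 (ge_of_le hord.ge)
  have h2 : ε⁻¹ ∈ v.O := mem_O.2 (ge_of_le (by simp [hord]))
  refine ⟨c, ε⁻¹ • D ℂ L ε, ?_, ?_⟩
  · exact (reg1 v.O.toSubring).smul_mem ⟨ε⁻¹, h2⟩ (Submodule.subset_span ⟨ε, h1, rfl⟩)
  · have h3 : u = ε * π ^ c := by
      rw [hε, mul_assoc, ← zpow_add₀ hπ0]; simp
    have hp : π ^ c ≠ 0 := zpow_ne_zero _ hπ0
    conv_lhs => rw [h3]
    rw [Derivation.leibniz, Derivation.leibniz_zpow, smul_add, ← Int.cast_smul_eq_zsmul L,
      smul_smul, smul_smul, smul_smul, smul_smul, smul_smul]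
    congr 2
    · rw [zpow_sub_one₀ hπ0]; field_simp
    · field_simp

lemma wedge_dlog_mem (v : Place ℂ L) {π : L} (hπ0 : π ≠ 0) (hπ : v.ord π = 1) (u : Fin n → L)
    (hu : ∀ b, u b ≠ 0) :
    π • ExteriorAlgebra.ιMulti L n (fun b => (u b)⁻¹ • D ℂ L (u b)) ∈ regN n v.O.toSubring := by
  classical
  choose c η hη h using fun b => dlog_decomp v hπ0 hπ (hu b)
  have hπO : π ∈ v.O := mem_O.2 (ge_of_le (by omega))
  have hc : ∀ b, (c b : L) ∈ v.O := fun b => mem_O.2 (ge_intCast _)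
  have h1 : (fun b => (u b)⁻¹ • D ℂ L (u b)) =
      (fun b => (c b : L) • (π⁻¹ • D ℂ L π)) + η := funext h
  rw [h1, AlternatingMap.map_add_univ, Finset.smul_sum]
  refine Submodule.sum_mem _ fun s _ => ?_
  rcases s.eq_empty_or_nonempty with rfl | ⟨i, hi⟩
  · rw [Finset.piecewise_empty]
    exact (regN n v.O.toSubring).smul_mem ⟨π, hπO⟩ (wedge_mem η hη)
  by_cases hs : s = {i}
  · subst hs
    rw [Finset.piecewise_singleton, ← AlternatingMap.map_update_smul]
    refine wedge_mem _ fun b => ?_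
    by_cases hb : b = i
    · subst hb
      rw [Function.update_self, smul_smul, smul_smul,
        show π * (c b : L) * π⁻¹ = c b by field_simp]
      exact (reg1 v.O.toSubring).smul_mem ⟨_, hc b⟩ (Submodule.subset_span ⟨π, hπO, rfl⟩)
    · rw [Function.update_of_ne hb]; exact hη b
  · obtain ⟨j, hj, hji⟩ : ∃ j ∈ s, j ≠ i := by
      by_contra hcon
      push Not at hcon
      exact hs (Finset.eq_singleton_iff_unique_mem.2 ⟨hi, hcon⟩)
    have h2 : s.piecewise (fun b => (c b : L) • (π⁻¹ • D ℂ L π)) η =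
        s.piecewise (fun b => (c b : L) • s.piecewise (fun _ => π⁻¹ • D ℂ L π) η b)
          (s.piecewise (fun _ => π⁻¹ • D ℂ L π) η) := by
      funext b
      by_cases hb : b ∈ s <;> simp [hb]
    have h3 := (ExteriorAlgebra.ιMulti L n (M := Ω[L⁄ℂ])).toMultilinearMap.map_piecewise_smul
      (fun b => (c b : L)) (s.piecewise (fun _ => π⁻¹ • D ℂ L π) η) s
    have h4 : ExteriorAlgebra.ιMulti L n (s.piecewise (fun _ => π⁻¹ • D ℂ L π) η) = 0 :=
      AlternatingMap.map_eq_zero_of_eq _ _ (by simp [hi, hj]) hji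
    rw [h2]
    erw [h3, h4]
    simp

/-- The form `Ψ (dx₁ ∧ ⋯ ∧ dxₙ)^m`. -/
noncomputable def form (x : Fin n → L) (m : ℕ) (Ψ : L) :
    ⨂[L]^m (ExteriorAlgebra L Ω[L⁄ℂ]) :=
  Ψ • PiTensorProduct.tprod L fun _ => ExteriorAlgebra.ιMulti L n fun b => D ℂ L (x b)

lemma form_mem_of_ge_zero (v : Place ℂ L) (x : Fin n → L) (m : ℕ) {Ψ : L} (hΨ : v.Ge 0 Ψ)
    (hx : ∀ i, v.Ge 0 (x i)) : form x m Ψ ∈ regularForms L n m v.O.toSubring :=
  (regularForms L n m v.O.toSubring).smul_mem ⟨Ψ, mem_O.2 hΨ⟩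
    (Submodule.subset_span ⟨fun _ => x, fun _ b => mem_O.2 (hx b), rfl⟩)

lemma D_loc (v : Place ℂ L) (x : L) : D ℂ L (v.loc x) = D ℂ L x := by
  by_cases h : ∃ a, v.At x a
  · obtain ⟨a, ha⟩ := h
    rw [ha.loc_eq, map_sub, Derivation.map_algebraMap, sub_zero]
  · rw [loc_eq_of_not h]

lemma form_mem_of_ge (v : Place ℂ L) (x : Fin n → L) (hx : ∀ i, Transcendental ℂ (x i)) (m : ℕ)
    {Ψ : L} (h : v.Ge m (Ψ * ∏ i, v.loc (x i) ^ m)) :
    form x m Ψ ∈ regularForms L n m v.O.toSubring := by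
  obtain ⟨π, hπ0, hπ⟩ := v.exists_ord_eq_one
  have hu : ∀ b, v.loc (x b) ≠ 0 := fun b => loc_ne_zero (hx b)
  have h1 := pow_mem (m := m) _ fun _ => wedge_dlog_mem v hπ0 hπ _ hu
  have h2 : v.Ge 0 (Ψ * (∏ i, v.loc (x i) ^ m) * (π⁻¹) ^ m) := by
    refine Ge.mul' h (ge_ord _) ?_
    simp [hπ]
  have h3 := (regularForms L n m v.O.toSubring).smul_mem ⟨_, mem_O.2 h2⟩ h1
  convert h3 using 1
  rw [form, Subring.smul_def, MultilinearMap.map_smul_univ]
  simp only [AlternatingMap.map_smul_univ, D_loc]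
  rw [MultilinearMap.map_smul_univ, smul_smul, smul_smul]
  congr 1
  have : ∏ i, v.loc (x i) ≠ 0 := Finset.prod_ne_zero_iff.2 fun i _ => hu i
  simp only [Finset.prod_const, Finset.card_univ, Fintype.card_fin, Finset.prod_inv_distrib,
    Finset.prod_pow, inv_pow]
  field_simp

lemma linearIndependent_D {x : Fin n → L} (hx : IsTranscendenceBasis ℂ x) :
    LinearIndependent L fun b => D ℂ L (x b) := by
  let A := MvPolynomial (Fin n) ℂ
  let : Algebra A L := (MvPolynomial.aeval x : A →ₐ[ℂ] L).toRingHom.toAlgebra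
  have hA : ∀ a : A, algebraMap A L a = MvPolynomial.aeval x a := fun _ => rfl
  have : IsScalarTower ℂ A L := IsScalarTower.of_algebraMap_eq fun c => by
    rw [hA, AlgHom.commutes]
  have hinj : Function.Injective (algebraMap A L) := hx.1
  have : FaithfulSMul A L := (faithfulSMul_iff_algebraMap_injective A L).2 hinj
  let : Algebra (FractionRing A) L := FractionRing.liftAlgebra A L
  have : Algebra.IsAlgebraic A L := by
    have h1 := hx.isAlgebraic
    exact Algebra.IsAlgebraic.of_ringHom_of_comp_eq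
      (hx.1.aevalEquiv : A →+* Algebra.adjoin ℂ (Set.range x)) (RingHom.id L)
      hx.1.aevalEquiv.surjective Function.injective_id
      (RingHom.ext fun a => hx.1.algebraMap_aevalEquiv a)
  have : Algebra.IsAlgebraic (FractionRing A) L :=
    IsFractionRing.comap_isAlgebraic_iff.1 this
  have : CharZero (FractionRing A) := algebraRat.charZero _
  have : Algebra.FormallyEtale A (FractionRing A) :=
    Algebra.FormallyEtale.of_isLocalization (nonZeroDivisors A)
  have : Algebra.FormallyEtale (FractionRing A) L := Algebra.FormallyEtale.of_isSeparable _ _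
  have : Algebra.FormallyEtale A L := Algebra.FormallyEtale.comp A (FractionRing A) L
  have h2 := (((mvPolynomialBasis ℂ (Fin n)).baseChange L).map
    (tensorKaehlerEquivOfFormallyEtale ℂ A L)).linearIndependent
  convert h2 using 2 with b
  rw [Module.Basis.map_apply, Module.Basis.baseChange_apply, mvPolynomialBasis_apply,
    tensorKaehlerEquivOfFormallyEtale_apply, mapBaseChange_tmul, one_smul, map_D, hA,
    MvPolynomial.aeval_X]

lemma form_ne_zero {x : Fin n → L} (hx : IsTranscendenceBasis ℂ x) (m : ℕ) {Ψ : L} (hΨ : Ψ ≠ 0) :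
    form x m Ψ ≠ 0 := by
  refine smul_ne_zero hΨ ?_
  have h1 : ExteriorAlgebra.ιMulti L n (fun b => D ℂ L (x b)) ≠ 0 := by
    have := (exteriorPower.ιMulti_family_linearIndependent_field (n := n)
      (linearIndependent_D hx)).ne_zero (Set.powersetCard.ofFinEmbEquiv (RelEmbedding.refl _))
    rw [exteriorPower.ιMulti_family, Equiv.symm_apply_apply] at this
    exact fun h => this (Subtype.ext h)
  obtain ⟨φ, hφ⟩ := Module.Projective.exists_dual_eq_one L h1
  intro h0
  have := congrArg (PiTensorProduct.lift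
    ((MultilinearMap.mkPiAlgebra L (Fin m) L).compLinearMap fun _ => φ)) h0
  simp [hφ] at this

theorem not_kodairaNegInf {x : Fin n → L} (hx : IsTranscendenceBasis ℂ x) {m : ℕ} (hm : 1 ≤ m)
    {Ψ : L} (hΨ : Ψ ≠ 0)
    (h : ∀ v : Place ℂ L, (v.Ge 0 Ψ ∧ ∀ i, v.Ge 0 (x i)) ∨ v.Ge m (Ψ * ∏ i, v.loc (x i) ^ m)) :
    ¬ KodairaNegInf ℂ L n := by
  intro hκ
  refine form_ne_zero hx m hΨ (hκ m hm _ fun O hO hc => ?_)
  obtain ⟨v, hv⟩ := exists_of_dvr O hc
  have : O = v.O := by ext y; rw [hv, mem_O]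
  subst this
  have h3 : form x m Ψ ∈ regularForms L n m v.O.toSubring := by
    rcases h v with ⟨h1, h2⟩ | h1
    · exact form_mem_of_ge_zero v x m h1 h2
    · exact form_mem_of_ge v x (fun i => hx.1.transcendental i) m h1
  refine Submodule.span_mono ?_ h3
  rintro _ ⟨f, hf, rfl⟩
  exact ⟨fun s => f s.1 s.2, fun s => hf s.1 s.2, rfl⟩

end Pool.Agent.Lib.MP_e06174_ag
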