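import Mathlib

/-! Birational definitions: pluricanonical forms of a function field, Kodaira dimension minus
infinity, uniruledness. -/

open scoped TensorProduct

namespace Pool.Agent.Lib.MP_e06174_ag

/-- Let `φ` attach a vector of `V` to each family of elements of `L`.  A vector is regular along a
subring `O` if it is in the `O`-span of the values of `φ` on families of elements of `O`.  The
predicate says that only `0` is regular along every discrete valuation ring of `L / k`. -/
def NoRegular (k L V ι : Type) [Field k] [Field L] [Algebra k L] [AddCommGroup V] [Module L V]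
    (φ : (ι → L) → V) : Prop :=
  ∀ ω : V, (∀ O : ValuationSubring L, IsDiscreteValuationRing O →
    (∀ c : k, algebraMap k L c ∈ O) →
      ω ∈ Submodule.span O.toSubring (φ '' {f | ∀ i, f i ∈ O})) → ω = 0

/-- The same for the `m`-th tensor power, with generators `φ(f₁) ⊗ ⋯ ⊗ φ(fₘ)`. -/
def NoRegularPow (k L V ι : Type) [Field k] [Field L] [Algebra k L] [AddCommGroup V] [Module L V]
    (φ : (ι → L) → V) (m : ℕ) : Prop :=
  NoRegular k L (⨂[L]^m V) (Fin m × ι) fun f =>
    PiTensorProduct.tprod L fun a => φ fun b => f (a, b)

/-- The exterior product `d f₁ ∧ ⋯ ∧ d fₙ`. -/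
noncomputable def wedgeD (L M : Type) [CommRing L] [AddCommGroup M] [Module L M] (d : L → M)
    (n : ℕ) (f : Fin n → L) : ExteriorAlgebra L M :=
  ExteriorAlgebra.ιMulti L n fun b => d (f b)

/-- Kodaira dimension minus infinity for the function field `L / k` of dimension `n`: for `m ≥ 1`,
the only rational `m`-fold pluricanonical form that is regular along every discrete valuation ring
of `L / k` is zero. -/
def KodairaNegInf (k L : Type) [Field k] [Field L] [Algebra k L] (n : ℕ) : Prop :=
  ∀ m : ℕ, 1 ≤ m → NoRegularPow k L (ExteriorAlgebra L Ω[L⁄k]) (Fin n)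
    (wedgeD L Ω[L⁄k] (KaehlerDifferential.D k L) n) m

/-- Uniruledness: `L` embeds over `k` in `M(t)` for a function field `M` of one dimension less,
that is, there is a dominant rational map from `Y × ℙ¹` with `dim Y + 1 = dim X`. -/
def Uniruled (k L : Type) [Field k] [Field L] [Algebra k L] : Prop :=
  ∃ (M : Type) (_ : Field M) (_ : Algebra k M), Algebra.EssFiniteType k M ∧
    Algebra.trdeg k M + 1 = Algebra.trdeg k L ∧ Nonempty (L →ₐ[k] RatFunc M)

/-- The image in `K` of the pure tensor `f₁ ⊗ ⋯ ⊗ fₙ`. -/
noncomputable def emb (k : Type) [Field k] {n : ℕ} (F : Fin n → Type) [∀ i, Field (F i)]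
    [∀ i, Algebra k (F i)] (K : Type) [Field K] [Algebra (⨂[k] i, F i) K] (f : ∀ i, F i) : K :=
  algebraMap (⨂[k] i, F i) K (PiTensorProduct.tprod k f)

end Pool.Agent.Lib.MP_e06174_ag
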