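import Pool.Agent.Lib.MP_e06174_ag.Defs

/-! A criterion for uniruledness. -/

open IntermediateField Cardinal

namespace Pool.Agent.Lib.MP_e06174_ag

lemma trdeg_le_of_isAlgebraic {k E : Type} [Field k] [Field E] [Algebra k E] {n : ℕ}
    (y : Fin n → E) (h : ∀ a : E, IsAlgebraic (adjoin k (Set.range y)) a) :
    Algebra.trdeg k E ≤ n := by
  have h1 : Algebra.IsAlgebraic (adjoin k (Set.range y)) E := ⟨h⟩
  have h2 := isAlgebraic_adjoin_iff_top.1 h1
  refine (Algebra.IsAlgebraic.trdeg_le_cardinalMk k (Set.range y)).trans ?_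
  simpa using mk_range_le (f := y)

lemma trdeg_adjoin_le {k E : Type} [Field k] [Field E] [Algebra k E] {n : ℕ} (y : Fin n → E) :
    Algebra.trdeg k (adjoin k (Set.range y)) ≤ n := by
  let y' : Fin n → adjoin k (Set.range y) := fun i => ⟨y i, subset_adjoin _ _ ⟨i, rfl⟩⟩
  have h : adjoin k (Set.range y') = ⊤ := by
    apply map_injective (adjoin k (Set.range y)).val
    rw [adjoin_map, ← Set.range_comp, ← AlgHom.fieldRange_eq_map, fieldRange_val]
    rfl
  refine trdeg_le_of_isAlgebraic y' fun a => ?_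
  have : a ∈ adjoin k (Set.range y') := h ▸ mem_top
  exact isAlgebraic_algebraMap (⟨a, this⟩ : adjoin k (Set.range y'))

lemma isTranscendenceBasis_of_isAlgebraic {k E ι : Type} [Field k] [Field E] [Algebra k E]
    {y : ι → E} (hy : AlgebraicIndependent k y)
    (h : ∀ a : E, IsAlgebraic (adjoin k (Set.range y)) a) : IsTranscendenceBasis k y := by
  have h1 : Algebra.IsAlgebraic (adjoin k (Set.range y)) E := ⟨h⟩
  exact hy.isTranscendenceBasis_iff_isAlgebraic.2 (isAlgebraic_adjoin_iff_top.1 h1)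

theorem uniruled_of_adjoin {L Ω : Type} [Field L] [Field Ω] [Algebra ℂ L] [Algebra ℂ Ω]
    (φ : L →ₐ[ℂ] Ω) {n : ℕ} (hL : Algebra.trdeg ℂ L = (n + 1 : ℕ)) (y : Fin n → Ω) (s : Set Ω)
    (hs : s.Finite) (hs' : ∀ a ∈ s, IsAlgebraic (adjoin ℂ (Set.range y)) a) (t : Ω)
    (h : ∀ x, φ x ∈ adjoin ℂ (Set.range y ∪ s ∪ {t})) : Uniruled ℂ L := by
  let M₀ := adjoin ℂ (Set.range y)
  let M₁ := adjoin M₀ s
  let M := M₁.restrictScalars ℂ
  have h2 : Algebra.EssFiniteType ℂ M := by
    refine essFiniteType_iff.2 ⟨((Set.finite_range y).union hs).toFinset, ?_⟩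
    rw [Set.Finite.coe_toFinset, ← adjoin_adjoin_left]
  have h3 : Algebra.IsAlgebraic M₀ M₁ := isAlgebraic_adjoin fun a ha => (hs' a ha).isIntegral
  have h4' : Algebra.trdeg ℂ M₁ ≤ n := by
    rw [← trdeg_add_eq ℂ M₀ (A := M₁), trdeg_eq_zero (R := M₀) (A := M₁), add_zero]
    exact trdeg_adjoin_le y
  have h4 : Algebra.trdeg ℂ M ≤ n := h4'
  have h5 : ∀ x, φ x ∈ M⟮t⟯ := fun x => by
    have := h x
    rw [← adjoin_adjoin_left, ← adjoin_adjoin_left] at this
    exact this
  let ψ : L →ₐ[ℂ] M⟮t⟯ :=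
    { toFun := fun x => ⟨φ x, h5 x⟩
      map_one' := Subtype.ext (map_one φ)
      map_mul' := fun a b => Subtype.ext (map_mul φ a b)
      map_zero' := Subtype.ext (map_zero φ)
      map_add' := fun a b => Subtype.ext (map_add φ a b)
      commutes' := fun c => Subtype.ext (φ.commutes c) }
  have h6 : ((n + 1 : ℕ) : Cardinal) ≤ Algebra.trdeg ℂ M + Algebra.trdeg M M⟮t⟯ := by
    rw [trdeg_add_eq, ← hL]
    exact trdeg_le_of_injective ψ ψ.injective
  have h7 : Algebra.trdeg M M⟮t⟯ ≤ (1 : ℕ) := by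
    have := trdeg_adjoin_le (k := M) (fun _ : Fin 1 => t)
    rwa [Set.range_const] at this
  have ht : Transcendental M t := by
    intro ht
    have := isAlgebraic_adjoin_simple ht.isIntegral
    rw [trdeg_eq_zero (R := M) (A := M⟮t⟯), add_zero] at h6
    have := h6.trans h4
    norm_cast at this
    omega
  refine ⟨M, inferInstance, inferInstance, h2, ?_,
    ⟨((RatFunc.algEquivOfTranscendental t ht).symm.toAlgHom.restrictScalars ℂ).comp ψ⟩⟩
  rw [hL]
  refine le_antisymm ?_ (h6.trans ?_)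
  · push_cast; gcongr
  · gcongr; exact_mod_cast h7

end Pool.Agent.Lib.MP_e06174_ag
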