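import Pool.Agent.Lib.MP_e06174_ag.Center

/-! Function fields in one variable: coordinates, existence of places, constants. -/

set_option linter.unusedSectionVars false

open Polynomial IntermediateField

namespace Pool.Agent.Lib.MP_e06174_ag

variable {k F : Type*} [Field k] [Field F] [Algebra k F]

/-- `x` is transcendental and `F` is finite over `k(x)`. -/
structure IsCoord (k : Type*) [Field k] [Algebra k F] (x : F) : Prop where
  trans : Transcendental k x
  fin : FiniteDimensional k⟮x⟯ F

/-- Evaluation of rational functions at a transcendental element. -/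
noncomputable def ev {x : F} (hx : Transcendental k x) : RatFunc k →ₐ[k] F :=
  (k⟮x⟯.val).comp (RatFunc.algEquivOfTranscendental x hx).toAlgHom

lemma ev_algebraMap {x : F} (hx : Transcendental k x) (P : k[X]) :
    ev hx (algebraMap k[X] (RatFunc k) P) = aeval x P := by
  have := aeval_algHom_apply k⟮x⟯.val (AdjoinSimple.gen k x) P
  change k⟮x⟯.val (RatFunc.algEquivOfTranscendental x hx _) = _
  rw [RatFunc.algEquivOfTranscendental_algebraMap]
  exact this.symm

lemma ev_X {x : F} (hx : Transcendental k x) : ev hx RatFunc.X = x := by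
  simp [ev]

lemma IsCoord.setup {x : F} (h : IsCoord k x) :
    ∃ (_ : Algebra k[X] F) (_ : Algebra (RatFunc k) F) (_ : IsScalarTower k k[X] F)
      (_ : IsScalarTower k[X] (RatFunc k) F) (_ : IsScalarTower k (RatFunc k) F)
      (_ : FiniteDimensional (RatFunc k) F),
      x = algebraMap k[X] F X ∧ Module.finrank (RatFunc k) F = Module.finrank k⟮x⟯ F := by
  let i1 : Algebra k[X] F := (aeval x : k[X] →ₐ[k] F).toRingHom.toAlgebra
  let i2 : Algebra (RatFunc k) F := (ev h.trans).toRingHom.toAlgebra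
  have := h.fin
  refine ⟨i1, i2, .of_algebraMap_eq fun c => ?_, .of_algebraMap_eq fun P => ?_,
    .of_algebraMap_eq fun c => ?_, ?_, ?_, ?_⟩
  · exact ((aeval x : k[X] →ₐ[k] F).commutes c).symm
  · exact (ev_algebraMap h.trans P).symm
  · exact ((ev h.trans).commutes c).symm
  · refine Module.Finite.of_equiv_equiv
      (RatFunc.algEquivOfTranscendental x h.trans).symm.toRingEquiv (RingEquiv.refl F) ?_
    ext y
    change ev h.trans _ = _
    simp [ev]
  · exact (aeval_X x).symm
  · refine Algebra.finrank_eq_of_equiv_equiv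
      (RatFunc.algEquivOfTranscendental x h.trans).toRingEquiv (RingEquiv.refl F) ?_
    ext y; rfl

section setting

variable [Algebra k[X] F] [IsScalarTower k k[X] F]

lemma alg_eq_aeval (P : k[X]) : algebraMap k[X] F P = aeval (algebraMap k[X] F X) P := by
  rw [aeval_algebraMap_apply]; simp

variable [Algebra (RatFunc k) F] [IsScalarTower k[X] (RatFunc k) F]
  [IsScalarTower k (RatFunc k) F]

omit [IsScalarTower k k[X] F] [IsScalarTower k (RatFunc k) F] in
lemma alg_X : algebraMap (RatFunc k) F RatFunc.X = algebraMap k[X] F X := by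
  rw [← RatFunc.algebraMap_X, ← IsScalarTower.algebraMap_apply]

omit [IsScalarTower k k[X] F] in
lemma isCoord_setting [FiniteDimensional (RatFunc k) F] : IsCoord k (algebraMap k[X] F X) := by
  rw [← alg_X]
  exact ⟨(transcendental_algebraMap_iff (algebraMap (RatFunc k) F).injective).2
    RatFunc.transcendental_X, FunctionField.FiniteDimensional.adjoin_algebraMap_X⟩

end setting

lemma IsCoord.of_transcendental {x y : F} (h : IsCoord k x) (hy : Transcendental k y) :
    IsCoord k y := by
  obtain ⟨_, _, _, _, _, _, -, -⟩ := h.setup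
  exact ⟨hy, FunctionField.finiteDimensional_of_adjoin_transcendental hy⟩

lemma IsCoord.of_algHom {D : Type*} [Field D] [Algebra k D] (ι : D →ₐ[k] F) {x : D}
    (h : IsCoord k (ι x)) : IsCoord k x := by
  have hx : Transcendental k x := fun hx => h.trans (hx.algHom ι)
  obtain ⟨_, _, _, _, _, _, hxe, -⟩ := h.setup
  let i1 : Algebra k[X] D := (aeval x : k[X] →ₐ[k] D).toRingHom.toAlgebra
  let i2 : Algebra (RatFunc k) D := (ev hx).toRingHom.toAlgebra
  have : IsScalarTower k[X] (RatFunc k) D :=
    .of_algebraMap_eq fun P => (ev_algebraMap hx P).symm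
  have : IsScalarTower k (RatFunc k) D := .of_algebraMap_eq fun c => ((ev hx).commutes c).symm
  have key : ∀ r : RatFunc k, ι (ev hx r) = algebraMap (RatFunc k) F r := by
    intro r
    induction r using RatFunc.induction_on with
    | f p q hq =>
      rw [map_div₀, map_div₀, map_div₀, ev_algebraMap, ev_algebraMap, ← aeval_algHom_apply,
        ← aeval_algHom_apply, ← IsScalarTower.algebraMap_apply, ← IsScalarTower.algebraMap_apply,
        alg_eq_aeval p, alg_eq_aeval q, hxe]
  let j : D →ₗ[RatFunc k] F :=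
    { toFun := ι
      map_add' := map_add ι
      map_smul' := fun r y => by
        rw [Algebra.smul_def, map_mul, RingHom.id_apply, Algebra.smul_def, ← key]; rfl }
  have : FiniteDimensional (RatFunc k) D := Module.Finite.of_injective j ι.injective
  have h2 := isCoord_setting (k := k) (F := D)
  have h3 : algebraMap k[X] D X = x := aeval_X x
  rwa [h3] at h2

lemma IsCoord.isAlgebraic {x : F} (h : IsCoord k x) (y : F) : IsAlgebraic k⟮x⟯ y :=
  have := h.fin
  Algebra.IsAlgebraic.isAlgebraic y

lemma transcendental_of_ne_const [IsAlgClosed k] {y : F} (hy : ∀ c : k, y ≠ algebraMap k F c) :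
    Transcendental k y := by
  intro h
  have h1 := h.isIntegral
  have h2 := minpoly.irreducible h1
  have h3 := IsAlgClosed.degree_eq_one_of_irreducible k h2
  obtain ⟨c, hc⟩ := minpoly.mem_range_of_degree_eq_one k y h3
  exact hy c hc.symm

lemma exists_div_of_mem {x y : F} (h : y ∈ k⟮x⟯) :
    ∃ P Q : k[X], Q ≠ 0 ∧ y = aeval x P / aeval x Q := by
  obtain ⟨P, Q, rfl⟩ := (mem_adjoin_simple_iff k y).1 h
  by_cases hQ : Q = 0
  · exact ⟨0, 1, one_ne_zero, by simp [hQ]⟩
  · exact ⟨P, Q, hQ, rfl⟩

namespace Place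

section rational

variable {x : F} {p q : Place k F}

lemma exists_div_ne {y : F} (hgen : k⟮x⟯ = ⊤) (hy : y ≠ 0) :
    ∃ P Q : k[X], P ≠ 0 ∧ Q ≠ 0 ∧ y = aeval x P / aeval x Q := by
  obtain ⟨P, Q, hQ, rfl⟩ := exists_div_of_mem (k := k) (x := x) (y := y) (by rw [hgen]; trivial)
  refine ⟨P, Q, ?_, hQ, rfl⟩
  rintro rfl
  simp at hy

lemma At.ord_div {a : k} (ha : p.At x a) (hx : Transcendental k x) {P Q : k[X]} (hP : P ≠ 0)
    (hQ : Q ≠ 0) : p.ord (Polynomial.aeval x P / Polynomial.aeval x Q) =
      ((P.rootMultiplicity a : ℤ) - Q.rootMultiplicity a) * p.ord (x - algebraMap k F a) := by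
  rw [p.ord_div (aeval_ne_zero hx hP) (aeval_ne_zero hx hQ), ha.ord_aeval hx hP,
    ha.ord_aeval hx hQ]; ring

lemma ord_div_of_pole (h : p.ord x < 0) (hx : Transcendental k x) {P Q : k[X]} (hP : P ≠ 0)
    (hQ : Q ≠ 0) : p.ord (Polynomial.aeval x P / Polynomial.aeval x Q) =
      ((P.natDegree : ℤ) - Q.natDegree) * p.ord x := by
  rw [p.ord_div (aeval_ne_zero hx hP) (aeval_ne_zero hx hQ), ord_aeval_of_pole h hP,
    ord_aeval_of_pole h hQ]; ring

lemma At.ord_eq_one {a : k} (ha : p.At x a) (hx : Transcendental k x) (hgen : k⟮x⟯ = ⊤) :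
    p.ord (x - algebraMap k F a) = 1 := by
  obtain ⟨π, h0, hπ⟩ := p.exists_ord_eq_one
  obtain ⟨P, Q, hP, hQ, rfl⟩ := exists_div_ne hgen h0
  rw [ha.ord_div hx hP hQ] at hπ
  have := ha.ord_pos hx
  have := Int.eq_one_or_neg_one_of_mul_eq_one' hπ
  omega

lemma ord_eq_neg_one_of_pole (h : p.ord x < 0) (hx : Transcendental k x) (hgen : k⟮x⟯ = ⊤) :
    p.ord x = -1 := by
  obtain ⟨π, h0, hπ⟩ := p.exists_ord_eq_one
  obtain ⟨P, Q, hP, hQ, rfl⟩ := exists_div_ne hgen h0
  rw [ord_div_of_pole h hx hP hQ] at hπ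
  have := Int.eq_one_or_neg_one_of_mul_eq_one' hπ
  omega

lemma At.ext {a : k} (ha : p.At x a) (hb : q.At x a) (hx : Transcendental k x)
    (hgen : k⟮x⟯ = ⊤) : p = q := by
  refine ext_ord fun y hy => ?_
  obtain ⟨P, Q, hP, hQ, rfl⟩ := exists_div_ne hgen hy
  rw [ha.ord_div hx hP hQ, hb.ord_div hx hP hQ, ha.ord_eq_one hx hgen, hb.ord_eq_one hx hgen]

lemma ext_pole (ha : p.ord x < 0) (hb : q.ord x < 0) (hx : Transcendental k x)
    (hgen : k⟮x⟯ = ⊤) : p = q := by
  refine ext_ord fun y hy => ?_
  obtain ⟨P, Q, hP, hQ, rfl⟩ := exists_div_ne hgen hy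
  rw [ord_div_of_pole ha hx hP hQ, ord_div_of_pole hb hx hP hQ, ord_eq_neg_one_of_pole ha hx hgen,
    ord_eq_neg_one_of_pole hb hx hgen]

/-- The place of `k(X)` at a finite point. -/
noncomputable def vAt (a : k) : Place k (RatFunc k) :=
  ofPrime (R := k[X]) (fun c => ⟨C c, by simp⟩)
    ⟨Ideal.span {X - C a}, (Ideal.span_singleton_prime (X_sub_C_ne_zero a)).2 (prime_X_sub_C a),
      by simpa using X_sub_C_ne_zero a⟩

lemma vAt_at (a : k) : (vAt a).At RatFunc.X a := by
  have := (ofPrime_ge_one_iff (F := RatFunc k) (R := k[X]) (fun c => ⟨C c, by simp⟩)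
    ⟨Ideal.span {X - C a}, (Ideal.span_singleton_prime (X_sub_C_ne_zero a)).2 (prime_X_sub_C a),
      by simpa using X_sub_C_ne_zero a⟩ (X - C a)).2 (Ideal.mem_span_singleton_self _)
  simpa [At, vAt] using this

open Classical in
/-- The place of `k(X)` at infinity. -/
noncomputable def vInf : Place k (RatFunc k) where
  v := RatFunc.inftyValuation k
  triv := fun c hc => Valuation.IsTrivialOn.eq_one c hc
  surj := ⟨_, RatFunc.inftyValuation.X_inv k⟩

lemma vInf_X : (vInf (k := k)).ord RatFunc.X = -1 := by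
  classical
  have : (vInf (k := k)).v RatFunc.X = WithZero.exp 1 := by
    convert RatFunc.inftyValuation.X k; rfl
  simp [ord, this]

end rational

section setting

variable [Algebra k[X] F] [IsScalarTower k k[X] F] [Algebra (RatFunc k) F]
  [IsScalarTower k[X] (RatFunc k) F] [IsScalarTower k (RatFunc k) F]

omit [IsScalarTower k k[X] F] in
lemma toAlgHom_X : IsScalarTower.toAlgHom k (RatFunc k) F RatFunc.X = algebraMap k[X] F X := alg_X

omit [IsScalarTower k k[X] F] in
lemma At.over {w : Place k F} {a : k} (h : w.At (algebraMap k[X] F X) a) :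
    ∃ e : ℕ, w.Over (IsScalarTower.toAlgHom k (RatFunc k) F) (vAt a) e ∧
      w.ord (algebraMap k[X] F X - algebraMap k F a) = e := by
  have hx : Transcendental k (algebraMap k[X] F X) := by
    rw [← alg_X]
    exact (transcendental_algebraMap_iff (algebraMap (RatFunc k) F).injective).2
      RatFunc.transcendental_X
  have h1 : IsScalarTower.toAlgHom k (RatFunc k) F (RatFunc.X - algebraMap k _ a) =
      algebraMap k[X] F X - algebraMap k F a := by rw [map_sub, toAlgHom_X, AlgHom.commutes]
  rcases w.restrict (IsScalarTower.toAlgHom k (RatFunc k) F) with h0 | ⟨q, e, he⟩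
  · have := h0 (RatFunc.X - algebraMap k _ a)
    rw [h1] at this
    have := h.ord_pos hx
    omega
  · have h2 : q.At RatFunc.X a := (Over.at_iff he a).1 (by rwa [toAlgHom_X])
    obtain rfl := h2.ext (vAt_at a) RatFunc.transcendental_X RatFunc.adjoin_X
    refine ⟨e, he, ?_⟩
    rw [← h1, he.2, h2.ord_eq_one RatFunc.transcendental_X RatFunc.adjoin_X, mul_one]

omit [IsScalarTower k k[X] F] in
lemma over_of_pole {w : Place k F} (h : w.ord (algebraMap k[X] F X) < 0) :
    ∃ e : ℕ, w.Over (IsScalarTower.toAlgHom k (RatFunc k) F) vInf e ∧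
      w.ord (algebraMap k[X] F X) = -e := by
  rcases w.restrict (IsScalarTower.toAlgHom k (RatFunc k) F) with h0 | ⟨q, e, he⟩
  · have := h0 RatFunc.X
    rw [toAlgHom_X] at this
    omega
  · have h2 : q.ord RatFunc.X < 0 := (Over.pole_iff he).1 (by rwa [toAlgHom_X])
    obtain rfl := ext_pole h2 (q := vInf) (by rw [vInf_X]; omega) RatFunc.transcendental_X
      RatFunc.adjoin_X
    refine ⟨e, he, ?_⟩
    rw [← toAlgHom_X, he.2, vInf_X]; simp

end setting

end Place

open Place

variable [CharZero k] {x : F}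

lemma IsCoord.exists_at (h : IsCoord k x) (a : k) : ∃ p : Place k F, p.At x a := by
  obtain ⟨_, _, _, _, _, _, rfl, -⟩ := h.setup
  obtain ⟨w, e, hw⟩ := exists_over F (vAt a)
  exact ⟨w, by rw [← toAlgHom_X]; exact (hw.at_iff a).2 (vAt_at a)⟩

lemma IsCoord.exists_pole (h : IsCoord k x) : ∃ p : Place k F, p.ord x < 0 := by
  obtain ⟨_, _, _, _, _, _, rfl, -⟩ := h.setup
  obtain ⟨w, e, hw⟩ := exists_over F (vInf (k := k))
  exact ⟨w, by rw [← toAlgHom_X]; exact hw.pole_iff.2 (by rw [vInf_X]; omega)⟩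

lemma IsCoord.finite_at (h : IsCoord k x) (a : k) : {p : Place k F | p.At x a}.Finite := by
  obtain ⟨_, _, _, _, _, _, rfl, -⟩ := h.setup
  exact (finite_over F (vAt a)).subset fun w hw => (At.over hw).imp fun e he => he.1

lemma IsCoord.finite_pole (h : IsCoord k x) : {p : Place k F | p.ord x < 0}.Finite := by
  obtain ⟨_, _, _, _, _, _, rfl, -⟩ := h.setup
  exact (finite_over F vInf).subset fun w hw => (over_of_pole hw).imp fun e he => he.1

lemma IsCoord.sum_pole_le (h : IsCoord k x) (T : Finset (Place k F)) (hT : ∀ p ∈ T, p.ord x < 0) :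
    ∑ p ∈ T, (p.ord x).natAbs ≤ Module.finrank k⟮x⟯ F := by
  obtain ⟨_, _, _, _, _, _, rfl, h2⟩ := h.setup
  rw [← h2]
  refine sum_ram_le vInf T _ fun w hw => ?_
  obtain ⟨e, he, he'⟩ := over_of_pole (hT w hw)
  rwa [he', Int.natAbs_neg, Int.natAbs_natCast]

variable [IsAlgClosed k]

omit [CharZero k] in
lemma IsCoord.pole_or_at (h : IsCoord k x) (p : Place k F) : p.ord x < 0 ∨ ∃ a, p.At x a := by
  by_contra h1
  push Not at h1
  exact not_generic h.trans h.isAlgebraic fun P hP =>
    ord_aeval_of_generic h.trans (ge_of_le h1.1) (by simpa using h1.2) hP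

omit [CharZero k] in
/-- The residue field of a place of a curve is the field of constants. -/
lemma IsCoord.at_cen (h : IsCoord k x) {p : Place k F} {y : F} (hy : p.Ge 0 y) :
    p.At y (p.cen y) := by
  suffices ∃ c, p.At y c by
    obtain ⟨c, hc⟩ := this
    rwa [hc.cen_eq]
  by_cases h1 : ∃ c : k, y = algebraMap k F c
  · obtain ⟨c, rfl⟩ := h1
    exact ⟨c, by simp [At]⟩
  push Not at h1
  have h2 := transcendental_of_ne_const h1
  rcases (h.of_transcendental h2).pole_or_at p with h3 | h3
  · have := hy.le (ne_zero_of_transcendental h2); omega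
  · exact h3

/-- A function without poles is constant. -/
lemma IsCoord.const_of_forall_ge (h : IsCoord k x) {y : F} (hy : ∀ p : Place k F, p.Ge 0 y) :
    ∃ c : k, y = algebraMap k F c := by
  by_contra h1
  push Not at h1
  have h2 := transcendental_of_ne_const h1
  obtain ⟨p, hp⟩ := (h.of_transcendental h2).exists_pole
  have := (hy p).le (ne_zero_of_transcendental h2)
  omega

omit [CharZero k] in
lemma IsCoord.ord_loc_ne_zero (h : IsCoord k x) (p : Place k F) : p.ord (p.loc x) ≠ 0 := by
  rcases h.pole_or_at p with h1 | ⟨a, ha⟩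
  · rw [loc_eq_of_pole h1]; omega
  · rw [ha.loc_eq]; have := ha.ord_pos h.trans; omega

/-- A nonzero function has finitely many poles. -/
lemma IsCoord.finite_poles (h : IsCoord k x) (y : F) : {p : Place k F | p.ord y < 0}.Finite := by
  by_cases h1 : ∃ c : k, y = algebraMap k F c
  · obtain ⟨c, rfl⟩ := h1
    simp
  push Not at h1
  exact (h.of_transcendental (transcendental_of_ne_const h1)).finite_pole

end Pool.Agent.Lib.MP_e06174_ag
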