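import Mathlib

/-! Normalised discrete valuations of a field extension `F / k`, trivial on `k`. -/

open WithZero

namespace Pool.Agent.Lib.MP_e06174_ag

/-- A place: a surjective `ℤ`-valued valuation of `F` that is trivial on `k`. -/
structure Place (k F : Type*) [Field k] [Field F] [Algebra k F] where
  v : Valuation F (WithZero (Multiplicative ℤ))
  triv : ∀ c : k, c ≠ 0 → v (algebraMap k F c) = 1
  surj : ∃ π : F, v π = exp (-1)

namespace Place

variable {k F : Type*} [Field k] [Field F] [Algebra k F]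

/-- The order of vanishing, with junk value `0` at `0`. -/
noncomputable def ord (p : Place k F) (x : F) : ℤ := - log (p.v x)

/-- `x` vanishes to order at least `n` (true for `x = 0`). -/
def Ge (p : Place k F) (n : ℤ) (x : F) : Prop := p.v x ≤ exp (-n)

variable (p : Place k F)

lemma v_ne_zero {x : F} (hx : x ≠ 0) : p.v x ≠ 0 := by simpa using hx

lemma v_eq {x : F} (hx : x ≠ 0) : p.v x = exp (-p.ord x) := by
  simp [ord, exp_log (p.v_ne_zero hx)]

@[simp] lemma ord_zero : p.ord 0 = 0 := by simp [ord]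

@[simp] lemma ord_one : p.ord 1 = 0 := by simp [ord]

lemma ord_mul {x y : F} (hx : x ≠ 0) (hy : y ≠ 0) : p.ord (x * y) = p.ord x + p.ord y := by
  simp only [ord, map_mul, log_mul (p.v_ne_zero hx) (p.v_ne_zero hy)]; ring

@[simp] lemma ord_inv (x : F) : p.ord x⁻¹ = - p.ord x := by
  simp [ord, log_inv]

lemma ord_div {x y : F} (hx : x ≠ 0) (hy : y ≠ 0) : p.ord (x / y) = p.ord x - p.ord y := by
  rw [div_eq_mul_inv, p.ord_mul hx (inv_ne_zero hy), ord_inv]; ring

@[simp] lemma ord_pow (x : F) (n : ℕ) : p.ord (x ^ n) = n * p.ord x := by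
  simp [ord, log_pow]

@[simp] lemma ord_zpow (x : F) (n : ℤ) : p.ord (x ^ n) = n * p.ord x := by
  simp [ord, log_zpow]

@[simp] lemma ord_neg (x : F) : p.ord (-x) = p.ord x := by simp [ord]

@[simp] lemma ord_const (c : k) : p.ord (algebraMap k F c) = 0 := by
  by_cases hc : c = 0
  · simp [hc]
  · simp [ord, p.triv c hc]

lemma ord_smul {c : k} (hc : c ≠ 0) (x : F) : p.ord (c • x) = p.ord x := by
  simp [ord, Algebra.smul_def, p.triv c hc]

lemma ord_prod {ι : Type*} (s : Finset ι) (f : ι → F) (hf : ∀ i ∈ s, f i ≠ 0) :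
    p.ord (∏ i ∈ s, f i) = ∑ i ∈ s, p.ord (f i) := by
  classical
  induction s using Finset.induction_on with
  | empty => simp
  | insert a s ha ih =>
    rw [Finset.prod_insert ha, Finset.sum_insert ha, p.ord_mul (hf a (by simp))
      (Finset.prod_ne_zero_iff.mpr fun i hi => hf i (by simp [hi])),
      ih fun i hi => hf i (by simp [hi])]

lemma exists_ord_eq_one : ∃ π : F, π ≠ 0 ∧ p.ord π = 1 := by
  obtain ⟨π, hπ⟩ := p.surj
  refine ⟨π, ?_, by simp [ord, hπ]⟩
  rintro rfl
  simp at hπ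
  exact exp_ne_zero hπ.symm

lemma exists_ord_eq (n : ℤ) : ∃ x : F, x ≠ 0 ∧ p.ord x = n := by
  obtain ⟨π, h0, hπ⟩ := p.exists_ord_eq_one
  exact ⟨π ^ n, zpow_ne_zero _ h0, by simp [hπ]⟩

variable {p}

lemma ge_iff {n : ℤ} {x : F} (hx : x ≠ 0) : p.Ge n x ↔ n ≤ p.ord x := by
  rw [Ge, p.v_eq hx, exp_le_exp]; omega

lemma ge_iff' {n : ℤ} {x : F} : p.Ge n x ↔ x = 0 ∨ n ≤ p.ord x := by
  by_cases hx : x = 0
  · simp [hx, Ge]
  · simp [hx, ge_iff hx]

lemma ge_of_le {n : ℤ} {x : F} (h : n ≤ p.ord x) : p.Ge n x := ge_iff'.2 (Or.inr h)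

lemma ge_ord (x : F) : p.Ge (p.ord x) x := ge_of_le le_rfl

lemma Ge.le {n : ℤ} {x : F} (h : p.Ge n x) (hx : x ≠ 0) : n ≤ p.ord x := (ge_iff hx).1 h

@[simp] lemma ge_zero (n : ℤ) : p.Ge n 0 := by simp [Ge]

lemma Ge.mono {m n : ℤ} {x : F} (h : p.Ge n x) (hmn : m ≤ n) : p.Ge m x :=
  le_trans h (by rw [exp_le_exp]; omega)

lemma Ge.add {n : ℤ} {x y : F} (hx : p.Ge n x) (hy : p.Ge n y) : p.Ge n (x + y) :=
  p.v.map_add_le hx hy

lemma Ge.neg {n : ℤ} {x : F} (hx : p.Ge n x) : p.Ge n (-x) := by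
  simpa [Ge] using hx

lemma Ge.sub {n : ℤ} {x y : F} (hx : p.Ge n x) (hy : p.Ge n y) : p.Ge n (x - y) := by
  rw [sub_eq_add_neg]; exact hx.add hy.neg

lemma Ge.sum {ι : Type*} {n : ℤ} {s : Finset ι} {f : ι → F} (h : ∀ i ∈ s, p.Ge n (f i)) :
    p.Ge n (∑ i ∈ s, f i) :=
  p.v.map_sum_le h

lemma Ge.mul {m n : ℤ} {x y : F} (hx : p.Ge m x) (hy : p.Ge n y) : p.Ge (m + n) (x * y) := by
  unfold Ge at *
  rw [map_mul, neg_add, exp_add]
  exact mul_le_mul' hx hy

lemma Ge.mul' {m n l : ℤ} {x y : F} (hx : p.Ge m x) (hy : p.Ge n y) (h : l ≤ m + n) :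
    p.Ge l (x * y) := (hx.mul hy).mono h

lemma ge_const (c : k) : p.Ge 0 (algebraMap k F c) := ge_of_le (by simp)

lemma ge_one : p.Ge 0 (1 : F) := ge_of_le (by simp)

lemma ge_natCast (n : ℕ) : p.Ge 0 (n : F) := by
  simpa using ge_const (p := p) (n : k)

lemma ge_intCast (n : ℤ) : p.Ge 0 (n : F) := by
  simpa using ge_const (p := p) (n : k)

lemma Ge.smul {n : ℤ} {x : F} (hx : p.Ge n x) (c : k) : p.Ge n (c • x) := by
  rw [Algebra.smul_def]; simpa using (ge_const c).mul hx

lemma Ge.pow {n : ℤ} {x : F} (hx : p.Ge n x) (m : ℕ) : p.Ge (m * n) (x ^ m) := by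
  induction m with
  | zero => simpa using ge_one
  | succ m ih => rw [pow_succ]; exact ih.mul' hx (by push_cast; linarith)

lemma Ge.prod {ι : Type*} {s : Finset ι} {n : ι → ℤ} {f : ι → F}
    (h : ∀ i ∈ s, p.Ge (n i) (f i)) : p.Ge (∑ i ∈ s, n i) (∏ i ∈ s, f i) := by
  classical
  induction s using Finset.induction_on with
  | empty => simpa using ge_one
  | insert a s ha ih =>
    rw [Finset.prod_insert ha, Finset.sum_insert ha]
    exact (h a (by simp)).mul (ih fun i hi => h i (by simp [hi]))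

lemma Ge.prod_zero {ι : Type*} {s : Finset ι} {f : ι → F}
    (h : ∀ i ∈ s, p.Ge 0 (f i)) : p.Ge 0 (∏ i ∈ s, f i) := by
  simpa using Ge.prod (n := fun _ => 0) h

lemma ge_zero_iff {x : F} : p.Ge 0 x ↔ p.v x ≤ 1 := by simp [Ge]

lemma ge_one_iff {x : F} : p.Ge 1 x ↔ p.v x < 1 := by
  by_cases hx : x = 0
  · simp [hx]
  · rw [ge_iff hx, p.v_eq hx, ← exp_zero, exp_lt_exp]; omega

lemma not_ge_iff {n : ℤ} {x : F} : ¬ p.Ge n x ↔ x ≠ 0 ∧ p.ord x < n := by
  rw [ge_iff']; push Not; rfl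

lemma not_ge_one_const {c : k} (hc : c ≠ 0) : ¬ p.Ge 1 (algebraMap k F c) := by
  rw [not_ge_iff]; exact ⟨by simpa using hc, by simp⟩

lemma eq_zero_of_ge_one_const {c : k} (h : p.Ge 1 (algebraMap k F c)) : c = 0 := by
  by_contra hc; exact not_ge_one_const hc h

/-- If `y` vanishes to higher order than `x`, then `x + y` has the order of `x`. -/
lemma ord_add_of_ge {x y : F} (hx : x ≠ 0) (hy : p.Ge (p.ord x + 1) y) :
    x + y ≠ 0 ∧ p.ord (x + y) = p.ord x := by
  have h : p.v y < p.v x := by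
    refine lt_of_le_of_lt hy ?_
    rw [p.v_eq hx, exp_lt_exp]; omega
  have h2 := p.v.map_add_eq_of_lt_left h
  refine ⟨?_, by simp [ord, h2]⟩
  intro h0
  rw [h0, map_zero] at h2
  exact p.v_ne_zero hx h2.symm

lemma ord_eq_of_ge_sub {x y : F} (hx : x ≠ 0) (hy : p.Ge (p.ord x + 1) (y - x)) :
    y ≠ 0 ∧ p.ord y = p.ord x := by
  simpa using ord_add_of_ge hx hy

/-- An element congruent to a nonzero constant is a unit. -/
lemma ord_eq_zero_of_ge_sub_const {y : F} {c : k} (hc : c ≠ 0)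
    (hy : p.Ge 1 (y - algebraMap k F c)) : y ≠ 0 ∧ p.ord y = 0 := by
  have := ord_eq_of_ge_sub (p := p) (x := algebraMap k F c) (y := y) (by simpa using hc)
    (by simpa using hy)
  simpa using this

lemma ext_ord {p q : Place k F} (h : ∀ x, x ≠ 0 → p.ord x = q.ord x) : p = q := by
  have hv : p.v = q.v := by
    ext x
    by_cases hx : x = 0
    · simp [hx]
    · rw [p.v_eq hx, q.v_eq hx, h x hx]
  cases p; cases q; simp only at hv; subst hv; rfl

/-- Places are determined by their valuation rings; even an inclusion suffices. -/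
lemma ext_of_ge {p q : Place k F} (h : ∀ x, p.Ge 0 x → q.Ge 0 x) : p = q := by
  obtain ⟨π, h0, hπ⟩ := p.exists_ord_eq_one
  have hu : ∀ u : F, u ≠ 0 → p.ord u = 0 → q.ord u = 0 := by
    intro u hu0 hu
    have h1 := (h u (ge_of_le hu.ge)).le hu0
    have h2 := (h u⁻¹ (ge_of_le (by simp [hu]))).le (inv_ne_zero hu0)
    simp at h2; omega
  have key : ∀ x, x ≠ 0 → q.ord x = p.ord x * q.ord π := by
    intro x hx
    have h1 := hu (x / π ^ (p.ord x)) (div_ne_zero hx (zpow_ne_zero _ h0))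
      (by rw [p.ord_div hx (zpow_ne_zero _ h0)]; simp [hπ])
    rw [q.ord_div hx (zpow_ne_zero _ h0)] at h1
    simp at h1; linarith
  have h1 : 0 ≤ q.ord π := (h π (ge_of_le (by omega))).le h0
  obtain ⟨ρ, hρ0, hρ⟩ := q.exists_ord_eq_one
  have h2 := key ρ hρ0
  rw [hρ] at h2
  have h3 : q.ord π = 1 := by
    have := Int.eq_one_or_neg_one_of_mul_eq_one' h2.symm
    omega
  exact ext_ord fun x hx => by rw [key x hx, h3, mul_one]

/-- A place from an order function. -/
noncomputable def ofOrd (o : F → ℤ) (hmul : ∀ x y, x ≠ 0 → y ≠ 0 → o (x * y) = o x + o y)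
    (hadd : ∀ x y, x ≠ 0 → y ≠ 0 → x + y ≠ 0 → min (o x) (o y) ≤ o (x + y))
    (hc : ∀ c : k, c ≠ 0 → o (algebraMap k F c) = 0) (hs : ∃ π, π ≠ 0 ∧ o π = 1) :
    Place k F := by
  classical
  exact
  { v :=
    { toFun := fun x => if x = 0 then 0 else exp (-o x)
      map_zero' := by simp
      map_one' := by
        have := hc 1 one_ne_zero
        simp at this
        simp [this]
      map_mul' := by
        intro x y
        by_cases hx : x = 0
        · simp [hx]
        by_cases hy : y = 0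
        · simp [hy]
        simp only [hx, hy, mul_eq_zero, or_self, if_false, hmul x y hx hy, neg_add, exp_add]
      map_add_le_max' := by
        intro x y
        by_cases hx : x = 0
        · simp [hx]
        by_cases hy : y = 0
        · simp [hy]
        by_cases hxy : x + y = 0
        · simp [hxy]
        have := hadd x y hx hy hxy
        simp only [hx, hy, hxy, if_false, le_max_iff, exp_le_exp]
        omega }
    triv := by
      intro c hc0
      have h1 : algebraMap k F c ≠ 0 := by simpa using hc0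
      change (if algebraMap k F c = 0 then 0 else exp (-o (algebraMap k F c))) = 1
      rw [if_neg h1, hc c hc0]; simp
    surj := by
      obtain ⟨π, h0, hπ⟩ := hs
      refine ⟨π, ?_⟩
      change (if π = 0 then 0 else exp (-o π)) = _
      rw [if_neg h0, hπ] }

lemma ofOrd_ord (o : F → ℤ) (hmul hadd hc hs) {x : F} (hx : x ≠ 0) :
    (ofOrd (k := k) o hmul hadd hc hs).ord x = o x := by
  classical
  have : (ofOrd (k := k) o hmul hadd hc hs).v x = if x = 0 then 0 else exp (-o x) := by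
    unfold ofOrd; congr
  simp [ord, this, hx]

lemma min_le_ord_add {x y : F} (hxy : x + y ≠ 0) :
    min (p.ord x) (p.ord y) ≤ p.ord (x + y) :=
  (((ge_ord x).mono (min_le_left _ _)).add ((ge_ord y).mono (min_le_right _ _))).le hxy

/-- Restriction of a place to a subfield: trivial, or a positive multiple of a place. -/
lemma restrict {K : Type*} [Field K] [Algebra k K] (w : Place k K) (ι : F →ₐ[k] K) :
    (∀ x, w.ord (ι x) = 0) ∨
      ∃ (p : Place k F) (c : ℕ), 1 ≤ c ∧ ∀ x, w.ord (ι x) = c * p.ord x := by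
  by_cases h : ∀ x, w.ord (ι x) = 0
  · exact Or.inl h
  right
  push Not at h
  obtain ⟨x0, hx0⟩ := h
  have hι : ∀ x : F, x ≠ 0 → ι x ≠ 0 := fun x hx => by simpa using hx
  let H : AddSubgroup ℤ :=
    { carrier := {n | ∃ x : F, x ≠ 0 ∧ w.ord (ι x) = n}
      zero_mem' := ⟨1, one_ne_zero, by simp⟩
      add_mem' := by
        rintro _ _ ⟨x, hx, rfl⟩ ⟨y, hy, rfl⟩
        exact ⟨x * y, mul_ne_zero hx hy, by rw [map_mul, w.ord_mul (hι x hx) (hι y hy)]⟩
      neg_mem' := by
        rintro _ ⟨x, hx, rfl⟩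
        exact ⟨x⁻¹, inv_ne_zero hx, by simp⟩ }
  obtain ⟨a, ha⟩ := Int.subgroup_cyclic H
  have hmem : ∀ x : F, x ≠ 0 → (a.natAbs : ℤ) ∣ w.ord (ι x) := by
    intro x hx
    have : w.ord (ι x) ∈ H := ⟨x, hx, rfl⟩
    rw [ha, AddSubgroup.mem_closure_singleton] at this
    obtain ⟨n, hn⟩ := this
    rw [Int.natAbs_dvd]
    exact ⟨n, by rw [← hn]; simp [mul_comm]⟩
  have hx00 : x0 ≠ 0 := by rintro rfl; simp at hx0
  have ha0 : a ≠ 0 := by
    rintro rfl
    have := hmem x0 hx00
    simp at this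
    exact hx0 this
  have hc : (0 : ℤ) < a.natAbs := by simpa using ha0
  have haH : (a.natAbs : ℤ) ∈ H := by
    have h1 : a ∈ H := by rw [ha]; exact AddSubgroup.subset_closure rfl
    rcases Int.natAbs_eq a with h | h
    · rwa [← h]
    · have := H.neg_mem h1
      rwa [show -a = (a.natAbs : ℤ) by omega] at this
  set c : ℤ := (a.natAbs : ℤ) with hcdef
  let o : F → ℤ := fun x => w.ord (ι x) / c
  have ho : ∀ x, x ≠ 0 → w.ord (ι x) = c * o x := fun x hx =>
    (Int.mul_ediv_cancel' (hmem x hx)).symm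
  refine ⟨ofOrd o ?_ ?_ ?_ ?_, a.natAbs, by omega, ?_⟩
  · intro x y hx hy
    apply mul_left_cancel₀ hc.ne'
    rw [mul_add, ← ho x hx, ← ho y hy, ← ho _ (mul_ne_zero hx hy), map_mul,
      w.ord_mul (hι x hx) (hι y hy)]
  · intro x y hx hy hxy
    have h1 := min_le_ord_add (p := w) (x := ι x) (y := ι y) (by rw [← map_add]; exact hι _ hxy)
    rw [← map_add, ho x hx, ho y hy, ho _ hxy] at h1
    rcases le_total (o x) (o y) with h | h
    · rw [min_eq_left h]
      rw [min_eq_left (mul_le_mul_of_nonneg_left h hc.le)] at h1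
      exact le_of_mul_le_mul_left h1 hc
    · rw [min_eq_right h]
      rw [min_eq_right (mul_le_mul_of_nonneg_left h hc.le)] at h1
      exact le_of_mul_le_mul_left h1 hc
  · intro c' _
    simp [o]
  · obtain ⟨x, hx, hx'⟩ := haH
    exact ⟨x, hx, by simp only [o, hx']; exact Int.ediv_self hc.ne'⟩
  · intro x
    by_cases hx : x = 0
    · simp [hx]
    · rw [ofOrd_ord _ _ _ _ _ hx]; exact ho x hx

/-- `w` lies over `p` along `ι` with ramification index `e`. -/
def Over {K : Type*} [Field K] [Algebra k K] (w : Place k K) (ι : F →ₐ[k] K) (p : Place k F)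
    (e : ℕ) : Prop := 1 ≤ e ∧ ∀ x, w.ord (ι x) = e * p.ord x

lemma Over.ge_iff {K : Type*} [Field K] [Algebra k K] {w : Place k K} {ι : F →ₐ[k] K}
    {p : Place k F} {e : ℕ} (h : w.Over ι p e) (n : ℤ) (x : F) :
    w.Ge (e * n) (ι x) ↔ p.Ge n x := by
  by_cases hx : x = 0
  · simp [hx]
  have hι : ι x ≠ 0 := by simpa using hx
  have he : (0 : ℤ) < e := by have := h.1; omega
  rw [Place.ge_iff hx, Place.ge_iff hι, h.2 x]
  exact ⟨fun h1 => le_of_mul_le_mul_left h1 he, fun h1 => mul_le_mul_of_nonneg_left h1 he.le⟩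

lemma Over.ge_zero_iff {K : Type*} [Field K] [Algebra k K] {w : Place k K} {ι : F →ₐ[k] K}
    {p : Place k F} {e : ℕ} (h : w.Over ι p e) (x : F) :
    w.Ge 0 (ι x) ↔ p.Ge 0 x := by simpa using h.ge_iff 0 x

lemma Over.ge_one_iff {K : Type*} [Field K] [Algebra k K] {w : Place k K} {ι : F →ₐ[k] K}
    {p : Place k F} {e : ℕ} (h : w.Over ι p e) (x : F) :
    w.Ge 1 (ι x) ↔ p.Ge 1 x := by
  by_cases hx : x = 0
  · simp [hx]
  have hι : ι x ≠ 0 := by simpa using hx
  have he : (0 : ℤ) < e := by have := h.1; omega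
  rw [Place.ge_iff hx, Place.ge_iff hι, h.2 x]
  constructor
  · intro h1; by_contra h2
    have : (e : ℤ) * p.ord x ≤ 0 := mul_nonpos_of_nonneg_of_nonpos he.le (by omega)
    omega
  · intro h1; nlinarith

lemma Over.unique {K : Type*} [Field K] [Algebra k K] {w : Place k K} {ι : F →ₐ[k] K}
    {p q : Place k F} {e e' : ℕ} (h : w.Over ι p e) (h' : w.Over ι q e') : p = q ∧ e = e' := by
  have hpq : p = q := ext_of_ge fun x hx => (h'.ge_zero_iff x).1 ((h.ge_zero_iff x).2 hx)
  subst hpq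
  obtain ⟨π, -, hπ⟩ := p.exists_ord_eq_one
  have h1 := h.2 π
  have h2 := h'.2 π
  rw [hπ] at h1 h2
  exact ⟨rfl, by omega⟩

lemma Over.comp {K E : Type*} [Field K] [Algebra k K] [Field E] [Algebra k E] {w : Place k K}
    {ι : F →ₐ[k] K} {p : Place k F} {e : ℕ} (h : w.Over ι p e) {j : E →ₐ[k] F} {q : Place k E}
    {e' : ℕ} (h' : p.Over j q e') : w.Over (ι.comp j) q (e * e') := by
  refine ⟨Nat.mul_pos h.1 h'.1, fun x => ?_⟩
  rw [AlgHom.comp_apply, h.2, h'.2]; push_cast; ring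

section action

variable {G : Type*} [Group G] [MulSemiringAction G F] [SMulCommClass G k F]

lemma smul_const (g : G) (c : k) : g • algebraMap k F c = algebraMap k F c := by
  rw [Algebra.algebraMap_eq_smul_one, smul_comm, smul_one]

instance : SMul G (Place k F) where
  smul g p :=
    { v := p.v.comap (MulSemiringAction.toRingHom G F g⁻¹)
      triv := fun c hc => by
        simp only [Valuation.comap_apply, MulSemiringAction.toRingHom_apply, smul_const]
        exact p.triv c hc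
      surj := by
        obtain ⟨π, hπ⟩ := p.surj
        exact ⟨g • π, by simpa using hπ⟩ }

@[simp] lemma smul_v (g : G) (p : Place k F) (x : F) : (g • p).v x = p.v (g⁻¹ • x) := rfl

@[simp] lemma smul_ord (g : G) (p : Place k F) (x : F) : (g • p).ord x = p.ord (g⁻¹ • x) := rfl

@[simp] lemma smul_ge (g : G) (p : Place k F) (n : ℤ) (x : F) :
    (g • p).Ge n x ↔ p.Ge n (g⁻¹ • x) := Iff.rfl

instance : MulAction G (Place k F) where
  one_smul p := ext_ord fun x _ => by simp
  mul_smul g h p := ext_ord fun x _ => by simp [mul_smul]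

lemma ord_smul_eq (g : G) (p : Place k F) (x : F) : p.ord (g • x) = (g⁻¹ • p).ord x := by simp

lemma ord_smul_of_mem {g : G} {p : Place k F} (hg : g ∈ MulAction.stabilizer G p) (x : F) :
    p.ord (g • x) = p.ord x := by
  have : g⁻¹ • p = p := (MulAction.stabilizer G p).inv_mem hg
  rw [ord_smul_eq, this]

lemma ge_smul_of_mem {g : G} {p : Place k F} (hg : g ∈ MulAction.stabilizer G p) {n : ℤ} {x : F} :
    p.Ge n (g • x) ↔ p.Ge n x := by
  rw [ge_iff', ge_iff', ord_smul_of_mem hg, smul_eq_zero_iff_eq]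

/-- The inertia group of a place. -/
def inertia (G : Type*) [Group G] [MulSemiringAction G F] [SMulCommClass G k F]
    (p : Place k F) : Subgroup G where
  carrier := {g | g ∈ MulAction.stabilizer G p ∧ ∀ x, p.Ge 0 x → p.Ge 1 (g • x - x)}
  one_mem' := ⟨one_mem _, fun x _ => by simp⟩
  mul_mem' := by
    rintro a b ⟨ha, ha'⟩ ⟨hb, hb'⟩
    refine ⟨mul_mem ha hb, fun x hx => ?_⟩
    have h1 := ha' (b • x) ((ge_smul_of_mem hb).2 hx)
    have h2 := hb' x hx
    have := h1.add h2
    rwa [sub_add_sub_cancel, ← mul_smul] at this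
  inv_mem' := by
    rintro a ⟨ha, ha'⟩
    refine ⟨inv_mem ha, fun x hx => ?_⟩
    have h1 := (ha' (a⁻¹ • x) ((ge_smul_of_mem (inv_mem ha)).2 hx)).neg
    rwa [smul_inv_smul, neg_sub] at h1

lemma mem_inertia {g : G} {p : Place k F} :
    g ∈ p.inertia G ↔ g ∈ MulAction.stabilizer G p ∧ ∀ x, p.Ge 0 x → p.Ge 1 (g • x - x) :=
  Iff.rfl

end action

end Place

end Pool.Agent.Lib.MP_e06174_ag
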