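import Pool.Agent.Lib.MP_e06174_ag.Place

/-! Places and Dedekind domains; extension of places to finite extensions. -/

open WithZero IsDedekindDomain

namespace Pool.Agent.Lib.MP_e06174_ag

namespace Place

section dedekind

variable {k F R : Type*} [Field k] [Field F] [Algebra k F] [CommRing R] [IsDedekindDomain R]
  [Algebra R F] [IsFractionRing R F]

/-- The place attached to a nonzero prime of a Dedekind domain containing the constants. -/
noncomputable def ofPrime (hk : ∀ c : k, ∃ r : R, algebraMap R F r = algebraMap k F c)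
    (P : HeightOneSpectrum R) : Place k F where
  v := P.valuation F
  triv := fun c hc => by
    have h1 : ∀ c : k, P.valuation F (algebraMap k F c) ≤ 1 := fun c => by
      obtain ⟨r, hr⟩ := hk c
      rw [← hr]; exact P.valuation_le_one r
    apply le_antisymm (h1 c)
    have h2 := h1 c⁻¹
    rw [map_inv₀, map_inv₀] at h2
    have h3 : P.valuation F (algebraMap k F c) ≠ 0 := by simpa using hc
    exact (inv_le_one₀ (zero_lt_iff.2 h3)).1 h2
  surj := P.valuation_exists_uniformizer F

variable (hk : ∀ c : k, ∃ r : R, algebraMap R F r = algebraMap k F c)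

lemma ofPrime_ge_zero (P : HeightOneSpectrum R) (r : R) :
    (ofPrime hk P).Ge 0 (algebraMap R F r) := ge_zero_iff.2 (P.valuation_le_one r)

lemma ofPrime_ge_one_iff (P : HeightOneSpectrum R) (r : R) :
    (ofPrime hk P).Ge 1 (algebraMap R F r) ↔ r ∈ P.asIdeal :=
  ge_one_iff.trans (P.valuation_lt_one_iff_mem r)

lemma ofPrime_injective : Function.Injective (ofPrime (F := F) hk) := by
  intro P Q h
  ext r
  rw [← ofPrime_ge_one_iff hk, ← ofPrime_ge_one_iff hk, h]

lemma exists_ofPrime (w : Place k F) (hw : ∀ r : R, w.Ge 0 (algebraMap R F r)) :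
    ∃ P : HeightOneSpectrum R, w = ofPrime hk P := by
  have hinj := IsFractionRing.injective R F
  let I : Ideal R :=
    { carrier := {r | w.Ge 1 (algebraMap R F r)}
      zero_mem' := by simp
      add_mem' := fun ha hb => by simpa using Ge.add ha hb
      smul_mem' := fun c x hx => by
        have := (hw c).mul hx
        simpa using this }
  have hI : ∀ r, r ∈ I ↔ w.Ge 1 (algebraMap R F r) := fun r => Iff.rfl
  have hunit : ∀ r, r ∉ I → algebraMap R F r ≠ 0 ∧ w.ord (algebraMap R F r) = 0 := by
    intro r hr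
    rw [hI, not_ge_iff] at hr
    have := (hw r).le hr.1
    exact ⟨hr.1, by omega⟩
  have hprime : I.IsPrime := by
    refine ⟨?_, ?_⟩
    · rw [Ideal.ne_top_iff_one, hI, not_ge_iff]; simp
    · intro a b hab
      by_contra h
      push Not at h
      have h1 := hunit a h.1
      have h2 := hunit b h.2
      rw [hI, map_mul, ge_iff (mul_ne_zero h1.1 h2.1), w.ord_mul h1.1 h2.1] at hab
      omega
  have hne : I ≠ ⊥ := by
    intro h0
    obtain ⟨π, hπ0, hπ⟩ := w.exists_ord_eq_one
    obtain ⟨a, b, hb, rfl⟩ := IsFractionRing.div_surjective (A := R) π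
    have hb0 : b ≠ 0 := nonZeroDivisors.ne_zero hb
    have ha0 : a ≠ 0 := by rintro rfl; simp at hπ0
    have h1 := hunit a (by rw [h0]; simpa using ha0)
    have h2 := hunit b (by rw [h0]; simpa using hb0)
    rw [w.ord_div h1.1 h2.1] at hπ
    omega
  refine ⟨⟨I, hprime, hne⟩, (ext_of_ge fun x hx => ?_).symm⟩
  obtain ⟨n, d, hnd⟩ := HeightOneSpectrum.exists_primeCompl_mul_eq_of_integer
    (⟨I, hprime, hne⟩ : HeightOneSpectrum R) x (ge_zero_iff.1 hx)
  have h1 := hunit d d.2
  have : x = algebraMap R F n * (algebraMap R F d)⁻¹ := by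
    rw [← hnd]; field_simp [h1.1]
  rw [this]
  simpa using (hw n).mul (ge_of_le (n := 0) (by simp [h1.2]))

lemma mem_range_of_forall_ge (x : F) (h : ∀ P : HeightOneSpectrum R, (ofPrime hk P).Ge 0 x) :
    x ∈ (algebraMap R F).range :=
  HeightOneSpectrum.mem_integers_of_valuation_le_one F x fun P => ge_zero_iff.1 (h P)

end dedekind

section dvr

variable {k L : Type*} [Field k] [Field L] [Algebra k L]

/-- The valuation ring of a place. -/
abbrev O (v : Place k L) : ValuationSubring L := v.v.valuationSubring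

lemma mem_O {v : Place k L} {x : L} : x ∈ v.O ↔ v.Ge 0 x := by
  rw [ge_zero_iff]; rfl

lemma isUnit_O {v : Place k L} {x : v.O} : IsUnit x ↔ ¬ v.Ge 1 (x : L) := by
  rw [ge_one_iff, ← IsLocalRing.notMem_maximalIdeal, Valuation.mem_maximalIdeal_iff]

lemma mem_maximalIdeal_O {v : Place k L} {x : v.O} :
    x ∈ IsLocalRing.maximalIdeal v.O ↔ v.Ge 1 (x : L) := by
  rw [ge_one_iff, Valuation.mem_maximalIdeal_iff]

instance (v : Place k L) : IsDiscreteValuationRing v.O := by
  obtain ⟨π, hπ0, hπ⟩ := v.exists_ord_eq_one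
  let ϖ : v.O := ⟨π, mem_O.2 (ge_of_le (by omega))⟩
  apply IsDiscreteValuationRing.ofHasUnitMulPowIrreducibleFactorization
  have hfac : ∀ x : v.O, x ≠ 0 → ∃ n : ℕ, v.ord (x : L) = n ∧ Associated (ϖ ^ n) x := by
    intro x hx
    have hx0 : (x : L) ≠ 0 := fun h => hx (Subtype.ext h)
    have h0 := (mem_O.1 x.2).le hx0
    obtain ⟨n, hn⟩ := Int.eq_ofNat_of_zero_le h0
    have hord : v.ord ((x : L) / π ^ n) = 0 := by
      rw [v.ord_div hx0 (pow_ne_zero _ hπ0)]; simp [hπ, hn]
    let u : v.O := ⟨x / π ^ n, mem_O.2 (ge_of_le hord.ge)⟩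
    have hu : IsUnit u := by
      rw [isUnit_O, not_ge_iff]
      exact ⟨div_ne_zero hx0 (pow_ne_zero _ hπ0), by simp only [u]; omega⟩
    refine ⟨n, hn, hu.unit, Subtype.ext ?_⟩
    simp only [IsUnit.unit_spec, MulMemClass.coe_mul, SubmonoidClass.coe_pow, u, ϖ]
    field_simp
  refine ⟨ϖ, ⟨?_, ?_⟩, fun {x} hx => (hfac x hx).imp fun n hn => hn.2⟩
  · rw [isUnit_O, not_not]; exact ge_of_le (by simp [ϖ, hπ])
  · intro a b hab
    have hab' : π = (a : L) * b := congrArg Subtype.val hab
    have ha0 : (a : L) ≠ 0 := by rintro h; simp [h] at hab'; exact hπ0 hab'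
    have hb0 : (b : L) ≠ 0 := by rintro h; simp [h] at hab'; exact hπ0 hab'
    have h1 := (mem_O.1 a.2).le ha0
    have h2 := (mem_O.1 b.2).le hb0
    rw [hab', v.ord_mul ha0 hb0] at hπ
    rw [isUnit_O, isUnit_O, not_ge_iff, not_ge_iff]
    by_cases h : v.ord (a : L) = 0
    · left; exact ⟨ha0, by omega⟩
    · right; exact ⟨hb0, by omega⟩

/-- A discrete valuation ring of `L` containing `k` is the ring of a place. -/
lemma exists_of_dvr (A : ValuationSubring L) [IsDiscreteValuationRing A]
    (hk : ∀ c : k, algebraMap k L c ∈ A) : ∃ v : Place k L, ∀ x, x ∈ A ↔ v.Ge 0 x := by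
  refine ⟨ofPrime (R := A) (fun c => ⟨⟨_, hk c⟩, rfl⟩) (IsDiscreteValuationRing.maximalIdeal A),
    fun x => ⟨fun hx => ofPrime_ge_zero _ _ (⟨x, hx⟩ : A), fun hx => ?_⟩⟩
  obtain ⟨a, ha⟩ := IsDiscreteValuationRing.exists_lift_of_le_one (A := A) (ge_zero_iff.1 hx)
  rw [← ha]; exact a.2

lemma const_mem_O (v : Place k L) (c : k) : ∃ r : v.O, algebraMap v.O L r = algebraMap k L c :=
  ⟨⟨_, mem_O.2 (ge_const c)⟩, rfl⟩

lemma ofPrime_maximalIdeal (v : Place k L) :
    ofPrime v.const_mem_O (IsDiscreteValuationRing.maximalIdeal v.O) = v :=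
  (ext_of_ge fun x hx => ofPrime_ge_zero _ _ (⟨x, mem_O.2 hx⟩ : v.O)).symm

lemma ge_zero_of_isIntegral {R : Type*} [CommRing R] [Algebra R L] (w : Place k L)
    (hw : ∀ r : R, w.Ge 0 (algebraMap R L r)) {x : L} (hx : IsIntegral R x) : w.Ge 0 x := by
  obtain ⟨f, hf, hfx⟩ := hx
  by_contra h
  rw [not_ge_iff] at h
  rw [Polynomial.eval₂_eq_sum_range, Finset.sum_range_succ] at hfx
  have h1 : f.coeff f.natDegree = 1 := hf
  rw [h1, map_one, one_mul] at hfx
  have h2 : w.Ge (w.ord (x ^ f.natDegree) + 1)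
      (∑ i ∈ Finset.range f.natDegree, algebraMap R L (f.coeff i) * x ^ i) := by
    refine Ge.sum fun i hi => (hw _).mul' (ge_ord _) ?_
    have : (i : ℤ) + 1 ≤ f.natDegree := by have := Finset.mem_range.1 hi; omega
    simp only [ord_pow]
    nlinarith [h.2]
  have := (ord_add_of_ge (pow_ne_zero _ h.1) h2).1
  rw [add_comm] at this
  exact this hfx

end dvr

section ext

variable {k L : Type*} (F : Type*) [Field k] [Field L] [Field F] [Algebra k L] [Algebra k F]
  [Algebra L F] [IsScalarTower k L F] [FiniteDimensional L F] [Algebra.IsSeparable L F]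
  (v : Place k L)

/-- The integral closure of the valuation ring in the extension field. -/
abbrev S := integralClosure v.O F

instance : IsFractionRing (S F v) F :=
  integralClosure.isFractionRing_of_finite_extension L F

instance : IsDedekindDomain (S F v) := IsIntegralClosure.isDedekindDomain v.O L F _

instance : Module.Finite v.O (S F v) := IsIntegralClosure.finite v.O L F _

omit [FiniteDimensional L F] [Algebra.IsSeparable L F] in
lemma const_mem_S (c : k) : ∃ r : S F v, algebraMap (S F v) F r = algebraMap k F c := by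
  obtain ⟨r, hr⟩ := v.const_mem_O c
  refine ⟨algebraMap v.O _ r, ?_⟩
  rw [← IsScalarTower.algebraMap_apply, IsScalarTower.algebraMap_apply v.O L F, hr,
    ← IsScalarTower.algebraMap_apply]

instance (P : HeightOneSpectrum (S F v)) :
    P.asIdeal.LiesOver (IsDiscreteValuationRing.maximalIdeal v.O).asIdeal := by
  have := P.isMaximal
  exact ⟨(IsLocalRing.eq_maximalIdeal (Ideal.IsMaximal.under v.O P.asIdeal)).symm⟩

lemma ofPrime_over (P : HeightOneSpectrum (S F v)) :
    (ofPrime (const_mem_S F v) P).Over (IsScalarTower.toAlgHom k L F) v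
      (P.asIdeal.ramificationIdx v.O) := by
  have h0 := Ideal.ramificationIdx'_eq_ramificationIdx
    (IsDiscreteValuationRing.maximalIdeal v.O).asIdeal P.asIdeal
    (IsDiscreteValuationRing.maximalIdeal v.O).ne_bot
  refine ⟨P.asIdeal.ramificationIdx_pos v.O, fun x => ?_⟩
  have h1 := HeightOneSpectrum.valuation_liesOver F (IsDiscreteValuationRing.maximalIdeal v.O) P x
  have h2 : (IsDiscreteValuationRing.maximalIdeal v.O).valuation L x = v.v x := by
    conv_rhs => rw [← ofPrime_maximalIdeal v]
    rfl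
  rw [h0, h2] at h1
  change - log (P.valuation F (algebraMap L F x)) = _
  rw [← h1, log_pow, ord]; simp

variable {F v}

lemma Over.exists_prime {w : Place k F} {e : ℕ} (h : w.Over (IsScalarTower.toAlgHom k L F) v e) :
    ∃ P : HeightOneSpectrum (S F v), w = ofPrime (const_mem_S F v) P ∧
      e = P.asIdeal.ramificationIdx v.O := by
  obtain ⟨P, rfl⟩ := exists_ofPrime (const_mem_S F v) w fun r =>
    ge_zero_of_isIntegral (R := v.O) w (fun a => (h.ge_zero_iff a).2 (mem_O.1 a.2)) r.2
  exact ⟨P, rfl, (h.unique (ofPrime_over F v P)).2⟩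

variable (F v)

lemma exists_over : ∃ (w : Place k F) (e : ℕ), w.Over (IsScalarTower.toAlgHom k L F) v e := by
  obtain ⟨P, hP, hP'⟩ := Ideal.exists_maximal_ideal_liesOver_of_isIntegral
    (S := S F v) (IsLocalRing.maximalIdeal v.O)
  have hne : P ≠ ⊥ := Ideal.ne_bot_of_liesOver_of_ne_bot
    (IsDiscreteValuationRing.not_a_field v.O) P
  exact ⟨_, _, ofPrime_over F v ⟨P, hP.isPrime, hne⟩⟩

variable {F v}

lemma isIntegral_of_forall_over {x : F}
    (h : ∀ (w : Place k F) (e : ℕ), w.Over (IsScalarTower.toAlgHom k L F) v e → w.Ge 0 x) :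
    IsIntegral v.O x := by
  obtain ⟨r, rfl⟩ := mem_range_of_forall_ge (const_mem_S F v) x
    fun P => h _ _ (ofPrime_over F v P)
  exact r.2

variable (v) in
/-- The fundamental inequality. -/
lemma sum_ram_le (T : Finset (Place k F)) (e : Place k F → ℕ)
    (h : ∀ w ∈ T, w.Over (IsScalarTower.toAlgHom k L F) v (e w)) :
    ∑ w ∈ T, e w ≤ Module.finrank L F := by
  classical
  let p := IsLocalRing.maximalIdeal v.O
  have : Fintype (p.primesOver (S F v)) := (Algebra.QuasiFinite.finite_primesOver p).fintype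
  have h1 := Ideal.sum_ramification_inertia_eq_finrank p (S F v)
  have h2 : Module.finrank v.O (S F v) = Module.finrank L F :=
    IsIntegralClosure.rank v.O L F (S F v)
  choose P hP using fun w : T => (h w.1 w.2).exists_prime
  let f : T → p.primesOver (S F v) := fun w => ⟨(P w).asIdeal, (P w).isPrime,
    (inferInstance : (P w).asIdeal.LiesOver (IsDiscreteValuationRing.maximalIdeal v.O).asIdeal)⟩
  have hf : Function.Injective f := by
    intro a b hab
    have : P a = P b := HeightOneSpectrum.ext (congrArg Subtype.val hab)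
    exact Subtype.ext (by rw [(hP a).1, (hP b).1, this])
  rw [← h2, ← h1, ← Finset.sum_coe_sort T]
  calc ∑ w : T, e w = ∑ w : T, (f w).1.ramificationIdx v.O := by
        refine Finset.sum_congr rfl fun w _ => (hP w).2
    _ = ∑ q ∈ Finset.univ.map ⟨f, hf⟩, q.1.ramificationIdx v.O := by
        rw [Finset.sum_map]; rfl
    _ ≤ ∑ q : p.primesOver (S F v), q.1.ramificationIdx v.O :=
        Finset.sum_le_sum_of_subset (Finset.subset_univ _)
    _ ≤ _ := Finset.sum_le_sum fun q _ => by
        have := q.2.1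
        exact Nat.le_mul_of_pos_right _ (q.1.inertiaDeg_pos v.O)

variable (F v) in
lemma finite_over :
    {w : Place k F | ∃ e, w.Over (IsScalarTower.toAlgHom k L F) v e}.Finite := by
  by_contra hinf
  obtain ⟨T, hT, hc⟩ := Set.Infinite.exists_subset_card_eq hinf (Module.finrank L F + 1)
  classical
  have h1 : ∀ w : Place k F, ∃ e, w ∈ T → w.Over (IsScalarTower.toAlgHom k L F) v e := by
    intro w
    by_cases hw : w ∈ T
    · obtain ⟨e, he⟩ := hT hw
      exact ⟨e, fun _ => he⟩
    · exact ⟨0, fun h => (hw h).elim⟩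
  choose e he using h1
  have h2 := sum_ram_le v T e he
  have h3 : T.card ≤ ∑ w ∈ T, e w := by
    rw [Finset.card_eq_sum_ones]
    exact Finset.sum_le_sum fun w hw => (he w hw).1
  omega

end ext

end Place

end Pool.Agent.Lib.MP_e06174_ag
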