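import Pool.Agent.Lib.MP_e06174_ag.Ext

/-! Weak approximation; places in the quotient by a finite group. -/

open WithZero IsDedekindDomain
open scoped Pointwise

namespace Pool.Agent.Lib.MP_e06174_ag

namespace Place

section approx

variable {k F : Type*} [Field k] [Field F] [Algebra k F]

lemma exists_sep {p q : Place k F} (h : p ≠ q) : ∃ z : F, z ≠ 0 ∧ p.ord z < 0 ∧ 0 < q.ord z := by
  have h1 : ¬ ∀ x, p.Ge 0 x → q.Ge 0 x := fun h' => h (ext_of_ge h')
  have h2 : ¬ ∀ x, q.Ge 0 x → p.Ge 0 x := fun h' => h (ext_of_ge h').symm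
  push Not at h1 h2
  obtain ⟨x, hx, hx'⟩ := h1
  obtain ⟨y, hy, hy'⟩ := h2
  rw [not_ge_iff] at hx' hy'
  have h3 := hx.le hx'.1
  have h4 := hy.le hy'.1
  refine ⟨y / x, div_ne_zero hy'.1 hx'.1, ?_, ?_⟩
  · rw [p.ord_div hy'.1 hx'.1]; omega
  · rw [q.ord_div hy'.1 hx'.1]; omega

lemma ord_one_add_of_neg {p : Place k F} {a : F} (h : p.ord a < 0) :
    1 + a ≠ 0 ∧ p.ord (1 + a) = p.ord a := by
  have ha : a ≠ 0 := by rintro rfl; simp at h
  rw [add_comm]
  exact ord_add_of_ge ha (ge_one.mono (by omega))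

lemma ord_one_add_of_pos {p : Place k F} {a : F} (h : 0 < p.ord a) :
    1 + a ≠ 0 ∧ p.ord (1 + a) = 0 := by
  have := ord_add_of_ge (p := p) (x := 1) (y := a) one_ne_zero (ge_of_le (by simp; omega))
  simpa using this

lemma exists_big {ι : Type*} (T : Finset ι) (f g : ι → ℤ) (hf : ∀ i ∈ T, 0 < f i) (N : ℤ) :
    ∃ m : ℕ, 1 ≤ m ∧ ∀ i ∈ T, N ≤ m * f i + g i := by
  refine ⟨1 + ∑ i ∈ T, (N - g i).natAbs, by omega, fun i hi => ?_⟩
  have h1 : (N - g i).natAbs ≤ ∑ i ∈ T, (N - g i).natAbs :=
    Finset.single_le_sum (f := fun i => (N - g i).natAbs) (fun _ _ => Nat.zero_le _) hi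
  have h2 := hf i hi
  set s := ∑ i ∈ T, (N - g i).natAbs
  have h3 : N - g i ≤ (s : ℤ) := by omega
  push_cast
  nlinarith

lemma exists_sep_finset (p : Place k F) (T : Finset (Place k F)) (hT : p ∉ T) :
    ∃ z : F, z ≠ 0 ∧ p.ord z < 0 ∧ ∀ q ∈ T, 0 < q.ord z := by
  classical
  induction T using Finset.induction_on with
  | empty =>
    obtain ⟨z, hz, hz'⟩ := p.exists_ord_eq (-1)
    exact ⟨z, hz, by omega, by simp⟩
  | insert q T hq ih =>
    obtain ⟨a, ha0, ha, haT⟩ := ih fun h => hT (Finset.mem_insert_of_mem h)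
    obtain ⟨b, hb0, hb, hbq⟩ := exists_sep (p := p) (q := q) fun h => hT (by simp [h])
    obtain ⟨m, hm, hmT⟩ := exists_big T (fun r => r.ord a) (fun r => r.ord b) haT 1
    have hm' : (1 : ℤ) ≤ m := by exact_mod_cast hm
    have ham : a ^ m ≠ 0 := pow_ne_zero _ ha0
    by_cases hqa : 0 ≤ q.ord a
    · refine ⟨a ^ m * b, mul_ne_zero ham hb0, ?_, ?_⟩
      · rw [p.ord_mul ham hb0, ord_pow]; nlinarith
      · intro r hr
        rw [r.ord_mul ham hb0, ord_pow]
        rcases Finset.mem_insert.1 hr with rfl | hr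
        · nlinarith
        · have := hmT r hr; omega
    · have h1 := ord_one_add_of_neg (p := p) (a := a ^ m) (by rw [ord_pow]; nlinarith)
      refine ⟨a ^ m / (1 + a ^ m) * b, mul_ne_zero (div_ne_zero ham h1.1) hb0, ?_, ?_⟩
      · rw [p.ord_mul (div_ne_zero ham h1.1) hb0, p.ord_div ham h1.1, h1.2]; omega
      · intro r hr
        rw [r.ord_mul (div_ne_zero ham h1.1) hb0, r.ord_div ham h1.1]
        rcases Finset.mem_insert.1 hr with rfl | hr
        · rw [(ord_one_add_of_neg (p := r) (a := a ^ m) (by rw [ord_pow]; nlinarith)).2]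
          omega
        · have h2 := haT r hr
          rw [(ord_one_add_of_pos (p := r) (a := a ^ m) (by rw [ord_pow]; nlinarith)).2, ord_pow]
          have := hmT r hr
          omega

/-- Weak approximation. -/
lemma approx (p : Place k F) (T : Finset (Place k F)) (n N : ℤ) :
    ∃ y : F, y ≠ 0 ∧ p.ord y = n ∧ ∀ q ∈ T, q ≠ p → N ≤ q.ord y := by
  classical
  obtain ⟨a, ha0, ha, haT⟩ := exists_sep_finset p (T.erase p) (by simp)
  obtain ⟨b, hb0, hb⟩ := p.exists_ord_eq n
  obtain ⟨m, hm, hmT⟩ := exists_big (T.erase p) (fun r => r.ord a) (fun r => r.ord b) haT N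
  have hm' : (1 : ℤ) ≤ m := by exact_mod_cast hm
  have ham : a ^ m ≠ 0 := pow_ne_zero _ ha0
  have h1 := ord_one_add_of_neg (p := p) (a := a ^ m) (by rw [ord_pow]; nlinarith)
  refine ⟨a ^ m / (1 + a ^ m) * b, mul_ne_zero (div_ne_zero ham h1.1) hb0, ?_, ?_⟩
  · rw [p.ord_mul (div_ne_zero ham h1.1) hb0, p.ord_div ham h1.1, h1.2]; omega
  · intro r hr hrp
    have hr' : r ∈ T.erase p := Finset.mem_erase.2 ⟨hrp, hr⟩
    have h2 := haT r hr'
    rw [r.ord_mul (div_ne_zero ham h1.1) hb0, r.ord_div ham h1.1,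
      (ord_one_add_of_pos (p := r) (a := a ^ m) (by rw [ord_pow]; nlinarith)).2, ord_pow]
    have := hmT r hr'
    omega

end approx

end Place

section fix

variable (k F G : Type*) [Field k] [Field F] [Algebra k F] [Group G] [MulSemiringAction G F]
  [SMulCommClass G k F]

/-- The fixed field. -/
abbrev Fix : IntermediateField k F := FixedPoints.intermediateField G

instance [Finite G] : FiniteDimensional (Fix k F G) F :=
  inferInstanceAs (FiniteDimensional (FixedPoints.subfield G F) F)

instance [Finite G] : Algebra.IsSeparable (Fix k F G) F :=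
  inferInstanceAs (Algebra.IsSeparable (FixedPoints.subfield G F) F)

instance : SMulCommClass G (Fix k F G) F :=
  inferInstanceAs (SMulCommClass G (FixedPoints.subfield G F) F)

instance : Algebra.IsInvariant (Fix k F G) F G := ⟨fun x h => ⟨⟨x, h⟩, rfl⟩⟩

instance [FaithfulSMul G F] : IsGaloisGroup G (Fix k F G) F := ⟨inferInstance, inferInstance,
  inferInstance⟩

lemma finrank_fix [Finite G] [FaithfulSMul G F] :
    Module.finrank (Fix k F G) F = Nat.card G :=
  (IsGaloisGroup.card_eq_finrank G (Fix k F G) F).symm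

variable {k F G}

lemma mem_fix {x : F} : x ∈ Fix k F G ↔ ∀ g : G, g • x = x := Iff.rfl

@[simp] lemma smul_fix (g : G) (x : Fix k F G) : g • (x : F) = x := x.2 g

lemma toAlgHom_eq_val (E : IntermediateField k F) : IsScalarTower.toAlgHom k E F = E.val := rfl

namespace Place

lemma Over.smul {w : Place k F} {v : Place k (Fix k F G)} {e : ℕ}
    (h : w.Over (Fix k F G).val v e) (g : G) : (g • w).Over (Fix k F G).val v e :=
  ⟨h.1, fun x => by rw [← h.2 x]; simp⟩

variable [Finite G]

instance (v : Place k (Fix k F G)) : SMulCommClass G v.O F where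
  smul_comm g a x := smul_comm g (a : Fix k F G) x

instance (v : Place k (Fix k F G)) : Algebra.IsInvariant v.O (S F v) G where
  isInvariant x hx := by
    let y : Fix k F G := ⟨x, fun g => congrArg Subtype.val (hx g)⟩
    have h1 : IsIntegral v.O (algebraMap (Fix k F G) F y) := x.2
    rw [isIntegral_algebraMap_iff (algebraMap (Fix k F G) F).injective,
      IsIntegrallyClosedIn.isIntegral_iff] at h1
    obtain ⟨a, ha⟩ := h1
    refine ⟨a, Subtype.ext ?_⟩
    change algebraMap v.O F a = x
    rw [IsScalarTower.algebraMap_apply v.O (Fix k F G) F, ha]; rfl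

lemma smul_ofPrime (v : Place k (Fix k F G)) (g : G) (P Q : HeightOneSpectrum (S F v))
    (h : Q.asIdeal = g • P.asIdeal) :
    ofPrime (const_mem_S F v) Q = g • ofPrime (const_mem_S F v) P := by
  obtain ⟨Q', hQ', -⟩ := (Over.smul (ofPrime_over F v P) g).exists_prime
  rw [hQ']
  congr 1
  ext r
  rw [← ofPrime_ge_one_iff (const_mem_S F v) Q', ← hQ', h,
    Ideal.mem_pointwise_smul_iff_inv_smul_mem, ← ofPrime_ge_one_iff (const_mem_S F v) P]
  rfl

/-- The group acts transitively on the places above a given place of the fixed field. -/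
lemma exists_smul_eq {v : Place k (Fix k F G)} {w w' : Place k F} {e e' : ℕ}
    (h : w.Over (Fix k F G).val v e) (h' : w'.Over (Fix k F G).val v e') :
    ∃ g : G, w' = g • w := by
  obtain ⟨P, rfl, -⟩ := Over.exists_prime (F := F) h
  obtain ⟨Q, rfl, -⟩ := Over.exists_prime (F := F) h'
  obtain ⟨g, hg⟩ := Algebra.IsInvariant.exists_smul_of_under_eq v.O (S F v) G P.asIdeal Q.asIdeal
    ((Ideal.over_def P.asIdeal (IsDiscreteValuationRing.maximalIdeal v.O).asIdeal).symm.trans
      (Ideal.over_def Q.asIdeal _))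
  exact ⟨g, smul_ofPrime v g P Q hg⟩

lemma Over.eq_of_over {v : Place k (Fix k F G)} {w w' : Place k F} {e e' : ℕ}
    (h : w.Over (Fix k F G).val v e) (h' : w'.Over (Fix k F G).val v e') : e = e' := by
  obtain ⟨g, rfl⟩ := exists_smul_eq h h'
  exact ((h.smul g).unique h').2

/-- The order of the inertia group is the ramification index. -/
lemma card_inertia [CharZero k] [FaithfulSMul G F] {v : Place k (Fix k F G)} {w : Place k F}
    {e : ℕ} (h : w.Over (Fix k F G).val v e) : Nat.card (w.inertia G) = e := by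
  obtain ⟨P, rfl, rfl⟩ := Over.exists_prime (F := F) h
  have : IsGaloisGroup G v.O (S F v) := IsGaloisGroup.of_isFractionRing G _ _ (Fix k F G) F
  let p := (IsDiscreteValuationRing.maximalIdeal v.O).asIdeal
  have hp : p.IsPrime := (IsDiscreteValuationRing.maximalIdeal v.O).isPrime
  have hP := P.isPrime
  have : CharZero p.ResidueField := by
    refine ⟨fun a b hab => ?_⟩
    by_contra hne
    have h1 : algebraMap v.O p.ResidueField ((a : v.O) - b) = 0 := by simp [hab]
    rw [Ideal.algebraMap_residueField_eq_zero] at h1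
    have h2 : v.Ge 1 (((a : v.O) - b : v.O) : Fix k F G) := mem_maximalIdeal_O.1 h1
    have h3 : (((a : v.O) - b : v.O) : Fix k F G) = algebraMap k _ ((a : k) - b) := by simp
    rw [h3] at h2
    exact hne (by exact_mod_cast sub_eq_zero.1 (eq_zero_of_ge_one_const h2))
  have : Module.Free v.O (S F v) := IsIntegralClosure.module_free v.O (Fix k F G) F _
  have h1 := Ideal.card_inertia_eq_ramificationIdxIn (G := G) p P.asIdeal
  rw [Ideal.ramificationIdxIn_eq_ramificationIdx p P.asIdeal G] at h1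
  rw [← h1]
  congr 2
  ext g
  rw [mem_inertia, AddSubgroup.mem_inertia]
  constructor
  · rintro ⟨-, hg⟩ x
    have := hg _ (ofPrime_ge_zero (const_mem_S F v) P x)
    exact (ofPrime_ge_one_iff (const_mem_S F v) P (g • x - x)).1 this
  · intro hg
    have hs : g • P.asIdeal = P.asIdeal := Ideal.inertia_le_stabilizer P.asIdeal hg
    have hs' : g ∈ MulAction.stabilizer G (ofPrime (const_mem_S F v) P) :=
      (smul_ofPrime v g P P hs.symm).symm
    refine ⟨hs', fun x hx => ?_⟩
    obtain ⟨n, d, hnd⟩ := HeightOneSpectrum.exists_primeCompl_mul_eq_of_integer P x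
      (ge_zero_iff.1 hx)
    set w := ofPrime (const_mem_S F v) P
    have hd : ¬ w.Ge 1 (d.1 : F) := fun h =>
      d.2 ((ofPrime_ge_one_iff (const_mem_S F v) P d.1).1 h)
    rw [not_ge_iff] at hd
    have hd0 : w.ord (d.1 : F) = 0 := by
      have := (ofPrime_ge_zero (const_mem_S F v) P d.1).le hd.1
      change 0 ≤ w.ord (d.1 : F) at this
      omega
    have hn1 : w.Ge 1 (g • (n : F) - n) :=
      (ofPrime_ge_one_iff (const_mem_S F v) P (g • n - n)).2 (hg n)
    have hd1 : w.Ge 1 (g • (d.1 : F) - d.1) :=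
      (ofPrime_ge_one_iff (const_mem_S F v) P (g • d.1 - d.1)).2 (hg d.1)
    change x * (d.1 : F) = (n : F) at hnd
    have key : g • x - x = ((g • (n : F) - n) - g • x * (g • (d.1 : F) - d.1)) * (d.1 : F)⁻¹ := by
      rw [← hnd, smul_mul']
      field_simp [hd.1]
      ring
    rw [key]
    have h2 : w.Ge 1 (g • x * (g • (d.1 : F) - d.1)) :=
      (((ge_smul_of_mem hs').2 hx).mul' hd1 (by simp))
    exact (hn1.sub h2).mul' (ge_of_le (n := 0) (by simp [hd0])) (by simp)

lemma exists_over_fix (v : Place k (Fix k F G)) :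
    ∃ (w : Place k F) (e : ℕ), w.Over (Fix k F G).val v e := exists_over F v

end Place

end fix

end Pool.Agent.Lib.MP_e06174_ag
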