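import Pool.Agent.Lib.MP_e06174_ag.Five

/-! Reduction to big inertia for products of `n` curves, for forms that need not be products. -/

set_option linter.unusedSectionVars false

open Polynomial IntermediateField Module MulAction

namespace Pool.Agent.Lib.MP_e06174_ag

open Place

section general

variable {k K G : Type*} [Field k] [Field K] [Algebra k K] [Group G] [MulSemiringAction G K]
  [SMulCommClass G k K] {w : Place k K}

lemma Place.exists_theta [IsAlgClosed k] {g : G} (hg : g ∈ w.inertia G) {e : ℕ} (he : 0 < e)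
    (hge : g ^ e = 1) : ∃ θ : k, θ ^ e = 1 ∧ w.At (g • w.unif / w.unif) θ := by
  have h0 := w.unif_ne_zero
  have h1 : ∀ i : ℕ, g ^ i • w.unif ≠ 0 := fun i => (smul_ne_zero_iff_ne _).2 h0
  set y := g • w.unif / w.unif with hy
  have hy0 : y ≠ 0 := div_ne_zero ((smul_ne_zero_iff_ne _).2 h0) h0
  have hord : w.ord y = 0 := by
    rw [hy, w.ord_div ((smul_ne_zero_iff_ne _).2 h0) h0, ord_smul_of_mem (mem_inertia.1 hg).1,
      sub_self]
  have h2 : ∀ i : ℕ, w.At (g ^ i • w.unif / w.unif / y ^ i) 1 := by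
    intro i
    induction i with
    | zero => simpa [div_self h0] using w.at_const 1
    | succ i ih =>
      have h3 := ih.mul (at_ratio (_root_.pow_mem hg i) hy0 hord)
      rw [mul_one] at h3
      convert h3 using 1
      have := h1 i
      have h4 : g ^ i • y = g ^ (i + 1) • w.unif / g ^ i • w.unif := by
        rw [pow_succ g, mul_smul, hy, smul_div₀']
      rw [h4]
      field_simp
      ring
  have h3 := h2 e
  rw [hge, one_smul, div_self h0, one_div] at h3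
  have h4 : w.Ge 1 (y ^ e - 1) := by
    have h4 := Ge.mul' h3 (ge_of_le (n := 0) (x := -y ^ e) (by simp [hord])) (l := 1) (by simp)
    convert h4 using 1
    rw [map_one]
    field_simp
    ring
  have h5 := (IsAlgClosed.splits (X ^ e - C (1 : k))).eq_prod_roots_of_monic
    (monic_X_pow_sub_C _ he.ne')
  have h6 := congrArg (aeval y) h5
  rw [map_multiset_prod, Multiset.map_map] at h6
  simp only [map_sub, map_pow, aeval_X, map_one, Function.comp_def, aeval_C] at h6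
  by_contra h7
  push Not at h7
  have h8 : ∀ s : Multiset k, (∀ a ∈ s, a ^ e = 1) →
      ¬ w.Ge 1 (s.map fun a => y - algebraMap k K a).prod := fun s => by
    induction s using Multiset.induction_on with
    | empty => exact fun _ => by simpa using not_ge_one_const (p := w) (one_ne_zero (α := k))
    | cons a s ih =>
      intro hs
      have h8 := not_ge_iff.1 (ih fun b hb => hs b (Multiset.mem_cons_of_mem hb))
      have h9 := not_ge_iff.1 (h7 a (hs a (Multiset.mem_cons_self _ _)))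
      rw [Multiset.map_cons, Multiset.prod_cons, not_ge_iff, w.ord_mul h9.1 h8.1]
      exact ⟨mul_ne_zero h9.1 h8.1, by omega⟩
  refine h8 _ (fun a ha => ?_) (h6 ▸ h4)
  have := (mem_roots (monic_X_pow_sub_C (1 : k) he.ne').ne_zero).1 ha
  simpa [sub_eq_zero] using this

end general

namespace Setup

variable {n : ℕ} {F : Fin n → Type} [∀ i, Field (F i)] [∀ i, Algebra ℂ (F i)]
  {G : Type} [Group G] [Finite G] [∀ i, MulSemiringAction G (F i)] [∀ i, SMulCommClass G ℂ (F i)]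
  {K : Type} [Field K] [Algebra ℂ K] [MulSemiringAction G K] [SMulCommClass G ℂ K]
  {ι : ∀ i, F i →ₐ[ℂ] K} {S : Setup G ι} [∀ i, FaithfulSMul G (F i)] [FaithfulSMul G K]

lemma Loc.exists_theta (L : S.Loc) {g : G} (hg : g ∈ L.w.inertia G) :
    ∃ θ : ℂ, θ ^ L.e = 1 ∧ ∀ i, (L.p i).chi g = θ ^ L.c i := by
  obtain ⟨θ, h1, h2⟩ := Place.exists_theta hg L.hw.1 (by
    rw [← L.card]
    exact congrArg Subtype.val (pow_card_eq_one' (x := (⟨g, hg⟩ : L.w.inertia G))))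
  refine ⟨θ, h1, fun i => ?_⟩
  have h3 := ((L.hp i).at_iff _).2 ((S.coord i).choose_spec.at_chi (L.le_stab i hg)
    (L.p i).unif_ne_zero (L.p i).ord_unif)
  rw [map_div₀, ← S.equiv] at h3
  refine h3.unique ?_
  have h4 := h2.pow (L.c i)
  rw [div_pow, ← smul_pow'] at h4
  refine h4.of_ord_eq hg (pow_ne_zero _ L.w.unif_ne_zero)
    ((_root_.map_ne_zero _).2 (L.p i).unif_ne_zero) ?_
  rw [ord_pow, (L.hp i).2]
  simp

lemma Loc.coprime (L : S.Loc) (i : Fin n) : (L.c i).Coprime L.e := by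
  refine Nat.coprime_of_dvd fun l hl h1 h2 => ?_
  have := Fact.mk hl
  obtain ⟨g, hg⟩ := exists_prime_orderOf_dvd_card' (G := L.w.inertia G) l (by rwa [L.card])
  obtain ⟨θ, h3, h4⟩ := Place.exists_theta g.2 hl.pos (by
    rw [← hg]; exact congrArg Subtype.val (pow_orderOf_eq_one g))
  obtain ⟨θ', -, h5⟩ := L.exists_theta g.2
  have h6 := ((L.hp i).at_iff _).2 ((S.coord i).choose_spec.at_chi (L.le_stab i g.2)
    (L.p i).unif_ne_zero (L.p i).ord_unif)
  rw [map_div₀, ← S.equiv] at h6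
  have h7 := h4.pow (L.c i)
  rw [div_pow, ← smul_pow'] at h7
  have h8 := h6.unique (h7.of_ord_eq g.2 (pow_ne_zero _ L.w.unif_ne_zero)
    ((_root_.map_ne_zero _).2 (L.p i).unif_ne_zero) (by rw [ord_pow, (L.hp i).2]; simp))
  obtain ⟨s, hs⟩ := h1
  rw [hs, pow_mul, h3, one_pow] at h8
  have h9 : g = 1 := Subtype.ext ((S.coord i).choose_spec.eq_one_of_chi (L.le_stab i g.2) h8)
  rw [h9, orderOf_one] at hg
  exact hl.one_lt.ne hg

variable (S)
include S

theorem red0 (x : ∀ i, Fix ℂ (F i) G) (hx : ∀ i, IsCoord ℂ (x i : F i)) {m : ℕ} (hm : 1 ≤ m)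
    {Ψ : K} (hΨ : Ψ ≠ 0) (hA : ∀ w : Place ℂ K, (∀ i f, w.ord (ι i f) = 0) → w.Ge 0 Ψ)
    (hB : ∀ (v : Place ℂ (Fix ℂ K G)) (w : Place ℂ K) (e : ℕ), w.Over (Fix ℂ K G).val v e →
      (¬ ∀ i f, w.ord (ι i f) = 0) → w.Ge (e * m) (Ψ * ∏ i, w.loc (ι i (x i)) ^ m)) :
    ¬ KodairaNegInf ℂ (Fix ℂ K G) n := by
  classical
  have := Fintype.ofFinite G
  refine not_kodairaNegInf (S.isTranscendenceBasis x hx) (m := Fintype.card G * m)
    (Nat.mul_pos Fintype.card_pos hm) (nrm_ne_zero (k := ℂ) (G := G) hΨ) fun v => ?_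
  obtain ⟨w, e, hw⟩ := exists_over_fix v
  have hiff : ∀ (g : G) (w : Place ℂ K), (∀ i f, w.ord (ι i f) = 0) →
      ∀ i f, (g • w).ord (ι i f) = 0 := fun g w h i f => by rw [smul_ord, S.equiv, h]
  by_cases h1 : ∀ i f, w.ord (ι i f) = 0
  · refine Or.inl ⟨(hw.ge_zero_iff _).1 (Ge.prod_zero fun g _ => ?_),
      fun i => ge_of_le (S.ord_j_eq_zero hw (h1 i) _).ge⟩
    have := hA _ (hiff g⁻¹ w h1)
    rwa [smul_ge, inv_inv] at this
  · refine Or.inr ((hw.ge_iff _ _).1 ?_)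
    have h2 : ∀ g : G, w.Ge (e * m) (g • Ψ *
        (Fix ℂ K G).val (∏ i, v.loc (S.j i (x i)) ^ m)) := fun g => by
      have h3 := hB v _ e (hw.smul g⁻¹) fun h3 => h1 (by simpa using hiff g _ h3)
      have h4 : ∏ i, (g⁻¹ • w).loc (ι i (x i)) ^ m =
          (Fix ℂ K G).val (∏ i, v.loc (S.j i (x i)) ^ m) := by
        rw [map_prod]
        exact Finset.prod_congr rfl fun i _ => by
          rw [map_pow, ← (hw.smul g⁻¹).loc_eq]; rfl
      rwa [h4, smul_ge, inv_inv, smul_mul', IntermediateField.coe_val, smul_fix] at h3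
    have h3 := Ge.prod fun g (_ : g ∈ Finset.univ) => h2 g
    rw [Finset.prod_mul_distrib, Finset.prod_const, Finset.sum_const, Finset.card_univ] at h3
    convert h3 using 1
    · simp only [nsmul_eq_mul]; push_cast; ring
    · rw [map_mul]
      congr 1
      rw [← map_pow, ← Finset.prod_pow]
      simp only [← pow_mul, mul_comm m]

/-- `N` is the order along `w` that is guaranteed by the factor `i`. -/
def Bd (_ : Setup G ι) (nn : ∀ i, Place ℂ (Fix ℂ (F i) G) → ℕ) (w : Place ℂ K) (i : Fin n)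
    (N : ℕ) : Prop :=
  ((∀ f, w.ord (ι i f) = 0) ∧ N = 0) ∨
    ∃ (p : Place ℂ (F i)) (c : ℕ) (q : Place ℂ (Fix ℂ (F i) G)), w.Over (ι i) p c ∧
      p.Over (Fix ℂ (F i) G).val q q.ram ∧ N = c * (q.ram * nn i q)

theorem red1 (x : ∀ i, Fix ℂ (F i) G) (hx : ∀ i, IsCoord ℂ (x i : F i)) {m : ℕ} (hm : 1 ≤ m)
    (nn : ∀ i, Place ℂ (Fix ℂ (F i) G) → ℕ) (hn : ∀ i q, m ≤ q.ram * nn i q) {Ψ : K}
    (hΨ : Ψ ≠ 0)
    (hW : ∀ (w : Place ℂ K) (N : Fin n → ℕ), (∀ i, S.Bd nn w i (N i)) →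
      w.Ge (∑ i, N i : ℕ) (Ψ * ∏ i, w.loc (ι i (x i)) ^ m))
    (hbig : ∀ L : S.Loc, n < L.e → ∑ i, L.d i * nn i (L.q i) < m →
      L.w.Ge (L.e * m) (Ψ * ∏ i, ι i ((L.p i).loc (x i : F i)) ^ m)) :
    ¬ KodairaNegInf ℂ (Fix ℂ K G) n := by
  classical
  refine S.red0 x hx hm hΨ (fun w hw => ?_) fun v w e hw h1 => ?_
  · have h1 := hW w 0 fun i => Or.inl ⟨hw i, rfl⟩
    have h2 : ∀ i, w.loc (ι i (x i)) ≠ 0 ∧ w.ord (w.loc (ι i (x i))) = 0 := fun i => by
      rw [loc, ← (ι i).commutes, ← map_sub]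
      exact ⟨(_root_.map_ne_zero _).2 (sub_const_ne_zero (hx i).trans _), hw i _⟩
    have h3 : ∏ i, w.loc (ι i (x i)) ^ m ≠ 0 :=
      Finset.prod_ne_zero_iff.2 fun i _ => pow_ne_zero _ (h2 i).1
    have h4 := h1.le (mul_ne_zero hΨ h3)
    rw [w.ord_mul hΨ h3, w.ord_prod _ _ fun i _ => pow_ne_zero _ (h2 i).1] at h4
    exact ge_of_le (by simpa [h2] using h4)
  have h3 : ∀ {i} {c : ℕ} (q : Place ℂ (Fix ℂ (F i) G)), 1 ≤ c → m ≤ c * (q.ram * nn i q) :=
    fun q hc => (hn _ q).trans (Nat.le_mul_of_pos_left _ hc)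
  by_cases h4 : ∀ i, ¬ ∀ f, w.ord (ι i f) = 0
  · obtain ⟨L, rfl, rfl, rfl⟩ := exists_loc (S := S) hw h4
    by_cases h5 : n < L.e ∧ ∑ i, L.d i * nn i (L.q i) < m
    · convert hbig L h5.1 h5.2 using 4 with i
      rw [(L.hp i).loc_eq]
    refine (hW L.w _ fun i => Or.inr ⟨_, _, _, L.hp i, L.hq i, rfl⟩).mono ?_
    by_cases h6 : n < L.e
    · have h7 : m ≤ ∑ i, L.d i * nn i (L.q i) := not_lt.1 fun h7 => h5 ⟨h6, h7⟩
      have h8 := Nat.mul_le_mul_left L.e h7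
      simp only [Finset.mul_sum, ← mul_assoc, L.hed] at h8
      simp only [← mul_assoc]
      exact_mod_cast h8
    · have h7 := Finset.card_nsmul_le_sum Finset.univ _ _ fun i _ => h3 (L.q i) (L.one_le_c i)
      simp only [Finset.card_univ, Fintype.card_fin, smul_eq_mul] at h7
      exact_mod_cast (Nat.mul_le_mul_right m (not_lt.1 h6)).trans h7
  · obtain ⟨i₀, hi₀⟩ := not_forall.1 h4
    obtain ⟨i₁, hi₁⟩ := not_forall.1 h1
    have he : e = 1 := by
      rw [← card_inertia hw, Subgroup.card_eq_one, eq_bot_iff]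
      exact fun g hg => (faithfulSMul_iff.1 (inferInstanceAs (FaithfulSMul G (F i₀)))) g
        (S.smul_eq_of_inertia (not_not.1 hi₀) hg)
    have h5 : ∀ i, ∃ N, S.Bd nn w i N ∧ (i = i₁ → m ≤ N) := fun i => by
      rcases S.local_data hw i with h5 | ⟨p, c, q, d, h5, h6, -, -⟩
      · exact ⟨0, Or.inl ⟨h5, rfl⟩, by rintro rfl; exact absurd h5 hi₁⟩
      · exact ⟨_, Or.inr ⟨p, c, q, h5, h6, rfl⟩, fun _ => h3 q h5.1⟩
    choose N hN hN' using h5
    refine (hW w N hN).mono ?_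
    have h6 := (hN' i₁ rfl).trans
      (Finset.single_le_sum (f := N) (fun _ _ => Nat.zero_le _) (Finset.mem_univ i₁))
    rw [he]
    exact_mod_cast (one_mul m).le.trans h6

lemma Bd.ge {nn : ∀ i, Place ℂ (Fix ℂ (F i) G) → ℕ} {w : Place ℂ K} {i : Fin n} {N : ℕ}
    (h : S.Bd nn w i N) {x W : F i} {m : ℕ}
    (hW : ∀ (p : Place ℂ (F i)) (q : Place ℂ (Fix ℂ (F i) G)),
      p.Over (Fix ℂ (F i) G).val q q.ram → p.Ge (q.ram * nn i q) (W * p.loc x ^ m)) :
    w.Ge N (ι i W * w.loc (ι i x) ^ m) := by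
  rcases h with ⟨h, rfl⟩ | ⟨p, c, q, h1, h2, rfl⟩
  · rw [loc, ← (ι i).commutes, ← map_sub, ← map_pow, ← map_mul]
    exact ge_of_le (h _).ge
  · rw [h1.loc_eq, ← map_pow, ← map_mul]
    exact_mod_cast (h1.ge_iff _ _).2 (hW p q h2)

theorem redn (x : ∀ i, Fix ℂ (F i) G) (hx : ∀ i, IsCoord ℂ (x i : F i)) {m : ℕ} (hm : 1 ≤ m)
    (nn : ∀ i, Place ℂ (Fix ℂ (F i) G) → ℕ) (hn : ∀ i q, m ≤ q.ram * nn i q)
    {σ : Type} [Fintype σ] (W : σ → ∀ i, F i)
    (hW : ∀ s i (p : Place ℂ (F i)) (q : Place ℂ (Fix ℂ (F i) G)),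
      p.Over (Fix ℂ (F i) G).val q q.ram → p.Ge (q.ram * nn i q) (W s i * p.loc (x i : F i) ^ m))
    (a : σ → ℂ) (hΦ : ∑ s, a s • ∏ i, ι i (W s i) ≠ 0)
    (hbig : ∀ L : S.Loc, n < L.e → ∑ i, L.d i * nn i (L.q i) < m →
      L.w.Ge (L.e * m) (∑ s, a s • ∏ i, ι i (W s i * (L.p i).loc (x i : F i) ^ m))) :
    ¬ KodairaNegInf ℂ (Fix ℂ K G) n := by
  refine S.red1 x hx hm nn hn hΦ (fun w N hN => ?_) fun L h1 h2 => ?_
  · simp only [Finset.sum_mul, smul_mul_assoc, ← Finset.prod_mul_distrib]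
    push_cast
    exact Ge.sum fun s _ => (Ge.prod fun i _ => (hN i).ge S (hW s i)).smul _
  · simpa only [Finset.sum_mul, smul_mul_assoc, ← Finset.prod_mul_distrib, map_mul, map_pow]
      using hbig L h1 h2

/-- Product forms with prescribed orders `nn`. -/
theorem easyn (x Φ : ∀ i, Fix ℂ (F i) G) (hx : ∀ i, IsCoord ℂ (x i : F i)) {m : ℕ} (hm : 1 ≤ m)
    (hΦ : ∀ i, Φ i ≠ 0) (nn : ∀ i, Place ℂ (Fix ℂ (F i) G) → ℕ) (hn : ∀ i q, m ≤ q.ram * nn i q)
    (hW : ∀ i q, (nn i q : ℤ) ≤ q.ord (Φ i * q.loc (x i) ^ m))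
    (hbig : ∀ L : S.Loc, n < L.e → m ≤ ∑ i, L.d i * nn i (L.q i)) :
    ¬ KodairaNegInf ℂ (Fix ℂ K G) n := by
  refine S.redn x hx hm nn hn (σ := Unit) (fun _ i => Φ i) (fun _ i p q hp => ?_) 1 ?_
    fun L h1 h2 => absurd h2 (not_lt.2 (hbig L h1))
  · have := (hp.ge_iff _ _).2 (ge_of_le (hW i q))
    rwa [map_mul, map_pow, ← hp.loc_eq] at this
  · simpa [Finset.prod_eq_zero_iff] using hΦ

end Setup

end Pool.Agent.Lib.MP_e06174_ag
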