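import Pool.Agent.Lib.MP_e06174_ag.Grp

/-! Central extensions of the tetrahedral and octahedral groups: group theory and counting. -/

set_option linter.unusedSectionVars false

open Subgroup

namespace Pool.Agent.Lib.MP_e06174_ag

variable {G : Type*} [Group G] [Finite G]

/-- The inertia group `I` contains the center with index `rb`, in the two exceptional cases. -/
structure Exc (I : Subgroup G) (rb : ℕ) : Prop where
  le : center G ≤ I
  card : Nat.card I = rb * Nat.card (center G)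
  cent : centralizer (I : Set G) ≤ I
  cases : (rb = 3 ∧ Nat.card I = 12 ∧ I.index = 4 ∧ (center G).index = 12) ∨
    (rb = 4 ∧ 8 ≤ Nat.card I ∧ I.index = 6 ∧ (center G).index = 24)

lemma hur_bound {a b c : ℕ} (ha : a = 1 ∨ a = 2) (hb : b = 1 ∨ b = 3) {n : ℕ} (hn : n ≠ 0)
    (h : 2 - 2 / (n : ℚ) ≤ (1 - 1 / (a : ℚ)) + (1 - 1 / (b : ℚ)) + (1 - 1 / (c : ℚ))) :
    (c = 3 → n ≤ 12) ∧ (c = 4 → n ≤ 24 ∧ (b = 1 → n ≤ 3)) := by
  have hpos : (0 : ℚ) < n := by positivity
  have key : ∀ s : ℕ, 2 / (s : ℚ) ≤ 2 / (n : ℚ) → 0 < s → n ≤ s := fun s hs hs0 => by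
    have h1 : (0 : ℚ) < s := by exact_mod_cast hs0
    rw [div_le_div_iff₀ h1 hpos] at hs
    have : (n : ℚ) ≤ s := by linarith
    exact_mod_cast this
  refine ⟨fun hc => key 12 ?_ (by omega), fun hc => ⟨key 24 ?_ (by omega), fun hb' =>
    key 3 ?_ (by omega)⟩⟩
  · rcases ha with rfl | rfl <;> rcases hb with rfl | rfl <;> subst hc <;> norm_num at h ⊢ <;>
      linarith
  · rcases ha with rfl | rfl <;> rcases hb with rfl | rfl <;> subst hc <;> norm_num at h ⊢ <;>
      linarith
  · rcases ha with rfl | rfl <;> subst hb' <;> subst hc <;> norm_num at h ⊢ <;> linarith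

theorem Tri237.exc {A B I : Subgroup G} (h : Tri237 A B I) (hgen : A ⊔ I = ⊤)
    (hcen : (center G).index ≤ 24) : ∃ rb, Exc I rb := by
  set C := centralizer (I : Set G) with hC
  have hIC : I ≤ C := fun a ha b hb => by
    have := h.cyc.isMulCommutative
    exact congrArg Subtype.val (mul_comm' (⟨b, hb⟩ : I) ⟨a, ha⟩)
  have hn0 : (center G).index ≠ 0 := index_ne_zero_of_finite
  have h1 := relIndex_mul_index (center_le_centralizer (I : Set G))
  have h2 : (center G).relIndex I ≤ (center G).relIndex C :=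
    relIndex_le_of_le_right hIC index_ne_zero_of_finite
  rw [← hC] at h1
  have h3 : (center G).relIndex I * C.index ≤ (center G).index :=
    h1 ▸ Nat.mul_le_mul_right _ h2
  have h4 : 4 ≤ C.index := by
    rcases h.dichotomy with h4 | h4
    · exact le_trans (by omega) h4
    · exact h4.1
  have hN : (center G ⊓ I).Normal := ⟨fun a ha g => by
    have : g * a * g⁻¹ = a := by rw [mem_center_iff.1 ha.1 g, mul_inv_cancel_right]
    rwa [this]⟩
  have h5 := hur_bound (h.relA _) (h.relB _) index_ne_zero_of_finite (h.hur _ hN)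
  rw [inf_relIndex_right] at h5
  have h6 := relIndex_mul_index (inf_le_left : center G ⊓ I ≤ center G)
  have h7 : (center G ⊓ I).relIndex (center G) ≠ 0 := index_ne_zero_of_finite
  have h8 : (center G ⊓ I).relIndex (center G) = 1 → center G ≤ I := fun h8 =>
    (relIndex_eq_one.1 h8).trans inf_le_right
  have h9 : center G ≤ I → Nat.card I = (center G).relIndex I * Nat.card (center G) := fun h9 => by
    rw [← relIndex_bot_left, ← relIndex_bot_left, mul_comm,
      relIndex_mul_relIndex _ _ _ bot_le h9]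
  have h10 : ∀ s, I.index = s → s = 4 ∨ s = 6 → C ≤ I := fun s hs hs' => by
    have h10 := relIndex_mul_index hIC
    have h11 : I.relIndex C = 1 := by
      have : I.relIndex C ≠ 0 := index_ne_zero_of_finite
      by_contra h11
      have : 2 * 4 ≤ I.relIndex C * C.index := Nat.mul_le_mul (by omega) h4
      omega
    exact relIndex_eq_one.1 h11
  rcases h.classes hgen with ⟨h11, h12, h13⟩ | ⟨h11, h12, h13⟩ | ⟨h11, h12⟩ | ⟨h11, h12⟩
  · rw [h11] at h3 h9
    have h14 := h5.1 h11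
    have h15 : (center G).index = 12 := by omega
    have h16 : center G ≤ I := h8 (by
      rw [h15] at h6
      by_contra h16
      have : 2 * 12 ≤ (center G ⊓ I).relIndex (center G) * 12 :=
        Nat.mul_le_mul_right _ (by omega)
      omega)
    have h17 := relIndex_mul_index h16
    rw [h11, h15] at h17
    exact ⟨3, h16, h9 h16, h10 4 (by omega) (by omega), Or.inl ⟨rfl, h12, by omega, h15⟩⟩
  · rw [h11] at h3 h9
    have h14 := (h5.2 h11).1
    have h16 : center G ≤ I := h8 (by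
      by_contra h16
      have : 2 * 16 ≤ (center G ⊓ I).relIndex (center G) * (center G).index :=
        Nat.mul_le_mul (by omega) (by omega)
      omega)
    have h17 := relIndex_mul_index h16
    rw [h11] at h17
    have h18 := (hur_bound (h.relA _) (h.relB _) hn0 (h.hur (center G) inferInstance)).2 h11
    have h19 : (center G).relIndex B = 3 := (h.relB _).resolve_left fun h19 => by
      have := h18.2 h19; omega
    have h20 := relIndex_dvd_index_of_normal (center G) B
    rw [h19] at h20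
    have h21 := h9 h16
    have h22 := h.cardI
    exact ⟨4, h16, h21, h10 6 (by omega) (by omega), Or.inr ⟨rfl, by omega, by omega, by omega⟩⟩
  · have : 5 * 12 ≤ (center G).relIndex I * C.index := Nat.mul_le_mul h11 h12
    omega
  · have : 6 * 8 ≤ (center G).relIndex I * C.index := Nat.mul_le_mul h11.ge h12
    omega

namespace Exc

variable {I J : Subgroup G} {rb rb' : ℕ}

lemma rb_eq (h : Exc I rb) (h' : Exc J rb') : rb = rb' := by
  rcases h.cases with h1 | h1 <;> rcases h'.cases with h2 | h2 <;> omega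

lemma card_eq (h : Exc I rb) (h' : Exc J rb') : Nat.card I = Nat.card J := by
  rw [h.card, h'.card, h.rb_eq h']

/-- A big subgroup of `I` has the same centralizer modulo the center. -/
lemma mem_of_comm (h : Exc I rb) {H : Subgroup G} (hH : H ≤ I) (h5 : 4 < Nat.card H)
    (hfull : rb = 3 ∨ Nat.card H = Nat.card I) {γ : G} (hγ : ∀ a ∈ H, a * γ = γ * a) : γ ∈ I := by
  have h1 : H ⊔ center G = I := by
    refine eq_of_le_of_card_ge (sup_le hH h.le) ?_
    have h2 := card_le_of_le (le_sup_left : H ≤ H ⊔ center G)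
    rcases hfull with h3 | h3
    · have h4 := card_dvd_of_le (sup_le hH h.le)
      have h6 := card_dvd_of_le (le_sup_right : center G ≤ H ⊔ center G)
      have h7 := h.card
      rcases h.cases with h8 | h8
      · rw [h8.2.1] at h4 h7 ⊢
        rw [h3] at h7
        rw [show Nat.card (center G) = 4 by omega] at h6
        have := Nat.le_of_dvd (by omega) h4
        generalize Nat.card (H ⊔ center G : Subgroup G) = s at *
        interval_cases s <;> omega
      · omega
    · omega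
  refine h.cent ?_
  have h2 : H ⊔ center G ≤ centralizer {γ} := sup_le
    (fun a ha => mem_centralizer_singleton_iff.2 (hγ a ha)) (center_le_centralizer _)
  exact fun a ha => mem_centralizer_singleton_iff.1 (h2 (h1 ▸ ha))

end Exc

/-- Two equivariant injective labellings of the cosets different from `I` are proportional. -/
lemma val_match {I : Subgroup G} {a : G} (ha : a ∈ I) {β : ℂ} {rb : ℕ}
    (hβ : IsPrimitiveRoot β rb) (h2 : 2 ≤ rb) (hI : I.index ≤ rb + 2) {f₁ f₂ : G → ℂ}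
    (h₁ : ∀ g ∉ I, f₁ (a * g) = β * f₁ g)
    (h₁' : ∀ g ∉ I, ∀ g' ∉ I, f₁ g = f₁ g' ↔ g⁻¹ * g' ∈ I)
    (h₂ : ∀ g ∉ I, f₂ (a * g) = β * f₂ g)
    (h₂' : ∀ g ∉ I, ∀ g' ∉ I, f₂ g = f₂ g' ↔ g⁻¹ * g' ∈ I) :
    ∃ c : ℂ, c ≠ 0 ∧ ∀ g ∉ I, f₂ g = c * f₁ g := by
  classical
  have hβ1 : β ≠ 1 := hβ.ne_one (by omega)
  have hβ0 : β ≠ 0 := hβ.ne_zero (by omega)
  have h3 : ∀ (j : ℕ), ∀ g ∉ I, a ^ j * g ∉ I := fun j g hg h3 =>
    hg ((I.mul_mem_cancel_left (pow_mem ha j)).1 h3)
  have h4 : ∀ g ∉ I, a * g ∉ I := fun g hg => by simpa using h3 1 g hg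
  have hpow : ∀ {f : G → ℂ}, (∀ g ∉ I, f (a * g) = β * f g) →
      ∀ (j : ℕ), ∀ g ∉ I, f (a ^ j * g) = β ^ j * f g := fun {f} hf j g hg => by
    induction j with
    | zero => simp
    | succ j ih => rw [pow_succ', mul_assoc, hf _ (h3 j g hg), ih, pow_succ', mul_assoc]
  have hz : ∀ {f : G → ℂ}, (∀ g ∉ I, f (a * g) = β * f g) →
      (∀ g ∉ I, ∀ g' ∉ I, f g = f g' ↔ g⁻¹ * g' ∈ I) →
      ∀ g ∉ I, f g = 0 ↔ g⁻¹ * (a * g) ∈ I := fun {f} hf hf' g hg => by
    rw [← hf' g hg _ (h4 g hg), hf g hg]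
    constructor
    · intro h5; rw [h5, mul_zero]
    · intro h5
      by_contra h6
      exact hβ1 (mul_right_cancel₀ h6 (by rw [← h5, one_mul]))
  have h5 : ∀ g ∉ I, f₁ g = 0 ↔ f₂ g = 0 := fun g hg =>
    (hz h₁ h₁' g hg).trans (hz h₂ h₂' g hg).symm
  by_cases h6 : ∀ g ∉ I, f₁ g = 0
  · exact ⟨1, one_ne_zero, fun g hg => by rw [h6 g hg, (h5 g hg).1 (h6 g hg), mul_zero]⟩
  push Not at h6
  obtain ⟨g₀, hg₀, h6⟩ := h6
  have h7 : f₂ g₀ ≠ 0 := fun h7 => h6 ((h5 g₀ hg₀).2 h7)
  refine ⟨f₂ g₀ / f₁ g₀, div_ne_zero h7 h6, fun g hg => ?_⟩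
  by_cases h8 : f₁ g = 0
  · rw [h8, (h5 g hg).1 h8, mul_zero]
  by_cases h9 : ∃ j : ℕ, f₁ g = β ^ j * f₁ g₀
  · obtain ⟨j, hj⟩ := h9
    have h10 := hj.trans (hpow h₁ j g₀ hg₀).symm
    rw [h₁' g hg _ (h3 j g₀ hg₀), ← h₂' g hg _ (h3 j g₀ hg₀), hpow h₂ j g₀ hg₀] at h10
    rw [h10, hj]
    field_simp
  exfalso
  push Not at h9
  have := Fintype.ofFinite (G ⧸ I)
  let φ : G ⧸ I → ℂ := fun c => f₁ c.out
  have hφ : ∀ g ∉ I, f₁ g ∈ (Finset.univ.erase ((1 : G) : G ⧸ I)).image φ := fun g hg => by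
    have h10 : g⁻¹ * (g : G ⧸ I).out ∈ I := QuotientGroup.eq.1 (QuotientGroup.out_eq' _).symm
    refine Finset.mem_image.2 ⟨g, Finset.mem_erase.2 ⟨fun h11 => hg ?_, Finset.mem_univ _⟩, ?_⟩
    · simpa using QuotientGroup.eq.1 h11.symm
    · refine ((h₁' g hg _ fun h11 => hg ?_).2 h10).symm
      simpa using (I.mul_mem_cancel_right h11).1 h10
  let T := insert (β * f₁ g) (insert (f₁ g) ((Finset.range rb).image fun j => β ^ j * f₁ g₀))
  have h10 : T ⊆ (Finset.univ.erase ((1 : G) : G ⧸ I)).image φ := fun s hs => by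
    simp only [T, Finset.mem_insert, Finset.mem_image, Finset.mem_range] at hs
    rcases hs with rfl | rfl | ⟨j, -, rfl⟩
    · exact h₁ g hg ▸ hφ _ (h4 g hg)
    · exact hφ g hg
    · exact hpow h₁ j g₀ hg₀ ▸ hφ _ (h3 j g₀ hg₀)
  have h11 := (Finset.card_le_card h10).trans Finset.card_image_le
  rw [Finset.card_erase_of_mem (Finset.mem_univ _), Finset.card_univ, ← Nat.card_eq_fintype_card,
    ← index_eq_card, Finset.card_insert_of_notMem, Finset.card_insert_of_notMem,
    Finset.card_image_of_injOn, Finset.card_range] at h11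
  · omega
  · exact fun i hi j hj hij => hβ.pow_inj (Finset.mem_range.1 hi) (Finset.mem_range.1 hj)
      (mul_right_cancel₀ h6 hij)
  · simp only [Finset.mem_image, not_exists, not_and]
    exact fun j _ hj => h9 j hj.symm
  · simp only [Finset.mem_insert, Finset.mem_image, not_or, not_exists, not_and]
    refine ⟨fun h12 => hβ1 (mul_right_cancel₀ h8 (by rw [h12, one_mul])), fun j _ hj => ?_⟩
    refine h9 (j + (rb - 1)) (mul_left_cancel₀ hβ0 ?_)
    rw [← hj, ← mul_assoc, ← pow_succ', add_assoc, show rb - 1 + 1 = rb by omega, pow_add,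
      hβ.pow_eq_one, mul_one]

lemma count_three : ∀ A S : Finset (Fin 4), S ⊆ A → 2 ≤ A.card →
    3 * 144 ≤ 3 * (∑ i, if i ∈ S then 12 else if i ∈ A then 60 else 36) +
      72 / (A.card - 1) * ∑ i ∈ A, ∑ j ∈ A.erase i, if i ∈ S ∧ j ∈ S then 1 else 0 := by
  decide +kernel

lemma count_four : ∀ A S : Finset (Fin 4), S ⊆ A → 2 ≤ A.card →
    4 * 144 ≤ 4 * (∑ i, if i ∈ S then 18 else if i ∈ A then 54 else 36) +
      72 / (A.card - 1) * ∑ i ∈ A, ∑ j ∈ A.erase i, if i ∈ S ∧ j ∈ S then 1 else 0 := by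
  decide +kernel

end Pool.Agent.Lib.MP_e06174_ag
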