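import Pool.Agent.Lib.MP_e06174_ag.Ret2
import Pool.Agent.Lib.MP_e06174_ag.PluG

/-! Four curves, exactly one factor of type `(2, 3, r)`, and a center of small index. -/

set_option linter.unusedSectionVars false

open Polynomial IntermediateField Module MulAction

namespace Pool.Agent.Lib.MP_e06174_ag

open Place

section group

open Subgroup

variable {G : Type*} [Group G] [Finite G] {A B I : Subgroup G}

lemma Tri237.transfer_eq (h : Tri237 A B I) (h4 : I.index = 4) (ϕ : I →* ℂ) :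
    ∃ ψ : G →* ℂ, ∀ g : I, ψ g = ϕ g ^ 4 := by
  have h1 : ∀ H : Subgroup G, I ≤ H → H = ⊤ ∨ H = I := fun H hH => by
    have h1 := relIndex_mul_index hH
    have h2 := Nat.le_of_dvd (by omega) (h4 ▸ index_dvd_of_le hH)
    by_cases h3 : H.index = 4
    · exact Or.inr (le_antisymm (relIndex_eq_one.1 (by rw [h3, h4] at h1; omega)) hH)
    by_cases h5 : H.index = 2
    · have := normal_of_index_eq_two h5
      exact Or.inl (h.eq_top_of_le H hH)
    refine Or.inl (index_eq_one.1 ?_)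
    rw [h4] at h1
    have : H.index ≠ 3 := fun h6 => by rw [h6] at h1; omega
    have : H.index ≠ 0 := index_ne_zero_of_finite
    omega
  have hc : ∀ a ∈ I, ∀ b ∈ I, a * b = b * a := fun a ha b hb => h.le_cent hb a ha
  refine ⟨(Units.coeHom ℂ).comp (MonoidHom.transfer ϕ.toHomUnits), fun g => ?_⟩
  rw [MonoidHom.comp_apply, MonoidHom.transfer_eq_pow _ _ fun k u hu => ?_, ← map_pow]
  · exact congrArg ϕ (Subtype.ext (congrArg (g.1 ^ ·) h4))
  have h2 := _root_.pow_mem g.2 k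
  generalize (g : G) ^ k = y at hu h2 ⊢
  rcases h1 (centralizer {u⁻¹ * y * u}) (fun a ha => mem_centralizer_singleton_iff.2
    (hc a ha _ hu)) with h3 | h3
  · have := mem_centralizer_singleton_iff.1 (h3 ▸ mem_top u : u ∈ centralizer {u⁻¹ * y * u})
    rw [← mul_assoc, ← mul_assoc, mul_inv_cancel, one_mul, mul_left_inj] at this
    exact this.symm
  have h5 : u⁻¹ ∈ normalizer (I : Set G) := mem_normalizer_fintype fun a ha => by
    rw [← h3, SetLike.mem_coe, mem_centralizer_singleton_iff, inv_inv]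
    calc _ = u⁻¹ * (a * y) * u := by group
      _ = u⁻¹ * (y * a) * u := by rw [hc a ha y h2]
      _ = _ := by group
  rcases h1 _ le_normalizer with h6 | h6
  · have := normalizer_eq_top_iff.1 h6
    rw [h.eq_top_of_le I le_rfl, index_top] at h4
    omega
  · rw [hc _ (h6 ▸ h5) y h2, inv_mul_cancel_right]

lemma exists_core (h : (center G).index = 24) :
    ∃ N : Subgroup G, N.Normal ∧ center G ≤ N ∧ (N.index = 3 ∨ N.index = 6) := by
  have : Fact (Nat.Prime 2) := ⟨Nat.prime_two⟩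
  obtain ⟨Q, hQ⟩ := Sylow.exists_subgroup_card_pow_prime (G := G ⧸ center G) 2 (n := 3)
    (by rw [← index_eq_card, h]; decide)
  have h1 := Q.card_mul_index
  rw [hQ, ← index_eq_card, h] at h1
  let P := Q.comap (QuotientGroup.mk' (center G))
  have h2 : P.index = 3 :=
    (index_comap_of_surjective _ (QuotientGroup.mk'_surjective _)).trans (by omega)
  refine ⟨P.normalCore, inferInstance, normal_le_normalCore.2 fun z hz => ?_, ?_⟩
  · rw [mem_comap, QuotientGroup.mk'_apply, (QuotientGroup.eq_one_iff z).2 hz]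
    exact one_mem _
  · have h3 : P.normalCore.index ∣ P.index.factorial := by
      rw [normalCore_eq_ker, index_ker, index_eq_card, ← Nat.card_perm]
      exact card_subgroup_dvd_card _
    have h4 := index_dvd_of_le P.normalCore_le
    rw [h2] at h3 h4
    have := Nat.le_of_dvd (by decide) h3
    have : P.normalCore.index ≠ 0 := index_ne_zero_of_finite
    rw [show Nat.factorial 3 = 6 from rfl] at *
    omega

end group

section factor

variable {F G : Type} [Field F] [Algebra ℂ F] [Group G] [Finite G] [MulSemiringAction G F]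
  [SMulCommClass G ℂ F] [FaithfulSMul G F] {x : Fix ℂ F G} {a b c : Place ℂ (Fix ℂ F G)}
  {Mt : Place ℂ (Fix ℂ F G) → Prop}

lemma Tri.excl_three (ht : Tri a b c) (h : IsCoord ℂ (x : F)) (hgen : ℂ⟮x⟯ = ⊤) (ψ : G →* ℂ)
    (hM : ∀ q, Mt q → q.ram = 12 ∧ ∃ p : Place ℂ F, p.Over (Fix ℂ F G).val q q.ram ∧
      ∀ g ∈ stabilizer G p, ψ g = p.chi g ^ 4) (ha : a.ram = 2) (hc : Mt c) :
    ¬ (b.ram = 4 ∨ Mt b) := by
  intro hb
  have hξ := Complex.isPrimitiveRoot_exp (Nat.card G) Nat.card_pos.ne'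
  generalize Complex.exp _ = ξ at hξ
  have key : ∀ {q : Place ℂ (Fix ℂ F G)} {p : Place ℂ F}, p.Over (Fix ℂ F G).val q q.ram →
      IsPrimitiveRoot (ξ ^ (Nat.card G / q.ram)) q.ram ∧ ∃ g ∈ stabilizer G p,
        p.chi g = ξ ^ (Nat.card G / q.ram) ∧ ψ g ^ q.ram = 1 := fun {q p} hp => by
    have h2 := hξ.pow Nat.card_pos (Nat.div_mul_cancel
      (h.card_stabilizer hp ▸ Subgroup.card_subgroup_dvd_card _ : q.ram ∣ Nat.card G)).symm
    obtain ⟨g, hg, hg'⟩ := h.exists_chi_eq p (ξ := ξ ^ (Nat.card G / q.ram))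
      (by rw [h.card_stabilizer hp, h2.pow_eq_one])
    refine ⟨h2, g, hg, hg', ?_⟩
    rw [← map_pow, ← h.card_stabilizer hp, show g ^ Nat.card (stabilizer G p) = 1 from
      congrArg Subtype.val (pow_card_eq_one' (x := (⟨g, hg⟩ : stabilizer G p))), map_one]
  obtain ⟨pa, hpa⟩ := a.exists_over_ram
  obtain ⟨h1, pc, hpc, h2⟩ := hM c hc
  obtain ⟨-, ga, h3, h4, h5⟩ := key hpa
  obtain ⟨h6, gc, h7, h8, -⟩ := key hpc
  rw [ha] at h5
  have h9 : ¬ ψ gc ^ 4 = 1 := by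
    rw [h2 gc h7, h8, ← pow_mul, h6.pow_eq_one_iff_dvd, h1]
    decide
  rcases hb with hb | hb
  · obtain ⟨pb, hpb⟩ := b.exists_over_ram
    obtain ⟨-, gb, h10, h11, h12⟩ := key hpb
    have h13 := congrArg (· ^ 4) (ht.prod_char h hgen ψ hξ hpa hpb hpc h3 h10 h7 h4 h11 h8)
    rw [hb] at h12
    simp only [mul_pow, h12, show ψ ga ^ 4 = 1 by linear_combination (ψ ga ^ 2 + 1) * h5,
      one_mul, one_pow] at h13
    exact h9 h13
  · obtain ⟨h10, pb, hpb, h11⟩ := hM b hb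
    obtain ⟨-, gb, h12, h13, -⟩ := key hpb
    have h14 := ht.prod_char h hgen ψ hξ hpa hpb hpc h3 h12 h7 h4 h13 h8
    rw [h11 gb h12, h13, h10, ← h1, ← h8, ← h2 gc h7] at h14
    exact h9 (by linear_combination (ψ ga * ψ gc * ψ gc + 1) * h14 - ψ gc ^ 4 * h5)

lemma Tri.excl_four (ht : Tri a b c) (h : IsCoord ℂ (x : F)) (hgen : ℂ⟮x⟯ = ⊤) (N : Subgroup G)
    [N.Normal] (hN : N.index = 3 ∨ N.index = 6)
    (hM : ∀ q, Mt q → ∃ p : Place ℂ F, p.Over (Fix ℂ F G).val q q.ram ∧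
      N.relIndex (stabilizer G p) ∣ 4) (ha : a.ram = 2) (hc : Mt c) : ¬ (b.ram = 4 ∨ Mt b) := by
  classical
  intro hb
  have h1 : ∀ q : Place ℂ (Fix ℂ F G), ∃ p : Place ℂ F, p.Over (Fix ℂ F G).val q q.ram ∧
      (q.ram ∣ 4 ∨ Mt q → N.relIndex (stabilizer G p) ∣ 4) := fun q => by
    by_cases hq : Mt q
    · exact (hM q hq).imp fun p hp => ⟨hp.1, fun _ => hp.2⟩
    · obtain ⟨p, hp⟩ := q.exists_over_ram
      exact ⟨p, hp, fun h1 => (h.card_stabilizer hp ▸ Subgroup.relIndex_dvd_card N _).trans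
        (h1.resolve_right hq)⟩
  choose P hP hP' using h1
  have h2 := hurwitz h hgen N {a, b, c} (fun q hq => by
    simp only [Finset.mem_insert, Finset.mem_singleton, not_or] at hq
    exact ht.ram q hq.1 hq.2.1 hq.2.2) P hP
  rw [Finset.sum_insert (by simp [ht.ab, ht.ac]), Finset.sum_pair ht.bc] at h2
  have h3 : ∀ q : Place ℂ (Fix ℂ F G), q.ram ∣ 4 ∨ Mt q →
      1 - 1 / (N.relIndex (stabilizer G (P q)) : ℚ) ≤ if N.index = 3 then 0 else 1 / 2 :=
    fun q hq => by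
      have h3 := Nat.dvd_gcd (hP' q hq) (Subgroup.relIndex_dvd_index_of_normal N _)
      rcases hN with hN | hN <;> rw [hN] at h3 ⊢
      · rw [Nat.dvd_one.1 h3]; norm_num
      · rcases (Nat.dvd_prime Nat.prime_two).1 h3 with h4 | h4 <;> rw [h4] <;> norm_num
  have h4 := h3 a (Or.inl (by rw [ha]; decide))
  have h5 := h3 b (hb.imp_left Eq.dvd)
  have h6 := h3 c (Or.inr hc)
  rcases hN with hN | hN <;> rw [hN] at h2 h4 h5 h6 <;> norm_num at h2 h4 h5 h6 <;> linarith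

lemma TT.wt_match (hT : TT ℂ F G) (hA : ¬ TA ℂ F G (6 ≤ ·)) (h : IsCoord ℂ (x : F))
    (hgen : ℂ⟮x⟯ = ⊤) (hM : ∀ q, Mt q → 5 ≤ q.ram)
    (hex : ∀ a b c, Tri a b c → a.ram = 2 → Mt c → ¬ (b.ram = 4 ∨ Mt b)) :
    ∃ nn, Wt x 36 nn ∧ ∀ q, (5 ≤ q.ram → 8 ≤ nn q) ∧ (Mt q → 10 ≤ nn q) := by
  have key : ∀ {a b c : Place ℂ (Fix ℂ F G)} (na nb nc : ℕ), Tri a b c → na + nb + nc ≤ 36 →
      36 ≤ a.ram * na ∧ 10 ≤ na → 36 ≤ b.ram * nb ∧ 8 ≤ nb ∧ (Mt b → 10 ≤ nb) →
      36 ≤ c.ram * nc ∧ 8 ≤ nc ∧ (Mt c → 10 ≤ nc) →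
      ∃ nn, Wt x 36 nn ∧ ∀ q, (5 ≤ q.ram → 8 ≤ nn q) ∧ (Mt q → 10 ≤ nn q) := by
    intro a b c na nb nc ht hs ha hb hc
    obtain ⟨nn, h1, h2, h3, h4⟩ := ht.wt h hgen hs ha.1 hb.1 hc.1
    refine ⟨nn, h1, fun q => ?_⟩
    have := hM q
    rcases ht.cases q with rfl | rfl | rfl | ⟨-, -, -, h5⟩
    · exact ⟨fun _ => by omega, fun _ => by omega⟩
    · exact ⟨fun _ => by omega, h3 ▸ hb.2.2⟩
    · exact ⟨fun _ => by omega, h4 ▸ hc.2.2⟩
    · exact ⟨fun _ => by omega, fun h6 => by have := this h6; omega⟩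
  rcases hT.cases with h1 | ⟨a, b, c, ht, ha, hb, hc⟩ | ⟨a, b, c, ht, ha, hb, hc⟩
  · exact absurd h1 hA
  · by_cases h1 : Mt c
    · have h2 := not_or.1 (hex a b c ht ha h1)
      exact key 18 8 10 ht le_rfl (by omega) ⟨by omega, le_rfl, (absurd · h2.2)⟩ (by omega)
    by_cases h2 : Mt b
    · have := hM b h2
      exact key 18 10 8 ht le_rfl (by omega) (by omega) ⟨by omega, le_rfl, (absurd · h1)⟩
    · exact key 18 9 9 ht le_rfl (by omega) ⟨by omega, by omega, (absurd · h2)⟩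
        ⟨by omega, by omega, (absurd · h1)⟩
  · exact key 12 12 12 ht le_rfl (by omega) (by omega) (by omega)

end factor

namespace Setup

variable {F : Fin 4 → Type} [∀ i, Field (F i)] [∀ i, Algebra ℂ (F i)]
  {G : Type} [Group G] [Finite G] [∀ i, MulSemiringAction G (F i)] [∀ i, SMulCommClass G ℂ (F i)]
  {K : Type} [Field K] [Algebra ℂ K] [MulSemiringAction G K] [SMulCommClass G ℂ K]
  {ι : ∀ i, F i →ₐ[ℂ] K} (S : Setup G ι) [∀ i, FaithfulSMul G (F i)] [FaithfulSMul G K]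
include S

theorem abbb (x : ∀ i, Fix ℂ (F i) G) (hx : ∀ i, IsCoord ℂ (x i : F i))
    (hgen : ∀ i, ℂ⟮x i⟯ = ⊤) (hT : ∀ i, TT ℂ (F i) G) {j : Fin 4} (hj : TA ℂ (F j) G (7 ≤ ·))
    (hB : ∀ i, i ≠ j → ¬ TA ℂ (F i) G (6 ≤ ·)) (hcen : (Subgroup.center G).index ≤ 24) :
    ¬ KodairaNegInf ℂ (Fix ℂ K G) 4 := by
  classical
  obtain ⟨a, b, c, ht, ha, hb, hc⟩ := id hj
  have h1 : ∀ L : S.Loc, 4 < L.e → L.q j = c := fun L hL => by
    have := L.le_ram j
    rcases ht.cases (L.q j) with h | h | h | ⟨-, -, -, h⟩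
    · rw [h] at this; omega
    · rw [h] at this; omega
    · exact h
    · omega
  let Mt : ∀ i, Place ℂ (Fix ℂ (F i) G) → Prop := fun i q =>
    ∃ L : S.Loc, 4 < L.e ∧ L.d j = 1 ∧ L.d i = 1 ∧ L.q i = q
  have h2 : ∀ i a b c, Tri a b c → a.ram = 2 → Mt i c → ¬ (b.ram = 4 ∨ Mt i b) := by
    obtain ⟨p, hp⟩ := c.exists_over_ram
    have h2 : ∀ p : Place ℂ (F j), p.Over (Fix ℂ (F j) G).val c c.ram →
        ∃ A B, Tri237 A B (stabilizer G p) ∧ ∃ rb, Exc (stabilizer G p) rb := fun p hp => by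
      obtain ⟨A, B, h2, h3⟩ := hj.tri237' (hx j) (hgen j) hp (by omega)
      exact ⟨A, B, h2, h2.exc h3 hcen⟩
    obtain ⟨A, B, h3, rb, h4⟩ := h2 p hp
    intro i a b c ht ha
    rcases h4.cases with h5 | h5
    · obtain ⟨ψ, hψ⟩ := h3.transfer_eq h5.2.2.1 ((hx j).chiHom G p)
      refine ht.excl_three (hx i) (hgen i) ψ ?_ ha
      rintro _ ⟨L, h6, h7, h8, rfl⟩
      refine ⟨?_, L.p i, L.hq i, fun g hg => ?_⟩
      · rw [(L.base h8).2, ← (L.base h7).2, h1 L h6, ← (hx j).card_stabilizer hp, h5.2.1]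
      · obtain ⟨h9, h10⟩ := L.chi_eq h8 hg j
        obtain ⟨u, hu⟩ := exists_smul_eq hp (h1 L h6 ▸ L.hq j)
        rw [(L.base h7).1, pow_one, hu] at h10
        rw [hu] at h9
        obtain ⟨h11, h12⟩ := (hx j).chi_smul h9
        rw [← h10, h12]
        refine Eq.trans ?_ (hψ ⟨_, h11⟩)
        rw [map_mul, map_mul, mul_right_comm, ← map_mul, inv_mul_cancel, map_one, one_mul]
    · obtain ⟨N, hN, h6, h7⟩ := exists_core h5.2.2.2
      refine ht.excl_four (hx i) (hgen i) N h7 ?_ ha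
      rintro _ ⟨L, h8, h9, h10, rfl⟩
      refine ⟨L.p i, L.hq i, (Subgroup.relIndex_dvd_of_le_left _ h6).trans ?_⟩
      obtain ⟨-, -, -, rb', h11⟩ := h2 (L.p j) (h1 L h8 ▸ L.hq j)
      have h12 := Subgroup.relIndex_mul_relIndex ⊥ _ _ bot_le h11.le
      rw [Subgroup.relIndex_bot_left, Subgroup.relIndex_bot_left, h11.card, mul_comm rb'] at h12
      rw [← L.inertia_eq h10, L.inertia_eq h9, Nat.eq_of_mul_eq_mul_left Nat.card_pos h12,
        ← h4.rb_eq h11, h5.1]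
  have h3 : ∀ i, ∃ nn, Wt (x i) 36 nn ∧ ∀ q, (5 ≤ q.ram → (if i = j then 6 else 8) ≤ nn q) ∧
      (i ≠ j → Mt i q → 10 ≤ nn q) := fun i => by
    by_cases hi : i = j
    · subst hi
      obtain ⟨nn, h3, h4⟩ := ht.wt' (hx i) (hgen i) (m := 36) (na := 18) (nb := 12) (nc := 6)
        (s := 6) le_rfl (by omega) (by omega) (by omega) (P := fun q => 5 ≤ q.ram)
        (fun _ _ => by omega) (by omega) (by omega) (by omega)
      exact ⟨nn, h3, fun q => ⟨by simpa using h4 q, fun h => (h rfl).elim⟩⟩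
    · obtain ⟨nn, h3, h4⟩ := (hT i).wt_match (hB i hi) (hx i) (hgen i) (Mt := Mt i) (by
        rintro _ ⟨L, h3, -, -, rfl⟩
        exact (Nat.succ_le_of_lt h3).trans (L.le_ram i)) (h2 i)
      exact ⟨nn, h3, fun q => ⟨by simpa [hi] using (h4 q).1, fun _ => (h4 q).2⟩⟩
  choose nn hW h3 using h3
  choose Φ hΦ hΦ' using fun i => (hW i).2
  refine S.easyn x Φ hx (by omega) hΦ nn (fun i => (hW i).1) hΦ' fun L hL => ?_
  have h4 := fun i => (h3 i (L.q i)).1 ((Nat.succ_le_of_lt hL).trans (L.le_ram i))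
  have h5 : ∀ l : Fin 3, (if L.d j = 1 then 10 else 8) ≤
      L.d (j.succAbove l) * nn _ (L.q (j.succAbove l)) := fun l => by
    have h5 := h4 (j.succAbove l)
    have h6 := L.one_le_d (j.succAbove l)
    rw [if_neg (j.succAbove_ne l)] at h5
    split_ifs with h7
    · by_cases h8 : L.d (j.succAbove l) = 1
      · rw [h8, one_mul]
        exact (h3 _ _).2 (j.succAbove_ne l) ⟨L, hL, h7, h8, rfl⟩
      · nlinarith [show 2 ≤ L.d (j.succAbove l) by omega]
    · nlinarith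
  have h6 := h4 j
  have h7 := L.one_le_d j
  have := h5 0
  have := h5 1
  have := h5 2
  rw [if_pos rfl] at h6
  rw [Fin.sum_univ_succAbove _ j, Fin.sum_univ_three]
  by_cases h8 : L.d j = 1
  · simp only [h8, if_true] at *
    omega
  · have := Nat.mul_le_mul (show 2 ≤ L.d j by omega) h6
    simp only [h8, if_false] at *
    omega

end Setup

end Pool.Agent.Lib.MP_e06174_ag
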