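import Mathlib

/-! The group of points of the curve `Y² = X³ - 27` and its automorphisms of order six. -/

set_option linter.unusedSectionVars false

open WeierstrassCurve WeierstrassCurve.Affine

namespace Pool.Agent.Lib.MP_e06174_ag

/-- The curve `Y² = X³ - 27`. -/
def W27 : WeierstrassCurve.Affine ℂ := ⟨0, 0, 0, 0, -27⟩

/-- Its points with values in `K`. -/
def Pt (K : Type) [Field K] [Algebra ℂ K] : Type := (W27.baseChange K).Point

namespace Pt

variable {K L M : Type} [Field K] [Algebra ℂ K] [Field L] [Algebra ℂ L] [Field M] [Algebra ℂ M]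

open Classical in
noncomputable instance : AddCommGroup (Pt K) :=
  inferInstanceAs (AddCommGroup (W27.baseChange K).Point)

lemma charZero (K : Type) [Field K] [Algebra ℂ K] : CharZero K :=
  charZero_of_injective_algebraMap (algebraMap ℂ K).injective

lemma nonsingular_iff {x y : K} : (W27.baseChange K).Nonsingular x y ↔ y ^ 2 = x ^ 3 - 27 := by
  have := charZero K
  rw [Affine.nonsingular_iff, Affine.equation_iff]
  simp only [W27, Affine.baseChange, WeierstrassCurve.baseChange, WeierstrassCurve.map, map_zero,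
    map_neg, map_ofNat, zero_mul, add_zero, mul_zero, sub_zero]
  refine ⟨fun h => by linear_combination h.1, fun h => ⟨by linear_combination h, ?_⟩⟩
  by_contra h1
  push Not at h1
  have h2 : x = 0 := pow_eq_zero_iff two_ne_zero |>.1 (by linear_combination -h1.1 / 3)
  have h3 : y = 0 := by linear_combination h1.2 / 2
  rw [h2, h3] at h
  norm_num at h

/-- The affine point `(x, y)`. -/
def mk (x y : K) (h : y ^ 2 = x ^ 3 - 27) : Pt K := Point.some x y (nonsingular_iff.2 h)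

lemma cases (P : Pt K) : P = 0 ∨ ∃ x y h, P = mk x y h := by
  rcases P with _ | ⟨x, y, h⟩
  · exact Or.inl rfl
  · exact Or.inr ⟨x, y, nonsingular_iff.1 h, rfl⟩

lemma mk_ne_zero {x y : K} (h : y ^ 2 = x ^ 3 - 27) : mk x y h ≠ 0 := Point.some_ne_zero _

lemma mk_eq_mk {x y x' y' : K} {h : y ^ 2 = x ^ 3 - 27} {h' : y' ^ 2 = x' ^ 3 - 27} :
    mk x y h = mk x' y' h' ↔ x = x' ∧ y = y' :=
  ⟨fun h1 => Point.some.inj h1, by rintro ⟨rfl, rfl⟩; rfl⟩

lemma negY_eq (x y : K) : (W27.baseChange K).negY x y = -y := by simp [negY, W27]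

lemma neg_mk {x y : K} (h : y ^ 2 = x ^ 3 - 27) :
    -mk x y h = mk x (-y) (by rw [neg_sq, h]) := by
  change Point.some _ _ _ = Point.some _ _ _
  simp only [negY_eq]

lemma add_eq_zero {x y y' : K} (h : y ^ 2 = x ^ 3 - 27) (h' : y' ^ 2 = x ^ 3 - 27)
    (hy : y = -y') : mk x y h + mk x y' h' = 0 := by
  classical
  exact Point.add_of_Y_eq rfl (by rw [negY_eq, hy])

/-- The addition formula, in terms of any slope. -/
lemma add_mk {x y x' y' : K} (h : y ^ 2 = x ^ 3 - 27) (h' : y' ^ 2 = x' ^ 3 - 27)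
    (hne : ¬ (x = x' ∧ y = -y')) : ∃ (l : K) (h'' : _),
      l * (x - x') = y - y' ∧ l * (y + y') = x ^ 2 + x * x' + x' ^ 2 ∧
      mk x y h + mk x' y' h' = mk (l ^ 2 - x - x') (-(l * (l ^ 2 - x - x' - x) + y)) h'' := by
  classical
  have := charZero K
  have h1 : ¬ (x = x' ∧ y = (W27.baseChange K).negY x' y') := by rwa [negY_eq]
  have h2 := Point.add_some (h₁ := nonsingular_iff.2 h) (h₂ := nonsingular_iff.2 h') h1
  have h3 := nonsingular_iff.1 (nonsingular_add (nonsingular_iff.2 h) (nonsingular_iff.2 h') h1)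
  have hX : ∀ l : K, (W27.baseChange K).addX x x' l = l ^ 2 - x - x' := fun l => by
    simp [addX, W27]
  have hY : ∀ l : K, (W27.baseChange K).addY x x' y l = -(l * (l ^ 2 - x - x' - x) + y) :=
    fun l => by rw [addY, negY_eq, negAddY, hX]
  refine ⟨(W27.baseChange K).slope x x' y y', by rw [← hY, ← hX]; exact h3, ?_, ?_, h2.trans ?_⟩
  · by_cases hx : x = x'
    · have h4 : y = y' := by
        have : (y - y') * (y + y') = 0 := by rw [hx] at h; linear_combination h - h'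
        exact sub_eq_zero.1 ((mul_eq_zero.1 this).resolve_right fun h4 =>
          hne ⟨hx, eq_neg_of_add_eq_zero_left h4⟩)
      simp [hx, h4]
    · rw [slope_of_X_ne hx, div_mul_cancel₀ _ (sub_ne_zero.2 hx)]
  · by_cases hx : x = x'
    · have h4 : y = y' := by
        have : (y - y') * (y + y') = 0 := by rw [hx] at h; linear_combination h - h'
        exact sub_eq_zero.1 ((mul_eq_zero.1 this).resolve_right fun h4 =>
          hne ⟨hx, eq_neg_of_add_eq_zero_left h4⟩)
      have h5 : y ≠ -y' := fun h5 => hne ⟨hx, h5⟩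
      rw [slope_of_Y_ne hx (by rwa [negY_eq]), negY_eq, ← h4, ← hx, sub_neg_eq_add,
        div_mul_cancel₀ _ fun h6 => h5 (by rw [← h4]; linear_combination h6)]
      simp [W27]
      ring
    · rw [slope_of_X_ne hx, div_mul_eq_mul_div, div_eq_iff (sub_ne_zero.2 hx)]
      linear_combination h - h'
  · exact (mk_eq_mk (h := h3)).2 ⟨hX _, hY _⟩

lemma slope_unique {x y x' y' l l' : K} (hne : ¬ (x = x' ∧ y = -y'))
    (h1 : l * (x - x') = y - y') (h2 : l * (y + y') = x ^ 2 + x * x' + x' ^ 2)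
    (h1' : l' * (x - x') = y - y') (h2' : l' * (y + y') = x ^ 2 + x * x' + x' ^ 2) : l = l' := by
  by_cases hx : x = x'
  · exact mul_right_cancel₀ (fun h => hne ⟨hx, eq_neg_of_add_eq_zero_left h⟩) (h2.trans h2'.symm)
  · exact mul_right_cancel₀ (sub_ne_zero.2 hx) (h1.trans h1'.symm)

open Classical in
/-- Functoriality in the field. -/
noncomputable def map (f : K →ₐ[ℂ] L) : Pt K →+ Pt L := Point.map (W' := W27) f

lemma map_mk (f : K →ₐ[ℂ] L) {x y : K} (h : y ^ 2 = x ^ 3 - 27) :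
    map f (mk x y h) = mk (f x) (f y) (by rw [← map_pow, h, map_sub, map_pow, map_ofNat]) := rfl

lemma map_map (f : K →ₐ[ℂ] L) (g : L →ₐ[ℂ] M) (P : Pt K) : map g (map f P) = map (g.comp f) P := by
  rcases P.cases with rfl | ⟨x, y, h, rfl⟩
  · simp
  · rfl

lemma map_injective (f : K →ₐ[ℂ] L) : Function.Injective (map f) := by
  classical
  exact Point.map_injective (W' := W27) f

lemma map_id (P : Pt K) : map (AlgHom.id ℂ K) P = P := by
  rcases P.cases with rfl | ⟨x, y, h, rfl⟩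
  · simp
  · rfl

variable (K) in
/-- The constant points. -/
noncomputable def cst : Pt ℂ →+ Pt K := map (Algebra.ofId ℂ K)

lemma map_cst (f : K →ₐ[ℂ] L) (P : Pt ℂ) : map f (cst K P) = cst L P := by
  rw [cst, map_map, cst]
  congr 2
  exact Subsingleton.elim _ _

/-- The underlying function of the rotation. -/
noncomputable def rotFun (c : K) (hc : c ^ 6 = 1) : Pt K → Pt K
  | Point.zero => 0
  | Point.some x y h => mk (c ^ 2 * x) (c ^ 3 * y) (by
      linear_combination c ^ 6 * nonsingular_iff.1 h - 27 * hc)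

lemma rotFun_zero (c : K) (hc : c ^ 6 = 1) : rotFun c hc 0 = 0 := rfl

lemma rotFun_mk (c : K) (hc : c ^ 6 = 1) {x y : K} (h : y ^ 2 = x ^ 3 - 27) :
    rotFun c hc (mk x y h) = mk (c ^ 2 * x) (c ^ 3 * y)
      (by linear_combination c ^ 6 * h - 27 * hc) := rfl

lemma rotFun_add (c : K) (hc : c ^ 6 = 1) (P Q : Pt K) :
    rotFun c hc (P + Q) = rotFun c hc P + rotFun c hc Q := by
  have hc0 : c ≠ 0 := by rintro rfl; simp at hc
  rcases P.cases with rfl | ⟨x, y, h, rfl⟩
  · rw [zero_add, rotFun_zero, zero_add]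
  rcases Q.cases with rfl | ⟨x', y', h', rfl⟩
  · rw [add_zero, rotFun_zero, add_zero]
  by_cases hne : x = x' ∧ y = -y'
  · obtain ⟨rfl, hy⟩ := hne
    rw [add_eq_zero h h' hy, rotFun_zero, rotFun_mk, rotFun_mk, add_eq_zero _ _ (by rw [hy]; ring)]
  have hne' : ¬ (c ^ 2 * x = c ^ 2 * x' ∧ c ^ 3 * y = -(c ^ 3 * y')) := fun h1 =>
    hne ⟨mul_left_cancel₀ (pow_ne_zero 2 hc0) h1.1,
      mul_left_cancel₀ (pow_ne_zero 3 hc0) (h1.2.trans (mul_neg _ _).symm)⟩
  obtain ⟨l, h1, h2, h3, h4⟩ := add_mk h h' hne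
  rw [h4, rotFun_mk, rotFun_mk, rotFun_mk]
  obtain ⟨l', h1', h2', h3', h4'⟩ := add_mk _ _ hne'
  rw [h4']
  obtain rfl : l' = c * l := slope_unique hne' h2' h3' (by linear_combination c ^ 3 * h2)
    (by linear_combination c ^ 4 * h3)
  exact mk_eq_mk.2 ⟨by ring, by ring⟩

open Classical in
/-- The automorphism `(x, y) ↦ (c² x, c³ y)` for a sixth root of unity `c` (and `0` otherwise). -/
noncomputable def rot (c : ℂ) : Pt K →+ Pt K :=
  if hc : c ^ 6 = 1 then
    AddMonoidHom.mk' (rotFun (algebraMap ℂ K c) (by rw [← map_pow, hc, map_one])) (rotFun_add _ _)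
  else 0

lemma rot_mk {c : ℂ} (hc : c ^ 6 = 1) {x y : K} (h : y ^ 2 = x ^ 3 - 27) :
    ∃ h', rot c (mk x y h) = mk (algebraMap ℂ K c ^ 2 * x) (algebraMap ℂ K c ^ 3 * y) h' := by
  rw [rot, dif_pos hc]
  exact ⟨_, rotFun_mk _ (by rw [← map_pow, hc, map_one]) h⟩

lemma rot_one (P : Pt K) : rot 1 P = P := by
  rcases P.cases with rfl | ⟨x, y, h, rfl⟩
  · simp
  · obtain ⟨h', h1⟩ := rot_mk (one_pow 6) h
    rw [h1]
    exact mk_eq_mk.2 ⟨by simp, by simp⟩

lemma rot_rot {c d : ℂ} (hc : c ^ 6 = 1) (hd : d ^ 6 = 1) (P : Pt K) :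
    rot c (rot d P) = rot (c * d) P := by
  rcases P.cases with rfl | ⟨x, y, h, rfl⟩
  · simp
  · obtain ⟨h1, h2⟩ := rot_mk hd h
    obtain ⟨h3, h4⟩ := rot_mk hc h1
    obtain ⟨h5, h6⟩ := rot_mk (c := c * d) (by rw [mul_pow, hc, hd, one_mul]) h
    rw [h2, h4, h6]
    exact mk_eq_mk.2 ⟨by rw [map_mul]; ring, by rw [map_mul]; ring⟩

lemma map_rot (f : K →ₐ[ℂ] L) (c : ℂ) (P : Pt K) : map f (rot c P) = rot c (map f P) := by
  by_cases hc : c ^ 6 = 1
  · rcases P.cases with rfl | ⟨x, y, h, rfl⟩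
    · simp
    · obtain ⟨h1, h2⟩ := rot_mk hc h
      rw [h2, map_mk, map_mk]
      obtain ⟨h3, h4⟩ := rot_mk hc (x := f x) (y := f y)
        (by rw [← map_pow, h, map_sub, map_pow, map_ofNat])
      rw [h4]
      exact mk_eq_mk.2 ⟨by simp, by simp⟩
  · simp [rot, hc]

lemma rot_neg_one (P : Pt K) : rot (-1) P = -P := by
  rcases P.cases with rfl | ⟨x, y, h, rfl⟩
  · simp
  · obtain ⟨h', h1⟩ := rot_mk (c := -1) (by norm_num) h
    rw [h1, neg_mk]
    exact mk_eq_mk.2 ⟨by simp, by rw [map_neg, map_one]; ring⟩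

/-- The relation `ζ² - ζ + 1 = 0` for a primitive sixth root of unity. -/
lemma rot_rel {c : ℂ} (hc : c ^ 2 - c + 1 = 0) (P : Pt K) : rot c (rot c P) + P = rot c P := by
  have h6 : c ^ 6 = 1 := by linear_combination (c ^ 4 + c ^ 3 - c - 1) * hc
  have := charZero K
  have hc' : algebraMap ℂ K c ^ 2 - algebraMap ℂ K c + 1 = 0 := by
    simpa using congrArg (algebraMap ℂ K) hc
  rcases P.cases with rfl | ⟨x, y, h, rfl⟩
  · simp
  obtain ⟨h1, h2⟩ := rot_mk h6 h
  obtain ⟨h3, h4⟩ := rot_mk h6 h1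
  rw [h2, h4]
  generalize algebraMap ℂ K c = d at *
  have hd : d ^ 3 = -1 := by linear_combination (d + 1) * hc'
  have hy : d ^ 3 * (d ^ 3 * y) = y := by rw [hd]; ring
  have hx : d ^ 2 * (d ^ 2 * x) = -d * x := by linear_combination d * x * hd
  have hne : ¬ (d ^ 2 * (d ^ 2 * x) = x ∧ d ^ 3 * (d ^ 3 * y) = -y) := fun h5 => by
    have h7 : y = 0 := by linear_combination (h5.2 - hy) / 2
    have h8 : x = 0 := by linear_combination ((d - 2) / 3) * (h5.1 - hx) + x / 3 * hc'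
    rw [h7, h8] at h
    norm_num at h
  obtain ⟨l, h5, h7, h8, h9⟩ := add_mk h3 h hne
  obtain rfl : l = 0 := slope_unique hne h7 h8 (by rw [hy]; ring)
    (by rw [hx]; linear_combination -x ^ 2 * hc')
  rw [h9]
  exact mk_eq_mk.2 ⟨by rw [hx]; linear_combination -x * hc', by rw [hy, hd]; ring⟩

end Pt

end Pool.Agent.Lib.MP_e06174_ag
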