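import Pool.Agent.Lib.MP_e06174_ag.Types4
import Pool.Agent.Lib.MP_e06174_ag.EllGrp

/-! The action on a curve with a nowhere vanishing form and a point of order six is affine. -/

set_option linter.unusedSectionVars false

open Polynomial IntermediateField Module MulAction

namespace Pool.Agent.Lib.MP_e06174_ag

open Place

section weierstrass

variable {F : Type} [Field F] [Algebra ℂ F] {X Y : F} (hX : IsCoord ℂ X)
  (hXY : Y ^ 2 = X ^ 3 - 27) (hgen : adjoin ℂ {X, Y} = ⊤)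
include hXY hgen

lemma finrank_le_two {z : F} (hz : X ∈ ℂ⟮z⟯) : finrank ℂ⟮z⟯ F ≤ 2 := by
  have h0 : Y ^ 2 ∈ ℂ⟮z⟯ := hXY ▸ sub_mem (_root_.pow_mem hz 3) (ofNat_mem _ 27)
  have h1 : ℂ⟮z⟯⟮Y⟯ = ⊤ := by
    refine top_le_iff.1 fun b _ => ?_
    refine (adjoin_le_iff (T := ℂ⟮z⟯⟮Y⟯.restrictScalars ℂ)).2 ?_ (hgen ▸ mem_top)
    have h1 : X ∈ ℂ⟮z⟯⟮Y⟯ := ℂ⟮z⟯⟮Y⟯.algebraMap_mem ⟨X, hz⟩
    have h2 : Y ∈ ℂ⟮z⟯⟮Y⟯ := mem_adjoin_simple_self _ _
    rintro _ (rfl | rfl)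
    exacts [h1, h2]
  have h2 : IsIntegral ℂ⟮z⟯ Y :=
    IsIntegral.of_pow two_pos (isIntegral_algebraMap (x := (⟨_, h0⟩ : ℂ⟮z⟯)))
  rw [← finrank_top', ← h1, adjoin.finrank h2]
  have h4 := minpoly.degree_le_of_ne_zero ℂ⟮z⟯ Y (p := Polynomial.X ^ 2 - C ⟨_, h0⟩)
    (X_pow_sub_C_ne_zero two_pos _) (by simp)
  rw [degree_X_pow_sub_C two_pos] at h4
  exact natDegree_le_iff_degree_le.2 h4

omit hgen in
lemma ord_Y_of_pole {p : Place ℂ F} (hp : p.ord X < 0) : 2 * p.ord Y = 3 * p.ord X := by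
  have h1 := ord_sub_const_of_pole (p := p) (x := X ^ 3) (by rw [ord_pow]; omega) 27
  rw [map_ofNat, ← hXY, ord_pow, ord_pow] at h1
  exact_mod_cast h1

include hX

lemma eq_of_pole {p q : Place ℂ F} (hp : p.ord X < 0) (hq : q.ord X < 0) : p = q := by
  classical
  by_contra h
  have h1 := (hX.sum_pole_le {p, q} (by simp [hp, hq])).trans
    (finrank_le_two hXY hgen (mem_adjoin_simple_self ℂ X))
  rw [Finset.sum_pair h] at h1
  have := ord_Y_of_pole hXY hp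
  have := ord_Y_of_pole hXY hq
  omega

lemma eq_of_at {p q r : Place ℂ F} {a b : ℂ} (hp : p.At X a) (hq : q.At X a) (hr : r.At X a)
    (hp' : p.At Y b) (hq' : q.At Y b) (hr' : r.At Y (-b)) : p = q := by
  classical
  by_contra h
  have h0 := sub_const_ne_zero hX.trans a
  have hz : X ∈ ℂ⟮(X - algebraMap ℂ F a)⁻¹⟯ := by
    have := add_mem (inv_mem (mem_adjoin_simple_self ℂ (X - algebraMap ℂ F a)⁻¹))
      (IntermediateField.algebraMap_mem _ a)
    rwa [inv_inv, sub_add_cancel] at this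
  have h1 : IsCoord ℂ (X - algebraMap ℂ F a)⁻¹ := hX.of_transcendental fun h1 => hX.trans (by
    have := isAlgebraic_adjoin_simple h1.isIntegral
    exact IntermediateField.isAlgebraic_iff.1 (this.isAlgebraic ⟨X, hz⟩))
  have h2 := fun T hT => (h1.sum_pole_le T hT).trans (finrank_le_two hXY hgen hz)
  have h3 := hp.ord_pos hX.trans
  have h4 := hq.ord_pos hX.trans
  have h5 := hr.ord_pos hX.trans
  by_cases hb : b = 0
  · subst hb
    have key : ∀ {s : Place ℂ F}, s.At X a → s.At Y 0 → 2 ≤ s.ord (X - algebraMap ℂ F a) := by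
      intro s hs hs'
      have h6 : a ^ 3 = 27 := by
        have h6 := (hs'.pow 2).add (s.at_const 27)
        rw [hXY, map_ofNat, sub_add_cancel] at h6
        simpa using (hs.pow 3).unique h6
      have h7 : a ≠ 0 := by rintro rfl; norm_num at h6
      have h8 := (((hs.pow 2).add (hs.smul a)).add (s.at_const (a ^ 2))).ord_eq_zero
        (fun h8 => pow_ne_zero 2 h7 (by linear_combination h8 / 3))
      have h9 : Y ^ 2 = (X - algebraMap ℂ F a) * (X ^ 2 + a • X + algebraMap ℂ F (a ^ 2)) := by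
        have := congrArg (algebraMap ℂ F) h6
        rw [map_pow, map_ofNat] at this
        rw [hXY, Algebra.smul_def, map_pow]
        linear_combination this
      have h10 := congrArg s.ord h9
      rw [s.ord_mul h0 h8.1, h8.2, ord_pow] at h10
      have := hs.ord_pos hX.trans
      omega
    have h6 := h2 {p, q} (by simp; omega)
    have := key hp hp'
    have := key hq hq'
    rw [Finset.sum_pair h, ord_inv, ord_inv] at h6
    omega
  · have h6 : ∀ {s : Place ℂ F}, s.At Y b → r ≠ s := by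
      rintro s hs rfl
      exact hb (by linear_combination (hs.unique hr') / 2)
    have h7 := h2 {r, p, q} (by simp; omega)
    rw [Finset.sum_insert (by simp [h6 hp', h6 hq']), Finset.sum_pair h, ord_inv, ord_inv,
      ord_inv] at h7
    omega

end weierstrass

lemma ge_add_of_pole {F : Type} [Field F] [Algebra ℂ F] {p : Place ℂ F} {x y x' y' l : F}
    (h : y ^ 2 = x ^ 3 - 27) (h' : y' ^ 2 = x' ^ 3 - 27) (hx : p.ord x < 0) (hx' : p.Ge 0 x')
    (hy' : p.Ge 0 y') (hl : l * (x - x') = y - y') : p.Ge 0 (l ^ 2 - x - x') := by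
  have hx0 : x ≠ 0 := by rintro rfl; simp at hx
  have h1 := ord_add_of_ge hx0 (hx'.neg.mono (m := p.ord x + 1) (by omega))
  rw [← sub_eq_add_neg] at h1
  have h2 : l ^ 2 - x - x' = (x ^ 2 * x' + x * x' ^ 2 - 2 * y * y' - 54) * ((x - x') ^ 2)⁻¹ := by
    rw [eq_mul_inv_iff_mul_eq₀ (pow_ne_zero _ h1.1)]
    linear_combination (l * (x - x') + y - y') * hl + h + h'
  have h3 := ord_Y_of_pole h hx
  rw [h2]
  refine Ge.mul' (m := 2 * p.ord x) (Ge.sub (Ge.sub (Ge.add ?_ ?_) ?_) ?_) (ge_ord _)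
    (by simp [h1.2])
  · exact (ge_of_le (by simp)).mul' hx' (add_zero _).ge
  · exact (ge_ord x).mul' (hx'.pow 2) (by omega)
  · exact ((ge_natCast 2).mul (ge_ord y)).mul' hy' (by omega)
  · exact (ge_natCast 54).mono (by omega)

variable {F G : Type} [Field F] [Algebra ℂ F] [Group G] [Finite G] [MulSemiringAction G F]
  [SMulCommClass G ℂ F] [FaithfulSMul G F] {x : Fix ℂ F G}

/-- A group element as an algebra endomorphism. -/
abbrev act (F : Type) {G : Type} [Field F] [Algebra ℂ F] [Group G] [MulSemiringAction G F]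
    [SMulCommClass G ℂ F] (g : G) : F →ₐ[ℂ] F := MulSemiringAction.toAlgHom ℂ F g

lemma exists_translation {X Y : F} (hX : IsCoord ℂ X) (hXY : Y ^ 2 = X ^ 3 - 27)
    (hgen : adjoin ℂ {X, Y} = ⊤) {s : G} (hsX : s • X = X) (hsY : s • Y = -Y) {g : G}
    (hg : ∀ p : Place ℂ F, g ∈ stabilizer G p → g = 1) :
    ∃ t : Pt ℂ, Pt.map (act F g) (Pt.mk X Y hXY) = Pt.mk X Y hXY + Pt.cst F t := by
  by_cases h1 : g = 1
  · refine ⟨0, ?_⟩
    rw [h1, map_zero, add_zero, Pt.map_mk]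
    exact Pt.mk_eq_mk.2 ⟨one_smul _ _, one_smul _ _⟩
  have hg' : (g • Y) ^ 2 = (g • X) ^ 3 - 27 := by
    have := congrArg (act F g) hXY
    rwa [map_pow, map_sub, map_pow, map_ofNat] at this
  have hn : (-Y) ^ 2 = X ^ 3 - 27 := by rw [neg_sq, hXY]
  have hne : ¬ (g • X = X ∧ g • Y = - -Y) := fun h2 => h1 (by
    refine (faithfulSMul_iff.1 ‹_›) g fun z => ?_
    have h3 : adjoin ℂ {X, Y} ≤ Fix ℂ F (Subgroup.zpowers g) := adjoin_le_iff.2 (by
      rintro _ (rfl | rfl) <;> refine mem_fix.2 fun a => ?_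
      · exact (Subgroup.zpowers_le (H := stabilizer G _)).2 h2.1 a.2
      · exact (Subgroup.zpowers_le (H := stabilizer G _)).2 (h2.2.trans (neg_neg _)) a.2)
    exact mem_fix.1 (h3 (hgen ▸ mem_top)) ⟨g, Subgroup.mem_zpowers g⟩)
  obtain ⟨l, h2, h3, h4, h5⟩ := Pt.add_mk hg' hn hne
  have hY : ∀ p : Place ℂ F, p.Ge 0 X → p.Ge 0 Y := fun p hp => by
    have h6 : p.Ge 0 (Y ^ 2) := hXY ▸ Ge.sub (by simpa using hp.pow 3) (ge_natCast 27)
    by_cases hY : Y = 0
    · simp [hY]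
    · have := h6.le (pow_ne_zero _ hY)
      rw [ord_pow] at this
      exact ge_of_le (by omega)
  obtain ⟨a, ha⟩ := hX.const_of_forall_ge (y := l ^ 2 - g • X - X) fun p => by
    have hp : g⁻¹ • p ≠ p := fun h6 => h1 (hg p (by simpa using inv_mem (show g⁻¹ ∈
      stabilizer G p from h6)))
    have e1 : ∀ (n : ℤ) (z : F), (g⁻¹ • p).Ge n z ↔ p.Ge n (g • z) := fun n z => by simp
    have e2 : ∀ (z : F) (c : ℂ), (g⁻¹ • p).At z c ↔ p.At (g • z) c := fun z c => by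
      rw [smul_at, inv_inv]
    rcases hX.pole_or_at p with h6 | ⟨a, ha⟩ <;> rcases hX.pole_or_at (g⁻¹ • p) with h7 | ⟨b, hb⟩
    · exact absurd (eq_of_pole hX hXY hgen h7 h6) hp
    · rw [sub_right_comm]
      exact ge_add_of_pole hn hg' h6 ((e1 _ _).1 hb.ge_zero) ((e1 _ _).1 (hY _ hb.ge_zero))
        (by linear_combination -h3)
    · exact ge_add_of_pole hg' hn (by rwa [ord_smul_eq]) ha.ge_zero (hY _ ha.ge_zero).neg h3
    · have hc := hX.at_cen (hY _ ha.ge_zero)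
      have hd := hX.at_cen (hY _ hb.ge_zero)
      suffices p.Ge 0 l from
        (Ge.sub (by simpa using this.pow 2) ((e1 _ _).1 hb.ge_zero)).sub ha.ge_zero
      by_cases hab : b = a
      · subst hab
        have h8 : (g⁻¹ • p).cen Y - p.cen Y ≠ 0 := fun h8 => hp (eq_of_at hX hXY hgen
          (r := s⁻¹ • p) hb ha (by rwa [smul_at, inv_inv, hsX]) hd (sub_eq_zero.1 h8 ▸ hc) (by
            rw [smul_at, inv_inv, hsY, sub_eq_zero.1 h8]
            simpa using hc.smul (-1)))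
        have h9 := (((e2 _ _).1 hd).add (hc.smul (-1))).ord_eq_zero
          (by simpa [sub_eq_add_neg] using h8)
        rw [neg_one_smul] at h9
        rw [(eq_mul_inv_iff_mul_eq₀ h9.1).2 h4]
        have h10 := (e1 _ _).1 hb.ge_zero
        exact Ge.mul' (Ge.add (Ge.add (by simpa using h10.pow 2) (h10.mul' ha.ge_zero le_rfl))
          (by simpa using ha.ge_zero.pow 2)) (ge_ord _) (by simp [h9.2])
      · have h9 := (((e2 _ _).1 hb).add (ha.smul (-1))).ord_eq_zero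
          (by simpa [← sub_eq_add_neg, sub_eq_zero] using hab)
        rw [neg_one_smul, ← sub_eq_add_neg] at h9
        rw [(eq_mul_inv_iff_mul_eq₀ h9.1).2 h3]
        exact Ge.mul' (((e1 _ _).1 (hY _ hb.ge_zero)).sub (hY _ ha.ge_zero).neg) (ge_ord _)
          (by simp [h9.2])
  obtain ⟨b, hb⟩ := IsAlgClosed.exists_pow_nat_eq (a ^ 3 - 27) two_pos
  obtain ⟨b, hb, hb'⟩ : ∃ b : ℂ, b ^ 2 = a ^ 3 - 27 ∧
      -(l * (l ^ 2 - g • X - X - g • X) + g • Y) = algebraMap ℂ F b := by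
    have h6 := congrArg (algebraMap ℂ F) hb
    rw [map_pow, map_sub, map_pow, map_ofNat, ← ha, ← h2] at h6
    rcases sq_eq_sq_iff_eq_or_eq_neg.1 h6.symm with h7 | h7
    · exact ⟨b, hb, h7⟩
    · exact ⟨-b, by rw [neg_sq, hb], by rw [map_neg, h7]⟩
  refine ⟨Pt.mk a b hb, ?_⟩
  rw [← sub_eq_iff_eq_add', sub_eq_add_neg, Pt.neg_mk, Pt.cst, Pt.map_mk, Pt.map_mk]
  exact h5.trans (Pt.mk_eq_mk.2 ⟨ha, hb'⟩)

theorem exists_affine (h : IsCoord ℂ (x : F)) {f : F} (hf0 : f ≠ 0)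
    (hf : ∀ p : Place ℂ F, p.ord (f * p.loc (x : F)) = 1) {χ : G →* ℂ}
    (hχ : ∀ p : Place ℂ F, ∀ g ∈ stabilizer G p, χ g = p.chi g) (hχ6 : ∀ g, χ g ^ 6 = 1)
    {p₀ : Place ℂ F} (h6 : Nat.card (stabilizer G p₀) = 6) :
    ∃ (X Y : F) (hXY : Y ^ 2 = X ^ 3 - 27) (t : G → Pt ℂ), IsCoord ℂ X ∧ adjoin ℂ {X, Y} = ⊤ ∧
      (∀ g, Pt.map (act F g) (Pt.mk X Y hXY) =
        Pt.rot (χ g)⁻¹ (Pt.mk X Y hXY) + Pt.cst F (t g)) ∧
      ∀ g ∈ stabilizer G p₀, χ g ^ 2 ≠ 1 → χ g ^ 3 ≠ 1 →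
        ∀ p : Place ℂ F, g ∈ stabilizer G p → p = p₀ := by
  obtain ⟨X, Y, hXY, hX, hgen, h1⟩ := exists_weierstrass (F := F) h6 (p := p₀) (fun g => g.2)
    (x := ⟨x, mem_fix.2 fun g => smul_fix (g : G) x⟩) h hf0 hf
  replace hX := h.of_transcendental hX
  replace h1 : ∀ g ∈ stabilizer G p₀, algebraMap ℂ F (χ g) ^ 2 * g • X = X ∧
      algebraMap ℂ F (χ g) ^ 3 * g • Y = Y := fun g hg => by
    rw [hχ p₀ g hg]; exact h1 ⟨g, hg⟩
  have h0 : ∀ g, χ g ≠ 0 := fun g => ((Group.isUnit g).map χ).ne_zero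
  have h2 : ∀ g, ∃ a ∈ stabilizer G p₀, χ a = χ g := fun g => by
    obtain ⟨a, ha, ha'⟩ := h.exists_chi_eq p₀ (ξ := χ g) (by rw [h6, hχ6])
    exact ⟨a, ha, (hχ _ _ ha).trans ha'⟩
  obtain ⟨s, hs, hs'⟩ := h.exists_chi_eq p₀ (ξ := -1) (by rw [h6]; norm_num)
  rw [← hχ _ _ hs] at hs'
  have h3 := h1 s hs
  rw [hs', map_neg, map_one] at h3
  have h4 : ∀ g : G, ∃ t : Pt ℂ, Pt.map (act F g) (Pt.mk X Y hXY) =
      Pt.rot (χ g)⁻¹ (Pt.mk X Y hXY) + Pt.cst F t := fun g => by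
    obtain ⟨a, ha, ha'⟩ := h2 g
    obtain ⟨t, ht⟩ := exists_translation hX hXY hgen (s := s) (by linear_combination h3.1)
      (by linear_combination -h3.2) (g := g * a⁻¹) fun p hp => h.eq_one_of_chi hp (by
        rw [← hχ p _ hp, map_mul, map_inv, ha', mul_inv_cancel₀ (h0 g)])
    have h5 : Pt.map (act F a) (Pt.mk X Y hXY) = Pt.rot (χ g)⁻¹ (Pt.mk X Y hXY) := by
      obtain ⟨h5, h7⟩ := Pt.rot_mk (c := (χ g)⁻¹) (by rw [inv_pow, hχ6, inv_one]) hXY
      have h8 : algebraMap ℂ F (χ g) ≠ 0 := (_root_.map_ne_zero _).2 (h0 g)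
      rw [h7, Pt.map_mk, Pt.mk_eq_mk, map_inv₀, inv_pow, inv_pow, eq_inv_mul_iff_mul_eq₀
        (pow_ne_zero _ h8), eq_inv_mul_iff_mul_eq₀ (pow_ne_zero _ h8), ← ha']
      exact h1 a ha
    refine ⟨Pt.rot (χ g)⁻¹ t, ?_⟩
    have h7 : act F g = (act F (g * a⁻¹)).comp (act F a) := AlgHom.ext fun z => by
      simp [smul_smul]
    rw [h7, ← Pt.map_map, h5, Pt.map_rot, ht, map_add, Pt.cst, Pt.map_rot]
  choose t ht using h4
  refine ⟨X, Y, hXY, t, hX, hgen, ht, fun g hg h7 h8 => ?_⟩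
  have key : ∀ p : Place ℂ F, g ∈ stabilizer G p → p.ord X < 0 := fun p hp => by
    refine (hX.pole_or_at p).resolve_right fun ⟨a, ha⟩ => ?_
    have h9 : ∀ {z : F} {c : ℂ} {n : ℕ}, algebraMap ℂ F (χ g) ^ n * g • z = z → χ g ^ n ≠ 1 →
        p.At z c → c = 0 := fun {z c n} hz hn hc => by
      have h9 : p.At (g • z) c := by
        have : g⁻¹ • p = p := inv_mem hp
        rw [← this, smul_at, inv_inv] at hc
        exact hc
      have h10 := (p.at_const (χ g ^ n)).mul h9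
      rw [map_pow, hz] at h10
      exact (mul_eq_zero.1 (show (χ g ^ n - 1) * c = 0 by
        linear_combination h10.unique hc)).resolve_left (sub_ne_zero.2 hn)
    obtain rfl := h9 (h1 g hg).1 h7 ha
    have h10 : p.Ge 0 Y := by
      have h10 : p.Ge 0 (Y ^ 2) := hXY ▸ Ge.sub (by simpa using ha.ge_zero.pow 3) (ge_natCast 27)
      by_cases hY : Y = 0
      · simp [hY]
      · have := h10.le (pow_ne_zero _ hY)
        rw [ord_pow] at this
        exact ge_of_le (by omega)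
    have h11 := hX.at_cen h10
    rw [h9 (h1 g hg).2 h8 h11] at h11
    have h12 := (h11.pow 2).add (p.at_const 27)
    rw [hXY, map_ofNat, sub_add_cancel] at h12
    simpa using (ha.pow 3).unique h12
  exact fun p hp => eq_of_pole hX hXY hgen (key p hp) (key p₀ hg)

end Pool.Agent.Lib.MP_e06174_ag
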