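import Pool.Agent.Lib.MP_e06174_ag.Gal

/-! The centre of a place with respect to a coordinate function; orders of polynomials. -/

open Polynomial

namespace Pool.Agent.Lib.MP_e06174_ag

namespace Place

variable {k F : Type*} [Field k] [Field F] [Algebra k F]

/-- `x` takes the finite value `a` at the place. -/
def At (p : Place k F) (x : F) (a : k) : Prop := p.Ge 1 (x - algebraMap k F a)

variable {p : Place k F} {x : F}

lemma At.unique {a b : k} (ha : p.At x a) (hb : p.At x b) : a = b := by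
  have := Ge.sub hb ha
  rw [sub_sub_sub_cancel_left, ← map_sub] at this
  exact sub_eq_zero.1 (eq_zero_of_ge_one_const this)

lemma At.ge_zero {a : k} (ha : p.At x a) : p.Ge 0 x := by
  have := (Ge.mono ha (m := 0) (by omega)).add (ge_const a)
  simpa using this

lemma At.not_pole {a : k} (ha : p.At x a) : ¬ p.ord x < 0 := by
  intro h
  have hx : x ≠ 0 := by rintro rfl; simp at h
  have := ha.ge_zero.le hx
  omega

open Classical in
/-- The value of `x` at the place if there is a finite constant one, and `0` otherwise. -/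
noncomputable def cen (p : Place k F) (x : F) : k := if h : ∃ a, p.At x a then h.choose else 0

/-- `x` minus its value. -/
noncomputable def loc (p : Place k F) (x : F) : F := x - algebraMap k F (p.cen x)

lemma At.cen_eq {a : k} (ha : p.At x a) : p.cen x = a := by
  have h : ∃ a, p.At x a := ⟨a, ha⟩
  rw [cen, dif_pos h]
  exact h.choose_spec.unique ha

lemma At.loc_eq {a : k} (ha : p.At x a) : p.loc x = x - algebraMap k F a := by
  rw [loc, ha.cen_eq]

lemma loc_eq_of_not (h : ¬ ∃ a, p.At x a) : p.loc x = x := by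
  rw [loc, cen, dif_neg h]; simp

lemma loc_eq_of_pole (h : p.ord x < 0) : p.loc x = x :=
  loc_eq_of_not fun ⟨_, ha⟩ => ha.not_pole h

lemma sub_const_ne_zero (hx : Transcendental k x) (a : k) : x - algebraMap k F a ≠ 0 := by
  intro h
  exact hx (sub_eq_zero.1 h ▸ isAlgebraic_algebraMap a)

lemma loc_ne_zero (hx : Transcendental k x) : p.loc x ≠ 0 := sub_const_ne_zero hx _

lemma ne_zero_of_transcendental (hx : Transcendental k x) : x ≠ 0 := by
  simpa using sub_const_ne_zero hx 0

lemma At.ord_pos {a : k} (ha : p.At x a) (hx : Transcendental k x) :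
    1 ≤ p.ord (x - algebraMap k F a) := Ge.le ha (sub_const_ne_zero hx a)

lemma aeval_ne_zero (hx : Transcendental k x) {P : k[X]} (hP : P ≠ 0) : aeval x P ≠ 0 :=
  fun h => hx ⟨P, hP, h⟩

lemma Over.at_iff {K : Type*} [Field K] [Algebra k K] {w : Place k K} {ι : F →ₐ[k] K} {e : ℕ}
    (h : w.Over ι p e) (a : k) : w.At (ι x) a ↔ p.At x a := by
  rw [At, At, ← h.ge_one_iff, map_sub, AlgHom.commutes]

lemma Over.cen_eq {K : Type*} [Field K] [Algebra k K] {w : Place k K} {ι : F →ₐ[k] K} {e : ℕ}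
    (h : w.Over ι p e) : w.cen (ι x) = p.cen x := by
  by_cases h1 : ∃ a, p.At x a
  · obtain ⟨a, ha⟩ := h1
    rw [ha.cen_eq, ((h.at_iff a).2 ha).cen_eq]
  · have h2 : ¬ ∃ a, w.At (ι x) a := fun ⟨a, ha⟩ => h1 ⟨a, (h.at_iff a).1 ha⟩
    rw [cen, cen, dif_neg h1, dif_neg h2]

lemma Over.loc_eq {K : Type*} [Field K] [Algebra k K] {w : Place k K} {ι : F →ₐ[k] K} {e : ℕ}
    (h : w.Over ι p e) : w.loc (ι x) = ι (p.loc x) := by
  rw [loc, loc, h.cen_eq, map_sub, AlgHom.commutes]

lemma Over.pole_iff {K : Type*} [Field K] [Algebra k K] {w : Place k K} {ι : F →ₐ[k] K} {e : ℕ}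
    (h : w.Over ι p e) : w.ord (ι x) < 0 ↔ p.ord x < 0 := by
  have he : (0 : ℤ) < e := by have := h.1; omega
  rw [h.2]
  constructor
  · intro h1; by_contra h2; nlinarith
  · intro h1; nlinarith

section action

variable {G : Type*} [Group G] [MulSemiringAction G F] [SMulCommClass G k F]

lemma smul_at_iff {g : G} (hg : g⁻¹ • x = x) (a : k) : (g • p).At x a ↔ p.At x a := by
  rw [At, At, smul_ge, smul_sub, hg, smul_const]

lemma smul_loc {g : G} (hg : g⁻¹ • x = x) : (g • p).loc x = p.loc x := by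
  by_cases h1 : ∃ a, p.At x a
  · obtain ⟨a, ha⟩ := h1
    rw [ha.loc_eq, ((smul_at_iff hg a).2 ha).loc_eq]
  · rw [loc_eq_of_not h1, loc_eq_of_not fun ⟨a, ha⟩ => h1 ⟨a, (smul_at_iff hg a).1 ha⟩]

lemma smul_loc_eq {g : G} (hg : g • x = x) : g • p.loc x = p.loc x := by
  rw [loc, smul_sub, hg, smul_const]

end action

lemma Ge.aeval (hx : p.Ge 0 x) (P : k[X]) : p.Ge 0 (aeval x P) := by
  rw [aeval_eq_sum_range]
  exact Ge.sum fun i _ => Ge.smul (by simpa using hx.pow i) _

lemma At.aeval {a : k} (ha : p.At x a) (P : k[X]) : p.At (aeval x P) (P.eval a) := by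
  obtain ⟨Q, hQ⟩ := X_sub_C_dvd_sub_C_eval (p := P) (a := a)
  have := congrArg (Polynomial.aeval x) hQ
  simp only [map_sub, aeval_C, map_mul, aeval_X] at this
  rw [At, this]
  exact Ge.mul' ha (ha.ge_zero.aeval Q) (by simp)

lemma At.ord_aeval {a : k} (ha : p.At x a) (hx : Transcendental k x) {P : k[X]} (hP : P ≠ 0) :
    p.ord (Polynomial.aeval x P) = P.rootMultiplicity a * p.ord (x - algebraMap k F a) := by
  obtain ⟨Q, hQ, hQ'⟩ := exists_eq_pow_rootMultiplicity_mul_and_not_dvd P hP a
  have h1 : Q.eval a ≠ 0 := fun h => hQ' (dvd_iff_isRoot.2 h)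
  have h2 := ord_eq_zero_of_ge_sub_const h1 (ha.aeval Q)
  conv_lhs => rw [hQ]
  simp only [map_mul, map_pow, map_sub, aeval_X, aeval_C]
  rw [p.ord_mul (pow_ne_zero _ (sub_const_ne_zero hx a)) h2.1, h2.2, ord_pow, add_zero]

lemma ord_sub_const_of_pole (h : p.ord x < 0) (a : k) :
    p.ord (x - algebraMap k F a) = p.ord x := by
  have hx : x ≠ 0 := by rintro rfl; simp at h
  rw [sub_eq_add_neg]
  exact (ord_add_of_ge hx ((ge_const a).neg.mono (by omega))).2

lemma ord_aeval_of_pole (h : p.ord x < 0) {P : k[X]} (hP : P ≠ 0) :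
    p.ord (Polynomial.aeval x P) = P.natDegree * p.ord x := by
  have hx : x ≠ 0 := by rintro rfl; simp at h
  have : p.v.IsTrivialOn k := ⟨p.triv⟩
  have h1 : 1 < p.v x := by
    rw [p.v_eq hx, ← WithZero.exp_zero, WithZero.exp_lt_exp]; omega
  rw [ord, valuation_aeval_eq_valuation_X_pow_natDegree_of_one_lt_valuation_X x h1 hP,
    WithZero.log_pow, ord]
  simp

lemma ge_aeval_of_pole (h : p.ord x < 0) {P : k[X]} {n : ℕ} (hn : P.natDegree ≤ n) :
    p.Ge (n * p.ord x) (Polynomial.aeval x P) := by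
  by_cases hP : P = 0
  · simp [hP]
  refine ge_of_le ?_
  rw [ord_aeval_of_pole h hP]
  have : (P.natDegree : ℤ) ≤ n := by exact_mod_cast hn
  nlinarith

lemma ord_aeval_of_generic [IsAlgClosed k] (hx : Transcendental k x) (h0 : p.Ge 0 x)
    (h : ¬ ∃ a, p.At x a) {P : k[X]} (hP : P ≠ 0) : p.ord (Polynomial.aeval x P) = 0 := by
  have h1 : ∀ a : k, p.ord (x - algebraMap k F a) = 0 := by
    intro a
    have h2 : ¬ p.At x a := fun ha => h ⟨a, ha⟩
    rw [At, not_ge_iff] at h2
    have := (h0.sub (ge_const a)).le h2.1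
    omega
  conv_lhs => rw [(IsAlgClosed.splits P).eq_prod_roots]
  rw [map_mul, aeval_C, map_multiset_prod, Multiset.map_map]
  have h3 : ∀ s : Multiset k,
      (s.map ((Polynomial.aeval x) ∘ fun a => X - C a)).prod ≠ 0 ∧
      p.ord (s.map ((Polynomial.aeval x) ∘ fun a => X - C a)).prod = 0 := by
    intro s
    induction s using Multiset.induction_on with
    | empty => simp
    | cons a s ih =>
      rw [Multiset.map_cons, Multiset.prod_cons]
      simp only [Function.comp_apply, map_sub, aeval_X, aeval_C] at ih ⊢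
      refine ⟨mul_ne_zero (sub_const_ne_zero hx a) ih.1, ?_⟩
      rw [p.ord_mul (sub_const_ne_zero hx a) ih.1, h1, ih.2, add_zero]
  rw [p.ord_mul (by simpa using hP) (h3 _).1, (h3 _).2, ord_const, add_zero]

lemma sum_rootMultiplicity [IsAlgClosed k] {P : k[X]} (hP : P ≠ 0) (S : Finset k)
    (hS : ∀ a, P.IsRoot a → a ∈ S) : ∑ a ∈ S, P.rootMultiplicity a = P.natDegree := by
  classical
  rw [(IsAlgClosed.splits P).natDegree_eq_card_roots, ← Multiset.toFinset_sum_count_eq]
  symm
  rw [Finset.sum_subset (s₂ := S)]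
  · exact Finset.sum_congr rfl fun a _ => count_roots P
  · intro a ha
    exact hS a ((mem_roots hP).1 (Multiset.mem_toFinset.1 ha))
  · intro a _ ha
    rwa [Multiset.mem_toFinset, ← Multiset.count_eq_zero] at ha

/-- If the place is trivial on all nonzero polynomials in `x` and `F` is algebraic over `k(x)`,
we get a contradiction. -/
lemma not_generic (hx : Transcendental k x)
    (halg : ∀ y : F, IsAlgebraic (IntermediateField.adjoin k {x}) y)
    (h : ∀ P : k[X], P ≠ 0 → p.ord (Polynomial.aeval x P) = 0) : False := by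
  have h1 : ∀ b : IntermediateField.adjoin k {x}, p.ord (b : F) = 0 := by
    rintro ⟨b, hb⟩
    rw [IntermediateField.mem_adjoin_simple_iff] at hb
    obtain ⟨P, Q, rfl⟩ := hb
    by_cases hP : P = 0
    · simp [hP]
    by_cases hQ : Q = 0
    · simp [hQ]
    simp only
    rw [p.ord_div (aeval_ne_zero hx hP) (aeval_ne_zero hx hQ), h P hP, h Q hQ, sub_zero]
  obtain ⟨y, hy0, hy⟩ := p.exists_ord_eq (-1)
  have := (ge_zero_of_isIntegral p (R := IntermediateField.adjoin k {x})
    (fun r => ge_of_le (h1 r).ge) (halg y).isIntegral).le hy0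
  omega

end Place

end Pool.Agent.Lib.MP_e06174_ag
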