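import Pool.Agent.Lib.MP_e06174_ag.Factor

/-! The cotangent character of the stabilizer of a place of a curve. -/

set_option linter.unusedSectionVars false

open Polynomial IntermediateField Module MulAction

namespace Pool.Agent.Lib.MP_e06174_ag

open Place

section general

variable {k K G : Type*} [Field k] [Field K] [Algebra k K] [Group G] [MulSemiringAction G K]
  [SMulCommClass G k K] {w : Place k K}

lemma Place.At.pow {y : K} {a : k} (h : w.At y a) (n : ℕ) : w.At (y ^ n) (a ^ n) := by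
  induction n with
  | zero => simpa using w.at_const 1
  | succ n ih => rw [pow_succ, pow_succ]; exact ih.mul h

lemma Place.At.ord_eq_zero {y : K} {a : k} (h : w.At y a) (ha : a ≠ 0) : y ≠ 0 ∧ w.ord y = 0 :=
  ord_eq_zero_of_ge_sub_const ha h

lemma Place.at_ratio {g : G} (hg : g ∈ w.inertia G) {u : K} (hu : u ≠ 0) (h0 : w.ord u = 0) :
    w.At (g • u / u) 1 := by
  have h1 := ((mem_inertia.1 hg).2 u (ge_of_le h0.ge)).mul' (ge_ord u⁻¹) (l := 1) (by simp [h0])
  have h2 : g • u / u - algebraMap k K 1 = (g • u - u) * u⁻¹ := by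
    rw [map_one]; field_simp
  unfold At
  rwa [h2]

lemma Place.At.of_ord_eq {g : G} (hg : g ∈ w.inertia G) {y y' : K} {θ : k}
    (h : w.At (g • y / y) θ) (hy : y ≠ 0) (hy' : y' ≠ 0) (ho : w.ord y = w.ord y') :
    w.At (g • y' / y') θ := by
  have h1 := h.mul (at_ratio hg (div_ne_zero hy' hy) (by rw [w.ord_div hy' hy, ho, sub_self]))
  have h2 : g • y ≠ 0 := (smul_ne_zero_iff_ne g).2 hy
  rw [mul_one, smul_div₀'] at h1
  convert h1 using 1
  field_simp

lemma Place.smul_at (g : G) (y : K) (a : k) : (g • w).At y a ↔ w.At (g⁻¹ • y) a := by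
  unfold At
  rw [smul_ge, smul_sub, smul_const]

/-- A chosen uniformizer. -/
noncomputable def Place.unif (w : Place k K) : K := w.exists_ord_eq_one.choose

lemma Place.unif_ne_zero (w : Place k K) : w.unif ≠ 0 := w.exists_ord_eq_one.choose_spec.1

@[simp] lemma Place.ord_unif (w : Place k K) : w.ord w.unif = 1 :=
  w.exists_ord_eq_one.choose_spec.2

/-- The cotangent character. -/
noncomputable def Place.chi (w : Place k K) (g : G) : k := w.cen (g • w.unif / w.unif)

end general

variable {k F G : Type*} [Field k] [Field F] [Algebra k F] [CharZero k] [IsAlgClosed k]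
  [Group G] [Finite G] [MulSemiringAction G F] [SMulCommClass G k F] {x : F} {p : Place k F}

lemma IsCoord.mem_inertia (h : IsCoord k x) {g : G} (hg : g ∈ stabilizer G p) :
    g ∈ p.inertia G := by
  refine Place.mem_inertia.2 ⟨hg, fun y hy => ?_⟩
  have h1 := h.at_cen hy
  have h2 := ((ge_smul_of_mem hg).2 h1).sub h1
  rwa [smul_sub, smul_const, sub_sub_sub_cancel_right] at h2

lemma IsCoord.inertia_eq (h : IsCoord k x) (p : Place k F) : p.inertia G = stabilizer G p :=
  le_antisymm (fun _ hg => (Place.mem_inertia.1 hg).1) fun _ hg => h.mem_inertia hg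

lemma IsCoord.card_stabilizer [FaithfulSMul G F] (h : IsCoord k x) {q : Place k (Fix k F G)}
    (hp : p.Over (Fix k F G).val q q.ram) : Nat.card (stabilizer G p) = q.ram := by
  rw [← h.inertia_eq, card_inertia hp]

lemma IsCoord.at_chi (h : IsCoord k x) {g : G} (hg : g ∈ stabilizer G p) {y : F} (hy : y ≠ 0)
    (h1 : p.ord y = 1) : p.At (g • y / y) (p.chi g) := by
  have h2 : p.At (g • p.unif / p.unif) (p.chi g) := h.at_cen (ge_of_le (by
    rw [p.ord_div ((smul_ne_zero_iff_ne g).2 p.unif_ne_zero) p.unif_ne_zero, ord_smul_of_mem hg,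
      sub_self]))
  exact h2.of_ord_eq (h.mem_inertia hg) p.unif_ne_zero hy (by rw [h1, ord_unif])

lemma IsCoord.chi_one (h : IsCoord k x) (p : Place k F) : p.chi (1 : G) = 1 := by
  refine (h.at_chi (one_mem _) p.unif_ne_zero p.ord_unif).unique ?_
  rw [one_smul, div_self p.unif_ne_zero]
  simpa using p.at_const 1

lemma IsCoord.chi_mul (h : IsCoord k x) {g g' : G} (hg : g ∈ stabilizer G p)
    (hg' : g' ∈ stabilizer G p) : p.chi (g * g') = p.chi g * p.chi g' := by
  have h0 : g' • p.unif ≠ 0 := (smul_ne_zero_iff_ne g').2 p.unif_ne_zero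
  refine (h.at_chi (mul_mem hg hg') p.unif_ne_zero p.ord_unif).unique ?_
  have := (h.at_chi hg h0 (by rw [ord_smul_of_mem hg', ord_unif])).mul
    (h.at_chi hg' p.unif_ne_zero p.ord_unif)
  convert this using 1
  rw [mul_smul]
  field_simp

variable (G) in
/-- The cotangent character as a homomorphism. -/
noncomputable def IsCoord.chiHom (h : IsCoord k x) (p : Place k F) : stabilizer G p →* k where
  toFun g := p.chi (g : G)
  map_one' := h.chi_one p
  map_mul' g g' := h.chi_mul g.2 g'.2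

lemma IsCoord.chi_pow (h : IsCoord k x) {g : G} (hg : g ∈ stabilizer G p) (n : ℕ) :
    p.chi (g ^ n) = p.chi g ^ n :=
  map_pow (h.chiHom G p) ⟨g, hg⟩ n

lemma IsCoord.chi_ne_zero (h : IsCoord k x) {g : G} (hg : g ∈ stabilizer G p) : p.chi g ≠ 0 :=
  ((Group.isUnit (⟨g, hg⟩ : stabilizer G p)).map (h.chiHom G p)).ne_zero

lemma IsCoord.chi_smul (h : IsCoord k x) {g a : G} (ha : a ∈ stabilizer G (g • p)) :
    g⁻¹ * a * g ∈ stabilizer G p ∧ (g • p).chi a = p.chi (g⁻¹ * a * g) := by
  have h1 : g⁻¹ * a * g ∈ stabilizer G p := by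
    rw [mem_stabilizer_iff] at ha ⊢
    rw [mul_smul, mul_smul, ha, inv_smul_smul]
  refine ⟨h1, ?_⟩
  have h2 := h.at_chi ha ((smul_ne_zero_iff_ne g).2 p.unif_ne_zero) (by simp)
  rw [smul_at, smul_div₀', inv_smul_smul, ← mul_smul, ← mul_smul] at h2
  exact h2.unique (h.at_chi h1 p.unif_ne_zero p.ord_unif)

lemma IsCoord.eq_one_of_fix [FaithfulSMul G F] (h : IsCoord k x) {g : G}
    {y : F} (hy : y ≠ 0) (h1 : p.ord y = 1) (hgy : g • y = y) (hg : g ∈ stabilizer G p) :
    g = 1 := by
  have key : ∀ (n : ℕ) (z : F), p.Ge 0 z → p.Ge n (g • z - z) := by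
    intro n
    induction n with
    | zero => exact fun z hz => ((ge_smul_of_mem hg).2 hz).sub hz
    | succ n ih =>
      intro z hz
      have h2 : p.Ge 0 ((z - algebraMap k F (p.cen z)) / y) := by
        rw [div_eq_mul_inv]
        exact Ge.mul' (h.at_cen hz) (ge_ord _) (by simp [h1])
      have h3 := (ih _ h2).mul' (ge_ord y) (l := (n + 1 : ℕ)) (by simp [h1])
      convert h3 using 1
      rw [smul_div₀', hgy, smul_sub, smul_const]
      field_simp
      ring
  have key2 : ∀ z : F, p.Ge 0 z → g • z = z := fun z hz => by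
    by_contra h2
    have := (key ((p.ord (g • z - z)).toNat + 1) z hz).le (sub_ne_zero.2 h2)
    omega
  refine (faithfulSMul_iff.1 ‹_›) g fun z => ?_
  by_cases hz : p.Ge 0 z
  · exact key2 z hz
  · have h2 := key2 z⁻¹ (ge_of_le (by have := (not_ge_iff.1 hz).2; simp; omega))
    rwa [smul_inv'', inv_inj] at h2

lemma IsCoord.eq_one_of_chi [FaithfulSMul G F] (h : IsCoord k x) {g : G}
    (hg : g ∈ stabilizer G p) (h1 : p.chi g = 1) : g = 1 := by
  have hn : 0 < orderOf g := orderOf_pos g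
  have h2 : ∀ i : ℕ, p.Ge 2 (g ^ i • p.unif - p.unif) := fun i => by
    have h3 := h.at_chi (pow_mem hg i) p.unif_ne_zero p.ord_unif
    rw [h.chi_pow hg, h1, one_pow] at h3
    have h4 := Ge.mul' h3 (ge_ord p.unif) (l := 2) (by simp)
    convert h4 using 1
    rw [map_one]
    field_simp [p.unif_ne_zero]
  have h3 : p.Ge 2 (∑ i ∈ Finset.range (orderOf g), g ^ i • p.unif -
      ((orderOf g : k) • p.unif)) := by
    have := Ge.sum (s := Finset.range (orderOf g)) fun i _ => h2 i
    rwa [Finset.sum_sub_distrib, Finset.sum_const, Finset.card_range,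
      ← Nat.cast_smul_eq_nsmul k] at this
  have hc : (orderOf g : k) ≠ 0 := Nat.cast_ne_zero.2 hn.ne'
  have h4 := ord_eq_of_ge_sub (p := p) (smul_ne_zero hc p.unif_ne_zero)
    (y := ∑ i ∈ Finset.range (orderOf g), g ^ i • p.unif) (by rwa [p.ord_smul hc, ord_unif])
  rw [p.ord_smul hc, ord_unif] at h4
  refine h.eq_one_of_fix h4.1 h4.2 ?_ hg
  have h5 := Finset.sum_range_succ (fun i => g ^ i • p.unif) (orderOf g)
  rw [Finset.sum_range_succ', pow_orderOf_eq_one, pow_zero] at h5
  rw [Finset.smul_sum, ← add_right_cancel h5]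
  exact Finset.sum_congr rfl fun i _ => by rw [pow_succ', mul_smul]

lemma IsCoord.chiHom_injective [FaithfulSMul G F] (h : IsCoord k x) (p : Place k F) :
    Function.Injective (h.chiHom G p) :=
  (injective_iff_map_eq_one _).2 fun g hg => Subtype.ext (h.eq_one_of_chi g.2 hg)

lemma IsCoord.eq_of_chi [FaithfulSMul G F] (h : IsCoord k x) {a b : G} (ha : a ∈ stabilizer G p)
    (hb : b ∈ stabilizer G p) (hab : p.chi a = p.chi b) : a = b :=
  congrArg Subtype.val (h.chiHom_injective p (a₁ := ⟨a, ha⟩) (a₂ := ⟨b, hb⟩) hab)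

lemma IsCoord.isCyclic [FaithfulSMul G F] (h : IsCoord k x) (p : Place k F) :
    IsCyclic (stabilizer G p) :=
  isCyclic_of_injective_ringHom _ (h.chiHom_injective p)

lemma IsCoord.comm [FaithfulSMul G F] (h : IsCoord k x) {a b : G} (ha : a ∈ stabilizer G p)
    (hb : b ∈ stabilizer G p) : a * b = b * a :=
  h.eq_of_chi (mul_mem ha hb) (mul_mem hb ha) (by rw [h.chi_mul ha hb, h.chi_mul hb ha, mul_comm])

/-- The branch locus is finite. -/
lemma IsCoord.finite_branch [FaithfulSMul G F] {x : Fix k F G} (h : IsCoord k (x : F)) :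
    {q : Place k (Fix k F G) | q.ram ≠ 1}.Finite := by
  have h1 : ∀ g : {g : G // g ≠ 1}, ∃ y : F, (g : G) • y ≠ y := fun g => by
    by_contra h2
    push Not at h2
    exact g.2 ((faithfulSMul_iff.1 ‹FaithfulSMul G F›) g.1 h2)
  choose y hy using h1
  choose u hu using h.exists_under
  refine ((Set.finite_iUnion fun g => (h.finite_poles (y g)).union
    (h.finite_poles ((g : G) • y g - y g)⁻¹)).image u).subset fun q hq => ?_
  obtain ⟨p, hp⟩ := q.exists_over_ram
  have h2 : 1 < Nat.card (stabilizer G p) := by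
    have := q.one_le_ram
    have h3 : q.ram ≠ 1 := hq
    rw [h.card_stabilizer hp]; omega
  obtain ⟨g, hg⟩ := (Subgroup.ne_bot_iff_exists_ne_one).1
    ((Subgroup.one_lt_card_iff_ne_bot _).1 h2)
  let g' : {g : G // g ≠ 1} := ⟨g, fun h => hg (Subtype.ext h)⟩
  refine ⟨p, Set.mem_iUnion.2 ⟨g', ?_⟩, ((hu p).unique hp).1⟩
  by_cases h3 : p.Ge 0 (y g')
  · have := ((Place.mem_inertia.1 (h.mem_inertia g.2)).2 _ h3).le (sub_ne_zero.2 (hy g'))
    refine Or.inr ?_
    simp only [Set.mem_ofPred_eq, ord_inv]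
    change 1 ≤ p.ord ((g' : G) • y g' - y g') at this
    omega
  · exact Or.inl (not_ge_iff.1 h3).2

end Pool.Agent.Lib.MP_e06174_ag
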