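import Pool.Agent.Lib.MP_e06174_ag.Ruled

/-! The quotient of the fifth power of the curve `Y² = X³ - 27` by the group of order six is
uniruled: it is dominated by a family of diagonal cubic threefolds over a surface. -/

set_option linter.unusedSectionVars false

open IntermediateField Polynomial

namespace Pool.Agent.Lib.MP_e06174_ag

variable {k Ω : Type*} [Field k] [Field Ω] [Algebra k Ω] [IsAlgClosed Ω] [CharZero Ω]

lemma isAlgebraic_of_pow_mem {M : IntermediateField k Ω} {s : Ω} {n : ℕ} (hn : 0 < n)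
    (h : s ^ n ∈ M) : IsAlgebraic M s :=
  IsAlgebraic.of_pow hn (isAlgebraic_algebraMap (⟨_, h⟩ : M))

lemma conic_aux (M : IntermediateField k Ω) {α β C a b : Ω} (hα : α ∈ M) (hβ : β ∈ M)
    (hC : C ∈ M) (h : α * a ^ 2 + β * b ^ 2 = C) (h0 : α ≠ 0) :
    ∃ s t : Ω, IsAlgebraic M s ∧ ∀ E : IntermediateField k Ω, M ≤ E → s ∈ E → t ∈ E →
      a ∈ E ∧ b ∈ E := by
  obtain ⟨ρ, hρ⟩ := IsAlgClosed.exists_pow_nat_eq (-β / α) two_pos
  have hβ' : β = -α * ρ ^ 2 := by rw [hρ]; field_simp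
  by_cases h1 : ρ = 0
  · refine ⟨a, b, isAlgebraic_of_pow_mem two_pos ?_, fun E _ h2 h3 => ⟨h2, h3⟩⟩
    have : a ^ 2 = C / α := by rw [← h, hβ', h1]; field_simp; ring
    rw [this]
    exact div_mem hC hα
  have key : ∀ E : IntermediateField k Ω, ρ ∈ E → a + ρ * b ∈ E → a - ρ * b ∈ E →
      a ∈ E ∧ b ∈ E := fun E h2 h3 h4 => by
    have h5 : (2 : Ω) ∈ E := ofNat_mem E 2
    constructor
    · convert div_mem (add_mem h3 h4) h5 using 1; ring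
    · convert div_mem (sub_mem h3 h4) (mul_mem h5 h2) using 1; field_simp; ring
  have h2 : IsAlgebraic M ρ := isAlgebraic_of_pow_mem two_pos (hρ ▸ div_mem (neg_mem hβ) hα)
  by_cases h3 : a + ρ * b = 0
  · exact ⟨ρ, a - ρ * b, h2, fun E _ h4 h5 => key E h4 (h3 ▸ zero_mem E) h5⟩
  · refine ⟨ρ, a + ρ * b, h2, fun E h4 h5 h6 => key E h5 h6 ?_⟩
    convert div_mem (h4 hC) (mul_mem (h4 hα) h6) using 1
    rw [← h, hβ']
    field_simp
    ring

lemma conic (M : IntermediateField k Ω) {α β C a b : Ω} (hα : α ∈ M) (hβ : β ∈ M)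
    (hC : C ∈ M) (h : α * a ^ 2 + β * b ^ 2 = C) (h0 : α ≠ 0 ∨ β ≠ 0) :
    ∃ s t : Ω, IsAlgebraic M s ∧ ∀ E : IntermediateField k Ω, M ≤ E → s ∈ E → t ∈ E →
      a ∈ E ∧ b ∈ E := by
  rcases h0 with h0 | h0
  · exact conic_aux M hα hβ hC h h0
  · obtain ⟨s, t, h1, h2⟩ := conic_aux M hβ hα hC ((add_comm _ _).trans h) h0
    exact ⟨s, t, h1, fun E h3 h4 h5 => (h2 E h3 h4 h5).symm⟩

lemma exists_isogeny_lift {X Y : Ω} (h : Y ^ 2 = X ^ 3 - 27) :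
    ∃ σ ω : Ω, ω ≠ 0 ∧ ω ^ 3 = σ ^ 2 - 1 ∧ X * ω ^ 2 = σ ^ 2 + 3 ∧ Y * ω ^ 3 = σ ^ 3 - 9 * σ := by
  obtain ⟨ω, hω⟩ := IsAlgClosed.exists_root
    (Polynomial.X ^ 3 - C X * Polynomial.X ^ 2 + C 4 : Polynomial Ω) (by
      rw [show (Polynomial.X ^ 3 - C X * Polynomial.X ^ 2 + C 4 : Polynomial Ω).degree = 3 by
        compute_degree!]
      decide)
  simp only [IsRoot.def, eval_add, eval_sub, eval_mul, eval_pow, eval_X, eval_C] at hω
  have h0 : ω ≠ 0 := by rintro rfl; norm_num at hω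
  obtain ⟨σ, hσ⟩ := IsAlgClosed.exists_pow_nat_eq (ω ^ 3 + 1) two_pos
  have h1 : X * ω ^ 2 = σ ^ 2 + 3 := by linear_combination -hω - hσ
  have h2 : (Y * ω ^ 3) ^ 2 = (σ ^ 3 - 9 * σ) ^ 2 := by
    have h3 : ω ^ 3 = σ ^ 2 - 1 := by linear_combination -hσ
    calc (Y * ω ^ 3) ^ 2 = (X * ω ^ 2) ^ 3 - 27 * (ω ^ 3) ^ 2 := by linear_combination ω ^ 6 * h
      _ = _ := by rw [h1, h3]; ring
  rcases sq_eq_sq_iff_eq_or_eq_neg.1 h2 with h3 | h3
  · exact ⟨σ, ω, h0, by linear_combination -hσ, h1, h3⟩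
  · exact ⟨-σ, ω, h0, by linear_combination -hσ, by linear_combination h1,
      by linear_combination h3⟩

lemma exists_normalization (σ : Fin 5 → Ω) (hσ : Function.Injective σ) :
    ∃ (a b c d A B : Ω) (τ : Fin 5 → Ω), a * d - b * c ≠ 0 ∧ (∀ i, τ i ≠ 0) ∧
      ∀ i, τ i * σ i = ![1, 0, 1, A, B] i * a + ![0, 1, 1, 1, 1] i * c ∧
        τ i = ![1, 0, 1, A, B] i * b + ![0, 1, 1, 1, 1] i * d := by
  have h : ∀ i j, i ≠ j → σ i - σ j ≠ 0 := fun i j hij => sub_ne_zero.2 (hσ.ne hij)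
  have h01 := h 0 1 (by decide)
  have h10 := h 1 0 (by decide)
  have h21 := h 2 1 (by decide)
  have h02 := h 0 2 (by decide)
  have h30 := h 3 0 (by decide)
  have h40 := h 4 0 (by decide)
  refine ⟨(σ 2 - σ 1) * σ 0, σ 2 - σ 1, (σ 0 - σ 2) * σ 1, σ 0 - σ 2,
    (σ 0 - σ 2) * (σ 1 - σ 3) / ((σ 2 - σ 1) * (σ 3 - σ 0)),
    (σ 0 - σ 2) * (σ 1 - σ 4) / ((σ 2 - σ 1) * (σ 4 - σ 0)),
    ![σ 2 - σ 1, σ 0 - σ 2, σ 0 - σ 1, (σ 0 - σ 2) * (σ 1 - σ 0) / (σ 3 - σ 0),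
      (σ 0 - σ 2) * (σ 1 - σ 0) / (σ 4 - σ 0)], ?_, fun i => ?_, fun i => ?_⟩
  · convert mul_ne_zero (mul_ne_zero h21 h02) h01 using 1; ring
  · fin_cases i <;> simp [*]
  · fin_cases i <;> constructor <;> simp <;> field_simp <;> ring

/-- The Hessian of a binary cubic. -/
def hess {R : Type*} [CommRing R] (p q r s x y : R) : R :=
  (q ^ 2 - 3 * p * r) * x ^ 2 + (q * r - 9 * p * s) * x * y + (r ^ 2 - 3 * q * s) * y ^ 2

/-- The cubic covariant of a binary cubic. -/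
def cov {R : Type*} [CommRing R] (p q r s x y : R) : R :=
  (2 * q ^ 3 - 9 * p * q * r + 27 * p ^ 2 * s) * x ^ 3 +
    3 * (q ^ 2 * r - 6 * p * r ^ 2 + 9 * p * q * s) * x ^ 2 * y -
    3 * (q * r ^ 2 - 6 * q ^ 2 * s + 9 * p * r * s) * x * y ^ 2 -
    (2 * r ^ 3 - 9 * q * r * s + 27 * p * s ^ 2) * y ^ 3

lemma exists_cubic {R : Type*} [CommRing R] (a b c d : R) : ∃ p q r s : R, ∀ x y u v : R,
    u = x * a + y * c → v = x * b + y * d →
      v * (u ^ 2 - v ^ 2) = p * x ^ 3 + q * x ^ 2 * y + r * x * y ^ 2 + s * y ^ 3 ∧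
      hess p q r s x y = (a * d - b * c) ^ 2 * (u ^ 2 + 3 * v ^ 2) ∧
      cov p q r s x y = 2 * (a * d - b * c) ^ 3 * (u ^ 3 - 9 * u * v ^ 2) := by
  refine ⟨b * (a ^ 2 - b ^ 2), d * (a ^ 2 - b ^ 2) + 2 * b * (a * c - b * d),
    b * (c ^ 2 - d ^ 2) + 2 * d * (a * c - b * d), d * (c ^ 2 - d ^ 2), ?_⟩
  rintro x y _ _ rfl rfl
  refine ⟨by ring, by rw [hess]; ring, by rw [cov]; ring⟩

theorem exists_pencil (X Y : Fin 5 → Ω) (hXY : ∀ i, Y i ^ 2 = X i ^ 3 - 27)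
    (hX : ∀ i j, i ≠ j → X i ^ 3 ≠ X j ^ 3) :
    ∃ (y : Fin 4 → Ω) (s : Set Ω) (t μ : Ω), s.Finite ∧
      (∀ a ∈ s, IsAlgebraic (adjoin k (Set.range y)) a) ∧ μ ≠ 0 ∧
      ∀ i, X i * μ ^ 2 ∈ adjoin k (Set.range y ∪ s ∪ {t}) ∧
        Y i * μ ^ 3 ∈ adjoin k (Set.range y ∪ s ∪ {t}) := by
  choose σ ω h0 h1 h2 h3 using fun i => exists_isogeny_lift (hXY i)
  have hσ : Function.Injective σ := fun i j hij => by_contra fun h4 => hX i j h4 (by
    have h5 : ω i ^ 3 = ω j ^ 3 := by rw [h1, h1, hij]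
    have h6 : (X i * ω i ^ 2) ^ 3 = (X j * ω j ^ 2) ^ 3 := by rw [h2, h2, hij]
    apply mul_right_cancel₀ (pow_ne_zero 6 (h0 i))
    linear_combination h6 - X j ^ 3 * (ω i ^ 3 + ω j ^ 3) * h5)
  obtain ⟨a, b, c, d, A, B, τ, hD, hτ, hn⟩ := exists_normalization σ hσ
  have hne : ∀ i j, i ≠ j → ![0, 1, 1, 1, 1] i = (![0, 1, 1, 1, 1] j : Ω) →
      ![1, 0, 1, A, B] i ≠ ![1, 0, 1, A, B] j := fun i j hij h4 h5 => hij (hσ (by
    have h6 : τ i = τ j := by rw [(hn i).2, (hn j).2, h4, h5]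
    apply mul_left_cancel₀ (hτ i)
    rw [(hn i).1, h6, (hn j).1, h4, h5]))
  have hA0 : A ≠ 0 := hne 3 1 (by decide) rfl
  have hA1 : A - 1 ≠ 0 := sub_ne_zero.2 (hne 3 2 (by decide) rfl)
  have hB0 : B ≠ 0 := hne 4 1 (by decide) rfl
  have hB1 : B - 1 ≠ 0 := sub_ne_zero.2 (hne 4 2 (by decide) rfl)
  have hAB : B - A ≠ 0 := sub_ne_zero.2 (hne 4 3 (by decide) rfl)
  obtain ⟨p, q, r, s, hc⟩ := exists_cubic a b c d
  have hc' := fun i => hc _ _ _ _ (hn i).1 (hn i).2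
  have hw : τ 4 * ω 4 ≠ 0 := mul_ne_zero (hτ 4) (h0 4)
  set w := τ 4 * ω 4 with hwd
  let u : Fin 5 → Ω := fun i => τ i * ω i / w
  have hu0 : ∀ i, u i ≠ 0 := fun i => div_ne_zero (mul_ne_zero (hτ i) (h0 i)) hw
  have hu4 : u 4 = 1 := div_self hw
  have hu : ∀ i, u i ^ 3 = p / w ^ 3 * ![1, 0, 1, A, B] i ^ 3 +
      q / w ^ 3 * ![1, 0, 1, A, B] i ^ 2 * ![0, 1, 1, 1, 1] i +
      r / w ^ 3 * ![1, 0, 1, A, B] i * ![0, 1, 1, 1, 1] i ^ 2 +
      s / w ^ 3 * ![0, 1, 1, 1, 1] i ^ 3 := fun i => by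
    have h4 := (hc' i).1
    simp only [u]
    field_simp
    linear_combination h4 + τ i ^ 3 * h1 i
  have hXu : ∀ i, X i * ((a * d - b * c) / w ^ 2) ^ 2 = hess (p / w ^ 3) (q / w ^ 3) (r / w ^ 3)
      (s / w ^ 3) (![1, 0, 1, A, B] i) (![0, 1, 1, 1, 1] i) / u i ^ 2 := fun i => by
    have h4 := (hc' i).2.1
    have := hτ i
    have := h0 i
    simp only [u, hess] at h4 ⊢
    field_simp
    linear_combination -h4 + (a * d - b * c) ^ 2 * τ i ^ 2 * h2 i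
  have hYu : ∀ i, Y i * ((a * d - b * c) / w ^ 2) ^ 3 = cov (p / w ^ 3) (q / w ^ 3) (r / w ^ 3)
      (s / w ^ 3) (![1, 0, 1, A, B] i) (![0, 1, 1, 1, 1] i) / (2 * u i ^ 3) := fun i => by
    have h4 := (hc' i).2.2
    have := hτ i
    have := h0 i
    simp only [u, cov] at h4 ⊢
    field_simp
    linear_combination -h4 + 2 * (a * d - b * c) ^ 3 * τ i ^ 3 * h3 i
  generalize p / w ^ 3 = p', q / w ^ 3 = q', r / w ^ 3 = r', s / w ^ 3 = s' at hu hXu hYu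
  have e0 : u 0 ^ 3 = p' := by simpa using hu 0
  have e1 : u 1 ^ 3 = s' := by simpa using hu 1
  have e2 : u 2 ^ 3 = p' + q' + r' + s' := by simpa using hu 2
  have e3 : u 3 ^ 3 = p' * A ^ 3 + q' * A ^ 2 + r' * A + s' := by simpa using hu 3
  have e4 : 1 = p' * B ^ 3 + q' * B ^ 2 + r' * B + s' := by simpa [hu4] using hu 4
  let co : Fin 4 → Ω := ![A * B * (A - 1) * (B - 1) * (B - A), (A - 1) * (B - 1) * (B - A),
    -(A * B * (B - A)), B * (B - 1)]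
  choose ρ hρ using fun i => IsAlgClosed.exists_pow_nat_eq (co i) three_pos
  have hρ0 : ∀ i, ρ i ≠ 0 := fun i h4 => by
    have h5 := hρ i
    rw [h4] at h5
    fin_cases i <;> simp [co, hA0, hA1, hB0, hB1, hAB] at h5
  let y : Fin 4 → Ω := ![A, B, ρ 0 * u 0 + ρ 1 * u 1, ρ 2 * u 2 + ρ 3 * u 3]
  have hy : ∀ i, y i ∈ adjoin k (Set.range y) := fun i => subset_adjoin _ _ ⟨i, rfl⟩
  have hA : A ∈ adjoin k (Set.range y) := hy 0
  have hB : B ∈ adjoin k (Set.range y) := hy 1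
  have hrel : (ρ 0 * u 0) ^ 3 + (ρ 1 * u 1) ^ 3 + (ρ 2 * u 2) ^ 3 + (ρ 3 * u 3) ^ 3 =
      A * (A - 1) := by
    simp only [mul_pow, hρ, e0, e1, e2, e3, co, Matrix.cons_val]
    linear_combination -A * (A - 1) * e4
  obtain ⟨s₀, t, hs₀, ht⟩ := conic (adjoin k (Set.range y)) (hy 2) (hy 3)
    (a := ρ 0 * u 0 - ρ 1 * u 1) (b := ρ 2 * u 2 - ρ 3 * u 3)
    (C := (4 * (A * (A - 1)) - y 2 ^ 3 - y 3 ^ 3) / 3)
    (div_mem (sub_mem (sub_mem (mul_mem (ofNat_mem _ 4) (mul_mem hA (sub_mem hA (one_mem _))))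
      (pow_mem (hy 2) 3)) (pow_mem (hy 3) 3)) (ofNat_mem _ 3))
    (by simp only [y, Matrix.cons_val]; linear_combination 4 / 3 * hrel) (by
      by_contra h4
      push Not at h4
      simp only [y, Matrix.cons_val] at h4
      refine mul_ne_zero hA0 hA1 ?_
      rw [← hrel, eq_neg_of_add_eq_zero_left h4.1, eq_neg_of_add_eq_zero_left h4.2]
      ring)
  refine ⟨y, insert s₀ (Set.range ρ), t, (a * d - b * c) / w ^ 2,
    (Set.finite_range ρ).insert _, ?_, div_ne_zero hD (pow_ne_zero _ hw), fun i => ?_⟩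
  · rintro _ (rfl | ⟨i, rfl⟩)
    · exact hs₀
    · refine isAlgebraic_of_pow_mem three_pos ?_
      rw [hρ]
      have h4 := sub_mem hA (one_mem _)
      have h5 := sub_mem hB (one_mem _)
      have h6 := sub_mem hB hA
      fin_cases i
      exacts [mul_mem (mul_mem (mul_mem (mul_mem hA hB) h4) h5) h6, mul_mem (mul_mem h4 h5) h6,
        neg_mem (mul_mem (mul_mem hA hB) h6), mul_mem hB h5]
  set E := adjoin k (Set.range y ∪ insert s₀ (Set.range ρ) ∪ {t})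
  have hle : adjoin k (Set.range y) ≤ E :=
    adjoin.mono _ _ _ (Set.subset_union_left.trans Set.subset_union_left)
  have hρE : ∀ i, ρ i ∈ E := fun i => subset_adjoin _ _ (Or.inl (Or.inr (Or.inr ⟨i, rfl⟩)))
  obtain ⟨h4, h5⟩ := ht E hle (subset_adjoin _ _ (Or.inl (Or.inr (Or.inl rfl))))
    (subset_adjoin _ _ (Or.inr rfl))
  have h6 : ρ 0 * u 0 + ρ 1 * u 1 ∈ E := hle (hy 2)
  have h7 : ρ 2 * u 2 + ρ 3 * u 3 ∈ E := hle (hy 3)
  have h8 : (2 : Ω) ∈ E := ofNat_mem E 2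
  have huE : ∀ i, u i ∈ E := by
    have := hρ0 0
    have := hρ0 1
    have := hρ0 2
    have := hρ0 3
    have g0 : u 0 ∈ E := by
      convert div_mem (add_mem h6 h4) (mul_mem h8 (hρE 0)) using 1; field_simp; ring
    have g1 : u 1 ∈ E := by
      convert div_mem (sub_mem h6 h4) (mul_mem h8 (hρE 1)) using 1; field_simp; ring
    have g2 : u 2 ∈ E := by
      convert div_mem (add_mem h7 h5) (mul_mem h8 (hρE 2)) using 1; field_simp; ring
    have g3 : u 3 ∈ E := by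
      convert div_mem (sub_mem h7 h5) (mul_mem h8 (hρE 3)) using 1; field_simp; ring
    have g4 : u 4 ∈ E := hu4 ▸ one_mem E
    intro i
    fin_cases i
    exacts [g0, g1, g2, g3, g4]
  have hAE := hle hA
  have hBE := hle hB
  have hp : p' ∈ E := e0 ▸ pow_mem (huE 0) 3
  have hs : s' ∈ E := e1 ▸ pow_mem (huE 1) 3
  have hq : q' ∈ E := by
    have h9 : q' = (u 3 ^ 3 - p' * A ^ 3 - s' - A * (u 2 ^ 3 - p' - s')) / (A * (A - 1)) := by
      rw [e2, e3]; field_simp; ring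
    rw [h9]
    exact div_mem (sub_mem (sub_mem (sub_mem (pow_mem (huE 3) 3) (mul_mem hp (pow_mem hAE 3))) hs)
      (mul_mem hAE (sub_mem (sub_mem (pow_mem (huE 2) 3) hp) hs)))
      (mul_mem hAE (sub_mem hAE (one_mem _)))
  have hr : r' ∈ E := by
    have h9 : r' = u 2 ^ 3 - p' - q' - s' := by rw [e2]; ring
    rw [h9]
    exact sub_mem (sub_mem (sub_mem (pow_mem (huE 2) 3) hp) hq) hs
  have hx : ![1, 0, 1, A, B] i ∈ E := by fin_cases i <;> simp [hAE, hBE]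
  have hy' : ![0, 1, 1, 1, 1] i ∈ E := by fin_cases i <;> simp
  have hui := huE i
  rw [hXu, hYu, hess, cov]
  constructor <;> repeat first
    | assumption | exact ofNat_mem E _ | apply div_mem | apply add_mem | apply sub_mem
    | apply mul_mem | apply pow_mem

theorem uniruled_of_weierstrass {L K : Type} [Field L] [Field K] [Algebra ℂ L] [Algebra ℂ K]
    (φ : L →ₐ[ℂ] K) (hL : Algebra.trdeg ℂ L = (5 : ℕ)) (X Y : Fin 5 → K)
    (hXY : ∀ i, Y i ^ 2 = X i ^ 3 - 27) (hX : AlgebraicIndependent ℂ X)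
    (h : ∀ a, φ a ∈ adjoin ℂ (Set.range (fun i => X i * (X 0 / Y 0) ^ 2) ∪
      Set.range fun i => Y i * (X 0 / Y 0) ^ 3)) : Uniruled ℂ L := by
  let ψ := IsScalarTower.toAlgHom ℂ K (AlgebraicClosure K)
  have : CharZero (AlgebraicClosure K) := charZero_of_injective_algebraMap
    (algebraMap ℂ (AlgebraicClosure K)).injective
  obtain ⟨y, s, t, μ, h1, h2, h3, h4⟩ := exists_pencil (k := ℂ) (fun i => ψ (X i))
    (fun i => ψ (Y i)) (fun i => by rw [← map_pow, hXY, map_sub, map_pow, map_ofNat])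
    fun i j hij h1 => by
      have h2 : X i ^ 3 = X j ^ 3 := ψ.injective (by rwa [map_pow, map_pow])
      have h3 := hX.eq_zero_of_aeval_eq_zero (MvPolynomial.X i ^ 3 - MvPolynomial.X j ^ 3)
        (by simp [h2])
      simpa [hij.symm] using congrArg (MvPolynomial.eval (Pi.single i 1)) h3
  refine uniruled_of_adjoin (ψ.comp φ) hL y s h1 h2 t fun a => ?_
  have h5 : ψ (X 0 / Y 0) = μ * (ψ (X 0) * μ ^ 2 / (ψ (Y 0) * μ ^ 3)) := by
    rw [map_div₀]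
    by_cases h5 : ψ (Y 0) = 0
    · simp [h5]
    · field_simp
  refine (adjoin_le_iff (T := comap ψ (adjoin ℂ (Set.range y ∪ s ∪ {t}))).2 ?_) (h a)
  rintro _ (⟨i, rfl⟩ | ⟨i, rfl⟩)
  · change ψ (X i * (X 0 / Y 0) ^ 2) ∈ adjoin ℂ (Set.range y ∪ s ∪ {t})
    rw [map_mul, map_pow, h5, mul_pow, ← mul_assoc]
    exact mul_mem (h4 i).1 (pow_mem (div_mem (h4 0).1 (h4 0).2) _)
  · change ψ (Y i * (X 0 / Y 0) ^ 3) ∈ adjoin ℂ (Set.range y ∪ s ∪ {t})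
    rw [map_mul, map_pow, h5, mul_pow, ← mul_assoc]
    exact mul_mem (h4 i).2 (pow_mem (div_mem (h4 0).1 (h4 0).2) _)

end Pool.Agent.Lib.MP_e06174_ag
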