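import Pool.Agent.Lib.MP_e06174_ag.NonEll

/-! Curves with a nowhere vanishing differential and a group action with a big fixed point. -/

set_option linter.unusedSectionVars false

open Polynomial IntermediateField Module MulAction

namespace Pool.Agent.Lib.MP_e06174_ag

open Place

section galois

variable {k F G : Type*} [Field k] [Field F] [Algebra k F] [Group G] [Finite G]
  [MulSemiringAction G F] [SMulCommClass G k F] [FaithfulSMul G F]

lemma eq_top_of_fix_le (E : IntermediateField k F) (h : Fix k F G ≤ E) {y : F} (hy : y ∈ E)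
    (h1 : ∀ g : G, g • y = y → g = 1) : E = ⊤ := by
  have h2 := IsGaloisGroup.fixedPoints_fixingSubgroup G (Fix k F G) F (extendScalars h)
  have h3 : fixingSubgroup G (extendScalars h : Set F) = ⊥ :=
    eq_bot_iff.2 fun g hg => h1 g (hg ⟨y, hy⟩)
  rw [h3, IsGaloisGroup.fixedPoints_bot] at h2
  exact top_le_iff.1 fun z _ => (h2 ▸ mem_top : z ∈ extendScalars h)

lemma fix_le_of_pow (E : IntermediateField k F) (h : E ≤ Fix k F G) {z : F}
    (hz : z ^ Nat.card G ∈ E) (h1 : E⟮z⟯ = ⊤) : Fix k F G ≤ E := by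
  have h2 : IsIntegral E z :=
    IsIntegral.of_pow Nat.card_pos (isIntegral_algebraMap (x := (⟨_, hz⟩ : E)))
  have h3 : FiniteDimensional E F := by
    have := adjoin.finiteDimensional h2
    rw [h1] at this
    exact topEquiv.toLinearEquiv.finiteDimensional
  refine (eq_of_le_of_finrank_le' h ?_).ge
  rw [finrank_fix, ← finrank_top', ← h1, adjoin.finrank h2]
  have h4 := minpoly.degree_le_of_ne_zero E z (p := X ^ Nat.card G - C ⟨_, hz⟩)
    (X_pow_sub_C_ne_zero Nat.card_pos _) (by simp)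
  rw [degree_X_pow_sub_C Nat.card_pos] at h4
  exact natDegree_le_iff_degree_le.2 h4

lemma exists_eigen (χ : G →* k) : ∃ y : F, y ≠ 0 ∧ ∀ g : G, g • y = algebraMap k F (χ g) * y := by
  have := Fintype.ofFinite G
  have h1 := (linearIndependent_monoidHom F F).comp
    (fun g : G => (MulSemiringAction.toRingHom G F g : F →* F)) fun g g' h =>
      eq_of_smul_eq_smul (M := G) (α := F) fun y => DFunLike.congr_fun h y
  obtain ⟨y, hy⟩ : ∃ y : F, ∑ g : G, algebraMap k F (χ g⁻¹) * g • y ≠ 0 := by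
    by_contra h2
    push Not at h2
    simpa using Fintype.linearIndependent_iff.1 h1 (fun g => algebraMap k F (χ g⁻¹))
      (funext fun y => by simpa using h2 y) 1
  refine ⟨_, hy, fun g => ?_⟩
  rw [Finset.smul_sum, Finset.mul_sum, ← Equiv.sum_comp (Equiv.mulLeft g⁻¹)]
  refine Finset.sum_congr rfl fun a _ => ?_
  rw [Equiv.coe_mulLeft, smul_mul', smul_const, smul_smul, mul_inv_cancel_left, ← mul_assoc,
    ← map_mul, mul_inv_rev, inv_inv, map_mul χ, mul_comm (χ g)]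

end galois

section

variable {k F G : Type*} [Field k] [Field F] [Algebra k F] [CharZero k] [IsAlgClosed k]
  [Group G] [Finite G] [MulSemiringAction G F] [SMulCommClass G k F] [FaithfulSMul G F]
  {x : Fix k F G}

lemma exists_character (h : IsCoord k (x : F)) {f : F} (hf0 : f ≠ 0)
    (hf : ∀ p : Place k F, p.ord (f * p.loc (x : F)) = 1) :
    ∃ χ : G →* k, (∀ g : G, g • f = algebraMap k F (χ g) * f) ∧
      ∀ (p : Place k F), ∀ g ∈ stabilizer G p, χ g = p.chi g := by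
  have h1 : ∀ (g : G) (p : Place k F),
      g • f / f = g • (f * p.loc (x : F)) / (f * p.loc (x : F)) := fun g p => by
    rw [smul_mul', smul_loc_eq (smul_fix _ _), mul_div_mul_right _ _ (loc_ne_zero h.trans)]
  have h0 : ∀ p : Place k F, f * p.loc (x : F) ≠ 0 := fun p =>
    mul_ne_zero hf0 (loc_ne_zero h.trans)
  choose c hc using fun g : G => h.const_of_forall_ge (y := g • f / f) fun p => ge_of_le (by
    have h2 := hf (g⁻¹ • p)
    rw [smul_loc (smul_fix _ _), ← ord_smul_eq] at h2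
    rw [h1 g p, p.ord_div ((smul_ne_zero_iff_ne g).2 (h0 p)) (h0 p), h2, hf, sub_self])
  have h2 : ∀ g, g • f = algebraMap k F (c g) * f := fun g => by
    rw [← hc, div_mul_cancel₀ _ hf0]
  have h3 : ∀ {a b : k}, algebraMap k F a * f = algebraMap k F b * f → a = b := fun h3 =>
    (algebraMap k F).injective (mul_right_cancel₀ hf0 h3)
  refine ⟨⟨⟨c, h3 (by rw [← h2]; simp)⟩, fun a b => h3 ?_⟩, h2, fun p g hg => ?_⟩
  · rw [← h2, mul_smul, h2 b, smul_mul', smul_const, h2 a, map_mul]; ring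
  · refine At.unique ?_ (h.at_chi hg (h0 p) (hf p))
    rw [← h1, hc]
    exact p.at_const _

lemma TA.exists_form (hA : TA k F G (· = 6)) (h : IsCoord k (x : F)) (hgen : k⟮x⟯ = ⊤)
    (hirr : ∀ t : F, k⟮t⟯ ≠ ⊤) : ∃ f : F, f ≠ 0 ∧
      (∀ p : Place k F, p.ord (f * p.loc (x : F)) = 1) ∧ ∀ g : G, g • f ^ 6 = f ^ 6 := by
  classical
  obtain ⟨a, b, c, ht, ha, hb, hc⟩ := hA
  obtain ⟨Φ, h0, h1, h2, h3, h4⟩ := ht.exists_form h hgen (m := 6) (na := 3) (nb := 2) (nc := 1)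
    (by omega)
  have h5 : ∀ q : Place k (Fix k F G), q ≠ a → q ≠ b → q ≠ c → 0 ≤ q.del x 6 Φ :=
    fun q h5 h6 h7 => by have := h4 q h5 h6 h7; rw [del]; omega
  have h6 : ∀ q : Place k (Fix k F G), q.ram * q.ord (Φ * q.loc x ^ 6) ≤ 6 := fun q => by
    have h6 := h.fix.sum_del_le hgen 6 h0 {a, b, c} fun q hq => by
      simp only [Finset.mem_insert, Finset.mem_singleton, not_or] at hq
      exact h5 q hq.1 hq.2.1 hq.2.2
    rw [Finset.sum_insert (by simp [ht.ab, ht.ac]), Finset.sum_pair ht.bc] at h6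
    simp only [del] at h6
    rcases ht.cases q with rfl | rfl | rfl | ⟨hqa, hqb, hqc, hq⟩
    · rw [ha]; omega
    · rw [hb]; omega
    · rw [hc]; omega
    · have h7 := h.fix.sum_del_le hgen 6 h0 {q, a, b, c} fun q hq => by
        simp only [Finset.mem_insert, Finset.mem_singleton, not_or] at hq
        exact h5 q hq.2.1 hq.2.2.1 hq.2.2.2
      rw [Finset.sum_insert (by simp [hqa, hqb, hqc]), Finset.sum_insert (by simp [ht.ab, ht.ac]),
        Finset.sum_pair ht.bc] at h7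
      simp only [del] at h7
      rw [hq]; omega
  obtain ⟨f, hf0, hf⟩ := h.exists_regular hirr
  have hΦ : (Φ : F) ≠ 0 := fun h7 => h0 (Subtype.ext h7)
  have h7 : ∀ p : Place k F, 6 * p.ord (f * p.loc (x : F)) - 6 ≤ p.ord (f ^ 6 / Φ) := fun p => by
    obtain ⟨q, hq⟩ := h.exists_under p
    have h7 := h6 q
    have hl : p.loc (x : F) ≠ 0 := loc_ne_zero h.trans
    rw [← hq.2, map_mul, map_pow, ← hq.loc_eq] at h7
    rw [← mul_div_mul_right _ _ (pow_ne_zero 6 hl), ← mul_pow,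
      p.ord_div (pow_ne_zero _ (mul_ne_zero hf0 hl)) (mul_ne_zero hΦ (pow_ne_zero _ hl)), ord_pow]
    change p.ord ((Φ : F) * p.loc (x : F) ^ 6) ≤ 6 at h7
    omega
  obtain ⟨e, he⟩ := h.const_of_forall_ge (y := f ^ 6 / Φ) fun p => ge_of_le (by
    have := h7 p; have := hf p; omega)
  refine ⟨f, hf0, fun p => ?_, fun g => ?_⟩
  · have h8 := h7 p
    have := hf p
    rw [he, ord_const] at h8
    omega
  · rw [← div_mul_cancel₀ (f ^ 6) hΦ, he, smul_mul', smul_const, smul_fix]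

end

section rational

variable {B : Type} [Field B] [Algebra ℂ B] {x : B}

lemma exists_derivation (h : IsCoord ℂ x) : ∃ δ : Derivation ℂ B B, δ x = 1 := by
  have h1 : IsTranscendenceBasis ℂ fun _ : Fin 1 => x :=
    isTranscendenceBasis_of_isAlgebraic (algebraicIndependent_unique_type_iff.2 h.trans)
      fun a => by rw [Set.range_const]; exact h.isAlgebraic a
  obtain ⟨φ, hφ⟩ := Module.Projective.exists_dual_eq_one B ((linearIndependent_D h1).ne_zero 0)
  exact ⟨φ.compDer (KaehlerDifferential.D ℂ B), hφ⟩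

lemma at_dlog (h : IsCoord ℂ x) (hgen : ℂ⟮x⟯ = ⊤) {δ : Derivation ℂ B B} (hδ : δ x = 1)
    (q : Place ℂ B) {z : B} (hz : z ≠ 0) :
    q.At (q.loc x * δ z / z) ((q.ord z * q.ord (q.loc x) : ℤ) : ℂ) := by
  let Q : Submonoid B :=
    { carrier := {z | z ≠ 0 ∧ q.At (q.loc x * δ z / z) ((q.ord z * q.ord (q.loc x) : ℤ) : ℂ)}
      one_mem' := ⟨one_ne_zero, by simpa using q.at_const 0⟩
      mul_mem' := fun {a b} ha hb => ⟨mul_ne_zero ha.1 hb.1, by
        convert ha.2.add hb.2 using 1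
        · have := ha.1
          have := hb.1
          rw [Derivation.leibniz, smul_eq_mul, smul_eq_mul]
          field_simp
          ring
        · rw [q.ord_mul ha.1 hb.1]; push_cast; ring⟩ }
  have h1 : ∀ a : ℂ, x - algebraMap ℂ B a ∈ Q := fun a => by
    have h0 := sub_const_ne_zero h.trans a
    refine ⟨h0, ?_⟩
    rw [map_sub, hδ, Derivation.map_algebraMap, sub_zero, mul_one]
    rcases h.pole_or_at q with hq | ⟨b, hb⟩
    · rw [ord_sub_const_of_pole hq, loc_eq_of_pole hq, ord_eq_neg_one_of_pole hq h.trans hgen]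
      have h2 := (ge_const (p := q) a).mul' (ge_ord (x - algebraMap ℂ B a)⁻¹) (l := 1) (by
        rw [ord_inv, ord_sub_const_of_pole hq]; omega)
      unfold At
      convert h2 using 1
      simp only [mul_neg, mul_one, neg_neg, Int.cast_one, map_one]
      field_simp
      ring
    · rw [hb.loc_eq]
      by_cases hab : b = a
      · subst hab
        rw [div_self h0, hb.ord_eq_one h.trans hgen]
        simpa using q.at_const 1
      · have h2 := (ord_eq_zero_of_ge_sub_const (p := q) (y := x - algebraMap ℂ B a)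
          (sub_ne_zero.2 hab) (by rw [map_sub, sub_sub_sub_cancel_right]; exact hb)).2
        rw [h2, zero_mul, Int.cast_zero, at_zero_iff, div_eq_mul_inv]
        exact Ge.mul' hb (ge_ord _) (by simp [h2])
  have h2 : ∀ P : ℂ[X], P ≠ 0 → aeval x P ∈ Q := fun P hP => by
    rw [(IsAlgClosed.splits P).eq_prod_roots, map_mul, map_multiset_prod, aeval_C]
    refine mul_mem ⟨(_root_.map_ne_zero _).2 (leadingCoeff_ne_zero.2 hP), ?_⟩
      (Submonoid.multiset_prod_mem _ _ fun y hy => ?_)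
    · simpa using q.at_const 0
    · simp only [Multiset.map_map, Multiset.mem_map] at hy
      obtain ⟨a, -, rfl⟩ := hy
      simpa using h1 a
  obtain ⟨P, R, hP, hR, rfl⟩ := exists_div_ne hgen hz
  obtain ⟨h3, h4⟩ := h2 P hP
  obtain ⟨h5, h6⟩ := h2 R hR
  convert h4.add (h6.smul (-1)) using 1
  · rw [Derivation.leibniz_div, smul_eq_mul, smul_eq_mul, smul_eq_mul, neg_one_smul]
    field_simp
    ring
  · rw [q.ord_div h3 h5]; push_cast; ring

lemma exists_jacobian (h : IsCoord ℂ x) (hgen : ℂ⟮x⟯ = ⊤) {y : B} (hy : IsCoord ℂ y) :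
    ∃ ψ : B, ψ ≠ 0 ∧ ∀ q : Place ℂ B, q.ord (ψ * q.loc x) = q.ord (q.loc y) := by
  obtain ⟨δ, hδ⟩ := exists_derivation h
  have h1 : ∀ q : Place ℂ B, δ y ≠ 0 ∧ q.ord (δ y * q.loc x) = q.ord (q.loc y) := fun q => by
    have h1 := (at_dlog h hgen hδ q (loc_ne_zero (p := q) hy.trans)).ord_eq_zero
      (Int.cast_ne_zero.2 (mul_ne_zero (hy.ord_loc_ne_zero q) (h.ord_loc_ne_zero q)))
    have h2 : δ (q.loc y) = δ y := by rw [loc, map_sub, Derivation.map_algebraMap, sub_zero]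
    rw [h2] at h1
    have h3 := (div_ne_zero_iff.1 h1.1).1
    refine ⟨right_ne_zero_of_mul h3, ?_⟩
    have h4 := h1.2
    rw [q.ord_div h3 (loc_ne_zero hy.trans), mul_comm] at h4
    omega
  exact ⟨δ y, (h1 h.exists_pole.choose).1, fun q => (h1 q).2⟩

lemma exists_coord_pole (h : IsCoord ℂ x) (hgen : ℂ⟮x⟯ = ⊤) (q : Place ℂ B) :
    ∃ x' : B, Transcendental ℂ x' ∧ ℂ⟮x'⟯ = ⊤ ∧ q.ord x' < 0 := by
  rcases h.pole_or_at q with hq | ⟨c, hc⟩
  · exact ⟨x, h.trans, hgen, hq⟩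
  have hgen' : ℂ⟮(x - algebraMap ℂ B c)⁻¹⟯ = ⊤ := by
    refine top_le_iff.1 (hgen.ge.trans (adjoin_simple_le_iff.2 ?_))
    have := add_mem (inv_mem (mem_adjoin_simple_self ℂ (x - algebraMap ℂ B c)⁻¹))
      (IntermediateField.algebraMap_mem _ c)
    rwa [inv_inv, sub_add_cancel] at this
  refine ⟨_, fun h1 => h.trans ?_, hgen', ?_⟩
  · have := isAlgebraic_adjoin_simple h1.isIntegral
    exact IntermediateField.isAlgebraic_iff.1 (this.isAlgebraic ⟨x, hgen' ▸ mem_top⟩)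
  · rw [ord_inv, hc.ord_eq_one h.trans hgen]; omega

lemma exists_seven (h : IsCoord ℂ x) (hgen : ℂ⟮x⟯ = ⊤) {Φ : B} (hΦ : Φ ≠ 0)
    (h1 : ∀ q : Place ℂ B, ∃ r : ℕ, r * q.ord (Φ * q.loc x ^ 6) = 6)
    {q₀ : Place ℂ B} (hq₀ : q₀.ord x < 0) (h2 : q₀.ord (Φ * q₀.loc x ^ 6) = 1) :
    ∃ a b c : ℂ, a ≠ b ∧ c ≠ 0 ∧
      Φ * (x - algebraMap ℂ B a) ^ 3 * (x - algebraMap ℂ B b) ^ 4 = algebraMap ℂ B c := by
  classical
  obtain ⟨T, hT, hs⟩ := h.exists_sum_del hgen 6 hΦ
  have h3 : q₀.del x 6 Φ = -5 := by rw [del, h2]; rfl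
  let T' := (T.erase q₀).filter fun q => q.del x 6 Φ ≠ 0
  have h4 : ∑ q ∈ T', q.del x 6 Φ = -7 := by
    rw [Finset.sum_filter_ne_zero]
    have := Finset.sum_erase_add T (fun q => q.del x 6 Φ)
      (show q₀ ∈ T by by_contra h4; rw [hT q₀ h4] at h3; omega)
    omega
  have h5 : ∀ q ∈ T', -5 ≤ q.del x 6 Φ ∧ q.del x 6 Φ ≤ -3 := fun q hq => by
    have h5 := (Finset.mem_filter.1 hq).2
    obtain ⟨r, hr⟩ := h1 q
    rw [del] at h5 ⊢
    have h6 : 0 < q.ord (Φ * q.loc x ^ 6) := by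
      by_contra h6
      have : (0 : ℤ) ≤ r := by positivity
      nlinarith
    have h7 : r ≤ 6 := by
      by_contra h7
      have : (7 : ℤ) ≤ r := by omega
      nlinarith
    interval_cases r <;> omega
  have h6 : T'.card = 2 := by
    have h6 := Finset.card_nsmul_le_sum _ _ _ fun q hq => (h5 q hq).1
    have h7 := Finset.sum_le_card_nsmul _ _ _ fun q hq => (h5 q hq).2
    simp only [nsmul_eq_mul] at h6 h7
    omega
  obtain ⟨qa, qb, hab, ha, hb, h7⟩ : ∃ qa qb : Place ℂ B, qa ≠ qb ∧ qa.del x 6 Φ = -3 ∧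
      qb.del x 6 Φ = -4 ∧ ∀ q ∈ T', q = qa ∨ q = qb := by
    obtain ⟨qa, qb, hab, h7⟩ := Finset.card_eq_two.1 h6
    rw [h7, Finset.sum_pair hab] at h4
    have ha := h5 qa (by simp [h7])
    have hb := h5 qb (by simp [h7])
    by_cases h8 : qa.del x 6 Φ = -3
    · exact ⟨qa, qb, hab, h8, by omega, fun q hq => by simpa [h7] using hq⟩
    · exact ⟨qb, qa, hab.symm, by omega, by omega, fun q hq => by simpa [h7, or_comm] using hq⟩
  have h8 : ∀ q : Place ℂ B, q.del x 6 Φ ≠ -5 → ∃ a, q.At x a := fun q hq =>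
    (h.pole_or_at q).resolve_left fun h8 => hq (ext_pole h8 hq₀ h.trans hgen ▸ h3)
  obtain ⟨a, ha'⟩ := h8 qa (by omega)
  obtain ⟨b, hb'⟩ := h8 qb (by omega)
  have h0 := fun a => sub_const_ne_zero h.trans a
  have hne : Φ * (x - algebraMap ℂ B a) ^ 3 * (x - algebraMap ℂ B b) ^ 4 ≠ 0 :=
    mul_ne_zero (mul_ne_zero hΦ (pow_ne_zero _ (h0 a))) (pow_ne_zero _ (h0 b))
  obtain ⟨c, hc⟩ := h.const_of_forall_ge
    (y := Φ * (x - algebraMap ℂ B a) ^ 3 * (x - algebraMap ℂ B b) ^ 4) fun q => ge_of_le (by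
      rw [q.ord_mul (mul_ne_zero hΦ (pow_ne_zero _ (h0 a))) (pow_ne_zero _ (h0 b)),
        q.ord_mul hΦ (pow_ne_zero _ (h0 a)), ord_pow, ord_pow]
      rcases h.pole_or_at q with hq | ⟨e, he⟩
      · obtain rfl := ext_pole hq hq₀ h.trans hgen
        rw [del_of_pole hq h.trans hgen 6 hΦ] at h3
        rw [ord_sub_const_of_pole hq, ord_sub_const_of_pole hq,
          ord_eq_neg_one_of_pole hq h.trans hgen]
        omega
      · have h9 := (he.ge_zero.sub (ge_const a)).le (h0 a)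
        have h10 := (he.ge_zero.sub (ge_const b)).le (h0 b)
        rw [← he.del h.trans hgen 6 hΦ]
        by_cases h11 : q.del x 6 Φ = 0
        · omega
        have h12 : q ∈ T' := Finset.mem_filter.2 ⟨Finset.mem_erase.2
          ⟨fun h12 => he.not_pole (h12 ▸ hq₀), by_contra fun h12 => h11 (hT q h12)⟩, h11⟩
        rcases h7 q h12 with rfl | rfl
        · have := ha'.ord_eq_one h.trans hgen; omega
        · have := hb'.ord_eq_one h.trans hgen; omega)
  refine ⟨a, b, c, fun h9 => hab (ha'.ext (h9 ▸ hb') h.trans hgen), fun h9 => hne ?_, hc⟩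
  rw [hc, h9, map_zero]

end rational

theorem exists_weierstrass {F G : Type} [Field F] [Algebra ℂ F] [Group G] [Finite G]
    [MulSemiringAction G F] [SMulCommClass G ℂ F] [FaithfulSMul G F] (hG : Nat.card G = 6)
    {p : Place ℂ F} (hp : ∀ g : G, g ∈ stabilizer G p) {x : Fix ℂ F G} (h : IsCoord ℂ (x : F))
    {f : F} (hf0 : f ≠ 0) (hf : ∀ p : Place ℂ F, p.ord (f * p.loc (x : F)) = 1) :
    ∃ X Y : F, Y ^ 2 = X ^ 3 - 27 ∧ Transcendental ℂ X ∧ adjoin ℂ {X, Y} = ⊤ ∧ ∀ g : G,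
      algebraMap ℂ F (p.chi g) ^ 2 * g • X = X ∧ algebraMap ℂ F (p.chi g) ^ 3 * g • Y = Y := by
  have hfix : ∀ {f : F}, f ≠ 0 → (∀ g : G, g • f = algebraMap ℂ F (p.chi g) * f) →
      ∀ g : G, g • f = f → g = 1 := fun {f} hf0 h1 g hg => by
    refine h.eq_one_of_chi (hp g) ((algebraMap ℂ F).injective (mul_right_cancel₀ hf0 ?_))
    rw [← h1, hg, map_one, one_mul]
  obtain ⟨x₀, hx₀, h1⟩ := h.exists_fix G
  have hgen₀ : ℂ⟮x₀⟯ = ⊤ := h1.resolve_left fun hirr => by
    obtain ⟨f', hf', h2⟩ := h.fix.exists_regular hirr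
    obtain ⟨c, hc⟩ := h.const_of_forall_ge (y := f' / f) fun P => ge_of_le (by
      obtain ⟨q, hq⟩ := h.exists_under P
      have h3 := hq.2 (f' * q.loc x)
      have h4 := h2 q
      have h5 : (1 : ℤ) ≤ q.ram := by exact_mod_cast q.one_le_ram
      have hl : P.loc (x : F) ≠ 0 := loc_ne_zero h.trans
      rw [map_mul, ← hq.loc_eq] at h3
      change P.ord (f' * P.loc (x : F)) = _ at h3
      rw [← mul_div_mul_right _ _ hl, P.ord_div (mul_ne_zero (fun h => hf' (Subtype.ext h)) hl)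
        (mul_ne_zero hf0 hl), hf, h3]
      nlinarith)
    have hc0 : algebraMap ℂ F c ≠ 0 := hc ▸ div_ne_zero (fun h => hf' (Subtype.ext h)) hf0
    obtain ⟨χ, hχ, hχ'⟩ := exists_character h hf0 hf
    have h3 : ∀ g : G, g = 1 := fun g => hfix hf0 (fun g => hχ' p g (hp g) ▸ hχ g) g (by
      rw [div_eq_iff hf0] at hc
      apply mul_left_cancel₀ hc0
      rw [← hc, ← smul_fix g f', hc, smul_mul', smul_const])
    have : Subsingleton G := ⟨fun a b => (h3 a).trans (h3 b).symm⟩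
    have := Nat.card_of_subsingleton (1 : G)
    omega
  obtain ⟨q₀, hq₀⟩ := h.exists_under p
  obtain ⟨x', h2, hgen, hpole⟩ := exists_coord_pole hx₀.fix hgen₀ q₀
  have hx' : IsCoord ℂ (x' : F) :=
    h.of_transcendental fun h3 => h2 (IntermediateField.isAlgebraic_iff.2 h3)
  obtain ⟨ψ, hψ0, hψ⟩ := exists_jacobian hx'.fix hgen h.fix
  have hψ0' : (ψ : F) ≠ 0 := fun h => hψ0 (Subtype.ext h)
  have hw0 : f * ψ ≠ 0 := mul_ne_zero hf0 hψ0'
  have hw : ∀ P : Place ℂ F, P.ord (f * ψ * P.loc (x' : F)) = 1 := fun P => by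
    obtain ⟨q, hq⟩ := h.exists_under P
    have h3 := hq.2 (ψ * q.loc x')
    rw [hψ, ← hq.2, map_mul, ← hq.loc_eq, ← hq.loc_eq] at h3
    change P.ord (ψ * P.loc (x' : F)) = P.ord (P.loc (x : F)) at h3
    rw [mul_assoc, P.ord_mul hf0 (mul_ne_zero hψ0' (loc_ne_zero hx'.trans)), h3,
      ← P.ord_mul hf0 (loc_ne_zero h.trans), hf]
  generalize f * ψ = w at hw0 hw
  obtain ⟨χ, hχ, hχ'⟩ := exists_character hx' hw0 hw
  replace hχ : ∀ g : G, g • w = algebraMap ℂ F (p.chi g) * w := fun g => hχ' p g (hp g) ▸ hχ g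
  have h6 : ∀ g : G, algebraMap ℂ F (p.chi g) ^ 6 = 1 := fun g => by
    rw [← map_pow, ← h.chi_pow (hp g), ← hG, pow_card_eq_one', h.chi_one, map_one]
  let Φ : Fix ℂ F G := ⟨w ^ 6, mem_fix.2 fun g => by rw [smul_pow', hχ, mul_pow, h6, one_mul]⟩
  have h3 : ∀ q : Place ℂ (Fix ℂ F G), q.ram * q.ord (Φ * q.loc x' ^ 6) = 6 := fun q => by
    obtain ⟨P, hP⟩ := q.exists_over_ram
    rw [← hP.2, map_mul, map_pow, ← hP.loc_eq]
    change P.ord (w ^ 6 * P.loc (x' : F) ^ 6) = 6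
    rw [← mul_pow, ord_pow, hw]
    rfl
  obtain ⟨a, b, c, hab, hc0, hc⟩ := exists_seven hx'.fix hgen (Φ := Φ)
    (fun h4 => pow_ne_zero 6 hw0 (congrArg Subtype.val h4)) (fun q => ⟨_, h3 q⟩) hpole (by
      have h4 := h3 q₀
      rw [← h.card_stabilizer hq₀, (Subgroup.eq_top_iff' _).2 hp, Subgroup.card_top, hG] at h4
      omega)
  replace hc : w ^ 6 * (x' - algebraMap ℂ F a) ^ 3 * (x' - algebraMap ℂ F b) ^ 4 =
    algebraMap ℂ F c := congrArg Subtype.val hc
  obtain ⟨t, ht⟩ := IsAlgClosed.exists_pow_nat_eq (27 * c / (a - b)) (n := 6) (by omega)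
  have ht0 : t ≠ 0 := by
    rintro rfl
    exact div_ne_zero (mul_ne_zero (by norm_num) hc0) (sub_ne_zero.2 hab) (ht.symm.trans (by simp))
  have ha0 := sub_const_ne_zero hx'.trans a
  have hb0 := sub_const_ne_zero hx'.trans b
  have ht0' : algebraMap ℂ F t ≠ 0 := (_root_.map_ne_zero _).2 ht0
  have hc0' : algebraMap ℂ F c ≠ 0 := (_root_.map_ne_zero _).2 hc0
  have ht' : algebraMap ℂ F t ^ 6 * (algebraMap ℂ F a - algebraMap ℂ F b) =
      27 * algebraMap ℂ F c := by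
    rw [← map_pow, ht, ← map_sub, ← map_mul, div_mul_cancel₀ _ (sub_ne_zero.2 hab), map_mul,
      map_ofNat]
  set X := algebraMap ℂ F t ^ 2 /
    (w ^ 2 * (x' - algebraMap ℂ F a) * (x' - algebraMap ℂ F b)) with hX
  set Y := algebraMap ℂ F t ^ 3 /
    (w ^ 3 * (x' - algebraMap ℂ F a) * (x' - algebraMap ℂ F b) ^ 2) with hY
  have hX3 : X ^ 3 = algebraMap ℂ F t ^ 6 * (x' - algebraMap ℂ F b) / algebraMap ℂ F c := by
    rw [hX, ← hc]; field_simp
  have hY2 : Y ^ 2 = algebraMap ℂ F t ^ 6 * (x' - algebraMap ℂ F a) / algebraMap ℂ F c := by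
    rw [hY, ← hc]; field_simp
  have hx'X : (x' : F) = algebraMap ℂ F b + algebraMap ℂ F c * X ^ 3 / algebraMap ℂ F t ^ 6 := by
    rw [hX3]; field_simp; ring
  refine ⟨X, Y, ?_, fun h4 => hx'.trans ?_, ?_, fun g => ?_⟩
  · rw [hX3, hY2]
    field_simp
    linear_combination -ht'
  · rw [hx'X, ← map_pow, div_eq_mul_inv, ← map_inv₀]
    exact (isAlgebraic_algebraMap _).add (((isAlgebraic_algebraMap _).mul (h4.pow 3)).mul
      (isAlgebraic_algebraMap _))
  · have hXE : X ∈ adjoin ℂ {X, Y} := subset_adjoin _ _ (by simp)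
    have hYE : Y ∈ adjoin ℂ {X, Y} := subset_adjoin _ _ (by simp)
    have hc := fun c : ℂ => IntermediateField.algebraMap_mem (adjoin ℂ {X, Y}) c
    have hxE : (x' : F) ∈ adjoin ℂ {X, Y} := by
      rw [hx'X]
      exact add_mem (hc _) (div_mem (mul_mem (hc _) (_root_.pow_mem hXE _)) (_root_.pow_mem (hc _) _))
    refine eq_top_of_fix_le (G := G) _ (fun z hz => ?_) (y := w) ?_ (hfix hw0 hχ)
    · have h4 : ℂ⟮x'⟯ ≤ comap (Fix ℂ F G).val (adjoin ℂ {X, Y}) := adjoin_simple_le_iff.2 hxE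
      exact h4 (x := ⟨z, hz⟩) (hgen ▸ mem_top)
    · convert div_mem (mul_mem (hc t) hXE) (mul_mem hYE (sub_mem hxE (hc b))) using 1
      rw [hX, hY]
      field_simp
  · have h4 : algebraMap ℂ F (p.chi g) ≠ 0 := (_root_.map_ne_zero _).2 (h.chi_ne_zero (hp g))
    rw [hX, hY]
    simp only [smul_div₀', smul_mul', smul_pow', smul_sub, smul_const, smul_fix, hχ]
    constructor <;> field_simp

end Pool.Agent.Lib.MP_e06174_ag
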