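import Pool.Agent.Lib.MP_e06174_ag.Tor

/-! Products of four curves, one of which is elliptic with a point of order six. -/

set_option linter.unusedSectionVars false

open Polynomial IntermediateField Module MulAction

namespace Pool.Agent.Lib.MP_e06174_ag

open Place

variable {G : Type} [Group G] [Finite G] {χ : G →* ℂ}

section one

variable {F : Type} [Field F] [Algebra ℂ F] [MulSemiringAction G F] [SMulCommClass G ℂ F]
  [FaithfulSMul G F] {x : Fix ℂ F G} {a b c : Place ℂ (Fix ℂ F G)}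

lemma IsCoord.pow_ram (h : IsCoord ℂ (x : F)) {p : Place ℂ F}
    (hp : p.Over (Fix ℂ F G).val a a.ram) {g : G} (hg : g ∈ stabilizer G p) : g ^ a.ram = 1 := by
  rw [← h.card_stabilizer hp]
  exact congrArg Subtype.val (pow_card_eq_one' (x := (⟨g, hg⟩ : stabilizer G p)))

lemma Tri.exists_gens (ht : Tri a b c) (h : IsCoord ℂ (x : F)) (hgen : ℂ⟮x⟯ = ⊤) (ha : Plus χ a)
    {pb pc : Place ℂ F} (hb : pb.Over (Fix ℂ F G).val b b.ram)
    (hc : pc.Over (Fix ℂ F G).val c c.ram) : ∃ ζ : ℂ, IsPrimitiveRoot ζ 6 ∧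
      ∃ gb ∈ stabilizer G pb, ∃ gc ∈ stabilizer G pc, ζ * χ gb * χ gc = 1 ∧
        IsPrimitiveRoot (pb.chi gb) b.ram ∧ IsPrimitiveRoot (pc.chi gc) c.ram ∧
        (∀ k, k * b.ram = 6 → pb.chi gb = ζ ^ k) ∧ ∀ k, k * c.ram = 6 → pc.chi gc = ζ ^ k := by
  have hξ := Complex.isPrimitiveRoot_exp (Nat.card G) Nat.card_pos.ne'
  generalize Complex.exp _ = ξ at hξ
  obtain ⟨pa, hpa⟩ := a.exists_over_ram
  obtain ⟨n, hn⟩ : 6 ∣ Nat.card G :=
    ha.1 ▸ h.card_stabilizer hpa ▸ Subgroup.card_subgroup_dvd_card _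
  have key : ∀ {q : Place ℂ (Fix ℂ F G)} {p : Place ℂ F}, p.Over (Fix ℂ F G).val q q.ram →
      ∃ g ∈ stabilizer G p, p.chi g = ξ ^ (Nat.card G / q.ram) ∧ IsPrimitiveRoot (p.chi g) q.ram ∧
        ∀ k, k * q.ram = 6 → p.chi g = (ξ ^ n) ^ k := fun {q p} hp => by
    have h1 : Nat.card G = Nat.card G / q.ram * q.ram :=
      (Nat.div_mul_cancel (h.card_stabilizer hp ▸ Subgroup.card_subgroup_dvd_card _)).symm
    have h2 := hξ.pow Nat.card_pos h1
    obtain ⟨g, hg, hg'⟩ := h.exists_chi_eq p (ξ := ξ ^ (Nat.card G / q.ram))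
      (by rw [h.card_stabilizer hp, h2.pow_eq_one])
    refine ⟨g, hg, hg', hg' ▸ h2, fun k hk => ?_⟩
    rw [hg', ← pow_mul, hn, ← hk, mul_right_comm, Nat.mul_div_cancel _ q.one_le_ram, mul_comm]
  obtain ⟨ga, h1, h2, -, h3⟩ := key hpa
  obtain ⟨gb, h4, h5, h6⟩ := key hb
  obtain ⟨gc, h7, h8, h9⟩ := key hc
  refine ⟨ξ ^ n, hξ.pow Nat.card_pos (hn.trans (mul_comm _ _)), gb, h4, gc, h7, ?_, h6.1, h9.1,
    h6.2, h9.2⟩
  rw [← ht.prod_char h hgen χ hξ hpa hb hc h1 h4 h7 h2 h5 h8, ha.2 pa hpa ga h1,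
    h3 1 (by rw [ha.1]), pow_one]

lemma chi_eq_of_gen (h : IsCoord ℂ (x : F)) {p : Place ℂ F} (hp : p.Over (Fix ℂ F G).val a a.ram)
    {g : G} (hg : g ∈ stabilizer G p) (h1 : IsPrimitiveRoot (p.chi g) a.ram) (h2 : χ g = p.chi g) :
    ∀ g ∈ stabilizer G p, χ g = p.chi g := fun g' hg' => by
  have : NeZero a.ram := ⟨by have := a.one_le_ram; omega⟩
  obtain ⟨k, -, hk⟩ := h1.eq_pow_of_pow_eq_one (ξ := p.chi g') (by
    rw [← h.chi_pow hg', h.pow_ram hp hg', h.chi_one])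
  rw [← h.eq_of_chi (_root_.pow_mem hg k) hg' ((h.chi_pow hg k).trans hk), map_pow, h.chi_pow hg,
    h2]

lemma Tri.chi_eq (ht : Tri a b c) (h : IsCoord ℂ (x : F)) (hgen : ℂ⟮x⟯ = ⊤) (ha : Plus χ a)
    (hb : b.ram = 2) (hc : c.ram = 3) (p : Place ℂ F) : ∀ g ∈ stabilizer G p, χ g = p.chi g := by
  have key : ∀ {pb pc : Place ℂ F}, pb.Over (Fix ℂ F G).val b b.ram →
      pc.Over (Fix ℂ F G).val c c.ram → (∀ g ∈ stabilizer G pb, χ g = pb.chi g) ∧
        ∀ g ∈ stabilizer G pc, χ g = pc.chi g := fun {pb pc} h1 h2 => by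
    obtain ⟨ζ, hζ, gb, h3, gc, h4, h5, h6, h7, h8, h9⟩ := ht.exists_gens h hgen ha h1 h2
    have h10 := congrArg χ (h.pow_ram h1 h3)
    have h11 := congrArg χ (h.pow_ram h2 h4)
    rw [map_pow, map_one] at h10 h11
    rw [hb] at h10
    rw [hc] at h11
    refine ⟨chi_eq_of_gen h h1 h3 h6 ?_, chi_eq_of_gen h h2 h4 h7 ?_⟩
    · rw [h8 3 (by rw [hb])]
      linear_combination -χ gb * ((ζ * χ gb * χ gc) ^ 2 + ζ * χ gb * χ gc + 1) * h5 +
        ζ ^ 3 * χ gc ^ 3 * (χ gb ^ 2 + 1) * h10 + ζ ^ 3 * h11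
    · rw [h9 2 (by rw [hc])]
      linear_combination -χ gc * (ζ * χ gb * χ gc + 1) * h5 + ζ ^ 2 * χ gc ^ 3 * h10 + ζ ^ 2 * h11
  obtain ⟨q, hq⟩ := h.exists_under p
  rcases ht.cases q with rfl | rfl | rfl | ⟨-, -, -, h1⟩
  · exact ha.2 p hq
  · exact (key hq c.exists_over_ram.choose_spec).1
  · exact (key b.exists_over_ram.choose_spec hq).2
  · intro g hg
    have := h.pow_ram hq hg
    rw [h1, pow_one] at this
    rw [this, map_one, h.chi_one]

lemma Tri.plus_excl (ht : Tri a b c) (h : IsCoord ℂ (x : F)) (hgen : ℂ⟮x⟯ = ⊤) (ha : Plus χ a)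
    (hχ : ∀ g, χ g ^ 6 = 1) (h2 : ∀ g, χ g = -1 → g ^ 2 = 1) :
    ¬ (b.ram = 2 ∧ (c.ram = 4 ∨ c.ram = 5 ∨ Plus χ c)) ∧
      ¬ (b.ram = 3 ∧ (c.ram = 3 ∨ c.ram = 4 ∨ c.ram = 5)) := by
  obtain ⟨pb, h3⟩ := b.exists_over_ram
  obtain ⟨pc, h4⟩ := c.exists_over_ram
  obtain ⟨ζ, hζ, gb, h5, gc, h6, h7, -, h8, -, h9⟩ := ht.exists_gens h hgen ha h3 h4
  have h10 := congrArg χ (h.pow_ram h3 h5)
  have h11 := congrArg χ (h.pow_ram h4 h6)
  rw [map_pow, map_one] at h10 h11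
  have h12 : ∀ k, k ≠ 0 → k < 6 → χ gb ^ k = 1 → χ gc ^ k = 1 → False :=
    fun k h12 h13 h14 h15 => by
      have h16 := congrArg (· ^ k) h7
      simp only [mul_pow, h14, h15, mul_one, one_pow] at h16
      exact hζ.pow_ne_one_of_pos_of_lt h12 h13 h16
  have h13 := hχ gc
  constructor
  · rintro ⟨hb, hc | hc | hc⟩ <;> rw [hb] at h10
    · rw [hc] at h11
      exact h12 2 (by omega) (by omega) h10 (by linear_combination h13 - χ gc ^ 2 * h11)
    · rw [hc] at h11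
      exact h12 2 (by omega) (by omega) h10 (by
        linear_combination (χ gc + 1) * h13 - χ gc * (χ gc + 1) * h11)
    · rw [hc.2 pc h4 gc h6, h9 1 (by rw [hc.1])] at h7
      exact hζ.pow_ne_one_of_pos_of_lt (l := 4) (by omega) (by omega) (by
        linear_combination (ζ * χ gb * ζ + 1) * h7 - ζ ^ 4 * h10)
  · rintro ⟨hb, hc | hc | hc⟩ <;> rw [hb] at h10 <;> rw [hc] at h11
    · exact h12 3 (by omega) (by omega) h10 h11
    · rcases sq_eq_one_iff.1 (show χ gc ^ 2 = 1 by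
        linear_combination h13 - χ gc ^ 2 * h11) with h14 | h14
      · exact h12 3 (by omega) (by omega) h10 (by rw [h14, one_pow])
      · refine h8.pow_ne_one_of_pos_of_lt (l := 2) (by omega) (by omega) ?_
        rw [← h.chi_pow h6, h2 _ h14, h.chi_one]
    · exact h12 3 (by omega) (by omega) h10 (by
        linear_combination (χ gc ^ 2 + χ gc + 1) * h13 - χ gc * (χ gc ^ 2 + χ gc + 1) * h11)

lemma TT.plus_cases (hT : TT ℂ F G) (h : IsCoord ℂ (x : F)) (hgen : ℂ⟮x⟯ = ⊤)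
    (hχ : ∀ g, χ g ^ 6 = 1) (h2 : ∀ g, χ g = -1 → g ^ 2 = 1) :
    ∃ (s : ℕ) (nn : Place ℂ (Fix ℂ F G) → ℕ), Wt x 12 nn ∧ (∀ q, Plus χ q → s ≤ nn q) ∧ 2 ≤ s ∧
      (s < 6 → ∃ a b c : Place ℂ (Fix ℂ F G), Tri a b c ∧ Plus χ a ∧ (b.ram = 2 ∨ Plus χ b)) ∧
      (s < 4 → ∃ a b c : Place ℂ (Fix ℂ F G), Tri a b c ∧ Plus χ a ∧ b.ram = 2 ∧ c.ram = 3) := by
  have hP : ∀ q : Place ℂ (Fix ℂ F G), Plus χ q → q.ram ≠ 1 := fun q hq => by rw [hq.1]; omega
  by_cases h0 : ∃ q : Place ℂ (Fix ℂ F G), Plus χ q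
  swap
  · obtain ⟨nn, h1⟩ : ∃ nn, Wt x 12 nn := by
      rcases hT.cases with ⟨a, b, c, ht, ha, hb, hc⟩ | ⟨a, b, c, ht, ha, hb, hc⟩ |
        ⟨a, b, c, ht, ha, hb, hc⟩
      · exact (ht.wt h hgen (na := 6) (nb := 4) (nc := 2) (by omega) (by omega) (by omega)
          (by omega)).imp fun _ h => h.1
      · exact (ht.wt h hgen (na := 6) (nb := 3) (nc := 3) (by omega) (by omega) (by omega)
          (by omega)).imp fun _ h => h.1
      · exact (ht.wt h hgen (na := 4) (nb := 4) (nc := 4) (by omega) (by omega) (by omega)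
          (by omega)).imp fun _ h => h.1
    exact ⟨6, nn, h1, fun q hq => (h0 ⟨q, hq⟩).elim, by omega, by omega, by omega⟩
  obtain ⟨a, b, c, ht, ha, hb, hbc, hc⟩ : ∃ a b c : Place ℂ (Fix ℂ F G), Tri a b c ∧ Plus χ a ∧
      2 ≤ b.ram ∧ b.ram ≤ c.ram ∧ 3 ≤ c.ram := by
    obtain ⟨q, hq⟩ := h0
    obtain ⟨a, b, c, ht, ha, hab, hb, hc⟩ : ∃ a b c : Place ℂ (Fix ℂ F G), Tri a b c ∧
        2 ≤ a.ram ∧ a.ram ≤ b.ram ∧ 3 ≤ b.ram ∧ b.ram ≤ c.ram := by
      rcases hT.cases with ⟨a, b, c, ht, ha, hb, hc⟩ | ⟨a, b, c, ht, ha, hb, hc⟩ |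
        ⟨a, b, c, ht, ha, hb, hc⟩ <;> exact ⟨a, b, c, ht, by omega, by omega, by omega, by omega⟩
    rcases ht.cases q with rfl | rfl | rfl | ⟨-, -, -, h1⟩
    · exact ⟨_, _, _, ht, hq, by omega, hc, by omega⟩
    · exact ⟨_, _, _, ht.swap₁, hq, ha, by omega, by omega⟩
    · exact ⟨_, _, _, ht.swap₂.swap₁, hq, ha, hab, hb⟩
    · exact absurd h1 (hP q hq)
  obtain ⟨h3, h4⟩ := ht.plus_excl h hgen ha hχ h2
  have h5 := ha.1
  have key : ∀ s na nb nc : ℕ, na + nb + nc ≤ 12 → s ≤ na → 2 ≤ s → 12 ≤ b.ram * nb →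
      12 ≤ c.ram * nc → (Plus χ b → s ≤ nb) → (Plus χ c → s ≤ nc) →
      ∃ nn, Wt x 12 nn ∧ ∀ q, Plus χ q → s ≤ nn q := fun s na nb nc h6 h7 h8 h9 h10 h11 h12 =>
    ht.wt' h hgen h6 (by rw [h5]; omega) h9 h10 hP (fun _ => h7) h11 h12
  by_cases hb' : Plus χ b
  · have := hb'.1
    obtain ⟨nn, h6, h7⟩ := key 4 4 4 4 (by omega) le_rfl (by omega) (by omega) (by omega)
      (fun _ => le_rfl) fun _ => le_rfl
    exact ⟨4, nn, h6, h7, by omega, fun _ => ⟨a, b, c, ht, ha, Or.inr hb'⟩, by omega⟩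
  by_cases hc' : Plus χ c
  · have : b.ram ≠ 2 := fun h => h3 ⟨h, Or.inr (Or.inr hc')⟩
    obtain ⟨nn, h6, h7⟩ := key 4 4 4 4 (by omega) le_rfl (by omega) (by omega) (by omega)
      (fun _ => le_rfl) fun _ => le_rfl
    exact ⟨4, nn, h6, h7, by omega, fun _ => ⟨a, c, b, ht.swap₂, ha, Or.inr hc'⟩, by omega⟩
  simp only [hc', or_false] at h3
  by_cases h6 : b.ram = 2
  · by_cases h7 : c.ram = 3
    · obtain ⟨nn, h8, h9⟩ := key 2 2 6 4 (by omega) le_rfl (by omega) (by omega) (by omega)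
        (absurd · hb') (absurd · hc')
      exact ⟨2, nn, h8, h9, le_rfl, fun _ => ⟨a, b, c, ht, ha, Or.inl h6⟩,
        fun _ => ⟨a, b, c, ht, ha, h6, h7⟩⟩
    · obtain ⟨nn, h8, h9⟩ := key 4 4 6 2 (by omega) le_rfl (by omega) (by omega) (by omega)
        (absurd · hb') (absurd · hc')
      exact ⟨4, nn, h8, h9, by omega, fun _ => ⟨a, b, c, ht, ha, Or.inl h6⟩, by omega⟩
  by_cases h7 : b.ram = 3
  · obtain ⟨nn, h8, h9⟩ := key 6 6 4 2 (by omega) le_rfl (by omega) (by omega) (by omega)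
      (absurd · hb') (absurd · hc')
    exact ⟨6, nn, h8, h9, by omega, by omega, by omega⟩
  · obtain ⟨nn, h8, h9⟩ := key 6 6 3 3 (by omega) le_rfl (by omega) (by omega) (by omega)
      (absurd · hb') (absurd · hc')
    exact ⟨6, nn, h8, h9, by omega, by omega, by omega⟩

end one

variable {F : Fin 4 → Type} [∀ i, Field (F i)] [∀ i, Algebra ℂ (F i)]
  [∀ i, MulSemiringAction G (F i)] [∀ i, SMulCommClass G ℂ (F i)] [∀ i, FaithfulSMul G (F i)]
  {K : Type} [Field K] [Algebra ℂ K] [MulSemiringAction G K] [SMulCommClass G ℂ K]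
  [FaithfulSMul G K] {ι : ∀ i, F i →ₐ[ℂ] K}

theorem Setup.ell_four (S : Setup G ι) (x : ∀ i, Fix ℂ (F i) G) (hx : ∀ i, IsCoord ℂ (x i : F i))
    (hgen : ∀ i, ℂ⟮x i⟯ = ⊤) (hirr : ∀ i (t : F i), ℂ⟮t⟯ ≠ ⊤) (hT : ∀ i, TT ℂ (F i) G)
    {i₁ : Fin 4} (h1 : TA ℂ (F i₁) G (· = 6)) (hκ : KodairaNegInf ℂ (Fix ℂ K G) 4) :
    Uniruled ℂ (Fix ℂ K G) := by
  obtain ⟨f, hf0, hf, hf6⟩ := h1.exists_form (hx i₁) (hgen i₁) (hirr i₁)
  obtain ⟨χ, hχ, hχ'⟩ := exists_character (hx i₁) hf0 hf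
  have h6 : ∀ g, χ g ^ 6 = 1 := fun g => by
    have h6 := hf6 g
    rw [smul_pow', hχ, mul_pow, mul_eq_right₀ (pow_ne_zero _ hf0), ← map_pow] at h6
    exact (algebraMap ℂ (F i₁)).injective (h6.trans (map_one _).symm)
  obtain ⟨a, b, c, ht, ha, hb, hc⟩ := h1
  have h2 : ∀ g, χ g = -1 → g ^ 2 = 1 := fun g hg => by
    obtain ⟨p, hp⟩ := c.exists_over_ram
    obtain ⟨X, Y, hXY, t, -, hXg, h2, -⟩ := exists_affine (hx i₁) hf0 hf hχ' h6
      (((hx i₁).card_stabilizer hp).trans hc)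
    have h3 := (show Coc χ _ t from h2).isCoc h6 g g
    have h4 := h2 (g * g)
    rw [h3, map_mul, hg, inv_neg_one, Pt.rot_neg_one, neg_add_cancel, map_zero, add_zero,
      neg_mul_neg, one_mul, inv_one, Pt.rot_one, Pt.map_mk, Pt.mk_eq_mk, ← sq] at h4
    refine faithfulSMul_iff.1 (inferInstanceAs (FaithfulSMul G (F i₁))) _
      (algHom_ext_of_adjoin hXg (φ := act (F i₁) (g ^ 2)) (ψ := AlgHom.id ℂ _) ?_)
    rintro _ (rfl | rfl)
    exacts [h4.1, h4.2]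
  choose s nn hW hs hs2 hs6 hs4 using fun i => (hT i).plus_cases (hx i) (hgen i) h6 h2
  by_cases h3 : 12 ≤ ∑ i, s i
  · choose Φ hΦ hΦ' using fun i => (hW i).2
    refine (S.easyn x Φ hx (by omega) hΦ nn (fun i => (hW i).1) hΦ' (fun L hL => ?_) hκ).elim
    have h4 : (L.q i₁).ram = 6 := by
      have := L.le_ram i₁
      rcases ht.cases (L.q i₁) with h | h | h | ⟨-, -, -, h⟩
      · rw [h] at this; omega
      · rw [h] at this; omega
      · rwa [h]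
      · omega
    have h5 : L.e = 6 := by
      have h5 := L.dvd i₁
      have := L.le_ram i₁
      rw [h4] at h5 this
      have : L.e ≠ 5 := fun h => by rw [h] at h5; omega
      omega
    have h7 := (L.card_stab i₁).trans h4
    obtain ⟨-, -, -, -, -, -, -, h8⟩ := exists_affine (hx i₁) hf0 hf hχ' h6 h7
    obtain ⟨g, hg, -, h9⟩ := exists_generator (hx i₁) (L.p i₁)
    rw [h7, ← hχ' _ g hg] at h9
    have h10 : L.w.inertia G = stabilizer G (L.p i₁) :=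
      Subgroup.eq_of_le_of_card_ge (L.le_stab i₁) (by rw [L.card, h7, h5])
    have h11 : ∀ i, (L.q i).ram = 6 := fun i => by
      refine le_antisymm ?_ (h5 ▸ L.le_ram i)
      rw [← L.card_stab, ← h7]
      refine Subgroup.card_le_of_le fun k hk => h8 g hg
        (h9.pow_ne_one_of_pos_of_lt (by omega) (by omega))
        (h9.pow_ne_one_of_pos_of_lt (by omega) (by omega)) _ ?_
      rw [mem_stabilizer_iff, ← mul_smul, (hx i).comm (L.le_stab i (h10 ▸ hg)) hk, mul_smul, hg]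
    have h12 : ∀ i, 2 ≤ nn i (L.q i) := fun i => by
      have := (hW i).1 (L.q i)
      rw [h11] at this
      omega
    by_cases h13 : ∀ i, L.d i = 1
    · refine h3.trans (Finset.sum_le_sum fun i _ => ?_)
      rw [h13, one_mul]
      refine hs i _ ⟨h11 i, fun p hp k hk => ?_⟩
      obtain ⟨u, rfl⟩ := exists_smul_eq (L.hq i) hp
      obtain ⟨h14, h15⟩ := (hx i).chi_smul hk
      obtain ⟨h16, h17⟩ := L.chi_eq (h13 i) h14 i₁
      rw [(L.base (h13 i₁)).1, pow_one, ← hχ' _ _ h16] at h17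
      rw [h15, ← h17, map_mul, map_mul, mul_right_comm, ← map_mul, inv_mul_cancel, map_one, one_mul]
    · obtain ⟨l, hl⟩ := not_forall.1 h13
      have h14 : 5 ≤ L.d l := by
        have h14 := L.coprime l
        have h15 := L.hed l
        have h16 := L.one_le_d l
        rw [h5, h11] at h15
        rw [h5, show L.c l = L.d l by omega] at h14
        by_contra h17
        have : L.d l = 2 ∨ L.d l = 3 ∨ L.d l = 4 := by omega
        rcases this with h | h | h <;> rw [h] at h14 <;> norm_num at h14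
      have h15 : ∀ i, 2 ≤ L.d i * nn i (L.q i) := fun i =>
        (h12 i).trans (Nat.le_mul_of_pos_left _ (L.one_le_d i))
      have h16 := Nat.mul_le_mul h14 (h12 l)
      have h17 := Finset.card_nsmul_le_sum Finset.univ _ _ fun i (_ : i ∈ Finset.univ) =>
        h15 (l.succAbove i)
      rw [Fin.sum_univ_succAbove _ l]
      simp only [Finset.card_univ, Fintype.card_fin, smul_eq_mul] at h17
      omega
  obtain ⟨j, hj, hj'⟩ : ∃ j, s j < 6 ∧ ∀ i, i ≠ j → s i < 4 := by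
    have := hs2 0
    have := hs2 1
    have := hs2 2
    have := hs2 3
    simp only [Fin.sum_univ_four] at h3
    simp only [Fin.exists_fin_succ, Fin.forall_fin_succ]
    simp
    omega
  refine S.tor x hx hgen j h6 (fun i hi => ?_) (hs6 j hj)
  obtain ⟨a, b, c, h4, h5, h7, h8⟩ := hs4 i (hj' i hi)
  obtain ⟨f, h9, h10, -⟩ := TA.exists_form ⟨b, c, a, h4.swap₁.swap₂, h7, h8, h5.1⟩ (hx i) (hgen i)
    (hirr i)
  exact ⟨⟨f, h9, h10⟩, h4.chi_eq (hx i) (hgen i) h5 h7 h8, a, b, c, h4, h5.1, h7, h8⟩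

end Pool.Agent.Lib.MP_e06174_ag
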