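import Pool.Agent.Lib.MP_e06174_ag.Rat

/-! A curve with a finite group action: branch indices and invariant pluricanonical forms. -/

set_option linter.unusedSectionVars false

open Polynomial IntermediateField Module

namespace Pool.Agent.Lib.MP_e06174_ag

open Place

variable {k F G : Type*} [Field k] [Field F] [Algebra k F] [CharZero k] [IsAlgClosed k]
  [Group G] [Finite G] [MulSemiringAction G F] [SMulCommClass G k F]

/-- The ramification index over a place of the fixed field. -/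
noncomputable def Place.ram (q : Place k (Fix k F G)) : ℕ :=
  (exists_over_fix q).choose_spec.choose

lemma Place.exists_over_ram (q : Place k (Fix k F G)) :
    ∃ p : Place k F, p.Over (Fix k F G).val q q.ram :=
  ⟨_, (exists_over_fix q).choose_spec.choose_spec⟩

lemma Place.Over.ram_eq {q : Place k (Fix k F G)} {p : Place k F} {e : ℕ}
    (h : p.Over (Fix k F G).val q e) : e = q.ram :=
  h.eq_of_over q.exists_over_ram.choose_spec

lemma Place.one_le_ram (q : Place k (Fix k F G)) : 1 ≤ q.ram :=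
  q.exists_over_ram.choose_spec.1

lemma IsCoord.fix {x : Fix k F G} (h : IsCoord k (x : F)) : IsCoord k x :=
  IsCoord.of_algHom (Fix k F G).val h

lemma IsCoord.exists_under {x : Fix k F G} (h : IsCoord k (x : F)) (p : Place k F) :
    ∃ q : Place k (Fix k F G), p.Over (Fix k F G).val q q.ram := by
  rcases p.restrict (Fix k F G).val with h1 | ⟨q, c, hc⟩
  · refine absurd ?_ (h.ord_loc_ne_zero p)
    simpa [loc] using h1 (x - algebraMap k _ (p.cen (x : F)))
  · have h2 : p.Over (Fix k F G).val q c := hc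
    exact ⟨q, h2.ram_eq ▸ h2⟩

variable (G) in
lemma IsCoord.exists_fix {y : F} (h : IsCoord k y) :
    ∃ x : Fix k F G, IsCoord k (x : F) ∧ ((∀ t : Fix k F G, k⟮t⟯ ≠ ⊤) ∨ k⟮x⟯ = ⊤) := by
  have h1 : ∃ x : Fix k F G, Transcendental k x := by
    by_contra hcon
    have : Algebra.IsAlgebraic k (Fix k F G) :=
      ⟨fun x => by_contra fun hx => hcon ⟨x, hx⟩⟩
    exact h.trans ((Algebra.IsAlgebraic.trans k (Fix k F G) F).isAlgebraic y)
  have h2 : ∀ x : Fix k F G, Transcendental k x → IsCoord k (x : F) := fun x hx =>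
    h.of_transcendental fun h3 => hx (IntermediateField.isAlgebraic_iff.2 h3)
  obtain ⟨x, hx⟩ := h1
  by_cases h3 : ∀ t : Fix k F G, k⟮t⟯ ≠ ⊤
  · exact ⟨x, h2 x hx, Or.inl h3⟩
  · push Not at h3
    obtain ⟨t, ht⟩ := h3
    refine ⟨t, h2 t fun h4 => hx ?_, Or.inr ht⟩
    have := isAlgebraic_adjoin_simple h4.isIntegral
    exact IntermediateField.isAlgebraic_iff.1
      (this.isAlgebraic (⟨x, ht ▸ mem_top⟩ : k⟮t⟯))

variable (k G) in
/-- The norm to the fixed field. -/
noncomputable def nrm [Fintype G] (f : F) : Fix k F G :=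
  ⟨∏ g : G, g • f, mem_fix.2 fun g => Finset.smul_prod_perm f g⟩

lemma nrm_ne_zero [Fintype G] {f : F} (hf : f ≠ 0) : nrm k G f ≠ 0 := fun h =>
  Finset.prod_ne_zero_iff.2 (fun g _ => (smul_ne_zero_iff_ne g).2 hf) (congrArg Subtype.val h)

lemma ord_nrm [Fintype G] {x : Fix k F G} (h : IsCoord k (x : F)) {f : F} (hf : f ≠ 0) (m : ℕ)
    {p : Place k F} {q : Place k (Fix k F G)} (hp : p.Over (Fix k F G).val q q.ram) :
    q.ram * q.ord (nrm k G f * q.loc x ^ (Fintype.card G * m)) =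
      ∑ g : G, (g • p).ord (f * (g • p).loc (x : F) ^ m) := by
  have hl : p.loc (x : F) ≠ 0 := loc_ne_zero h.trans
  have h1 := hp.loc_eq (x := x)
  rw [← hp.2, map_mul, map_pow, ← h1]
  change p.ord ((∏ g : G, g • f) * p.loc (x : F) ^ (Fintype.card G * m)) = _
  rw [mul_comm (Fintype.card G), pow_mul, ← Finset.card_univ, ← Finset.prod_const,
    ← Finset.prod_mul_distrib, p.ord_prod _ _ fun g _ =>
      mul_ne_zero ((smul_ne_zero_iff_ne g).2 hf) (pow_ne_zero _ hl),
    ← Equiv.sum_comp (Equiv.inv G)]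
  refine Finset.sum_congr rfl fun g _ => ?_
  rw [smul_ord, smul_loc (smul_fix _ _), smul_mul', smul_pow', smul_loc_eq (smul_fix _ _)]
  rfl

lemma exists_sum_ram {x : Fix k F G} (h : IsCoord k (x : F)) (hgen : k⟮x⟯ = ⊤)
    (hirr : ∀ t : F, k⟮t⟯ ≠ ⊤) :
    ∃ T : Finset (Place k (Fix k F G)), 2 ≤ ∑ q ∈ T, (1 - 1 / (q.ram : ℚ)) := by
  have := Fintype.ofFinite G
  obtain ⟨f, hf, hf'⟩ := h.exists_regular hirr
  obtain ⟨T, -, hT⟩ := h.fix.exists_sum_del hgen (Fintype.card G * 1) (nrm_ne_zero (k := k) hf)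
  have hc : (0 : ℚ) < Fintype.card G := by exact_mod_cast Fintype.card_pos
  refine ⟨T, le_of_mul_le_mul_left ?_ hc⟩
  have h1 : ∀ q ∈ T, -(q.del x (Fintype.card G * 1) (nrm k G f) : ℚ) ≤
      Fintype.card G * (1 - 1 / (q.ram : ℚ)) := by
    intro q _
    obtain ⟨p, hp⟩ := q.exists_over_ram
    have h2 := ord_nrm h hf 1 hp
    have h3 : (Fintype.card G : ℤ) ≤ ∑ g : G, (g • p).ord (f * (g • p).loc (x : F) ^ 1) := by
      have := Finset.card_nsmul_le_sum Finset.univ
        (fun g : G => (g • p).ord (f * (g • p).loc (x : F) ^ 1)) 1 fun g _ => by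
          simpa using hf' (g • p)
      simpa using this
    rw [← h2] at h3
    have h4 : (0 : ℚ) < q.ram := by exact_mod_cast q.one_le_ram
    have h5 : (Fintype.card G : ℚ) ≤
      q.ram * q.ord (nrm k G f * q.loc x ^ (Fintype.card G * 1)) := by exact_mod_cast h3
    rw [del, mul_sub, mul_one_div]
    have := (div_le_iff₀' h4).2 h5
    push_cast
    linarith
  have h2 := Finset.sum_le_sum h1
  rw [Finset.sum_neg_distrib, ← Int.cast_sum, hT, ← Finset.mul_sum] at h2
  push_cast at h2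
  linarith

lemma trunc_three {a b c : ℕ} (ha : 2 ≤ a) (hb : 2 ≤ b) (hc : 2 ≤ c)
    (h : 1 / (a : ℚ) + 1 / b + 1 / c ≤ 1) : 60 / min a 6 + 60 / min b 6 + 60 / min c 6 ≤ 60 := by
  have key : ∀ a : ℕ, 2 ≤ a → (a = 2 ∨ a = 3 ∨ a = 4 ∨ a = 5 ∨ a = 6) ∨
      (min a 6 = 6 ∧ 0 < 1 / (a : ℚ)) := fun a ha => by
    by_cases h6 : a ≤ 6
    · omega
    · exact Or.inr ⟨by omega, by have : (0 : ℚ) < a := by exact_mod_cast (by omega)
                                 positivity⟩
  rcases key a ha with (rfl | rfl | rfl | rfl | rfl) | ⟨ha1, ha2⟩ <;>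
  rcases key b hb with (rfl | rfl | rfl | rfl | rfl) | ⟨hb1, hb2⟩ <;>
  rcases key c hc with (rfl | rfl | rfl | rfl | rfl) | ⟨hc1, hc2⟩ <;>
  first
    | decide
    | (simp only [*]; decide)
    | (exfalso; norm_num at h; done)
    | (exfalso; push_cast at h; linarith)

lemma trunc_sum {α : Type*} (T : Finset α) (r : α → ℕ) (hr : ∀ q, 1 ≤ r q)
    (h : 2 ≤ ∑ q ∈ T, (1 - 1 / (r q : ℚ))) :
    ∑ q ∈ T, (((60 / min (r q) 6 : ℕ) : ℤ) - 60) ≤ -2 * (60 : ℕ) := by
  classical
  let T' := T.filter fun q => 2 ≤ r q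
  have h0 : ∀ q ∈ T, q ∉ T' → r q = 1 := fun q hq hq' => by
    have := hr q
    have : ¬ 2 ≤ r q := fun h => hq' (Finset.mem_filter.2 ⟨hq, h⟩)
    omega
  have h1 : ∀ q ∈ T', 2 ≤ r q := fun q hq => (Finset.mem_filter.1 hq).2
  rw [← Finset.sum_subset (Finset.filter_subset (fun q => 2 ≤ r q) T)
    fun q hq hq' => by simp [h0 q hq hq']] at h ⊢
  change 2 ≤ ∑ q ∈ T', _ at h
  change ∑ q ∈ T', _ ≤ _
  have h2 : ∀ q ∈ T', (1 - 1 / (r q : ℚ)) < 1 := fun q hq => by
    have : (0 : ℚ) < r q := by exact_mod_cast hr q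
    have : 0 < 1 / (r q : ℚ) := by positivity
    linarith
  have h3 : 2 < T'.card := by
    have hne : T'.Nonempty := by
      rw [Finset.nonempty_iff_ne_empty]
      intro h4
      rw [h4] at h
      norm_num at h
    have := Finset.sum_lt_sum_of_nonempty hne h2
    simp only [Finset.sum_const, nsmul_eq_mul, mul_one] at this
    exact_mod_cast h.trans_lt this
  by_cases h4 : T'.card = 3
  · obtain ⟨a, b, c, hab, hac, hbc, h5⟩ := Finset.card_eq_three.1 h4
    rw [h5] at h h1 ⊢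
    rw [Finset.sum_insert (by simp [hab, hac]), Finset.sum_pair hbc] at h ⊢
    have := trunc_three (h1 a (by simp)) (h1 b (by simp)) (h1 c (by simp)) (by linarith)
    omega
  · have h5 : ∀ q ∈ T', (((60 / min (r q) 6 : ℕ) : ℤ) - 60) ≤ -30 := fun q hq => by
      have h6 := h1 q hq
      have : 60 / min (r q) 6 ≤ 60 / 2 := Nat.div_le_div_left (by omega) (by omega)
      omega
    have := Finset.sum_le_card_nsmul _ _ _ h5
    simp only [nsmul_eq_mul] at this
    omega

variable (G) in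
theorem exists_factor {y : F} (hy : IsCoord k y) (hirr : ∀ t : F, k⟮t⟯ ≠ ⊤) :
    ∃ x Φ : Fix k F G, IsCoord k (x : F) ∧ Φ ≠ 0 ∧
      ∀ q : Place k (Fix k F G), ((60 / min q.ram 6 : ℕ) : ℤ) ≤ q.ord (Φ * q.loc x ^ 60) := by
  obtain ⟨x, hx, h | h⟩ := hy.exists_fix G
  · obtain ⟨f, hf, hf'⟩ := hx.fix.exists_regular h
    refine ⟨x, f ^ 60, hx, pow_ne_zero _ hf, fun q => ?_⟩
    have h1 := hf' q
    have h2 : 60 / min q.ram 6 ≤ 60 := Nat.div_le_self _ _
    rw [← mul_pow, ord_pow]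
    omega
  · obtain ⟨T, hT⟩ := exists_sum_ram hx h hirr
    obtain ⟨Φ, h1, h2, h3⟩ := hx.fix.exists_del h 60 T _ (trunc_sum T _ one_le_ram hT)
    refine ⟨x, Φ, hx, h1, fun q => ?_⟩
    have h4 : 60 / min q.ram 6 ≤ 60 := Nat.div_le_self _ _
    by_cases hq : q ∈ T
    · have := h2 q hq
      rw [del] at this
      omega
    · have := h3 q hq
      rw [del] at this
      omega

end Pool.Agent.Lib.MP_e06174_ag
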