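import Pool.Agent.Lib.MP_e06174_ag.Trace

/-! Filtration by the order of vanishing; functions with a single simple pole. -/

set_option linter.unusedSectionVars false

open Polynomial IntermediateField Module

namespace Pool.Agent.Lib.MP_e06174_ag

open Place

variable {k F : Type*} [Field k] [Field F] [Algebra k F]

/-- Elements vanishing to order at least `n`. -/
def Place.fil (p : Place k F) (n : ℤ) : Submodule k F where
  carrier := {y | p.Ge n y}
  zero_mem' := ge_zero n
  add_mem' := Ge.add
  smul_mem' := fun c _ hy => Ge.smul hy c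

lemma Place.mem_fil {p : Place k F} {n : ℤ} {y : F} : y ∈ p.fil n ↔ p.Ge n y := Iff.rfl

lemma Place.At.add {p : Place k F} {y z : F} {a b : k} (hy : p.At y a) (hz : p.At z b) :
    p.At (y + z) (a + b) := by
  have := Ge.add hy hz
  rwa [sub_add_sub_comm, ← map_add] at this

lemma Place.At.smul {p : Place k F} {y : F} {a : k} (hy : p.At y a) (c : k) :
    p.At (c • y) (c * a) := by
  have := Ge.smul hy c
  rwa [smul_sub, Algebra.smul_def c (algebraMap k F a), ← map_mul] at this

lemma Place.At.mul {p : Place k F} {y z : F} {a b : k} (hy : p.At y a) (hz : p.At z b) :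
    p.At (y * z) (a * b) := by
  have h1 := (Ge.mul' hy hz.ge_zero (l := 1) (by simp)).add
    (Ge.mul' (ge_const a) hz (l := 1) (by simp))
  rw [At, map_mul]
  convert h1 using 1; ring

lemma Place.at_const (p : Place k F) (c : k) : p.At (algebraMap k F c) c := by simp [At]

lemma Place.at_zero_iff {p : Place k F} {y : F} : p.At y 0 ↔ p.Ge 1 y := by simp [At]

variable [CharZero k] [IsAlgClosed k] {x : F}

/-- The residue map on the valuation ring. -/
noncomputable def IsCoord.res (h : IsCoord k x) (p : Place k F) : p.fil 0 →ₗ[k] k where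
  toFun y := p.cen y
  map_add' y z := ((h.at_cen y.2).add (h.at_cen z.2)).cen_eq
  map_smul' c y := ((h.at_cen y.2).smul c).cen_eq

lemma IsCoord.res_apply (h : IsCoord k x) (p : Place k F) (y : p.fil 0) :
    h.res p y = p.cen y := rfl

lemma IsCoord.finrank_le_succ (h : IsCoord k x) (p : Place k F) (n : ℤ) (V : Submodule k F)
    [FiniteDimensional k V] (hV : V ≤ p.fil n) :
    finrank k V ≤ finrank k ↥(V ⊓ p.fil (n + 1)) + 1 := by
  obtain ⟨u, hu0, hu⟩ := p.exists_ord_eq (-n)
  let ψ : V →ₗ[k] p.fil 0 :=
    LinearMap.codRestrict _ ((LinearMap.mulLeft k u).comp V.subtype) fun y =>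
      Ge.mul' (ge_of_le hu.ge) (hV y.2) (by simp)
  let φ := (h.res p).comp ψ
  have h1 := φ.finrank_range_add_finrank_ker
  have h2 : finrank k (LinearMap.range φ) ≤ 1 := by
    simpa using Submodule.finrank_le (LinearMap.range φ)
  have h3 : (LinearMap.ker φ).map V.subtype ≤ V ⊓ p.fil (n + 1) := by
    rintro _ ⟨y, hy, rfl⟩
    refine ⟨y.2, ?_⟩
    have h4 : p.cen (u * y) = 0 := hy
    have h5 := h.at_cen (ψ y).2
    change p.At (u * y) (p.cen (u * y)) at h5
    rw [h4, at_zero_iff] at h5
    have h6 := Ge.mul' (ge_of_le (p := p) (n := n) (x := u⁻¹) (by simp [hu])) h5 (l := n + 1) le_rfl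
    rwa [inv_mul_cancel_left₀ hu0] at h6
  have h4 := Submodule.finrank_mono h3
  rw [Submodule.finrank_map_subtype_eq] at h4
  omega

lemma IsCoord.exists_vanish (h : IsCoord k x) (p : Place k F) (j : ℕ) (n : ℤ) (V : Submodule k F)
    [FiniteDimensional k V] (hV : V ≤ p.fil n) (hj : j + 1 ≤ finrank k V) :
    ∃ f ∈ V, f ≠ 0 ∧ p.Ge (n + j) f := by
  induction j generalizing n V with
  | zero =>
    have : V ≠ ⊥ := by
      rintro rfl
      simp at hj
    obtain ⟨f, hf, hf0⟩ := Submodule.exists_mem_ne_zero_of_ne_bot this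
    exact ⟨f, hf, hf0, by simpa using mem_fil.1 (hV hf)⟩
  | succ j ih =>
    have h1 := h.finrank_le_succ p n V hV
    obtain ⟨f, hf, hf0, hf'⟩ := ih (n + 1) (V ⊓ p.fil (n + 1)) inf_le_right (by omega)
    exact ⟨f, hf.1, hf0, hf'.mono (by push_cast; omega)⟩

section setting

variable [Algebra k[X] F] [IsScalarTower k k[X] F] [Algebra (RatFunc k) F]
  [IsScalarTower k[X] (RatFunc k) F] [IsScalarTower k (RatFunc k) F]
  [FiniteDimensional (RatFunc k) F]

lemma isIntegral_iff_forall {y : F} :
    IsIntegral k[X] y ↔ ∀ p : Place k F, p.Ge 0 (algebraMap k[X] F X) → p.Ge 0 y := by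
  refine ⟨fun hy p hp => ge_zero_of_isIntegral p (fun P => ?_) hy, fun hy => ?_⟩
  · rw [alg_eq_aeval]; exact hp.aeval P
  · have hk : ∀ c : k, ∃ r : FunctionField.ringOfIntegers k F,
        algebraMap _ F r = algebraMap k F c := fun c => ⟨algebraMap k[X] _ (C c), by
          rw [← IsScalarTower.algebraMap_apply, IsScalarTower.algebraMap_apply k k[X] F]; rfl⟩
    obtain ⟨r, rfl⟩ := mem_range_of_forall_ge hk y fun P => hy _ (by
      rw [IsScalarTower.algebraMap_apply k[X] (FunctionField.ringOfIntegers k F) F]
      exact ofPrime_ge_zero hk P _)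
    exact r.2

lemma exists_integral_multiple (y : F) :
    ∃ q : k[X], q ≠ 0 ∧ IsIntegral k[X] (algebraMap k[X] F q * y) := by
  have h1 : IsAlgebraic k[X] y := (IsFractionRing.isAlgebraic_iff k[X] (RatFunc k) F).2
    (Algebra.IsAlgebraic.isAlgebraic y)
  obtain ⟨q, hq, h2⟩ := h1.exists_integral_multiple
  exact ⟨q, hq, by rwa [← Algebra.smul_def]⟩

end setting

lemma IsCoord.exists_multiple (h : IsCoord k x) (y : F) :
    ∃ q : k[X], q ≠ 0 ∧ ∀ p : Place k F, p.Ge 0 x → p.Ge 0 (aeval x q * y) := by
  obtain ⟨_, _, _, _, _, _, rfl, -⟩ := h.setup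
  obtain ⟨q, hq, h2⟩ := exists_integral_multiple (k := k) y
  exact ⟨q, hq, by rw [← alg_eq_aeval]; exact isIntegral_iff_forall.1 h2⟩

/-- A function with a single simple pole generates the function field. -/
lemma IsCoord.gen_of_simple_pole (h : IsCoord k x) {w : Place k F} (hw : w.ord x = -1)
    (hx : ∀ p : Place k F, p ≠ w → p.Ge 0 x) : k⟮x⟯ = ⊤ := by
  have h0 := ne_zero_of_transcendental h.trans
  have key : ∀ (m : ℕ) (y : F), w.Ge (-m) y → (∀ p : Place k F, p ≠ w → p.Ge 0 y) →
      y ∈ k⟮x⟯ := by
    intro m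
    induction m with
    | zero =>
      intro y hy hy'
      obtain ⟨c, rfl⟩ := h.const_of_forall_ge (y := y) fun p => by
        by_cases hp : p = w
        · subst hp; simpa using hy
        · exact hy' p hp
      exact IntermediateField.algebraMap_mem _ c
    | succ m ih =>
      intro y hy hy'
      have h1 : w.Ge 0 (y * (x ^ (m + 1))⁻¹) :=
        hy.mul' (ge_of_le (n := m + 1) (by simp [hw])) (by push_cast; omega)
      have h2 := h.at_cen h1
      set c := w.cen (y * (x ^ (m + 1))⁻¹)
      have h3 : w.Ge (-m) (y - algebraMap k F c * x ^ (m + 1)) := by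
        have := Ge.mul' h2 (ge_ord (x ^ (m + 1))) (l := -m) (by simp [hw])
        convert this using 1
        field_simp
      have h4 := ih _ h3 fun p hp => (hy' p hp).sub
        ((ge_const c).mul' ((hx p hp).pow (m + 1)) (by simp))
      have h5 : algebraMap k F c * x ^ (m + 1) ∈ k⟮x⟯ :=
        mul_mem (IntermediateField.algebraMap_mem _ c) (pow_mem (mem_adjoin_simple_self k x) _)
      simpa using add_mem h4 h5
  rw [eq_top_iff]
  intro y _
  obtain ⟨q, hq, h2⟩ := h.exists_multiple y
  have h3 := key (w.ord (aeval x q * y)).natAbs _ (ge_of_le (by omega))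
    fun p hp => h2 p (hx p hp)
  have h4 : aeval x q ∈ k⟮x⟯ := (mem_adjoin_simple_iff k _).2 ⟨q, 1, by simp⟩
  have := mul_mem (inv_mem h4) h3
  rwa [inv_mul_cancel_left₀ (aeval_ne_zero h.trans hq)] at this

/-- On an irrational curve, `ℓ(D) ≤ max 1 (deg D)` for effective `D`. -/
lemma IsCoord.finrank_le_of_irrational (h : IsCoord k x) (hirr : ∀ t : F, k⟮t⟯ ≠ ⊤)
    (T : Finset (Place k F)) (s : ℕ) (n : Place k F → ℕ) (hs : ∑ p ∈ T, n p = s)
    (V : Submodule k F) [FiniteDimensional k V] (hV : ∀ y ∈ V, ∀ p, p ∉ T → p.Ge 0 y)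
    (hV' : ∀ y ∈ V, ∀ p ∈ T, p.Ge (-n p) y) : finrank k V ≤ max 1 s := by
  classical
  induction s generalizing n V with
  | zero =>
    have h1 : V ≤ k ∙ (1 : F) := by
      intro y hy
      obtain ⟨c, rfl⟩ := h.const_of_forall_ge (y := y) fun p => by
        by_cases hp : p ∈ T
        · have := Finset.sum_eq_zero_iff.1 hs p hp
          simpa [this] using hV' y hy p hp
        · exact hV y hy p hp
      exact Submodule.mem_span_singleton.2 ⟨c, (Algebra.algebraMap_eq_smul_one c).symm⟩
    have := Submodule.finrank_mono h1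
    rw [finrank_span_singleton one_ne_zero] at this
    omega
  | succ s ih =>
    obtain ⟨w, hw, hwn⟩ : ∃ w ∈ T, n w ≠ 0 := by
      by_contra h1
      push Not at h1
      rw [Finset.sum_eq_zero h1] at hs
      omega
    have hsum := Finset.add_sum_erase T n hw
    by_cases hs0 : s = 0
    · subst hs0
      have hw1 : n w = 1 := by omega
      have hother : ∀ p ∈ T, p ≠ w → n p = 0 := fun p hp hne =>
        Finset.sum_eq_zero_iff.1 (show ∑ p ∈ T.erase w, n p = 0 by omega) p
          (Finset.mem_erase.2 ⟨hne, hp⟩)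
      have h1 : V ≤ k ∙ (1 : F) := by
        intro y hy
        have hreg : ∀ p : Place k F, p ≠ w → p.Ge 0 y := fun p hne => by
          by_cases hp : p ∈ T
          · simpa [hother p hp hne] using hV' y hy p hp
          · exact hV y hy p hp
        have hwy : w.Ge 0 y := by
          by_contra h2
          rw [not_ge_iff] at h2
          have h3 := (hV' y hy w hw).le h2.1
          have h4 : Transcendental k y := transcendental_of_ne_const fun c hc => by
            rw [hc] at h2; simp at h2
          exact hirr y ((h.of_transcendental h4).gen_of_simple_pole (w := w) (by omega) hreg)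
        obtain ⟨c, rfl⟩ := h.const_of_forall_ge (y := y) fun p => by
          by_cases hp : p = w
          · rwa [hp]
          · exact hreg p hp
        exact Submodule.mem_span_singleton.2 ⟨c, (Algebra.algebraMap_eq_smul_one c).symm⟩
      have := Submodule.finrank_mono h1
      rw [finrank_span_singleton one_ne_zero] at this
      omega
    · have h1 := h.finrank_le_succ w (-n w) V fun y hy => hV' y hy w hw
      have h2 := ih (Function.update n w (n w - 1)) (by
          rw [← Finset.add_sum_erase T _ hw, Function.update_self,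
            Finset.sum_congr rfl fun p hp => Function.update_of_ne (Finset.mem_erase.1 hp).1 _ _]
          omega) (V ⊓ w.fil (-n w + 1)) (fun y hy => hV y hy.1) fun y hy p hp => by
        by_cases hpw : p = w
        · subst hpw
          rw [Function.update_self]
          exact Ge.mono hy.2 (by omega)
        · rw [Function.update_of_ne hpw]; exact hV' y hy.1 p hp
      omega

end Pool.Agent.Lib.MP_e06174_ag
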