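import Pool.Agent.Lib.MP_e06174_ag.Ell
import Pool.Agent.Lib.MP_e06174_ag.Cubic

/-! Quotients of products of five curves. -/

set_option linter.unusedSectionVars false

open Polynomial IntermediateField Module MulAction

namespace Pool.Agent.Lib.MP_e06174_ag

open Place

section factor

variable {k F G : Type*} [Field k] [Field F] [Algebra k F] [CharZero k] [IsAlgClosed k]
  [Group G] [Finite G] [MulSemiringAction G F] [SMulCommClass G k F] [FaithfulSMul G F]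
  {x : Fix k F G}

lemma TA.eq_ram {P : ℕ → Prop} (hA : TA k F G P) {q : Place k (Fix k F G)} (hq : 6 ≤ q.ram) :
    TA k F G (· = q.ram) := by
  obtain ⟨a, b, c, ht, ha, hb, hc⟩ := hA
  rcases ht.cases q with rfl | rfl | rfl | ⟨-, -, -, h⟩
  · omega
  · omega
  · exact ⟨a, b, q, ht, ha, hb, rfl⟩
  · omega

lemma TA.exists_adm (hA : TA k F G (6 ≤ ·)) (h : IsCoord k (x : F)) (hgen : k⟮x⟯ = ⊤) :
    ∃ Φ, Adm x Φ 12 2 := by
  obtain ⟨a, b, c, ht, ha, hb, hc⟩ := hA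
  exact (ht.exists_adm h hgen (na := 6) (nb := 4) (nc := 2) (by omega) (by omega) (by omega)
    (by omega)).imp fun _ h => h.1

lemma TB.exists_adm (hB : TB k F G) (h : IsCoord k (x : F)) (hgen : k⟮x⟯ = ⊤) :
    ∃ Φ, Adm x Φ 12 3 := by
  obtain ⟨a, b, c, ht, ha, hb, hc⟩ := hB
  exact (ht.exists_adm h hgen (na := 6) (nb := 3) (nc := 3) (by omega) (by omega) (by omega)
    (by omega)).imp fun _ h => h.1

lemma Adm.mono {Φ : Fix k F G} {m a b : ℕ} (h : Adm x Φ m a) (hab : b ≤ a) : Adm x Φ m b :=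
  ⟨h.1, fun q => ⟨(h.2 q).1, fun hq => by have := (h.2 q).2 hq; omega⟩⟩

lemma TB.exists_adm_four (hB : TB k F G) (h : IsCoord k (x : F)) (hgen : k⟮x⟯ = ⊤) {y : F}
    (hy : y ≠ 0) (Ψ : Fix k F G) (hΨ : (Ψ : F) = y ^ 6) {q₀ : Place k (Fix k F G)}
    (h0 : q₀.ram = 6) (h1 : q₀.ord Ψ % 3 = 1) : ∃ Φ, Adm x Φ 12 2 ∧
      ∀ q : Place k (Fix k F G), q.ram = 6 → q.ord Ψ % 3 = 1 → 4 ≤ q.ord (Φ * q.loc x ^ 12) := by
  classical
  obtain ⟨a, b, ht, ha, hb⟩ : ∃ a b, Tri a b q₀ ∧ a.ram = 2 ∧ 4 ≤ b.ram := by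
    obtain ⟨a, b, c, ht, ha, hb, hc⟩ := hB
    rcases ht.cases q₀ with rfl | rfl | rfl | ⟨-, -, -, h⟩
    · omega
    · exact ⟨a, c, ht.swap₂, ha, by omega⟩
    · exact ⟨a, b, ht, ha, hb⟩
    · omega
  have h2 : ∀ q : Place k (Fix k F G), ¬ 3 ∣ q.ram → 3 ∣ q.ord Ψ := fun q hq => by
    obtain ⟨p, hp⟩ := q.exists_over_ram
    have h2 := hp.2 Ψ
    rw [IntermediateField.coe_val, hΨ, ord_pow] at h2
    refine (Int.prime_three.dvd_or_dvd (a := q.ram) ⟨2 * p.ord y, by rw [← h2]; ring⟩).resolve_left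
      fun h3 => hq (by exact_mod_cast h3)
  have h3 : 3 ∣ b.ord Ψ + q₀.ord Ψ := by
    obtain ⟨T, hT, hs⟩ := h.fix.exists_sum_del hgen 0 (Φ := Ψ) fun h3 =>
      pow_ne_zero 6 hy (hΨ.symm.trans (congrArg Subtype.val h3))
    simp only [del, pow_zero, mul_one, Nat.cast_zero, sub_zero, mul_zero] at hT hs
    rw [Finset.sum_subset (Finset.subset_union_right (s₁ := {b, q₀})) fun q _ hq => hT q hq,
      ← Finset.sum_sdiff (Finset.subset_union_left (s₁ := {b, q₀})), Finset.sum_pair ht.bc] at hs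
    have h3 : 3 ∣ ∑ q ∈ ({b, q₀} ∪ T) \ {b, q₀}, q.ord Ψ := Finset.dvd_sum fun q hq => h2 q (by
      have h3 := (Finset.mem_sdiff.1 hq).2
      simp only [Finset.mem_insert, Finset.mem_singleton, not_or] at h3
      rcases ht.cases q with rfl | rfl | rfl | ⟨-, -, -, h⟩
      · omega
      · exact absurd rfl h3.1
      · exact absurd rfl h3.2
      · omega)
    omega
  have h4 : 3 ∣ b.ram := by_contra fun h4 => by have := h2 b h4; omega
  obtain ⟨Φ, h5, h6⟩ := ht.exists_adm h hgen (m := 12) (na := 6) (nb := 2) (nc := 4) (s := 2)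
    (by omega) (by omega) (by omega) (by omega)
  refine ⟨Φ, h5, fun q h7 h8 => ?_⟩
  rcases ht.cases q with rfl | rfl | rfl | ⟨-, -, -, h⟩
  · omega
  · omega
  · exact h6
  · omega

end factor

namespace Setup

variable {F : Fin 5 → Type} [∀ i, Field (F i)] [∀ i, Algebra ℂ (F i)]
  {G : Type} [Group G] [Finite G] [∀ i, MulSemiringAction G (F i)] [∀ i, SMulCommClass G ℂ (F i)]
  {K : Type} [Field K] [Algebra ℂ K] [MulSemiringAction G K] [SMulCommClass G ℂ K]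
  {ι : ∀ i, F i →ₐ[ℂ] K} (S : Setup G ι) [∀ i, FaithfulSMul G (F i)] [FaithfulSMul G K]
include S

lemma exists_mark {i : Fin 5} (j : Fin 5) {x : Fix ℂ (F i) G} (hx : IsCoord ℂ (x : F i))
    {f : F i} (hf0 : f ≠ 0) (hf : ∀ p : Place ℂ (F i), p.ord (f * p.loc (x : F i)) = 1)
    (hf6 : ∀ g : G, g • f ^ 6 = f ^ 6) : ∃ (y : F j) (Ψ : Fix ℂ (F j) G), y ≠ 0 ∧
      (Ψ : F j) = y ^ 6 ∧ ∀ L : S.Loc, L.e = 6 → (∀ l, L.d l = 1) → (L.q j).ord Ψ % 3 = 1 := by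
  obtain ⟨χ, hχ, -⟩ := exists_character hx hf0 hf
  obtain ⟨y, hy0, hy⟩ := exists_eigen (F := F j) χ
  have h6 : ∀ g, χ g ^ 6 = 1 := fun g => by
    have h6 := hf6 g
    rw [smul_pow', hχ, mul_pow, mul_eq_right₀ (pow_ne_zero _ hf0), ← map_pow] at h6
    exact (algebraMap ℂ (F i)).injective (h6.trans (map_one _).symm)
  refine ⟨y, ⟨y ^ 6, mem_fix.2 fun g => by
    rw [smul_pow', hy, mul_pow, ← map_pow, h6, map_one, one_mul]⟩, hy0, rfl, fun L he hd => ?_⟩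
  have h0 : f * (L.p i).loc (x : F i) ≠ 0 := mul_ne_zero hf0 (loc_ne_zero hx.trans)
  have h1 := L.hw.2 ⟨ι j y / ι i (f * (L.p i).loc (x : F i)), mem_fix.2 fun g => by
    have h1 : algebraMap ℂ K (χ g) ≠ 0 :=
      (_root_.map_ne_zero _).2 ((Group.isUnit g).map χ).ne_zero
    rw [smul_div₀', S.equiv, S.equiv, smul_mul', smul_loc_eq (smul_fix _ _), hχ, hy, mul_assoc,
      map_mul, map_mul (ι i) (algebraMap ℂ _ _), AlgHom.commutes, AlgHom.commutes,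
      mul_div_mul_left _ _ h1]⟩
  have h2 := (L.hq j).2 ⟨y ^ 6, mem_fix.2 fun g => by
    rw [smul_pow', hy, mul_pow, ← map_pow, h6, map_one, one_mul]⟩
  simp only [IntermediateField.coe_val, ord_pow] at h1 h2
  rw [L.w.ord_div ((_root_.map_ne_zero _).2 hy0) ((_root_.map_ne_zero _).2 h0), (L.hp j).2,
    (L.hp i).2, hf, (L.base (hd i)).1, (L.base (hd j)).1, he] at h1
  rw [(L.base (hd j)).2, he] at h2
  omega

theorem uniruled_of_loc (x : ∀ i, Fix ℂ (F i) G) (hx : ∀ i, IsCoord ℂ (x i : F i))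
    (f : ∀ i, F i) (hf0 : ∀ i, f i ≠ 0)
    (hf : ∀ i (p : Place ℂ (F i)), p.ord (f i * p.loc (x i : F i)) = 1) (L : S.Loc)
    (he : L.e = 6) (hd : ∀ l, L.d l = 1) : Uniruled ℂ (Fix ℂ K G) := by
  have hH : Nat.card (L.w.inertia G) = 6 := L.card.trans he
  choose X Y hXY hX hgen hχ using fun i => exists_weierstrass (F := F i) hH (p := L.p i)
    (fun g => L.le_stab i g.2) (x := ⟨x i, mem_fix.2 fun g => smul_fix (g : G) (x i)⟩) (hx i)
    (hf0 i) (hf i)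
  replace hχ : ∀ i (g : L.w.inertia G),
      algebraMap ℂ K ((L.p 0).chi (g : G)) ^ 2 * g • ι i (X i) = ι i (X i) ∧
      algebraMap ℂ K ((L.p 0).chi (g : G)) ^ 3 * g • ι i (Y i) = ι i (Y i) := fun i g => by
    have h1 := (L.chi_eq (hd 0) (L.le_stab 0 g.2) i).2
    rw [(L.base (hd i)).1, pow_one] at h1
    rw [← h1, Subgroup.smul_def, Subgroup.smul_def, S.equiv, S.equiv, ← (ι i).commutes,
      ← map_pow (ι i), ← map_pow (ι i), ← map_mul, ← map_mul]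
    exact ⟨congrArg _ (hχ i g).1, congrArg _ (hχ i g).2⟩
  have hXY' : ∀ i, ι i (Y i) ^ 2 = ι i (X i) ^ 3 - 27 := fun i => by
    rw [← map_pow, hXY, map_sub, map_pow, map_ofNat]
  have hX0 : ι 0 (X 0) ≠ 0 := (_root_.map_ne_zero _).2 (ne_zero_of_transcendental (hX 0))
  have hY0 : ι 0 (Y 0) ≠ 0 := (_root_.map_ne_zero _).2 fun h => by
    have h1 := hXY 0
    rw [h, zero_pow two_ne_zero, ← map_ofNat (algebraMap ℂ (F 0))] at h1
    exact sub_const_ne_zero ((hX 0).pow three_pos) _ h1.symm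
  refine uniruled_of_weierstrass (Fix ℂ K G).val S.trdeg_fix _ _ hXY'
    (S.algebraicIndependent X hX) fun a => ?_
  set z := ι 0 (X 0) / ι 0 (Y 0) with hz
  have hz0 : z ≠ 0 := div_ne_zero hX0 hY0
  set E := adjoin ℂ (Set.range (fun i => ι i (X i) * z ^ 2) ∪ Set.range fun i => ι i (Y i) * z ^ 3)
  have hA : ∀ i, ι i (X i) * z ^ 2 ∈ E := fun i => subset_adjoin _ _ (Or.inl ⟨i, rfl⟩)
  have hB : ∀ i, ι i (Y i) * z ^ 3 ∈ E := fun i => subset_adjoin _ _ (Or.inr ⟨i, rfl⟩)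
  refine fix_le_of_pow (G := L.w.inertia G) E (adjoin_le_iff.2 ?_) (z := z) ?_ ?_
    (mem_fix.2 fun g => smul_fix (g : G) a)
  · have h1 : ∀ g : L.w.inertia G, g • z = algebraMap ℂ K ((L.p 0).chi (g : G)) * z := fun g => by
      have h1 : algebraMap ℂ K ((L.p 0).chi (g : G)) ≠ 0 :=
        (_root_.map_ne_zero _).2 ((hx 0).chi_ne_zero (L.le_stab 0 g.2))
      rw [hz, smul_div₀']
      conv_rhs => rw [← (hχ 0 g).1, ← (hχ 0 g).2]
      field_simp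
    rintro _ (⟨i, rfl⟩ | ⟨i, rfl⟩) <;> refine mem_fix.2 fun g => ?_ <;>
      rw [smul_mul', smul_pow', h1]
    · linear_combination z ^ 2 * (hχ i g).1
    · linear_combination z ^ 3 * (hχ i g).2
  · rw [hH]
    convert div_mem (sub_mem (_root_.pow_mem (hA 0) 3) (_root_.pow_mem (hB 0) 2))
      (ofNat_mem E 27) using 1
    have : CharZero K := charZero_of_injective_algebraMap (algebraMap ℂ K).injective
    linear_combination z ^ 6 / 27 * hXY' 0
  · refine top_le_iff.1 fun b _ => ?_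
    refine (adjoin_le_iff (T := E⟮z⟯.restrictScalars ℂ)).2 ?_ (S.gen ▸ mem_top)
    rintro b hb
    obtain ⟨i, b, rfl⟩ := Set.mem_iUnion.1 hb
    have h1 : ∀ y ∈ E, y ∈ E⟮z⟯ := fun y hy => IntermediateField.algebraMap_mem _ (⟨y, hy⟩ : E)
    have h2 := mem_adjoin_simple_self E z
    refine (adjoin_le_iff (T := comap (ι i) (E⟮z⟯.restrictScalars ℂ))).2 ?_ (hgen i ▸ mem_top)
    rintro _ (rfl | rfl)
    · have := div_mem (h1 _ (hA i)) (_root_.pow_mem h2 2)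
      rwa [mul_div_cancel_right₀ _ (pow_ne_zero _ hz0)] at this
    · have := div_mem (h1 _ (hB i)) (_root_.pow_mem h2 3)
      rwa [mul_div_cancel_right₀ _ (pow_ne_zero _ hz0)] at this

theorem ell (x : ∀ i, Fix ℂ (F i) G) (hx : ∀ i, IsCoord ℂ (x i : F i))
    (hgen : ∀ i, ℂ⟮x i⟯ = ⊤) (hirr : ∀ i (t : F i), ℂ⟮t⟯ ≠ ⊤) (j : Fin 5)
    (hA : ∀ i, i ≠ j → TA ℂ (F i) G (6 ≤ ·)) (hj : TA ℂ (F j) G (6 ≤ ·) ∨ TB ℂ (F j) G)
    {i₁ : Fin 5} (h1 : TA ℂ (F i₁) G (· = 6)) (hκ : KodairaNegInf ℂ (Fix ℂ K G) 5) :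
    Uniruled ℂ (Fix ℂ K G) := by
  classical
  have he : ∀ L : S.Loc, 6 ≤ L.e → L.e = 6 := fun L hL =>
    le_antisymm ((L.le_ram i₁).trans (h1.big (hL.trans (L.le_ram i₁))).le) hL
  have key : ∀ Φ : ∀ i, Fix ℂ (F i) G, (∀ i, Adm (x i) (Φ i) 12 2) →
      (∀ L : S.Loc, L.e = 6 → (∀ l, L.d l = 1) →
        4 ≤ (L.q j).ord (Φ j * (L.q j).loc (x j) ^ 12)) → False := fun Φ hΦ h2 => by
    refine S.easy x Φ hx (by omega) _ hΦ (fun L hL => ?_) hκ
    have h3 : ∀ i, 2 ≤ (L.q i).ord (Φ i * (L.q i).loc (x i) ^ 12) := fun i =>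
      ((hΦ i).2 _).2 (hL.trans (L.le_ram i))
    have h4 : ∀ i, 2 ≤ L.d i * (L.q i).ord (Φ i * (L.q i).loc (x i) ^ 12) := fun i => by
      have : (1 : ℤ) ≤ L.d i := by exact_mod_cast L.one_le_d i
      nlinarith [h3 i]
    obtain ⟨l, hl⟩ : ∃ l, 4 ≤ L.d l * (L.q l).ord (Φ l * (L.q l).loc (x l) ^ 12) := by
      by_cases h5 : ∀ l, L.d l = 1
      · exact ⟨j, by simpa [h5] using h2 L (he L hL) h5⟩
      · obtain ⟨l, hl⟩ := not_forall.1 h5
        have := L.one_le_d l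
        have : (2 : ℤ) ≤ L.d l := by omega
        exact ⟨l, by nlinarith [h3 l]⟩
    rw [Fin.sum_univ_succAbove _ l]
    have := Finset.card_nsmul_le_sum Finset.univ _ _ fun i (_ : i ∈ Finset.univ) =>
      h4 (l.succAbove i)
    simp only [Finset.card_univ, Fintype.card_fin, nsmul_eq_mul] at this
    omega
  have hΦ : ∀ i, ∃ Φ, Adm (x i) Φ 12 2 := fun i => by
    by_cases hi : i = j
    · subst hi
      exact hj.elim (fun h => h.exists_adm (hx i) (hgen i)) fun h =>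
        (h.exists_adm (hx i) (hgen i)).imp fun _ h => h.mono (by omega)
    · exact (hA i hi).exists_adm (hx i) (hgen i)
  choose Φ hΦ using hΦ
  obtain ⟨L, hL, hd⟩ : ∃ L : S.Loc, L.e = 6 ∧ ∀ l, L.d l = 1 := by
    by_contra h2
    exact key Φ hΦ fun L h3 h4 => absurd ⟨L, h3, h4⟩ h2
  have hr : ∀ (L : S.Loc) i, L.e = 6 → (∀ l, L.d l = 1) → (L.q i).ram = 6 := fun L i hL hd =>
    (L.base (hd i)).2.trans hL
  rcases hj with hj | hj
  · have h2 : ∀ i, TA ℂ (F i) G (· = 6) := fun i => by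
      rw [← hr L i hL hd]
      by_cases hi : i = j
      · exact (hi ▸ hj).eq_ram (hr L i hL hd).ge
      · exact (hA i hi).eq_ram (hr L i hL hd).ge
    choose f hf0 hf _ using fun i => (h2 i).exists_form (hx i) (hgen i) (hirr i)
    exact S.uniruled_of_loc x hx f hf0 hf L hL hd
  · obtain ⟨f, hf0, hf, hf6⟩ := h1.exists_form (hx i₁) (hgen i₁) (hirr i₁)
    obtain ⟨y, Ψ, hy, hΨ, h2⟩ := S.exists_mark j (hx i₁) hf0 hf hf6
    obtain ⟨Φ', h3, h4⟩ := hj.exists_adm_four (hx j) (hgen j) hy Ψ hΨ (hr L j hL hd) (h2 L hL hd)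
    refine (key (Function.update Φ j Φ') (fun i => ?_) fun L hL hd => ?_).elim
    · by_cases hi : i = j
      · subst hi; rwa [Function.update_self]
      · rw [Function.update_of_ne hi]; exact hΦ i
    · rw [Function.update_self]
      exact h4 _ (hr L j hL hd) (h2 L hL hd)

omit [FaithfulSMul G K] in
theorem five (hκ : KodairaNegInf ℂ (Fix ℂ K G) 5) : Uniruled ℂ (Fix ℂ K G) := by
  classical
  by_contra hu
  have hirr : ∀ i (t : F i), ℂ⟮t⟯ ≠ ⊤ := fun i t ht => hu (S.uniruled_of_rational ht)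
  have := S.faithful fun g hg => ⟨0, by
    by_contra h
    push Not at h
    exact hg (faithfulSMul_iff.1 (inferInstanceAs (FaithfulSMul G (F 0))) g h)⟩
  choose y hy using S.coord
  choose x hx hc using fun i => classify G (hy i) (hirr i)
  have h1 : ∀ i, ∃ (a : ℕ) (Φ : Fix ℂ (F i) G), Adm (x i) Φ 12 a ∧ 2 ≤ a ∧
      (a ≤ 3 → ℂ⟮x i⟯ = ⊤ ∧ (TA ℂ (F i) G (6 ≤ ·) ∨ TB ℂ (F i) G)) ∧
      (a = 2 → TA ℂ (F i) G (6 ≤ ·)) := fun i => by
    obtain ⟨Φ, h⟩ | ⟨hgen, a, b, c, ht, ha, hc, hb | hb⟩ := hc i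
    · exact ⟨4, Φ, h, by omega, by omega, by omega⟩
    · have h : TA ℂ (F i) G (6 ≤ ·) := ⟨a, b, c, ht, ha, hb, hc⟩
      obtain ⟨Φ, h'⟩ := h.exists_adm (hx i) hgen
      exact ⟨2, Φ, h', le_rfl, fun _ => ⟨hgen, Or.inl h⟩, fun _ => h⟩
    · have h : TB ℂ (F i) G := ⟨a, b, c, ht, ha, hb, hc⟩
      obtain ⟨Φ, h'⟩ := h.exists_adm (hx i) hgen
      exact ⟨3, Φ, h', by omega, fun _ => ⟨hgen, Or.inr h⟩, by omega⟩
  choose a Φ hΦ h2 h3 h4 using h1
  have h5 : ∑ i, a i < 12 := by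
    by_contra h5
    refine S.easy x Φ hx (by omega) a hΦ (fun L hL => ?_) hκ
    refine le_trans (by exact_mod_cast not_lt.1 h5 : ((12 : ℕ) : ℤ) ≤ ∑ i, (a i : ℤ))
      (Finset.sum_le_sum fun i _ => ?_)
    have h6 := ((hΦ i).2 _).2 (hL.trans (L.le_ram i))
    have : (1 : ℤ) ≤ L.d i := by exact_mod_cast L.one_le_d i
    have := h2 i
    nlinarith
  obtain ⟨j, hj, hj'⟩ : ∃ j, a j ≤ 3 ∧ ∀ i, i ≠ j → a i = 2 := by
    have := h2 0
    have := h2 1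
    have := h2 2
    have := h2 3
    have := h2 4
    simp only [Fin.sum_univ_five] at h5
    simp only [Fin.exists_fin_succ, Fin.forall_fin_succ]
    simp
    omega
  have hgen : ∀ i, ℂ⟮x i⟯ = ⊤ := fun i => (h3 i (by
    by_cases hi : i = j
    · exact hi ▸ hj
    · have := hj' i hi; omega)).1
  have hA : ∀ i, i ≠ j → TA ℂ (F i) G (6 ≤ ·) := fun i hi => h4 i (hj' i hi)
  by_cases h6 : ∃ i, TA ℂ (F i) G (· = 6)
  · exact hu (S.ell x hx hgen hirr j hA (h3 j hj).2 h6.choose_spec hκ)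
  have h7 : ∀ i, TA ℂ (F i) G (6 ≤ ·) → TA ℂ (F i) G (7 ≤ ·) := by
    rintro i ⟨a, b, c, ht, ha, hb, hc⟩
    exact ⟨a, b, c, ht, ha, hb, by
      by_contra h7
      exact h6 ⟨i, a, b, c, ht, ha, hb, by omega⟩⟩
  exact S.nonell x hx hgen j (fun i hi => h7 i (hA i hi)) ((h3 j hj).2.imp_left (h7 j)) hκ

end Setup

end Pool.Agent.Lib.MP_e06174_ag
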