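import Pool.Agent.Lib.MP_e06174_ag.PluF

/-! Discriminant forms for central extensions of the tetrahedral and octahedral groups. -/

set_option linter.unusedSectionVars false

open IntermediateField MulAction

namespace Pool.Agent.Lib.MP_e06174_ag

open Place Subgroup

section factor

variable {F G : Type} [Field F] [Algebra ℂ F] [Group G] [Finite G] [MulSemiringAction G F]
  [SMulCommClass G ℂ F] [FaithfulSMul G F] {x : Fix ℂ F G} {p : Place ℂ F}

lemma TA.big_eq {P : ℕ → Prop} (hA : TA ℂ F G P) {q q' : Place ℂ (Fix ℂ F G)} (hq : 4 ≤ q.ram)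
    (hq' : 4 ≤ q'.ram) : q = q' := by
  obtain ⟨a, b, c, ht, ha, hb, -⟩ := hA
  have key : ∀ q : Place ℂ (Fix ℂ F G), 4 ≤ q.ram → q = c := fun q hq => by
    rcases ht.cases q with rfl | rfl | rfl | ⟨-, -, -, h⟩
    · omega
    · omega
    · rfl
    · omega
  rw [key q hq, key q' hq']

lemma TA.exists_tri {P : ℕ → Prop} (hA : TA ℂ F G P) {q : Place ℂ (Fix ℂ F G)} (hq : 4 ≤ q.ram) :
    ∃ a b : Place ℂ (Fix ℂ F G), Tri a b q ∧ a.ram = 2 ∧ b.ram = 3 := by
  obtain ⟨a, b, c, ht, ha, hb, -⟩ := hA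
  rcases ht.cases q with rfl | rfl | rfl | ⟨-, -, -, h⟩
  · omega
  · omega
  · exact ⟨a, b, ht, ha, hb⟩
  · omega

open Classical in
theorem TA.exists_uW {P : ℕ → Prop} (hA : TA ℂ F G P) (h : IsCoord ℂ (x : F))
    (hgen : ℂ⟮x⟯ = ⊤) {q : Place ℂ (Fix ℂ F G)} (hp : p.Over (Fix ℂ F G).val q q.ram)
    (hq : 4 ≤ q.ram) {rb : ℕ} (hE : Exc (stabilizer G p) rb) {a : G} (ha : a ∈ stabilizer G p)
    (hβ : IsPrimitiveRoot (p.chi a ^ Nat.card (center G))⁻¹ rb) {f₀ : G → ℂ}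
    (h₁ : ∀ g ∉ stabilizer G p, f₀ (a⁻¹ * g) = (p.chi a ^ Nat.card (center G))⁻¹ * f₀ g)
    (h₁' : ∀ g ∉ stabilizer G p, ∀ g' ∉ stabilizer G p,
      f₀ g = f₀ g' ↔ g⁻¹ * g' ∈ stabilizer G p) {γ : ℂ} (hγ : ∀ g, f₀ g ≠ γ) :
    ∃ u W : F, Transcendental ℂ u ∧ W ≠ 0 ∧
      (∀ g : G, (g • p).Ge (Nat.card (center G))
        (u - algebraMap ℂ F (if g ∈ stabilizer G p then 0 else (f₀ g - γ)⁻¹))) ∧
      ∀ (P : Place ℂ F) (q : Place ℂ (Fix ℂ F G)), P.Over (Fix ℂ F G).val q q.ram →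
        P.Ge (q.ram * (if 5 ≤ q.ram then 6 * rb - 6 else 144 / q.ram : ℕ) +
          144 * (-P.ord u).toNat) (W * P.loc (x : F) ^ 144) := by
  obtain ⟨qa, qb, ht, hqa, hqb⟩ := hA.exists_tri hq
  have h2 : 2 ≤ rb ∧ (stabilizer G p).index ≤ rb + 2 := by
    rcases hE.cases with h2 | h2 <;> omega
  obtain ⟨t, ht1, ht2⟩ := ht.rational h hgen hqa hqb hp hE
  obtain ⟨v, f, hv, hv', h3, h4, h5, h6⟩ := exists_val h hE.le ht1 ht2 ha
    fun h3 => hβ.ne_one (by omega) (by rw [h3, inv_one])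
  obtain ⟨c, hc, h7⟩ := val_match (inv_mem ha) hβ h2.1 h2.2 h₁ h₁' h5 h6
  obtain ⟨hu, hu'⟩ := gen_of_mem (u := (c⁻¹ • v - algebraMap ℂ _ γ)⁻¹) hv hv' (by
    have := smul_mem _ (add_mem (inv_mem (mem_adjoin_simple_self ℂ
      (c⁻¹ • v - algebraMap ℂ _ γ)⁻¹)) (IntermediateField.algebraMap_mem _ γ)) (x := c)
    rwa [inv_inv, sub_add_cancel, smul_inv_smul₀ hc] at this)
  have h8 : (((c⁻¹ • v - algebraMap ℂ _ γ)⁻¹ : Fix ℂ F (center G)) : F) =
      (c⁻¹ • (v : F) - algebraMap ℂ F γ)⁻¹ := rfl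
  have h9 : ∀ g : G, (g • p).At (((c⁻¹ • v - algebraMap ℂ _ γ)⁻¹ : Fix ℂ F (center G)) : F)
      (if g ∈ stabilizer G p then 0 else (f₀ g - γ)⁻¹) := fun g => by
    rw [h8]
    split_ifs with hg
    · have h9 : p.ord (c⁻¹ • (v : F)) < 0 := by rwa [p.ord_smul (inv_ne_zero hc)]
      rw [hg, at_zero_iff]
      exact ge_of_le (by rw [ord_inv, ord_sub_const_of_pole h9]; omega)
    · refine At.inv ?_ (sub_ne_zero.2 (hγ g))
      have := ((h4 g hg).smul c⁻¹).add ((g • p).at_const (-γ))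
      rwa [h7 g hg, inv_mul_cancel_left₀ hc, map_neg, ← sub_eq_add_neg, ← sub_eq_add_neg] at this
  obtain ⟨W, hW, hW'⟩ := ht.exists_W h hqa hqb hp hE hu hu' fun g => (h9 g).ge_zero
  refine ⟨_, W, fun h10 => hu (IntermediateField.isAlgebraic_iff.2 h10), hW, fun g => ?_, hW'⟩
  obtain ⟨p', hp'⟩ := ht1.exists_under (g • p)
  have h10 := (hp'.ge_iff 1 _).2
    ((hp'.at_iff (x := (c⁻¹ • v - algebraMap ℂ _ γ)⁻¹) _).1 (h9 g))
  rwa [ram_center h (center_le_smul hE.le g) hp', mul_one, map_sub, AlgHom.commutes] at h10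

lemma TT.wt_other (hT : TT ℂ F G) (hA : ¬ TA ℂ F G (6 ≤ ·)) (h : IsCoord ℂ (x : F))
    (hgen : ℂ⟮x⟯ = ⊤) (s : ℕ) :
    ∃ nn, Wt x (12 * s) nn ∧ ∀ q : Place ℂ (Fix ℂ F G), 5 ≤ q.ram → 3 * s ≤ nn q := by
  rcases hT.cases with h1 | ⟨a, b, c, ht, ha, hb, hc⟩ | ⟨a, b, c, ht, ha, hb, hc⟩
  · exact absurd h1 hA
  · exact ht.wt' h hgen (na := 6 * s) (nb := 3 * s) (nc := 3 * s) (by omega) (by rw [ha]; omega)
      (by nlinarith) (by nlinarith) (fun q hq => by omega) (by omega) (by omega) (by omega)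
  · exact ht.wt' h hgen (na := 4 * s) (nb := 4 * s) (nc := 4 * s) (by omega) (by nlinarith)
      (by nlinarith) (by nlinarith) (fun q hq => by omega) (by omega) (by omega) (by omega)

end factor

namespace Setup

variable {F : Fin 4 → Type} [∀ i, Field (F i)] [∀ i, Algebra ℂ (F i)]
  {G : Type} [Group G] [Finite G] [∀ i, MulSemiringAction G (F i)] [∀ i, SMulCommClass G ℂ (F i)]
  {K : Type} [Field K] [Algebra ℂ K] [MulSemiringAction G K] [SMulCommClass G ℂ K]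
  {ι : ∀ i, F i →ₐ[ℂ] K} (S : Setup G ι) [∀ i, FaithfulSMul G (F i)] [FaithfulSMul G K]
include S

theorem plu_bound (x u W : ∀ i, F i) (A : Finset (Fin 4)) {m μ : ℕ}
    (hμ : (m : ℤ) = μ * (2 * (A.card - 1))) (nn : ∀ i, Place ℂ (Fix ℂ (F i) G) → ℕ)
    (hW : ∀ i (P : Place ℂ (F i)) (q : Place ℂ (Fix ℂ (F i) G)),
      P.Over (Fix ℂ (F i) G).val q q.ram → P.Ge (q.ram * nn i q +
        if i ∈ A then m * (-P.ord (u i)).toNat else 0) (W i * P.loc (x i) ^ m))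
    (w : Place ℂ K) (N : Fin 4 → ℕ) (hN : ∀ i, S.Bd nn w i (N i)) (t : Fin 4 → Fin 4 → ℕ)
    (ht : ∀ i ∈ A, ∀ j ∈ A.erase i,
      w.Ge (t i j - (-w.ord (ι i (u i))).toNat - (-w.ord (ι j (u j))).toNat)
        (ι i (u i) - ι j (u j))) :
    w.Ge (∑ i, N i + μ * ∑ i ∈ A, ∑ j ∈ A.erase i, t i j : ℕ)
      (((∏ i, ι i (W i)) * ∏ i ∈ A, ∏ j ∈ A.erase i, (ι i (u i) - ι j (u j)) ^ μ) *
        ∏ i, w.loc (ι i (x i)) ^ m) := by
  set π : Fin 4 → ℤ := fun i => (-w.ord (ι i (u i))).toNat with hπ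
  have h1 : ∀ i, w.Ge (N i + if i ∈ A then m * π i else 0)
      (ι i (W i) * w.loc (ι i (x i)) ^ m) := fun i => by
    rcases hN i with ⟨h, h'⟩ | ⟨p, c, q, h1, h2, h'⟩
    · rw [loc, ← (ι i).commutes, ← map_sub, ← map_pow, ← map_mul]
      exact ge_of_le (by rw [h]; simp [h, h', hπ])
    · rw [h1.loc_eq, ← map_pow, ← map_mul]
      refine ((h1.ge_iff _ _).2 (hW i p q h2)).mono (le_of_eq ?_)
      have h3 : π i = c * (-p.ord (u i)).toNat := by
        simp only [hπ, h1.2]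
        rw [← mul_neg]
        rcases le_total 0 (-p.ord (u i)) with h3 | h3
        · rw [Int.toNat_of_nonneg h3, Int.toNat_of_nonneg (by positivity)]
        · rw [Int.toNat_of_nonpos h3,
            Int.toNat_of_nonpos (mul_nonpos_of_nonneg_of_nonpos (by positivity) h3)]
          simp
      rw [h', h3]
      split_ifs <;> push_cast <;> ring
  have h2 := (Ge.prod fun i (_ : i ∈ Finset.univ) => h1 i).mul
    (Ge.prod fun i hi => Ge.prod fun j hj => (ht i hi j hj).pow μ)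
  rw [mul_right_comm, ← Finset.prod_mul_distrib]
  refine h2.mono (le_of_eq ?_)
  have h3 : ∀ i ∈ A, ∑ j ∈ A.erase i, (μ : ℤ) * (t i j - π i - π j) =
      μ * ∑ j ∈ A.erase i, (t i j : ℤ) - μ * (A.card - 2) * π i - μ * ∑ j ∈ A, π j := fun i hi => by
    rw [← Finset.mul_sum, Finset.sum_sub_distrib, Finset.sum_sub_distrib, Finset.sum_const,
      Finset.card_erase_of_mem hi, Finset.sum_erase_eq_sub (f := π) hi, nsmul_eq_mul,
      Nat.cast_sub (Finset.card_pos.2 ⟨i, hi⟩)]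
    push_cast
    ring
  rw [Finset.sum_congr rfl h3, Finset.sum_add_distrib, Finset.sum_ite_mem, Finset.univ_inter,
    Finset.sum_sub_distrib, Finset.sum_sub_distrib, Finset.sum_const, ← Finset.mul_sum,
    ← Finset.mul_sum, ← Finset.mul_sum, hμ, nsmul_eq_mul]
  push_cast
  ring

theorem plu_easy (x : ∀ i, Fix ℂ (F i) G) (hx : ∀ i, IsCoord ℂ (x i : F i))
    (hgen : ∀ i, ℂ⟮x i⟯ = ⊤) (hT : ∀ i, TT ℂ (F i) G) {r : ℕ} (hr : 2 ∣ r)
    (hA : ∀ i, TA ℂ (F i) G (6 ≤ ·) → ∀ q : Place ℂ (Fix ℂ (F i) G), 4 ≤ q.ram → q.ram = r)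
    (h : ∀ L : S.Loc, 4 < L.e → ∃ i, TA ℂ (F i) G (6 ≤ ·) ∧ L.d i ≠ 1) :
    ¬ KodairaNegInf ℂ (Fix ℂ K G) 4 := by
  classical
  have h1 : ∀ i, ∃ nn, Wt (x i) 12 nn ∧ ∀ q : Place ℂ (Fix ℂ (F i) G), 5 ≤ q.ram →
      (if TA ℂ (F i) G (6 ≤ ·) then 2 else 3) ≤ nn q := fun i => by
    split_ifs with hi
    · obtain ⟨a, b, c, ht, ha, hb, hc⟩ := hi
      exact ht.wt' (hx i) (hgen i) (na := 6) (nb := 4) (nc := 2) (by omega) (by omega) (by omega)
        (by omega) (fun q hq => by omega) (by omega) (by omega) (by omega)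
    · exact (hT i).wt_other hi (hx i) (hgen i) 1
  choose nn h2 h3 using h1
  choose Φ hΦ hΦ' using fun i => (h2 i).2
  refine S.easyn x Φ hx (by omega) hΦ nn (fun i => (h2 i).1) hΦ' fun L hL => ?_
  have h4 : ∀ i, 5 ≤ (L.q i).ram := fun i => le_trans hL (L.le_ram i)
  have h5 : ∀ i (s : ℕ), s ≤ L.d i → s * 2 ≤ L.d i * nn i (L.q i) := fun i s hs => by
    have := h3 i _ (h4 i)
    exact Nat.mul_le_mul hs (by split_ifs at this <;> omega)
  by_cases he : L.e = r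
  · obtain ⟨i, hi, hd⟩ := h L hL
    have h6 := L.hed i
    rw [hA i hi _ (by have := h4 i; omega), ← he, mul_comm] at h6
    have h7 : L.d i = L.c i := Nat.eq_of_mul_eq_mul_right (by omega) h6
    have h8 : (L.c i).Coprime 2 := (L.coprime i).coprime_dvd_right (he ▸ hr)
    have h9 : L.c i ≠ 2 := fun h9 => by rw [h9] at h8; norm_num at h8
    have h10 := h5 i 3 (by have := L.one_le_d i; omega)
    have h11 := Finset.card_nsmul_le_sum (Finset.univ.erase i) _ _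
      fun l _ => h5 l 1 (L.one_le_d l)
    rw [← Finset.add_sum_erase _ _ (Finset.mem_univ i)]
    simp only [Finset.card_erase_of_mem (Finset.mem_univ i), Finset.card_univ, Fintype.card_fin,
      smul_eq_mul] at h11
    omega
  · have h6 := Finset.card_nsmul_le_sum Finset.univ (fun i => L.d i * nn i (L.q i)) 3 fun i _ => by
      by_cases hi : TA ℂ (F i) G (6 ≤ ·)
      · have h6 : L.d i ≠ 1 := fun h6 =>
          he ((L.base h6).2.symm.trans (hA i hi _ (by have := h4 i; omega)))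
        have := h5 i 2 (by have := L.one_le_d i; omega)
        omega
      · have := h3 i _ (h4 i)
        rw [if_neg hi] at this
        exact this.trans (Nat.le_mul_of_pos_left _ (L.one_le_d i))
    simpa using h6

theorem pluecker (x : ∀ i, Fix ℂ (F i) G) (hx : ∀ i, IsCoord ℂ (x i : F i))
    (hgen : ∀ i, ℂ⟮x i⟯ = ⊤) (hT : ∀ i, TT ℂ (F i) G) (hE : ∀ i, ¬ TA ℂ (F i) G (· = 6))
    {i j : Fin 4} (hij : i ≠ j) (hi : TA ℂ (F i) G (6 ≤ ·)) (hj : TA ℂ (F j) G (6 ≤ ·))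
    (hcen : (Subgroup.center G).index ≤ 24) : ¬ KodairaNegInf ℂ (Fix ℂ K G) 4 := by
  classical
  let A := Finset.univ.filter fun l => TA ℂ (F l) G (6 ≤ ·)
  have hA : ∀ l, l ∈ A ↔ TA ℂ (F l) G (6 ≤ ·) := fun l => by simp [A]
  have hk : 2 ≤ A.card := Finset.one_lt_card.2 ⟨i, (hA i).2 hi, j, (hA j).2 hj, hij⟩
  have hk4 : A.card ≤ 4 := by simpa using Finset.card_le_univ A
  have hX₀ : ∀ l ∈ A, ∀ (p : Place ℂ (F l)) (q : Place ℂ (Fix ℂ (F l) G)),
      p.Over (Fix ℂ (F l) G).val q q.ram → 4 ≤ q.ram → ∃ rb, Exc (stabilizer G p) rb := by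
    intro l hl p q hp hq
    have h7 : TA ℂ (F l) G (7 ≤ ·) := by
      obtain ⟨a, b, c, ht, ha, hb, hc⟩ := (hA l).1 hl
      have : c.ram ≠ 6 := fun h => hE l ⟨a, b, c, ht, ha, hb, h⟩
      exact ⟨a, b, c, ht, ha, hb, by omega⟩
    obtain ⟨A', B', h1, h2⟩ := h7.tri237' (hx l) (hgen l) hp hq
    exact h1.exc h2 hcen
  obtain ⟨rb, hrb, hX⟩ : ∃ rb, (rb = 3 ∧ Nat.card (center G) = 4 ∨
      rb = 4 ∧ 2 ≤ Nat.card (center G)) ∧ ∀ l ∈ A, ∀ (p : Place ℂ (F l))
      (q : Place ℂ (Fix ℂ (F l) G)), p.Over (Fix ℂ (F l) G).val q q.ram → 4 ≤ q.ram →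
        Exc (stabilizer G p) rb := by
    obtain ⟨a, b, c, ht, ha, hb, hc⟩ := hi
    obtain ⟨p₀, hp₀⟩ := c.exists_over_ram
    obtain ⟨rb, h1⟩ := hX₀ i ((hA i).2 ⟨a, b, c, ht, ha, hb, hc⟩) p₀ c hp₀ (by omega)
    refine ⟨rb, ?_, fun l hl p q hp hq => ?_⟩
    · have h2 := h1.card
      rcases h1.cases with ⟨rfl, h3⟩ | ⟨rfl, h3⟩ <;> omega
    · obtain ⟨rb', h2⟩ := hX₀ l hl p q hp hq
      exact h2.rb_eq h1 ▸ h2
  set z := Nat.card (center G) with hz
  have hr : ∀ l ∈ A, ∀ q : Place ℂ (Fix ℂ (F l) G), 4 ≤ q.ram → q.ram = rb * z := by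
    intro l hl q hq
    obtain ⟨p, hp⟩ := q.exists_over_ram
    rw [← (hx l).card_stabilizer hp, (hX l hl p q hp hq).card]
  by_cases h0 : ∀ L : S.Loc, 4 < L.e → ∃ l, TA ℂ (F l) G (6 ≤ ·) ∧ L.d l ≠ 1
  · refine S.plu_easy x hx hgen hT (r := rb * z) ?_ (fun l hl => hr l ((hA l).2 hl)) h0
    rcases hrb with ⟨rfl, h1⟩ | ⟨rfl, h1⟩ <;> omega
  push Not at h0
  obtain ⟨L₀, hL₀, hd₀⟩ := h0
  have hq₀ : ∀ l, 4 ≤ (L₀.q l).ram := fun l => hL₀.le.trans (L₀.le_ram l)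
  have hI : ∀ l ∈ A, stabilizer G (L₀.p l) = stabilizer G (L₀.p i) := fun l hl =>
    (L₀.inertia_eq (hd₀ l ((hA l).1 hl))).symm.trans (L₀.inertia_eq (hd₀ i hi))
  have hχ : ∀ l ∈ A, ∀ g ∈ stabilizer G (L₀.p i), (L₀.p l).chi g = (L₀.p i).chi g :=
    fun l hl g hg => by
      rw [(L₀.chi_eq (hd₀ i hi) hg l).2, (L₀.base (hd₀ l ((hA l).1 hl))).1, pow_one]
  have hE₀ := hX i ((hA i).2 hi) _ _ (L₀.hq i) (hq₀ i)
  obtain ⟨a, ha, hβ⟩ : ∃ a ∈ stabilizer G (L₀.p i),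
      IsPrimitiveRoot ((L₀.p i).chi a ^ z)⁻¹ rb := by
    obtain ⟨g, hg⟩ := ((hx i).isCyclic (G := G) (L₀.p i)).exists_ofOrder_eq_natCard
    have h1 : IsPrimitiveRoot ((hx i).chiHom G (L₀.p i) g) (Nat.card (stabilizer G (L₀.p i))) := by
      rw [← hg, ← orderOf_injective _ ((hx i).chiHom_injective (L₀.p i)) g]
      exact IsPrimitiveRoot.orderOf _
    exact ⟨g, g.2, (h1.pow Nat.card_pos (hE₀.card.trans (mul_comm _ _))).inv⟩
  obtain ⟨f₀, hf₀, hf₀'⟩ : ∃ f₀ : G → ℂ, (∀ g ∉ stabilizer G (L₀.p i),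
      f₀ (a⁻¹ * g) = ((L₀.p i).chi a ^ z)⁻¹ * f₀ g) ∧ ∀ g ∉ stabilizer G (L₀.p i),
      ∀ g' ∉ stabilizer G (L₀.p i), f₀ g = f₀ g' ↔ g⁻¹ * g' ∈ stabilizer G (L₀.p i) := by
    obtain ⟨qa, qb, ht, hqa, hqb⟩ := hi.exists_tri (hq₀ i)
    obtain ⟨t, ht1, ht2⟩ := ht.rational (hx i) (hgen i) hqa hqb (L₀.hq i) hE₀
    obtain ⟨-, f, -, -, -, -, h5, h6⟩ := exists_val (hx i) hE₀.le ht1 ht2 ha
      fun h3 => hβ.ne_one (by omega) (by rw [h3, inv_one])
    exact ⟨f, h5, h6⟩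
  obtain ⟨γ, hγ⟩ := (Set.finite_range f₀).exists_notMem
  have hγ' : ∀ g, f₀ g ≠ γ := fun g h => hγ ⟨g, h⟩
  let val : G → ℂ := fun g => if g ∈ stabilizer G (L₀.p i) then 0 else (f₀ g - γ)⁻¹
  have h1 : ∀ l, ∃ (u W : F l) (nn : Place ℂ (Fix ℂ (F l) G) → ℕ), Transcendental ℂ u ∧ W ≠ 0 ∧
      (∀ q : Place ℂ (Fix ℂ (F l) G), 144 ≤ q.ram * nn q) ∧
      (∀ q : Place ℂ (Fix ℂ (F l) G), 5 ≤ q.ram → (if l ∈ A then 6 * rb - 6 else 36) ≤ nn q) ∧
      (l ∈ A → ∀ g : G, (g • L₀.p l).Ge z (u - algebraMap ℂ _ (val g))) ∧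
      ∀ (P : Place ℂ (F l)) (q : Place ℂ (Fix ℂ (F l) G)), P.Over (Fix ℂ (F l) G).val q q.ram →
        P.Ge (q.ram * nn q + if l ∈ A then (144 : ℕ) * (-P.ord u).toNat else 0)
          (W * P.loc (x l : F l) ^ 144) := fun l => by
    by_cases hl : l ∈ A
    · have h1 := hI l hl
      obtain ⟨u, W, h2, h3, h4, h5⟩ := ((hA l).1 hl).exists_uW (hx l) (hgen l) (L₀.hq l) (hq₀ l)
        (hX l hl _ _ (L₀.hq l) (hq₀ l)) (h1 ▸ ha) (hχ l hl a ha ▸ hβ) (f₀ := f₀)
        (by rw [h1, hχ l hl a ha]; exact hf₀) (by rw [h1]; exact hf₀') hγ'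
      refine ⟨u, W, fun q => if 5 ≤ q.ram then 6 * rb - 6 else 144 / q.ram, h2, h3, fun q => ?_,
        fun q hq => by simp [hl, hq], fun _ g => by simpa only [h1] using h4 g,
        fun P q hP => by simpa only [if_pos hl, Nat.cast_mul, Nat.cast_ofNat] using h5 P q hP⟩
      beta_reduce
      split_ifs with hq
      · rw [hr l hl q (by omega)]
        rcases hrb with ⟨rfl, h6⟩ | ⟨rfl, h6⟩ <;> omega
      · have := q.one_le_ram
        generalize q.ram = s at *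
        have : s ≤ 4 := by omega
        interval_cases s <;> decide
    · obtain ⟨nn, ⟨h2, Φ, h3, h4⟩, h5⟩ :=
        (hT l).wt_other (fun h => hl ((hA l).2 h)) (hx l) (hgen l) 12
      refine ⟨x l, Φ, nn, (hx l).trans, fun h => h3 (Subtype.ext h), h2,
        fun q hq => by simpa [hl] using h5 q hq, fun h => absurd h hl, fun P q hP => ?_⟩
      have := (hP.ge_iff _ _).2 (ge_of_le (h4 q))
      rw [map_mul, map_pow, ← hP.loc_eq] at this
      rwa [if_neg hl, Nat.cast_zero, add_zero]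
  choose u W nn hu hW hn hn' hval hbd using h1
  have hμ : ((144 : ℕ) : ℤ) = (72 / (A.card - 1) : ℕ) * (2 * (A.card - 1)) := by
    generalize A.card = s at *
    interval_cases s <;> norm_num
  have hne : ∀ l ∈ A, ∀ l' ∈ A.erase l, ι l (u l) - ι l' (u l') ≠ 0 := fun l _ l' hl' =>
    sub_ne_zero.2 fun h => (Finset.mem_erase.1 hl').1
      ((S.algebraicIndependent u hu).injective h).symm
  have hpole : ∀ (w : Place ℂ K) (y : K), w.Ge (-(-w.ord y).toNat) y := fun w y =>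
    ge_of_le (by omega)
  refine S.red1 x hx (m := 144) (by omega) nn hn
    (Ψ := (∏ l, ι l (W l)) * ∏ l ∈ A, ∏ l' ∈ A.erase l,
      (ι l (u l) - ι l' (u l')) ^ (72 / (A.card - 1)))
    (mul_ne_zero (Finset.prod_ne_zero_iff.2 fun l _ => (_root_.map_ne_zero _).2 (hW l))
      (Finset.prod_ne_zero_iff.2 fun l hl => Finset.prod_ne_zero_iff.2 fun l' hl' =>
        pow_ne_zero _ (hne l hl l' hl'))) (fun w N hN => ?_) fun L hL hlt => ?_
  · simpa using S.plu_bound (fun l => x l) u W A hμ nn hbd w N hN (fun _ _ => 0)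
      fun l _ l' _ => ((hpole w _).mono (by omega)).sub ((hpole w _).mono (by omega))
  have hq : ∀ l, 5 ≤ (L.q l).ram := fun l => le_trans hL (L.le_ram l)
  have hq' : ∀ l ∈ A, (L.q l).ram = rb * z := fun l hl => hr l hl _ (by have := hq l; omega)
  have hother : ∀ l ∉ A, 36 ≤ L.d l * nn l (L.q l) := fun l hl => by
    have := hn' l _ (hq l)
    rw [if_neg hl] at this
    exact this.trans (Nat.le_mul_of_pos_left _ (L.one_le_d l))
  have hmine : ∀ l ∈ A, ∀ s ≤ L.d l, s * (6 * rb - 6) ≤ L.d l * nn l (L.q l) := fun l hl s hs => by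
    have := hn' l _ (hq l)
    rw [if_pos hl] at this
    exact Nat.mul_le_mul hs this
  by_cases hfull : rb = 3 ∨ L.e = rb * z
  swap
  · rw [not_or] at hfull
    have h2 := Finset.card_nsmul_le_sum Finset.univ (fun l => L.d l * nn l (L.q l)) 36
      fun l _ => by
        by_cases hl : l ∈ A
        · have h2 : L.d l ≠ 1 := fun h2 => hfull.2 ((L.base h2).2.symm.trans (hq' l hl))
          have := hmine l hl 2 (by have := L.one_le_d l; omega)
          omega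
        · exact hother l hl
    simp only [Finset.card_univ, Fintype.card_fin, smul_eq_mul] at h2
    omega
  have h2 : ∀ l, ∃ g : G, l ∈ A → L.p l = g • L₀.p l := fun l => by
    by_cases hl : l ∈ A
    · have h2 := ((hA l).1 hl).big_eq (hq₀ l) (q' := L.q l) (by have := hq l; omega)
      obtain ⟨g, hg⟩ := exists_smul_eq (L₀.hq l) (h2 ▸ L.hq l)
      exact ⟨g, fun _ => hg⟩
    · exact ⟨1, fun h => absurd h hl⟩
  choose g hg using h2
  have h3 : ∀ l ∈ A, ∀ g' : G, L.p l = g' • L₀.p l →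
      L.w.Ge (L.c l * z) (ι l (u l) - algebraMap ℂ K (val g')) := fun l hl g' hg' => by
    have := ((L.hp l).ge_iff _ _).2 (hg' ▸ hval l hl g')
    rwa [map_sub, AlgHom.commutes] at this
  have h4 : ∀ l ∈ A, L.w.Ge 0 (ι l (u l)) := fun l hl => by
    simpa using ((h3 l hl _ (hg l hl)).mono (by positivity)).add (ge_const (val (g l)))
  let B := A.filter fun l => L.c l = 1
  have h5 : ∀ l ∈ B, ∀ l' ∈ B, L.p l = g l' • L₀.p l := fun l hl l' hl' => by
    obtain ⟨hl, hc⟩ := Finset.mem_filter.1 hl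
    obtain ⟨hl', hc'⟩ := Finset.mem_filter.1 hl'
    have h5 : g l' * (g l)⁻¹ ∈ stabilizer G (L.p l) := by
      refine (hX l hl _ _ (L.hq l) (by have := hq l; omega)).mem_of_comm (L.le_stab l)
        (by rwa [L.card]) (hfull.imp_right fun h => by rw [L.card, L.card_stab, hq' l hl, h])
        fun b hb => ?_
      obtain ⟨θ, -, hθ⟩ := L.exists_theta hb
      obtain ⟨h5, h6⟩ := (hx l).chi_smul (hg l hl ▸ L.le_stab l hb)
      obtain ⟨h7, h8⟩ := (hx l').chi_smul (hg l' hl' ▸ L.le_stab l' hb)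
      rw [hI l hl] at h5
      rw [hI l' hl'] at h7
      rw [← hg l hl, hθ, hc, hχ l hl _ h5] at h6
      rw [← hg l' hl', hθ, hc', hχ l' hl' _ h7] at h8
      have h9 := (hx i).eq_of_chi h5 h7 (h6.symm.trans h8)
      calc b * (g l' * (g l)⁻¹) = g l' * ((g l')⁻¹ * b * g l') * (g l)⁻¹ := by group
        _ = g l' * ((g l)⁻¹ * b * g l) * (g l)⁻¹ := by rw [h9]
        _ = g l' * (g l)⁻¹ * b := by group
    rw [mem_stabilizer_iff, mul_smul] at h5
    rw [← h5, hg l hl, inv_smul_smul]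
  have h6 := S.plu_bound (fun l => x l) u W A hμ nn hbd L.w _
    (fun l => Or.inr ⟨_, _, _, L.hp l, L.hq l, rfl⟩)
    (fun l l' => z * if l ∈ B ∧ l' ∈ B then 1 else 0) fun l hl l' hl' => by
      have hl' := Finset.mem_of_mem_erase hl'
      refine Ge.mono (n := (z * if l ∈ B ∧ l' ∈ B then 1 else 0 : ℕ)) ?_ (by omega)
      split_ifs with hB
      · have h6 := h3 l hl _ (h5 l hB.1 l' hB.2)
        have h7 := h3 l' hl' _ (hg l' hl')
        rw [(Finset.mem_filter.1 hB.1).2] at h6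
        rw [(Finset.mem_filter.1 hB.2).2] at h7
        simpa using h6.sub h7
      · simpa using (h4 l hl).sub (h4 l' hl')
  simp only [(L.hp _).loc_eq] at h6
  refine h6.mono ?_
  simp only [← Finset.mul_sum, ← mul_assoc, ← L.hed]
  simp only [mul_assoc, ← Finset.mul_sum]
  have h7 : ∀ l ∈ A, L.c l ≤ L.d l := fun l _ => by
    have h7 := L.hed l
    have h8 := Nat.mul_le_mul_left (L.c l) (L.le_ram l)
    rw [← h7, mul_comm] at h8
    exact Nat.le_of_mul_le_mul_left h8 L.hw.1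
  have h8 : ∑ l, (if l ∈ B then 6 * rb - 6 else if l ∈ A then 78 - 6 * rb else 36) ≤
      ∑ l, L.d l * nn l (L.q l) := Finset.sum_le_sum fun l _ => by
    split_ifs with h8 h9
    · simpa using hmine l (Finset.mem_filter.1 h8).1 1 (L.one_le_d l)
    · have h10 : L.c l ≠ 1 := fun h => h8 (Finset.mem_filter.2 ⟨h9, h⟩)
      have h11 := L.one_le_c l
      have h12 := h7 l h9
      have h13 := L.coprime l
      have h14 := L.dvd l
      rw [hq' l h9] at h14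
      rcases hrb with ⟨rfl, h15⟩ | ⟨rfl, h15⟩
      · have h16 : 6 ∣ L.e := by
          rw [h15] at h14
          have := Nat.le_of_dvd (by omega) h14
          generalize L.e = e at *
          interval_cases e <;> omega
        have h17 := h13.coprime_dvd_right h16
        have h18 : 5 ≤ L.c l := by
          by_contra h18
          generalize L.c l = s at *
          have : s ≤ 4 := by omega
          interval_cases s <;> revert h17 h10 <;> decide
        have := hmine l h9 5 (by omega)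
        omega
      · have h16 : 2 ∣ L.e := by omega
        have h17 := h13.coprime_dvd_right h16
        have h18 : L.c l ≠ 2 := fun h18 => by rw [h18] at h17; norm_num at h17
        have := hmine l h9 3 (by omega)
        omega
    · exact hother l h9
  have h9 : L.e ≤ rb * z := hq' i ((hA i).2 hi) ▸ L.le_ram i
  have h10 : rb * 144 ≤ rb * ∑ l, L.d l * nn l (L.q l) + 72 / (A.card - 1) *
      ∑ l ∈ A, ∑ l' ∈ A.erase l, if l ∈ B ∧ l' ∈ B then 1 else 0 := by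
    rcases hrb with ⟨rfl, -⟩ | ⟨rfl, -⟩
    · exact (count_three A B (Finset.filter_subset _ _) hk).trans
        (Nat.add_le_add_right (Nat.mul_le_mul_left _ h8) _)
    · exact (count_four A B (Finset.filter_subset _ _) hk).trans
        (Nat.add_le_add_right (Nat.mul_le_mul_left _ h8) _)
  have h11 : 0 < rb := by omega
  norm_cast
  refine Nat.le_of_mul_le_mul_left ?_ h11
  generalize (∑ l, L.d l * nn l (L.q l)) = s at *
  generalize (∑ l ∈ A, ∑ l' ∈ A.erase l, if l ∈ B ∧ l' ∈ B then 1 else 0) = c at *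
  generalize 72 / (A.card - 1) = μ at *
  have h12 := Nat.mul_le_mul_left L.e h10
  have h13 := Nat.mul_le_mul_right (μ * c) h9
  nlinarith

end Setup

end Pool.Agent.Lib.MP_e06174_ag
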