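import Mathlib

/-! Numerical inequalities for the dimension count. -/

namespace Pool.Agent.Lib.MP_e06174_ag

/-- The classes of bad places. -/
def cls (u a N K : ℕ) (cop b₁ b₂ b₃ : Bool) : Finset ((ℕ × ℕ) × ℕ × ℕ × ℕ) :=
  (((Finset.range (K + 1) ×ˢ Finset.range N).filter fun z => 0 < z.2 ∧ z.1 ∣ z.2 ∧
      (z.1 = 1 → cop → z.2.Coprime 6)) ×ˢ
    ((Finset.range N ×ˢ Finset.range N ×ˢ Finset.range N).filter fun z =>
      a + (cond b₁ a (12 * u) * z.1 + cond b₂ a (12 * u) * z.2.1 + cond b₃ a (12 * u) * z.2.2) <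
        60 * u ∧ 0 < z.1 ∧ 0 < z.2.1 ∧ 0 < z.2.2)).filter fun z =>
    z.1.1 ≠ 1 → (b₁ → 2 ≤ z.2.1) ∧ (b₂ → 2 ≤ z.2.2.1) ∧ (b₃ → 2 ≤ z.2.2.2)

/-- The inequality between conditions and sections. -/
def Num (u a e N K κ₁ κ₂ : ℕ) (cop : Bool) : Prop := ∀ b₁ b₂ b₃ : Bool,
  ∑ z ∈ cls u a N K cop b₁ b₂ b₃, ((60 * u - (a * z.1.2 + (cond b₁ a (12 * u) * z.2.1 +
      cond b₂ a (12 * u) * z.2.2.1 + cond b₃ a (12 * u) * z.2.2.2)) : ℕ) : ℚ) ^ 4 /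
    ((24 * (z.1.2 * (z.2.1 * z.2.2.1 * z.2.2.2)) * (if z.1.1 = 1 then κ₁ else κ₂) ^ 3 : ℕ) : ℚ) <
    ((e * (cond b₁ e (3 * u) * cond b₂ e (3 * u) * cond b₃ e (3 * u)) : ℕ) : ℚ)

lemma num1 : Num 7 60 10 4 1 19 1 false := by unfold Num; decide +kernel
lemma num2 : Num 2 15 5 5 4 12 3 false := by unfold Num; decide +kernel
lemma num3 : Num 1 5 5 9 5 9 3 true := by unfold Num; decide +kernel
lemma num4 : Num 1 5 5 9 5 8 4 true := by unfold Num; decide +kernel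

end Pool.Agent.Lib.MP_e06174_ag
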