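import Pool.Agent.Lib.MP_e06174_ag.Vol4a
import Pool.Agent.Lib.MP_e06174_ag.Vol4n

/-! Four curves, a factor of type `(2, 3, r)` with `r ≥ 7`, and a center of large index. -/

set_option linter.unusedSectionVars false

open Polynomial IntermediateField Module MulAction

namespace Pool.Agent.Lib.MP_e06174_ag

open Place

section group

open Subgroup

variable {G : Type*} [Group G] [Finite G]

lemma conj_inv (g : G) (I : Subgroup G) :
    (centralizer (I.map (MulAut.conj g).toMonoidHom : Set G)).index =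
      (centralizer (I : Set G)).index ∧
    (center G).relIndex (I.map (MulAut.conj g).toMonoidHom) = (center G).relIndex I := by
  constructor
  · rw [← index_comap_of_surjective _ (f := (MulAut.conj g).toMonoidHom) (MulAut.conj g).surjective]
    congr 1
    ext x
    simp only [mem_comap, mem_centralizer_iff, Subgroup.coe_map, Set.forall_mem_image, ← map_mul]
    exact forall₂_congr fun a _ => (MulAut.conj g).injective.eq_iff
  · rw [← relIndex_comap, characteristic_iff_comap_eq.1 inferInstance]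

lemma Tri237.index_ge {A B I J : Subgroup G} (h : Tri237 A B I) (hJ : J ≤ I) {k : ℕ}
    (hk : Nat.card J * k = Nat.card I) (h1 : 1 ≤ k) (h2 : k < (center G).relIndex I) :
    3 ≤ (centralizer (J : Set G)).index ∧
      (centralizer (J : Set G)).index ∣ (centralizer (I : Set G)).index := by
  have h3 : centralizer (I : Set G) ≤ centralizer (J : Set G) := centralizer_le hJ
  refine ⟨?_, index_dvd_of_le h3⟩
  have h4 : centralizer (J : Set G) ≠ ⊤ := fun h4 => by
    have h5 := relIndex_dvd_of_le_left I (centralizer_eq_top_iff_subset.1 h4 : J ≤ center G)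
    have h6 := relIndex_mul_relIndex ⊥ J I bot_le hJ
    rw [relIndex_bot_left, relIndex_bot_left, ← hk] at h6
    rw [Nat.eq_of_mul_eq_mul_left Nat.card_pos h6] at h5
    exact absurd (Nat.le_of_dvd h1 h5) (by omega)
  have h5 : (centralizer (J : Set G)).index ≠ 0 := index_ne_zero_of_finite
  have h6 : (centralizer (J : Set G)).index ≠ 1 := fun h6 => h4 (index_eq_one.1 h6)
  have h7 : (centralizer (J : Set G)).index ≠ 2 := fun h7 => by
    have := normal_of_index_eq_two h7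
    exact h4 (h.eq_top_of_le _ (h.le_cent.trans h3))
  omega

end group

section factor

variable {k F G : Type*} [Field k] [Field F] [Algebra k F] [CharZero k] [IsAlgClosed k]
  [Group G] [Finite G] [MulSemiringAction G F] [SMulCommClass G k F] [FaithfulSMul G F]

/-- Large families of forms with prescribed vanishing on one factor. -/
def FD (x : Fix k F G) (U ε α : ℕ) : Prop :=
  ∃ (Big : Finset (Place k (Fix k F G))) (c : ℕ), (∀ q : Place k (Fix k F G), 5 ≤ q.ram → q ∈ Big) ∧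
    1 ≤ Big.card ∧ ∀ t M : ℕ, M + c ≤ ε * t → ∃ (nn : Place k (Fix k F G) → ℕ)
      (W : Fin (Nat.card G) × Fin (Big.card * M) → F), LinearIndependent k W ∧
      (∀ q : Place k (Fix k F G), U * t ≤ q.ram * nn q) ∧
      (∀ q : Place k (Fix k F G), 5 ≤ q.ram → α * t ≤ nn q) ∧
      ∀ s (p : Place k F) (q : Place k (Fix k F G)), p.Over (Fix k F G).val q q.ram →
        p.Ge (q.ram * nn q) (W s * p.loc (x : F) ^ (U * t))

variable {x : Fix k F G}

lemma Tri.fd {a b c : Place k (Fix k F G)} (ht : Tri a b c) (h : IsCoord k (x : F))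
    (hgen : k⟮x⟯ = ⊤) {U ε α na nb nc : ℕ} (Big : Finset (Place k (Fix k F G)))
    (h1 : 1 ≤ Big.card) (hs : na + nb + nc + Big.card * ε ≤ U)
    (ha : U ≤ a.ram * na ∧ (5 ≤ a.ram → α ≤ na ∧ a ∈ Big))
    (hb : U ≤ b.ram * nb ∧ (5 ≤ b.ram → α ≤ nb ∧ b ∈ Big))
    (hc : U ≤ c.ram * nc ∧ (5 ≤ c.ram → α ≤ nc ∧ c ∈ Big)) : FD x U ε α := by
  classical
  obtain ⟨c₀, hc₀⟩ := exists_family h hgen
  let n₀ : Place k (Fix k F G) → ℕ := fun q =>
    if q = a then na else if q = b then nb else if q = c then nc else U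
  have h2 : ∀ q : Place k (Fix k F G), U ≤ q.ram * n₀ q ∧
      (5 ≤ q.ram → α ≤ n₀ q ∧ q ∈ Big) := fun q => by
    rcases ht.cases q with rfl | rfl | rfl | ⟨hqa, hqb, hqc, hq⟩
    · simpa [n₀] using ha
    · simpa [n₀, ht.ab.symm] using hb
    · simpa [n₀, ht.ac.symm, ht.bc.symm] using hc
    · simp [n₀, hqa, hqb, hqc, hq]
  refine ⟨Big, c₀, fun q hq => ((h2 q).2 hq).2, h1, fun t M hM => ?_⟩
  obtain ⟨W, hW, hW'⟩ := hc₀ (U * t) (Big.card * M) {a, b, c} (fun q => n₀ q * t)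
    (fun q hq => by
      simp only [Finset.mem_insert, Finset.mem_singleton, not_or] at hq
      simp [n₀, hq.1, hq.2.1, hq.2.2]) (by
      rw [Finset.sum_insert (by simp [ht.ab, ht.ac]), Finset.sum_pair ht.bc]
      simp only [n₀, if_true, if_neg ht.ab.symm, if_neg ht.ac.symm, if_neg ht.bc.symm]
      have h3 := Nat.mul_le_mul_right t hs
      have h4 := Nat.mul_le_mul_left Big.card hM
      have h5 := Nat.mul_le_mul_right c₀ h1
      push_cast
      zify at h3 h4 h5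
      nlinarith)
  exact ⟨_, W, hW, fun q => by rw [← mul_assoc]; exact Nat.mul_le_mul_right t (h2 q).1,
    fun q hq => Nat.mul_le_mul_right t ((h2 q).2 hq).1, hW'⟩

lemma TA.fd {P : ℕ → Prop} (hA : TA k F G P) (h : IsCoord k (x : F)) (hgen : k⟮x⟯ = ⊤)
    {u ε α : ℕ} (h1 : α + ε ≤ 10 * u) (h2 : ∀ r, P r → 60 * u ≤ r * α) : FD x (60 * u) ε α := by
  obtain ⟨a, b, c, ht, ha, hb, hc⟩ := hA
  exact ht.fd h hgen (na := 30 * u) (nb := 20 * u) (nc := α) {c} (by simp) (by simp; omega)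
    (by rw [ha]; omega) (by rw [hb]; omega) ⟨h2 _ hc, fun _ => by simp⟩

lemma TT.fd (hT : TT k F G) (hA : ¬ TA k F G (6 ≤ ·)) (h : IsCoord k (x : F)) (hgen : k⟮x⟯ = ⊤)
    {q : Place k (Fix k F G)} (hq : 5 ≤ q.ram) (u : ℕ) : FD x (60 * u) (3 * u) (12 * u) := by
  classical
  have key : ∀ {r s n : ℕ}, s ≤ r → 60 ≤ s * n → 60 * u ≤ r * (n * u) := fun h1 h2 => by
    rw [← mul_assoc]
    exact Nat.mul_le_mul_right _ (h2.trans (Nat.mul_le_mul_right _ h1))
  rcases hT.cases with h1 | ⟨a, b, c, ht, ha, hb, hc⟩ | ⟨a, b, c, ht, ha, hb, hc⟩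
  · exact absurd h1 hA
  all_goals
    have h1 : 5 ≤ c.ram := by
      rcases ht.cases q with rfl | rfl | rfl | ⟨-, -, -, h⟩ <;> omega
  · by_cases h2 : 5 ≤ b.ram
    · exact ht.fd h hgen (na := 30 * u) (nb := 12 * u) (nc := 12 * u) {b, c}
        (by rw [Finset.card_pair ht.bc]; omega) (by rw [Finset.card_pair ht.bc]; omega)
        ⟨key ha.ge le_rfl, by omega⟩ ⟨key h2 le_rfl, by simp⟩ ⟨key h1 le_rfl, by simp⟩
    · exact ht.fd h hgen (na := 30 * u) (nb := 15 * u) (nc := 12 * u) {c} (by simp) (by simp; omega)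
        ⟨key ha.ge le_rfl, by omega⟩ ⟨key hb le_rfl, by omega⟩ ⟨key h1 le_rfl, by simp⟩
  by_cases h2 : 5 ≤ a.ram
  · have h3 : ({a, b, c} : Finset _).card = 3 :=
      Finset.card_eq_three.2 ⟨a, b, c, ht.ab, ht.ac, ht.bc, rfl⟩
    exact ht.fd h hgen (na := 12 * u) (nb := 12 * u) (nc := 12 * u) {a, b, c} (by omega)
      (by rw [h3]; omega) ⟨key h2 le_rfl, by simp⟩ ⟨key (h2.trans hb) le_rfl, by simp⟩
      ⟨key h1 le_rfl, by simp⟩
  by_cases h3 : 5 ≤ b.ram
  · exact ht.fd h hgen (na := 20 * u) (nb := 12 * u) (nc := 12 * u) {b, c}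
      (by rw [Finset.card_pair ht.bc]; omega) (by rw [Finset.card_pair ht.bc]; omega)
      ⟨key ha le_rfl, by omega⟩ ⟨key h3 le_rfl, by simp⟩ ⟨key h1 le_rfl, by simp⟩
  · exact ht.fd h hgen (na := 20 * u) (nb := 20 * u) (nc := 12 * u) {c} (by simp) (by simp; omega)
      ⟨key ha le_rfl, by omega⟩ ⟨key (ha.trans hb) le_rfl, by omega⟩ ⟨key h1 le_rfl, by simp⟩

lemma TT.wt (hT : TT k F G) (h : IsCoord k (x : F)) (hgen : k⟮x⟯ = ⊤) : ∃ nn, Wt x 12 nn := by
  rcases hT.cases with ⟨a, b, c, ht, ha, hb, hc⟩ | ⟨a, b, c, ht, ha, hb, hc⟩ |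
    ⟨a, b, c, ht, ha, hb, hc⟩
  · exact (ht.wt h hgen (na := 6) (nb := 4) (nc := 2) (by omega) (by omega) (by omega)
      (by omega)).imp fun _ h => h.1
  · exact (ht.wt h hgen (na := 6) (nb := 3) (nc := 3) (by omega) (by omega) (by omega)
      (by omega)).imp fun _ h => h.1
  · exact (ht.wt h hgen (na := 4) (nb := 4) (nc := 4) (by omega) (by omega) (by omega)
      (by omega)).imp fun _ h => h.1

end factor

namespace Setup

variable {F : Fin 4 → Type} [∀ i, Field (F i)] [∀ i, Algebra ℂ (F i)]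
  {G : Type} [Group G] [Finite G] [∀ i, MulSemiringAction G (F i)] [∀ i, SMulCommClass G ℂ (F i)]
  {K : Type} [Field K] [Algebra ℂ K] [MulSemiringAction G K] [SMulCommClass G ℂ K]
  {ι : ∀ i, F i →ₐ[ℂ] K} (S : Setup G ι) [∀ i, FaithfulSMul G (F i)] [FaithfulSMul G K]
include S

theorem vol_case4 (x : ∀ i, Fix ℂ (F i) G) (hx : ∀ i, IsCoord ℂ (x i : F i)) {U : ℕ}
    (hU : 1 ≤ U) (ε α : Fin 4 → ℕ) (hε : ∀ i, 0 < ε i) (hF : ∀ i, FD (x i) U (ε i) (α i))
    {τ : Type} (D : Finset τ) (dd : τ → Fin 4 → ℕ) (ee κ : τ → ℕ)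
    (hD : ∀ L : S.Loc, 4 < L.e → ∑ i, L.d i * α i < U → ∃ z ∈ D, L.d = dd z ∧ L.e = ee z)
    (hd : ∀ z ∈ D, (∀ i, 0 < dd z i) ∧ 0 < κ z) (j : Fin 4)
    (hκ : ∀ z ∈ D, ∀ L : S.Loc, 4 < L.e → L.d = dd z → L.e = ee z →
      κ z ≤ (Subgroup.centralizer (L.w.inertia G : Set G)).index)
    (hnum : ∑ z ∈ D, ((U - ∑ i, α i * dd z i : ℕ) : ℚ) ^ 4 /
      ((24 * (∏ i, dd z i) * κ z ^ 3 : ℕ) : ℚ) < ((∏ i, ε i : ℕ) : ℚ)) :
    ¬ KodairaNegInf ℂ (Fix ℂ K G) 4 := by
  choose Big c hBig hcard hF using hF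
  obtain ⟨t, ht, hct, hnum'⟩ := exists_large4 D (fun z => U - ∑ i, α i * dd z i)
    (fun z => ∑ i, dd z i + 4) (fun z => ((24 * (∏ i, dd z i) * κ z ^ 3 : ℕ) : ℝ)) ε (∑ i, c i)
    (by simpa only [Rat.cast_sum, Rat.cast_div, Rat.cast_pow, Rat.cast_natCast, Nat.cast_prod,
      Rat.cast_prod] using (Rat.cast_lt (K := ℝ)).2 hnum) hε
  choose nn W hli h1 h2 h3 using fun i => hF i t (ε i * t - ∑ i, c i) (by
    have := Finset.single_le_sum (f := c) (fun _ _ => Nat.zero_le _) (Finset.mem_univ i)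
    have := hct i
    omega)
  refine S.vol4 x hx (m := U * t) (Nat.mul_pos hU ht) nn h1 (fun i => α i * t) h2 W hli h3 D dd ee
    (fun z => κ z ^ 3) (fun L h4 h5 => hD L h4 ?_) (fun z hz => ⟨(hd z hz).1, pow_pos (hd z hz).2 3⟩)
    (B := (∏ i, (Big i).card) * Nat.card G ^ 4)
    (fun z hz => S.count4 (dd z) (ee z) j Big hBig (hκ z hz)) ?_
  · refine lt_of_mul_lt_mul_right (a := t) (lt_of_le_of_lt ?_ h5) (Nat.zero_le _)
    rw [Finset.sum_mul]
    exact Finset.sum_le_sum fun i _ => by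
      rw [mul_assoc]
      exact Nat.mul_le_mul_left _ (h2 i _ ((Nat.succ_le_of_lt h4).trans (L.le_ram i)))
  · have h4 : 0 < (∏ i, (Big i).card) * Nat.card G ^ 4 :=
      Nat.mul_pos (Finset.prod_pos fun i _ => hcard i) (pow_pos Nat.card_pos _)
    simp only [Nat.sub_mul, Finset.sum_mul, mul_right_comm _ _ t] at hnum'
    refine (mul_lt_mul_of_pos_left hnum' (Nat.cast_pos.2 h4)).trans_eq ?_
    rw [← Nat.cast_prod, ← Nat.cast_mul]
    simp only [Fintype.card_prod, Fintype.card_fin, Finset.prod_mul_distrib, Finset.prod_const,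
      Finset.card_univ, Nat.cast_inj]
    ring

theorem vol_pat (x : ∀ i, Fix ℂ (F i) G) (hx : ∀ i, IsCoord ℂ (x i : F i))
    (hgen : ∀ i, ℂ⟮x i⟯ = ⊤) (hT : ∀ i, TT ℂ (F i) G) (L₀ : S.Loc) (hL₀ : 4 < L₀.e) {j : Fin 4}
    (hj : TA ℂ (F j) G (6 ≤ ·)) {r : ℕ} (hr : ∀ L : S.Loc, 4 < L.e → (L.q j).ram = r)
    (hr' : ∀ i, TA ℂ (F i) G (6 ≤ ·) → TA ℂ (F i) G (r ≤ ·)) {u a e N M κ₁ κ₂ : ℕ} {cop : Bool}
    (hnum : Num u a e N M κ₁ κ₂ cop) (hcop : cop → 6 ∣ r)
    (h0 : 0 < u ∧ 0 < e ∧ 0 < κ₁ ∧ 0 < κ₂ ∧ a + e ≤ 10 * u ∧ 60 * u ≤ a * (N + 3))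
    (h1 : 60 * u ≤ r * a)
    (hM : ∀ s k, 4 < s → s * k = r → M < k → 2 ≤ k ∧ 60 * u ≤ a * k + 3 * min (2 * a) (12 * u))
    (hκ : ∀ L : S.Loc, 4 < L.e → ∀ k, L.e * k = r → k ≤ M → (if k = 1 then κ₁ else κ₂) ≤
      (Subgroup.centralizer (L.w.inertia G : Set G)).index) :
    ¬ KodairaNegInf ℂ (Fix ℂ K G) 4 := by
  classical
  obtain ⟨b, hb⟩ : ∃ b : Fin 4 → Bool, ∀ i, b i = true ↔ TA ℂ (F i) G (6 ≤ ·) :=
    ⟨fun i => decide _, fun i => decide_eq_true_iff⟩
  have hbj := (hb j).2 hj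
  refine S.vol_case4 x hx (U := 60 * u) (by omega) (fun i => cond (b i) e (3 * u))
    (fun i => cond (b i) a (12 * u)) (fun i => by cases b i <;> simp <;> omega) (fun i => ?_)
    (cls u a N M cop (b (j.succAbove 0)) (b (j.succAbove 1)) (b (j.succAbove 2)))
    (fun z => j.insertNth z.1.2 ![z.2.1, z.2.2.1, z.2.2.2])
    (fun z => if z.1.1 ∣ r then r / z.1.1 else 0) (fun z => if z.1.1 = 1 then κ₁ else κ₂)
    (fun L h2 h3 => ?_) (fun z hz => ⟨fun i => ?_, by split_ifs <;> omega⟩) j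
    (fun z hz L h2 _ h3 => ?_) ?_
  · cases h2 : b i
    · exact (hT i).fd (fun h => by simp [(hb i).2 h] at h2) (hx i) (hgen i)
        ((Nat.succ_le_of_lt hL₀).trans (L₀.le_ram i)) u
    · exact (hr' i ((hb i).1 h2)).fd (hx i) (hgen i) h0.2.2.2.2.1
        fun s hs => h1.trans (Nat.mul_le_mul_right _ hs)
  · obtain ⟨k, hk⟩ := L.dvd j
    have h4 := L.hed j
    rw [hk, mul_left_comm, Nat.mul_right_inj (by omega)] at h4
    rw [hr L h2] at hk
    have h5 : ∀ i, k ≠ 1 → b i → 2 ≤ L.d i := fun i h5 h6 => by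
      have h7 := L.hed i
      have h8 : r ≤ (L.q i).ram := by
        obtain ⟨a, b, c, ht, ha, hb, hc⟩ := hr' i ((hb i).1 h6)
        have := L.le_ram i
        rcases ht.cases (L.q i) with h | h | h | ⟨-, -, -, h⟩
        · rw [h] at this; omega
        · rw [h] at this; omega
        · rwa [h]
        · omega
      have h9 := L.one_le_c i
      have h10 := L.one_le_d j
      by_contra h11
      rw [show L.d i = 1 by have := L.one_le_d i; omega] at h7
      have : k ≠ 0 := by rintro rfl; omega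
      nlinarith [show 2 ≤ k by omega]
    have h6 : ∀ i, a * L.d i ≤ cond (b i) a (12 * u) * L.d i ∧ a ≤ cond (b i) a (12 * u) * L.d i ∧
        (k ≠ 1 → min (2 * a) (12 * u) ≤ cond (b i) a (12 * u) * L.d i) := fun i => by
      have h6 := L.one_le_d i
      cases h7 : b i
      · exact ⟨Nat.mul_le_mul_right _ (by simp; omega), by simp; nlinarith,
          fun _ => (min_le_right _ _).trans (Nat.le_mul_of_pos_right _ h6)⟩
      · exact ⟨le_rfl, Nat.le_mul_of_pos_right _ h6, fun h8 => (min_le_left _ _).trans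
          (by have := h5 i h8 h7; simp; nlinarith)⟩
    have h7 : ∀ i, L.d i < N := fun i => by
      have h7 := Finset.card_nsmul_le_sum Finset.univ _ _ fun l (_ : l ∈ Finset.univ) =>
        (h6 (i.succAbove l)).2.1
      simp only [mul_comm (L.d _)] at h3
      rw [Fin.sum_univ_succAbove _ i] at h3
      simp only [Finset.card_univ, Fintype.card_fin, smul_eq_mul] at h7
      have h8 := (h6 i).1
      refine lt_of_mul_lt_mul_left (a := a) ?_ (Nat.zero_le _)
      have := h0.2.2.2.2.2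
      rw [mul_add] at this
      omega
    simp only [mul_comm (L.d _)] at h3
    rw [Fin.sum_univ_succAbove _ j, Fin.sum_univ_three, hbj, cond_true] at h3
    have h8 : k ≤ M := not_lt.1 fun h8 => by
      obtain ⟨h9, h10⟩ := hM _ k h2 hk.symm h8
      have := (h6 (j.succAbove 0)).2.2 (by omega)
      have := (h6 (j.succAbove 1)).2.2 (by omega)
      have := (h6 (j.succAbove 2)).2.2 (by omega)
      have : a * k ≤ a * L.d j := Nat.mul_le_mul_left _ (h4 ▸ Nat.le_mul_of_pos_left _ (L.one_le_c j))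
      omega
    refine ⟨((k, L.d j), L.d (j.succAbove 0), L.d (j.succAbove 1), L.d (j.succAbove 2)), ?_,
      Fin.eq_insertNth_iff.2 ⟨rfl, funext fun l => by fin_cases l <;> rfl⟩, ?_⟩
    · have := Nat.le_mul_of_pos_right a (L.one_le_d j)
      simp only [cls, Finset.mem_filter, Finset.mem_product, Finset.mem_range, h7, true_and]
      refine ⟨⟨⟨⟨by omega, trivial⟩, L.one_le_d _, Dvd.intro_left _ h4.symm, fun h9 h10 => ?_⟩,
        by omega, L.one_le_d _, L.one_le_d _, L.one_le_d _⟩,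
        fun h9 => ⟨h5 _ h9, h5 _ h9, h5 _ h9⟩⟩
      rw [h4, h9, mul_one]
      exact (L.coprime j).coprime_dvd_right (by simpa [hk, h9] using hcop h10)
    · have : k ≠ 0 := by rintro rfl; have := L.one_le_d j; omega
      rw [if_pos (Dvd.intro_left _ hk.symm), hk, Nat.mul_div_cancel _ (by omega)]
  · simp only [cls, Finset.mem_filter] at hz
    obtain ⟨h2, h3⟩ := Finset.mem_product.1 hz.1
    obtain ⟨-, -, h4, h5, h6⟩ := Finset.mem_filter.1 h3
    rcases Fin.eq_self_or_eq_succAbove j i with rfl | ⟨l, rfl⟩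
    · simpa using (Finset.mem_filter.1 h2).2.1
    · rw [Fin.insertNth_apply_succAbove]
      fin_cases l <;> assumption
  · simp only [cls, Finset.mem_filter, Finset.mem_product, Finset.mem_range] at hz
    split_ifs at h3 with h4
    · exact hκ L h2 _ (h3 ▸ Nat.div_mul_cancel h4) (by omega)
    · omega
  · simpa only [Fin.sum_univ_succAbove _ j, Fin.prod_univ_succAbove _ j, Fin.sum_univ_three,
      Fin.prod_univ_three, Fin.insertNth_apply_same, Fin.insertNth_apply_succAbove, hbj, cond_true,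
      Matrix.cons_val_zero, Matrix.cons_val_one, Matrix.cons_val] using hnum _ _ _

theorem vol_four (x : ∀ i, Fix ℂ (F i) G) (hx : ∀ i, IsCoord ℂ (x i : F i))
    (hgen : ∀ i, ℂ⟮x i⟯ = ⊤) (hT : ∀ i, TT ℂ (F i) G) (hE : ∀ i, ¬ TA ℂ (F i) G (· = 6))
    (hA : ∃ i, TA ℂ (F i) G (6 ≤ ·)) (hcen : 24 < (Subgroup.center G).index) :
    ¬ KodairaNegInf ℂ (Fix ℂ K G) 4 := by
  classical
  by_cases h0 : ∃ L : S.Loc, 4 < L.e
  swap
  · choose nn hW using fun i => (hT i).wt (hx i) (hgen i)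
    choose Φ hΦ hΦ' using fun i => (hW i).2
    exact S.easyn x Φ hx (by omega) hΦ nn (fun i => (hW i).1) hΦ' fun L hL => (h0 ⟨L, hL⟩).elim
  obtain ⟨L₀, hL₀⟩ := h0
  have h1 : ∃ r, ∃ i, TA ℂ (F i) G (· = r) ∧ 6 ≤ r := by
    obtain ⟨i, a, b, c, ht, ha, hb, hc⟩ := hA
    exact ⟨_, i, ⟨a, b, c, ht, ha, hb, rfl⟩, hc⟩
  obtain ⟨j, hj, h6⟩ := Nat.find_spec h1
  have hr' : ∀ i, TA ℂ (F i) G (6 ≤ ·) → TA ℂ (F i) G (Nat.find h1 ≤ ·) := by
    rintro i ⟨a, b, c, ht, ha, hb, hc⟩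
    exact ⟨a, b, c, ht, ha, hb, Nat.find_min' h1 ⟨i, ⟨a, b, c, ht, ha, hb, rfl⟩, hc⟩⟩
  generalize Nat.find h1 = r at hj h6 hr'
  have h7 : 7 ≤ r := by
    have : r ≠ 6 := fun h => hE j (h ▸ hj)
    omega
  have hj6 : TA ℂ (F j) G (6 ≤ ·) := hj.mono fun q hq => hq ▸ h6
  have hj7 : TA ℂ (F j) G (7 ≤ ·) := hj.mono fun q hq => hq ▸ h7
  have h2 : ∀ L : S.Loc, 4 < L.e → L.q j = L₀.q j ∧ (L.q j).ram = r := by
    obtain ⟨a, b, c, ht, ha, hb, hc⟩ := hj
    have h2 : ∀ L : S.Loc, 4 < L.e → L.q j = c := fun L hL => by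
      have := L.le_ram j
      rcases ht.cases (L.q j) with h | h | h | ⟨-, -, -, h⟩
      · rw [h] at this; omega
      · rw [h] at this; omega
      · exact h
      · omega
    exact fun L hL => ⟨(h2 L hL).trans (h2 L₀ hL₀).symm, h2 L hL ▸ hc⟩
  have h3 : ∀ L : S.Loc, 4 < L.e → ∃ A B, Tri237 A B (stabilizer G (L.p j)) ∧
      A ⊔ stabilizer G (L.p j) = ⊤ := fun L hL =>
    hj7.tri237' (hx j) (hgen j) (L.hq j) (hL.le.trans (L.le_ram j))
  obtain ⟨A, B, h4, h5⟩ := h3 L₀ hL₀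
  have h8 : ∀ L : S.Loc, 4 < L.e → ∀ k, L.e * k = r →
      (k = 1 → (Subgroup.centralizer (L.w.inertia G : Set G)).index =
        (Subgroup.centralizer (stabilizer G (L₀.p j) : Set G)).index) ∧
      (k < (Subgroup.center G).relIndex (stabilizer G (L₀.p j)) →
        3 ≤ (Subgroup.centralizer (L.w.inertia G : Set G)).index ∧
        (Subgroup.centralizer (L.w.inertia G : Set G)).index ∣
          (Subgroup.centralizer (stabilizer G (L₀.p j) : Set G)).index) := fun L hL k hk => by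
    obtain ⟨g, hg⟩ := exists_smul_eq (L₀.hq j) ((h2 L hL).1 ▸ L.hq j)
    obtain ⟨h8, h9⟩ := conj_inv g (stabilizer G (L₀.p j))
    rw [← stabilizer_smul_place, ← hg] at h8 h9
    rw [← h8, ← h9]
    have h10 : Nat.card (L.w.inertia G) * k = Nat.card (stabilizer G (L.p j)) := by
      rw [L.card, L.card_stab, hk, (h2 L hL).2]
    obtain ⟨A, B, h11, -⟩ := h3 L hL
    refine ⟨fun h12 => ?_, h11.index_ge (L.le_stab j) h10 (Nat.pos_of_ne_zero ?_)⟩
    · rw [Subgroup.eq_of_le_of_card_ge (L.le_stab j) (by rw [← h10, h12, mul_one])]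
    · rintro rfl; omega
  have h9 := (L₀.card_stab j).trans (h2 L₀ hL₀).2
  have key := @S.vol_pat _ _ _ _ _ _ _ _ _ _ _ _ _ _ _ _ x hx hgen hT L₀ hL₀ j hj6 r
    (fun L hL => (h2 L hL).2) hr'
  by_cases h10 : r = 7
  · have h11 := h4.classes_seven h5 (h9.trans h10)
    have h12 : ∀ s k, 4 < s → s * k = r → k = 1 := fun s k hs hk => by
      have := (Nat.dvd_prime (by norm_num)).1 (Dvd.intro k (hk.trans h10))
      obtain rfl : s = 7 := by omega
      omega
    refine key num1 (by simp) (by omega) (by omega) (fun s k hs hk h => ?_) fun L hL k hk _ => ?_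
    · have := h12 s k hs hk; omega
    · rwa [if_pos (h12 _ k hL hk), (h8 L hL k hk).1 (h12 _ k hL hk)]
  rcases h4.classes h5 with h11 | h11 | h11 | h11
  · omega
  · omega
  · refine key num2 (by simp) (by omega) (by omega) (fun s k _ _ h => by omega)
      fun L hL k hk h => ?_
    split_ifs with h12
    · rw [(h8 L hL k hk).1 h12]; omega
    · exact ((h8 L hL k hk).2 (by omega)).1
  have h12 : 6 ∣ r := h9 ▸ h11.1 ▸ Subgroup.relIndex_dvd_card _ _
  by_cases h13 : (Subgroup.centralizer (stabilizer G (L₀.p j) : Set G)).index = 8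
  · refine key num4 (fun _ => h12) (by omega) (by omega) (fun s k _ _ h => by omega)
      fun L hL k hk h => ?_
    split_ifs with h14
    · rw [(h8 L hL k hk).1 h14]; omega
    · obtain ⟨h15, h16⟩ := (h8 L hL k hk).2 (by omega)
      rw [h13] at h16
      have : (Subgroup.centralizer (L.w.inertia G : Set G)).index ≠ 3 := fun h => by
        rw [h] at h16; omega
      omega
  · refine key num3 (fun _ => h12) (by omega) (by omega) (fun s k _ _ h => by omega)
      fun L hL k hk h => ?_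
    split_ifs with h14
    · rw [(h8 L hL k hk).1 h14]; omega
    · exact ((h8 L hL k hk).2 (by omega)).1

end Setup

end Pool.Agent.Lib.MP_e06174_ag
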