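import Pool.Agent.Lib.MP_e06174_ag.Ell4
import Pool.Agent.Lib.MP_e06174_ag.Vol4
import Pool.Agent.Lib.MP_e06174_ag.Abbb
import Pool.Agent.Lib.MP_e06174_ag.Plu

/-! Quotients of products of at least four curves by groups acting faithfully on each factor. -/

set_option linter.unusedSectionVars false

open Polynomial IntermediateField Module MulAction

namespace Pool.Agent.Lib.MP_e06174_ag.Setup

open Place

variable {G : Type} [Group G] [Finite G] {K : Type} [Field K] [Algebra ℂ K]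
  [MulSemiringAction G K] [SMulCommClass G ℂ K]

theorem four {F : Fin 4 → Type} [∀ i, Field (F i)] [∀ i, Algebra ℂ (F i)]
    [∀ i, MulSemiringAction G (F i)] [∀ i, SMulCommClass G ℂ (F i)] [∀ i, FaithfulSMul G (F i)]
    {ι : ∀ i, F i →ₐ[ℂ] K} (S : Setup G ι) (hκ : KodairaNegInf ℂ (Fix ℂ K G) 4) :
    Uniruled ℂ (Fix ℂ K G) := by
  classical
  by_contra hu
  have hirr : ∀ i (t : F i), ℂ⟮t⟯ ≠ ⊤ := fun i t ht => hu (S.uniruled_of_rational ht)
  have := S.faithful fun g hg => ⟨0, by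
    by_contra h
    push Not at h
    exact hg (faithfulSMul_iff.1 (inferInstanceAs (FaithfulSMul G (F 0))) g h)⟩
  choose y hy using S.coord
  choose x hx hc using fun i => classify4 G (hy i) (hirr i)
  have h1 : ∀ i, ∃ (s : ℕ) (nn : Place ℂ (Fix ℂ (F i) G) → ℕ), Wt (x i) 12 nn ∧
      (∀ q : Place ℂ (Fix ℂ (F i) G), 5 ≤ q.ram → s ≤ nn q) ∧ 2 ≤ s ∧
      (s < 6 → ℂ⟮x i⟯ = ⊤ ∧ TT ℂ (F i) G) ∧ (s < 3 → TA ℂ (F i) G (6 ≤ ·)) := fun i => by
    obtain ⟨nn, h1, h2⟩ | ⟨hgen, hT⟩ := hc i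
    · exact ⟨6, nn, h1, fun q _ => h2 q, by omega, by omega, by omega⟩
    have hP : ∀ q : Place ℂ (Fix ℂ (F i) G), 5 ≤ q.ram → q.ram ≠ 1 := fun _ _ => by omega
    rcases hT.cases with h | ⟨a, b, c, ht, ha, hb, hc⟩ | ⟨a, b, c, ht, ha, hb, hc⟩
    · obtain ⟨a, b, c, ht, ha, hb, hc⟩ := id h
      obtain ⟨nn, h1, h2⟩ := ht.wt' (hx i) hgen (m := 12) (na := 6) (nb := 4) (nc := 2) (s := 2)
        le_rfl (by omega) (by omega) (by omega) hP (by omega) (by omega) (by omega)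
      exact ⟨2, nn, h1, h2, le_rfl, fun _ => ⟨hgen, hT⟩, fun _ => h⟩
    · obtain ⟨nn, h1, h2⟩ := ht.wt' (hx i) hgen (m := 12) (na := 6) (nb := 3) (nc := 3) (s := 3)
        le_rfl (by omega) (by omega) (by omega) hP (by omega) (by omega) (by omega)
      exact ⟨3, nn, h1, h2, by omega, fun _ => ⟨hgen, hT⟩, by omega⟩
    · obtain ⟨nn, h1, h2⟩ := ht.wt' (hx i) hgen (m := 12) (na := 4) (nb := 4) (nc := 4) (s := 3)
        le_rfl (by omega) (by omega) (by omega) hP (by omega) (by omega) (by omega)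
      exact ⟨3, nn, h1, h2, by omega, fun _ => ⟨hgen, hT⟩, by omega⟩
  choose s nn hW h2 h3 h4 h5 using h1
  have h6 : ∑ i, s i < 12 := by
    by_contra h6
    choose Φ hΦ hΦ' using fun i => (hW i).2
    exact S.easyn x Φ hx (by omega) hΦ nn (fun i => (hW i).1) hΦ' (fun L hL =>
      (not_lt.1 h6).trans (Finset.sum_le_sum fun i _ =>
        (h2 i _ ((Nat.succ_le_of_lt hL).trans (L.le_ram i))).trans
          (Nat.le_mul_of_pos_left _ (L.one_le_d i)))) hκ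
  obtain ⟨h7, j, hj⟩ : (∀ i, s i < 6) ∧ ∃ j, s j < 3 := by
    have := h3 0
    have := h3 1
    have := h3 2
    have := h3 3
    simp only [Fin.sum_univ_four] at h6
    simp only [Fin.exists_fin_succ, Fin.forall_fin_succ]
    simp
    omega
  have hgen := fun i => (h4 i (h7 i)).1
  have hT := fun i => (h4 i (h7 i)).2
  by_cases hE : ∃ i, TA ℂ (F i) G (· = 6)
  · exact hu (S.ell_four x hx hgen hirr hT hE.choose_spec hκ)
  push Not at hE
  by_cases hcen : 24 < (Subgroup.center G).index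
  · exact S.vol_four x hx hgen hT hE ⟨j, h5 j hj⟩ hcen hκ
  by_cases h8 : ∃ i, i ≠ j ∧ TA ℂ (F i) G (6 ≤ ·)
  · obtain ⟨i, hi, h8⟩ := h8
    exact S.pluecker x hx hgen hT hE hi h8 (h5 j hj) (not_lt.1 hcen) hκ
  · refine S.abbb x hx hgen hT (j := j) ?_ (fun i hi h => h8 ⟨i, hi, h⟩) (not_lt.1 hcen) hκ
    obtain ⟨a, b, c, ht, ha, hb, hc⟩ := h5 j hj
    have : c.ram ≠ 6 := fun h => hE j ⟨a, b, c, ht, ha, hb, h⟩
    exact ⟨a, b, c, ht, ha, hb, by omega⟩

theorem faithful_all {n : ℕ} (hn : 4 ≤ n) {F : Fin n → Type} [∀ i, Field (F i)]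
    [∀ i, Algebra ℂ (F i)] [∀ i, MulSemiringAction G (F i)] [∀ i, SMulCommClass G ℂ (F i)]
    [∀ i, FaithfulSMul G (F i)] {ι : ∀ i, F i →ₐ[ℂ] K} (S : Setup G ι)
    (hκ : KodairaNegInf ℂ (Fix ℂ K G) n) : Uniruled ℂ (Fix ℂ K G) := by
  obtain rfl | rfl | h6 : n = 4 ∨ n = 5 ∨ 6 ≤ n := by omega
  · exact S.four hκ
  · exact S.five hκ
  · refine S.six (fun g hg => ?_) hκ
    have h1 : ∀ i, ∃ f : F i, g • f ≠ f := fun i => by
      by_contra h
      push Not at h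
      exact hg (faithfulSMul_iff.1 (inferInstanceAs (FaithfulSMul G (F i))) g h)
    simpa [h1] using h6

end Pool.Agent.Lib.MP_e06174_ag.Setup
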