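import Mathlib

/-! Group theory of quotients of the triangle groups of type `(2, 3, r)`, `r ≥ 7`. -/

set_option linter.unusedSectionVars false

open Subgroup

namespace Pool.Agent.Lib.MP_e06174_ag

lemma orderOf_le_of_fix {α : Type*} [Finite α] (σ : Equiv.Perm α) {a : α} (ha : σ a = a) :
    (Nat.card α = 4 → orderOf σ ≤ 3) ∧ (Nat.card α = 5 → orderOf σ ≤ 4) := by
  have key : ∀ n : ℕ, Nat.card α = n → ∃ (τ : Equiv.Perm (Fin n)) (b : Fin n), τ b = b ∧
      orderOf τ = orderOf σ := fun n hn => by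
    let e : α ≃ Fin n := Finite.equivFinOfCardEq hn
    exact ⟨e.permCongrHom σ, e a, by simp [ha], e.permCongrHom.orderOf_eq σ⟩
  have h4 : ∀ (τ : Equiv.Perm (Fin 4)) (b : Fin 4), τ b = b → τ ^ 2 = 1 ∨ τ ^ 3 = 1 := by
    decide +kernel
  have h5 : ∀ (τ : Equiv.Perm (Fin 5)) (b : Fin 5), τ b = b → τ ^ 4 = 1 ∨ τ ^ 3 = 1 := by
    decide +kernel
  constructor
  · intro h
    obtain ⟨τ, b, hb, h1⟩ := key 4 h
    rcases h4 τ b hb with h2 | h2 <;> have := orderOf_le_of_pow_eq_one (by omega) h2 <;> omega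
  · intro h
    obtain ⟨τ, b, hb, h1⟩ := key 5 h
    rcases h5 τ b hb with h2 | h2 <;> have := orderOf_le_of_pow_eq_one (by omega) h2 <;> omega

/-- The consequences of the Hurwitz inequality for a cover of type `(2, 3, r)`. -/
structure Tri237 {G : Type*} [Group G] (A B I : Subgroup G) : Prop where
  cardA : Nat.card A = 2
  cardB : Nat.card B = 3
  cardI : 7 ≤ Nat.card I
  cyc : IsCyclic I
  hur : ∀ N : Subgroup G, N.Normal → 2 - 2 / (N.index : ℚ) ≤
    (1 - 1 / (N.relIndex A : ℚ)) + (1 - 1 / (N.relIndex B : ℚ)) + (1 - 1 / (N.relIndex I : ℚ))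

namespace Tri237

variable {G : Type*} [Group G] [Finite G] {A B I : Subgroup G} (h : Tri237 A B I)
include h

lemma relA (N : Subgroup G) : N.relIndex A = 1 ∨ N.relIndex A = 2 :=
  (Nat.dvd_prime Nat.prime_two).1 (h.cardA ▸ relIndex_dvd_card N A)

lemma relB (N : Subgroup G) : N.relIndex B = 1 ∨ N.relIndex B = 3 :=
  (Nat.dvd_prime Nat.prime_three).1 (h.cardB ▸ relIndex_dvd_card N B)

lemma eq_top_of_le (N : Subgroup G) [hN : N.Normal] (hI : I ≤ N) : N = ⊤ := by
  have h1 := h.hur N hN
  have h2 := relIndex_dvd_index_of_normal N B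
  have h3 : N.index ≠ 0 := index_ne_zero_of_finite
  rw [relIndex_eq_one.2 hI] at h1
  rw [← index_eq_one]
  by_contra h4
  by_cases h5 : N.index = 2
  · rw [h5] at h1 h2
    have hb : N.relIndex B = 1 := (h.relB N).resolve_right fun hb => by
      rw [hb] at h2; norm_num at h2
    have : 0 < 1 / (N.index : ℚ) := by positivity
    rcases h.relA N with ha | ha <;> rw [ha, hb] at h1 <;> norm_num at h1
  · have h6 : (3 : ℚ) ≤ N.index := by exact_mod_cast (by omega : 3 ≤ N.index)
    have h7 : 2 / (N.index : ℚ) ≤ 2 / 3 := by gcongr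
    rcases h.relA N with ha | ha <;> rcases h.relB N with hb | hb <;>
      rw [ha, hb] at h1 <;> norm_num at h1 <;> linarith

lemma eq_top_of_le' (N : Subgroup G) [hN : N.Normal] (hA : A ≤ N) (hB : B ≤ N) : N = ⊤ := by
  have h1 := h.hur N hN
  have h3 : N.index ≠ 0 := index_ne_zero_of_finite
  have h4 : N.relIndex I ≠ 0 := index_ne_zero_of_finite
  rw [relIndex_eq_one.2 hA, relIndex_eq_one.2 hB] at h1
  rw [← index_eq_one]
  by_contra h5
  have h6 : (2 : ℚ) ≤ N.index := by exact_mod_cast (by omega : 2 ≤ N.index)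
  have h7 : 2 / (N.index : ℚ) ≤ 2 / 2 := by gcongr
  have h8 : 0 < 1 / (N.relIndex I : ℚ) := by positivity
  norm_num at h1 h7 h8
  have : 0 < (N.relIndex I : ℚ)⁻¹ := by positivity
  linarith

lemma pow_eq_one {n : ℕ} (h6 : 6 ∣ n) (hn : ∀ x y : G, (x * y) ^ n = x ^ n * y ^ n) (x : G) :
    x ^ n = 1 := by
  let N : Subgroup G :=
    { carrier := {x | x ^ n = 1}
      mul_mem' := fun {a b} ha hb => by
        simp only [Set.mem_ofPred_eq] at ha hb ⊢
        rw [hn, ha, hb, mul_one]
      one_mem' := one_pow n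
      inv_mem' := fun {a} ha => by
        simp only [Set.mem_ofPred_eq] at ha ⊢
        rw [inv_pow, ha, inv_one] }
  have hN : N.Normal := ⟨fun a ha g => by
    have ha : a ^ n = 1 := ha
    change (g * a * g⁻¹) ^ n = 1
    rw [conj_pow, ha]; simp⟩
  have key : ∀ H : Subgroup G, Nat.card H ∣ 6 → H ≤ N := fun H hH a ha => by
    obtain ⟨c, hc⟩ := hH.trans h6
    change a ^ n = 1
    have : a ^ Nat.card H = 1 := congrArg Subtype.val (pow_card_eq_one' (x := (⟨a, ha⟩ : H)))
    rw [hc, pow_mul, this, one_pow]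
  have := h.eq_top_of_le' N (key A (by rw [h.cardA]; decide)) (key B (by rw [h.cardB]; decide))
  exact (this ▸ mem_top x : x ∈ N)

lemma card_dvd {n : ℕ} (hn : ∀ x : G, x ^ n = 1) : Nat.card I ∣ n := by
  obtain ⟨g, hg⟩ := h.cyc.exists_ofOrder_eq_natCard
  rw [← hg, orderOf_dvd_iff_pow_eq_one]
  exact Subtype.ext (hn g)

lemma not_le_center : ¬ I ≤ center G := by
  intro h1
  have h2 := h.eq_top_of_le _ h1
  have h3 := h.card_dvd (h.pow_eq_one dvd_rfl fun x y =>
    Commute.mul_pow (mem_center_iff.1 (h2 ▸ mem_top y) x) 6)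
  have := Nat.le_of_dvd (by omega) h3
  have := h.cardI
  omega

lemma core_eq : (centralizer (I : Set G)).normalCore = center G := by
  refine le_antisymm ?_ (normal_le_normalCore.2 (center_le_centralizer _))
  have h1 : I ≤ centralizer ((centralizer (I : Set G)).normalCore : Set G) :=
    le_centralizer_iff.1 (normalCore_le _)
  exact centralizer_eq_top_iff_subset.1 (h.eq_top_of_le _ h1)

lemma index_dvd : (center G).index ∣ (centralizer (I : Set G)).index.factorial := by
  rw [← h.core_eq, normalCore_eq_ker, index_ker, index_eq_card, ← Nat.card_perm]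
  exact card_subgroup_dvd_card _

lemma mem_center (h6 : (centralizer (I : Set G)).index ≤ 6) {x : G} (hx : x ^ 7 = 1) :
    x ∈ center G := by
  have h1 := (center G).pow_index_mem x
  obtain ⟨c, hc⟩ := h.index_dvd.trans (Nat.factorial_dvd_factorial h6)
  have h2 := pow_mem h1 c
  rw [← pow_mul, ← hc, show Nat.factorial 6 = 7 * 102 + 6 by decide, pow_add, pow_mul, hx,
    one_pow, one_mul] at h2
  have h3 : x = (x ^ 6)⁻¹ := by
    rw [eq_inv_iff_mul_eq_one, ← pow_succ', hx]
  rw [h3]
  exact inv_mem h2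

theorem dichotomy : 6 ≤ (centralizer (I : Set G)).index ∨
    (4 ≤ (centralizer (I : Set G)).index ∧ ∀ x : G, x ^ 12 = 1) := by
  set C := centralizer (I : Set G) with hC
  have hIC : I ≤ C := fun a ha b hb => by
    have := h.cyc.isMulCommutative
    exact congrArg Subtype.val (mul_comm' (⟨b, hb⟩ : I) ⟨a, ha⟩)
  have hκ0 : C.index ≠ 0 := index_ne_zero_of_finite
  have hκ1 : C.index ≠ 1 := fun h1 =>
    h.not_le_center (centralizer_eq_top_iff_subset.1 (index_eq_one.1 h1))
  have hn0 : (center G).index ≠ 0 := index_ne_zero_of_finite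
  have hk0 : (center G).relIndex I ≠ 0 := index_ne_zero_of_finite
  have h1 := relIndex_mul_index (center_le_centralizer (I : Set G))
  have h2 : (center G).relIndex I ≤ (center G).relIndex C :=
    relIndex_le_of_le_right hIC index_ne_zero_of_finite
  have h3 := h.hur (center G) inferInstance
  have h4 : 2 / ((center G).index : ℚ) ≤ 1 / ((center G).relIndex I : ℚ) := by
    rw [div_le_div_iff₀ (by positivity) (by positivity)]
    have : 2 * (center G).relIndex I ≤ 1 * (center G).index := by
      rw [← h1, ← hC]; nlinarith [Nat.one_le_iff_ne_zero.2 hκ0, (by omega : 2 ≤ C.index)]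
    exact_mod_cast this
  have hab : (center G).relIndex A = 2 ∧ (center G).relIndex B = 3 := by
    rcases h.relA (center G) with ha | ha <;> rcases h.relB (center G) with hb | hb <;>
      rw [ha, hb] at h3 <;> norm_num at h3 h4 <;>
      first | exact ⟨ha, hb⟩ | linarith
  have h5 : 6 ∣ (center G).index := Nat.Coprime.mul_dvd_of_dvd_of_dvd (m := 2) (n := 3)
    (by decide) (hab.1 ▸ relIndex_dvd_index_of_normal _ A)
    (hab.2 ▸ relIndex_dvd_index_of_normal _ B)
  have h6 := h.pow_eq_one h5 fun x y =>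
    congrArg Subtype.val (map_mul (MonoidHom.transferCenterPow G) x y)
  have h7 := h.index_dvd
  have h8 : C.index ∣ (center G).index := Dvd.intro_left _ h1
  rw [hab.1, hab.2] at h3
  have h9 : (C.index = 4 → (center G).relIndex I ≤ 3) ∧
      (C.index = 5 → (center G).relIndex I ≤ 4) := by
    obtain ⟨⟨g, hgI⟩, hg⟩ := h.cyc.exists_generator
    have h10 : I = zpowers g := le_antisymm (fun a ha => by
      obtain ⟨j, hj⟩ := hg ⟨a, ha⟩
      exact ⟨j, congrArg Subtype.val hj⟩) (zpowers_le_of_mem hgI)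
    have h11 : (center G).relIndex I = orderOf (MulAction.toPermHom G (G ⧸ C) g) := by
      rw [← h.core_eq, normalCore_eq_ker, relIndex_ker, ← hC, h10, MonoidHom.map_zpowers,
        Nat.card_zpowers]
    rw [h11]
    refine orderOf_le_of_fix _ (a := ((1 : G) : G ⧸ C)) ?_
    change ((g * 1 : G) : G ⧸ C) = _
    rw [QuotientGroup.eq]
    simpa using hIC hgI
  have h10 : ∀ j : ℕ, (center G).relIndex I ≤ j → 1 / (j : ℚ) ≤ 1 / 6 + 2 / (center G).index := by
    intro j hj
    have : 1 / (j : ℚ) ≤ 1 / ((center G).relIndex I : ℚ) := by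
      gcongr
    norm_num at h3 this ⊢
    linarith
  by_contra hcon
  rw [← hC] at h7
  have h11 : C.index = 2 ∨ C.index = 3 ∨ C.index = 4 ∨ C.index = 5 := by omega
  have hpos : (0 : ℚ) < (center G).index := by positivity
  rcases h11 with h11 | h11 | h11 | h11 <;> rw [h11] at h7 h8
  · exact absurd (h5.trans h7) (by decide)
  · have h12 : (center G).index = 6 := Nat.dvd_antisymm h7 h5
    rw [h12] at h6
    have := Nat.le_of_dvd (by omega) (h.card_dvd h6)
    have := h.cardI
    omega
  · have h12 := h10 3 (h9.1 h11)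
    have h13 : ((center G).index : ℚ) ≤ 12 := by
      have : (1 / 6 : ℚ) ≤ 2 / (center G).index := by norm_num at h12 ⊢; linarith
      rw [le_div_iff₀ hpos] at this
      linarith
    have h14 : (center G).index ≤ 12 := by exact_mod_cast h13
    have h15 : (center G).index = 12 := by omega
    exact hcon (Or.inr ⟨h11.ge, h15 ▸ h6⟩)
  · have h12 := h10 4 (h9.2 h11)
    have h13 : ((center G).index : ℚ) ≤ 24 := by
      have : (1 / 12 : ℚ) ≤ 2 / (center G).index := by norm_num at h12 ⊢; linarith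
      rw [le_div_iff₀ hpos] at this
      linarith
    have h14 : (center G).index ≤ 24 := by exact_mod_cast h13
    omega

end Tri237

end Pool.Agent.Lib.MP_e06174_ag
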