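import Pool.Agent.Lib.MP_e06174_ag.Group

/-! Class-size bounds for quotients of the triangle groups of type `(2, 3, r)`, `r ≥ 7`. -/

set_option linter.unusedSectionVars false

open Subgroup

namespace Pool.Agent.Lib.MP_e06174_ag.Tri237

variable {G : Type*} [Group G] [Finite G] {A B I : Subgroup G}

lemma exists_gen {H : Subgroup G} (hH : IsCyclic H) : ∃ g : G, H = zpowers g := by
  obtain ⟨⟨g, hgI⟩, hg⟩ := hH.exists_generator
  exact ⟨g, le_antisymm (fun a ha => by
    obtain ⟨j, hj⟩ := hg ⟨a, ha⟩
    exact ⟨j, congrArg Subtype.val hj⟩) (zpowers_le_of_mem hgI)⟩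

lemma le_cent (h : Tri237 A B I) : I ≤ centralizer (I : Set G) := fun a ha b hb => by
  have := h.cyc.isMulCommutative
  exact congrArg Subtype.val (mul_comm' (⟨b, hb⟩ : I) ⟨a, ha⟩)

/-- Basic numerical facts. -/
lemma basic (h : Tri237 A B I) : 6 ∣ (center G).index ∧ Nat.card I ∣ (center G).index ∧
    1 / ((center G).relIndex I : ℚ) ≤ 1 / 6 + 2 / (center G).index := by
  set C := centralizer (I : Set G) with hC
  have hIC : I ≤ C := h.le_cent
  have hκ0 : C.index ≠ 0 := index_ne_zero_of_finite
  have hκ1 : C.index ≠ 1 := fun h1 =>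
    h.not_le_center (centralizer_eq_top_iff_subset.1 (index_eq_one.1 h1))
  have hn0 : (center G).index ≠ 0 := index_ne_zero_of_finite
  have hk0 : (center G).relIndex I ≠ 0 := index_ne_zero_of_finite
  have h1 := relIndex_mul_index (center_le_centralizer (I : Set G))
  have h2 : (center G).relIndex I ≤ (center G).relIndex C :=
    relIndex_le_of_le_right hIC index_ne_zero_of_finite
  have h3 := h.hur (center G) inferInstance
  have h4 : 2 / ((center G).index : ℚ) ≤ 1 / ((center G).relIndex I : ℚ) := by
    rw [div_le_div_iff₀ (by positivity) (by positivity)]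
    have : 2 * (center G).relIndex I ≤ 1 * (center G).index := by
      rw [← h1, ← hC]; nlinarith [Nat.one_le_iff_ne_zero.2 hκ0, (by omega : 2 ≤ C.index)]
    exact_mod_cast this
  have hab : (center G).relIndex A = 2 ∧ (center G).relIndex B = 3 := by
    rcases h.relA (center G) with ha | ha <;> rcases h.relB (center G) with hb | hb <;>
      rw [ha, hb] at h3 <;> norm_num at h3 h4 <;>
      first | exact ⟨ha, hb⟩ | linarith
  have h5 : 6 ∣ (center G).index := Nat.Coprime.mul_dvd_of_dvd_of_dvd (m := 2) (n := 3)
    (by decide) (hab.1 ▸ relIndex_dvd_index_of_normal _ A)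
    (hab.2 ▸ relIndex_dvd_index_of_normal _ B)
  have h6 := h.pow_eq_one h5 fun x y =>
    congrArg Subtype.val (map_mul (MonoidHom.transferCenterPow G) x y)
  refine ⟨h5, h.card_dvd h6, ?_⟩
  rw [hab.1, hab.2] at h3
  norm_num at h3 ⊢
  linarith

/-- `C / Z` acts freely on an orbit of conjugates of the generator of `I`. -/
lemma rel_lt (h : Tri237 A B I) (hgen : A ⊔ I = ⊤) :
    (center G).relIndex (centralizer (I : Set G)) + 1 ≤ (centralizer (I : Set G)).index := by
  set C := centralizer (I : Set G) with hC
  obtain ⟨a, ha⟩ := exists_gen h.cyc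
  have : Fact (Nat.Prime 2) := ⟨Nat.prime_two⟩
  obtain ⟨x, hx⟩ := exists_gen (isCyclic_of_prime_card h.cardA)
  have hx2 : x * x = 1 := by
    have h1 : orderOf x = 2 := by rw [← Nat.card_zpowers, ← hx, h.cardA]
    rw [← pow_two, ← h1, pow_orderOf_eq_one]
  have hxi : x⁻¹ = x := inv_eq_of_mul_eq_one_right hx2
  have haI : a ∈ I := ha ▸ mem_zpowers a
  have hmem : ∀ c : G, c ∈ C ↔ a * c = c * a := fun c =>
    ⟨fun hc => hc a haI, fun hc b hb => by
      rw [ha] at hb
      obtain ⟨j, rfl⟩ := hb
      exact (Commute.zpow_left hc j :)⟩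
  have hxC : x ∉ C := fun hxC => by
    have h1 : C = ⊤ := top_le_iff.1 (hgen ▸ sup_le (hx ▸ zpowers_le_of_mem hxC) h.le_cent)
    exact h.not_le_center (centralizer_eq_top_iff_subset.1 h1)
  -- the subgroup generated by `a` and its conjugate is everything
  have hcl : closure ({a, x * a * x} : Set G) = ⊤ := by
    set H := closure ({a, x * a * x} : Set G) with hH
    have haH : a ∈ H := subset_closure (by simp)
    have hbH : x * a * x ∈ H := subset_closure (by simp)
    have hconj : ∀ y ∈ H, x * y * x ∈ H := fun y hy => by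
      induction hy using closure_induction with
      | mem z hz =>
        rcases hz with rfl | hz
        · exact hbH
        · rw [Set.mem_singleton_iff.1 hz]
          have : x * (x * a * x) * x = (x * x) * a * (x * x) := by group
          rw [this, hx2, one_mul, mul_one]
          exact haH
      | one => rw [mul_one, hx2]; exact one_mem _
      | mul y z _ _ hy hz =>
        have : x * (y * z) * x = (x * y * x) * (x * z * x) := by
          have : x * y * x * (x * z * x) = x * y * (x * x) * z * x := by group
          rw [this, hx2]; group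
        rw [this]
        exact mul_mem hy hz
      | inv y _ hy =>
        have : x * y⁻¹ * x = (x * y * x)⁻¹ := by
          rw [mul_inv_rev, mul_inv_rev, hxi, mul_assoc]
        rw [this]
        exact inv_mem hy
    have hxN : x ∈ normalizer (H : Set G) := by
      rw [mem_normalizer_iff]
      intro y
      rw [hxi]
      refine ⟨hconj y, fun hy => ?_⟩
      have h1 := hconj _ hy
      have : x * (x * y * x) * x = (x * x) * y * (x * x) := by group
      rwa [this, hx2, one_mul, mul_one] at h1
    have hIH : I ≤ H := ha ▸ zpowers_le_of_mem haH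
    have hN : normalizer (H : Set G) = ⊤ := top_le_iff.1
      (hgen ▸ sup_le (hx ▸ zpowers_le_of_mem hxN) (hIH.trans le_normalizer))
    have : H.Normal := normalizer_eq_top_iff.1 hN
    exact h.eq_top_of_le H hIH
  have hst : MulAction.stabilizer C ((x : G) : G ⧸ C) = (center G).subgroupOf C := by
    ext ⟨c, hc⟩
    rw [MulAction.mem_stabilizer_iff, mem_subgroupOf]
    change ((c * x : G) : G ⧸ C) = x ↔ c ∈ center G
    rw [eq_comm, QuotientGroup.eq, hxi, hmem]
    constructor
    · intro h1
      have h2 : c ∈ centralizer ((closure ({a, x * a * x} : Set G) : Subgroup G) : Set G) := by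
        rw [centralizer_closure]
        rintro z (rfl | hz)
        · exact (hmem c).1 hc
        · rw [Set.mem_singleton_iff.1 hz]
          calc x * a * x * c = x * (a * (x * (c * x))) * x := by
                have : x * (a * (x * (c * x))) * x = x * a * x * c * (x * x) := by group
                rw [this, hx2, mul_one]
            _ = x * (x * (c * x) * a) * x := by rw [h1]
            _ = (x * x) * c * (x * a * x) := by group
            _ = c * (x * a * x) := by rw [hx2, one_mul]
      rwa [hcl, coe_top, centralizer_univ] at h2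
    · intro h1
      have h2 := mem_center_iff.1 h1
      rw [← h2 x, ← mul_assoc x x, hx2, one_mul, h2]
  have h1 : (center G).relIndex C = (MulAction.orbit C ((x : G) : G ⧸ C)).ncard := by
    rw [← MulAction.index_stabilizer, hst, relIndex]
  have h2 : ((1 : G) : G ⧸ C) ∉ MulAction.orbit C ((x : G) : G ⧸ C) := by
    rintro ⟨⟨c, hc⟩, h2⟩
    change ((c * x : G) : G ⧸ C) = ((1 : G) : G ⧸ C) at h2
    rw [eq_comm, QuotientGroup.eq, inv_one, one_mul] at h2
    exact hxC ((mul_mem_cancel_left hc).1 h2)
  rw [h1, ← Set.ncard_insert_of_notMem h2, index_eq_card, ← Set.ncard_univ]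
  exact Set.ncard_le_ncard (Set.subset_univ _)

lemma rel_dvd (h : Tri237 A B I) :
    (center G).relIndex I ∣ (center G).relIndex (centralizer (I : Set G)) := by
  have h1 := relIndex_mul_relIndex (center G) (center G ⊔ I) (centralizer (I : Set G)) le_sup_left
    (sup_le (center_le_centralizer _) h.le_cent)
  rw [relIndex_sup_left] at h1
  exact Dvd.intro _ h1

/-- A cyclic Sylow `2`-subgroup of `G / Z` has a normal complement. -/
lemma exists_normal (h : Tri237 A B I) (P : Sylow 2 (G ⧸ center G)) (hP : IsCyclic P) :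
    ∃ N : Subgroup G, N.Normal ∧ center G ≤ N ∧ N.index = Nat.card P := by
  have h2 : (Nat.card (G ⧸ center G)).minFac = 2 :=
    (Nat.minFac_eq_two_iff _).2 ((by decide : 2 ∣ 6).trans h.basic.1)
  have h3 := hP.isComplement' h2
  refine ⟨_, (inferInstance : (comap (QuotientGroup.mk' (center G))
    (MonoidHom.transferSylow P (hP.normalizer_le_centralizer h2)).ker).Normal), ?_, ?_⟩
  · intro z hz
    rw [mem_comap, QuotientGroup.mk'_apply, (QuotientGroup.eq_one_iff z).2 hz]
    exact one_mem _
  · rw [index_comap_of_surjective _ (QuotientGroup.mk'_surjective _), h3.symm.index_eq_card]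

lemma four_dvd (h : Tri237 A B I) (hodd : ¬ 2 ∣ (center G).relIndex I) : 4 ∣ (center G).index := by
  by_contra h4
  have : Fact (Nat.Prime 2) := ⟨Nat.prime_two⟩
  obtain ⟨P⟩ := (Sylow.nonempty : Nonempty (Sylow 2 (G ⧸ center G)))
  have hn0 : (center G).index ≠ 0 := index_ne_zero_of_finite
  have h2 : 2 ∣ (center G).index := (by decide : 2 ∣ 6).trans h.basic.1
  have h1 : Nat.card P = 2 := by
    rw [P.card_eq_multiplicity, ← index_eq_card]
    have h5 : 1 ≤ (center G).index.factorization 2 :=
      (Nat.prime_two.pow_dvd_iff_le_factorization hn0).1 (by simpa using h2)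
    have h6 : ¬ 2 ≤ (center G).index.factorization 2 := fun h6 =>
      h4 ((Nat.prime_two.pow_dvd_iff_le_factorization hn0).2 h6)
    rw [show (center G).index.factorization 2 = 1 by omega, pow_one]
  obtain ⟨N, hN, hZ, hi⟩ := h.exists_normal P (isCyclic_of_prime_card h1)
  rw [h1] at hi
  have h5 : N.relIndex I ∣ 2 := hi ▸ relIndex_dvd_index_of_normal N I
  have h6 := relIndex_dvd_of_le_left I hZ
  rcases (Nat.dvd_prime Nat.prime_two).1 h5 with h7 | h7
  · rw [h.eq_top_of_le N (relIndex_eq_one.1 h7), index_top] at hi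
    omega
  · exact hodd (h7 ▸ h6)

lemma card_map (I : Subgroup G) :
    Nat.card (I.map (QuotientGroup.mk' (center G))) = (center G).relIndex I := by
  rw [← relIndex_ker, QuotientGroup.ker_mk']

lemma not_72 (h : Tri237 A B I) (h8 : (center G).relIndex I = 8) : (center G).index ≠ 72 := by
  intro h72
  have : Fact (Nat.Prime 2) := ⟨Nat.prime_two⟩
  have h1 : Nat.card (I.map (QuotientGroup.mk' (center G))) = 2 ^ 3 := by rw [card_map, h8]; rfl
  have h2 := (I.map (QuotientGroup.mk' (center G))).card_mul_index
  rw [h1, ← index_eq_card, h72] at h2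
  have h3 : ¬ 2 ∣ (I.map (QuotientGroup.mk' (center G))).index := by omega
  have hc : IsCyclic (I.map (QuotientGroup.mk' (center G))) := by
    obtain ⟨a, ha⟩ := exists_gen h.cyc
    rw [ha, MonoidHom.map_zpowers]
    infer_instance
  obtain ⟨N, hN, -, hi⟩ := h.exists_normal ((IsPGroup.of_card h1).toSylow h3) hc
  have hi8 : N.index = 8 := hi.trans h1
  have h4 := h.hur N hN
  have h5 : N.relIndex B = 1 := (h.relB N).resolve_right fun hb => by
    have := relIndex_dvd_index_of_normal N B
    rw [hb, hi8] at this
    omega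
  have h6 : N.relIndex I ≠ 0 := index_ne_zero_of_finite
  have h7 : 0 < 1 / (N.relIndex I : ℚ) := by positivity
  rw [hi8, h5] at h4
  rcases h.relA N with ha | ha <;> rw [ha] at h4 <;> norm_num at h4 h7 <;>
    have : 0 < (N.relIndex I : ℚ)⁻¹ := by positivity
  all_goals linarith

/-- Transfer to an abelian subgroup, evaluated at a central element. -/
lemma central_pow (h : Tri237 A B I) (P : Subgroup G) [IsMulCommutative P] {z : G}
    (hz : z ∈ center G) : z ^ (P.index * 6) = 1 := by
  open scoped IsMulCommutative in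
  let V : G →* P := (powMonoidHom 6).comp (MonoidHom.transfer (MonoidHom.id P))
  have key : ∀ H : Subgroup G, Nat.card H ∣ 6 → H ≤ V.ker := fun H hH a ha => by
    obtain ⟨c, hc⟩ := hH
    have h1 : a ^ Nat.card H = 1 := congrArg Subtype.val (pow_card_eq_one' (x := (⟨a, ha⟩ : H)))
    have h2 : a ^ 6 = 1 := by rw [hc, pow_mul, h1, one_pow]
    open scoped IsMulCommutative in
    change (MonoidHom.transfer (MonoidHom.id P) a) ^ 6 = 1
    rw [← map_pow, h2, map_one]
  have h1 := h.eq_top_of_le' V.ker (key A (by rw [h.cardA]; decide))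
    (key B (by rw [h.cardB]; decide))
  have h2 : z ∈ V.ker := h1 ▸ mem_top z
  open scoped IsMulCommutative in
  change (MonoidHom.transfer (MonoidHom.id P) z) ^ 6 = 1 at h2
  rw [MonoidHom.transfer_eq_pow _ z fun k g _ => by
    rw [mul_assoc, ← mem_center_iff.1 (pow_mem hz k) g, inv_mul_cancel_left]] at h2
  rw [pow_mul]
  exact congrArg Subtype.val h2

lemma not_42 (h : Tri237 A B I) (h6 : (center G).relIndex I = 6) : (center G).index ≠ 42 := by
  intro h42
  have : Fact (Nat.Prime 7) := ⟨by norm_num⟩
  obtain ⟨g, hg⟩ := exists_prime_orderOf_dvd_card' (G := G ⧸ center G) 7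
    (by rw [← index_eq_card, h42]; decide)
  let P := (zpowers g).comap (QuotientGroup.mk' (center G))
  have h1 : P.index = 6 := by
    have := (zpowers g).card_mul_index
    rw [Nat.card_zpowers, hg, ← index_eq_card, h42] at this
    rw [index_comap_of_surjective _ (QuotientGroup.mk'_surjective _)]
    omega
  have : IsMulCommutative P := by
    let f : P →* zpowers g :=
      ((QuotientGroup.mk' (center G)).comp P.subtype).codRestrict _ fun y => y.2
    refine f.isMulCommutative_of_isCyclic_of_ker_le_center fun y hy => ?_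
    have h2 : ((y : G) : G ⧸ center G) = 1 := congrArg Subtype.val hy
    have h3 := mem_center_iff.1 ((QuotientGroup.eq_one_iff _).1 h2)
    exact mem_center_iff.2 fun w => Subtype.ext (h3 w)
  obtain ⟨a, ha⟩ := exists_gen h.cyc
  have h2 : a ^ 6 ∈ center G := by
    have := card_map I
    rw [h6, ha, MonoidHom.map_zpowers, Nat.card_zpowers] at this
    rw [← QuotientGroup.eq_one_iff, ← QuotientGroup.mk'_apply, map_pow, ← this,
      pow_orderOf_eq_one]
  have h3 := h.central_pow P h2
  rw [h1, ← pow_mul, ← orderOf_dvd_iff_pow_eq_one, ← Nat.card_zpowers, ← ha] at h3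
  have h4 := h.basic.2.1
  rw [h42] at h4
  have h5 := Nat.le_of_dvd (by decide) (Nat.dvd_gcd h3 h4)
  have h7 := h.cardI
  norm_num at h5
  omega

theorem classes (h : Tri237 A B I) (hgen : A ⊔ I = ⊤) :
    ((center G).relIndex I = 3 ∧ Nat.card I = 12 ∧ (center G).index ≤ 12) ∨
    ((center G).relIndex I = 4 ∧ Nat.card I ∣ 24 ∧ (center G).index ≤ 24) ∨
    (5 ≤ (center G).relIndex I ∧ 12 ≤ (centralizer (I : Set G)).index) ∨
    ((center G).relIndex I = 6 ∧ 8 ≤ (centralizer (I : Set G)).index) := by
  obtain ⟨h6, hr, hH⟩ := h.basic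
  have h1 := h.rel_lt hgen
  obtain ⟨t, ht⟩ := h.rel_dvd
  have h2 := relIndex_mul_index (center_le_centralizer (I : Set G))
  have h3 := h.four_dvd
  have h4 := h.not_72
  have h5 := h.not_42
  have h7 := h.cardI
  have hb0 : (center G).relIndex I ≠ 0 := index_ne_zero_of_finite
  have hb1 : (center G).relIndex I ≠ 1 := fun h1 => h.not_le_center (relIndex_eq_one.1 h1)
  have hn0 : (center G).index ≠ 0 := index_ne_zero_of_finite
  have hbn : (center G).relIndex I ∣ (center G).index := relIndex_dvd_index_of_normal _ _
  rw [ht] at h1 h2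
  generalize (center G).relIndex I = rb at *
  generalize (center G).index = n at *
  generalize (centralizer (I : Set G)).index = k at *
  generalize Nat.card I = r at *
  have hpos : (0 : ℚ) < n := by positivity
  have hrn := Nat.le_of_dvd (by omega) hr
  have hb : ∀ j : ℕ, 2 / (j : ℚ) + 1 / 6 = 1 / rb → 0 < j → n ≤ j := fun j hj hj0 => by
    have : 2 / (j : ℚ) ≤ 2 / n := by linarith
    rw [div_le_div_iff_of_pos_left (by norm_num) (by positivity) hpos] at this
    exact_mod_cast this
  have ht0 : t ≠ 0 := by
    rintro rfl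
    simp at h2
    omega
  by_cases hb5 : rb < 5
  · have : rb = 2 ∨ rb = 3 ∨ rb = 4 := by omega
    rcases this with rfl | rfl | rfl
    · have := hb 6 (by norm_num) (by norm_num)
      omega
    · have h8 := hb 12 (by norm_num) (by norm_num)
      obtain rfl : n = 12 := by omega
      refine Or.inl ⟨rfl, ?_, le_rfl⟩
      interval_cases r <;> omega
    · have h8 := hb 24 (by norm_num) (by norm_num)
      refine Or.inr (Or.inl ⟨rfl, hr.trans ?_, h8⟩)
      have : n = 12 ∨ n = 24 := by omega
      rcases this with rfl | rfl <;> decide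
  · by_cases hk : 12 ≤ k
    · exact Or.inr (Or.inr (Or.inl ⟨by omega, hk⟩))
    · refine Or.inr (Or.inr (Or.inr ?_))
      have ht2 : t ≤ 2 := by nlinarith
      have : t = 1 ∨ t = 2 := by omega
      rcases this with rfl | rfl
      · have : rb = 5 ∨ rb = 6 ∨ rb = 7 ∨ rb = 8 ∨ rb = 9 ∨ rb = 10 := by omega
        rcases this with rfl | rfl | rfl | rfl | rfl | rfl <;> omega
      · obtain rfl : rb = 5 := by omega
        omega

theorem classes_seven (h : Tri237 A B I) (hgen : A ⊔ I = ⊤) (h7 : Nat.card I = 7) :
    19 ≤ (centralizer (I : Set G)).index := by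
  have : Fact (Nat.Prime 7) := ⟨by norm_num⟩
  have hb : (center G).relIndex I = 7 :=
    ((Nat.dvd_prime (by norm_num)).1 (h7 ▸ relIndex_dvd_card (center G) I)).resolve_left
      fun h1 => h.not_le_center (relIndex_eq_one.1 h1)
  obtain ⟨h6, -, -⟩ := h.basic
  have h1 := h.rel_lt hgen
  obtain ⟨t, ht⟩ := h.rel_dvd
  have h2 := relIndex_mul_index (center_le_centralizer (I : Set G))
  have h3 := h.four_dvd (by omega)
  have hn0 : (center G).index ≠ 0 := index_ne_zero_of_finite
  rw [ht, hb] at h1 h2
  by_contra hk
  have hc : ((centralizer (I : Set G)).index = 12 ∧ (center G).index = 84) ∨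
      ((centralizer (I : Set G)).index = 18 ∧ (center G).index = 252) := by
    have : t = 0 ∨ t = 1 ∨ t = 2 := by omega
    rcases this with rfl | rfl | rfl <;> omega
  set J := I.map (QuotientGroup.mk' (center G)) with hJ
  have h4 : Nat.card J = 7 ^ 1 := by rw [card_map, hb]; rfl
  have h5 := J.card_mul_index
  rw [h4, ← index_eq_card] at h5
  have h8 : ¬ 7 ∣ J.index := by omega
  have h9 := card_sylow_modEq_one 7 (G ⧸ center G)
  rw [((IsPGroup.of_card h4).toSylow h8).card_eq_index_normalizer] at h9
  change (normalizer (J : Set (G ⧸ center G))).index ≡ 1 [MOD 7] at h9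
  have h10 : (centralizer (I : Set G)).map (QuotientGroup.mk' (center G)) ≤
      normalizer (J : Set (G ⧸ center G)) :=
    (map_mono (centralizer_le_normalizer _)).trans (le_normalizer_map _)
  have h11 := index_dvd_of_le h10
  rw [index_map_eq _ (QuotientGroup.mk'_surjective _)
    (by rw [QuotientGroup.ker_mk']; exact center_le_centralizer _)] at h11
  have h12 : (normalizer (J : Set (G ⧸ center G))).index = 1 := by
    generalize (normalizer (J : Set (G ⧸ center G))).index = s at *
    have h13 : s ∣ 12 ∨ s ∣ 18 := by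
      rcases hc with hc | hc <;> rw [hc.1] at h11
      · exact Or.inl h11
      · exact Or.inr h11
    have h14 : s ≤ 18 := by
      rcases h13 with h13 | h13 <;> have := Nat.le_of_dvd (by decide) h13 <;> omega
    have h15 : s = 1 ∨ s = 8 ∨ s = 15 := by
      unfold Nat.ModEq at h9
      omega
    rcases h15 with rfl | rfl | rfl <;> omega
  have : J.Normal := normalizer_eq_top_iff.1 (index_eq_one.1 h12)
  have h13 := h.eq_top_of_le (J.comap (QuotientGroup.mk' (center G))) (le_comap_map _ _)
  have h14 := index_comap_of_surjective J (QuotientGroup.mk'_surjective (center G))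
  rw [h13, index_top] at h14
  omega

end Pool.Agent.Lib.MP_e06174_ag.Tri237
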