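import Pool.Agent.Lib.MP_e06174_ag.Char
import Pool.Agent.Lib.MP_e06174_ag.Group

/-! The Hurwitz inequality for quotients by normal subgroups. -/

set_option linter.unusedSectionVars false

open Polynomial IntermediateField Module MulAction

namespace Pool.Agent.Lib.MP_e06174_ag

open Place

lemma finrank_adjoin_mul {k F : Type*} [Field k] [Field F] [Algebra k F]
    (E : IntermediateField k F) (y : E) :
    finrank k⟮y⟯ E * finrank E F = finrank k⟮(y : F)⟯ F := by
  rw [finrank_mul_finrank]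
  refine Algebra.finrank_eq_of_equiv_equiv
    ((liftAlgEquiv k⟮y⟯).trans (equivOfEq (lift_adjoin_simple k E y))).toRingEquiv
    (RingEquiv.refl F) ?_
  ext z
  rfl

variable {k F G : Type*} [Field k] [Field F] [Algebra k F] [CharZero k] [IsAlgClosed k]
  [Group G] [Finite G] [MulSemiringAction G F] [SMulCommClass G k F] [FaithfulSMul G F]

lemma finrank_eq_card {x : Fix k F G} (hgen : k⟮x⟯ = ⊤) : finrank k⟮(x : F)⟯ F = Nat.card G := by
  rw [← finrank_adjoin_mul, finrank_fix, hgen, IntermediateField.finrank_top, one_mul]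

lemma exists_coord_off {B : Type*} [Field B] [Algebra k B] {x : B} (h : IsCoord k x)
    (hgen : k⟮x⟯ = ⊤) (T : Finset (Place k B)) :
    ∃ x' : B, Transcendental k x' ∧ k⟮x'⟯ = ⊤ ∧ ∀ q : Place k B, q.ord x' < 0 → q ∉ T := by
  choose pt hpt using h.exists_at
  have hinj : Function.Injective pt := fun a b hab => (hpt a).unique (hab ▸ hpt b)
  obtain ⟨c, hc⟩ : ∃ c, pt c ∉ T := by
    by_contra hcon
    push Not at hcon
    exact Set.infinite_range_of_injective hinj
      (T.finite_toSet.subset (Set.range_subset_iff.2 hcon))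
  have hgen' : k⟮(x - algebraMap k B c)⁻¹⟯ = ⊤ := by
    refine top_le_iff.1 (hgen.ge.trans (adjoin_simple_le_iff.2 ?_))
    have := add_mem (inv_mem (mem_adjoin_simple_self k (x - algebraMap k B c)⁻¹))
      (IntermediateField.algebraMap_mem _ c)
    rwa [inv_inv, sub_add_cancel] at this
  refine ⟨_, fun h1 => h.trans ?_, hgen', fun q hq hT => hc ?_⟩
  · have := isAlgebraic_adjoin_simple h1.isIntegral
    exact IntermediateField.isAlgebraic_iff.1 (this.isAlgebraic ⟨x, hgen' ▸ mem_top⟩)
  · have h1 : q.At x c := ge_of_le (by rw [ord_inv] at hq; omega)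
    rwa [← h1.ext (hpt c) h.trans hgen]

lemma card_subgroupOf (N : Subgroup G) (p : Place k F) :
    Nat.card (N.subgroupOf (stabilizer G p)) = Nat.card (stabilizer N p) :=
  Nat.card_congr
    { toFun := fun g => ⟨⟨g.1.1, g.2⟩, g.1.2⟩
      invFun := fun g => ⟨⟨g.1.1, g.2⟩, g.1.2⟩
      left_inv := fun _ => rfl
      right_inv := fun _ => rfl }

lemma hurwitz_aux {x : Fix k F G} (h : IsCoord k (x : F)) (hgen : k⟮x⟯ = ⊤) (N : Subgroup G)
    [hN : N.Normal] (T : Finset (Place k (Fix k F G))) (hT : ∀ q ∉ T, q.ram = 1)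
    (hinf : ∀ q : Place k (Fix k F G), q.ord x < 0 → q ∉ T)
    (P : Place k (Fix k F G) → Place k F) (hP : ∀ q, (P q).Over (Fix k F G).val q q.ram)
    (hd : 2 ≤ N.index) :
    2 - 2 / (N.index : ℚ) ≤ ∑ q ∈ T, (1 - 1 / (N.relIndex (stabilizer G (P q)) : ℚ)) := by
  classical
  have := Fintype.ofFinite G
  let xD : Fix k F N := ⟨x, mem_fix.2 fun g => smul_fix (g : G) x⟩
  have hD : IsCoord k (xD : F) := h
  have hcard := N.card_mul_index
  have hNpos : 0 < Nat.card N := Nat.card_pos
  have hfin : finrank k⟮xD⟯ (Fix k F N) = N.index := by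
    have h1 := finrank_adjoin_mul (Fix k F N) xD
    rw [finrank_fix, show (xD : F) = x from rfl, finrank_eq_card hgen, ← hcard, mul_comm] at h1
    exact Nat.eq_of_mul_eq_mul_left hNpos h1
  obtain ⟨p₀, hp₀⟩ := hD.fix.exists_pole
  obtain ⟨f, hf, hf1, hf2, hf3⟩ := hD.fix.exists_hurwitz (hfin ▸ hd) p₀ hp₀
  have hf0 : (f : F) ≠ 0 := fun h1 => hf (Subtype.ext h1)
  have hord : ∀ {p : Place k F} {p' : Place k (Fix k F N)} {e : ℕ},
      p.Over (Fix k F N).val p' e → ∀ y : Fix k F N,
      p.ord (y * p.loc (x : F) ^ 1) = e * p'.ord (y * p'.loc xD) := fun {p p' e} hp y => by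
    rw [← hp.2, map_mul, ← hp.loc_eq, pow_one]; rfl
  have h1 : ∀ q : Place k (Fix k F G), ¬ q.ord x < 0 → (Fintype.card G : ℤ) ≤
      N.relIndex (stabilizer G (P q)) * q.ord (nrm k G (f : F) * q.loc x ^ (Fintype.card G * 1)) ∧
      N.relIndex (stabilizer G (P q)) ∣ q.ram := by
    intro q hq
    obtain ⟨p', hp'⟩ := hD.exists_under (P q)
    have h2 : N.relIndex (stabilizer G (P q)) * p'.ram = q.ram := by
      rw [← (card_subgroupOf N (P q)).trans (hD.card_stabilizer hp'),
        ← h.card_stabilizer (hP q)]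
      exact Subgroup.index_mul_card _
    refine ⟨?_, Dvd.intro _ h2⟩
    have h3 := ord_nrm h hf0 1 (hP q)
    have h4 : ∀ g : G, (p'.ram : ℤ) ≤ (g • P q).ord (f * (g • P q).loc (x : F) ^ 1) := by
      intro g
      obtain ⟨p'', hp''⟩ := hD.exists_under (g • P q)
      have h5 : ¬ p''.ord xD < 0 := fun h5 =>
        hq ((((hP q).smul g).pole_iff (x := x)).1 ((hp''.pole_iff (x := xD)).2 h5))
      have h6 := hf1 p'' h5
      have h7 := hord hp'' f
      have h8 : (1 : ℤ) ≤ p''.ram := by exact_mod_cast p''.one_le_ram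
      have h9 : (1 : ℤ) ≤ p'.ram := by exact_mod_cast p'.one_le_ram
      let f' : Fix k F N := ⟨g⁻¹ • (f : F), mem_fix.2 fun a => by
        have := smul_fix (⟨g * a * g⁻¹, hN.conj_mem _ a.2 g⟩ : N) f
        rw [Subgroup.smul_def] at this ⊢
        rw [smul_smul, eq_comm, inv_smul_eq_iff, smul_smul, ← mul_assoc, this]⟩
      have h10 := hord hp' f'
      have h11 : (g • P q).ord (f * (g • P q).loc (x : F) ^ 1) =
          (P q).ord (f' * (P q).loc (x : F) ^ 1) := by
        rw [smul_ord, smul_loc (smul_fix _ _), smul_mul', smul_pow', smul_loc_eq (smul_fix _ _)]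
      have h12 : 1 ≤ p'.ord (f' * p'.loc xD) := by
        by_contra h12
        nlinarith
      nlinarith
    have h5 := Finset.card_nsmul_le_sum Finset.univ _ _ fun g _ => h4 g
    rw [← h3, ← h2, Finset.card_univ, nsmul_eq_mul] at h5
    have h9 : (0 : ℤ) < p'.ram := by exact_mod_cast p'.one_le_ram
    push_cast at h5
    refine le_of_mul_le_mul_right ?_ h9
    linarith
  obtain ⟨P₀, hP₀⟩ := p₀.exists_over_ram
  obtain ⟨q₀, hq₀⟩ := h.exists_under P₀
  have hq₀' : q₀.ord x < 0 := (hq₀.pole_iff (x := x)).1 ((hP₀.pole_iff (x := xD)).2 hp₀)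
  have h2 : (Nat.card N : ℤ) * (N.index - 2) ≤
      q₀.ord (nrm k G (f : F) * q₀.loc x ^ (Fintype.card G * 1)) := by
    have h3 := ord_nrm h hf0 1 hq₀
    have hr := hT q₀ (hinf q₀ hq₀')
    have h4 : ∀ (g : G) (p' : Place k (Fix k F N)) (e : ℕ), (g • P₀).Over (Fix k F N).val p' e →
        p'.ord xD = -1 ∧ (g • P₀).ord (f * (g • P₀).loc (x : F) ^ 1) = p'.ord (f * xD) := by
      intro g p' e hp'
      have h5 := (hq₀.smul g).2 x
      have h6 := hp'.2 xD
      have h7 : (1 : ℤ) ≤ e := by exact_mod_cast hp'.1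
      rw [hr, ord_eq_neg_one_of_pole hq₀' h.fix.trans hgen] at h5
      have h8 : (e : ℤ) * p'.ord xD = -1 := by
        rw [← h6]; exact h5.trans (by simp)
      have h9 : p'.ord xD < 0 := by by_contra h9; nlinarith
      have h10 : (e : ℤ) = 1 := by nlinarith
      refine ⟨by rwa [h10, one_mul] at h8, ?_⟩
      rw [hord hp', h10, one_mul, loc_eq_of_pole h9]
    have h5 : ∀ g : G, (if g ∈ N then (N.index - 2 : ℤ) else 0) ≤
        (g • P₀).ord (f * (g • P₀).loc (x : F) ^ 1) := by
      intro g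
      split_ifs with hg
      · obtain ⟨h6, h7⟩ := h4 g p₀ _ (hP₀.smul (⟨g, hg⟩ : N))
        rw [h7]
        rw [h6, hfin] at hf3
        omega
      · obtain ⟨p', hp'⟩ := hD.exists_under (g • P₀)
        obtain ⟨h6, h7⟩ := h4 g p' _ hp'
        have := hf2 p' (by omega)
        omega
    have h6 := Finset.sum_le_sum fun g (_ : g ∈ Finset.univ) => h5 g
    rw [← h3, hr, Finset.sum_ite, Finset.sum_const_zero, add_zero, Finset.sum_const,
      nsmul_eq_mul, ← Fintype.card_subtype, ← Nat.card_eq_fintype_card] at h6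
    simpa using h6
  have h3 := h.fix.sum_del_le hgen (Fintype.card G * 1) (nrm_ne_zero (k := k) (G := G) hf0)
    (insert q₀ T) fun q hq => by
      rw [Finset.mem_insert, not_or] at hq
      obtain ⟨h3, h4⟩ := h1 q fun h3 => hq.1 (ext_pole h3 hq₀' h.fix.trans hgen)
      rw [hT q hq.2, Nat.dvd_one] at h4
      rw [h4] at h3
      rw [del]
      push_cast at h3 ⊢
      omega
  rw [Finset.sum_insert (hinf q₀ hq₀')] at h3
  have hG : (Fintype.card G : ℚ) = Nat.card N * N.index := by
    rw [← Nat.card_eq_fintype_card, ← hcard]; push_cast; rfl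
  have hc : (0 : ℚ) < Fintype.card G := by exact_mod_cast Fintype.card_pos
  refine le_of_mul_le_mul_left ?_ hc
  have h4 : ∀ q ∈ T, -(q.del x (Fintype.card G * 1) (nrm k G (f : F)) : ℚ) ≤
      Fintype.card G * (1 - 1 / (N.relIndex (stabilizer G (P q)) : ℚ)) := by
    intro q hq
    have h5 : (0 : ℚ) < N.relIndex (stabilizer G (P q)) := by
      have : N.relIndex (stabilizer G (P q)) ≠ 0 := Subgroup.index_ne_zero_of_finite
      positivity
    have h6 : (Fintype.card G : ℚ) ≤ N.relIndex (stabilizer G (P q)) *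
        q.ord (nrm k G (f : F) * q.loc x ^ (Fintype.card G * 1)) := by
      exact_mod_cast (h1 q fun h6 => hinf q h6 hq).1
    rw [del, mul_sub, mul_one_div]
    have := (div_le_iff₀' h5).2 h6
    push_cast
    linarith
  have h5 := Finset.sum_le_sum h4
  rw [Finset.sum_neg_distrib, ← Int.cast_sum, ← Finset.mul_sum] at h5
  refine le_trans ?_ h5
  have h6 : ((Nat.card N : ℤ) * (N.index - 2) - (Fintype.card G * 1 : ℕ) +
      ∑ q ∈ T, q.del x (Fintype.card G * 1) (nrm k G (f : F)) ≤ -2 * (Fintype.card G * 1 : ℕ)) := by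
    rw [del] at h3
    linarith
  have h7 : ((Nat.card N : ℚ) * (N.index - 2) - Fintype.card G +
      ((∑ q ∈ T, q.del x (Fintype.card G * 1) (nrm k G (f : F)) : ℤ) : ℚ) ≤
        -2 * Fintype.card G) := by
    have := (Int.cast_le (R := ℚ)).2 h6
    push_cast at this ⊢
    linarith
  have h8 : (0 : ℚ) < N.index := by positivity
  have h9 : (Fintype.card G : ℚ) * (2 - 2 / N.index) = 2 * Fintype.card G - 2 * Nat.card N := by
    rw [hG]; field_simp
  linarith

theorem hurwitz {x : Fix k F G} (h : IsCoord k (x : F)) (hgen : k⟮x⟯ = ⊤) (N : Subgroup G)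
    [N.Normal] (T : Finset (Place k (Fix k F G))) (hT : ∀ q ∉ T, q.ram = 1)
    (P : Place k (Fix k F G) → Place k F) (hP : ∀ q, (P q).Over (Fix k F G).val q q.ram) :
    2 - 2 / (N.index : ℚ) ≤ ∑ q ∈ T, (1 - 1 / (N.relIndex (stabilizer G (P q)) : ℚ)) := by
  by_cases hd : 2 ≤ N.index
  · obtain ⟨x', h1, h2, h3⟩ := exists_coord_off h.fix hgen T
    exact hurwitz_aux (h.of_transcendental fun h4 => h1 (IntermediateField.isAlgebraic_iff.2 h4))
      h2 N T hT h3 P hP hd
  · have h1 : N.index ≠ 0 := Subgroup.index_ne_zero_of_finite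
    rw [show N.index = 1 by omega]
    refine le_trans (by norm_num) (Finset.sum_nonneg fun q _ => ?_)
    have h2 : N.relIndex (stabilizer G (P q)) ≠ 0 := Subgroup.index_ne_zero_of_finite
    have h3 : (1 : ℚ) ≤ N.relIndex (stabilizer G (P q)) := by
      exact_mod_cast Nat.one_le_iff_ne_zero.2 h2
    rw [sub_nonneg, div_le_one (by positivity)]
    exact h3

/-- At most three branch points. -/
structure Tri (a b c : Place k (Fix k F G)) : Prop where
  ab : a ≠ b
  ac : a ≠ c
  bc : b ≠ c
  ram : ∀ q : Place k (Fix k F G), q ≠ a → q ≠ b → q ≠ c → q.ram = 1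

theorem Tri.tri237 {x : Fix k F G} (h : IsCoord k (x : F)) (hgen : k⟮x⟯ = ⊤)
    {a b c : Place k (Fix k F G)} (ht : Tri a b c) (ha : a.ram = 2) (hb : b.ram = 3)
    (hc : 7 ≤ c.ram) {p : Place k F} (hp : p.Over (Fix k F G).val c c.ram) :
    ∃ A B : Subgroup G, Tri237 A B (stabilizer G p) := by
  classical
  choose P hP using fun q : Place k (Fix k F G) => q.exists_over_ram
  let P' := Function.update P c p
  have hP' : ∀ q, (P' q).Over (Fix k F G).val q q.ram := fun q => by
    by_cases hq : q = c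
    · subst hq; simpa [P'] using hp
    · simpa [P', Function.update_of_ne hq] using hP q
  refine ⟨stabilizer G (P' a), stabilizer G (P' b), by rw [h.card_stabilizer (hP' a), ha],
    by rw [h.card_stabilizer (hP' b), hb], by rwa [h.card_stabilizer hp], h.isCyclic p,
    fun N hN => ?_⟩
  have := hurwitz h hgen N {a, b, c} (fun q hq => by
    simp only [Finset.mem_insert, Finset.mem_singleton, not_or] at hq
    exact ht.ram q hq.1 hq.2.1 hq.2.2) P' hP'
  rw [Finset.sum_insert (by simp [ht.ab, ht.ac]), Finset.sum_pair ht.bc, ← add_assoc] at this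
  simpa only [P', Function.update_self] using this

end Pool.Agent.Lib.MP_e06174_ag
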