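import Pool.Agent.Lib.MP_e06174_ag.Types

/-! Taylor coefficients at a place, counting lemmas. -/

set_option linter.unusedSectionVars false

open Polynomial IntermediateField Module MulAction

namespace Pool.Agent.Lib.MP_e06174_ag

open Place

section taylor

variable {k F : Type*} [Field k] [Field F] [Algebra k F]

/-- Remove the constant term and divide by the uniformizer. -/
noncomputable def Place.sh (p : Place k F) (U : F) : F := (U - algebraMap k F (p.cen U)) / p.unif

/-- The Taylor coefficients, with the remainder in the last position. -/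
noncomputable def Place.coef (p : Place k F) (A α : ℕ) (U : F) : F :=
  if α < A then algebraMap k F (p.cen (p.sh^[α] U)) else p.sh^[A] U

lemma Place.taylor (p : Place k F) (A : ℕ) (U : F) :
    U = ∑ α ∈ Finset.range (A + 1), p.coef A α U * p.unif ^ α := by
  have key : ∀ A : ℕ, U = ∑ α ∈ Finset.range A,
      algebraMap k F (p.cen (p.sh^[α] U)) * p.unif ^ α + p.sh^[A] U * p.unif ^ A := by
    intro A
    induction A with
    | zero => simp
    | succ A ih =>
      rw [Finset.sum_range_succ, Function.iterate_succ_apply', sh, add_assoc]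
      convert ih using 2
      field_simp [p.unif_ne_zero]
      ring
  rw [Finset.sum_range_succ, coef, if_neg (lt_irrefl _)]
  convert key A using 2
  exact Finset.sum_congr rfl fun α hα => by rw [coef, if_pos (Finset.mem_range.1 hα)]

variable [CharZero k] [IsAlgClosed k] {x : F}

lemma IsCoord.ge_coef (h : IsCoord k x) {p : Place k F} {U : F} (hU : p.Ge 0 U) (A α : ℕ) :
    p.Ge 0 (p.coef A α U) := by
  have key : ∀ A : ℕ, p.Ge 0 (p.sh^[A] U) := by
    intro A
    induction A with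
    | zero => exact hU
    | succ A ih =>
      rw [Function.iterate_succ_apply', sh, div_eq_mul_inv]
      exact Ge.mul' (h.at_cen ih) (ge_ord _) (by simp)
  rw [coef]
  split_ifs
  · exact ge_const _
  · exact key A

end taylor

lemma exists_kernel {k ι σ : Type*} [Field k] [Fintype σ] (S : Finset ι) (M : ι → σ → k)
    (h : S.card < Fintype.card σ) : ∃ a : σ → k, a ≠ 0 ∧ ∀ c ∈ S, ∑ β, a β * M c β = 0 := by
  let f : (σ → k) →ₗ[k] (S → k) := LinearMap.pi fun c => ∑ β, M c β • LinearMap.proj β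
  obtain ⟨a, ha, ha0⟩ := (Submodule.ne_bot_iff _).1 (f.ker_ne_bot_of_finrank_lt (by simpa using h))
  refine ⟨a, ha0, fun c hc => ?_⟩
  simpa [f, mul_comm] using congrFun (LinearMap.mem_ker.1 ha) ⟨c, hc⟩

lemma exists_region (r : Fin 5 → ℕ) (hr : ∀ i, 0 < r i) (M : ℕ) :
    ∃ R : Finset (Fin 5 → ℕ), 120 * R.card ≤ (∏ i, r i) * (M + 4) ^ 5 ∧
      ∀ α : Fin 5 → ℕ, ∑ i, α i / r i < M → α ∈ R := by
  classical
  rcases M with _ | M
  · exact ⟨∅, by simp, fun α h => absurd h (Nat.not_lt_zero _)⟩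
  refine ⟨(((Finset.univ : Finset (Option (Fin 5))).finsuppAntidiag M) ×ˢ
    Fintype.piFinset fun i => Finset.range (r i)).image
      fun z i => r i * z.1 (some i) + z.2 i, ?_, fun α hα => ?_⟩
  · refine (Nat.mul_le_mul_left _ Finset.card_image_le).trans ?_
    rw [Finset.card_product, Finset.card_finsuppAntidiag_nat_eq_choose, Fintype.card_piFinset]
    simp only [Finset.card_range, Finset.card_univ, Fintype.card_option, Fintype.card_fin]
    rw [show 5 + 1 + M - 1 = M + 5 by omega, Nat.choose_symm_add, ← mul_assoc, mul_comm]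
    refine Nat.mul_le_mul_left _ ?_
    have h1 := Nat.descFactorial_le_pow (M + 5) 5
    rwa [Nat.descFactorial_eq_factorial_mul_choose] at h1
  · refine Finset.mem_image.2 ⟨⟨Finsupp.equivFunOnFinite.symm fun o =>
      o.elim (M - ∑ i, α i / r i) fun i => α i / r i, fun i => α i % r i⟩, ?_, ?_⟩
    · rw [Finset.mem_product, Finset.mem_finsuppAntidiag, Fintype.mem_piFinset]
      refine ⟨⟨?_, Finset.subset_univ _⟩, fun i => Finset.mem_range.2 (Nat.mod_lt _ (hr i))⟩
      rw [Fintype.sum_option]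
      simp only [Finsupp.equivFunOnFinite_symm_apply_apply, Option.elim]
      omega
    · funext i
      simp [Nat.div_add_mod]

lemma exists_large {ι : Type*} (D : Finset ι) (μ : ι → ℕ) (κ ε c : ℕ)
    (h : ∑ d ∈ D, μ d ^ 5 < κ * ε ^ 5) :
    ∃ t : ℕ, 1 ≤ t ∧ c ≤ ε * t ∧ ∑ d ∈ D, (μ d * t + 4) ^ 5 < κ * (ε * t - c) ^ 5 := by
  have hε : 1 ≤ ε := by
    rcases ε with _ | ε
    · simp at h
    · omega
  have h0 : ∀ a : ℝ, Filter.Tendsto (fun t : ℕ => a / (t : ℝ)) Filter.atTop (nhds 0) :=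
    tendsto_const_div_atTop_nhds_zero_nat
  have h1 : Filter.Tendsto (fun t : ℕ => ∑ d ∈ D, ((μ d : ℝ) + 4 / t) ^ 5) Filter.atTop
      (nhds (∑ d ∈ D, ((μ d : ℝ) + 0) ^ 5)) :=
    tendsto_finsetSum _ fun d _ => ((h0 4).const_add _).pow 5
  have h2 : Filter.Tendsto (fun t : ℕ => (κ : ℝ) * ((ε : ℝ) - c / t) ^ 5) Filter.atTop
      (nhds ((κ : ℝ) * ((ε : ℝ) - 0) ^ 5)) := (((h0 c).const_sub _).pow 5).const_mul _
  have h3 := h1.eventually_lt h2 (by simp only [add_zero, sub_zero]; exact_mod_cast h)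
  obtain ⟨t, h4, h5⟩ := (h3.and (Filter.eventually_ge_atTop (c + 1))).exists
  have h6 : c ≤ ε * t := by nlinarith
  refine ⟨t, by omega, h6, ?_⟩
  have ht : (0 : ℝ) < t := by exact_mod_cast (by omega : 0 < t)
  have h7 := mul_lt_mul_of_pos_right h4 (pow_pos ht 5)
  rw [Finset.sum_mul, mul_assoc, ← mul_pow] at h7
  simp only [← mul_pow, add_mul, sub_mul, div_mul_cancel₀ _ ht.ne'] at h7
  exact_mod_cast h7

variable {k F G : Type*} [Field k] [Field F] [Algebra k F] [CharZero k] [IsAlgClosed k]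
  [Group G] [Finite G] [MulSemiringAction G F] [SMulCommClass G k F] [FaithfulSMul G F]

lemma sum_card_le {x : F} (h : IsCoord k x) (Big : Finset (Place k (Fix k F G))) (C : Subgroup G)
    (S : Finset (Place k F)) (h1 : ∀ p ∈ S, ∃ q ∈ Big, p.Over (Fix k F G).val q q.ram)
    (h2 : ∀ p ∈ S, ∀ g : G, g • p ∈ S → g ∈ C) :
    ∑ p ∈ S, Nat.card (stabilizer G p) ≤ Big.card * Nat.card C := by
  classical
  rcases S.eq_empty_or_nonempty with rfl | ⟨p₁, hp₁⟩
  · simp
  have : Nonempty (Place k (Fix k F G)) := ⟨(h1 p₁ hp₁).choose⟩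
  choose! u hu hu' using h1
  rw [← Finset.sum_fiberwise_of_maps_to hu]
  refine (Finset.sum_le_card_nsmul _ _ (Nat.card C) fun q _ => ?_).trans (by simp)
  rcases (S.filter fun p => u p = q).eq_empty_or_nonempty with h3 | ⟨p₀, hp₀⟩
  · simp [h3]
  have h3 : ∀ p ∈ S.filter fun p => u p = q, p ∈ S ∧ p.Over (Fix k F G).val q q.ram :=
    fun p hp => by
      obtain ⟨h4, rfl⟩ := Finset.mem_filter.1 hp
      exact ⟨h4, hu' p h4⟩
  rw [Finset.sum_congr rfl fun p hp =>
    (h.card_stabilizer (h3 p hp).2).trans (h.card_stabilizer (h3 p₀ hp₀).2).symm,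
    Finset.sum_const, smul_eq_mul, ← Nat.card_eq_finsetCard, ← Nat.card_prod]
  choose g hg using fun p : (S.filter fun p => u p = q) =>
    exists_smul_eq (h3 p₀ hp₀).2 (h3 p p.2).2
  have h4 : ∀ z : (S.filter fun p => u p = q) × stabilizer G p₀, (g z.1 * z.2) • p₀ = z.1 :=
    fun z => by rw [mul_smul, z.2.2, ← hg]
  refine Nat.card_le_card_of_injective (fun z => (⟨g z.1 * z.2,
    h2 p₀ (h3 p₀ hp₀).1 _ (h4 z ▸ (h3 _ z.1.2).1)⟩ : C)) fun z z' hz => ?_
  have h5 : g z.1 * z.2 = g z'.1 * z'.2 := congrArg Subtype.val hz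
  have h6 : z.1 = z'.1 := Subtype.ext (by rw [← h4 z, ← h4 z', h5])
  rw [h6] at h5
  exact Prod.ext h6 (Subtype.ext (mul_left_cancel h5))

end Pool.Agent.Lib.MP_e06174_ag
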