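import Pool.Agent.Lib.MP_e06174_ag.Setup
import Pool.Agent.Lib.MP_e06174_ag.Taylor

/-! Local data at a place of the product of five curves, and the reduction to big inertia. -/

set_option linter.unusedSectionVars false

open Polynomial IntermediateField Module MulAction

namespace Pool.Agent.Lib.MP_e06174_ag

open Place

variable {n : ℕ} {F : Fin n → Type} [∀ i, Field (F i)] [∀ i, Algebra ℂ (F i)]
  {G : Type} [Group G] [Finite G] [∀ i, MulSemiringAction G (F i)] [∀ i, SMulCommClass G ℂ (F i)]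
  {K : Type} [Field K] [Algebra ℂ K] [MulSemiringAction G K] [SMulCommClass G ℂ K]
  {ι : ∀ i, F i →ₐ[ℂ] K}

/-- A place of the product that is non-trivial on every factor, with its restrictions. -/
structure Setup.Loc (S : Setup G ι) where
  v : Place ℂ (Fix ℂ K G)
  w : Place ℂ K
  e : ℕ
  p : ∀ i, Place ℂ (F i)
  c : Fin n → ℕ
  q : ∀ i, Place ℂ (Fix ℂ (F i) G)
  d : Fin n → ℕ
  hw : w.Over (Fix ℂ K G).val v e
  hp : ∀ i, w.Over (ι i) (p i) (c i)
  hq : ∀ i, (p i).Over (Fix ℂ (F i) G).val (q i) (q i).ram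
  hv : ∀ i, v.Over (S.j i) (q i) (d i)
  hed : ∀ i, e * d i = c i * (q i).ram

namespace Setup

variable {S : Setup G ι} [∀ i, FaithfulSMul G (F i)] [FaithfulSMul G K]

lemma exists_loc {v : Place ℂ (Fix ℂ K G)} {w : Place ℂ K} {e : ℕ}
    (h : w.Over (Fix ℂ K G).val v e) (h1 : ∀ i, ¬ ∀ f, w.ord (ι i f) = 0) :
    ∃ L : S.Loc, L.v = v ∧ L.w = w ∧ L.e = e := by
  choose p c q d h2 h3 h4 h5 using fun i => (S.local_data h i).resolve_left (h1 i)
  exact ⟨⟨v, w, e, p, c, q, d, h, h2, h3, h4, h5⟩, rfl, rfl, rfl⟩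

namespace Loc

variable (L : S.Loc)

lemma one_le_c (i : Fin n) : 1 ≤ L.c i := (L.hp i).1

lemma one_le_d (i : Fin n) : 1 ≤ L.d i := (L.hv i).1

lemma card : Nat.card (L.w.inertia G) = L.e := card_inertia L.hw

lemma card_stab (i : Fin n) : Nat.card (stabilizer G (L.p i)) = (L.q i).ram :=
  (S.coord i).choose_spec.card_stabilizer (L.hq i)

lemma le_stab (i : Fin n) : L.w.inertia G ≤ stabilizer G (L.p i) := by
  intro g hg
  refine ext_ord fun f _ => ?_
  have h1 := (L.hp i).2 (g⁻¹ • f)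
  rw [← S.equiv, ord_smul_of_mem (inv_mem (mem_inertia.1 hg).1), (L.hp i).2] at h1
  have h2 : (L.c i : ℤ) ≠ 0 := by have := L.one_le_c i; omega
  rw [smul_ord, mul_left_cancel₀ h2 h1]

lemma dvd (i : Fin n) : L.e ∣ (L.q i).ram := by
  rw [← L.card, ← L.card_stab]
  exact Subgroup.card_dvd_of_le (L.le_stab i)

lemma le_ram (i : Fin n) : L.e ≤ (L.q i).ram := Nat.le_of_dvd (L.q i).one_le_ram (L.dvd i)

lemma base {j : Fin n} (hj : L.d j = 1) : L.c j = 1 ∧ (L.q j).ram = L.e := by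
  have h1 := L.hed j
  have h2 := L.le_ram j
  have h3 := L.one_le_c j
  have h4 := L.hw.1
  rw [hj] at h1
  have h5 : L.c j = 1 := by nlinarith
  rw [h5] at h1
  omega

lemma inertia_eq {j : Fin n} (hj : L.d j = 1) : L.w.inertia G = stabilizer G (L.p j) :=
  Subgroup.eq_of_le_of_card_ge (L.le_stab j) (by rw [L.card, L.card_stab, (L.base hj).2])

lemma chi_eq {j : Fin n} (hj : L.d j = 1) {g : G} (hg : g ∈ stabilizer G (L.p j)) (i : Fin n) :
    g ∈ stabilizer G (L.p i) ∧ (L.p i).chi g = (L.p j).chi g ^ L.c i := by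
  have hg' : g ∈ L.w.inertia G := L.inertia_eq hj ▸ hg
  have key : ∀ i, L.w.At (g • ι i (L.p i).unif / ι i (L.p i).unif) ((L.p i).chi g) := fun i => by
    have := ((L.hp i).at_iff _).2 ((S.coord i).choose_spec.at_chi (L.le_stab i hg')
      (L.p i).unif_ne_zero (L.p i).ord_unif)
    rwa [map_div₀, ← S.equiv] at this
  refine ⟨L.le_stab i hg', (key i).unique ?_⟩
  have h1 := (key j).pow (L.c i)
  rw [div_pow, ← smul_pow'] at h1
  have h0 : ∀ i, ι i (L.p i).unif ≠ 0 := fun i => (_root_.map_ne_zero _).2 (L.p i).unif_ne_zero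
  refine h1.of_ord_eq hg' (pow_ne_zero _ (h0 j)) (h0 i) ?_
  rw [ord_pow, (L.hp j).2, (L.hp i).2, (L.base hj).1]
  simp

end Loc

end Setup

end Pool.Agent.Lib.MP_e06174_ag

namespace Pool.Agent.Lib.MP_e06174_ag.Setup

open Place

variable {F : Fin 5 → Type} [∀ i, Field (F i)] [∀ i, Algebra ℂ (F i)]
  {G : Type} [Group G] [Finite G] [∀ i, MulSemiringAction G (F i)] [∀ i, SMulCommClass G ℂ (F i)]
  {K : Type} [Field K] [Algebra ℂ K] [MulSemiringAction G K] [SMulCommClass G ℂ K]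
  {ι : ∀ i, F i →ₐ[ℂ] K} (S : Setup G ι) [∀ i, FaithfulSMul G (F i)] [FaithfulSMul G K]
include S

theorem red (x : ∀ i, Fix ℂ (F i) G) (hx : ∀ i, IsCoord ℂ (x i : F i)) {m : ℕ} (hm : 1 ≤ m)
    (nn : ∀ i, Place ℂ (Fix ℂ (F i) G) → ℕ) (hn : ∀ i q, m ≤ q.ram * nn i q)
    {σ : Type} [Fintype σ] (W : σ → ∀ i, F i)
    (hW : ∀ s i (p : Place ℂ (F i)) (q : Place ℂ (Fix ℂ (F i) G)),
      p.Over (Fix ℂ (F i) G).val q q.ram → p.Ge (q.ram * nn i q) (W s i * p.loc (x i : F i) ^ m))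
    (a : σ → ℂ) (hΦ : ∑ s, a s • ∏ i, ι i (W s i) ≠ 0)
    (hbig : ∀ L : S.Loc, 6 ≤ L.e → ∑ i, L.d i * nn i (L.q i) < m →
      L.w.Ge (L.e * m) (∑ s, a s • ∏ i, ι i (W s i * (L.p i).loc (x i : F i) ^ m))) :
    ¬ KodairaNegInf ℂ (Fix ℂ K G) 5 := by
  classical
  have := Fintype.ofFinite G
  have hA : ∀ w : Place ℂ K, (∀ i f, w.ord (ι i f) = 0) → w.Ge 0 (∑ s, a s • ∏ i, ι i (W s i)) :=
    fun w hw => Ge.sum fun s _ => (Ge.prod_zero fun i _ => ge_of_le (hw i _).ge).smul _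
  have hB : ∀ (v : Place ℂ (Fix ℂ K G)) (w : Place ℂ K) (e : ℕ), w.Over (Fix ℂ K G).val v e →
      (¬ ∀ i f, w.ord (ι i f) = 0) → w.Ge (e * m)
        ((∑ s, a s • ∏ i, ι i (W s i)) * ∏ i, w.loc (ι i (x i)) ^ m) := by
    intro v w e hw h1
    simp only [Finset.sum_mul, smul_mul_assoc, ← Finset.prod_mul_distrib]
    have h2 : ∀ {i p c q}, w.Over (ι i) p c → p.Over (Fix ℂ (F i) G).val q q.ram → ∀ s,
        w.Ge (c * (q.ram * nn i q)) (ι i (W s i) * w.loc (ι i (x i)) ^ m) := by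
      intro i p c q hp hq s
      rw [hp.loc_eq, ← map_pow, ← map_mul]
      exact (hp.ge_iff _ _).2 (hW s i p q hq)
    have h3 : ∀ {i} {c : ℕ} {q : Place ℂ (Fix ℂ (F i) G)}, 1 ≤ c →
        (m : ℤ) ≤ c * (q.ram * nn i q : ℤ) := by
      intro i c q hc
      have h4 : (m : ℤ) ≤ q.ram * nn i q := by exact_mod_cast hn i q
      have h5 : (1 : ℤ) ≤ c := by exact_mod_cast hc
      nlinarith
    by_cases h4 : ∀ i, ¬ ∀ f, w.ord (ι i f) = 0
    · obtain ⟨L, rfl, rfl, rfl⟩ := exists_loc (S := S) hw h4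
      by_cases h5 : 6 ≤ L.e ∧ ∑ i, L.d i * nn i (L.q i) < m
      · convert hbig L h5.1 h5.2 using 4 with s _ i
        rw [(L.hp i).loc_eq, ← map_pow, ← map_mul]
      refine Ge.sum fun s _ => Ge.smul (Ge.mono (Ge.prod fun i _ => h2 (L.hp i) (L.hq i) s) ?_) _
      by_cases h6 : 6 ≤ L.e
      · have h7 : m ≤ ∑ i, L.d i * nn i (L.q i) := not_lt.1 fun h7 => h5 ⟨h6, h7⟩
        have h8 := Nat.mul_le_mul_left L.e h7
        simp only [Finset.mul_sum, ← mul_assoc, L.hed] at h8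
        simp only [← mul_assoc]
        exact_mod_cast h8
      · have h7 := Finset.card_nsmul_le_sum Finset.univ _ _ fun i _ =>
          h3 (q := L.q i) (L.one_le_c i)
        simp only [Finset.card_univ, Fintype.card_fin, nsmul_eq_mul] at h7
        refine le_trans ?_ h7
        have : (L.e : ℤ) ≤ (5 : ℕ) := by omega
        gcongr
    · obtain ⟨i₀, hi₀⟩ := not_forall.1 h4
      obtain ⟨i₁, hi₁⟩ := not_forall.1 h1
      have he : e = 1 := by
        rw [← card_inertia hw, Subgroup.card_eq_one, eq_bot_iff]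
        exact fun g hg => (faithfulSMul_iff.1 (inferInstanceAs (FaithfulSMul G (F i₀)))) g
          (S.smul_eq_of_inertia (not_not.1 hi₀) hg)
      refine Ge.sum fun s _ => Ge.smul (Ge.mono (Ge.prod
        (n := fun i => if i = i₁ then (m : ℤ) else 0) fun i _ => ?_) (by simp [he])) _
      rcases S.local_data hw i with h5 | ⟨p, c, q, d, h5, h6, -, -⟩
      · rw [if_neg (by rintro rfl; exact hi₁ h5), loc, ← (ι i).commutes, ← map_sub, ← map_pow,
          ← map_mul]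
        exact ge_of_le (h5 _).ge
      · refine (h2 h5 h6 s).mono ?_
        have := h3 (q := q) h5.1
        split_ifs <;> omega
  refine not_kodairaNegInf (S.isTranscendenceBasis x hx) (m := Fintype.card G * m)
    (Nat.mul_pos Fintype.card_pos hm) (nrm_ne_zero (k := ℂ) (G := G) hΦ) fun v => ?_
  obtain ⟨w, e, hw⟩ := exists_over_fix v
  have hiff : ∀ (g : G) (w : Place ℂ K), (∀ i f, w.ord (ι i f) = 0) →
      ∀ i f, (g • w).ord (ι i f) = 0 := fun g w h i f => by rw [smul_ord, S.equiv, h]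
  by_cases h1 : ∀ i f, w.ord (ι i f) = 0
  · refine Or.inl ⟨(hw.ge_zero_iff _).1 (Ge.prod_zero fun g _ => ?_),
      fun i => ge_of_le (S.ord_j_eq_zero hw (h1 i) _).ge⟩
    have := hA _ (hiff g⁻¹ w h1)
    rwa [smul_ge, inv_inv] at this
  · refine Or.inr ((hw.ge_iff _ _).1 ?_)
    have h2 : ∀ g : G, w.Ge (e * m) (g • (∑ s, a s • ∏ i, ι i (W s i)) *
        (Fix ℂ K G).val (∏ i, v.loc (S.j i (x i)) ^ m)) := fun g => by
      have h3 := hB v _ e (hw.smul g⁻¹) fun h3 => h1 (by simpa using hiff g _ h3)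
      have h4 : ∏ i, (g⁻¹ • w).loc (ι i (x i)) ^ m =
          (Fix ℂ K G).val (∏ i, v.loc (S.j i (x i)) ^ m) := by
        rw [map_prod]
        exact Finset.prod_congr rfl fun i _ => by
          rw [map_pow, ← (hw.smul g⁻¹).loc_eq]; rfl
      rwa [h4, smul_ge, inv_inv, smul_mul', IntermediateField.coe_val, smul_fix] at h3
    have h3 := Ge.prod fun g (_ : g ∈ Finset.univ) => h2 g
    rw [Finset.prod_mul_distrib, Finset.prod_const, Finset.sum_const, Finset.card_univ] at h3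
    convert h3 using 1
    · simp only [nsmul_eq_mul]; push_cast; ring
    · rw [map_mul]
      congr 1
      rw [← map_pow, ← Finset.prod_pow]
      simp only [← pow_mul, mul_comm m]

theorem easy (x Φ : ∀ i, Fix ℂ (F i) G) (hx : ∀ i, IsCoord ℂ (x i : F i)) {m : ℕ} (hm : 1 ≤ m)
    (a : Fin 5 → ℕ) (hΦ : ∀ i, Adm (x i) (Φ i) m (a i))
    (hbig : ∀ L : S.Loc, 6 ≤ L.e →
      (m : ℤ) ≤ ∑ i, L.d i * (L.q i).ord (Φ i * (L.q i).loc (x i) ^ m)) :
    ¬ KodairaNegInf ℂ (Fix ℂ K G) 5 := by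
  have h0 : ∀ i (q : Place ℂ (Fix ℂ (F i) G)),
      ((q.ord (Φ i * q.loc (x i) ^ m)).toNat : ℤ) = q.ord (Φ i * q.loc (x i) ^ m) := fun i q => by
    refine Int.toNat_of_nonneg (not_lt.1 fun h => ?_)
    have h1 := ((hΦ i).2 q).1
    have h2 : (0 : ℤ) ≤ q.ram := by positivity
    have h3 : (1 : ℤ) ≤ m := by exact_mod_cast hm
    nlinarith
  refine S.red x hx hm (fun i q => (q.ord (Φ i * q.loc (x i) ^ m)).toNat) (fun i q => ?_)
    (σ := Unit) (fun _ i => Φ i) (fun _ i p q hp => ?_) 1 ?_ fun L h1 h2 => ?_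
  · have := ((hΦ i).2 q).1
    rw [← h0] at this
    exact_mod_cast this
  · have := (hp.ge_iff _ _).2 (ge_ord (Φ i * q.loc (x i) ^ m))
    rwa [map_mul, map_pow, ← hp.loc_eq, ← h0] at this
  · simpa [Finset.prod_eq_zero_iff] using fun i => (hΦ i).1
  · have h3 := hbig L h1
    rw [Finset.sum_congr rfl fun i _ => congrArg (fun z : ℤ => L.d i * z) (h0 i _).symm] at h3
    exact absurd h2 (not_lt.2 (by exact_mod_cast h3))

end Pool.Agent.Lib.MP_e06174_ag.Setup
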