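import Pool.Agent.Lib.MP_e06174_ag.Vol

/-! The case of at least four factors of type `(2, 3, r)` with `r ≥ 7`. -/

set_option linter.unusedSectionVars false

open Polynomial IntermediateField Module MulAction

namespace Pool.Agent.Lib.MP_e06174_ag

open Place

section factor

variable {k F G : Type*} [Field k] [Field F] [Algebra k F] [CharZero k] [IsAlgClosed k]
  [Group G] [Finite G] [MulSemiringAction G F] [SMulCommClass G k F] [FaithfulSMul G F]

/-- Large families of forms with prescribed vanishing on one factor. -/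
def FData (x : Fix k F G) (u ε α : ℕ) : Prop :=
  ∃ (Big : Finset (Place k (Fix k F G))) (c : ℕ), (∀ q : Place k (Fix k F G), 6 ≤ q.ram → q ∈ Big) ∧
    1 ≤ Big.card ∧ ∀ t M : ℕ, M + c ≤ ε * t → ∃ (nn : Place k (Fix k F G) → ℕ)
      (W : Fin (Nat.card G) × Fin (Big.card * M) → F), LinearIndependent k W ∧
      (∀ q : Place k (Fix k F G), 12 * u * t ≤ q.ram * nn q) ∧
      (∀ q : Place k (Fix k F G), 6 ≤ q.ram → α * t ≤ nn q) ∧
      ∀ s (p : Place k F) (q : Place k (Fix k F G)), p.Over (Fix k F G).val q q.ram →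
        p.Ge (q.ram * nn q) (W s * p.loc (x : F) ^ (12 * u * t))

variable {x : Fix k F G}

lemma Tri.fdata {a b c : Place k (Fix k F G)} (ht : Tri a b c) (h : IsCoord k (x : F))
    (hgen : k⟮x⟯ = ⊤) {u ε α na nb nc : ℕ} (Big : Finset (Place k (Fix k F G)))
    (h1 : 1 ≤ Big.card) (hs : na + nb + nc + Big.card * ε ≤ 12 * u)
    (ha : 12 * u ≤ a.ram * na ∧ (6 ≤ a.ram → α ≤ na ∧ a ∈ Big))
    (hb : 12 * u ≤ b.ram * nb ∧ (6 ≤ b.ram → α ≤ nb ∧ b ∈ Big))
    (hc : 12 * u ≤ c.ram * nc ∧ (6 ≤ c.ram → α ≤ nc ∧ c ∈ Big)) : FData x u ε α := by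
  classical
  obtain ⟨c₀, hc₀⟩ := exists_family h hgen
  let n₀ : Place k (Fix k F G) → ℕ := fun q =>
    if q = a then na else if q = b then nb else if q = c then nc else 12 * u
  have h2 : ∀ q : Place k (Fix k F G), 12 * u ≤ q.ram * n₀ q ∧
      (6 ≤ q.ram → α ≤ n₀ q ∧ q ∈ Big) := fun q => by
    rcases ht.cases q with rfl | rfl | rfl | ⟨hqa, hqb, hqc, hq⟩
    · simpa [n₀] using ha
    · simpa [n₀, ht.ab.symm] using hb
    · simpa [n₀, ht.ac.symm, ht.bc.symm] using hc
    · simp [n₀, hqa, hqb, hqc, hq]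
  refine ⟨Big, c₀, fun q hq => ((h2 q).2 hq).2, h1, fun t M hM => ?_⟩
  obtain ⟨W, hW, hW'⟩ := hc₀ (12 * u * t) (Big.card * M) {a, b, c} (fun q => n₀ q * t)
    (fun q hq => by
      simp only [Finset.mem_insert, Finset.mem_singleton, not_or] at hq
      simp [n₀, hq.1, hq.2.1, hq.2.2]) (by
      rw [Finset.sum_insert (by simp [ht.ab, ht.ac]), Finset.sum_pair ht.bc]
      simp only [n₀, if_true, if_neg ht.ab.symm, if_neg ht.ac.symm, if_neg ht.bc.symm]
      have h3 := Nat.mul_le_mul_right t hs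
      have h4 := Nat.mul_le_mul_left Big.card hM
      have h5 := Nat.mul_le_mul_right c₀ h1
      push_cast
      zify at h3 h4 h5
      nlinarith)
  exact ⟨_, W, hW, fun q => by rw [← mul_assoc]; exact Nat.mul_le_mul_right t (h2 q).1,
    fun q hq => Nat.mul_le_mul_right t ((h2 q).2 hq).1, hW'⟩

variable (k F G) in
/-- Branch type `(2, 3, r)` with `r` satisfying `P`. -/
def TA (P : ℕ → Prop) : Prop :=
  ∃ a b c : Place k (Fix k F G), Tri a b c ∧ a.ram = 2 ∧ b.ram = 3 ∧ P c.ram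

variable (k F G) in
/-- Branch type `(2, s, t)` with `s ≥ 4`, `t ≥ 6`. -/
def TB : Prop :=
  ∃ a b c : Place k (Fix k F G), Tri a b c ∧ a.ram = 2 ∧ 4 ≤ b.ram ∧ 6 ≤ c.ram

variable (k F G) in
/-- The centralizers of the big inertia groups have index at least `κ`. -/
def Kap (κ : ℕ) : Prop :=
  ∀ (p : Place k F) (q : Place k (Fix k F G)), p.Over (Fix k F G).val q q.ram → 6 ≤ q.ram →
    κ ≤ (Subgroup.centralizer (stabilizer G p : Set G)).index

lemma TA.fdata {P : ℕ → Prop} (hA : TA k F G P) (h : IsCoord k (x : F)) (hgen : k⟮x⟯ = ⊤)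
    {u ε α : ℕ} (h1 : α + ε ≤ 2 * u) (h2 : ∀ r, P r → 12 * u ≤ r * α) : FData x u ε α := by
  obtain ⟨a, b, c, ht, ha, hb, hc⟩ := hA
  exact ht.fdata h hgen (na := 6 * u) (nb := 4 * u) (nc := α) {c} (by simp) (by simp; omega)
    (by rw [ha]; omega) (by rw [hb]; omega) ⟨h2 _ hc, fun _ => by simp⟩

lemma TB.fdata (hB : TB k F G) (h : IsCoord k (x : F)) (hgen : k⟮x⟯ = ⊤)
    {u ε : ℕ} (h1 : ε ≤ u) : FData x u ε (2 * u) := by
  classical
  obtain ⟨a, b, c, ht, ha, hb, hc⟩ := hB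
  by_cases h2 : 6 ≤ b.ram
  · exact ht.fdata h hgen (na := 6 * u) (nb := 2 * u) (nc := 2 * u) {b, c}
      (by rw [Finset.card_pair ht.bc]; omega) (by rw [Finset.card_pair ht.bc]; omega)
      (by rw [ha]; omega) ⟨by nlinarith, fun _ => by simp⟩ ⟨by nlinarith, fun _ => by simp⟩
  · exact ht.fdata h hgen (na := 6 * u) (nb := 3 * u) (nc := 2 * u) {c} (by simp) (by simp; omega)
      (by rw [ha]; omega) ⟨by nlinarith, fun h3 => absurd h3 h2⟩ ⟨by nlinarith, fun _ => by simp⟩

lemma TA.big {P : ℕ → Prop} (hA : TA k F G P) {q : Place k (Fix k F G)} (hq : 6 ≤ q.ram) :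
    P q.ram := by
  obtain ⟨a, b, c, ht, ha, hb, hc⟩ := hA
  rcases ht.cases q with rfl | rfl | rfl | ⟨-, -, -, h⟩
  · omega
  · omega
  · exact hc
  · omega

lemma TA.mono {P Q : ℕ → Prop} (hA : TA k F G P)
    (h : ∀ q : Place k (Fix k F G), P q.ram → Q q.ram) : TA k F G Q := by
  obtain ⟨a, b, c, ht, ha, hb, hc⟩ := hA
  exact ⟨a, b, c, ht, ha, hb, h c hc⟩

lemma TA.tri237 (hA : TA k F G (7 ≤ ·)) (h : IsCoord k (x : F)) (hgen : k⟮x⟯ = ⊤)
    {p : Place k F} {q : Place k (Fix k F G)} (hp : p.Over (Fix k F G).val q q.ram)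
    (hq : 6 ≤ q.ram) : ∃ A B : Subgroup G, Tri237 A B (stabilizer G p) := by
  obtain ⟨a, b, c, ht, ha, hb, hc⟩ := hA
  rcases ht.cases q with rfl | rfl | rfl | ⟨-, -, -, h⟩
  · omega
  · omega
  · exact ht.tri237 h hgen ha hb hc hp
  · omega

lemma IsCoord.ram_dvd (h : IsCoord k (x : F)) {n : ℕ} (hn : ∀ g : G, g ^ n = 1)
    (q : Place k (Fix k F G)) : q.ram ∣ n := by
  obtain ⟨p, hp⟩ := q.exists_over_ram
  obtain ⟨g, hg⟩ := (h.isCyclic (G := G) p).exists_ofOrder_eq_natCard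
  rw [← h.card_stabilizer hp, ← hg, orderOf_dvd_iff_pow_eq_one]
  exact Subtype.ext (hn g)

end factor

namespace Setup

variable {F : Fin 5 → Type} [∀ i, Field (F i)] [∀ i, Algebra ℂ (F i)]
  {G : Type} [Group G] [Finite G] [∀ i, MulSemiringAction G (F i)] [∀ i, SMulCommClass G ℂ (F i)]
  {K : Type} [Field K] [Algebra ℂ K] [MulSemiringAction G K] [SMulCommClass G ℂ K]
  {ι : ∀ i, F i →ₐ[ℂ] K} (S : Setup G ι) [∀ i, FaithfulSMul G (F i)] [FaithfulSMul G K]
include S

theorem vol_case (x : ∀ i, Fix ℂ (F i) G) (hx : ∀ i, IsCoord ℂ (x i : F i)) {u ε a κ : ℕ}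
    (hu : 1 ≤ u) (α : Fin 5 → ℕ) (hα : ∀ i, a ≤ α i) (hF : ∀ i, FData (x i) u ε (α i))
    (D : Finset (Fin 5 → ℕ))
    (hD : ∀ L : S.Loc, 6 ≤ L.e → ∑ i, L.d i * α i < 12 * u → L.d ∈ D)
    (hκ : ∀ d ∈ D, ∃ j, d j = 1 ∧ Kap ℂ (F j) G κ)
    (hnum : ∑ d ∈ D, (12 * u - a * ∑ i, d i) ^ 5 < 120 * κ ^ 4 * ε ^ 5) :
    ¬ KodairaNegInf ℂ (Fix ℂ K G) 5 := by
  choose Big c hBig hcard hF using hF
  obtain ⟨t, ht, hct, hnum'⟩ := exists_large D _ _ ε (∑ i, c i) hnum
  choose nn W hli h1 h2 h3 using fun i => hF i t (ε * t - ∑ i, c i) (by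
    have := Finset.single_le_sum (f := c) (fun _ _ => Nat.zero_le _) (Finset.mem_univ i)
    omega)
  refine S.vol x hx (m := 12 * u * t) (by nlinarith) nn h1 (a := a * t)
    (fun i q hq => (Nat.mul_le_mul_right t (hα i)).trans (h2 i q hq)) W hli h3 D
    (fun L h4 h5 => hD L h4 ?_) (κ := κ ^ 4) (B := (∏ i, (Big i).card) * Nat.card G ^ 5)
    (fun d hd => ?_) ?_
  · refine lt_of_mul_lt_mul_right (a := t) (lt_of_le_of_lt ?_ h5) (Nat.zero_le _)
    rw [Finset.sum_mul]
    exact Finset.sum_le_sum fun i _ => by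
      rw [mul_assoc]; exact Nat.mul_le_mul_left _ (h2 i _ (h4.trans (L.le_ram i)))
  · obtain ⟨j, hj, hj'⟩ := hκ d hd
    exact S.count d hj Big hBig hj'
  · have h4 : 0 < (∏ i, (Big i).card) * Nat.card G ^ 5 :=
      Nat.mul_pos (Finset.prod_pos fun i _ => hcard i) (pow_pos Nat.card_pos _)
    simp only [Nat.sub_mul, mul_right_comm a _ t] at hnum'
    refine (Nat.mul_lt_mul_of_pos_left hnum' h4).trans_le (le_of_eq ?_)
    simp only [Fintype.card_prod, Fintype.card_fin, Finset.prod_mul_distrib, Finset.prod_const,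
      Finset.card_univ]
    ring

theorem nonell (x : ∀ i, Fix ℂ (F i) G) (hx : ∀ i, IsCoord ℂ (x i : F i))
    (hgen : ∀ i, ℂ⟮x i⟯ = ⊤) (j : Fin 5) (hA : ∀ i, i ≠ j → TA ℂ (F i) G (7 ≤ ·))
    (hj : TA ℂ (F j) G (7 ≤ ·) ∨ TB ℂ (F j) G) : ¬ KodairaNegInf ℂ (Fix ℂ K G) 5 := by
  classical
  have hB : ∀ i, ¬ TA ℂ (F i) G (7 ≤ ·) → TB ℂ (F i) G := fun i hi => by
    obtain rfl : i = j := by_contra fun h => hi (hA i h)
    exact hj.resolve_left hi
  have hF : ∀ u ε a : ℕ, a + ε ≤ 2 * u → ε ≤ u → (∀ i, TA ℂ (F i) G (7 ≤ ·) →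
      ∀ q : Place ℂ (Fix ℂ (F i) G), 7 ≤ q.ram → 12 * u ≤ q.ram * a) →
      ∀ i, FData (x i) u ε (if TA ℂ (F i) G (7 ≤ ·) then a else 2 * u) := by
    intro u ε a h1 h2 h3 i
    split_ifs with h4
    · exact (h4.mono (Q := fun r => 12 * u ≤ r * a) (h3 i h4)).fdata (hx i) (hgen i) h1
        fun _ h => h
    · exact (hB i h4).fdata (hx i) (hgen i) h2
  have hsum : ∀ (f : Fin 5 → ℕ) (s t : ℕ), s ≤ f j → (∀ i, i ≠ j → t ≤ f i) →
      s + 4 * t ≤ ∑ i, f i := fun f s t h1 h2 => by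
    rw [Fin.sum_univ_succAbove _ j]
    have := Finset.card_nsmul_le_sum Finset.univ (fun l : Fin 4 => f (j.succAbove l)) t
      fun l _ => h2 _ (Fin.succAbove_ne j l)
    simp only [Finset.card_univ, Fintype.card_fin, smul_eq_mul] at this
    omega
  have hle : ∀ (L : S.Loc) (u a : ℕ), a ≤ 2 * u → a * ∑ i, L.d i ≤
      ∑ i, L.d i * (if TA ℂ (F i) G (7 ≤ ·) then a else 2 * u) := fun L u a h => by
    rw [Finset.mul_sum]
    refine Finset.sum_le_sum fun i _ => ?_
    rw [mul_comm]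
    split_ifs
    · exact le_rfl
    · exact Nat.mul_le_mul_left _ h
  have hd : ∀ (L : S.Loc) (i : Fin 5), L.d i + 4 ≤ ∑ i, L.d i := fun L i => by
    rw [Fin.sum_univ_succAbove _ i]
    have := Finset.card_nsmul_le_sum Finset.univ (fun l : Fin 4 => L.d (i.succAbove l)) 1
      fun l _ => L.one_le_d _
    simp only [Finset.card_univ, Fintype.card_fin, smul_eq_mul] at this
    omega
  by_cases h12 : ∀ g : G, g ^ 12 = 1
  · have hr : ∀ i (q : Place ℂ (Fix ℂ (F i) G)), 7 ≤ q.ram → q.ram = 12 := fun i q hq => by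
      have h1 := (hx i).ram_dvd h12 q
      have h2 := Nat.le_of_dvd (by omega) h1
      interval_cases q.ram <;> omega
    refine S.vol_case x hx (u := 4) (ε := 3) (a := 5) (κ := 4) (by omega) _
      (fun i => by split_ifs <;> omega)
      (hF 4 3 5 (by omega) (by omega) fun i _ q hq => by rw [hr i q hq]; omega)
      ((Fintype.piFinset fun _ => {1, 5}).filter fun d => ∑ i, d i ≤ 9) (fun L h1 h2 => ?_)
      (fun d hd => ?_) (by decide +kernel)
    · have h3 := hle L 4 5 (by omega)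
      have h4 : L.e = 12 := by
        have h4 := (L.dvd j).trans ((hx j).ram_dvd h12 _)
        by_contra h5
        have h6 : L.e = 6 := by
          have := Nat.le_of_dvd (by omega) h4
          interval_cases L.e <;> omega
        have h7 : ∀ i, TA ℂ (F i) G (7 ≤ ·) → 2 ≤ L.d i := fun i hi => by
          have h7 := L.hed i
          have h8 := L.one_le_c i
          rw [h6, hr i _ (hi.big (h1.trans (L.le_ram i)))] at h7
          omega
        refine absurd h2 (not_lt.2 (hsum _ 8 10 ?_ fun i hi => ?_))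
        · have := L.one_le_d j
          split_ifs with h8
          · have := h7 j h8; omega
          · omega
        · have := h7 i (hA i hi)
          rw [if_pos (hA i hi)]
          omega
      obtain ⟨j₀, hj₀⟩ : ∃ j₀, L.d j₀ = 1 := by
        by_contra h5
        have h6 : ∀ i, 2 ≤ L.d i := fun i => by
          have := L.one_le_d i
          have := not_exists.1 h5 i
          omega
        have := hsum L.d 2 2 (h6 j) fun i _ => h6 i
        omega
      have h5 : ∀ l : ℕ, l.Prime → l ∣ 12 → ∀ i, ¬ l ∣ L.d i := fun l hl hl' i hi => by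
        have := Fact.mk hl
        obtain ⟨g, hg⟩ := exists_prime_orderOf_dvd_card' (G := stabilizer G (L.p j₀)) l
          (by rwa [L.card_stab, (L.base hj₀).2, h4])
        obtain ⟨h6, h7⟩ := L.chi_eq hj₀ g.2 i
        have h8 : L.d i = L.c i := by
          have h8 := L.hed i
          rw [h4, hr i _ (by have := L.le_ram i; omega)] at h8
          omega
        obtain ⟨s, hs⟩ := hi
        have h9 : (g : G) ^ l = 1 := by
          rw [← hg]; exact congrArg Subtype.val (pow_orderOf_eq_one g)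
        rw [← h8, hs, pow_mul, ← (hx j₀).chi_pow g.2, h9, (hx j₀).chi_one, one_pow] at h7
        have h10 : g = 1 := Subtype.ext ((hx i).eq_one_of_chi h6 h7)
        rw [h10, orderOf_one] at hg
        exact hl.one_lt.ne hg
      refine Finset.mem_filter.2 ⟨Fintype.mem_piFinset.2 fun i => ?_, by omega⟩
      have h6 := h5 2 Nat.prime_two (by decide) i
      have h7 := h5 3 Nat.prime_three (by decide) i
      have h8 := hd L i
      simp only [Finset.mem_insert, Finset.mem_singleton]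
      omega
    · obtain ⟨h1, h2⟩ := Finset.mem_filter.1 hd
      by_contra h3
      have h4 := hsum d 0 5 (Nat.zero_le _) fun i hi => by
        have h4 := Fintype.mem_piFinset.1 h1 i
        simp only [Finset.mem_insert, Finset.mem_singleton] at h4
        refine (h4.resolve_left fun h5 => h3 ⟨i, h5, fun p q hp hq => ?_⟩).ge
        obtain ⟨A, B, h6⟩ := (hA i hi).tri237 (hx i) (hgen i) hp hq
        rcases h6.dichotomy with h7 | h7 <;> omega
      omega
  have hbase : ∀ (κ s : ℕ) (T : Finset ℕ), 0 ∉ T → s ≤ 7 → (∀ i, i ≠ j → Kap ℂ (F i) G κ) →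
      ∀ d ∈ (Fintype.piFinset fun _ : Fin 5 => T).filter fun d => ∑ i, d i ≤ s,
        ∃ j, d j = 1 ∧ Kap ℂ (F j) G κ := fun κ s T hT hs hκ d hd => by
    obtain ⟨h1, h2⟩ := Finset.mem_filter.1 hd
    by_contra h3
    have h4 := hsum d 0 2 (Nat.zero_le _) fun i hi => by
      have h4 : d i ≠ 0 := fun h4 => hT (h4 ▸ Fintype.mem_piFinset.1 h1 i)
      have h5 : d i ≠ 1 := fun h5 => h3 ⟨i, h5, hκ i hi⟩
      omega
    omega
  by_cases h7 : ∀ i, i ≠ j → Kap ℂ (F i) G 7
  · refine S.vol_case x hx (u := 7) (ε := 2) (a := 12) (κ := 7) (by omega) _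
      (fun i => by split_ifs <;> omega)
      (hF 7 2 12 (by omega) (by omega) fun i _ q hq => by omega)
      ((Fintype.piFinset fun _ => {1, 2}).filter fun d => ∑ i, d i ≤ 6) (fun L h1 h2 => ?_)
      (hbase 7 6 _ (by decide) (by omega) h7) (by decide +kernel)
    have h3 := hle L 7 12 (by omega)
    refine Finset.mem_filter.2 ⟨Fintype.mem_piFinset.2 fun i => ?_, by omega⟩
    have h4 := hd L i
    have h5 := L.one_le_d i
    simp only [Finset.mem_insert, Finset.mem_singleton]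
    omega
  · simp only [Kap, not_forall, not_le] at h7
    obtain ⟨i₀, hi₀, p₀, q₀, hp₀, hq₀, h7⟩ := h7
    obtain ⟨A₀, B₀, h8⟩ := (hA i₀ hi₀).tri237 (hx i₀) (hgen i₀) hp₀ hq₀
    refine S.vol_case x hx (u := 2) (ε := 1) (a := 3) (κ := 6) (by omega) _
      (fun i => by split_ifs <;> omega)
      (hF 2 1 3 (by omega) (by omega) fun i hi q hq => ?_)
      ((Fintype.piFinset fun _ => {1, 2, 3}).filter fun d => ∑ i, d i ≤ 7) (fun L h1 h2 => ?_)
      (hbase 6 7 _ (by decide) (by omega) fun i hi p q hp hq => ?_) (by decide +kernel)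
    · obtain ⟨p, hp⟩ := q.exists_over_ram
      obtain ⟨A, B, h9⟩ := hi.tri237 (hx i) (hgen i) hp (by omega)
      have h10 : q.ram ≠ 7 := fun h10 => h9.not_le_center fun g hg =>
        h8.mem_center (by omega) (by
          rw [← h10, ← (hx i).card_stabilizer hp]
          exact congrArg Subtype.val (pow_card_eq_one' (x := (⟨g, hg⟩ : stabilizer G p))))
      omega
    · have h3 := hle L 2 3 (by omega)
      refine Finset.mem_filter.2 ⟨Fintype.mem_piFinset.2 fun i => ?_, by omega⟩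
      have h4 := hd L i
      have h5 := L.one_le_d i
      simp only [Finset.mem_insert, Finset.mem_singleton]
      omega
    · obtain ⟨A, B, h9⟩ := (hA i hi).tri237 (hx i) (hgen i) hp hq
      exact h9.dichotomy.resolve_right fun h10 => h12 h10.2

end Setup

end Pool.Agent.Lib.MP_e06174_ag
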