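import Pool.Agent.Lib.MP_e06174_ag.Ret2
import Pool.Agent.Lib.MP_e06174_ag.PluG

/-! The quotient of an exceptional curve by the center: rationality, coordinates, forms. -/

set_option linter.unusedSectionVars false

open Polynomial IntermediateField Module MulAction

namespace Pool.Agent.Lib.MP_e06174_ag

open Place Subgroup

lemma Place.At.inv {k K : Type*} [Field k] [Field K] [Algebra k K] {w : Place k K} {y : K} {a : k}
    (h : w.At y a) (ha : a ≠ 0) : w.At y⁻¹ a⁻¹ := by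
  obtain ⟨h0, h1⟩ := h.ord_eq_zero ha
  have h2 : algebraMap k K a ≠ 0 := (_root_.map_ne_zero _).2 ha
  have h3 := (Ge.mul' h (ge_of_le (n := 0) (x := y⁻¹) (by simp [h1])) (l := 1) (by simp)).mul'
    (ge_const (-a⁻¹)) (l := 1) (by simp)
  unfold At
  convert h3 using 1
  rw [map_neg, map_inv₀]
  field_simp
  ring

lemma gen_of_mem {B : Type*} [Field B] [Algebra ℂ B] {v u : B} (hv : Transcendental ℂ v)
    (hgen : ℂ⟮v⟯ = ⊤) (h : v ∈ ℂ⟮u⟯) : Transcendental ℂ u ∧ ℂ⟮u⟯ = ⊤ := by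
  refine ⟨fun h1 => hv ?_, top_le_iff.1 (hgen.ge.trans (adjoin_simple_le_iff.2 h))⟩
  have := isAlgebraic_adjoin_simple h1.isIntegral
  exact IntermediateField.isAlgebraic_iff.1 (this.isAlgebraic ⟨v, h⟩)

variable {F G : Type} [Field F] [Algebra ℂ F] [Group G] [Finite G] [MulSemiringAction G F]
  [SMulCommClass G ℂ F] [FaithfulSMul G F] {x : Fix ℂ F G} {p : Place ℂ F}

lemma IsCoord.at_chi_zpow {x : F} (h : IsCoord ℂ x) {g : G} (hg : g ∈ stabilizer G p) {y : F}
    (hy : y ≠ 0) : p.At (g • y / y) (p.chi g ^ p.ord y) := by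
  have h2 := h.at_chi hg p.unif_ne_zero p.ord_unif
  have h0 := p.unif_ne_zero
  obtain ⟨s, hs | hs⟩ := (p.ord y).eq_nat_or_neg
  · have h3 := h2.pow s
    rw [div_pow, ← smul_pow'] at h3
    rw [hs, zpow_natCast]
    exact h3.of_ord_eq (h.mem_inertia hg) (pow_ne_zero _ h0) hy (by simp [hs])
  · have h3 := h2.pow s
    rw [div_pow, ← smul_pow'] at h3
    have h4 := (h3.of_ord_eq (h.mem_inertia hg) (pow_ne_zero _ h0) (inv_ne_zero hy)
      (by simp [hs])).inv (pow_ne_zero _ (h.chi_ne_zero hg))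
    rw [smul_inv'', inv_div_inv, inv_div] at h4
    rwa [hs, zpow_neg, zpow_natCast]

/-- An invariant function as an element of the fixed field of the center. -/
def toZ (x : Fix ℂ F G) : Fix ℂ F (center G) := ⟨x, mem_fix.2 fun g => smul_fix (g : G) x⟩

lemma center_le_smul (hZ : center G ≤ stabilizer G p) (g : G) :
    center G ≤ stabilizer G (g • p) := fun z hz => by
  rw [mem_stabilizer_iff, ← mul_smul, ← mem_center_iff.1 hz g, mul_smul, hZ hz]

lemma ram_center (h : IsCoord ℂ (x : F)) (hZ : center G ≤ stabilizer G p)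
    {p' : Place ℂ (Fix ℂ F (center G))} {e : ℕ} (hp : p.Over (Fix ℂ F (center G)).val p' e) :
    e = Nat.card (center G) := by
  have hD : IsCoord ℂ (toZ x : F) := h
  obtain rfl := hp.ram_eq
  rw [← hD.card_stabilizer hp, card_eq_iff_eq_top]
  exact eq_top_iff.2 fun z _ => hZ z.2

lemma eq_of_under (hZ : center G ≤ stabilizer G p) {p' : Place ℂ (Fix ℂ F (center G))} {e e' : ℕ}
    (hp : p.Over (Fix ℂ F (center G)).val p' e) {P : Place ℂ F}
    (hP : P.Over (Fix ℂ F (center G)).val p' e') : P = p := by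
  obtain ⟨z, rfl⟩ := exists_smul_eq hp hP
  exact hZ z.2

theorem Tri.rational {a b c : Place ℂ (Fix ℂ F G)} (ht : Tri a b c) (h : IsCoord ℂ (x : F))
    (hgen : ℂ⟮x⟯ = ⊤) (ha : a.ram = 2) (hb : b.ram = 3) (hp : p.Over (Fix ℂ F G).val c c.ram)
    {rb : ℕ} (hE : Exc (stabilizer G p) rb) :
    ∃ t : Fix ℂ F (center G), IsCoord ℂ (t : F) ∧ ℂ⟮t⟯ = ⊤ := by
  classical
  have := Fintype.ofFinite G
  have hD : IsCoord ℂ (toZ x : F) := h
  obtain ⟨t, ht1, ht2⟩ := h.exists_fix (center G)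
  refine ⟨t, ht1, ht2.resolve_left fun hirr => ?_⟩
  obtain ⟨f, hf, hf'⟩ := hD.fix.exists_regular hirr
  have hf0 : (f : F) ≠ 0 := fun h1 => hf (Subtype.ext h1)
  have h1 : ∀ P : Place ℂ F, ∃ (p' : Place ℂ (Fix ℂ F (center G))) (e : ℕ),
      P.Over (Fix ℂ F (center G)).val p' e ∧ (e : ℤ) ≤ P.ord (f * P.loc (x : F) ^ 1) := fun P => by
    obtain ⟨p', hp'⟩ := hD.exists_under P
    refine ⟨p', _, hp', ?_⟩
    have h1 := hp'.2 (f * p'.loc (toZ x))
    rw [map_mul, ← hp'.loc_eq] at h1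
    have h2 := hf' p'
    rw [pow_one]
    change P.ord (f * P.loc (x : F)) = _ at h1
    rw [h1]
    exact le_mul_of_one_le_right (by positivity) h2
  have h2 : ∀ (q : Place ℂ (Fix ℂ F G)) (P : Place ℂ F) (s : ℕ),
      P.Over (Fix ℂ F G).val q q.ram → (s = 1 ∨ center G ≤ stabilizer G P ∧
        s = Nat.card (center G)) → (Fintype.card G : ℤ) * s ≤
      q.ram * q.ord (nrm ℂ G (f : F) * q.loc x ^ (Fintype.card G * 1)) := fun q P s hP hs => by
    rw [ord_nrm h hf0 1 hP]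
    have := Finset.card_nsmul_le_sum Finset.univ
      (fun g : G => (g • P).ord (f * (g • P).loc (x : F) ^ 1)) s fun g _ => by
        obtain ⟨p', e, h3, h4⟩ := h1 (g • P)
        refine le_trans ?_ h4
        rcases hs with rfl | ⟨h5, rfl⟩
        · exact_mod_cast h3.1
        · rw [ram_center h (center_le_smul h5 g) h3]
    simpa using this
  have h3 : ∀ q : Place ℂ (Fix ℂ F G), (Fintype.card G : ℤ) ≤
      q.ram * q.ord (nrm ℂ G (f : F) * q.loc x ^ (Fintype.card G * 1)) := fun q => by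
    obtain ⟨P, hP⟩ := q.exists_over_ram
    simpa using h2 q P 1 hP (Or.inl rfl)
  have h4 := h.fix.sum_del_le hgen (Fintype.card G * 1) (nrm_ne_zero (k := ℂ) (G := G) hf0)
    {a, b, c} fun q hq => by
      simp only [Finset.mem_insert, Finset.mem_singleton, not_or] at hq
      have h4 := h3 q
      rw [ht.ram q hq.1 hq.2.1 hq.2.2] at h4
      rw [del]
      push_cast at h4 ⊢
      omega
  rw [Finset.sum_insert (by simp [ht.ab, ht.ac]), Finset.sum_pair ht.bc] at h4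
  have h5 := h3 a
  have h6 := h3 b
  have h7 := h2 c p _ hp (Or.inr ⟨hE.le, rfl⟩)
  rw [← h.card_stabilizer hp, hE.card] at h7
  have h8 : (0 : ℤ) < Nat.card (center G) := by exact_mod_cast Nat.card_pos
  have h9 : (Fintype.card G : ℤ) ≤
      rb * c.ord (nrm ℂ G (f : F) * c.loc x ^ (Fintype.card G * 1)) := by
    refine le_of_mul_le_mul_right ?_ h8
    push_cast at h7
    linarith
  have h10 : (0 : ℤ) < Fintype.card G := by exact_mod_cast Fintype.card_pos
  rw [ha] at h5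
  rw [hb] at h6
  simp only [del] at h4
  rcases hE.cases with ⟨rfl, -⟩ | ⟨rfl, -⟩ <;> push_cast at h4 h5 h6 h9 <;> omega

theorem exists_eigen_gen (h : IsCoord ℂ (x : F)) (hZ : center G ≤ stabilizer G p)
    {t : Fix ℂ F (center G)} (ht : IsCoord ℂ (t : F)) (hgen : ℂ⟮t⟯ = ⊤) {a : G}
    (ha : a ∈ stabilizer G p) (h1 : p.chi a ^ Nat.card (center G) ≠ 1) :
    ∃ v : Fix ℂ F (center G), Transcendental ℂ v ∧ ℂ⟮v⟯ = ⊤ ∧ p.ord (v : F) < 0 ∧
      (∀ P : Place ℂ F, P ≠ p → P.Ge 0 (v : F)) ∧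
      a • (v : F) = (p.chi a ^ Nat.card (center G))⁻¹ • (v : F) := by
  obtain ⟨p', hp'⟩ := ht.exists_under p
  obtain ⟨v, hv, hv', hpv⟩ := exists_coord_pole ht.fix hgen p'
  have hv0 : (v : F) ≠ 0 := fun h2 => ne_zero_of_transcendental hv (Subtype.ext h2)
  have hz := ram_center h hZ hp'
  have h2 : p.ord (v : F) = -Nat.card (center G) := by
    have := hp'.2 v
    rw [ord_eq_neg_one_of_pole hpv hv hv', hz, mul_neg, mul_one] at this
    exact this
  have hz0 : (0 : ℤ) < Nat.card (center G) := by exact_mod_cast Nat.card_pos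
  have h3 : ∀ P : Place ℂ F, P ≠ p → P.Ge 0 (v : F) := fun P hP => by
    obtain ⟨q, hq⟩ := ht.exists_under P
    refine (hq.ge_zero_iff v).2 (ge_of_le (not_lt.1 fun h3 => hP ?_))
    exact eq_of_under hZ hp' (ext_pole h3 hpv hv hv' ▸ hq)
  set α := (p.chi a ^ Nat.card (center G))⁻¹ with hα
  have hα1 : α - 1 ≠ 0 := sub_ne_zero.2 fun h4 => h1 (inv_eq_one.1 h4)
  have h4 := h.at_chi_zpow ha hv0
  rw [h2, zpow_neg, zpow_natCast, ← hα] at h4
  let y : Fix ℂ F (center G) := ⟨a • (v : F), mem_fix.2 fun z => by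
    rw [Subgroup.smul_def, ← mul_smul, ← mem_center_iff.1 z.2 a, mul_smul]
    exact congrArg (a • ·) (smul_fix z v)⟩
  obtain ⟨β, hβ⟩ := h.const_of_forall_ge (y := a • (v : F) - α • (v : F)) fun P => by
    by_cases hP : P = p
    · subst hP
      have h5 := Ge.mul' h4 (ge_ord (v : F)) (l := 1 - Nat.card (center G)) (by omega)
      rw [sub_mul, div_mul_cancel₀ _ hv0, ← Algebra.smul_def] at h5
      refine (hp'.ge_zero_iff (y - α • v)).2 (ge_iff'.2 (or_iff_not_imp_left.2 fun h6 => ?_))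
      have h7 := h5.le fun h7 => h6 (Subtype.ext h7)
      have h8 := hp'.2 (y - α • v)
      change P.ord (a • (v : F) - α • (v : F)) = _ at h8
      rw [h8, hz] at h7
      by_contra h9
      nlinarith
    · refine Ge.sub ?_ ((h3 P hP).smul α)
      have := h3 (a⁻¹ • P) fun h5 => hP (by rw [← smul_inv_smul a P, h5, ha])
      rwa [smul_ge, inv_inv] at this
  obtain ⟨h5, h6⟩ := gen_of_mem (u := v + algebraMap ℂ _ (β / (α - 1))) hv hv' (by
    have := sub_mem (mem_adjoin_simple_self ℂ (v + algebraMap ℂ _ (β / (α - 1))))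
      (IntermediateField.algebraMap_mem _ (β / (α - 1)))
    rwa [add_sub_cancel_right] at this)
  have h7 : ((v + algebraMap ℂ _ (β / (α - 1)) : Fix ℂ F (center G)) : F) =
      v - algebraMap ℂ F (-(β / (α - 1))) := by
    rw [map_neg, sub_neg_eq_add]; rfl
  refine ⟨_, h5, h6, ?_, fun P hP => ?_, ?_⟩
  · rw [h7, ord_sub_const_of_pole (by omega)]; omega
  · rw [h7]; exact (h3 P hP).sub (ge_const _)
  · rw [h7, smul_sub, smul_const, smul_sub, eq_add_of_sub_eq hβ,
      Algebra.smul_def α (algebraMap ℂ F _), ← map_mul, add_comm, add_sub_assoc, ← map_sub,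
      sub_eq_add_neg (α • _), ← map_neg]
    congr 2
    field_simp
    ring

theorem exists_val (h : IsCoord ℂ (x : F)) (hZ : center G ≤ stabilizer G p)
    {t : Fix ℂ F (center G)} (ht : IsCoord ℂ (t : F)) (hgen : ℂ⟮t⟯ = ⊤) {a : G}
    (ha : a ∈ stabilizer G p) (h1 : p.chi a ^ Nat.card (center G) ≠ 1) :
    ∃ (v : Fix ℂ F (center G)) (f : G → ℂ), Transcendental ℂ v ∧ ℂ⟮v⟯ = ⊤ ∧ p.ord (v : F) < 0 ∧
      (∀ g ∉ stabilizer G p, (g • p).At (v : F) (f g)) ∧
      (∀ g ∉ stabilizer G p, f (a⁻¹ * g) = (p.chi a ^ Nat.card (center G))⁻¹ * f g) ∧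
      ∀ g ∉ stabilizer G p, ∀ g' ∉ stabilizer G p, f g = f g' ↔ g⁻¹ * g' ∈ stabilizer G p := by
  obtain ⟨v, hv, hv', h2, h3, h4⟩ := exists_eigen_gen h hZ ht hgen ha h1
  have h5 : ∀ g ∉ stabilizer G p, (g • p).At (v : F) ((g • p).cen (v : F)) := fun g hg =>
    h.at_cen (h3 _ hg)
  refine ⟨v, fun g => (g • p).cen (v : F), hv, hv', h2, h5, fun g hg => At.cen_eq ?_,
    fun g hg g' hg' => ⟨fun h6 => ?_, fun h6 => ?_⟩⟩
  · rw [mul_smul, smul_at, inv_inv, h4]
    exact (h5 g hg).smul _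
  · obtain ⟨q, hq⟩ := ht.exists_under (g • p)
    obtain ⟨q', hq'⟩ := ht.exists_under (g' • p)
    have h7 := h5 g' hg'
    simp only at h6
    rw [← h6] at h7
    obtain rfl : q = q' := ((hq.at_iff _).1 (h5 g hg)).ext ((hq'.at_iff _).1 h7) hv hv'
    rw [mem_stabilizer_iff, mul_smul, eq_of_under (center_le_smul hZ g) hq hq', inv_smul_smul]
  · rw [mem_stabilizer_iff, mul_smul, inv_smul_eq_iff] at h6
    simp only [h6]

theorem Tri.exists_W {a b c : Place ℂ (Fix ℂ F G)} (ht : Tri a b c) (h : IsCoord ℂ (x : F))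
    (ha : a.ram = 2) (hb : b.ram = 3) (hp : p.Over (Fix ℂ F G).val c c.ram)
    {rb : ℕ} (hE : Exc (stabilizer G p) rb) {u : Fix ℂ F (center G)} (hu : Transcendental ℂ u)
    (hu' : ℂ⟮u⟯ = ⊤) (hfin : ∀ g : G, (g • p).Ge 0 (u : F)) :
    ∃ W : F, W ≠ 0 ∧ ∀ (P : Place ℂ F) (q : Place ℂ (Fix ℂ F G)),
      P.Over (Fix ℂ F G).val q q.ram →
        P.Ge (q.ram * (if 5 ≤ q.ram then 6 * rb - 6 else 144 / q.ram : ℕ) +
          144 * (-P.ord (u : F)).toNat) (W * P.loc (x : F) ^ 144) := by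
  classical
  have := Fintype.ofFinite (G ⧸ stabilizer G p)
  have hD : IsCoord ℂ (toZ x : F) := h
  have hc := hD.fix.of_transcendental hu
  have hu0 : (u : F) ≠ 0 := fun h2 => ne_zero_of_transcendental hu (Subtype.ext h2)
  choose U hU using hD.exists_under
  obtain ⟨p₀, hp₀⟩ := hc.exists_pole
  obtain ⟨ψ, hψ, hψ'⟩ := exists_jacobian hc hu' hD.fix
  let V := Finset.univ.image fun s : G ⧸ stabilizer G p => U (s.out • p)
  have hV : V.card = (stabilizer G p).index := by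
    rw [Finset.card_image_of_injective _ fun s s' hs => ?_, Finset.card_univ,
      ← Nat.card_eq_fintype_card, index_eq_card]
    have h1 := eq_of_under (center_le_smul hE.le s.out) (hU _) (hs ▸ hU (s'.out • p))
    rw [← s.out_eq', ← s'.out_eq', QuotientGroup.eq, mem_stabilizer_iff, mul_smul, h1,
      inv_smul_smul]
  have hV1 : ∀ g : G, U (g • p) ∈ V := fun g => by
    refine Finset.mem_image.2 ⟨g, Finset.mem_univ _, congrArg U ?_⟩
    have h1 : g⁻¹ * (g : G ⧸ stabilizer G p).out ∈ stabilizer G p :=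
      QuotientGroup.eq.1 (QuotientGroup.out_eq' _).symm
    rwa [mem_stabilizer_iff, mul_smul, inv_smul_eq_iff] at h1
  have hV2 : ∀ g : G, U (g • p) ≠ p₀ := fun g h1 => by
    have h2 := (hfin g).le hu0
    have h3 := ((hU (g • p)).pole_iff (x := u)).2 (h1 ▸ hp₀)
    exact absurd h3 (not_lt.2 h2)
  have hV3 : p₀ ∉ V := fun h1 => by
    obtain ⟨s, -, hs⟩ := Finset.mem_image.1 h1
    exact hV2 _ hs
  obtain ⟨Φ, hΦ, h1, h2⟩ := hc.exists_del hu' 144 (insert p₀ V)
    (fun q => if q = p₀ then 144 else rb * (6 * rb - 6 : ℕ) - 144) (by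
      rw [Finset.sum_insert hV3, if_pos rfl, Finset.sum_congr rfl fun q hq =>
        if_neg fun h1 : q = p₀ => hV3 (h1 ▸ hq), Finset.sum_const, hV]
      rcases hE.cases with ⟨rfl, -, h1, -⟩ | ⟨rfl, -, h1, -⟩ <;> rw [h1] <;> norm_num)
  have hW : Φ / ψ ^ 144 ≠ 0 := div_ne_zero hΦ (pow_ne_zero _ hψ)
  refine ⟨(Φ / ψ ^ 144 : Fix ℂ F (center G)), fun h3 => hW (Subtype.ext h3),
    fun P q hq => ge_of_le ?_⟩
  have h3 : P.ord (((Φ / ψ ^ 144 : Fix ℂ F (center G)) : F) * P.loc (x : F) ^ 144) =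
      (U P).ram * ((U P).del u 144 Φ + 144) := by
    have h3 := (hU P).2 (Φ / ψ ^ 144 * (U P).loc (toZ x) ^ 144)
    rw [map_mul, map_pow, ← (hU P).loc_eq] at h3
    refine h3.trans (congrArg _ ?_)
    have h4 := hψ' (U P)
    have h5 : (U P).loc u ≠ 0 := loc_ne_zero hu
    have h6 : (U P).loc (toZ x) ≠ 0 := loc_ne_zero hD.fix.trans
    rw [Place.ord_mul _ hψ h5] at h4
    rw [del, Place.ord_mul _ hW (pow_ne_zero _ h6), Place.ord_mul _ hΦ (pow_ne_zero _ h5),
      Place.ord_div _ hΦ (pow_ne_zero _ hψ), ord_pow, ord_pow, ord_pow, ← h4]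
    push_cast
    ring
  rw [h3]
  have h4 : (1 : ℤ) ≤ (U P).ram := by exact_mod_cast (U P).one_le_ram
  have h5 : P.ord (u : F) = (U P).ram * (U P).ord u := (hU P).2 u
  by_cases hqc : q = c
  · subst hqc
    obtain ⟨g, rfl⟩ := exists_smul_eq hp hq
    have h6 := h1 _ (Finset.mem_insert_of_mem (hV1 g))
    rw [if_neg (hV2 g)] at h6
    have h7 := (hfin g).le hu0
    have h8 := h.card_stabilizer hp
    rw [Int.toNat_of_nonpos (by omega), if_pos (by rcases hE.cases with h9 | h9 <;> omega),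
      ram_center h (center_le_smul hE.le g) (hU _), ← h8, hE.card]
    have h9 : (0 : ℤ) ≤ Nat.card (center G) := by positivity
    push_cast at h6 ⊢
    nlinarith
  have h6 : ¬ 5 ≤ q.ram ∧ q.ram * (144 / q.ram) = 144 := by
    rcases ht.cases q with rfl | rfl | rfl | ⟨-, -, -, h6⟩
    · rw [ha]; decide
    · rw [hb]; decide
    · exact absurd rfl hqc
    · rw [h6]; decide
  rw [if_neg h6.1, ← Nat.cast_mul, h6.2]
  by_cases h7 : U P = p₀
  · have h8 := h1 _ (Finset.mem_insert.2 (Or.inl h7))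
    rw [if_pos h7] at h8
    rw [ord_eq_neg_one_of_pole (h7 ▸ hp₀) hu hu'] at h5
    rw [h5, mul_neg, mul_one, neg_neg, Int.toNat_natCast]
    push_cast
    nlinarith
  · have h8 := h2 (U P) fun h8 => by
      obtain ⟨s, -, hs⟩ := Finset.mem_image.1 ((Finset.mem_insert.1 h8).resolve_left h7)
      have h9 := eq_of_under (center_le_smul hE.le s.out) (hU _) (hs ▸ hU P)
      exact hqc ((h9 ▸ hq).unique (hp.smul s.out)).1
    have h9 : 0 ≤ (U P).ord u := not_lt.1 fun h9 => h7 (ext_pole h9 hp₀ hu hu')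
    rw [Int.toNat_of_nonpos (by nlinarith)]
    push_cast
    nlinarith

end Pool.Agent.Lib.MP_e06174_ag
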