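import Pool.Agent.Lib.MP_e06174_ag.ThmA

/-! Divisors of pluricanonical forms on the projective line. -/

set_option linter.unusedSectionVars false

open Polynomial IntermediateField Module

namespace Pool.Agent.Lib.MP_e06174_ag

open Place

variable {k B : Type*} [Field k] [Field B] [Algebra k B] [CharZero k] [IsAlgClosed k] {x : B}

/-- The order of the form `Φ (dx)^m` when `x` is a local parameter. -/
noncomputable def Place.del (q : Place k B) (x : B) (m : ℕ) (Φ : B) : ℤ :=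
  q.ord (Φ * q.loc x ^ m) - m

lemma Place.At.del {q : Place k B} {a : k} (ha : q.At x a) (hx : Transcendental k x)
    (hgen : k⟮x⟯ = ⊤) (m : ℕ) {Φ : B} (hΦ : Φ ≠ 0) : q.del x m Φ = q.ord Φ := by
  rw [Place.del, q.ord_mul hΦ (pow_ne_zero _ (loc_ne_zero hx)), ord_pow, ha.loc_eq,
    ha.ord_eq_one hx hgen]
  ring

lemma Place.del_of_pole {q : Place k B} (ha : q.ord x < 0) (hx : Transcendental k x)
    (hgen : k⟮x⟯ = ⊤) (m : ℕ) {Φ : B} (hΦ : Φ ≠ 0) : q.del x m Φ = q.ord Φ - 2 * m := by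
  rw [Place.del, q.ord_mul hΦ (pow_ne_zero _ (loc_ne_zero hx)), ord_pow, loc_eq_of_pole ha,
    ord_eq_neg_one_of_pole ha hx hgen]
  ring

lemma IsCoord.exists_sum_del (h : IsCoord k x) (hgen : k⟮x⟯ = ⊤) (m : ℕ) {Φ : B} (hΦ : Φ ≠ 0) :
    ∃ T : Finset (Place k B), (∀ q ∉ T, q.del x m Φ = 0) ∧ ∑ q ∈ T, q.del x m Φ = -2 * m := by
  classical
  obtain ⟨P, Q, hP, hQ, rfl⟩ := exists_div_ne hgen hΦ
  choose pt hpt using h.exists_at
  obtain ⟨q₀, hq₀⟩ := h.exists_pole
  have hinj : Function.Injective pt := fun a b hab => (hpt a).unique (hab ▸ hpt b)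
  let S := (P * Q).roots.toFinset
  have hS : ∀ a, P.IsRoot a ∨ Q.IsRoot a → a ∈ S := fun a ha => by
    simp only [S, Multiset.mem_toFinset, mem_roots (mul_ne_zero hP hQ), root_mul]
    exact ha
  have h1 : ∀ a, (pt a).del x m (aeval x P / aeval x Q) =
      (P.rootMultiplicity a : ℤ) - Q.rootMultiplicity a := fun a => by
    rw [(hpt a).del h.trans hgen m hΦ, (hpt a).ord_div h.trans hP hQ,
      (hpt a).ord_eq_one h.trans hgen, mul_one]
  refine ⟨insert q₀ (S.image pt), fun q hq => ?_, ?_⟩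
  · rcases h.pole_or_at q with hq' | ⟨a, ha⟩
    · exact absurd (Finset.mem_insert.2 (Or.inl (ext_pole hq' hq₀ h.trans hgen))) hq
    · obtain rfl := ha.ext (hpt a) h.trans hgen
      have h2 : a ∉ S := fun h2 =>
        hq (Finset.mem_insert_of_mem (Finset.mem_image_of_mem pt h2))
      rw [h1, rootMultiplicity_eq_zero fun h3 => h2 (hS a (Or.inl h3)),
        rootMultiplicity_eq_zero fun h3 => h2 (hS a (Or.inr h3))]
      simp
  · have h2 : q₀ ∉ S.image pt := by
      intro h2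
      obtain ⟨a, -, rfl⟩ := Finset.mem_image.1 h2
      exact (hpt a).not_pole hq₀
    rw [Finset.sum_insert h2, Finset.sum_image fun a _ b _ hab => hinj hab,
      del_of_pole hq₀ h.trans hgen m hΦ, ord_div_of_pole hq₀ h.trans hP hQ,
      ord_eq_neg_one_of_pole hq₀ h.trans hgen]
    simp only [h1, Finset.sum_sub_distrib]
    have h3 := sum_rootMultiplicity hP S fun a ha => hS a (Or.inl ha)
    have h4 := sum_rootMultiplicity hQ S fun a ha => hS a (Or.inr ha)
    rw [← h3, ← h4]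
    push_cast
    ring

lemma IsCoord.sum_del (h : IsCoord k x) (hgen : k⟮x⟯ = ⊤) (m : ℕ) {Φ : B} (hΦ : Φ ≠ 0)
    (T : Finset (Place k B)) (hT : ∀ q ∉ T, q.del x m Φ = 0) :
    ∑ q ∈ T, q.del x m Φ = -2 * m := by
  classical
  obtain ⟨T', h1, h2⟩ := h.exists_sum_del hgen m hΦ
  rw [← h2, Finset.sum_subset (Finset.subset_union_left (s₂ := T')) fun q _ hq => hT q hq,
    Finset.sum_subset (Finset.subset_union_right (s₁ := T)) fun q _ hq => h1 q hq]

lemma IsCoord.sum_del_le (h : IsCoord k x) (hgen : k⟮x⟯ = ⊤) (m : ℕ) {Φ : B} (hΦ : Φ ≠ 0)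
    (T : Finset (Place k B)) (hT : ∀ q ∉ T, 0 ≤ q.del x m Φ) :
    ∑ q ∈ T, q.del x m Φ ≤ -2 * m := by
  classical
  obtain ⟨T', h1, h2⟩ := h.exists_sum_del hgen m hΦ
  rw [← h2, Finset.sum_subset (Finset.subset_union_right (s₁ := T)) fun q _ hq => h1 q hq]
  exact Finset.sum_le_sum_of_subset_of_nonneg Finset.subset_union_left fun q _ hq => hT q hq

lemma IsCoord.exists_del (h : IsCoord k x) (hgen : k⟮x⟯ = ⊤) (m : ℕ) (T : Finset (Place k B))
    (D : Place k B → ℤ) (hD : ∑ q ∈ T, D q ≤ -2 * m) :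
    ∃ Φ : B, Φ ≠ 0 ∧ (∀ q ∈ T, D q ≤ q.del x m Φ) ∧ ∀ q ∉ T, 0 ≤ q.del x m Φ := by
  classical
  let T' := T.filter fun q => ¬ q.ord x < 0
  have hne : ∀ q ∈ T', q.loc x ^ D q ≠ 0 := fun q _ => zpow_ne_zero _ (loc_ne_zero h.trans)
  have hΦ : ∏ q ∈ T', q.loc x ^ D q ≠ 0 := Finset.prod_ne_zero_iff.2 hne
  have hat : ∀ q ∈ T', ∃ a, q.At x a := fun q hq =>
    (h.pole_or_at q).resolve_left (Finset.mem_filter.1 hq).2
  have h1 : ∀ (q : Place k B) (a : k), q.At x a →
      q.del x m (∏ q ∈ T', q.loc x ^ D q) = if q ∈ T then D q else 0 := by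
    intro q a ha
    rw [ha.del h.trans hgen m hΦ, q.ord_prod _ _ hne]
    have h2 : ∀ q' ∈ T', q.ord (q'.loc x ^ D q') = if q = q' then D q else 0 := by
      intro q' hq'
      obtain ⟨b, hb⟩ := hat q' hq'
      rw [ord_zpow, hb.loc_eq]
      split_ifs with hqq
      · subst hqq; rw [hb.ord_eq_one h.trans hgen, mul_one]
      · have hab : a - b ≠ 0 := fun hab =>
          hqq (ha.ext (by rwa [sub_eq_zero.1 hab]) h.trans hgen)
        have := (ord_eq_zero_of_ge_sub_const (p := q) (y := x - algebraMap k B b) hab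
          (by rw [map_sub, sub_sub_sub_cancel_right]; exact ha)).2
        rw [this, mul_zero]
    rw [Finset.sum_congr rfl h2, Finset.sum_ite_eq]
    simp [T', not_lt.1 ha.not_pole]
  have h2 : ∀ q : Place k B, q.ord x < 0 →
      q.del x m (∏ q ∈ T', q.loc x ^ D q) = - ∑ q ∈ T', D q - 2 * m := by
    intro q hq
    rw [del_of_pole hq h.trans hgen m hΦ, q.ord_prod _ _ hne, ← Finset.sum_neg_distrib]
    congr 1
    refine Finset.sum_congr rfl fun q' hq' => ?_
    obtain ⟨b, hb⟩ := hat q' hq'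
    rw [ord_zpow, hb.loc_eq, ord_sub_const_of_pole hq, ord_eq_neg_one_of_pole hq h.trans hgen]
    ring
  have h3 := Finset.sum_filter_add_sum_filter_not T (fun q => q.ord x < 0) D
  refine ⟨_, hΦ, fun q hq => ?_, fun q hq => ?_⟩
  · rcases h.pole_or_at q with hq' | ⟨a, ha⟩
    · have h4 : T.filter (fun q => q.ord x < 0) = {q} :=
        Finset.eq_singleton_iff_unique_mem.2 ⟨Finset.mem_filter.2 ⟨hq, hq'⟩, fun q' h5 =>
          ext_pole (Finset.mem_filter.1 h5).2 hq' h.trans hgen⟩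
      rw [h4, Finset.sum_singleton] at h3
      rw [h2 q hq']
      simp only [T']
      omega
    · rw [h1 q a ha, if_pos hq]
  · rcases h.pole_or_at q with hq' | ⟨a, ha⟩
    · have h4 : T.filter (fun q => q.ord x < 0) = ∅ :=
        Finset.filter_eq_empty_iff.2 fun q' h5 h6 => hq (ext_pole h6 hq' h.trans hgen ▸ h5)
      rw [h4, Finset.sum_empty] at h3
      rw [h2 q hq']
      simp only [T']
      omega
    · rw [h1 q a ha, if_neg hq]

end Pool.Agent.Lib.MP_e06174_ag
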