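import Pool.Agent.Lib.MP_e06174_ag.Fil

/-! Reduced integral bases (Dedekind-Weber). -/

set_option linter.unusedSectionVars false

open Polynomial IntermediateField Module

namespace Pool.Agent.Lib.MP_e06174_ag

open Place

variable {k F : Type*} [Field k] [Field F] [Algebra k F]

/-- At the poles of `x`, the poles of `y` are bounded by those of `x ^ m`. -/
def Inf (k : Type*) [Field k] [Algebra k F] (x : F) (m : ℤ) (y : F) : Prop :=
  ∀ w : Place k F, w.ord x < 0 → w.Ge (m * w.ord x) y

section

variable {x y z : F} {m n : ℤ}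

lemma Inf.add (hy : Inf k x m y) (hz : Inf k x m z) : Inf k x m (y + z) :=
  fun w hw => (hy w hw).add (hz w hw)

lemma Inf.sub (hy : Inf k x m y) (hz : Inf k x m z) : Inf k x m (y - z) :=
  fun w hw => (hy w hw).sub (hz w hw)

lemma Inf.sum {ι : Type*} {s : Finset ι} {f : ι → F} (h : ∀ i ∈ s, Inf k x m (f i)) :
    Inf k x m (∑ i ∈ s, f i) := fun w hw => Ge.sum fun i hi => h i hi w hw

lemma Inf.mono (hy : Inf k x m y) (h : m ≤ n) : Inf k x n y :=
  fun w hw => (hy w hw).mono (by nlinarith)

lemma Inf.mul (hy : Inf k x m y) (hz : Inf k x n z) : Inf k x (m + n) (y * z) :=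
  fun w hw => (hy w hw).mul' (hz w hw) (by rw [add_mul])

lemma Inf.smul (hy : Inf k x m y) (c : k) : Inf k x m (c • y) :=
  fun w hw => (hy w hw).smul c

lemma inf_zero : Inf k x m 0 := fun _ _ => ge_zero _

lemma inf_aeval {P : k[X]} {n : ℕ} (h : P.natDegree ≤ n) : Inf k x n (aeval x P) :=
  fun _ hw => ge_aeval_of_pole hw h

lemma inf_zpow (n : ℤ) : Inf k x n (x ^ n) := fun _ _ => ge_of_le (by simp)

end

variable [CharZero k] [IsAlgClosed k]

lemma IsCoord.exists_inf {x : F} (h : IsCoord k x) (y : F) : ∃ m : ℕ, Inf k x m y := by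
  obtain ⟨m, -, hm⟩ := exists_big h.finite_pole.toFinset (fun w => - w.ord x) (fun w => w.ord y)
    (fun w hw => by simpa using hw) 0
  refine ⟨m, fun w hw => ge_of_le ?_⟩
  have := hm w (by simpa using hw)
  linarith

lemma IsCoord.eq_zero_of_inf {x y : F} (h : IsCoord k x)
    (hy : ∀ p : Place k F, p.Ge 0 x → p.Ge 0 y) (hy' : Inf k x (-1) y) : y = 0 := by
  obtain ⟨c, rfl⟩ := h.const_of_forall_ge (y := y) fun p => by
    by_cases hp : p.ord x < 0
    · exact (hy' p hp).mono (by omega)
    · exact hy p (ge_of_le (by omega))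
  obtain ⟨w, hw⟩ := h.exists_pole
  rw [eq_zero_of_ge_one_const ((hy' w hw).mono (by omega)), map_zero]

section setting

variable [Algebra k[X] F] [IsScalarTower k k[X] F] [Algebra (RatFunc k) F]
  [IsScalarTower k[X] (RatFunc k) F] [IsScalarTower k (RatFunc k) F]
  [FiniteDimensional (RatFunc k) F]

/-- A generating family of the right size of the integral closure of `k[X]`. -/
structure Good (k : Type*) [Field k] [Algebra k[X] F] {ι : Type*} (b : ι → F) : Prop where
  int : ∀ i, IsIntegral k[X] (b i)
  span : ∀ y, IsIntegral k[X] y → y ∈ Submodule.span k[X] (Set.range b)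

lemma exists_good : ∃ b : Fin (finrank (RatFunc k) F) → F, Good k b := by
  let A := FunctionField.ringOfIntegers k F
  have : FaithfulSMul k[X] F :=
    (faithfulSMul_iff_algebraMap_injective _ _).2 (FunctionField.algebraMap_injective k F)
  have : Module.Finite k[X] A := IsIntegralClosure.finite k[X] (RatFunc k) F A
  have : Module.Free k[X] A := IsIntegralClosure.module_free k[X] (RatFunc k) F A
  let b := Module.finBasisOfFinrankEq k[X] A (IsIntegralClosure.rank k[X] (RatFunc k) F A)
  refine ⟨fun i => b i, fun i => (b i).2, fun y hy => ?_⟩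
  have h1 := congrArg Subtype.val (b.sum_repr ⟨y, hy⟩)
  simp only [AddSubmonoidClass.coe_finsetSum, SetLike.val_smul] at h1
  rw [← h1]
  exact Submodule.sum_mem _ fun i _ => Submodule.smul_mem _ _ (Submodule.subset_span ⟨i, rfl⟩)

lemma Good.top_le {ι : Type*} {b : ι → F} (h : Good k b) :
    ⊤ ≤ Submodule.span (RatFunc k) (Set.range b) := by
  intro y _
  obtain ⟨q, hq, h1⟩ := exists_integral_multiple (k := k) y
  have h2 := Submodule.span_subset_span k[X] (RatFunc k) _ (h.span _ h1)
  have h3 := Submodule.smul_mem _ (algebraMap k[X] (RatFunc k) q)⁻¹ h2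
  rwa [Algebra.smul_def, map_inv₀, ← IsScalarTower.algebraMap_apply, inv_mul_cancel_left₀] at h3
  rw [alg_eq_aeval]
  exact aeval_ne_zero isCoord_setting.trans hq

lemma Good.linearIndependent {b : Fin (finrank (RatFunc k) F) → F} (h : Good k b) :
    LinearIndependent (RatFunc k) b := by
  have := (basisOfTopLeSpanOfCardEqFinrank b h.top_le (by simp)).linearIndependent
  rwa [coe_basisOfTopLeSpanOfCardEqFinrank] at this

lemma exists_reduced : ∃ (b : Fin (finrank (RatFunc k) F) → F)
    (a : Fin (finrank (RatFunc k) F) → ℕ), Good k b ∧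
    (∀ i, Inf k (algebraMap k[X] F X) (a i) (b i)) ∧
    ∀ c : Fin (finrank (RatFunc k) F) → k,
      Inf k (algebraMap k[X] F X) (-1) (∑ i, c i • (b i * algebraMap k[X] F X ^ (-(a i : ℤ)))) →
        c = 0 := by
  classical
  set x := algebraMap k[X] F X with hxdef
  have hx : IsCoord k x := isCoord_setting
  have hx0 := ne_zero_of_transcendental hx.trans
  have hex : ∃ s : ℕ, ∃ (b : Fin (finrank (RatFunc k) F) → F)
      (a : Fin (finrank (RatFunc k) F) → ℕ), Good k b ∧ (∀ i, Inf k x (a i) (b i)) ∧
      ∑ i, a i = s := by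
    obtain ⟨b, hb⟩ := exists_good (k := k) (F := F)
    choose a ha using fun i => hx.exists_inf (b i)
    exact ⟨_, b, a, hb, ha, rfl⟩
  obtain ⟨b, a, hb, ha, hs⟩ := Nat.find_spec hex
  refine ⟨b, a, hb, ha, fun c hc => ?_⟩
  by_contra hc0
  obtain ⟨j, hj, hjmax⟩ := Finset.exists_max_image (Finset.univ.filter fun i => c i ≠ 0) a (by
    by_contra h1
    rw [Finset.not_nonempty_iff_eq_empty, Finset.filter_eq_empty_iff] at h1
    exact hc0 (funext fun i => by simpa using h1 (Finset.mem_univ i)))
  have hcj : c j ≠ 0 := by simpa using hj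
  let P : Fin (finrank (RatFunc k) F) → k[X] := fun i => C (c i) * X ^ (a j - a i)
  let y : F := ∑ i, P i • b i
  have hy : y = x ^ (a j : ℤ) * ∑ i, c i • (b i * x ^ (-(a i : ℤ))) := by
    rw [Finset.mul_sum]
    refine Finset.sum_congr rfl fun i _ => ?_
    by_cases hci : c i = 0
    · simp [P, hci]
    have h1 : a i ≤ a j := hjmax i (by simpa using hci)
    rw [Algebra.smul_def, Algebra.smul_def, alg_eq_aeval, ← hxdef]
    simp only [P, map_mul, aeval_C, map_pow, aeval_X]
    rw [← zpow_natCast, Nat.cast_sub h1, zpow_sub₀ hx0, zpow_neg]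
    field_simp
  have hyinf : Inf k x (a j - 1) y := by
    rw [hy]; exact (inf_zpow _).mul hc
  have hyint : IsIntegral k[X] y := IsIntegral.sum _ fun i _ => (hb.int i).smul _
  have hgood : Good k (Function.update b j y) := by
    refine ⟨fun i => ?_, fun z hz => ?_⟩
    · by_cases hi : i = j
      · subst hi; simpa using hyint
      · rw [Function.update_of_ne hi]; exact hb.int i
    · refine Submodule.span_le.2 ?_ (hb.span z hz)
      have h1 : ∀ i, i ≠ j → b i ∈ Submodule.span k[X] (Set.range (Function.update b j y)) :=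
        fun i hi => Submodule.subset_span ⟨i, Function.update_of_ne hi _ _⟩
      rintro _ ⟨i, rfl⟩
      by_cases hi : i = j
      · subst hi
        have h2 : y ∈ Submodule.span k[X] (Set.range (Function.update b i y)) :=
          Submodule.subset_span ⟨i, Function.update_self _ _ _⟩
        have h3 := Submodule.sub_mem _ h2 (Submodule.sum_mem _
          (t := Finset.univ.erase i) (f := fun l => P l • b l)
          fun l hl => Submodule.smul_mem _ _ (h1 l (Finset.mem_erase.1 hl).1))
        have h4 : y - ∑ l ∈ Finset.univ.erase i, P l • b l = C (c i) • b i := by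
          rw [sub_eq_iff_eq_add]
          simp only [y]
          rw [← Finset.add_sum_erase _ _ (Finset.mem_univ i)]
          simp [P]
        rw [h4] at h3
        have h5 := Submodule.smul_mem _ (C (c i)⁻¹) h3
        rwa [smul_smul, ← C_mul, inv_mul_cancel₀ hcj, C_1, one_smul] at h5
      · exact h1 i hi
  by_cases haj : a j = 0
  · have h1 : y = 0 := hx.eq_zero_of_inf (isIntegral_iff_forall.1 hyint) (by simpa [haj] using hyinf)
    have h2 := hgood.linearIndependent.ne_zero j
    simp [h1] at h2
  · refine Nat.find_min hex (m := ∑ i, Function.update a j (a j - 1) i) ?_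
      ⟨_, _, hgood, fun i => ?_, rfl⟩
    · rw [← hs, ← Finset.add_sum_erase _ _ (Finset.mem_univ j),
        ← Finset.add_sum_erase _ a (Finset.mem_univ j), Function.update_self,
        Finset.sum_congr rfl fun p hp => Function.update_of_ne (Finset.mem_erase.1 hp).1 _ _]
      omega
    · by_cases hi : i = j
      · subst hi
        simp only [Function.update_self]
        exact hyinf.mono (by omega)
      · simp only [Function.update_of_ne hi]; exact ha i

end setting

lemma degree_bound {ι : Type*} [Fintype ι] {x : F} (hx0 : x ≠ 0) {b : ι → F} {a : ι → ℕ}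
    (ha : ∀ i, Inf k x (a i) (b i))
    (hkc : ∀ c : ι → k, Inf k x (-1) (∑ i, c i • (b i * x ^ (-(a i : ℤ)))) → c = 0)
    (f : ι → k[X]) {m : ℤ} (hm : Inf k x m (∑ i, aeval x (f i) * b i)) (i : ι) (hi : f i ≠ 0) :
    ((f i).natDegree + a i : ℤ) ≤ m := by
  classical
  obtain ⟨j, hj, hjmax⟩ := Finset.exists_max_image (Finset.univ.filter fun i => f i ≠ 0)
    (fun i => (f i).natDegree + a i) ⟨i, by simpa using hi⟩
  have hfj : f j ≠ 0 := by simpa using hj
  set M := (f j).natDegree + a j with hM
  have h1 : (f i).natDegree + a i ≤ M := hjmax i (by simpa using hi)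
  by_contra hcon
  let c : ι → k := fun l => if (f l).natDegree + a l = M then (f l).leadingCoeff else 0
  have h2 : ∀ l, Inf k x (M - 1) (aeval x (f l) * b l - x ^ (M : ℤ) *
      (c l • (b l * x ^ (-(a l : ℤ))))) := by
    intro l
    by_cases hl : f l = 0
    · simpa [c, hl] using inf_zero
    have h3 : (f l).natDegree + a l ≤ M := hjmax l (by simpa using hl)
    by_cases h4 : (f l).natDegree + a l = M
    · have h5 : aeval x (f l) * b l - x ^ (M : ℤ) * (c l • (b l * x ^ (-(a l : ℤ)))) =
          aeval x (f l).eraseLead * b l := by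
        have h6 := congrArg (aeval x) (eraseLead_add_C_mul_X_pow (f l))
        simp only [map_add, map_mul, aeval_C, map_pow, aeval_X] at h6
        rw [← h6, ← h4]
        simp only [c, h4, if_true, Algebra.smul_def]
        rw [zpow_neg, zpow_natCast, zpow_natCast, ← h4, pow_add]
        field_simp
        ring
      rw [h5]
      rcases eraseLead_natDegree_lt_or_eraseLead_eq_zero (f l) with h6 | h6
      · exact ((inf_aeval le_rfl).mul (ha l)).mono (by omega)
      · simpa [h6] using inf_zero
    · simp only [c, h4, if_false, zero_smul, mul_zero, sub_zero]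
      exact ((inf_aeval le_rfl).mul (ha l)).mono (by omega)
  have h3 := (hm.mono (n := M - 1) (by omega)).sub (Inf.sum (s := Finset.univ) fun l _ => h2 l)
  rw [Finset.sum_sub_distrib, sub_sub_cancel, ← Finset.mul_sum] at h3
  have h4 := (inf_zpow (-(M : ℤ))).mul h3
  rw [← mul_assoc, ← zpow_add₀ hx0, neg_add_cancel, zpow_zero, one_mul] at h4
  have h5 := congrFun (hkc c (h4.mono (by omega))) j
  simp only [c, ← hM, if_true, Pi.zero_apply, leadingCoeff_eq_zero] at h5
  exact hfj h5

end Pool.Agent.Lib.MP_e06174_ag
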