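import Mathlib

/-! Topological and analytic parts of the weak Riemann existence theorem. -/

open Set Filter Topology MulAction

namespace Pool.Agent.Lib.MP_e06174_ag

namespace Ret

/-- The plane with the real points outside `I` removed. -/
def slit (I : Set ℝ) : Set ℂ := {z | z.im ≠ 0 ∨ z.re ∈ I}

lemma isOpen_slit {I : Set ℝ} (hI : IsOpen I) : IsOpen (slit I) :=
  (isOpen_ne_fun Complex.continuous_im continuous_const).union (hI.preimage Complex.continuous_re)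

lemma starConvex_slit {I : Set ℝ} (hI : Convex ℝ I) {c : ℝ} (hc : c ∈ I) :
    StarConvex ℝ (c : ℂ) (slit I) := by
  intro z hz a b ha hb hab
  by_cases h1 : b * z.im = 0
  · right
    have h2 : (a • (c : ℂ) + b • z).re = a • c + b • z.re := by simp
    rw [h2]
    rcases mul_eq_zero.1 h1 with h3 | h3
    · have : a = 1 := by linarith
      simpa [h3, this] using hc
    · exact hI hc (hz.resolve_left fun h => h h3) ha hb hab
  · left
    simpa using h1

variable {W : Type*} [TopologicalSpace W] {π : W → ℂ} {S : Set ℂ}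

lemma exists_section (cov : IsCoveringMapOn π S) {A : Set ℂ} (hA : IsOpen A) {c : ℂ}
    (hst : StarConvex ℝ c A) (hAS : A ⊆ S) {w₀ : W} (hw : π w₀ ∈ A) :
    ∃ s : ℂ → W, ContinuousOn s A ∧ s (π w₀) = w₀ ∧ ∀ z ∈ A, π (s z) = z := by
  classical
  have := hst.contractibleSpace ⟨_, hw⟩
  have := hA.locallyPathConnectedSpace
  obtain ⟨f, ⟨h1, h2⟩, -⟩ := cov.existsUnique_continuousMap_lifts (A := A)
    ⟨Subtype.val, continuous_subtype_val⟩ (a₀ := ⟨π w₀, hw⟩) (e₀ := w₀) rfl fun a => hAS a.2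
  refine ⟨fun z => if hz : z ∈ A then f ⟨z, hz⟩ else w₀, ?_, by simp [hw, h1], fun z hz => ?_⟩
  · rw [continuousOn_iff_continuous_domRestrict]
    convert f.continuous using 1
    ext z
    simp
  · simpa [hz] using congrFun h2 ⟨z, hz⟩

lemma section_unique (cov : IsCoveringMapOn π S) {A : Set ℂ} (hA : IsOpen A) (hst : Convex ℝ A)
    (hAS : A ⊆ S) {s s' : ℂ → W} (hs : ContinuousOn s A) (hs' : ContinuousOn s' A)
    (h : ∀ z ∈ A, π (s z) = z) (h' : ∀ z ∈ A, π (s' z) = z) {c : ℂ} (hc : c ∈ A)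
    (he : s c = s' c) : EqOn s s' A := by
  have := hst.contractibleSpace ⟨_, hc⟩
  have := hA.locallyPathConnectedSpace
  have h1 := (cov.existsUnique_continuousMap_lifts (A := A)
    ⟨Subtype.val, continuous_subtype_val⟩ (a₀ := ⟨c, hc⟩) (e₀ := s c) (h c hc)
    fun a => hAS a.2).unique (y₁ := ⟨A.domRestrict s, hs.domRestrict⟩) (y₂ := ⟨A.domRestrict s', hs'.domRestrict⟩)
    ⟨rfl, funext fun a => h a a.2⟩ ⟨he.symm, funext fun a => h' a a.2⟩
  intro z hz
  exact congrFun (congrArg DFunLike.coe h1) ⟨z, hz⟩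

lemma eventually_mem (hcl : IsClosedMap π) {a : ℂ} {O : Set W} (hO : IsOpen O)
    (h : π ⁻¹' {a} ⊆ O) : ∀ᶠ z in 𝓝 a, ∀ w, π w = z → w ∈ O := by
  have h1 : (π '' Oᶜ)ᶜ ∈ 𝓝 a := (hcl _ hO.isClosed_compl).isOpen_compl.mem_nhds (by
    rintro ⟨w, hw, h2⟩
    exact hw (h h2))
  filter_upwards [h1] with z hz w hw
  by_contra h2
  exact hz ⟨w, h2, hw⟩

lemma exists_limit [T2Space W] (hcl : IsClosedMap π) {a : ℂ} (hfin : (π ⁻¹' {a}).Finite)
    {A : Set ℂ} (hA : ∀ r > 0, IsConnected (A ∩ Metric.ball a r)) {s : ℂ → W}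
    (hs : ContinuousOn s A) (h : ∀ z ∈ A, π (s z) = z) :
    ∃ p, π p = a ∧ Tendsto s (𝓝[A] a) (𝓝 p) := by
  obtain ⟨V, hV, hd⟩ := hfin.t2_separation
  have h1 := eventually_mem hcl (a := a) (O := ⋃ x ∈ π ⁻¹' {a}, V x)
    (isOpen_biUnion fun x _ => (hV x).2) fun x hx => mem_biUnion hx (hV x).1
  obtain ⟨r, hr, h2⟩ := Metric.eventually_nhds_iff_ball.1 h1
  obtain ⟨c, hc⟩ := (hA r hr).nonempty
  obtain ⟨p, hp, hcp⟩ := mem_iUnion₂.1 (h2 c hc.2 _ (h c hc.1))
  have hR : IsOpen (⋃ x ∈ π ⁻¹' {a} \ {p}, V x) := isOpen_biUnion fun x _ => (hV x).2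
  have hdis : Disjoint (V p) (⋃ x ∈ π ⁻¹' {a} \ {p}, V x) :=
    disjoint_iUnion₂_right.2 fun x hx => hd hp hx.1 fun h3 => hx.2 h3.symm
  have h3 : s '' (A ∩ Metric.ball a r) ⊆ V p := by
    refine (((hA r hr).isPreconnected.image s (hs.mono inter_subset_left)).subset_left_of_subset_union
      (hV p).2 hR hdis ?_ ⟨_, mem_image_of_mem s hc, hcp⟩)
    rintro _ ⟨z, hz, rfl⟩
    obtain ⟨x, hx, hx'⟩ := mem_iUnion₂.1 (h2 z hz.2 _ (h z hz.1))
    by_cases hxp : x = p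
    · exact Or.inl (hxp ▸ hx')
    · exact Or.inr (mem_biUnion (x := x) ⟨hx, hxp⟩ hx')
  refine ⟨p, hp, tendsto_nhds.2 fun N hN hpN => ?_⟩
  have h4 := eventually_mem hcl (a := a) (hN.union hR) fun x hx => by
    by_cases hxp : x = p
    · exact Or.inl (hxp ▸ hpN)
    · exact Or.inr (mem_biUnion (x := x) ⟨hx, hxp⟩ (hV x).1)
  filter_upwards [self_mem_nhdsWithin, mem_nhdsWithin_of_mem_nhds h4,
    mem_nhdsWithin_of_mem_nhds (Metric.ball_mem_nhds a hr)] with z hz h5 h6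
  exact (h5 _ (h z hz)).resolve_right fun h7 =>
    disjoint_left.1 hdis (h3 (mem_image_of_mem s ⟨hz, h6⟩)) h7

lemma isConnected_slit {I : Set ℝ} (hI : Convex ℝ I) {a : ℝ} (ha : a ∈ closure I) (r : ℝ)
    (hr : 0 < r) : IsConnected (slit I ∩ Metric.ball (a : ℂ) r) := by
  obtain ⟨c, hc, h1⟩ := Metric.mem_closure_iff.1 ha r hr
  have h2 : (c : ℂ) ∈ Metric.ball (a : ℂ) r := by
    rw [Metric.mem_ball, dist_comm]
    simpa [Complex.dist_eq, Real.dist_eq, ← Complex.ofReal_sub] using h1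
  exact (((starConvex_slit hI hc).inter ((convex_ball _ _).starConvex h2)).isPathConnected
    ⟨Or.inr (by simpa using hc), h2⟩).isConnected

variable {G : Type*} [Group G] [MulAction G W]

lemma isCoveringMapOn [T2Space W] [Finite G] [ContinuousConstSMul G W] (hc : Continuous π)
    (hcl : IsClosedMap π) (hs : Function.Surjective π)
    (horb : ∀ {e₁ e₂}, π e₁ = π e₂ ↔ e₁ ∈ orbit G e₂) :
    IsCoveringMapOn π (π '' {e | stabilizer G e = ⊥}) := by
  refine (hcl.isQuotientMap hc hs).isCoveringMapOn_of_smul_disjoint horb fun e => ?_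
  have h1 : ∀ g : G, ∃ U ∈ 𝓝 e, ((g • ·) '' U ∩ U).Nonempty → g • e = e := by
    intro g
    by_cases hg : g • e = e
    · exact ⟨univ, univ_mem, fun _ => hg⟩
    · obtain ⟨u, v, hu, hv, h1, h2, h3⟩ := t2_separation hg
      refine ⟨(g • ·) ⁻¹' u ∩ v, inter_mem ((hu.preimage (continuous_const_smul g)).mem_nhds h1)
        (hv.mem_nhds h2), ?_⟩
      rintro ⟨_, ⟨y, hy, rfl⟩, h4⟩
      exact (disjoint_left.1 h3 hy.1 h4.2).elim
  choose U hU hU' using h1
  refine ⟨⋂ g, U g, iInter_mem.2 hU, fun g hg => hU' g (hg.mono ?_)⟩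
  exact inter_subset_inter (image_mono (iInter_subset _ g)) (iInter_subset _ g)

/-- Two sections on neighbouring slit planes differ by an element of an inertia group. -/
lemma glue [T2Space W] [Finite G] [ContinuousConstSMul G W] (hcl : IsClosedMap π)
    (horb : ∀ {e₁ e₂}, π e₁ = π e₂ ↔ e₁ ∈ orbit G e₂) (cov : IsCoveringMapOn π S)
    (hS : ∀ z : ℂ, z.im ≠ 0 → z ∈ S) {I J : Set ℝ} (hJ : Convex ℝ J) {a : ℝ}
    (ha : a ∈ closure J) {s s' : ℂ → W} (hs : ContinuousOn s (slit I))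
    (hs' : ContinuousOn s' (slit J)) (h : ∀ z ∈ slit I, π (s z) = z)
    (h' : ∀ z ∈ slit J, π (s' z) = z) (he : s Complex.I = s' Complex.I) {p : W}
    (hp : Tendsto s (𝓝[slit I] a) (𝓝 p)) (hpa : π p = a) :
    ∀ z : ℂ, z.im ≠ 0 → ∃ g ∈ stabilizer G p, s z = g • s' z := by
  have hu : ∀ K, {z : ℂ | 0 < z.im} ⊆ slit K := fun K z hz => Or.inl (ne_of_gt hz)
  have hl : ∀ K, {z : ℂ | z.im < 0} ⊆ slit K := fun K z hz => Or.inl (ne_of_lt hz)
  have h1 : EqOn s s' {z : ℂ | 0 < z.im} :=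
    section_unique cov (isOpen_lt continuous_const Complex.continuous_im) (convex_halfSpace_im_gt 0)
      (fun z hz => hS z (ne_of_gt hz)) (hs.mono (hu _)) (hs'.mono (hu _))
      (fun z hz => h z (hu _ hz)) (fun z hz => h' z (hu _ hz)) (c := Complex.I) (by simp) he
  have hm : -Complex.I ∈ {z : ℂ | z.im < 0} := by simp
  obtain ⟨g, hg⟩ := horb.1 ((h _ (hl _ hm)).trans (h' _ (hl _ hm)).symm)
  have h2 : EqOn s (fun z => g • s' z) {z : ℂ | z.im < 0} :=
    section_unique cov (isOpen_lt Complex.continuous_im continuous_const) (convex_halfSpace_im_lt 0)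
      (fun z hz => hS z (ne_of_lt hz)) (hs.mono (hl _)) ((hs'.mono (hl _)).const_smul g)
      (fun z hz => h z (hl _ hz))
      (fun z hz => (horb.2 ⟨g, rfl⟩).trans (h' z (hl _ hz))) hm hg.symm
  have hfin : (π ⁻¹' {(a : ℂ)}).Finite :=
    (finite_range fun g : G => g • p).subset fun w hw => horb.1 (hw.trans hpa.symm)
  obtain ⟨p', -, hp'⟩ := exists_limit hcl hfin (isConnected_slit hJ ha) hs' h'
  have n1 : (𝓝[{z : ℂ | 0 < z.im}] (a : ℂ)).NeBot :=
    mem_closure_iff_nhdsWithin_neBot.1 (by rw [Complex.closure_setOfPred_lt_im]; simp)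
  have n2 : (𝓝[{z : ℂ | z.im < 0}] (a : ℂ)).NeBot :=
    mem_closure_iff_nhdsWithin_neBot.1 (by rw [Complex.closure_setOfPred_im_lt]; simp)
  have h3 : p = p' := tendsto_nhds_unique_of_eventuallyEq (hp.mono_left (nhdsWithin_mono _ (hu _)))
    (hp'.mono_left (nhdsWithin_mono _ (hu _))) (eventuallyEq_nhdsWithin_of_eqOn h1)
  have h4 : p = g • p' := tendsto_nhds_unique_of_eventuallyEq
    (hp.mono_left (nhdsWithin_mono _ (hl _)))
    ((hp'.mono_left (nhdsWithin_mono _ (hl _))).const_smul g) (eventuallyEq_nhdsWithin_of_eqOn h2)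
  intro z hz
  rcases lt_or_gt_of_ne hz with h5 | h5
  · exact ⟨g, by rw [mem_stabilizer_iff, h3, ← h4, h3], h2 h5⟩
  · exact ⟨1, one_mem _, by rw [one_smul]; exact h1 h5⟩

theorem top_core [T2Space W] [Finite G] [ContinuousConstSMul G W] (hc : Continuous π)
    (hcl : IsClosedMap π) (hs : Function.Surjective π)
    (horb : ∀ {e₁ e₂}, π e₁ = π e₂ ↔ e₁ ∈ orbit G e₂)
    (hfree : ∀ e, π e ≠ 0 → π e ≠ 1 → stabilizer G e = ⊥) :
    ∃ (p q : W) (t : ℂ → W), π p = 0 ∧ π q = 1 ∧ ∀ c : ℂ, c ≠ 0 → c ≠ 1 → π (t c) = c ∧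
      ∃ s : ℂ → W, ContinuousAt s c ∧
        ∀ᶠ z in 𝓝 c, ∃ g ∈ stabilizer G p ⊔ stabilizer G q, t z = g • s z := by
  classical
  have cov : IsCoveringMapOn π {z | z ≠ 0 ∧ z ≠ 1} :=
    (isCoveringMapOn hc hcl hs horb).mono fun z hz => by
      obtain ⟨e, rfl⟩ := hs z
      exact ⟨e, hfree e hz.1 hz.2, rfl⟩
  have hS : ∀ z : ℂ, z.im ≠ 0 → z ∈ {z : ℂ | z ≠ 0 ∧ z ≠ 1} := fun z hz =>
    ⟨by rintro rfl; simp at hz, by rintro rfl; simp at hz⟩
  obtain ⟨w₀, hw⟩ := hs Complex.I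
  have key : ∀ I : Set ℝ, IsOpen I → Convex ℝ I → I.Nonempty → 0 ∉ I → 1 ∉ I →
      ∃ s : ℂ → W, ContinuousOn s (slit I) ∧ s Complex.I = w₀ ∧ ∀ z ∈ slit I, π (s z) = z := by
    intro I h1 h2 ⟨c, h3⟩ h4 h5
    rw [← hw]
    refine exists_section cov (isOpen_slit h1) (starConvex_slit h2 h3) (fun z hz => ?_)
      (Or.inl (by simp [hw]))
    rcases hz with hz | hz
    · exact hS z hz
    · exact ⟨by rintro rfl; exact h4 hz, by rintro rfl; exact h5 hz⟩
  obtain ⟨s, s1, s2, s3⟩ := key (Ioo 0 1) isOpen_Ioo (convex_Ioo _ _) ⟨1 / 2, by norm_num⟩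
    (by simp) (by simp)
  obtain ⟨u, u1, u2, u3⟩ := key (Iio 0) isOpen_Iio (convex_Iio _) ⟨-1, by norm_num⟩
    (by simp) (by simp)
  obtain ⟨v, v1, v2, v3⟩ := key (Ioi 1) isOpen_Ioi (convex_Ioi _) ⟨2, by norm_num⟩
    (by simp) (by simp)
  have hfin : ∀ a : ℂ, (π ⁻¹' {a}).Finite := fun a => by
    obtain ⟨p, rfl⟩ := hs a
    exact (finite_range fun g : G => g • p).subset fun w hw => horb.1 hw
  obtain ⟨p, hp, hp'⟩ := exists_limit hcl (hfin _)
    (isConnected_slit (convex_Ioo (0 : ℝ) 1) (a := 0) (by simp)) s1 s3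
  obtain ⟨q, hq, hq'⟩ := exists_limit hcl (hfin _)
    (isConnected_slit (convex_Ioo (0 : ℝ) 1) (a := 1) (by simp)) s1 s3
  have g0 := glue hcl horb cov hS (convex_Iio (0 : ℝ)) (a := 0) (by simp) s1 u1 s3 u3
    (s2.trans u2.symm) hp' hp
  have g1 := glue hcl horb cov hS (convex_Ioi (1 : ℝ)) (a := 1) (by simp) s1 v1 s3 v3
    (s2.trans v2.symm) hq' hq
  let t : ℂ → W := fun z => if z ∈ slit (Ioo 0 1) then s z else if z.re < 0 then u z else v z
  have hcov : ∀ c : ℂ, c ≠ 0 → c ≠ 1 →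
      c ∈ slit (Ioo 0 1) ∨ c.re < 0 ∨ 1 < c.re := fun c h0 h1 => by
    by_cases h2 : c.im = 0
    · have h3 : c.re ≠ 0 := fun h => h0 (Complex.ext h h2)
      have h4 : c.re ≠ 1 := fun h => h1 (Complex.ext h h2)
      rcases lt_or_gt_of_ne h3 with h5 | h5
      · exact Or.inr (Or.inl h5)
      rcases lt_or_gt_of_ne h4 with h6 | h6
      · exact Or.inl (Or.inr ⟨h5, h6⟩)
      · exact Or.inr (Or.inr h6)
    · exact Or.inl (Or.inl h2)
  refine ⟨p, q, t, by simpa using hp, by simpa using hq, fun c h0 h1 => ⟨?_, ?_⟩⟩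
  · simp only [t]
    split_ifs with h2 h3
    · exact s3 c h2
    · exact u3 c (Or.inr h3)
    · exact v3 c (Or.inr (((hcov c h0 h1).resolve_left h2).resolve_left h3))
  rcases hcov c h0 h1 with h2 | h2 | h2
  · have h3 := (isOpen_slit isOpen_Ioo).mem_nhds h2
    refine ⟨s, s1.continuousAt h3, ?_⟩
    filter_upwards [h3] with z hz
    exact ⟨1, one_mem _, by simp [t, hz]⟩
  · refine ⟨u, u1.continuousAt ((isOpen_slit isOpen_Iio).mem_nhds (Or.inr h2)), ?_⟩
    filter_upwards [(isOpen_lt Complex.continuous_re continuous_const).mem_nhds h2] with z hz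
    have hz' : z.re < 0 := hz
    by_cases h3 : z ∈ slit (Ioo 0 1)
    · obtain ⟨g, hg, h4⟩ := g0 z (h3.resolve_right fun h4 => by linarith [h4.1])
      exact ⟨g, Subgroup.mem_sup_left hg, by simp [t, h3, h4]⟩
    · exact ⟨1, one_mem _, by simp [t, h3, hz']⟩
  · refine ⟨v, v1.continuousAt ((isOpen_slit isOpen_Ioi).mem_nhds (Or.inr h2)), ?_⟩
    filter_upwards [(isOpen_lt continuous_const Complex.continuous_re).mem_nhds h2] with z hz
    have hz' : 1 < z.re := hz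
    by_cases h3 : z ∈ slit (Ioo 0 1)
    · obtain ⟨g, hg, h4⟩ := g1 z (h3.resolve_right fun h4 => by linarith [h4.2])
      exact ⟨g, Subgroup.mem_sup_right hg, by simp [t, h3, h4]⟩
    · exact ⟨1, one_mem _, by simp [t, h3, show ¬ z.re < 0 by linarith]⟩

/-- An entire function of polynomial growth is a polynomial. -/
theorem exists_poly (N : ℕ) {f : ℂ → ℂ} (hf : Differentiable ℂ f) {C : ℝ}
    (hC : ∀ z, ‖f z‖ ≤ C * (1 + ‖z‖) ^ N) : ∃ Q : Polynomial ℂ, ∀ z, f z = Q.eval z := by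
  induction N generalizing f C with
  | zero =>
    obtain ⟨c, hc⟩ := hf.exists_const_forall_eq_of_bounded
      (isBounded_iff_forall_norm_le.2 ⟨C, by rintro _ ⟨z, rfl⟩; simpa using hC z⟩)
    exact ⟨Polynomial.C c, fun z => by simp [hc z]⟩
  | succ N ih =>
    have h1 : Differentiable ℂ (dslope f 0) := differentiableOn_univ.1
      ((Complex.differentiableOn_dslope univ_mem).2 hf.differentiableOn)
    obtain ⟨D, hD⟩ := (isCompact_closedBall (0 : ℂ) 1).exists_bound_of_continuousOn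
      h1.continuous.continuousOn
    have hC0 : 0 ≤ C := by simpa using (norm_nonneg _).trans (hC 0)
    have hD0 : 0 ≤ D := (norm_nonneg _).trans (hD 0 (by simp))
    obtain ⟨Q, hQ⟩ := ih h1 (C := D + 3 * C) fun z => by
      have h2 : 1 ≤ (1 + ‖z‖) ^ N := one_le_pow₀ (by simp)
      by_cases hz : ‖z‖ ≤ 1
      · have := hD z (by simpa using hz)
        nlinarith
      · push Not at hz
        have h0 : z ≠ 0 := by rintro rfl; norm_num at hz
        rw [dslope_of_ne _ h0, slope_def_field, sub_zero, norm_div, div_le_iff₀ (by linarith)]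
        have h3 := norm_sub_le (f z) (f 0)
        have h4 := hC z
        have h5 : ‖f 0‖ ≤ C := by simpa using hC 0
        rw [pow_succ] at h4
        have h6 : C * ((1 + ‖z‖) ^ N * (1 + ‖z‖)) ≤ C * ((1 + ‖z‖) ^ N * (2 * ‖z‖)) := by
          gcongr; linarith
        have h7 : 1 ≤ (1 + ‖z‖) ^ N * ‖z‖ := one_le_mul_of_one_le_of_one_le h2 hz.le
        nlinarith
    refine ⟨Polynomial.X * Q + Polynomial.C (f 0), fun z => ?_⟩
    have := sub_smul_dslope f 0 z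
    rw [hQ] at this
    simp only [sub_zero, smul_eq_mul] at this
    simp [this]

theorem exists_poly' {f : ℂ → ℂ} (hf : ∀ c, c ≠ 0 → c ≠ 1 → DifferentiableAt ℂ f c) {C : ℝ} {N : ℕ}
    (hC : ∀ z, z ≠ 0 → z ≠ 1 → ‖f z‖ ≤ C * (1 + ‖z‖) ^ N) :
    ∃ Q : Polynomial ℂ, ∀ z, z * (z - 1) * f z = Q.eval z := by
  have hC0 : 0 ≤ C := by
    have h1 := (norm_nonneg _).trans (hC 2 two_ne_zero (by norm_num))
    exact nonneg_of_mul_nonneg_left h1 (by positivity)
  have h1 : ∀ z, ‖z * (z - 1) * f z‖ ≤ ‖z * (z - 1)‖ * (C * (1 + ‖z‖) ^ N) := fun z => by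
    by_cases h0 : z = 0
    · simp [h0]
    by_cases h1 : z = 1
    · simp [h1]
    rw [norm_mul]
    exact mul_le_mul_of_nonneg_left (hC z h0 h1) (norm_nonneg _)
  have h2 : ∀ c : ℂ, c * (c - 1) = 0 → ContinuousAt (fun z => z * (z - 1) * f z) c := by
    intro c hc
    rw [ContinuousAt, hc, zero_mul]
    refine squeeze_zero_norm h1 ?_
    have : Continuous fun z : ℂ => ‖z * (z - 1)‖ * (C * (1 + ‖z‖) ^ N) := by fun_prop
    simpa [hc] using this.tendsto c
  have h3 : ∀ c : ℂ, c ≠ 0 → c ≠ 1 → DifferentiableAt ℂ (fun z => z * (z - 1) * f z) c :=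
    fun c h0 h1 => (by fun_prop : DifferentiableAt ℂ (fun z : ℂ => z * (z - 1)) c).mul (hf c h0 h1)
  refine exists_poly (N + 2) (fun c => ?_) (C := C) fun z => (h1 z).trans ?_
  · by_cases hc : c * (c - 1) = 0
    · refine (Complex.analyticAt_of_differentiable_on_punctured_nhds_of_continuousAt ?_
        (h2 c hc)).differentiableAt
      have h4 : ∀ a : ℂ, ∀ᶠ z in 𝓝[≠] c, z ≠ a := fun a => by
        by_cases h5 : a = c
        · subst h5; exact self_mem_nhdsWithin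
        · exact mem_nhdsWithin_of_mem_nhds (isOpen_ne.mem_nhds (Ne.symm h5))
      filter_upwards [h4 0, h4 1] with z h5 h6 using h3 z h5 h6
    · exact h3 c (fun h => hc (by simp [h])) fun h => hc (by simp [h])
  · have h4 : ‖z * (z - 1)‖ ≤ (1 + ‖z‖) ^ 2 := by
      rw [norm_mul, sq]
      have := norm_sub_le z 1
      rw [norm_one] at this
      exact mul_le_mul (by linarith) (by linarith) (norm_nonneg _) (by positivity)
    calc _ ≤ (1 + ‖z‖) ^ 2 * (C * (1 + ‖z‖) ^ N) := by gcongr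
      _ = _ := by ring

lemma poly_bound (Q : Polynomial ℂ) :
    ∃ (C : ℝ) (N : ℕ), 0 ≤ C ∧ ∀ z : ℂ, ‖Q.eval z‖ ≤ C * (1 + ‖z‖) ^ N := by
  refine ⟨∑ i ∈ Finset.range (Q.natDegree + 1), ‖Q.coeff i‖, Q.natDegree,
    Finset.sum_nonneg fun _ _ => norm_nonneg _, fun z => ?_⟩
  rw [Polynomial.eval_eq_sum_range, Finset.sum_mul]
  refine (norm_sum_le _ _).trans (Finset.sum_le_sum fun i hi => ?_)
  rw [norm_mul, norm_pow]
  refine mul_le_mul_of_nonneg_left ?_ (norm_nonneg _)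
  calc ‖z‖ ^ i ≤ (1 + ‖z‖) ^ i := by gcongr; linarith
    _ ≤ _ := pow_le_pow_right₀ (by simp) (by simpa [Nat.lt_succ_iff] using hi)

lemma root_bound {n : ℕ} {c : ℕ → ℂ} {T : ℂ} (h : T ^ n + ∑ j ∈ Finset.range n, c j * T ^ j = 0) :
    ‖T‖ ≤ 1 + ∑ j ∈ Finset.range n, ‖c j‖ := by
  have h0 : 0 ≤ ∑ j ∈ Finset.range n, ‖c j‖ := Finset.sum_nonneg fun _ _ => norm_nonneg _
  by_contra h1
  push Not at h1
  rcases n with _ | n
  · simp at h
  have h2 : ‖T‖ ^ (n + 1) ≤ (∑ j ∈ Finset.range (n + 1), ‖c j‖) * ‖T‖ ^ n := by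
    rw [← norm_pow, eq_neg_of_add_eq_zero_left h, norm_neg, Finset.sum_mul]
    refine (norm_sum_le _ _).trans (Finset.sum_le_sum fun i hi => ?_)
    rw [norm_mul, norm_pow]
    exact mul_le_mul_of_nonneg_left
      (pow_le_pow_right₀ (by linarith) (by simpa [Nat.lt_succ_iff] using hi)) (norm_nonneg _)
  rw [pow_succ'] at h2
  have := le_of_mul_le_mul_right h2 (pow_pos (by linarith) n)
  linarith

lemma roots_bound (n : ℕ) (c : ℕ → Polynomial ℂ) : ∃ (C : ℝ) (N : ℕ), ∀ z T : ℂ,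
    T ^ n + ∑ j ∈ Finset.range n, (c j).eval z * T ^ j = 0 → ‖T‖ ≤ C * (1 + ‖z‖) ^ N := by
  choose C N h0 h using fun j => poly_bound (c j)
  refine ⟨1 + ∑ j ∈ Finset.range n, C j, ∑ j ∈ Finset.range n, N j, fun z T hT => ?_⟩
  refine (root_bound hT).trans ?_
  rw [add_mul, Finset.sum_mul, one_mul]
  refine add_le_add (one_le_pow₀ (by simp)) (Finset.sum_le_sum fun i hi => (h i z).trans ?_)
  exact mul_le_mul_of_nonneg_left (pow_le_pow_right₀ (by simp)
    (Finset.single_le_sum (fun _ _ => Nat.zero_le _) hi)) (h0 i)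

end Ret

end Pool.Agent.Lib.MP_e06174_ag
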