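import Pool.Agent.Lib.MP_e06174_ag.Char
import Pool.Agent.Lib.MP_e06174_ag.RetTop

/-! A weak Riemann existence theorem: a Galois cover of the line unramified outside `0, 1, ∞` is
generated by one inertia group over `0` and one over `1`. -/

set_option linter.unusedSectionVars false

open Polynomial IntermediateField MulAction Filter Topology

namespace Pool.Agent.Lib.MP_e06174_ag

open Place

namespace Ret

section general

variable {F : Type} [Field F] [Algebra ℂ F]

/-- Functions regular at all places where `x` is regular. -/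
def Reg (x : F) : Subalgebra ℂ F where
  carrier := {y | ∀ p : Place ℂ F, p.Ge 0 x → p.Ge 0 y}
  mul_mem' := fun hy hz p hp => (hy p hp).mul' (hz p hp) (by simp)
  add_mem' := fun hy hz p hp => (hy p hp).add (hz p hp)
  algebraMap_mem' := fun c p _ => ge_const c

lemma self_mem_reg (x : F) : x ∈ Reg x := fun _ hp => hp

lemma aeval_mem_reg (x : F) (P : ℂ[X]) : aeval x P ∈ Reg x := fun _ hp => hp.aeval P

/-- The places where `x` is regular. -/
def FP (x : F) : Type := {p : Place ℂ F // p.Ge 0 x}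

noncomputable instance (x : F) : TopologicalSpace (FP x) :=
  TopologicalSpace.induced (fun w (b : Reg x) => w.1.cen (b : F)) inferInstance

variable {x : F}

/-- Evaluation at a finite place. -/
noncomputable def evh (h : IsCoord ℂ x) (w : FP x) : Reg x →ₐ[ℂ] ℂ where
  toFun b := w.1.cen (b : F)
  map_one' := by simpa using (w.1.at_const 1).cen_eq
  map_zero' := by simpa using (w.1.at_const 0).cen_eq
  map_mul' y z := ((h.at_cen (y.2 _ w.2)).mul (h.at_cen (z.2 _ w.2))).cen_eq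
  map_add' y z := ((h.at_cen (y.2 _ w.2)).add (h.at_cen (z.2 _ w.2))).cen_eq
  commutes' c := (w.1.at_const c).cen_eq

lemma evh_apply (h : IsCoord ℂ x) (w : FP x) (b : Reg x) : evh h w b = w.1.cen (b : F) := rfl

lemma at_evh (h : IsCoord ℂ x) (w : FP x) (b : Reg x) : w.1.At (b : F) (evh h w b) :=
  h.at_cen (b.2 _ w.2)

lemma continuous_evh (h : IsCoord ℂ x) (b : Reg x) : Continuous fun w => evh h w b :=
  (continuous_apply b).comp continuous_induced_dom

lemma tendsto_iff (h : IsCoord ℂ x) {α : Type*} {l : Filter α} {f : α → FP x} {w : FP x} :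
    Tendsto f l (𝓝 w) ↔ ∀ b, Tendsto (fun a => evh h (f a) b) l (𝓝 (evh h w b)) := by
  rw [nhds_induced, tendsto_comap_iff, tendsto_pi_nhds]
  rfl

/-- The value of the coordinate. -/
noncomputable def pr (w : FP x) : ℂ := w.1.cen x

lemma at_pr (h : IsCoord ℂ x) (w : FP x) : w.1.At x (pr w) := h.at_cen w.2

lemma continuous_pr (h : IsCoord ℂ x) : Continuous (pr : FP x → ℂ) :=
  continuous_evh h ⟨x, self_mem_reg x⟩

lemma pr_surjective (h : IsCoord ℂ x) : Function.Surjective (pr : FP x → ℂ) := fun a => by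
  obtain ⟨p, hp⟩ := h.exists_at a
  exact ⟨⟨p, hp.ge_zero⟩, hp.cen_eq⟩

lemma evh_aeval (h : IsCoord ℂ x) (w : FP x) (P : ℂ[X]) :
    evh h w ⟨aeval x P, aeval_mem_reg x P⟩ = P.eval (pr w) := ((at_pr h w).aeval P).cen_eq

lemma ord_sub_eq_zero (h : IsCoord ℂ x) (w : FP x) {a : ℂ} (ha : pr w ≠ a) :
    w.1.ord (x - algebraMap ℂ F a) = 0 := by
  have := ((at_pr h w).add (w.1.at_const (-a))).ord_eq_zero (sub_ne_zero.2 ha)
  rw [map_neg, ← sub_eq_add_neg] at this
  exact this.2

lemma exists_bump (h : IsCoord ℂ x) (w : FP x) :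
    ∃ e : Reg x, evh h w e ≠ 0 ∧ ∀ w' : FP x, w' ≠ w → pr w' = pr w → evh h w' e = 0 := by
  obtain ⟨u, hu0, hu, hu'⟩ := approx w.1 (h.finite_at (pr w)).toFinset 0 1
  obtain ⟨q, hq, hq'⟩ := h.exists_multiple u
  obtain ⟨r, hr, hr'⟩ := exists_eq_pow_rootMultiplicity_mul_and_not_dvd q hq (pr w)
  have h1 : r.eval (pr w) ≠ 0 := fun h => hr' (dvd_iff_isRoot.2 h)
  have h2 : ∀ w' : FP x, w' ≠ w → pr w' = pr w → w'.1.Ge 1 u := fun w' h3 h4 =>
    ge_of_le (hu' _ (by simpa [← h4] using at_pr h w') fun h5 => h3 (Subtype.ext h5))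
  have h3 : aeval x r * u ∈ Reg x := by
    intro p hp
    by_cases h4 : pr (⟨p, hp⟩ : FP x) = pr w
    · refine (hp.aeval r).mul' (n := 0) ?_ (by simp)
      by_cases h5 : (⟨p, hp⟩ : FP x) = w
      · rw [← h5] at hu; exact ge_of_le hu.ge
      · exact (h2 _ h5 h4).mono (by omega)
    · have h5 := ord_sub_eq_zero h ⟨p, hp⟩ h4
      have h6 := sub_const_ne_zero h.trans (pr w)
      have h7 : p.Ge 0 ((x - algebraMap ℂ F (pr w)) ^ q.rootMultiplicity (pr w))⁻¹ :=
        ge_of_le (by simp [show p.ord _ = 0 from h5])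
      have h8 := h7.mul (hq' p hp)
      nth_rewrite 2 [hr] at h8
      simpa [mul_assoc, inv_mul_cancel_left₀ (pow_ne_zero _ h6)] using h8
  refine ⟨⟨_, h3⟩, fun h4 => ?_, fun w' h4 h5 => ?_⟩
  · have h5 := at_evh h w ⟨_, h3⟩
    rw [h4, at_zero_iff] at h5
    have h6 := ((at_pr h w).aeval r).ord_eq_zero h1
    have h7 := h5.le (mul_ne_zero h6.1 hu0)
    rw [w.1.ord_mul h6.1 hu0, h6.2, hu] at h7
    omega
  · exact (at_zero_iff.2 ((w'.2.aeval r).mul' (h2 w' h4 h5) (by simp))).cen_eq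

lemma t2 (h : IsCoord ℂ x) : T2Space (FP x) := by
  refine T2Space.of_injective_continuous (f := fun (w : FP x) (b : Reg x) => w.1.cen (b : F))
    (fun w w' hw => ?_) continuous_induced_dom
  by_contra h1
  obtain ⟨e, he, he'⟩ := exists_bump h w
  exact he ((congrFun hw e).trans
    (he' w' (Ne.symm h1) (congrFun hw ⟨x, self_mem_reg x⟩).symm))

lemma poly_of_reg (h : IsCoord ℂ x) {y : F} (hy : y ∈ Reg x) (n : ℕ) {P Q : ℂ[X]} (hQ : Q ≠ 0)
    (hn : Q.natDegree = n) (he : y * aeval x Q = aeval x P) : ∃ R : ℂ[X], y = aeval x R := by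
  induction n generalizing P Q with
  | zero =>
    obtain ⟨c, rfl⟩ := natDegree_eq_zero.1 hn
    have hc : algebraMap ℂ F c ≠ 0 := by simpa using hQ
    refine ⟨P * C c⁻¹, ?_⟩
    rw [map_mul, ← he, aeval_C, aeval_C, map_inv₀, mul_inv_cancel_right₀ hc]
  | succ n ih =>
    obtain ⟨a, ha⟩ := IsAlgClosed.exists_root Q (by
      rw [degree_eq_natDegree hQ, hn]; exact_mod_cast Nat.succ_ne_zero n)
    obtain ⟨p, hp⟩ := h.exists_at a
    have h1 := (h.at_cen (hy p hp.ge_zero)).mul (hp.aeval Q)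
    rw [he, ha.eq_zero, mul_zero] at h1
    obtain ⟨P', rfl⟩ := dvd_iff_isRoot.2 ((hp.aeval P).unique h1)
    obtain ⟨Q', rfl⟩ := dvd_iff_isRoot.2 ha
    have hQ' : Q' ≠ 0 := right_ne_zero_of_mul hQ
    rw [natDegree_mul (X_sub_C_ne_zero a) hQ', natDegree_X_sub_C] at hn
    refine ih (P := P') hQ' (by omega) (mul_left_cancel₀ (sub_const_ne_zero h.trans a) ?_)
    simp only [map_mul, map_sub, aeval_X, aeval_C] at he
    rw [← he]; ring

end general

variable {F G : Type} [Field F] [Algebra ℂ F] [Group G] [Finite G] [MulSemiringAction G F]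
  [SMulCommClass G ℂ F] {x : Fix ℂ F G}

noncomputable instance : MulAction G (FP (x : F)) where
  smul g w := ⟨g • w.1, by rw [smul_ge, smul_fix]; exact w.2⟩
  one_smul w := Subtype.ext (one_smul G w.1)
  mul_smul g g' w := Subtype.ext (mul_smul g g' w.1)

lemma coe_smul (g : G) (w : FP (x : F)) : (g • w).1 = g • w.1 := rfl

lemma smul_mem_reg (g : G) {y : F} (hy : y ∈ Reg (x : F)) : g • y ∈ Reg (x : F) := fun p hp => by
  have := hy (g⁻¹ • p) (by rw [smul_ge, smul_fix]; exact hp)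
  rwa [smul_ge, inv_inv] at this

lemma evh_smul (h : IsCoord ℂ (x : F)) (g : G) (w : FP (x : F)) (b : Reg (x : F)) :
    evh h (g • w) b = evh h w ⟨g⁻¹ • (b : F), smul_mem_reg _ b.2⟩ :=
  ((smul_at g (b : F) _).2 (at_evh h w ⟨g⁻¹ • (b : F), smul_mem_reg _ b.2⟩)).cen_eq

lemma continuousConstSMul (h : IsCoord ℂ (x : F)) : ContinuousConstSMul G (FP (x : F)) :=
  ⟨fun g => continuous_iff_continuousAt.2 fun w => (tendsto_iff h).2 fun b => by
    simp only [evh_smul]
    exact (continuous_evh h _).tendsto w⟩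

lemma pr_smul (h : IsCoord ℂ (x : F)) (g : G) (w : FP (x : F)) : pr (g • w) = pr w :=
  ((smul_at_iff (smul_fix _ _) _).2 (at_pr h w)).cen_eq

lemma pr_eq_iff (h : IsCoord ℂ (x : F)) (hgen : ℂ⟮x⟯ = ⊤) {w w' : FP (x : F)} :
    pr w = pr w' ↔ w ∈ orbit G w' := by
  refine ⟨fun h1 => ?_, fun ⟨g, hg⟩ => hg ▸ pr_smul h g w'⟩
  obtain ⟨r, hr⟩ := h.exists_under w.1
  obtain ⟨r', hr'⟩ := h.exists_under w'.1
  obtain rfl : r = r' := ((hr.at_iff _).1 (at_pr h w)).ext
    (h1 ▸ (hr'.at_iff _).1 (at_pr h w')) h.fix.trans hgen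
  obtain ⟨g, hg⟩ := exists_smul_eq hr' hr
  exact ⟨g, Subtype.ext hg.symm⟩

lemma stabilizer_eq (w : FP (x : F)) : stabilizer G w = stabilizer G w.1 := by
  ext g
  exact Subtype.ext_iff

lemma poly_of_fix (h : IsCoord ℂ (x : F)) (hgen : ℂ⟮x⟯ = ⊤) {y : F} (hy : y ∈ Reg (x : F))
    (hf : ∀ g : G, g • y = y) : ∃ R : ℂ[X], y = aeval (x : F) R := by
  obtain ⟨P, Q, hQ, h1⟩ := exists_div_of_mem (k := ℂ) (x := x) (y := ⟨y, mem_fix.2 hf⟩)
    (by rw [hgen]; trivial)
  have h2 := congrArg (Fix ℂ F G).val h1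
  rw [map_div₀, ← aeval_algHom_apply, ← aeval_algHom_apply] at h2
  exact poly_of_reg h hy _ hQ rfl ((eq_div_iff (aeval_ne_zero h.trans hQ)).1 h2)

/-- The characteristic polynomial of a regular function. -/
lemma exists_char (h : IsCoord ℂ (x : F)) (hgen : ℂ⟮x⟯ = ⊤) (b : Reg (x : F)) :
    ∃ (n : ℕ) (c : ℕ → ℂ[X]), (∀ w : FP (x : F),
      evh h w b ^ n + ∑ j ∈ Finset.range n, (c j).eval (pr w) * evh h w b ^ j = 0) ∧
      ∀ a, (∀ w : FP (x : F), pr w = a → evh h w b = 0) →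
        ∀ j < n, (c j).eval a = 0 := by
  have := Fintype.ofFinite G
  let P : (Reg (x : F))[X] := ∏ g : G, (X - C ⟨g • (b : F), smul_mem_reg g b.2⟩)
  have hP : P.map (Reg (x : F)).val.toRingHom = MulSemiringAction.charpoly G (b : F) := by
    simp [P, MulSemiringAction.charpoly_eq, Polynomial.map_prod]
  have h1 : ∀ j, ∃ R : ℂ[X], (P.coeff j : F) = aeval (x : F) R := fun j =>
    poly_of_fix h hgen (P.coeff j).2 fun g => by
      have := MulSemiringAction.smul_coeff_charpoly (b : F) j g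
      rwa [← hP, coeff_map] at this
  choose c hc using h1
  have h2 : ∀ (w : FP (x : F)) j, (P.map (evh h w).toRingHom).coeff j = (c j).eval (pr w) := by
    intro w j
    rw [coeff_map, ← evh_aeval h]
    exact congrArg (evh h w) (Subtype.ext (hc j))
  have h3 : ∀ w : FP (x : F), P.map (evh h w).toRingHom =
      ∏ g : G, (X - C (evh h w ⟨g • (b : F), smul_mem_reg g b.2⟩)) := fun w => by
    simp [P, Polynomial.map_prod]
  refine ⟨Fintype.card G, c, fun w => ?_, fun a ha j hj => ?_⟩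
  · have h4 : (P.map (evh h w).toRingHom).Monic := by
      rw [h3]; exact monic_prod_of_monic _ _ fun g _ => monic_X_sub_C _
    have h5 : (P.map (evh h w).toRingHom).natDegree = Fintype.card G := by
      rw [h3, natDegree_finsetProd_X_sub_C_eq_card, Finset.card_univ]
    have h6 : (P.map (evh h w).toRingHom).eval (evh h w b) = 0 := by
      rw [h3, eval_prod]
      exact Finset.prod_eq_zero (Finset.mem_univ 1) (by simp)
    rw [h4.as_sum, h5] at h6
    simpa only [eval_add, eval_pow, eval_X, eval_finsetSum, eval_mul, eval_C, h2] using h6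
  · obtain ⟨w, rfl⟩ := pr_surjective h a
    have h4 : ∀ g : G, evh h w ⟨g • (b : F), smul_mem_reg g b.2⟩ = 0 := fun g => by
      have := ha (g⁻¹ • w) (pr_smul h _ _)
      rw [evh_smul] at this
      simpa using this
    rw [← h2, h3]
    simp [h4, coeff_X_pow, hj.ne]

lemma evh_bound (h : IsCoord ℂ (x : F)) (hgen : ℂ⟮x⟯ = ⊤) (b : Reg (x : F)) :
    ∃ (C : ℝ) (N : ℕ), ∀ w : FP (x : F), ‖evh h w b‖ ≤ C * (1 + ‖pr w‖) ^ N := by
  obtain ⟨n, c, h1, -⟩ := exists_char h hgen b
  obtain ⟨C, N, h2⟩ := roots_bound n c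
  exact ⟨C, N, fun w => h2 _ _ (h1 w)⟩

lemma isClosedMap_pr (h : IsCoord ℂ (x : F)) (hgen : ℂ⟮x⟯ = ⊤) :
    IsClosedMap (pr : FP (x : F) → ℂ) := by
  refine (isProperMap_iff_ultrafilter.2 ⟨continuous_pr h, fun U a hU => ?_⟩).isClosedMap
  have h1 : ∀ b : Reg (x : F), ∃ c : ℂ, Tendsto (fun w => evh h w b) U (𝓝 c) := by
    intro b
    obtain ⟨C, N, h1⟩ := evh_bound h hgen b
    have h2 : Tendsto (fun w : FP (x : F) => C * (1 + ‖pr w‖) ^ N) U (𝓝 (C * (1 + ‖a‖) ^ N)) :=
      ((hU.norm.const_add 1).pow N).const_mul C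
    obtain ⟨c, -, hc⟩ := (isCompact_closedBall (0 : ℂ) (C * (1 + ‖a‖) ^ N + 1)).ultrafilter_le_nhds
      (U.map fun w => evh h w b) (by
        rw [Ultrafilter.coe_map, le_principal_iff, mem_map]
        filter_upwards [h2.eventually (gt_mem_nhds (lt_add_one _))] with w hw
        simpa using (h1 w).trans hw.le)
    exact ⟨c, hc⟩
  choose φ hφ using h1
  by_contra h2
  push Not at h2
  have h3 : ∀ w : FP (x : F), pr w = a → ∃ b : Reg (x : F), φ b ≠ evh h w b := by
    intro w hw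
    by_contra h3
    push Not at h3
    exact h2 w hw ((tendsto_iff h (f := id)).2 fun b => h3 b ▸ hφ b)
  choose! β hβ using h3
  obtain ⟨w₀, rfl⟩ := pr_surjective h a
  have := Fintype.ofFinite G
  let b : Reg (x : F) := ∏ g : G, (β (g • w₀) - algebraMap ℂ _ (evh h (g • w₀) (β (g • w₀))))
  have h4 : Tendsto (fun w => evh h w b) U
      (𝓝 (∏ g : G, (φ (β (g • w₀)) - evh h (g • w₀) (β (g • w₀))))) := by
    simp only [b, map_prod, map_sub, AlgHom.commutes]
    exact tendsto_finsetProd _ fun g _ => (hφ _).sub_const _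
  set L := ∏ g : G, (φ (β (g • w₀)) - evh h (g • w₀) (β (g • w₀))) with hL
  have h5 : L ≠ 0 := Finset.prod_ne_zero_iff.2 fun g _ => sub_ne_zero.2 (hβ _ (pr_smul h g w₀))
  obtain ⟨n, c, h6, h7⟩ := exists_char h hgen b
  have h8 := h7 (pr w₀) fun w hw => by
    obtain ⟨g, rfl⟩ := (pr_eq_iff h hgen).1 hw
    simp only [b, map_prod, map_sub, AlgHom.commutes]
    exact Finset.prod_eq_zero (Finset.mem_univ g) (by simp)
  have h9 : Tendsto (fun w : FP (x : F) =>
      evh h w b ^ n + ∑ j ∈ Finset.range n, (c j).eval (pr w) * evh h w b ^ j) U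
      (𝓝 (L ^ n + ∑ j ∈ Finset.range n, (c j).eval (pr w₀) * L ^ j)) :=
    (h4.pow n).add (tendsto_finsetSum _ fun j _ =>
      (((c j).continuous.tendsto _).comp hU).mul (h4.pow j))
  simp only [h6] at h9
  have h10 := tendsto_nhds_unique h9 tendsto_const_nhds
  rw [Finset.sum_eq_zero fun j hj => by rw [h8 j (Finset.mem_range.1 hj), zero_mul], add_zero] at h10
  exact pow_ne_zero n h5 h10

variable [FaithfulSMul G F]

lemma ord_sub_eq_one (h : IsCoord ℂ (x : F)) (hgen : ℂ⟮x⟯ = ⊤) (w : FP (x : F))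
    (hw : stabilizer G w.1 = ⊥) : w.1.ord ((x : F) - algebraMap ℂ F (pr w)) = 1 := by
  obtain ⟨r, hr⟩ := h.exists_under w.1
  have h1 := h.card_stabilizer hr
  rw [hw, Subgroup.card_bot] at h1
  have h2 := hr.2 (x - algebraMap ℂ _ (pr w))
  rw [((hr.at_iff _).1 (at_pr h w)).ord_eq_one h.fix.trans hgen, ← h1] at h2
  simpa using h2

/-- Regular functions are holomorphic along continuous local sections. -/
lemma differentiableAt_section (h : IsCoord ℂ (x : F)) (hgen : ℂ⟮x⟯ = ⊤) {c : ℂ}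
    (hc : ∀ w : FP (x : F), pr w = c → stabilizer G w.1 = ⊥) {s : ℂ → FP (x : F)}
    (hs : ContinuousAt s c) (hs' : ∀ᶠ z in 𝓝 c, pr (s z) = z) (y : Reg (x : F)) :
    DifferentiableAt ℂ (fun z => evh h (s z) y) c := by
  have h0 := hs'.self_of_nhds
  obtain ⟨e, he, he'⟩ := exists_bump h (s c)
  have h1 := sub_const_ne_zero h.trans c
  set y' : Reg (x : F) := y - algebraMap ℂ _ (evh h (s c) y) with hy'
  have h2 : ((e * y' : Reg (x : F)) : F) / (x - algebraMap ℂ F c) ∈ Reg (x : F) := by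
    intro p hp
    rw [div_eq_mul_inv]
    by_cases h2 : pr (⟨p, hp⟩ : FP (x : F)) = c
    · have h3 := ord_sub_eq_one h hgen ⟨p, hp⟩ (hc _ h2)
      rw [h2] at h3
      have h4 : evh h ⟨p, hp⟩ (e * y') = 0 := by
        rw [map_mul]
        by_cases h4 : (⟨p, hp⟩ : FP (x : F)) = s c
        · simp [h4, hy']
        · rw [he' _ h4 (h2.trans h0.symm), zero_mul]
      have h5 := at_evh h ⟨p, hp⟩ (e * y')
      rw [h4, at_zero_iff] at h5
      exact h5.mul' (n := -1) (ge_of_le (by rw [ord_inv, show p.ord _ = 1 from h3])) (by simp)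
    · exact ((e * y').2 p hp).mul' (n := 0)
        (ge_of_le (by rw [ord_inv, show p.ord _ = 0 from ord_sub_eq_zero h ⟨p, hp⟩ h2]; simp))
        (by simp)
  set b : Reg (x : F) := ⟨_, h2⟩ with hb
  have h3 : b * (⟨x, self_mem_reg _⟩ - algebraMap ℂ _ c) = e * y' :=
    Subtype.ext (div_mul_cancel₀ _ h1)
  have h4 : ∀ u : Reg (x : F), ContinuousAt (fun z => evh h (s z) u) c := fun u =>
    (continuous_evh h u).continuousAt.comp hs
  refine (hasDerivAt_iff_tendsto_slope.2 (?_ : Tendsto _ _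
    (𝓝 (evh h (s c) b / evh h (s c) e)))).differentiableAt
  refine (((h4 b).div (h4 e) he).tendsto.mono_left nhdsWithin_le_nhds).congr' ?_
  filter_upwards [self_mem_nhdsWithin, mem_nhdsWithin_of_mem_nhds hs',
    mem_nhdsWithin_of_mem_nhds ((h4 e).eventually_ne he)] with z h5 h6 h7
  have h8 := congrArg (evh h (s z)) h3
  rw [map_mul, map_mul, map_sub, hy', map_sub, AlgHom.commutes, AlgHom.commutes,
    show evh h (s z) ⟨x, self_mem_reg _⟩ = z from h6] at h8
  rw [slope_def_field, Pi.div_apply, div_eq_div_iff h7 (sub_ne_zero.2 h5)]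
  simpa [mul_comm] using h8

end Ret

open Ret

theorem ret {F G : Type} [Field F] [Algebra ℂ F] [Group G] [Finite G] [MulSemiringAction G F]
    [SMulCommClass G ℂ F] [FaithfulSMul G F] {x : Fix ℂ F G} (h : IsCoord ℂ (x : F))
    (hgen : ℂ⟮x⟯ = ⊤)
    (hun : ∀ (p : Place ℂ F) (a : ℂ), p.At (x : F) a → a ≠ 0 → a ≠ 1 → stabilizer G p = ⊥) :
    ∃ p q : Place ℂ F, p.At (x : F) 0 ∧ q.At (x : F) 1 ∧ stabilizer G p ⊔ stabilizer G q = ⊤ := by
  have := t2 h
  have := continuousConstSMul h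
  obtain ⟨p, q, t, hp, hq, ht⟩ := top_core (G := G) (continuous_pr h) (isClosedMap_pr h hgen)
    (pr_surjective h) (pr_eq_iff h hgen) fun w h0 h1 => by
      rw [stabilizer_eq]; exact hun _ _ (at_pr h w) h0 h1
  rw [stabilizer_eq, stabilizer_eq] at ht
  refine ⟨p.1, q.1, hp ▸ at_pr h p, hq ▸ at_pr h q, ?_⟩
  set H := stabilizer G p.1 ⊔ stabilizer G q.1 with hH
  have hfix : ∀ (g : G) (P : ℂ[X]), g • aeval (x : F) P = aeval (x : F) P := fun g P => by
    have := smul_fix g (aeval x P)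
    rwa [show ((aeval x P : Fix ℂ F G) : F) = aeval (x : F) P from
      (aeval_algHom_apply (Fix ℂ F G).val x P).symm] at this
  have key : ∀ y : Reg (x : F), (∀ g ∈ H, g • (y : F) = y) → ∀ g : G, g • (y : F) = y := by
    intro y hy
    obtain ⟨C, N, h1⟩ := evh_bound h hgen y
    obtain ⟨Q, hQ⟩ := exists_poly' (f := fun z => evh h (t z) y) (C := C) (N := N)
      (fun c h0 h1 => by
        obtain ⟨-, s, hs, h2⟩ := ht c h0 h1
        have h3 : ∀ᶠ z in 𝓝 c, pr (s z) = z := by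
          filter_upwards [h2, isOpen_ne.mem_nhds h0, isOpen_ne.mem_nhds h1] with z ⟨g, _, hg⟩ h4 h5
          rw [← pr_smul h g, ← hg, (ht z h4 h5).1]
        refine (differentiableAt_section h hgen
          (fun w hw => hun _ _ (hw ▸ at_pr h w) h0 h1) hs h3 y).congr_of_eventuallyEq ?_
        filter_upwards [h2] with z ⟨g, hg, hg'⟩
        rw [hg', evh_smul]
        exact congrArg (evh h (s z)) (Subtype.ext (hy _ (inv_mem hg))))
      fun z h0 h2 => by simpa only [(ht z h0 h2).1] using h1 (t z)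
    let u : Reg (x : F) := ⟨_, aeval_mem_reg (x : F) (X * (X - 1))⟩ * y - ⟨_, aeval_mem_reg _ Q⟩
    have h2 : (u : F) = 0 := by
      by_contra h2
      refine Set.infinite_of_injOn_mapsTo (f := fun z => (t z).1) (s := {0, 1}ᶜ) ?_ ?_
        (Set.toFinite _).infinite_compl (h.finite_poles (u : F)⁻¹)
      · intro z hz z' hz' h3
        simp only [Set.mem_compl_iff, Set.mem_insert_iff, Set.mem_singleton_iff, not_or] at hz hz'
        rw [← (ht z hz.1 hz.2).1, ← (ht z' hz'.1 hz'.2).1, Subtype.ext h3]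
      · intro z hz
        simp only [Set.mem_compl_iff, Set.mem_insert_iff, Set.mem_singleton_iff, not_or] at hz
        have h3 := at_evh h (t z) u
        have h4 : evh h (t z) u = 0 := by
          rw [map_sub, map_mul, evh_aeval, evh_aeval, (ht z hz.1 hz.2).1, ← hQ z]
          simp
        rw [h4, at_zero_iff] at h3
        have := h3.le h2
        simp only [Set.mem_ofPred_eq, ord_inv]
        omega
    have h3 : aeval (x : F) (X * (X - 1) : ℂ[X]) * (y : F) = aeval (x : F) Q := sub_eq_zero.1 h2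
    have h4 : aeval (x : F) (X * (X - 1) : ℂ[X]) ≠ 0 :=
      aeval_ne_zero h.trans (mul_ne_zero X_ne_zero (X_sub_C_ne_zero 1))
    intro g
    refine mul_left_cancel₀ h4 ?_
    rw [h3, ← hfix g Q, ← h3, smul_mul', hfix]
  have h1 : Fix ℂ F H = Fix ℂ F G := by
    refine le_antisymm (fun y hy => mem_fix.2 fun g => ?_) fun y hy =>
      mem_fix.2 fun g => mem_fix.1 hy g
    obtain ⟨r, hr, h1⟩ := h.exists_multiple y
    have h2 := key ⟨_, h1⟩ (fun g hg => by
      change g • (_ * _) = _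
      rw [smul_mul', hfix, show g • y = y from mem_fix.1 hy ⟨g, hg⟩]) g
    change g • (_ * _) = _ at h2
    rw [smul_mul', hfix] at h2
    exact mul_left_cancel₀ (aeval_ne_zero h.trans hr) h2
  have h2 := finrank_fix ℂ F H
  rw [h1, finrank_fix] at h2
  exact Subgroup.eq_top_of_card_eq _ h2.symm

end Pool.Agent.Lib.MP_e06174_ag
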