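import Pool.Agent.Lib.MP_e06174_ag.Types4
import Pool.Agent.Lib.MP_e06174_ag.Ret
import Pool.Agent.Lib.MP_e06174_ag.Grp

/-! Generation of the group of a cover with three branch points by two inertia groups. -/

set_option linter.unusedSectionVars false

open Polynomial IntermediateField Module MulAction

namespace Pool.Agent.Lib.MP_e06174_ag

open Place

lemma exists_coord_three {B : Type} [Field B] [Algebra ℂ B] {x : B} (h : IsCoord ℂ x)
    (hgen : ℂ⟮x⟯ = ⊤) {a b c : Place ℂ B} (hab : a ≠ b) (hac : a ≠ c) (hbc : b ≠ c) {α β : ℂ}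
    (hαβ : α ≠ β) :
    ∃ x' : B, Transcendental ℂ x' ∧ ℂ⟮x'⟯ = ⊤ ∧ a.At x' α ∧ b.At x' β ∧ c.ord x' < 0 := by
  obtain ⟨y, hy, hy', hc⟩ := exists_coord_pole h hgen c
  have h1 := h.of_transcendental hy
  obtain ⟨s, hs⟩ := (h1.pole_or_at a).resolve_left fun h2 => hac (ext_pole h2 hc hy hy')
  obtain ⟨t, ht⟩ := (h1.pole_or_at b).resolve_left fun h2 => hbc (ext_pole h2 hc hy hy')
  have hst : s - t ≠ 0 := fun h2 => hab (hs.ext (by rwa [sub_eq_zero.1 h2]) hy hy')
  have hμ : (α - β) / (s - t) ≠ 0 := div_ne_zero (sub_ne_zero.2 hαβ) hst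
  set μ := (α - β) / (s - t) with hμd
  have hgen' : ℂ⟮μ • y - algebraMap ℂ B (μ * s - α)⟯ = ⊤ := by
    refine top_le_iff.1 (hy'.ge.trans (adjoin_simple_le_iff.2 ?_))
    have := smul_mem _ (add_mem (mem_adjoin_simple_self ℂ (μ • y - algebraMap ℂ B (μ * s - α)))
      (IntermediateField.algebraMap_mem _ (μ * s - α))) (x := μ⁻¹)
    rwa [sub_add_cancel, inv_smul_smul₀ hμ] at this
  refine ⟨_, fun h2 => hy ?_, hgen', ?_, ?_, ?_⟩
  · have := isAlgebraic_adjoin_simple h2.isIntegral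
    exact IntermediateField.isAlgebraic_iff.1 (this.isAlgebraic ⟨y, hgen' ▸ mem_top⟩)
  · have := (hs.smul μ).add (a.at_const (-(μ * s - α)))
    rwa [map_neg, ← sub_eq_add_neg, ← sub_eq_add_neg, sub_sub_cancel] at this
  · have := (ht.smul μ).add (b.at_const (-(μ * s - α)))
    rwa [map_neg, ← sub_eq_add_neg, ← sub_eq_add_neg,
      show μ * t - (μ * s - α) = β by rw [hμd]; field_simp; ring] at this
  · have h2 : c.ord (μ • y) < 0 := by rwa [c.ord_smul hμ]
    rwa [ord_sub_const_of_pole h2]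

variable {F G : Type} [Field F] [Algebra ℂ F] [Group G] [Finite G] [MulSemiringAction G F]
  [SMulCommClass G ℂ F] [FaithfulSMul G F] {x : Fix ℂ F G}

omit [Finite G] [FaithfulSMul G F] in
lemma stabilizer_smul_place (g : G) (p : Place ℂ F) :
    stabilizer G (g • p) = (stabilizer G p).map (MulAut.conj g).toMonoidHom :=
  stabilizer_smul_eq_stabilizer_map_conj g p

theorem Tri.ret {a b c : Place ℂ (Fix ℂ F G)} (ht : Tri a b c) (h : IsCoord ℂ (x : F))
    (hgen : ℂ⟮x⟯ = ⊤) {q : Place ℂ F} (hq : q.Over (Fix ℂ F G).val b b.ram) :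
    ∃ p : Place ℂ F, p.Over (Fix ℂ F G).val a a.ram ∧ stabilizer G p ⊔ stabilizer G q = ⊤ := by
  obtain ⟨y, hy, hy', ha, hb, hc⟩ := exists_coord_three h.fix hgen ht.ab ht.ac ht.bc zero_ne_one
  have h1 : IsCoord ℂ (y : F) :=
    h.of_transcendental fun h2 => hy (IntermediateField.isAlgebraic_iff.2 h2)
  obtain ⟨p₀, q₀, hp₀, hq₀, h2⟩ := Pool.Agent.Lib.MP_e06174_ag.ret h1 hy' fun p s hp h0 h1' => by
    obtain ⟨r, hr⟩ := h.exists_under p
    have h3 : r.At y s := (hr.at_iff s).1 hp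
    rw [← Subgroup.card_eq_one, h.card_stabilizer hr]
    refine ht.ram r ?_ ?_ ?_
    · rintro rfl; exact h0 (h3.unique ha)
    · rintro rfl; exact h1' (h3.unique hb)
    · rintro rfl; exact h3.not_pole hc
  obtain ⟨r, hr⟩ := h.exists_under p₀
  obtain rfl : r = a := ((hr.at_iff 0).1 hp₀).ext ha hy hy'
  obtain ⟨s, hs⟩ := h.exists_under q₀
  obtain rfl : s = b := ((hs.at_iff 1).1 hq₀).ext hb hy hy'
  obtain ⟨g, rfl⟩ := exists_smul_eq hs hq
  refine ⟨g • p₀, hr.smul g, ?_⟩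
  rw [stabilizer_smul_place, stabilizer_smul_place, ← Subgroup.map_sup, h2]
  exact Subgroup.map_top_of_surjective _ (MulAut.conj g).surjective

theorem TA.tri237' (hA : TA ℂ F G (7 ≤ ·)) (h : IsCoord ℂ (x : F)) (hgen : ℂ⟮x⟯ = ⊤)
    {p : Place ℂ F} {q : Place ℂ (Fix ℂ F G)} (hp : p.Over (Fix ℂ F G).val q q.ram)
    (hq : 4 ≤ q.ram) : ∃ A B : Subgroup G, Tri237 A B (stabilizer G p) ∧ A ⊔ stabilizer G p = ⊤ := by
  classical
  obtain ⟨a, b, c, ht, ha, hb, hc⟩ := hA
  obtain rfl : q = c := by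
    rcases ht.cases q with rfl | rfl | rfl | ⟨-, -, -, h⟩
    · omega
    · omega
    · rfl
    · omega
  obtain ⟨pa, hpa, h1⟩ := ht.swap₂.ret h hgen hp
  choose P hP using fun q : Place ℂ (Fix ℂ F G) => q.exists_over_ram
  let P' := Function.update (Function.update P q p) a pa
  have hP' : ∀ r, (P' r).Over (Fix ℂ F G).val r r.ram := fun r => by
    by_cases h2 : r = a
    · subst h2; simpa [P'] using hpa
    by_cases h3 : r = q
    · subst h3; simpa [P', Function.update_of_ne h2] using hp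
    · simpa [P', Function.update_of_ne h2, Function.update_of_ne h3] using hP r
  refine ⟨stabilizer G pa, stabilizer G (P' b), ⟨by rw [h.card_stabilizer hpa, ha],
    by rw [h.card_stabilizer (hP' b), hb], by rwa [h.card_stabilizer hp], h.isCyclic p,
    fun N hN => ?_⟩, h1⟩
  have := hurwitz h hgen N {a, b, q} (fun q hq => by
    simp only [Finset.mem_insert, Finset.mem_singleton, not_or] at hq
    exact ht.ram q hq.1 hq.2.1 hq.2.2) P' hP'
  rw [Finset.sum_insert (by simp [ht.ab, ht.ac]), Finset.sum_pair ht.bc, ← add_assoc] at this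
  simpa only [P', Function.update_self, Function.update_of_ne ht.ac.symm] using this

end Pool.Agent.Lib.MP_e06174_ag
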