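import Pool.Agent.Lib.MP_e06174_ag.Factor
import Pool.Agent.Lib.MP_e06174_ag.Forms
import Pool.Agent.Lib.MP_e06174_ag.Ruled

/-! The function field of a product of curves with a diagonal group action. -/

set_option linter.unusedSectionVars false

open Polynomial IntermediateField Module
open scoped TensorProduct

namespace Pool.Agent.Lib.MP_e06174_ag

open Place

lemma IsCoord.isAlgebraic_map {k F K : Type*} [Field k] [Field F] [Field K] [Algebra k F]
    [Algebra k K] {x : F} (h : IsCoord k x) (ι : F →ₐ[k] K) (E : IntermediateField k K)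
    (hx : ι x ∈ E) (f : F) : IsAlgebraic E (ι f) := by
  have h1 : ∀ y : k⟮x⟯, ι y ∈ E := fun y => by
    have : k⟮x⟯ ≤ E.comap ι := adjoin_simple_le_iff.2 hx
    exact this y.2
  exact (h.isAlgebraic f).ringHom_of_comp_eq
    (((ι : F →+* K).comp (algebraMap k⟮x⟯ F)).codRestrict E h1) (ι : F →+* K)
    (RingHom.injective _) rfl

lemma exists_isCoord {k F : Type} [Field k] [Field F] [Algebra k F] [Algebra.EssFiniteType k F]
    (h : Algebra.trdeg k F = 1) : ∃ x : F, IsCoord k x := by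
  have h1 : Algebra.Transcendental k F := trdeg_ne_zero_iff.1 (by rw [h]; exact one_ne_zero)
  obtain ⟨x, hx⟩ := h1.transcendental
  have h2 : IsTranscendenceBasis k fun _ : Unit => x :=
    ((algebraicIndependent_unique_type_iff).2 hx).isTranscendenceBasis_of_trdeg_le_of_finite
      (by simp [h])
  have h3 := h2.isAlgebraic_field
  rw [Set.range_const] at h3
  have h4 : Algebra.EssFiniteType k⟮x⟯ F := .of_comp k k⟮x⟯ F
  exact ⟨x, hx, Algebra.finite_of_essFiniteType_of_isAlgebraic⟩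

variable {n : ℕ} {F : Fin n → Type} [∀ i, Field (F i)] [∀ i, Algebra ℂ (F i)]
  {G : Type} [Group G] [Finite G] [∀ i, MulSemiringAction G (F i)] [∀ i, SMulCommClass G ℂ (F i)]
  {K : Type} [Field K] [Algebra ℂ K] [MulSemiringAction G K] [SMulCommClass G ℂ K]

variable (G) in
/-- `K` is the function field of the product, with the diagonal action. -/
structure Setup (ι : ∀ i, F i →ₐ[ℂ] K) : Prop where
  coord : ∀ i, ∃ y : F i, IsCoord ℂ y
  fg : ∀ i, (⊤ : IntermediateField ℂ (F i)).FG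
  equiv : ∀ (g : G) i f, g • ι i f = ι i (g • f)
  lin : ∀ {σ : Fin n → Type} (w : ∀ i, σ i → F i), (∀ i, LinearIndependent ℂ (w i)) →
    LinearIndependent ℂ fun β : ∀ i, σ i => ∏ i, ι i (w i (β i))
  gen : adjoin ℂ (⋃ i, Set.range (ι i)) = ⊤

theorem exists_setup [∀ i, Algebra.EssFiniteType ℂ (F i)] (hF : ∀ i, Algebra.trdeg ℂ (F i) = 1)
    [Algebra (⨂[ℂ] i, F i) K] [IsScalarTower ℂ (⨂[ℂ] i, F i) K]
    [IsFractionRing (⨂[ℂ] i, F i) K]
    (hG : ∀ (g : G) (f : ∀ i, F i), g • emb ℂ F K f = emb ℂ F K fun i => g • f i) :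
    ∃ ι : ∀ i, F i →ₐ[ℂ] K, Setup G ι := by
  classical
  let φ := IsScalarTower.toAlgHom ℂ (⨂[ℂ] i, F i) K
  let ι : ∀ i, F i →ₐ[ℂ] K := fun i => φ.comp (PiTensorProduct.singleAlgHom i)
  have hι : ∀ i f, ι i f = φ (PiTensorProduct.tprod ℂ (Pi.mulSingle i f)) := fun i f => rfl
  have hprod : ∀ f : ∀ i, F i, ∏ i, ι i (f i) = φ (PiTensorProduct.tprod ℂ f) := fun f => by
    simp only [hι]
    rw [← map_prod, ← PiTensorProduct.tprod_prod]
    congr 2
    exact Finset.univ_prod_mulSingle f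
  have hφ : Function.Injective φ := IsFractionRing.injective _ _
  refine ⟨ι, fun i => exists_isCoord (hF i), fun i => fg_top _ _, fun g i f => ?_,
    fun {σ} w hw => ?_, ?_⟩
  · rw [hι, hι]
    refine (hG g _).trans (congrArg (fun f => φ (PiTensorProduct.tprod ℂ f)) ?_)
    funext j
    by_cases hj : j = i
    · subst hj; simp
    · simp [Pi.mulSingle_eq_of_ne hj]
  · simp only [hprod]
    refine LinearIndependent.map' (v := fun β : ∀ i, σ i =>
      PiTensorProduct.tprod ℂ fun i => w i (β i)) ?_ φ.toLinearMap (LinearMap.ker_eq_bot.2 hφ)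
    let b := fun i => Basis.extend (hw i).linearIndepOn_id
    let e : (∀ i, σ i) → ∀ i, ((hw i).linearIndepOn_id.extend (Set.subset_univ _)) :=
      fun β i => ⟨w i (β i), LinearIndepOn.subset_extend _ _ ⟨_, rfl⟩⟩
    have he : Function.Injective e := fun β γ h => funext fun i =>
      (hw i).injective (congrArg Subtype.val (congrFun h i))
    have h1 : (fun β : ∀ i, σ i => PiTensorProduct.tprod ℂ fun i => w i (β i)) =
        Basis.piTensorProduct b ∘ e := funext fun β => by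
      simp [b, e, Basis.piTensorProduct_apply]
    rw [h1]
    exact (Basis.piTensorProduct b).linearIndependent.comp e he
  · have h1 : ∀ t, φ t ∈ adjoin ℂ (⋃ i, Set.range (ι i)) := fun t => by
      induction t using PiTensorProduct.induction_on with
      | smul_tprod c f =>
        rw [map_smul, ← hprod]
        exact smul_mem _ (prod_mem fun i _ =>
          subset_adjoin _ _ (Set.mem_iUnion.2 ⟨i, Set.mem_range_self _⟩))
      | add x y hx hy => rw [map_add]; exact add_mem hx hy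
    refine top_le_iff.1 fun a _ => ?_
    obtain ⟨x, y, -, rfl⟩ := IsFractionRing.div_surjective (⨂[ℂ] i, F i) a
    exact div_mem (h1 x) (h1 y)

namespace Setup

variable {ι : ∀ i, F i →ₐ[ℂ] K} (S : Setup G ι)
include S

lemma algebraicIndependent (x : ∀ i, F i) (hx : ∀ i, Transcendental ℂ (x i)) :
    AlgebraicIndependent ℂ fun i => ι i (x i) := by
  have h1 : ∀ i, LinearIndependent ℂ fun m : ℕ => x i ^ m := fun i => by
    have := (Polynomial.basisMonomials ℂ).linearIndependent.map' (aeval (x i)).toLinearMap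
      (LinearMap.ker_eq_bot.2 (transcendental_iff_injective.1 (hx i)))
    have h3 : (fun m : ℕ => x i ^ m) =
        (aeval (x i)).toLinearMap ∘ Polynomial.basisMonomials ℂ := funext fun m => by simp
    rwa [h3]
  have h2 := (S.lin _ h1).comp (fun β : Fin n →₀ ℕ => (β : Fin n → ℕ)) DFunLike.coe_injective
  rw [algebraicIndependent_iff]
  intro p hp
  ext β
  by_cases hβ : β ∈ p.support
  · refine linearIndependent_iff'.1 h2 p.support (fun β => p.coeff β) ?_ β hβ
    rw [MvPolynomial.aeval_def, MvPolynomial.eval₂_eq'] at hp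
    simpa [Algebra.smul_def] using hp
  · simpa using hβ

lemma isAlgebraic (x : ∀ i, F i) (hx : ∀ i, IsCoord ℂ (x i)) (E : IntermediateField ℂ K)
    (hE : ∀ i, ι i (x i) ∈ E) (a : K) : IsAlgebraic E a := by
  have h1 : Algebra.IsAlgebraic E (adjoin E (⋃ i, Set.range (ι i))) :=
    isAlgebraic_adjoin fun a ha => by
      obtain ⟨i, f, rfl⟩ := Set.mem_iUnion.1 ha
      exact ((hx i).isAlgebraic_map (ι i) E (hE i) f).isIntegral
  have h2 : a ∈ adjoin E (⋃ i, Set.range (ι i)) := by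
    have : a ∈ adjoin ℂ (⋃ i, Set.range (ι i)) := S.gen ▸ mem_top
    have h3 : adjoin ℂ (⋃ i, Set.range (ι i)) ≤
        (adjoin E (⋃ i, Set.range (ι i))).restrictScalars ℂ :=
      adjoin_le_iff.2 fun b hb => subset_adjoin E _ hb
    exact h3 this
  exact (IntermediateField.isAlgebraic_iff (x := ⟨a, h2⟩)).1 (h1.isAlgebraic _)

lemma trdeg_le : Algebra.trdeg ℂ K ≤ n := by
  choose x hx using S.coord
  exact trdeg_le_of_isAlgebraic (fun i => ι i (x i))
    (S.isAlgebraic x hx _ fun i => subset_adjoin _ _ ⟨i, rfl⟩)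

/-- The embedding of the invariants of a factor in the invariants of the product. -/
noncomputable def j (i : Fin n) : Fix ℂ (F i) G →ₐ[ℂ] Fix ℂ K G :=
  ((ι i).comp (Fix ℂ (F i) G).val).codRestrict (Fix ℂ K G).toSubalgebra fun x =>
    mem_fix.2 fun g => (S.equiv g i x).trans (by rw [smul_fix]; rfl)

lemma val_comp_j (i : Fin n) :
    (Fix ℂ K G).val.comp (S.j i) = (ι i).comp (Fix ℂ (F i) G).val := rfl

@[simp] lemma coe_j (i : Fin n) (x : Fix ℂ (F i) G) : (S.j i x : K) = ι i x := rfl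

lemma isTranscendenceBasis (x : ∀ i, Fix ℂ (F i) G) (hx : ∀ i, IsCoord ℂ (x i : F i)) :
    IsTranscendenceBasis ℂ fun i => S.j i (x i) := by
  have h1 : AlgebraicIndependent ℂ fun i => S.j i (x i) :=
    AlgebraicIndependent.of_comp (Fix ℂ K G).val
      (S.algebraicIndependent _ fun i => (hx i).trans)
  refine h1.isTranscendenceBasis_of_trdeg_le_of_finite ?_
  refine (trdeg_le_of_injective (Fix ℂ K G).val (RingHom.injective _)).trans ?_
  simpa using S.trdeg_le

lemma trdeg_fix : Algebra.trdeg ℂ (Fix ℂ K G) = n := by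
  choose y hy using S.coord
  choose x hx _ using fun i => (hy i).exists_fix G
  simpa using (S.isTranscendenceBasis x hx).cardinalMk_eq_trdeg.symm

theorem uniruled_of_rational {i : Fin n} {t : F i} (ht : ℂ⟮t⟯ = ⊤) :
    Uniruled ℂ (Fix ℂ K G) := by
  obtain ⟨n, rfl⟩ : ∃ m, n = m + 1 := ⟨n - 1, by have := i.2; omega⟩
  choose x hx using S.coord
  choose s hs using S.fg
  refine uniruled_of_adjoin (Fix ℂ K G).val S.trdeg_fix
    (fun l => ι (i.succAbove l) (x (i.succAbove l)))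
    (⋃ l : Fin n, ι (i.succAbove l) '' s (i.succAbove l))
    (Set.finite_iUnion fun l => (Finset.finite_toSet _).image _) (fun a ha => ?_) (ι i t)
    fun a => ?_
  · obtain ⟨l, f, -, rfl⟩ := Set.mem_iUnion.1 ha
    exact (hx _).isAlgebraic_map _ _ (subset_adjoin _ _ (Set.mem_range_self l)) f
  · refine (S.gen.ge.trans (adjoin_le_iff.2 ?_)) mem_top
    rintro b hb
    obtain ⟨l, f, rfl⟩ := Set.mem_iUnion.1 hb
    have key : ∀ (l : Fin (n + 1)) (T : Set (F l)) (E : IntermediateField ℂ K),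
        adjoin ℂ T = ⊤ → (∀ f ∈ T, ι l f ∈ E) → ∀ f, ι l f ∈ E := fun l T E hT h f => by
      have h1 : adjoin ℂ T ≤ E.comap (ι l) := adjoin_le_iff.2 h
      exact h1 (hT ▸ mem_top)
    rcases Fin.eq_self_or_eq_succAbove i l with rfl | ⟨l, rfl⟩
    · refine key _ _ _ ht ?_ f
      rintro f rfl
      exact subset_adjoin _ _ (Or.inr rfl)
    · exact key _ _ _ (hs _) (fun f hf => subset_adjoin _ _
        (Or.inl (Or.inr (Set.mem_iUnion.2 ⟨l, Set.mem_image_of_mem _ hf⟩)))) f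

lemma faithful (h : ∀ g : G, g ≠ 1 → ∃ i, ∃ f : F i, g • f ≠ f) : FaithfulSMul G K := by
  refine (faithfulSMul_iff).2 fun g hg => by_contra fun h1 => ?_
  obtain ⟨i, f, hf⟩ := h g h1
  exact hf ((ι i).injective ((S.equiv g i f).symm.trans (hg _)))

variable {v : Place ℂ (Fix ℂ K G)} {w : Place ℂ K} {e : ℕ}

lemma local_data (h : w.Over (Fix ℂ K G).val v e) (i : Fin n) :
    (∀ f, w.ord (ι i f) = 0) ∨ ∃ (p : Place ℂ (F i)) (c : ℕ) (q : Place ℂ (Fix ℂ (F i) G)) (d : ℕ),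
      w.Over (ι i) p c ∧ p.Over (Fix ℂ (F i) G).val q q.ram ∧ v.Over (S.j i) q d ∧
        e * d = c * q.ram := by
  refine (w.restrict (ι i)).imp_right fun ⟨p, c, hc⟩ => ?_
  have hc : w.Over (ι i) p c := hc
  obtain ⟨y, hy⟩ := S.coord i
  obtain ⟨x, hx, -⟩ := hy.exists_fix G
  obtain ⟨q, hq⟩ := hx.exists_under p
  have h1 := hc.comp hq
  rw [← S.val_comp_j] at h1
  obtain ⟨v', c', d, h2, h3⟩ := h1.of_comp
  obtain ⟨rfl, rfl⟩ := h.unique h2
  exact ⟨p, c, q, d, hc, hq, h3, ((h.comp h3).unique h1).2⟩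

lemma ord_j_eq_zero (h : w.Over (Fix ℂ K G).val v e) {i : Fin n} (hi : ∀ f, w.ord (ι i f) = 0)
    (y : Fix ℂ (F i) G) : v.ord (S.j i y) = 0 := by
  have h1 := h.2 (S.j i y)
  have h2 := h.1
  rw [show (Fix ℂ K G).val (S.j i y) = ι i y from rfl, hi] at h1
  exact (mul_eq_zero.1 h1.symm).resolve_left (by omega)

lemma smul_eq_of_inertia {i : Fin n} (hi : ∀ f, w.ord (ι i f) = 0) {g : G}
    (hg : g ∈ w.inertia G) (f : F i) : g • f = f := by
  have h1 := (mem_inertia.1 hg).2 (ι i f) (ge_of_le (hi f).ge)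
  rw [S.equiv, ← map_sub] at h1
  by_contra h2
  have := h1.le ((_root_.map_ne_zero _).2 (sub_ne_zero.2 h2))
  rw [hi] at this
  omega

/-- The contribution of the factor `i` to the order of the form along `v`. -/
noncomputable def contr (v : Place ℂ (Fix ℂ K G)) (i : Fin n) (x Φ : Fix ℂ (F i) G) (m : ℕ) : ℤ :=
  v.ord (S.j i Φ * v.loc (S.j i x) ^ m)

lemma contr_eq_zero (h : w.Over (Fix ℂ K G).val v e) {i : Fin n} (hi : ∀ f, w.ord (ι i f) = 0)
    (x Φ : Fix ℂ (F i) G) (m : ℕ) : S.contr v i x Φ m = 0 := by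
  have := S.ord_j_eq_zero h hi (Φ * (x - algebraMap ℂ _ (v.cen (S.j i x))) ^ m)
  rwa [map_mul, map_pow, map_sub, AlgHom.commutes] at this

lemma contr_eq {i : Fin n} {q : Place ℂ (Fix ℂ (F i) G)} {d : ℕ} (h : v.Over (S.j i) q d)
    (x Φ : Fix ℂ (F i) G) (m : ℕ) : S.contr v i x Φ m = d * q.ord (Φ * q.loc x ^ m) := by
  rw [contr, h.loc_eq, ← map_pow, ← map_mul, h.2]

lemma ord_eq_sum_contr (v : Place ℂ (Fix ℂ K G)) (x Φ : ∀ i, Fix ℂ (F i) G)
    (hx : ∀ i, IsCoord ℂ (x i : F i)) (hΦ : ∀ i, Φ i ≠ 0) (m : ℕ) :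
    v.ord ((∏ i, S.j i (Φ i)) * ∏ i, v.loc (S.j i (x i)) ^ m) =
      ∑ i, S.contr v i (x i) (Φ i) m := by
  rw [← Finset.prod_mul_distrib, v.ord_prod]
  · rfl
  · exact fun i _ => mul_ne_zero ((_root_.map_ne_zero _).2 (hΦ i))
      (pow_ne_zero _ (loc_ne_zero ((S.isTranscendenceBasis x hx).1.transcendental i)))

/-- Product forms. -/
theorem not_kodairaNegInf_of_sum (x Φ : ∀ i, Fix ℂ (F i) G) (hx : ∀ i, IsCoord ℂ (x i : F i))
    (hΦ : ∀ i, Φ i ≠ 0) {m : ℕ} (hm : 1 ≤ m)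
    (h : ∀ (v : Place ℂ (Fix ℂ K G)) (w : Place ℂ K) (e : ℕ), w.Over (Fix ℂ K G).val v e →
      (∃ i, ¬ ∀ f, w.ord (ι i f) = 0) → (m : ℤ) ≤ ∑ i, S.contr v i (x i) (Φ i) m) :
    ¬ KodairaNegInf ℂ (Fix ℂ K G) n := by
  refine not_kodairaNegInf (S.isTranscendenceBasis x hx) hm (Ψ := ∏ i, S.j i (Φ i))
    (Finset.prod_ne_zero_iff.2 fun i _ => (_root_.map_ne_zero _).2 (hΦ i)) fun v => ?_
  obtain ⟨w, e, hw⟩ := exists_over_fix v
  by_cases h1 : ∀ i f, w.ord (ι i f) = 0
  · exact Or.inl ⟨Ge.prod_zero fun i _ => ge_of_le (S.ord_j_eq_zero hw (h1 i) _).ge,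
      fun i => ge_of_le (S.ord_j_eq_zero hw (h1 i) _).ge⟩
  · refine Or.inr (ge_of_le ?_)
    rw [S.ord_eq_sum_contr v x Φ hx hΦ]
    exact h v w e hw (not_forall.1 h1)

theorem six (h6 : ∀ g : G, g ≠ 1 → 6 ≤ Nat.card {i // ∃ f : F i, g • f ≠ f})
    (hκ : KodairaNegInf ℂ (Fix ℂ K G) n) : Uniruled ℂ (Fix ℂ K G) := by
  classical
  by_contra hu
  have hirr : ∀ i (t : F i), ℂ⟮t⟯ ≠ ⊤ := fun i t ht => hu (S.uniruled_of_rational ht)
  have := S.faithful fun g hg => by
    have := h6 g hg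
    obtain ⟨i⟩ := (Nat.card_pos_iff.1 (by omega : 0 < Nat.card {i // ∃ f : F i, g • f ≠ f})).1
    exact ⟨i.1, i.2⟩
  choose y hy using S.coord
  choose x Φ hx hΦ hq using fun i => exists_factor G (hy i) (hirr i)
  refine S.not_kodairaNegInf_of_sum x Φ hx hΦ (m := 60) (by omega) (fun v w e hw hi => ?_) hκ
  have hdiv : ∀ r : ℕ, 1 ≤ r → 10 ≤ 60 / min r 6 ∧ 60 ≤ r * (60 / min r 6) := fun r hr => by
    by_cases h : r ≤ 6
    · interval_cases r <;> decide
    · rw [min_eq_right (by omega)]; omega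
  have h1 : ∀ i, (¬ ∀ f, w.ord (ι i f) = 0) → 10 ≤ S.contr v i (x i) (Φ i) 60 ∧
      (e = 1 → 60 ≤ S.contr v i (x i) (Φ i) 60) := fun i hi => by
    obtain ⟨p, c, q, d, h1, -, h3, h4⟩ := (S.local_data hw i).resolve_left hi
    rw [S.contr_eq h3]
    obtain ⟨h5, h6⟩ := hdiv _ q.one_le_ram
    have h7 := hq i q
    have h8 : (1 : ℤ) ≤ d := by exact_mod_cast h3.1
    have h5' : (10 : ℤ) ≤ (60 / min q.ram 6 : ℕ) := by exact_mod_cast h5
    refine ⟨by nlinarith, fun he => ?_⟩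
    have h9 : (q.ram : ℤ) ≤ d := by
      have := h1.1
      have : q.ram ≤ d := by rw [he] at h4; nlinarith
      exact_mod_cast this
    have h6' : (60 : ℤ) ≤ q.ram * (60 / min q.ram 6 : ℕ) := by exact_mod_cast h6
    nlinarith
  have h2 : ∀ i, 0 ≤ S.contr v i (x i) (Φ i) 60 := fun i => by
    by_cases hi : ∀ f, w.ord (ι i f) = 0
    · rw [S.contr_eq_zero hw hi]
    · have := (h1 i hi).1; omega
  by_cases he : e = 1
  · obtain ⟨i, hi⟩ := hi
    exact ((h1 i hi).2 he).trans (Finset.single_le_sum (fun i _ => h2 i) (Finset.mem_univ i))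
  · have h3 : 1 < Nat.card (w.inertia G) := by
      have := hw.1
      rw [card_inertia hw]; omega
    obtain ⟨g, hg⟩ := (Subgroup.ne_bot_iff_exists_ne_one).1
      ((Subgroup.one_lt_card_iff_ne_bot _).1 h3)
    have h4 := h6 g fun h => hg (Subtype.ext h)
    rw [Nat.card_eq_fintype_card, Fintype.card_subtype] at h4
    refine le_trans ?_ (Finset.sum_le_sum_of_subset_of_nonneg
      (Finset.subset_univ (Finset.univ.filter fun i => ∃ f : F i, (g : G) • f ≠ f))
      fun i _ _ => h2 i)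
    refine le_trans ?_ (Finset.card_nsmul_le_sum _ _ 10 fun i hi => (h1 i fun h5 => ?_).1)
    · simp only [nsmul_eq_mul]; omega
    · obtain ⟨f, hf⟩ := (Finset.mem_filter.1 hi).2
      exact hf (S.smul_eq_of_inertia h5 g.2 f)

end Setup

end Pool.Agent.Lib.MP_e06174_ag
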