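import Pool.Agent.Lib.MP_e06174_ag.Tor4

/-! Uniruledness when three factors are elliptic curves with an automorphism of order six. -/

set_option linter.unusedSectionVars false

open Polynomial IntermediateField Module MulAction

namespace Pool.Agent.Lib.MP_e06174_ag

open Place

lemma exists_twist {Ω : Type} [Field Ω] [Algebra ℂ Ω] [IsAlgClosed Ω] (Q : Pt Ω) {y : Ω}
    (hy : y ≠ 0) : ∃ X Y : Ω, Y ^ 2 = X ^ 3 - 27 * y ^ 6 ∧
      (∀ E : IntermediateField ℂ Ω, X ∈ E → Y ∈ E → y ∈ E → Q ∈ (Pt.map E.val).range) ∧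
      ∀ (δ : Ω →ₐ[ℂ] Ω) (e : ℂ), e ^ 6 = 1 → δ X = X → δ Y = Y → δ y = algebraMap ℂ Ω e * y →
        Pt.map δ Q = Pt.rot e⁻¹ Q := by
  rcases Q.cases with rfl | ⟨a, b, hab, rfl⟩
  · obtain ⟨Y, hY⟩ := IsAlgClosed.exists_pow_nat_eq (0 ^ 3 - 27 * y ^ 6) two_pos
    exact ⟨0, Y, hY, fun _ _ _ _ => zero_mem _, fun _ _ _ _ _ _ => by simp⟩
  refine ⟨a * y ^ 2, b * y ^ 3, by linear_combination y ^ 6 * hab,
    fun E h1 h2 h3 => (Pt.mem_range_iff E hab).2 ⟨?_, ?_⟩, fun δ e he h1 h2 h3 => ?_⟩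
  · simpa [hy] using div_mem h1 (_root_.pow_mem h3 2)
  · simpa [hy] using div_mem h2 (_root_.pow_mem h3 3)
  · obtain ⟨h4, h5⟩ := Pt.rot_mk (c := e⁻¹) (by rw [inv_pow, he, inv_one]) hab
    have h6 : algebraMap ℂ Ω e ≠ 0 := (_root_.map_ne_zero _).2 (by rintro rfl; simp at he)
    rw [map_mul, map_pow, h3, mul_pow, ← mul_assoc, mul_left_inj' (pow_ne_zero _ hy)] at h1 h2
    rw [h5, Pt.map_mk, Pt.mk_eq_mk, map_inv₀, inv_pow, inv_pow, eq_inv_mul_iff_mul_eq₀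
      (pow_ne_zero _ h6), eq_inv_mul_iff_mul_eq₀ (pow_ne_zero _ h6), mul_comm, h1, mul_comm, h2]
    exact ⟨rfl, rfl⟩

lemma mem_of_fixed {K Ω : Type} [Field K] [Algebra ℂ K] [Field Ω] [Algebra ℂ Ω] [IsAlgClosed Ω]
    [Algebra K Ω] [Algebra.IsAlgebraic K Ω] (E : IntermediateField ℂ Ω)
    (h : ∀ a : K, IsAlgebraic E (algebraMap K Ω a)) {b : Ω}
    (hb : ∀ δ : Ω →ₐ[ℂ] Ω, (∀ a ∈ E, δ a = a) → δ b = b) : b ∈ E := by
  have : CharZero Ω := Pt.charZero Ω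
  have : Algebra.IsAlgebraic E Ω := ⟨fun a =>
    ((Algebra.IsAlgebraic.isAlgebraic (R := K) a).ringHom_of_comp_eq
      ((algebraMap K Ω).codRestrict (algebraicClosure E Ω)
        fun a => mem_algebraicClosure_iff.2 (h a)) (RingHom.id Ω) (RingHom.injective _)
      rfl).restrictScalars E⟩
  have : IsAlgClosure E Ω := ⟨inferInstance, inferInstance⟩
  obtain ⟨c, rfl⟩ := (InfiniteGalois.mem_range_algebraMap_iff_fixed (k := E) b).2 fun δ =>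
    hb (δ.toAlgHom.restrictScalars ℂ) fun a ha => δ.commutes ⟨a, ha⟩
  exact c.2

variable {G : Type} [Group G] [Finite G] {χ : G →* ℂ}

section one

variable {F : Type} [Field F] [Algebra ℂ F] [MulSemiringAction G F] [SMulCommClass G ℂ F]
  [FaithfulSMul G F] {Ω : Type} [Field Ω] [Algebra ℂ Ω] {x t : Fix ℂ F G}

/-- The position of the branch points relative to the new base coordinate `w`. -/
def Base (χ : G →* ℂ) (t : Fix ℂ F G) (u w : Ω) : Prop :=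
  ∃ a b c : Place ℂ (Fix ℂ F G), Tri a b c ∧ Plus χ a ∧
    (Plus χ b ∧ a.At t 0 ∧ b.At t 1 ∧ c.ord t < 0 ∧ u = w ∨
      b.ram = 2 ∧ a.ord t < 0 ∧ b.At t (-4) ∧ c.At t 0 ∧ u = (w * (w - 1))⁻¹)

lemma Base.mem {φ : F →ₐ[ℂ] Ω} {w : Ω} (h : Base χ t (φ t) w) (htg : ℂ⟮t⟯ = ⊤) (a : Fix ℂ F G) :
    φ a ∈ ℂ⟮w⟯ := by
  have h1 : φ t ∈ ℂ⟮w⟯ := by
    have h2 := mem_adjoin_simple_self ℂ w
    obtain ⟨a, b, c, -, -, ⟨-, -, -, -, h⟩ | ⟨-, -, -, -, h⟩⟩ := h <;> rw [h]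
    · exact h2
    · exact inv_mem (mul_mem h2 (sub_mem h2 (one_mem _)))
  exact adjoin_simple_le_iff.2 h1
    ((mem_adjoin_of_map (φ.comp (Fix ℂ F G).val)).2 (htg ▸ mem_top : a ∈ ℂ⟮t⟯))

lemma Base.tame {M Γ : Type} [Field M] [Algebra ℂ M] [Group Γ] [Finite Γ] [MulSemiringAction Γ M]
    [SMulCommClass Γ ℂ M] [FaithfulSMul Γ M] {z : Fix ℂ M Γ} {ψ : F →ₐ[ℂ] M} {J : M →ₐ[ℂ] Ω}
    (h : Base χ t (J (ψ t)) (J z)) (ht : IsCoord ℂ (t : F)) (htg : ℂ⟮t⟯ = ⊤)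
    (hz : IsCoord ℂ (z : M)) (hgen : ℂ⟮z⟯ = ⊤) : Tame χ z ψ := by
  obtain ⟨a, b, c, h1, h2, ⟨h3, h4, h5, h6, h7⟩ | ⟨h3, h4, h5, h6, h7⟩⟩ := h
  · exact good_id ht htg hz hgen h1 h2 h3 h4 h5 h6 (J.injective h7)
  · exact good_quad ht htg hz hgen h1 h2 h3 h4 h5 h6 (J.injective (h7.trans (by simp)))

lemma exists_base [IsAlgClosed Ω] (hx : IsCoord ℂ (x : F)) (hgen : ℂ⟮x⟯ = ⊤)
    {a b c : Place ℂ (Fix ℂ F G)} (h : Tri a b c) (ha : Plus χ a) (hb : b.ram = 2 ∨ Plus χ b)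
    (φ : F →ₐ[ℂ] Ω) : ∃ (t : Fix ℂ F G) (w : Ω), IsCoord ℂ (t : F) ∧ ℂ⟮t⟯ = ⊤ ∧
      Transcendental ℂ w ∧ Base χ t (φ t) w := by
  have h0 : ∀ t : Fix ℂ F G, Transcendental ℂ t → IsCoord ℂ (t : F) ∧ Transcendental ℂ (φ t) :=
    fun t ht => ⟨hx.of_transcendental fun h2 => ht (IntermediateField.isAlgebraic_iff.2 h2),
      fun h2 => ht ((isAlgebraic_algHom_iff (φ.comp (Fix ℂ F G).val) (RingHom.injective _)).1 h2)⟩
  rcases hb with hb | hb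
  · obtain ⟨t, h1, h2, h3, h4, h5⟩ := exists_coord_three hx.fix hgen h.bc h.ab.symm h.ac.symm
      (α := -4) (β := 0) (by norm_num)
    have : CharZero Ω := Pt.charZero Ω
    obtain ⟨s, hs⟩ := IsAlgClosed.exists_pow_nat_eq (1 / 4 + (φ t)⁻¹) two_pos
    have h6 : φ t = ((s + 1 / 2) * (s + 1 / 2 - 1))⁻¹ :=
      inv_eq_iff_eq_inv.1 (by linear_combination -hs)
    refine ⟨t, s + 1 / 2, (h0 t h1).1, h2, fun h7 => (h0 t h1).2 ?_,
      a, b, c, h, ha, Or.inr ⟨hb, h5, h3, h4, h6⟩⟩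
    rw [h6]
    exact (h7.mul (h7.sub isAlgebraic_one)).inv
  · obtain ⟨t, h1, h2, h3, h4, h5⟩ := exists_coord_three hx.fix hgen h.ab h.ac h.bc zero_ne_one
    exact ⟨t, φ t, (h0 t h1).1, h2, (h0 t h1).2, a, b, c, h, ha, Or.inl ⟨hb, h3, h4, h5, rfl⟩⟩

lemma exists_base' [IsAlgClosed Ω] (hx : IsCoord ℂ (x : F)) (hgen : ℂ⟮x⟯ = ⊤)
    {a b c : Place ℂ (Fix ℂ F G)} (h : Tri a b c) (ha : Plus χ a) (hb : b.ram = 2) {w : Ω}
    (hw : Transcendental ℂ w) : ∃ (t : Fix ℂ F G) (φ : F →ₐ[ℂ] Ω), IsCoord ℂ (t : F) ∧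
      ℂ⟮t⟯ = ⊤ ∧ Base χ t (φ t) w ∧ φ t = (w * (w - 1))⁻¹ := by
  obtain ⟨t, h1, h2, h3, h4, h5⟩ := exists_coord_three hx.fix hgen h.bc h.ab.symm h.ac.symm
    (α := -4) (β := 0) (by norm_num)
  obtain ⟨φ, hφ⟩ := exists_embed h1 h2 (transcendental_quad hw)
  exact ⟨t, φ, hx.of_transcendental fun h2 => h1 (IntermediateField.isAlgebraic_iff.2 h2), h2,
    ⟨a, b, c, h, ha, Or.inr ⟨hb, h5, h3, h4, hφ⟩⟩, hφ⟩

end one

variable {F : Fin 4 → Type} [∀ i, Field (F i)] [∀ i, Algebra ℂ (F i)]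
  [∀ i, MulSemiringAction G (F i)] [∀ i, SMulCommClass G ℂ (F i)] [∀ i, FaithfulSMul G (F i)]
  {K : Type} [Field K] [Algebra ℂ K] [MulSemiringAction G K] [SMulCommClass G ℂ K]
  {ι : ∀ i, F i →ₐ[ℂ] K}

theorem Setup.tor (S : Setup G ι) (x : ∀ i, Fix ℂ (F i) G) (hx : ∀ i, IsCoord ℂ (x i : F i))
    (hgen : ∀ i, ℂ⟮x i⟯ = ⊤) (j : Fin 4) (hχ : ∀ g, χ g ^ 6 = 1)
    (hE : ∀ i, i ≠ j → (∃ f : F i, f ≠ 0 ∧ ∀ p : Place ℂ (F i), p.ord (f * p.loc (x i : F i)) = 1) ∧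
      (∀ p : Place ℂ (F i), ∀ g ∈ stabilizer G p, χ g = p.chi g) ∧
      ∃ a b c : Place ℂ (Fix ℂ (F i) G), Tri a b c ∧ a.ram = 6 ∧ b.ram = 2 ∧ c.ram = 3)
    (hj : ∃ a b c : Place ℂ (Fix ℂ (F j) G), Tri a b c ∧ Plus χ a ∧ (b.ram = 2 ∨ Plus χ b)) :
    Uniruled ℂ (Fix ℂ K G) := by
  let Ω := AlgebraicClosure K
  let κ := IsScalarTower.toAlgHom ℂ K Ω
  have : CharZero Ω := Pt.charZero Ω
  obtain ⟨a, b, c, h1, h2, h3⟩ := hj
  obtain ⟨t₀, w, ht₀, hg₀, hw, hB₀⟩ := exists_base (hx j) (hgen j) h1 h2 h3 (κ.comp (ι j))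
  have h4 : ∀ i, ∃ (t : Fix ℂ (F i) G) (φ : F i →ₐ[ℂ] Ω), IsCoord ℂ (t : F i) ∧ ℂ⟮t⟯ = ⊤ ∧
      Base χ t (φ t) w ∧ (i = j → φ = κ.comp (ι i)) ∧ (i ≠ j → φ t = (w * (w - 1))⁻¹) := by
    intro i
    by_cases hi : i = j
    · subst hi
      exact ⟨t₀, _, ht₀, hg₀, hB₀, fun _ => rfl, fun h => (h rfl).elim⟩
    · obtain ⟨-, h5, a, b, c, h6, h7, h8, -⟩ := hE i hi
      obtain ⟨t, φ, h9, h10, h11, h12⟩ := exists_base' (χ := χ) (hx i) (hgen i) h6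
        ⟨h7, fun p _ => h5 p⟩ h8 hw
      exact ⟨t, φ, h9, h10, h11, fun h => (hi h).elim, fun _ => h12⟩
  choose t φ ht htg hB hφ hφ' using h4
  obtain ⟨M, _, _, Γ, _, _, _, _, _, J, ψ, z, rfl, hψ, hz, hzg, hf⟩ :=
    exists_compositum S.fg φ hw fun i => (hB i).mem (htg i)
  have hT : ∀ i, Tame χ z (ψ i) := fun i => Base.tame (J := J) (hψ i _ ▸ hB i) (ht i) (htg i) hz hzg
  choose ρ hρ using fun i => exists_hom_of_fix G Γ (ψ i) fun a γ => mem_fix.1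
    (adjoin_simple_le_iff.2 z.2 ((mem_adjoin_of_map J).1 (hψ i a ▸ (hB i).mem (htg i) a))) γ
  obtain ⟨hun, hε, h6, γ₀, γ₁, hγ, hγ'⟩ := exists_generators ht hz hzg hT hρ hf
  obtain ⟨y, hy0, hy6, hy⟩ := exists_root (ht j) hz hzg (hT j) hχ (hρ j) hun (c := -4 / 27)
    (by norm_num)
  have key : ∀ i, i ≠ j → ∃ X Y : Ω, Y ^ 2 = X ^ 3 + (2 * J z - 1) ^ 2 - 1 ∧
      (∀ E : IntermediateField ℂ Ω, X ∈ E → Y ∈ E → (∀ m, J m ∈ E) →
        ∃ u : F i, IsCoord ℂ u ∧ κ (ι i u) ∈ E) ∧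
      ∀ (δ : Ω →ₐ[ℂ] Ω) (γ : Γ), δ X = X → δ Y = Y → (∀ m, δ (J m) = J (γ • m)) →
        ∀ f, δ (κ (ι i f)) = κ (ι i (ρ j γ • f)) := fun i hi => by
    obtain ⟨⟨f, hf0, hf⟩, h5, a, b, c, h7, -, h8, h9⟩ := hE i hi
    obtain ⟨p, hp, hp'⟩ := h6 i
    obtain ⟨X, Y, hXY, τ, hX, hXg, hτ, -⟩ := exists_affine (hx i) hf0 hf h5 hχ hp
    have h10 := surjective_of_quad (ht i) (htg i) hz hzg
      (J.injective ((hψ i _).trans ((hφ' i hi).trans (by simp)))) (hρ i) h7 h8 h9 hp hp'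
    obtain ⟨s, hs⟩ := exists_coc (ε := χ.comp (ρ j)) hχ (Coc.isCoc hχ hτ) (fun _ => rfl)
      (hε i j) h10 hγ (hγ' j).1 (hγ' j).2 (S := Pt.map (ψ i) (Pt.mk X Y hXY)) fun γ => by
        have h11 : (act M γ).comp (ψ i) = (ψ i).comp (act (F i) (ρ i γ)) := AlgHom.ext (hρ i γ)
        rw [Pt.map_map, h11, ← Pt.map_map, hτ, map_add, Pt.map_rot, Pt.map_cst, hε i j]
        rfl
    obtain ⟨X', Y', h11, h12, h13⟩ := exists_twist
      (Pt.map (κ.comp (ι i)) (Pt.mk X Y hXY) - Pt.map J s) ((_root_.map_ne_zero J).2 hy0)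
    refine ⟨X', Y', ?_, fun E h14 h15 h16 => ⟨X, hX, ?_⟩, fun δ γ h14 h15 h16 => ?_⟩
    · rw [h11, ← map_pow, hy6, map_mul, map_mul, map_sub, map_one, AlgHom.commutes, map_div₀,
        map_neg, map_ofNat, map_ofNat]
      ring
    · have h17 := add_mem (h12 E h14 h15 (h16 y)) (Pt.map_mem_range E J h16 s)
      rw [sub_add_cancel, Pt.map_mk, Pt.mem_range_iff] at h17
      exact h17.1
    · have h17 := h13 δ (χ (ρ j γ)) (hχ _) h14 h15 (by rw [h16, hy, map_mul, AlgHom.commutes])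
      have h18 : δ.comp J = J.comp (act M γ) := AlgHom.ext h16
      rw [map_sub, map_sub, Pt.map_map J, h18, ← Pt.map_map _ J, hs γ, map_add, Pt.map_rot,
        Pt.map_cst, sub_add_eq_sub_sub_swap, MonoidHom.comp_apply, sub_left_inj, sub_eq_iff_eq_add,
        ← Pt.map_cst (κ.comp (ι i)), ← Pt.map_rot, ← map_add] at h17
      replace h17 := h17.trans (congrArg _ (hτ (ρ j γ)).symm)
      rw [Pt.map_map, Pt.map_map, Pt.map_mk, Pt.map_mk, Pt.mk_eq_mk] at h17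
      refine algHom_ext_of_adjoin hXg (φ := δ.comp (κ.comp (ι i)))
        (ψ := (κ.comp (ι i)).comp (act (F i) (ρ j γ))) ?_
      rintro _ (rfl | rfl)
      exacts [h17.1, h17.2]
  choose X Y hXY h7 h8 using fun l => key (j.succAbove l) (j.succAbove_ne l)
  refine uniruled_of_U1' (κ.comp (Fix ℂ K G).val) S.trdeg_fix _ X Y hXY fun a => ?_
  generalize hE' : adjoin ℂ ({2 * J z - 1} ∪ Set.range X ∪ Set.range Y) = E
  have hX : ∀ l, X l ∈ E := fun l => hE' ▸ subset_adjoin _ _ (Or.inl (Or.inr ⟨l, rfl⟩))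
  have hY : ∀ l, Y l ∈ E := fun l => hE' ▸ subset_adjoin _ _ (Or.inr ⟨l, rfl⟩)
  have hzE : J z ∈ E := by
    have h9 : 2 * J z - 1 ∈ E := hE' ▸ subset_adjoin _ _ (Or.inl (Or.inl rfl))
    have := div_mem (add_mem h9 (one_mem _)) (ofNat_mem E 2)
    rwa [sub_add_cancel, mul_div_cancel_left₀ _ two_ne_zero] at this
  refine mem_of_fixed (K := K) E (fun b => ?_) fun δ hδ => ?_
  · let E' := (algebraicClosure E Ω).restrictScalars ℂ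
    have h9 : ∀ m, J m ∈ E' := fun m => mem_algebraicClosure_iff.2 (hz.isAlgebraic_map J E hzE m)
    have h10 : ∀ i, ∃ u : F i, IsCoord ℂ u ∧ κ (ι i u) ∈ E' := fun i => by
      rcases Fin.eq_self_or_eq_succAbove j i with rfl | ⟨l, rfl⟩
      · refine ⟨t i, ht i, ?_⟩
        have := h9 (ψ i (t i))
        rwa [hψ, hφ i rfl] at this
      · exact h7 l E' ((algebraicClosure E Ω).algebraMap_mem ⟨_, hX l⟩)
          ((algebraicClosure E Ω).algebraMap_mem ⟨_, hY l⟩) h9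
    choose u hu hu' using h10
    exact ((S.isAlgebraic u hu (E'.comap κ) hu' b).ringHom_of_comp_eq
      (((algebraMap K Ω).comp (algebraMap (E'.comap κ) K)).codRestrict (algebraicClosure E Ω)
        fun c => c.2) (algebraMap K Ω) (RingHom.injective _) rfl).restrictScalars E
  · obtain ⟨γ, h9⟩ := exists_smul_of_agree' hzg J (δ.comp J) (hδ _ hzE).symm
    have h10 := algHom_ext_of_adjoin S.gen (φ := δ.comp κ) (ψ := κ.comp (act K (ρ j γ))) (by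
      intro b hb
      obtain ⟨i, f, rfl⟩ := Set.mem_iUnion.1 hb
      change δ (κ (ι i f)) = κ (ρ j γ • ι i f)
      rw [S.equiv]
      rcases Fin.eq_self_or_eq_succAbove j i with rfl | ⟨l, rfl⟩
      · have := h9 (ψ i f)
        rwa [AlgHom.comp_apply, hρ, hψ, hψ, hφ i rfl] at this
      · exact h8 l δ γ (hδ _ (hX l)) (hδ _ (hY l)) h9 f) a
    exact h10.trans (congrArg κ (smul_fix _ a))

end Pool.Agent.Lib.MP_e06174_ag
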