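import Pool.Agent.Lib.MP_e06174_ag.Cubic

/-! The fourfold `Y_i^2 = X_i^3 + s^2 - 1` (`i = 1, 2, 3`) is uniruled: it is dominated by a family
of diagonal cubic surfaces over a plane. -/

set_option linter.unusedSectionVars false

open IntermediateField Polynomial

namespace Pool.Agent.Lib.MP_e06174_ag

section

variable {k Ω : Type*} [Field k] [Field Ω] [Algebra k Ω] [IsAlgClosed Ω] [CharZero Ω]

lemma conic_lin (M : IntermediateField k Ω) {c₂ c₁ c₀ m p : Ω} (h2 : c₂ ∈ M) (h1 : c₁ ∈ M)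
    (h0 : c₀ ∈ M) (h : 3 * m ^ 2 + c₂ * p ^ 2 + c₁ * p + c₀ = 0) :
    ∃ s t : Ω, IsAlgebraic M s ∧ ∀ E : IntermediateField k Ω, M ≤ E → s ∈ E → t ∈ E →
      m ∈ E ∧ p ∈ E := by
  by_cases g2 : c₂ = 0
  · by_cases g1 : c₁ = 0
    · exact conic_aux M (ofNat_mem M 3) h2 (neg_mem h0) (a := m) (b := p)
        (by linear_combination h - p * g1) (by norm_num)
    · refine ⟨0, m, isAlgebraic_zero, fun E hE _ hm => ⟨hm, ?_⟩⟩
      have h3 : p = -(3 * m ^ 2 + c₀) / c₁ := by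
        field_simp
        linear_combination h - p ^ 2 * g2
      rw [h3]
      exact div_mem (neg_mem (add_mem (mul_mem (ofNat_mem E 3) (pow_mem hm 2)) (hE h0))) (hE h1)
  · have h3 : c₁ / (2 * c₂) ∈ M := div_mem h1 (mul_mem (ofNat_mem M 2) h2)
    obtain ⟨s, t, h4, h5⟩ := conic_aux M (ofNat_mem M 3) h2
      (sub_mem (mul_mem h2 (pow_mem h3 2)) h0) (a := m) (b := p + c₁ / (2 * c₂))
      (by field_simp; linear_combination 4 * c₂ * h) (by norm_num)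
    refine ⟨s, t, h4, fun E hE hs ht => ⟨(h5 E hE hs ht).1, ?_⟩⟩
    simpa using sub_mem (h5 E hE hs ht).2 (hE h3)

/-- The three elements lie in a field obtained from `M` by adjoining one element, then finitely many
algebraic elements, then one more element. -/
def Ruled3 (M : IntermediateField k Ω) (a b c : Ω) : Prop :=
  ∃ l : Ω, ∀ N : IntermediateField k Ω, M ≤ N → l ∈ N → ∃ (S : Set Ω) (t : Ω), S.Finite ∧
    (∀ z ∈ S, IsAlgebraic N z) ∧ ∀ E : IntermediateField k Ω, N ≤ E → (∀ z ∈ S, z ∈ E) → t ∈ E →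
      a ∈ E ∧ b ∈ E ∧ c ∈ E

lemma Ruled3.swap {M : IntermediateField k Ω} {a b c : Ω} (h : Ruled3 M a b c) :
    Ruled3 M b a c := by
  obtain ⟨l, h⟩ := h
  refine ⟨l, fun N h1 h2 => ?_⟩
  obtain ⟨S, t, h3, h4, h5⟩ := h N h1 h2
  exact ⟨S, t, h3, h4, fun E g1 g2 g3 =>
    ⟨(h5 E g1 g2 g3).2.1, (h5 E g1 g2 g3).1, (h5 E g1 g2 g3).2.2⟩⟩

lemma Ruled3.rot {M : IntermediateField k Ω} {a b c : Ω} (h : Ruled3 M a b c) :
    Ruled3 M b c a := by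
  obtain ⟨l, h⟩ := h
  refine ⟨l, fun N h1 h2 => ?_⟩
  obtain ⟨S, t, h3, h4, h5⟩ := h N h1 h2
  exact ⟨S, t, h3, h4, fun E g1 g2 g3 =>
    ⟨(h5 E g1 g2 g3).2.1, (h5 E g1 g2 g3).2.2, (h5 E g1 g2 g3).1⟩⟩

lemma ruled3_of_curve (M : IntermediateField k Ω) {α β δ a b : Ω} (c : Ω) (hα : α ∈ M)
    (hβ : β ∈ M) (hδ : δ ∈ M) (h : α * a ^ 3 + β * b ^ 3 = δ) (h0 : α ≠ 0) : Ruled3 M a b c := by
  refine ⟨b, fun N h1 h2 => ⟨{a}, c, Set.finite_singleton a, ?_, fun E g1 g2 g3 =>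
    ⟨g2 a rfl, g1 h2, g3⟩⟩⟩
  intro z hz
  rw [Set.mem_singleton_iff.1 hz]
  refine isAlgebraic_of_pow_mem three_pos ?_
  have h3 : a ^ 3 = (δ - β * b ^ 3) / α := by field_simp; linear_combination h
  rw [h3]
  exact div_mem (sub_mem (h1 hδ) (mul_mem (h1 hβ) (pow_mem h2 3))) (h1 hα)

lemma ruled3_fermat (M : IntermediateField k Ω) {e a b c : Ω} (he : e ∈ M)
    (h : a ^ 3 + b ^ 3 + c ^ 3 = e ^ 3) : Ruled3 M a b c := by
  by_cases h0 : a + b = 0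
  · have h1 : c ^ 3 = e ^ 3 := by
      linear_combination h - (a ^ 2 - a * b + b ^ 2) * h0
    refine ⟨0, fun N h2 _ => ⟨{c}, a, Set.finite_singleton c, ?_, fun E _ g2 g3 =>
      ⟨g3, ?_, g2 c rfl⟩⟩⟩
    · rintro _ rfl
      exact isAlgebraic_of_pow_mem three_pos (h1 ▸ pow_mem (h2 he) 3)
    · rw [eq_neg_of_add_eq_zero_right h0]
      exact neg_mem g3
  obtain ⟨l, hl⟩ : ∃ l, c = e + l * (a + b) := ⟨(c - e) / (a + b), by field_simp; ring⟩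
  refine ⟨l, fun N h1 h2 => ?_⟩
  have h3 := h1 he
  obtain ⟨s, t, h4, h5⟩ := conic_lin N (c₂ := 1 + 4 * l ^ 3) (c₁ := 12 * l ^ 2 * e)
    (c₀ := 12 * l * e ^ 2) (m := a - b) (p := a + b)
    (add_mem (one_mem N) (mul_mem (ofNat_mem N 4) (pow_mem h2 3)))
    (mul_mem (mul_mem (ofNat_mem N 12) (pow_mem h2 2)) h3)
    (mul_mem (mul_mem (ofNat_mem N 12) h2) (pow_mem h3 2)) (by
      apply mul_left_cancel₀ h0
      rw [hl] at h
      linear_combination 4 * h)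
  refine ⟨{s}, t, Set.finite_singleton s, by rintro _ rfl; exact h4, fun E g1 g2 g3 => ?_⟩
  obtain ⟨g4, g5⟩ := h5 E g1 (g2 s rfl) g3
  have g6 : (2 : Ω) ∈ E := ofNat_mem E 2
  refine ⟨?_, ?_, ?_⟩
  · convert div_mem (add_mem g5 g4) g6 using 1; ring
  · convert div_mem (sub_mem g5 g4) g6 using 1; ring
  · rw [hl]
    exact add_mem (g1 h3) (mul_mem (g1 h2) g5)

lemma ruled3_diag (M : IntermediateField k Ω) {α β γ δ a b c : Ω} (hα : α ∈ M) (hβ : β ∈ M)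
    (hγ : γ ∈ M) (hδ : δ ∈ M) (h : α * a ^ 3 + β * b ^ 3 + γ * c ^ 3 = δ)
    (h0 : α ≠ 0 ∨ β ≠ 0) : Ruled3 M a b c := by
  by_cases g3 : γ = 0
  · rcases h0 with h0 | h0
    · exact ruled3_of_curve M c hα hβ hδ (by linear_combination h - c ^ 3 * g3) h0
    · exact (ruled3_of_curve M c hβ hα hδ (by linear_combination h - c ^ 3 * g3) h0).swap
  by_cases g1 : α = 0
  · exact (ruled3_of_curve M a hγ hβ hδ (by linear_combination h - a ^ 3 * g1) g3).swap.rot.rot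
  by_cases g2 : β = 0
  · exact (ruled3_of_curve M b hγ hα hδ (by linear_combination h - b ^ 3 * g2) g3).rot
  obtain ⟨ε, e, hε, hε0, he, hεe⟩ : ∃ ε e : Ω, ε ∈ M ∧ ε ≠ 0 ∧ e ∈ M ∧ ε * δ = e ^ 3 := by
    by_cases g4 : δ = 0
    · exact ⟨1, 0, one_mem M, one_ne_zero, zero_mem M, by simp [g4]⟩
    · exact ⟨δ⁻¹, 1, inv_mem hδ, inv_ne_zero g4, one_mem M, by simp [g4]⟩
  obtain ⟨ρ, hρ⟩ := IsAlgClosed.exists_pow_nat_eq (ε * α) three_pos
  obtain ⟨σ, hσ⟩ := IsAlgClosed.exists_pow_nat_eq (ε * β) three_pos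
  obtain ⟨τ, hτ⟩ := IsAlgClosed.exists_pow_nat_eq (ε * γ) three_pos
  have hρ0 : ρ ≠ 0 := by rintro rfl; exact mul_ne_zero hε0 g1 (by simpa using hρ.symm)
  have hσ0 : σ ≠ 0 := by rintro rfl; exact mul_ne_zero hε0 g2 (by simpa using hσ.symm)
  have hτ0 : τ ≠ 0 := by rintro rfl; exact mul_ne_zero hε0 g3 (by simpa using hτ.symm)
  obtain ⟨l, hl⟩ := ruled3_fermat M (a := ρ * a) (b := σ * b) (c := τ * c) he (by
    simp only [mul_pow, hρ, hσ, hτ]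
    linear_combination ε * h + hεe)
  refine ⟨l, fun N h1 h2 => ?_⟩
  obtain ⟨S, t, h3, h4, h5⟩ := hl N h1 h2
  refine ⟨insert ρ (insert σ (insert τ S)), t, ((h3.insert τ).insert σ).insert ρ, ?_,
    fun E e1 e2 e3 => ?_⟩
  · rintro _ (rfl | rfl | rfl | h6)
    · exact isAlgebraic_of_pow_mem three_pos (hρ ▸ h1 (mul_mem hε hα))
    · exact isAlgebraic_of_pow_mem three_pos (hσ ▸ h1 (mul_mem hε hβ))
    · exact isAlgebraic_of_pow_mem three_pos (hτ ▸ h1 (mul_mem hε hγ))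
    · exact h4 _ h6
  obtain ⟨e4, e5, e6⟩ := h5 E e1 (fun z hz => e2 z (Or.inr (Or.inr (Or.inr hz)))) e3
  refine ⟨?_, ?_, ?_⟩
  · simpa [hρ0] using div_mem e4 (e2 ρ (Or.inl rfl))
  · simpa [hσ0] using div_mem e5 (e2 σ (Or.inr (Or.inl rfl)))
  · simpa [hτ0] using div_mem e6 (e2 τ (Or.inr (Or.inr (Or.inl rfl))))

lemma exists_cubic_lift {s X Y : Ω} (h : Y ^ 2 = X ^ 3 + s ^ 2 - 1) (hs : s ^ 2 ≠ 1) :
    ∃ x u : Ω, u ≠ 0 ∧ u ^ 3 = x ^ 3 - 3 * x + 2 * s ∧ X * u ^ 2 = x ^ 2 - 2 * s * x + 1 ∧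
      Y * u ^ 3 = s * x ^ 3 - 3 * x ^ 2 + 3 * s * x + 1 - 2 * s ^ 2 := by
  obtain ⟨x, hx⟩ := IsAlgClosed.exists_root
    (C (Y - s) * Polynomial.X ^ 3 + C 3 * Polynomial.X ^ 2 - C (3 * (Y + s)) * Polynomial.X +
      C (2 * s * Y - 1 + 2 * s ^ 2) : Polynomial Ω) (by
      intro h1
      have h2 := congrArg (fun p => coeff p 2) (eq_C_of_degree_eq_zero h1)
      simp only [coeff_add, coeff_sub, coeff_C_mul, coeff_X_pow, coeff_X, coeff_C] at h2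
      norm_num at h2)
  simp only [IsRoot.def, eval_add, eval_sub, eval_mul, eval_pow, eval_X, eval_C] at hx
  have h1 : Y * (x ^ 3 - 3 * x + 2 * s) = s * x ^ 3 - 3 * x ^ 2 + 3 * s * x + 1 - 2 * s ^ 2 := by
    linear_combination hx
  have h2 : X ^ 3 * (x ^ 3 - 3 * x + 2 * s) ^ 2 = (x ^ 2 - 2 * s * x + 1) ^ 3 := by
    linear_combination (Y * (x ^ 3 - 3 * x + 2 * s) +
      (s * x ^ 3 - 3 * x ^ 2 + 3 * s * x + 1 - 2 * s ^ 2)) * h1 - (x ^ 3 - 3 * x + 2 * s) ^ 2 * h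
  have h3 : x ^ 3 - 3 * x + 2 * s ≠ 0 := fun h3 => by
    have h4 : x ^ 2 - 2 * s * x + 1 = 0 := pow_eq_zero_iff (three_ne_zero) |>.1 (by
      rw [← h2, h3]; ring)
    have h5 : (s ^ 2 - 1) * x = 0 := by linear_combination (h3 - (x + 2 * s) * h4) / 4
    rcases mul_eq_zero.1 h5 with h6 | h6
    · exact hs (by linear_combination h6)
    · rw [h6] at h4; norm_num at h4
  suffices h4 : ∃ u : Ω, u ^ 3 = x ^ 3 - 3 * x + 2 * s ∧ X * u ^ 2 = x ^ 2 - 2 * s * x + 1 by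
    obtain ⟨u, h4, h5⟩ := h4
    exact ⟨x, u, by rintro rfl; exact h3 (by simpa using h4.symm), h4, h5, by rw [h4, h1]⟩
  generalize x ^ 2 - 2 * s * x + 1 = H, x ^ 3 - 3 * x + 2 * s = f at h2 h3 ⊢
  by_cases h4 : H = 0
  · obtain ⟨u, hu⟩ := IsAlgClosed.exists_pow_nat_eq f three_pos
    have h5 : X = 0 := by simpa [h4, h3] using h2
    exact ⟨u, hu, by simp [h4, h5]⟩
  · refine ⟨X * f / H, ?_, ?_⟩
    · field_simp
      linear_combination h2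
    · field_simp
      linear_combination h2

theorem exists_pencil_U1 (s : Ω) (X Y : Fin 3 → Ω) (hXY : ∀ i, Y i ^ 2 = X i ^ 3 + s ^ 2 - 1)
    (hs : s ^ 2 ≠ 1) (hX : ∀ i j, i ≠ j → X i ^ 3 ≠ X j ^ 3) :
    ∃ (y : Fin 3 → Ω) (S : Set Ω) (t : Ω), S.Finite ∧
      (∀ a ∈ S, IsAlgebraic (adjoin k (Set.range y)) a) ∧
      s ∈ adjoin k (Set.range y ∪ S ∪ {t}) ∧
      ∀ i, X i ∈ adjoin k (Set.range y ∪ S ∪ {t}) ∧ Y i ∈ adjoin k (Set.range y ∪ S ∪ {t}) := by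
  choose x u h0 h1 h2 h3 using fun i => exists_cubic_lift (hXY i) hs
  have hx : ∀ i j, i ≠ j → x i - x j ≠ 0 := fun i j hij h4 => hX i j hij (by
    have h4 := sub_eq_zero.1 h4
    have h5 : u i ^ 3 = u j ^ 3 := by rw [h1, h1, h4]
    have h6 : (X i * u i ^ 2) ^ 3 = (X j * u j ^ 2) ^ 3 := by rw [h2, h2, h4]
    apply mul_right_cancel₀ (pow_ne_zero 6 (h0 i))
    linear_combination h6 - X j ^ 3 * (u i ^ 3 + u j ^ 3) * h5)
  obtain ⟨μ, hμ⟩ : ∃ μ, μ = x 0 - x 1 := ⟨_, rfl⟩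
  have hμ0 : μ ≠ 0 := hμ ▸ hx 0 1 (by decide)
  obtain ⟨b, hb⟩ : ∃ b : Fin 3 → Ω, ∀ i, x i = 1 + μ * b i :=
    ⟨fun i => (x i - 1) / μ, fun i => by field_simp; ring⟩
  obtain ⟨v, hv⟩ : ∃ v : Fin 3 → Ω, ∀ i, u i = μ * v i :=
    ⟨fun i => u i / μ, fun i => by field_simp⟩
  have hb0 : b 0 = b 1 + 1 := by
    apply mul_left_cancel₀ hμ0
    linear_combination hb 1 - hb 0 - hμ
  have hbb : ∀ i j, i ≠ j → b i - b j ≠ 0 := fun i j hij h4 => hx i j hij (by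
    rw [hb, hb]; linear_combination μ * h4)
  have hrel : ∀ i, v i ^ 3 = b i ^ 3 + b i ^ 2 * (3 / μ) + (2 * s - 2) / μ ^ 3 := fun i => by
    have h4 := h1 i
    rw [hb, hv] at h4
    field_simp
    linear_combination h4
  have hne : b 1 ^ 2 - b 2 ^ 2 ≠ 0 ∨ b 2 ^ 2 - b 0 ^ 2 ≠ 0 := by
    by_contra h4
    push Not at h4
    have h5 : b 1 + b 2 = 0 := mul_left_cancel₀ (hbb 1 2 (by decide)) (by linear_combination h4.1)
    have h6 : b 2 + b 0 = 0 := mul_left_cancel₀ (hbb 2 0 (by decide)) (by linear_combination h4.2)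
    exact hbb 0 1 (by decide) (by linear_combination h6 - h5)
  have hM : ∀ N : IntermediateField k Ω, b 1 ∈ N → b 2 ∈ N → ∀ i, b i ∈ N := fun N g1 g2 i => by
    fin_cases i
    exacts [show b 0 ∈ N from hb0 ▸ add_mem g1 (one_mem N), g1, g2]
  have hbM := hM (adjoin k {b 1, b 2}) (subset_adjoin _ _ (Or.inl rfl))
    (subset_adjoin _ _ (Or.inr rfl))
  have hsq : ∀ i j, b i ^ 2 - b j ^ 2 ∈ adjoin k {b 1, b 2} := fun i j =>
    sub_mem (pow_mem (hbM i) 2) (pow_mem (hbM j) 2)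
  obtain ⟨l, hl⟩ := ruled3_diag (adjoin k {b 1, b 2}) (a := v 0) (b := v 1) (c := v 2)
    (hsq 1 2) (hsq 2 0) (hsq 0 1)
    (add_mem (add_mem (mul_mem (hsq 1 2) (pow_mem (hbM 0) 3))
      (mul_mem (hsq 2 0) (pow_mem (hbM 1) 3))) (mul_mem (hsq 0 1) (pow_mem (hbM 2) 3)))
    (by rw [hrel, hrel, hrel]; ring) hne
  let y : Fin 3 → Ω := ![b 1, b 2, l]
  have hy : ∀ i, y i ∈ adjoin k (Set.range y) := fun i => subset_adjoin _ _ ⟨i, rfl⟩
  obtain ⟨S, t, g1, g2, g3⟩ := hl (adjoin k (Set.range y))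
    (adjoin_le_iff.2 (by rintro _ (rfl | rfl); exacts [hy 0, hy 1])) (hy 2)
  refine ⟨y, S, t, g1, g2, ?_⟩
  set E := adjoin k (Set.range y ∪ S ∪ {t})
  have hle : adjoin k (Set.range y) ≤ E :=
    adjoin.mono _ _ _ (Set.subset_union_left.trans Set.subset_union_left)
  obtain ⟨g4, g5, g6⟩ := g3 E hle (fun z hz => subset_adjoin _ _ (Or.inl (Or.inr hz)))
    (subset_adjoin _ _ (Or.inr rfl))
  have hvE : ∀ i, v i ∈ E := fun i => by fin_cases i; exacts [g4, g5, g6]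
  have hbE := hM E (hle (hy 0)) (hle (hy 1))
  have hP : ∀ i j, b i ^ 2 - b j ^ 2 ≠ 0 → 3 / μ ∈ E := fun i j hij => by
    have h4 : 3 / μ = (v i ^ 3 - b i ^ 3 - (v j ^ 3 - b j ^ 3)) / (b i ^ 2 - b j ^ 2) := by
      rw [eq_div_iff hij, hrel, hrel]; ring
    rw [h4]
    exact div_mem (sub_mem (sub_mem (pow_mem (hvE i) 3) (pow_mem (hbE i) 3))
      (sub_mem (pow_mem (hvE j) 3) (pow_mem (hbE j) 3)))
      (sub_mem (pow_mem (hbE i) 2) (pow_mem (hbE j) 2))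
  have hμE : μ ∈ E := by
    have h4 : μ = 3 / (3 / μ) := by field_simp
    rw [h4]
    exact div_mem (ofNat_mem E 3) (hne.elim (hP 1 2) (hP 2 0))
  have hxE : ∀ i, x i ∈ E := fun i => hb i ▸ add_mem (one_mem E) (mul_mem hμE (hbE i))
  have huE : ∀ i, u i ∈ E := fun i => hv i ▸ mul_mem hμE (hvE i)
  have hsE : s ∈ E := by
    have h4 : s = (u 0 ^ 3 - x 0 ^ 3 + 3 * x 0) / 2 := by rw [h1]; ring
    rw [h4]
    exact div_mem (add_mem (sub_mem (pow_mem (huE 0) 3) (pow_mem (hxE 0) 3))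
      (mul_mem (ofNat_mem E 3) (hxE 0))) (ofNat_mem E 2)
  refine ⟨hsE, fun i => ?_⟩
  have hxi := hxE i
  have hui := huE i
  rw [eq_div_of_mul_eq (pow_ne_zero 2 (h0 i)) (h2 i), eq_div_of_mul_eq (pow_ne_zero 3 (h0 i)) (h3 i)]
  constructor <;> repeat first
    | assumption | exact ofNat_mem E _ | exact one_mem E | apply div_mem | apply add_mem
    | apply sub_mem | apply mul_mem | apply pow_mem

end

theorem uniruled_of_U1 {L K : Type} [Field L] [Field K] [Algebra ℂ L] [Algebra ℂ K]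
    (φ : L →ₐ[ℂ] K) (hL : Algebra.trdeg ℂ L = (4 : ℕ)) (s : K) (X Y : Fin 3 → K)
    (hXY : ∀ i, Y i ^ 2 = X i ^ 3 + s ^ 2 - 1) (hs : s ^ 2 ≠ 1)
    (hX : ∀ i j, i ≠ j → X i ^ 3 ≠ X j ^ 3)
    (h : ∀ a, φ a ∈ adjoin ℂ ({s} ∪ Set.range X ∪ Set.range Y)) : Uniruled ℂ L := by
  let ψ := IsScalarTower.toAlgHom ℂ K (AlgebraicClosure K)
  have : CharZero (AlgebraicClosure K) := charZero_of_injective_algebraMap
    (algebraMap ℂ (AlgebraicClosure K)).injective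
  obtain ⟨y, S, t, h1, h2, h3, h4⟩ := exists_pencil_U1 (k := ℂ) (ψ s) (fun i => ψ (X i))
    (fun i => ψ (Y i))
    (fun i => by rw [← map_pow, hXY, map_sub, map_add, map_pow, map_pow, map_one])
    (fun h1 => hs (ψ.injective (by rwa [map_pow, map_one])))
    fun i j hij h1 => hX i j hij (ψ.injective (by rwa [map_pow, map_pow]))
  refine uniruled_of_adjoin (ψ.comp φ) hL y S h1 h2 t fun a => ?_
  refine (adjoin_le_iff (T := comap ψ (adjoin ℂ (Set.range y ∪ S ∪ {t}))).2 ?_) (h a)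
  rintro _ ((rfl | ⟨i, rfl⟩) | ⟨i, rfl⟩)
  exacts [h3, (h4 i).1, (h4 i).2]

end Pool.Agent.Lib.MP_e06174_ag
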