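import Pool.Agent.Lib.MP_e06174_ag.Aff
import Pool.Agent.Lib.MP_e06174_ag.U1

/-! Galois-theoretic and cohomological preliminaries for the trivialization of torsors. -/

set_option linter.unusedSectionVars false

open Polynomial IntermediateField Module MulAction

namespace Pool.Agent.Lib.MP_e06174_ag

open Place

lemma algHom_ext_of_adjoin {F Ω : Type} [Field F] [Algebra ℂ F] [Field Ω] [Algebra ℂ Ω]
    {s : Set F} (hs : adjoin ℂ s = ⊤) {φ ψ : F →ₐ[ℂ] Ω} (h : ∀ a ∈ s, φ a = ψ a) (a : F) :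
    φ a = ψ a := by
  have ha : a ∈ adjoin ℂ s := hs ▸ mem_top
  induction ha using adjoin_induction with
  | mem a ha => exact h a ha
  | algebraMap c => rw [AlgHom.commutes, AlgHom.commutes]
  | add a b _ _ ha hb => rw [map_add, map_add, ha, hb]
  | inv a _ ha => rw [map_inv₀, map_inv₀, ha]
  | mul a b _ _ ha hb => rw [map_mul, map_mul, ha, hb]

lemma exists_smul_of_agree (G : Type) {F Ω : Type} [Field F] [Algebra ℂ F] [Group G] [Finite G]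
    [MulSemiringAction G F] [SMulCommClass G ℂ F] [Field Ω] [Algebra ℂ Ω] (φ ψ : F →ₐ[ℂ] Ω)
    (h : ∀ a : Fix ℂ F G, φ a = ψ a) : ∃ g : G, ∀ f, ψ f = φ (g • f) := by
  let _ : Algebra F Ω := φ.toRingHom.toAlgebra
  have : Normal (Fix ℂ F G) F := inferInstanceAs (Normal (FixedPoints.subfield G F) F)
  let ψ' : F →ₐ[Fix ℂ F G] Ω := { ψ.toRingHom with commutes' := fun a => (h a).symm }
  obtain ⟨g, hg⟩ := FixedPoints.toAlgAut_surjective G F (ψ'.restrictNormal' F)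
  refine ⟨g, fun f => ?_⟩
  have h1 : g • f = ψ'.restrictNormal F f := DFunLike.congr_fun hg f
  rw [h1]
  exact (ψ'.restrictNormal_commutes F f).symm

lemma exists_hom_of_fix (G Γ : Type) {F M : Type} [Field F] [Algebra ℂ F] [Group G] [Finite G]
    [MulSemiringAction G F] [SMulCommClass G ℂ F] [FaithfulSMul G F] [Field M] [Algebra ℂ M]
    [Group Γ] [MulSemiringAction Γ M] [SMulCommClass Γ ℂ M] (ψ : F →ₐ[ℂ] M)
    (h : ∀ (a : Fix ℂ F G) (γ : Γ), γ • ψ a = ψ a) :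
    ∃ ρ : Γ →* G, ∀ γ f, γ • ψ f = ψ (ρ γ • f) := by
  choose ρ hρ using fun γ : Γ => exists_smul_of_agree G ψ ((act M γ).comp ψ) fun a => (h a γ).symm
  replace hρ : ∀ γ f, γ • ψ f = ψ (ρ γ • f) := hρ
  refine ⟨MonoidHom.mk' ρ fun γ δ => eq_of_smul_eq_smul (α := F) fun f => ψ.injective ?_, hρ⟩
  change ψ _ = ψ _
  rw [← hρ, mul_smul, hρ δ, hρ γ, mul_smul]

lemma card_le_of_isAlgebraic {Ω : Type} [Field Ω] [Algebra ℂ Ω] {m n : ℕ} {v : Fin m → Ω}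
    (hv : AlgebraicIndependent ℂ v) (y : Fin n → Ω)
    (h : ∀ i, IsAlgebraic (adjoin ℂ (Set.range y)) (v i)) : m ≤ n := by
  let E := adjoin ℂ (Set.range y)
  let E' := algebraicClosure E Ω
  have h1 : Algebra.trdeg ℂ E' ≤ n := by
    rw [← trdeg_add_eq ℂ E (A := E'), trdeg_eq_zero (R := E) (A := E'), add_zero]
    exact trdeg_adjoin_le y
  let v' : Fin m → E' := fun i => ⟨v i, mem_algebraicClosure_iff.2 (h i)⟩
  have h2 : AlgebraicIndependent ℂ v' :=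
    AlgebraicIndependent.of_comp (E'.val.restrictScalars ℂ) hv
  have h3 := h2.cardinalMk_le_trdeg.trans h1
  simpa using h3

theorem uniruled_of_U1' {L K : Type} [Field L] [Field K] [Algebra ℂ L] [Algebra ℂ K]
    (φ : L →ₐ[ℂ] K) (hL : Algebra.trdeg ℂ L = (4 : ℕ)) (s : K) (X Y : Fin 3 → K)
    (hXY : ∀ i, Y i ^ 2 = X i ^ 3 + s ^ 2 - 1)
    (h : ∀ a, φ a ∈ adjoin ℂ ({s} ∪ Set.range X ∪ Set.range Y)) : Uniruled ℂ L := by
  classical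
  have halg : ∀ {E : IntermediateField ℂ K} {a : K} {n : ℕ}, 0 < n → a ^ n ∈ E → IsAlgebraic E a :=
    fun {E _ _} hn ha => IsAlgebraic.of_pow hn (isAlgebraic_algebraMap (⟨_, ha⟩ : E))
  have key : ∀ y : Fin 3 → K, s ^ 2 ∈ adjoin ℂ (Set.range y) →
      (∀ i, X i ^ 3 ∈ adjoin ℂ (Set.range y)) → Uniruled ℂ L := fun y h1 h2 => by
    refine uniruled_of_adjoin φ hL y ({s} ∪ Set.range X ∪ Set.range Y)
      (((Set.finite_singleton s).union (Set.finite_range X)).union (Set.finite_range Y)) ?_ 0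
      fun a => adjoin.mono _ _ _ (Set.subset_union_right.trans Set.subset_union_left) (h a)
    rintro _ ((rfl | ⟨i, rfl⟩) | ⟨i, rfl⟩)
    · exact halg two_pos h1
    · exact halg three_pos (h2 i)
    · exact halg two_pos (hXY i ▸ sub_mem (add_mem (h2 i) h1) (one_mem _))
  by_cases hs : s ^ 2 = 1
  · exact key X (hs ▸ one_mem _) fun i => _root_.pow_mem (subset_adjoin ℂ _ (Set.mem_range_self i)) 3
  by_cases hX : ∀ i j, i ≠ j → X i ^ 3 ≠ X j ^ 3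
  · exact uniruled_of_U1 φ hL s X Y hXY hs hX h
  push Not at hX
  obtain ⟨i, j, hij, hX⟩ := hX
  have h1 : ∀ l, l ≠ i → X l ^ 3 ∈ adjoin ℂ (Set.range (Function.update X i s)) := fun l hl =>
    _root_.pow_mem (subset_adjoin ℂ _ (Set.mem_range.2 ⟨l, Function.update_of_ne hl _ _⟩)) 3
  refine key (Function.update X i s)
    (_root_.pow_mem (subset_adjoin ℂ _ (Set.mem_range.2 ⟨i, Function.update_self _ _ _⟩)) 2) fun l => ?_
  by_cases hl : l = i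
  · rw [hl, hX]; exact h1 j hij.symm
  · exact h1 l hl

namespace Pt

variable {K L : Type} [Field K] [Algebra ℂ K] [Field L] [Algebra ℂ L]

lemma rot_comm (c d : ℂ) (P : Pt K) : rot c (rot d P) = rot d (rot c P) := by
  by_cases hc : c ^ 6 = 1
  · by_cases hd : d ^ 6 = 1
    · rw [rot_rot hc hd, rot_rot hd hc, mul_comm]
    · simp [rot, hd]
  · simp [rot, hc]

lemma cst_rot (c : ℂ) (P : Pt ℂ) : cst K (rot c P) = rot c (cst K P) := map_rot _ _ _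

lemma cst_injective : Function.Injective (cst K) := map_injective _

lemma mem_range_iff (E : IntermediateField ℂ K) {x y : K} (h : y ^ 2 = x ^ 3 - 27) :
    mk x y h ∈ (map E.val).range ↔ x ∈ E ∧ y ∈ E := by
  constructor
  · rintro ⟨P, hP⟩
    rcases P.cases with rfl | ⟨a, b, hab, rfl⟩
    · exact absurd (by simpa using hP.symm) (mk_ne_zero h)
    · rw [map_mk] at hP
      obtain ⟨rfl, rfl⟩ := mk_eq_mk.1 hP
      exact ⟨a.2, b.2⟩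
  · exact fun ⟨hx, hy⟩ => ⟨mk ⟨x, hx⟩ ⟨y, hy⟩ (Subtype.ext h), rfl⟩

lemma map_mem_range (E : IntermediateField ℂ L) (f : K →ₐ[ℂ] L) (hf : ∀ a, f a ∈ E) (P : Pt K) :
    map f P ∈ (map E.val).range := by
  rcases P.cases with rfl | ⟨a, b, hab, rfl⟩
  · simp
  · rw [map_mk]
    exact (mem_range_iff E _).2 ⟨hf a, hf b⟩

end Pt

section cocycle

variable {M Γ : Type} [Field M] [Algebra ℂ M] [Group Γ] [MulSemiringAction Γ M]
  [SMulCommClass Γ ℂ M]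

/-- The group acts on the point `s` by rotations followed by the translations `c`. -/
def Coc (ε : Γ →* ℂ) (s : Pt M) (c : Γ → Pt ℂ) : Prop :=
  ∀ γ, Pt.map (act M γ) s = Pt.rot (ε γ)⁻¹ s + Pt.cst M (c γ)

/-- The cocycle identity. -/
def IsCoc (ε : Γ →* ℂ) (c : Γ → Pt ℂ) : Prop := ∀ γ δ, c (γ * δ) = Pt.rot (ε δ)⁻¹ (c γ) + c δ

variable {ε : Γ →* ℂ}

lemma Coc.isCoc (hε : ∀ γ, ε γ ^ 6 = 1) {s : Pt M} {c : Γ → Pt ℂ} (h : Coc ε s c) : IsCoc ε c := by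
  intro γ δ
  have h6 : ∀ γ, (ε γ)⁻¹ ^ 6 = 1 := fun γ => by rw [inv_pow, hε, inv_one]
  have h1 : act M (γ * δ) = (act M γ).comp (act M δ) := AlgHom.ext fun z => mul_smul γ δ z
  have h2 := h (γ * δ)
  rw [h1, ← Pt.map_map, h δ, map_add, Pt.map_cst, Pt.map_rot, h γ, map_add,
    Pt.rot_rot (h6 _) (h6 _), map_mul, mul_inv_rev, add_assoc, add_right_inj, ← Pt.cst_rot,
    ← map_add] at h2
  exact (Pt.cst_injective h2).symm

lemma IsCoc.one {c : Γ → Pt ℂ} (h : IsCoc ε c) : c 1 = 0 := by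
  have := h 1 1
  rwa [mul_one, map_one, inv_one, Pt.rot_one, left_eq_add] at this

/-- The elements on which a cocycle takes values in a rotation-stable subgroup. -/
def IsCoc.comap {c : Γ → Pt ℂ} (h : IsCoc ε c) (Λ : AddSubgroup (Pt ℂ))
    (hΛ : ∀ d, ∀ P ∈ Λ, Pt.rot d P ∈ Λ) : Subgroup Γ where
  carrier := {γ | c γ ∈ Λ}
  one_mem' := by simp [h.one]
  mul_mem' := fun {a b} ha hb => by
    simp only [Set.mem_ofPred_eq, h a b]
    exact add_mem (hΛ _ _ ha) hb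
  inv_mem' := fun {a} ha => by
    have := h a a⁻¹
    rw [mul_inv_cancel, h.one, eq_comm, add_eq_zero_iff_neg_eq] at this
    simp only [Set.mem_ofPred_eq, ← this]
    exact neg_mem (hΛ _ _ ha)

lemma IsCoc.sub {c c' : Γ → Pt ℂ} (h : IsCoc ε c) (h' : IsCoc ε c') : IsCoc ε (c - c') :=
  fun γ δ => by simp only [Pi.sub_apply, h γ δ, h' γ δ, map_sub]; abel

theorem exists_coc {G : Type} [Group G] {χ : G →* ℂ} (hχ : ∀ g, χ g ^ 6 = 1) {t : G → Pt ℂ}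
    (ht : IsCoc χ t) {ρ ρ' : Γ →* G} (hρ : ∀ γ, χ (ρ γ) = ε γ) (hρ' : ∀ γ, χ (ρ' γ) = ε γ)
    (hsurj : Function.Surjective ρ') {γ₀ γ₁ : Γ} (hgen : Subgroup.closure {γ₀, γ₁} = ⊤)
    (h₀ : ε γ₀ ^ 2 - ε γ₀ + 1 = 0) (h₁ : ε γ₁ ^ 2 - ε γ₁ + 1 = 0) {S : Pt M}
    (hS : Coc ε S (t ∘ ρ')) : ∃ s : Pt M, Coc ε s (t ∘ ρ) := by
  have hε : ∀ γ, ε γ ^ 6 = 1 := fun γ => hρ γ ▸ hχ _
  have h0 : ∀ γ, ε γ ≠ 0 := fun γ => ((Group.isUnit γ).map ε).ne_zero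
  have hall : ∀ H : Subgroup Γ, γ₀ ∈ H → γ₁ ∈ H → ∀ γ, γ ∈ H := fun H h1 h2 γ =>
    (Subgroup.closure_le H).2 (Set.insert_subset h1 (Set.singleton_subset_iff.2 h2))
      (hgen ▸ Subgroup.mem_top γ)
  let 𝒞 : AddSubgroup (Γ → Pt ℂ) :=
    { carrier := {c | ∃ s : Pt M, Coc ε s c}
      zero_mem' := ⟨0, fun γ => by simp⟩
      add_mem' := by
        rintro c c' ⟨s, hs⟩ ⟨s', hs'⟩
        exact ⟨s + s', fun γ => by simp only [map_add, hs γ, hs' γ, Pi.add_apply]; abel⟩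
      neg_mem' := by
        rintro c ⟨s, hs⟩
        exact ⟨-s, fun γ => by simp only [map_neg, hs γ, Pi.neg_apply]; abel⟩ }
  have hcob : ∀ c : Γ → Pt ℂ, ∃ b ∈ 𝒞, b γ₀ = c γ₀ ∧ ∀ γ, ε γ = 1 → b γ = 0 := fun c => by
    refine ⟨fun γ => Pt.rot (ε γ₀)⁻¹ (c γ₀) - Pt.rot (ε γ)⁻¹ (Pt.rot (ε γ₀)⁻¹ (c γ₀)),
      ⟨Pt.cst M (Pt.rot (ε γ₀)⁻¹ (c γ₀)), fun γ => ?_⟩, ?_, fun γ hγ => ?_⟩
    · rw [Pt.map_cst, map_sub, Pt.cst_rot (ε γ)⁻¹, add_sub_cancel]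
    · rw [sub_eq_iff_eq_add', Pt.rot_rel]
      have := h0 γ₀
      field_simp
      linear_combination h₀
    · simp [hγ, Pt.rot_one]
  let Λ : AddSubgroup (Pt ℂ) :=
    (𝒞 ⊓ (Pi.evalAddMonoidHom (fun _ => Pt ℂ) γ₀).ker).map (Pi.evalAddMonoidHom _ γ₁)
  have hΛ : ∀ d, ∀ P ∈ Λ, Pt.rot d P ∈ Λ := by
    rintro d _ ⟨c, ⟨⟨s, hs⟩, hc⟩, rfl⟩
    refine ⟨fun γ => Pt.rot d (c γ), ⟨⟨Pt.rot d s, fun γ => ?_⟩, ?_⟩, rfl⟩
    · rw [Pt.map_rot, hs γ, map_add, Pt.rot_comm, Pt.cst_rot]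
    · have : c γ₀ = 0 := hc
      change Pt.rot d (c γ₀) = 0
      rw [this, map_zero]
  have hcoc : ∀ c ∈ 𝒞, IsCoc ε c := fun c ⟨s, hs⟩ => hs.isCoc hε
  obtain ⟨b', hb', hb1', hb2'⟩ := hcob (t ∘ ρ')
  obtain ⟨b, hb, hb1, hb2⟩ := hcob (t ∘ ρ)
  have h1 : t ∘ ρ' - b' ∈ 𝒞 := sub_mem ⟨S, hS⟩ hb'
  have h2 : ∀ γ, (t ∘ ρ' - b') γ ∈ Λ := hall ((hcoc _ h1).comap Λ hΛ)
    (show _ ∈ Λ by rw [Pi.sub_apply, hb1', sub_self]; exact zero_mem _)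
    ⟨_, ⟨h1, sub_eq_zero.2 hb1'.symm⟩, rfl⟩
  have h3 : IsCoc ε (t ∘ ρ - b) := IsCoc.sub
    (fun γ δ => by simp only [Function.comp_apply, map_mul, ht _ _, hρ]) (hcoc b hb)
  have h4 : γ₀ ∈ h3.comap ⊥ (by simp) := sub_eq_zero.2 hb1.symm
  obtain ⟨γ, hγ, hγ'⟩ : ∃ γ ∈ h3.comap ⊥ (by simp), ε (γ * γ₁) = 1 := by
    by_cases h5 : ε γ₀ = ε γ₁
    · exact ⟨γ₀⁻¹, inv_mem h4, by rw [map_mul, map_inv, h5, inv_mul_cancel₀ (h0 _)]⟩
    · refine ⟨γ₀, h4, ?_⟩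
      have h6 : ε γ₀ + ε γ₁ - 1 = 0 :=
        (mul_eq_zero.1 (show (ε γ₀ - ε γ₁) * _ = 0 by linear_combination h₀ - h₁)).resolve_left
          (sub_ne_zero.2 h5)
      rw [map_mul]
      linear_combination ε γ₀ * h6 - h₀
  obtain ⟨c, ⟨hc, hc0⟩, hc1⟩ : (t ∘ ρ - b) γ₁ ∈ Λ := by
    have h5 : (t ∘ ρ - b) γ = 0 := hγ
    have h6 := h3 γ γ₁
    rw [h5, map_zero, zero_add] at h6
    obtain ⟨δ, hδ⟩ := hsurj (ρ (γ * γ₁))
    have h7 := h2 δ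
    rw [Pi.sub_apply, hb2' δ (by rw [← hρ', hδ, hρ, hγ']), Function.comp_apply, hδ] at h7
    rwa [← h6, Pi.sub_apply, hb2 _ hγ']
  have h5 : ∀ γ, (t ∘ ρ - b - c) γ = 0 := hall ((h3.sub (hcoc c hc)).comap ⊥ (by simp))
    (sub_eq_zero.2 (h4.trans hc0.symm)) (sub_eq_zero.2 hc1.symm)
  have h6 : t ∘ ρ = c + b := funext fun γ => by
    have := h5 γ
    simp only [Pi.sub_apply] at this
    rw [Pi.add_apply, ← sub_eq_zero, ← this]
    abel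
  rw [h6]
  exact add_mem hc hb

end cocycle

end Pool.Agent.Lib.MP_e06174_ag
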