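import Pool.Agent.Lib.MP_e06174_ag.Tor1
import Pool.Agent.Lib.MP_e06174_ag.Ret2

/-! The compositum of several Galois covers after a base change. -/

set_option linter.unusedSectionVars false

open Polynomial IntermediateField Module MulAction

namespace Pool.Agent.Lib.MP_e06174_ag

open Place

lemma mem_adjoin_of_map {B Ω : Type} [Field B] [Algebra ℂ B] [Field Ω] [Algebra ℂ Ω]
    (J : B →ₐ[ℂ] Ω) {z a : B} : J a ∈ ℂ⟮J z⟯ ↔ a ∈ ℂ⟮z⟯ := by
  have h1 : ℂ⟮J z⟯ = ℂ⟮z⟯.map J := by rw [adjoin_map, Set.image_singleton]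
  rw [h1]
  exact ⟨fun ⟨b, hb, hb'⟩ => J.injective hb' ▸ hb, fun h => ⟨a, h, rfl⟩⟩

theorem exists_compositum {n : ℕ} {F : Fin n → Type} [∀ i, Field (F i)] [∀ i, Algebra ℂ (F i)]
    {G : Type} [Group G] [Finite G] [∀ i, MulSemiringAction G (F i)]
    [∀ i, SMulCommClass G ℂ (F i)] (hfg : ∀ i, (⊤ : IntermediateField ℂ (F i)).FG)
    {Ω : Type} [Field Ω] [Algebra ℂ Ω] [IsAlgClosed Ω] (φ : ∀ i, F i →ₐ[ℂ] Ω) {w : Ω}
    (hw : Transcendental ℂ w) (hφ : ∀ i (a : Fix ℂ (F i) G), φ i a ∈ ℂ⟮w⟯) :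
    ∃ (M : Type) (_ : Field M) (_ : Algebra ℂ M) (Γ : Type) (_ : Group Γ) (_ : Finite Γ)
      (_ : MulSemiringAction Γ M) (_ : SMulCommClass Γ ℂ M) (_ : FaithfulSMul Γ M)
      (j : M →ₐ[ℂ] Ω) (ψ : ∀ i, F i →ₐ[ℂ] M) (z : Fix ℂ M Γ), j z = w ∧
      (∀ i f, j (ψ i f) = φ i f) ∧ IsCoord ℂ (z : M) ∧ ℂ⟮z⟯ = ⊤ ∧
      ∀ γ : Γ, (∀ i f, γ • ψ i f = ψ i f) → γ = 1 := by
  classical
  choose s hs using hfg
  let T : Set Ω := ⋃ i, φ i '' s i
  let M := adjoin ℂ⟮w⟯ T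
  have : Finite T := (Set.finite_iUnion fun i => (s i).finite_toSet.image _).to_subtype
  have : CharZero Ω := Pt.charZero Ω
  have : FiniteDimensional ℂ⟮w⟯ M := finiteDimensional_adjoin fun a ha => by
    obtain ⟨i, f, -, rfl⟩ := Set.mem_iUnion.1 ha
    exact ((Algebra.IsAlgebraic.isAlgebraic (R := Fix ℂ (F i) G) f).ringHom_of_comp_eq
      (((φ i : F i →+* Ω).comp (algebraMap (Fix ℂ (F i) G) (F i))).codRestrict ℂ⟮w⟯ (hφ i))
      (φ i : F i →+* Ω) (RingHom.injective _) rfl).isIntegral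
  have hmem : ∀ i f, φ i f ∈ M := fun i f => by
    have h1 : adjoin ℂ (s i : Set (F i)) ≤ comap (φ i) (M.restrictScalars ℂ) :=
      adjoin_le_iff.2 fun a ha => subset_adjoin ℂ⟮w⟯ T (Set.mem_iUnion.2 ⟨i, a, ha, rfl⟩)
    exact h1 (hs i ▸ mem_top)
  let j : M →ₐ[ℂ] Ω := M.val.restrictScalars ℂ
  let ψ : ∀ i, F i →ₐ[ℂ] M := fun i =>
    { toFun := fun f => ⟨φ i f, hmem i f⟩
      map_one' := Subtype.ext (map_one _)
      map_mul' := fun a b => Subtype.ext (map_mul _ a b)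
      map_zero' := Subtype.ext (map_zero _)
      map_add' := fun a b => Subtype.ext (map_add _ a b)
      commutes' := fun c => Subtype.ext ((φ i).commutes c) }
  have hind : ∀ (P : M → Prop), (∀ i f, P (ψ i f)) → (∀ c, P (algebraMap ℂ⟮w⟯ M c)) →
      (∀ a b, P a → P b → P (a + b)) → (∀ a, P a → P a⁻¹) → (∀ a b, P a → P b → P (a * b)) →
      ∀ a, P a := fun P h1 h2 h3 h4 h5 ⟨a, ha⟩ => by
    induction ha using adjoin_induction with
    | mem a ha =>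
      obtain ⟨i, f, -, rfl⟩ := Set.mem_iUnion.1 ha
      exact h1 i f
    | algebraMap c => exact h2 c
    | add a b _ _ ha hb => exact h3 _ _ ha hb
    | inv a _ ha => exact h4 _ ha
    | mul a b _ _ ha hb => exact h5 _ _ ha hb
  have hstab : ∀ (σ : M →ₐ[ℂ⟮w⟯] Ω) a, σ a ∈ M := fun σ => by
    refine hind _ (fun i f => ?_) (fun c => ?_) (fun a b ha hb => ?_) (fun a ha => ?_)
      fun a b ha hb => ?_
    · obtain ⟨g, hg⟩ := exists_smul_of_agree G (φ i) ((σ.restrictScalars ℂ).comp (ψ i))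
        fun a => (σ.commutes ⟨_, hφ i a⟩).symm
      exact (hg f : σ (ψ i f) = _) ▸ hmem i _
    · rw [AlgHom.commutes]; exact M.algebraMap_mem c
    · rw [map_add]; exact add_mem ha hb
    · rw [map_inv₀]; exact inv_mem ha
    · rw [map_mul]; exact mul_mem ha hb
  have : IsGalois ℂ⟮w⟯ M := by
    refine IsGalois.of_card_aut_eq_finrank _ _ (le_antisymm ?_ ?_)
    · rw [Nat.card_eq_fintype_card]; exact AlgEquiv.card_le
    · rw [← AlgHom.card ℂ⟮w⟯ M Ω, ← Nat.card_eq_fintype_card]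
      refine Nat.card_le_card_of_injective (fun σ => AlgEquiv.ofBijective
        (σ.codRestrict M.toSubalgebra (hstab σ) : M →ₐ[ℂ⟮w⟯] M) (AlgHom.bijective _))
        fun σ τ h => AlgHom.ext fun a => congrArg Subtype.val (DFunLike.congr_fun h a)
  let z : Fix ℂ M (M ≃ₐ[ℂ⟮w⟯] M) :=
    ⟨algebraMap ℂ⟮w⟯ M (AdjoinSimple.gen ℂ w), mem_fix.2 fun γ => γ.commutes _⟩
  have hgen : ℂ⟮z⟯ = ⊤ := top_le_iff.1 fun a _ => by
    obtain ⟨c, hc⟩ := (IsGalois.mem_range_algebraMap_iff_fixed (F := ℂ⟮w⟯) (a : M)).2 a.2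
    refine (mem_adjoin_of_map (j.comp (Fix ℂ M _).val)).1 ?_
    change j a ∈ ℂ⟮w⟯
    rw [← hc]
    exact c.2
  refine ⟨M, inferInstance, inferInstance, M ≃ₐ[ℂ⟮w⟯] M, inferInstance, inferInstance,
    inferInstance, inferInstance, inferInstance, j, ψ, z, rfl, fun _ _ => rfl,
    ⟨fun h => hw (h.algHom j), .of_finrank_pos ?_⟩, hgen, fun γ hγ => AlgEquiv.ext ?_⟩
  · rw [finrank_eq_card hgen]; exact Nat.card_pos
  · refine hind _ hγ γ.commutes (fun a b ha hb => ?_) (fun a ha => ?_) fun a b ha hb => ?_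
    · rw [map_add, map_add, ha, hb]
    · rw [map_inv₀, map_inv₀, ha]
    · rw [map_mul, map_mul, ha, hb]

lemma exists_embed {F G Ω : Type} [Field F] [Algebra ℂ F] [Group G] [Finite G]
    [MulSemiringAction G F] [SMulCommClass G ℂ F] [Field Ω] [Algebra ℂ Ω] [IsAlgClosed Ω]
    {t : Fix ℂ F G} (ht : Transcendental ℂ t) (hgen : ℂ⟮t⟯ = ⊤) {w : Ω}
    (hw : Transcendental ℂ w) : ∃ φ : F →ₐ[ℂ] Ω, φ t = w := by
  let e : Fix ℂ F G →ₐ[ℂ] Ω := (ev hw).comp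
    ((RatFunc.algEquivOfTranscendental t ht).symm.toAlgHom.comp
      ((equivOfEq hgen).trans topEquiv).symm.toAlgHom)
  have he : e t = w := by
    have h1 : ((equivOfEq hgen).trans topEquiv).symm t = AdjoinSimple.gen ℂ t := by
      rw [AlgEquiv.symm_apply_eq]; rfl
    change ev hw ((RatFunc.algEquivOfTranscendental t ht).symm
      (((equivOfEq hgen).trans topEquiv).symm t)) = w
    rw [h1, RatFunc.algEquivOfTranscendental_symm_gen, ev_X]
  let _ : Algebra (Fix ℂ F G) Ω := e.toRingHom.toAlgebra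
  have : IsScalarTower ℂ (Fix ℂ F G) Ω := .of_algebraMap_eq fun c => (e.commutes c).symm
  let φ : F →ₐ[Fix ℂ F G] Ω := IsAlgClosed.lift
  exact ⟨φ.restrictScalars ℂ, (φ.commutes t).trans he⟩

end Pool.Agent.Lib.MP_e06174_ag
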