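import Pool.Agent.Lib.MP_e06174_ag.Tor2

/-! Ramification of the compositum over the new base. -/

set_option linter.unusedSectionVars false

open Polynomial IntermediateField Module MulAction

namespace Pool.Agent.Lib.MP_e06174_ag

open Place

variable {F G : Type} [Field F] [Algebra ℂ F] [Group G] [Finite G] [MulSemiringAction G F]
  [SMulCommClass G ℂ F] [FaithfulSMul G F]
  {M Γ : Type} [Field M] [Algebra ℂ M] [Group Γ] [Finite Γ] [MulSemiringAction Γ M]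
  [SMulCommClass Γ ℂ M] [FaithfulSMul Γ M]

/-- A branch point of index six at which the cotangent character is `χ`. -/
def Plus (χ : G →* ℂ) (q : Place ℂ (Fix ℂ F G)) : Prop :=
  q.ram = 6 ∧ ∀ p : Place ℂ F, p.Over (Fix ℂ F G).val q q.ram → ∀ g ∈ stabilizer G p, χ g = p.chi g

/-- The ramification conditions over the new base with coordinate `z`. -/
def Tame (χ : G →* ℂ) (z : Fix ℂ M Γ) (ψ : F →ₐ[ℂ] M) : Prop :=
  ∀ (P : Place ℂ M) (a : ℂ), P.At (z : M) a → ∃ (p : Place ℂ F) (c : ℕ), P.Over ψ p c ∧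
    (a = 0 ∨ a = 1 → Nat.card (stabilizer G p) = 6 ∧ (∀ g ∈ stabilizer G p, χ g = p.chi g) ∧
      Nat.card (stabilizer Γ P) = c * 6) ∧
    (a ≠ 0 → a ≠ 1 → Nat.card (stabilizer G p) = 1 ∨ Nat.card (stabilizer Γ P) ∣ c)

variable {t : Fix ℂ F G} {z : Fix ℂ M Γ} {ψ : F →ₐ[ℂ] M} {χ : G →* ℂ}

lemma Place.Over.chi (ht : IsCoord ℂ (t : F)) (hz : IsCoord ℂ (z : M)) {ρ : Γ →* G}
    (hρ : ∀ γ f, γ • ψ f = ψ (ρ γ • f)) {P : Place ℂ M} {p : Place ℂ F} {c : ℕ}
    (h : P.Over ψ p c) {γ : Γ} (hγ : γ ∈ stabilizer Γ P) :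
    ρ γ ∈ stabilizer G p ∧ p.chi (ρ γ) = P.chi γ ^ c := by
  have h1 : ρ γ ∈ stabilizer G p := by
    refine ext_ord fun f _ => ?_
    have h1 := h.2 ((ρ γ)⁻¹ • f)
    rw [← map_inv, ← hρ, ord_smul_of_mem (inv_mem hγ), h.2] at h1
    have h2 : (c : ℤ) ≠ 0 := by have := h.1; omega
    rw [smul_ord, ← map_inv, mul_left_cancel₀ h2 h1]
  refine ⟨h1, ?_⟩
  have h3 := (h.at_iff _).2 (ht.at_chi h1 p.unif_ne_zero p.ord_unif)
  rw [map_div₀, ← hρ] at h3
  refine h3.unique ?_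
  have h4 := (hz.at_chi hγ P.unif_ne_zero P.ord_unif).pow c
  rw [div_pow, ← smul_pow'] at h4
  refine h4.of_ord_eq (hz.mem_inertia hγ) (pow_ne_zero _ P.unif_ne_zero)
    ((_root_.map_ne_zero _).2 p.unif_ne_zero) ?_
  rw [ord_pow, h.2]
  simp

lemma ord_sub_eq_card (hz : IsCoord ℂ (z : M)) (hgen : ℂ⟮z⟯ = ⊤) {P : Place ℂ M} {a : ℂ}
    (h : P.At (z : M) a) : P.ord (z - algebraMap ℂ M a) = Nat.card (stabilizer Γ P) := by
  obtain ⟨Q, hQ⟩ := hz.exists_under P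
  have h1 := hQ.2 (z - algebraMap ℂ _ a)
  rw [((hQ.at_iff a).1 h).ord_eq_one hz.fix.trans hgen, mul_one, map_sub, AlgHom.commutes] at h1
  rw [hz.card_stabilizer hQ]
  exact h1

lemma exists_restrict (ht : IsCoord ℂ (t : F)) (hψ : IsCoord ℂ (ψ t)) (P : Place ℂ M) :
    ∃ (p : Place ℂ F) (c : ℕ) (q : Place ℂ (Fix ℂ F G)), P.Over ψ p c ∧
      p.Over (Fix ℂ F G).val q q.ram ∧ P.Over (ψ.comp (Fix ℂ F G).val) q (c * q.ram) := by
  rcases P.restrict ψ with h1 | ⟨p, c, hc⟩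
  · refine absurd ?_ (hψ.ord_loc_ne_zero P)
    simpa [loc] using h1 (t - algebraMap ℂ _ (P.cen (ψ t)))
  · obtain ⟨q, hq⟩ := ht.exists_under p
    exact ⟨p, c, q, hc, hq, Over.comp hc hq⟩

lemma good_id (ht : IsCoord ℂ (t : F)) (htg : ℂ⟮t⟯ = ⊤) (hz : IsCoord ℂ (z : M))
    (hgen : ℂ⟮z⟯ = ⊤) {a b c : Place ℂ (Fix ℂ F G)} (h : Tri a b c) (ha : Plus χ a)
    (hb : Plus χ b) (ha' : a.At t 0) (hb' : b.At t 1) (hc' : c.ord t < 0) (hψ : ψ t = z) :
    Tame χ z ψ := by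
  intro P s hs
  obtain ⟨p, e, q, h1, h2, h3⟩ := exists_restrict ht (hψ ▸ hz) P
  have h4 : q.At t s := (h3.at_iff s).1 (by rwa [← hψ] at hs)
  refine ⟨p, e, h1, fun h5 => ?_, fun h5 h6 => Or.inl ?_⟩
  · have h6 : Plus χ q := by
      rcases h5 with rfl | rfl
      · rwa [h4.ext ha' ht.fix.trans htg]
      · rwa [h4.ext hb' ht.fix.trans htg]
    refine ⟨by rw [ht.card_stabilizer h2, h6.1], h6.2 p h2, ?_⟩
    have h7 := h3.2 (t - algebraMap ℂ _ s)
    rw [h4.ord_eq_one ht.fix.trans htg, mul_one, map_sub, AlgHom.commutes, h6.1] at h7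
    have h8 := ord_sub_eq_card hz hgen hs
    rw [← hψ] at h8
    exact_mod_cast h8.symm.trans h7
  · rw [ht.card_stabilizer h2]
    refine h.ram q ?_ ?_ ?_
    · rintro rfl; exact h5 (h4.unique ha')
    · rintro rfl; exact h6 (h4.unique hb')
    · rintro rfl; exact h4.not_pole hc'

lemma transcendental_quad {w : M} (hw : Transcendental ℂ w) :
    Transcendental ℂ (w * (w - 1))⁻¹ := by
  rw [Transcendental, IsAlgebraic.inv_iff]
  have := hw.aeval (X * (X - C 1)) (by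
    rw [natDegree_mul X_ne_zero (X_sub_C_ne_zero 1), natDegree_X]; omega)
    (by rw [(monic_X.mul (monic_X_sub_C 1)).leadingCoeff]; exact one_mem _)
  simpa [Transcendental] using this

lemma good_quad (ht : IsCoord ℂ (t : F)) (htg : ℂ⟮t⟯ = ⊤) (hz : IsCoord ℂ (z : M))
    (hgen : ℂ⟮z⟯ = ⊤) {a b c : Place ℂ (Fix ℂ F G)} (h : Tri a b c) (ha : Plus χ a)
    (hb : b.ram = 2) (ha' : a.ord t < 0) (hb' : b.At t (-4)) (hc' : c.At t 0)
    (hψ : ψ t = ((z : M) * (z - 1))⁻¹) : Tame χ z ψ := by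
  intro P s hs
  obtain ⟨p, e, q, h1, h2, h3⟩ := exists_restrict ht
    (hz.of_transcendental (hψ ▸ transcendental_quad hz.trans)) P
  have hz0 := ne_zero_of_transcendental hz.trans
  have hz1 : (z : M) - 1 ≠ 0 := by simpa using sub_const_ne_zero hz.trans 1
  have hs1 : P.At ((z : M) - 1) (s - 1) := by
    simpa [sub_eq_add_neg] using hs.add (P.at_const (-1))
  have h8 := ord_sub_eq_card hz hgen hs
  have hpos : 0 < Nat.card (stabilizer Γ P) := Nat.card_pos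
  refine ⟨p, e, h1, fun h5 => ?_, fun h5 h6 => ?_⟩
  · have h7 : P.ord (ψ t) = -Nat.card (stabilizer Γ P) := by
      rw [hψ, ord_inv, P.ord_mul hz0 hz1]
      rcases h5 with rfl | rfl
      · rw [(hs1.ord_eq_zero (by norm_num)).2, ← h8]; simp
      · rw [(hs.ord_eq_zero (by norm_num)).2, ← h8]; simp
    have h9 : q.ord t < 0 := h3.pole_iff.1 (show P.ord (ψ t) < 0 by omega)
    obtain rfl := ext_pole h9 ha' ht.fix.trans htg
    refine ⟨by rw [ht.card_stabilizer h2, ha.1], ha.2 p h2, ?_⟩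
    have h10 := h3.2 t
    rw [ord_eq_neg_one_of_pole h9 ht.fix.trans htg, ha.1] at h10
    have h11 := h7.symm.trans h10
    omega
  · have h7 := (hs.mul hs1).ord_eq_zero (mul_ne_zero h5 (sub_ne_zero.2 h6))
    by_cases hq : q = b
    · subst hq
      refine Or.inr ?_
      have h9 := h3.2 (t - algebraMap ℂ _ (-4))
      rw [hb'.ord_eq_one ht.fix.trans htg, mul_one, map_sub, AlgHom.commutes, hb] at h9
      have : CharZero M := Pt.charZero M
      have h10 : ψ t - algebraMap ℂ M (-4) =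
          (4 : ℂ) • (((z : M) - algebraMap ℂ M (1 / 2)) ^ 2 * ((z : M) * (z - 1))⁻¹) := by
        rw [hψ, Algebra.smul_def, map_neg, map_div₀, map_one, map_ofNat, map_ofNat]
        field_simp
        ring
      change P.ord (ψ t - _) = _ at h9
      rw [h10, P.ord_smul (by norm_num), P.ord_mul (pow_ne_zero _ (sub_const_ne_zero hz.trans _))
        (inv_ne_zero h7.1), ord_inv, h7.2, ord_pow] at h9
      have h11 : P.At (z : M) (1 / 2) := ge_of_le (by have := h1.1; omega)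
      rw [ord_sub_eq_card hz hgen h11] at h9
      exact ⟨1, by omega⟩
    · refine Or.inl ?_
      have h9 := h3.2 t
      change P.ord (ψ t) = _ at h9
      rw [hψ, ord_inv, h7.2] at h9
      have h10 : q.ord t = 0 := by
        have := h3.1
        exact (mul_eq_zero.1 h9.symm).resolve_left (by omega)
      rw [ht.card_stabilizer h2]
      refine h.ram q ?_ hq ?_
      · rintro rfl; omega
      · rintro rfl
        have := hc'.ord_pos ht.fix.trans
        simp at this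
        omega

lemma sixth_root {ξ : ℂ} (h : IsPrimitiveRoot ξ 6) : ξ ^ 2 - ξ + 1 = 0 := by
  have h1 := h.pow_ne_one_of_pos_of_lt (l := 2) (by omega) (by omega)
  have h2 := h.pow_ne_one_of_pos_of_lt (l := 3) (by omega) (by omega)
  have h3 : (ξ ^ 2 - 1) * (ξ ^ 3 - 1) * (ξ ^ 2 - ξ + 1) = 0 := by
    linear_combination (ξ - 1) * h.pow_eq_one
  exact (mul_eq_zero.1 h3).resolve_left (mul_ne_zero (sub_ne_zero.2 h1) (sub_ne_zero.2 h2))

lemma exists_generator (hz : IsCoord ℂ (z : M)) (P : Place ℂ M) :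
    ∃ γ ∈ stabilizer Γ P, Subgroup.zpowers γ = stabilizer Γ P ∧
      IsPrimitiveRoot (P.chi γ) (Nat.card (stabilizer Γ P)) := by
  obtain ⟨g, hg⟩ := (hz.isCyclic (G := Γ) P).exists_ofOrder_eq_natCard
  refine ⟨g, g.2, Subgroup.eq_of_le_of_card_ge (Subgroup.zpowers_le.2 g.2) ?_, ?_⟩
  · rw [Nat.card_zpowers, Subgroup.orderOf_coe, hg]
  · rw [← hg, ← orderOf_injective _ (hz.chiHom_injective P) g]
    exact IsPrimitiveRoot.orderOf _

lemma exists_sixth_power {B : Type} [Field B] [Algebra ℂ B] {x : B} (h : IsCoord ℂ x)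
    (hgen : ℂ⟮x⟯ = ⊤) {Θ : B} (h0 : Θ ≠ 0) (h6 : ∀ (q : Place ℂ B) a, q.At x a → 6 ∣ q.ord Θ) :
    ∃ R : B, Θ = R ^ 6 := by
  classical
  obtain ⟨T, hT, hs⟩ := h.exists_sum_del hgen 0 h0
  simp only [del, pow_zero, mul_one, Nat.cast_zero, sub_zero, mul_zero] at hT hs
  have h1 : ∀ q : Place ℂ B, 6 ∣ q.ord Θ := fun q => by
    rcases h.pole_or_at q with hq | ⟨a, ha⟩
    · by_cases h1 : q ∈ T
      · rw [← Finset.add_sum_erase _ _ h1] at hs
        rw [eq_neg_of_add_eq_zero_left hs, dvd_neg]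
        refine Finset.dvd_sum fun r hr => ?_
        obtain ⟨a, ha⟩ := (h.pole_or_at r).resolve_left fun h2 =>
          (Finset.mem_erase.1 hr).1 (ext_pole h2 hq h.trans hgen)
        exact h6 r a ha
      · simp [hT q h1]
    · exact h6 q a ha
  choose D hD using h1
  obtain ⟨R, hR, h2, h3⟩ := h.exists_del hgen 0 T D (by
    simp only [hD, ← Finset.mul_sum] at hs
    omega)
  simp only [del, pow_zero, mul_one, Nat.cast_zero, sub_zero] at h2 h3
  obtain ⟨c, hc⟩ := h.const_of_forall_ge (y := R ^ 6 / Θ) fun q => ge_of_le (by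
    rw [q.ord_div (pow_ne_zero _ hR) h0, ord_pow]
    by_cases hq : q ∈ T
    · have := h2 q hq; have := hD q; omega
    · have := h3 q hq; have := hT q hq; omega)
  obtain ⟨d, rfl⟩ := IsAlgClosed.exists_pow_nat_eq c (n := 6) (by omega)
  have h4 : algebraMap ℂ B (d ^ 6) ≠ 0 := hc ▸ div_ne_zero (pow_ne_zero _ hR) h0
  refine ⟨R / algebraMap ℂ B d, ?_⟩
  rw [div_pow, ← map_pow, eq_div_iff h4, ← hc, mul_div_cancel₀ _ h0]

lemma exists_root (ht : IsCoord ℂ (t : F)) (hz : IsCoord ℂ (z : M)) (hgen : ℂ⟮z⟯ = ⊤)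
    (h : Tame χ z ψ) (hχ : ∀ g, χ g ^ 6 = 1) {ρ : Γ →* G} (hρ : ∀ γ f, γ • ψ f = ψ (ρ γ • f))
    (hun : ∀ (P : Place ℂ M) (a : ℂ), P.At (z : M) a → a ≠ 0 → a ≠ 1 → stabilizer Γ P = ⊥)
    {c : ℂ} (hc : c ≠ 0) : ∃ y : M, y ≠ 0 ∧ y ^ 6 = algebraMap ℂ M c * (z * (z - 1)) ∧
      ∀ γ : Γ, γ • y = algebraMap ℂ M (χ (ρ γ)) * y := by
  obtain ⟨y, hy0, hy⟩ := exists_eigen (F := M) (χ.comp ρ)
  replace hy : ∀ γ : Γ, γ • y = algebraMap ℂ M (χ (ρ γ)) * y := hy
  let Ψ : Fix ℂ M Γ := ⟨y ^ 6, mem_fix.2 fun g => by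
    rw [smul_pow', hy, mul_pow, ← map_pow, hχ, map_one, one_mul]⟩
  have hΨ : Ψ ≠ 0 := fun h1 => pow_ne_zero _ hy0 (congrArg Subtype.val h1)
  have hz0 := ne_zero_of_transcendental hz.fix.trans
  have hz1 : z - 1 ≠ 0 := by simpa using sub_const_ne_zero hz.fix.trans 1
  have h0 : c • (z * (z - 1)) ≠ 0 := smul_ne_zero hc (mul_ne_zero hz0 hz1)
  obtain ⟨R, hR⟩ := exists_sixth_power hz.fix hgen (div_ne_zero hΨ h0) fun Q a ha => by
    obtain ⟨P, hP⟩ := Q.exists_over_ram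
    have h1 : P.At (z : M) a := (hP.at_iff a).2 ha
    have h2 := hP.2 Ψ
    change P.ord (y ^ 6) = _ at h2
    rw [ord_pow, ← hz.card_stabilizer hP] at h2
    have ha1 : Q.At (z - 1) (a - 1) := by simpa [sub_eq_add_neg] using ha.add (Q.at_const (-1))
    have h3 := ha.ord_eq_one hz.fix.trans hgen
    rw [Q.ord_div hΨ h0, Q.ord_smul hc, Q.ord_mul hz0 hz1]
    by_cases h4 : a = 0 ∨ a = 1
    · have h5 : Q.ord z + Q.ord (z - 1) = 1 := by
        rcases h4 with rfl | rfl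
        · rw [(ha1.ord_eq_zero (by norm_num)).2, ← h3]; simp
        · rw [(ha.ord_eq_zero (by norm_num)).2, ← h3]; simp
      obtain ⟨p, e, h6, h7, -⟩ := h P a h1
      obtain ⟨-, h8, h9⟩ := h7 h4
      obtain ⟨γ, hγ, -, h10⟩ := exists_generator hz P
      obtain ⟨h11, h12⟩ := h6.chi ht hz hρ hγ
      have h13 := hz.chi_zpow_ord hγ hy0 (hy γ)
      rw [h8 _ h11, h12, ← zpow_natCast, ← div_eq_one_iff_eq (zpow_ne_zero _ (hz.chi_ne_zero hγ)),
        ← zpow_sub₀ (hz.chi_ne_zero hγ), h10.zpow_eq_one_iff_dvd, h9] at h13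
      obtain ⟨k, hk⟩ := h13
      rw [h9] at h2
      have h14 : (e : ℤ) ≠ 0 := by have := h6.1; omega
      refine ⟨k, mul_left_cancel₀ h14 ?_⟩
      push_cast at h2 hk
      rw [h5]
      linarith
    · push Not at h4
      rw [hun P a h1 h4.1 h4.2, Subgroup.card_bot] at h2
      rw [(ha.ord_eq_zero h4.1).2, (ha1.ord_eq_zero (sub_ne_zero.2 h4.2)).2]
      omega
  have hR0 : R ≠ 0 := fun h1 => div_ne_zero hΨ h0 (by rw [hR, h1, zero_pow (by omega)])
  have hR0' : (R : M) ≠ 0 := fun h1 => hR0 (Subtype.ext h1)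
  refine ⟨y / R, div_ne_zero hy0 hR0', ?_, fun γ => by rw [smul_div₀', hy, smul_fix, mul_div_assoc]⟩
  rw [div_eq_iff h0] at hR
  have h1 : y ^ 6 = (R : M) ^ 6 * c • ((z : M) * (z - 1)) := congrArg Subtype.val hR
  rw [div_pow, h1, mul_div_cancel_left₀ _ (pow_ne_zero _ hR0'), Algebra.smul_def]

end Pool.Agent.Lib.MP_e06174_ag
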