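import Pool.Agent.Lib.MP_e06174_ag.Tor3

/-! Sections of the twisted elliptic curves over the compositum. -/

set_option linter.unusedSectionVars false

open Polynomial IntermediateField Module MulAction

namespace Pool.Agent.Lib.MP_e06174_ag

open Place

variable {G : Type} [Group G] [Finite G]
  {M Γ : Type} [Field M] [Algebra ℂ M] [Group Γ] [Finite Γ] [MulSemiringAction Γ M]
  [SMulCommClass Γ ℂ M] [FaithfulSMul Γ M] {z : Fix ℂ M Γ} {χ : G →* ℂ}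

omit [FaithfulSMul Γ M] in
lemma exists_smul_of_agree' {Ω : Type} [Field Ω] [Algebra ℂ Ω] (hgen : ℂ⟮z⟯ = ⊤)
    (δ δ' : M →ₐ[ℂ] Ω) (h : δ z = δ' z) : ∃ γ : Γ, ∀ m, δ' m = δ (γ • m) :=
  exists_smul_of_agree Γ δ δ' (algHom_ext_of_adjoin hgen (φ := δ.comp (Fix ℂ M Γ).val)
    (ψ := δ'.comp (Fix ℂ M Γ).val) (by rintro _ rfl; exact h))

section one

variable {F : Type} [Field F] [Algebra ℂ F] [MulSemiringAction G F] [SMulCommClass G ℂ F]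
  [FaithfulSMul G F] {t : Fix ℂ F G} {ψ : F →ₐ[ℂ] M}

lemma sq_mem_range' {Ω : Type} [Field Ω] [Algebra ℂ Ω] [IsAlgClosed Ω] (j : M →ₐ[ℂ] Ω)
    (hz : IsCoord ℂ (z : M)) (hgen : ℂ⟮z⟯ = ⊤)
    (hψ : ψ t = ((z : M) * (z - 1))⁻¹) {ρ : Γ →* G} (hρ : ∀ γ f, γ • ψ f = ψ (ρ γ • f)) (g : G) :
    g ^ 2 ∈ ρ.range := by
  have h1 : IsCoord ℂ (ψ t) := hz.of_transcendental (hψ ▸ transcendental_quad hz.trans)
  have h2 : ∀ g : G, ∃ δ : M →ₐ[ℂ] Ω, ∀ f, δ (ψ f) = j (ψ (g • f)) := fun g => by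
    let _ : Algebra F M := ψ.toRingHom.toAlgebra
    let _ : Algebra F Ω := (j.comp (ψ.comp (act F g))).toRingHom.toAlgebra
    have : IsScalarTower ℂ F M := .of_algebraMap_eq fun c => (ψ.commutes c).symm
    have : IsScalarTower ℂ F Ω :=
      .of_algebraMap_eq fun c => ((j.comp (ψ.comp (act F g))).commutes c).symm
    have : Algebra.IsAlgebraic F M := ⟨fun a =>
      (h1.isAlgebraic_map (AlgHom.id ℂ M) ψ.fieldRange ⟨t, rfl⟩ a).ringHom_of_comp_eq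
        (AlgEquiv.ofInjectiveField ψ).symm.toAlgHom.toRingHom (RingHom.id M)
        (RingHom.injective _) (RingHom.ext fun b => congrArg Subtype.val
          ((AlgEquiv.ofInjectiveField ψ).apply_symm_apply b))⟩
    let δ : M →ₐ[F] Ω := IsAlgClosed.lift
    exact ⟨δ.restrictScalars ℂ, fun f => δ.commutes f⟩
  choose δ hδ using h2
  have h3 : ∀ g, δ g z = j z ∨ δ g z = 1 - j z := fun g => by
    have h3 := hδ g t
    rw [smul_fix, hψ, map_inv₀, map_inv₀, inv_inj, map_mul, map_mul, map_sub, map_sub, map_one,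
      map_one] at h3
    exact (mul_eq_zero.1 (show (δ g z - j z) * (δ g z - (1 - j z)) = 0 by
      linear_combination h3)).imp sub_eq_zero.1 sub_eq_zero.1
  have h4 : ∀ a b, δ a z = δ b z → a⁻¹ * b ∈ ρ.range := fun a b h => by
    obtain ⟨γ, hγ⟩ := exists_smul_of_agree' hgen _ _ h
    refine ⟨γ, eq_inv_mul_of_mul_eq (eq_of_smul_eq_smul (α := F) fun f => ψ.injective
      (j.injective ?_))⟩
    change j (ψ _) = j (ψ _)
    rw [← hδ b, hγ, hρ, hδ, mul_smul]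
  by_cases h5 : δ g⁻¹ z = δ g z
  · simpa [sq] using h4 _ _ h5
  have h6 : ∀ a, δ 1 z = δ a z → a ^ 2 ∈ ρ.range := fun a h =>
    _root_.pow_mem (by simpa using h4 _ _ h) 2
  by_cases h7 : δ 1 z = δ g z
  · exact h6 g h7
  · have h8 : δ 1 z = δ g⁻¹ z := by
      rcases h3 1 with a | a <;> rcases h3 g with b | b <;> rcases h3 g⁻¹ with c | c <;> simp_all
    simpa using inv_mem (h6 _ h8)

lemma sq_mem_range (hz : IsCoord ℂ (z : M)) (hgen : ℂ⟮z⟯ = ⊤)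
    (hψ : ψ t = ((z : M) * (z - 1))⁻¹) {ρ : Γ →* G} (hρ : ∀ γ f, γ • ψ f = ψ (ρ γ • f)) (g : G) :
    g ^ 2 ∈ ρ.range :=
  sq_mem_range' (IsScalarTower.toAlgHom ℂ M (AlgebraicClosure M)) hz hgen hψ hρ g

lemma surjective_of_quad (ht : IsCoord ℂ (t : F)) (htg : ℂ⟮t⟯ = ⊤) (hz : IsCoord ℂ (z : M))
    (hgen : ℂ⟮z⟯ = ⊤) (hψ : ψ t = ((z : M) * (z - 1))⁻¹) {ρ : Γ →* G}
    (hρ : ∀ γ f, γ • ψ f = ψ (ρ γ • f)) {a b c : Place ℂ (Fix ℂ F G)} (h : Tri a b c)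
    (hb : b.ram = 2) (hc : c.ram = 3) {p : Place ℂ F} (hp : Nat.card (stabilizer G p) = 6)
    (hp' : stabilizer G p ≤ ρ.range) : Function.Surjective ρ := by
  obtain ⟨q, hq⟩ := ht.exists_under p
  rw [ht.card_stabilizer hq] at hp
  obtain rfl : q = a := by
    rcases h.cases q with rfl | rfl | rfl | ⟨-, -, -, h⟩
    · rfl
    all_goals omega
  obtain ⟨r, hr, h1⟩ := h.swap₂.swap₁.ret ht htg hq
  refine MonoidHom.range_eq_top.1 (top_le_iff.1 (h1 ▸ sup_le (fun g hg => ?_) hp'))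
  have h2 : g ^ 3 = 1 := by
    rw [← hc, ← ht.card_stabilizer hr]
    exact congrArg Subtype.val (pow_card_eq_one' (x := (⟨g, hg⟩ : stabilizer G r)))
  have := sq_mem_range hz hgen hψ hρ (g ^ 2)
  rwa [← pow_mul, show 2 * 2 = 3 + 1 from rfl, pow_succ, h2, one_mul] at this

end one

theorem exists_generators {n : ℕ} {F : Fin n → Type} [∀ i, Field (F i)] [∀ i, Algebra ℂ (F i)]
    [∀ i, MulSemiringAction G (F i)] [∀ i, SMulCommClass G ℂ (F i)] [∀ i, FaithfulSMul G (F i)]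
    {t : ∀ i, Fix ℂ (F i) G} (ht : ∀ i, IsCoord ℂ (t i : F i)) (hz : IsCoord ℂ (z : M))
    (hgen : ℂ⟮z⟯ = ⊤) {ψ : ∀ i, F i →ₐ[ℂ] M} (h : ∀ i, Tame χ z (ψ i)) {ρ : Fin n → Γ →* G}
    (hρ : ∀ i γ f, γ • ψ i f = ψ i (ρ i γ • f)) (hf : ∀ γ : Γ, (∀ i f, γ • ψ i f = ψ i f) → γ = 1) :
    (∀ (P : Place ℂ M) (a : ℂ), P.At (z : M) a → a ≠ 0 → a ≠ 1 → stabilizer Γ P = ⊥) ∧
    (∀ i l γ, χ (ρ i γ) = χ (ρ l γ)) ∧
    (∀ i, ∃ p : Place ℂ (F i), Nat.card (stabilizer G p) = 6 ∧ stabilizer G p ≤ (ρ i).range) ∧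
    ∃ γ₀ γ₁ : Γ, Subgroup.closure {γ₀, γ₁} = ⊤ ∧ ∀ i,
      χ (ρ i γ₀) ^ 2 - χ (ρ i γ₀) + 1 = 0 ∧ χ (ρ i γ₁) ^ 2 - χ (ρ i γ₁) + 1 = 0 := by
  have hun : ∀ (P : Place ℂ M) (a : ℂ), P.At (z : M) a → a ≠ 0 → a ≠ 1 → stabilizer Γ P = ⊥ := by
    refine fun P a ha h0 h1 => eq_bot_iff.2 fun γ hγ => hf γ fun i f => ?_
    obtain ⟨p, c, h2, -, h3⟩ := h i P a ha
    obtain ⟨h4, h5⟩ := h2.chi (ht i) hz (hρ i) hγ
    suffices ρ i γ = 1 by rw [hρ, this, one_smul]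
    rcases h3 h0 h1 with h6 | ⟨k, rfl⟩
    · rwa [Subgroup.card_eq_one.1 h6] at h4
    · refine (ht i).eq_one_of_chi h4 ?_
      have h7 : γ ^ Nat.card (stabilizer Γ P) = 1 :=
        congrArg Subtype.val (pow_card_eq_one' (x := (⟨γ, hγ⟩ : stabilizer Γ P)))
      rw [h5, pow_mul, ← hz.chi_pow hγ, h7, hz.chi_one, one_pow]
  have key : ∀ (P : Place ℂ M) (a : ℂ), P.At (z : M) a → a = 0 ∨ a = 1 → ∃ γ : Γ,
      Subgroup.zpowers γ = stabilizer Γ P ∧ ∃ ξ : ℂ, IsPrimitiveRoot ξ 6 ∧ ∀ i, χ (ρ i γ) = ξ ∧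
        ∃ p : Place ℂ (F i), Nat.card (stabilizer G p) = 6 ∧ stabilizer G p ≤ (ρ i).range := by
    intro P a ha h0
    obtain ⟨γ, hγ, h1, h2⟩ := exists_generator hz P
    by_cases h3 : 6 ∣ Nat.card (stabilizer Γ P)
    swap
    · refine ⟨γ, h1, _, Complex.isPrimitiveRoot_exp 6 (by omega), fun i => (h3 ?_).elim⟩
      obtain ⟨p, c, -, h4, -⟩ := h i P a ha
      exact Dvd.intro_left _ (h4 h0).2.2.symm
    obtain ⟨e, he⟩ := h3
    have h3 := h2.pow Nat.card_pos (he.trans (mul_comm _ _))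
    refine ⟨γ, h1, _, h3, fun i => ?_⟩
    obtain ⟨p, c, h4, h5, -⟩ := h i P a ha
    obtain ⟨h6, h7, h8⟩ := h5 h0
    obtain ⟨h9, h10⟩ := h4.chi (ht i) hz (hρ i) hγ
    obtain rfl : c = e := by omega
    refine ⟨(h7 _ h9).trans h10, p, h6, fun g hg => ?_⟩
    obtain ⟨k, -, hk⟩ := h3.eq_pow_of_pow_eq_one (ξ := p.chi g) (by
      rw [← (ht i).chi_pow hg, ← h6, show g ^ Nat.card (stabilizer G p) = 1 from
        congrArg Subtype.val (pow_card_eq_one' (x := (⟨g, hg⟩ : stabilizer G p))), (ht i).chi_one])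
    refine ⟨γ ^ k, (ht i).eq_of_chi (by rw [map_pow]; exact _root_.pow_mem h9 k) hg ?_⟩
    rw [map_pow, (ht i).chi_pow h9, h10, hk]
  obtain ⟨P₀, P₁, h0, h1, h2⟩ := ret hz hgen hun
  obtain ⟨γ₀, h3, ξ₀, h4, h5⟩ := key P₀ 0 h0 (Or.inl rfl)
  obtain ⟨γ₁, h6, ξ₁, h7, h8⟩ := key P₁ 1 h1 (Or.inr rfl)
  have h9 : Subgroup.closure {γ₀, γ₁} = ⊤ := by
    rw [← h2, ← h3, ← h6, Subgroup.zpowers_eq_closure, Subgroup.zpowers_eq_closure,
      ← Subgroup.closure_union, Set.singleton_union]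
  refine ⟨hun, fun i l γ => ?_, fun i => (h5 i).2, γ₀, γ₁, h9, fun i => ?_⟩
  · refine DFunLike.congr_fun (MonoidHom.eq_of_eqOn_dense h9 (f := χ.comp (ρ i))
      (g := χ.comp (ρ l)) ?_) γ
    rintro _ (rfl | rfl)
    · exact (h5 i).1.trans (h5 l).1.symm
    · exact (h8 i).1.trans (h8 l).1.symm
  · rw [(h5 i).1, (h8 i).1]
    exact ⟨sixth_root h4, sixth_root h7⟩

end Pool.Agent.Lib.MP_e06174_ag
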