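import Pool.Agent.Lib.MP_e06174_ag.Curve

/-! The tame bound on the codifferent. -/

set_option linter.unusedSectionVars false

open Polynomial IntermediateField

namespace Pool.Agent.Lib.MP_e06174_ag

namespace Place

variable {k B F : Type*} [Field k] [CharZero k] [Field B] [Field F] [Algebra k B] [Algebra k F]
  [Algebra B F] [IsScalarTower k B F] [FiniteDimensional B F]

lemma Over.of_comp {K E : Type*} [Field K] [Algebra k K] [Field E] [Algebra k E] {W : Place k K}
    {ι : F →ₐ[k] K} {j : E →ₐ[k] F} {v : Place k E} {e : ℕ} (h : W.Over (ι.comp j) v e) :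
    ∃ (w : Place k F) (c e' : ℕ), W.Over ι w c ∧ w.Over j v e' := by
  obtain ⟨π, hπ0, hπ⟩ := v.exists_ord_eq_one
  have h1 := h.2 π
  have h2 := h.1
  rw [hπ, AlgHom.comp_apply] at h1
  rcases W.restrict ι with h0 | ⟨w, c, hw⟩
  · rw [h0] at h1; omega
  rcases w.restrict j with h0 | ⟨v', e', hv'⟩
  · rw [hw.2, h0] at h1; omega
  have := (Over.comp hw hv').unique h
  exact ⟨w, c, e', hw, this.1 ▸ hv'⟩

lemma trace_ord_aux (N : Type*) [Field N] [Algebra k N] [Algebra B N] [Algebra F N]
    [IsScalarTower k F N] [IsScalarTower k B N] [IsScalarTower B F N] [FiniteDimensional B N]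
    [IsGalois B N] {v : Place k B} {w₀ : Place k F} {e₀ : ℕ}
    (h₀ : w₀.Over (IsScalarTower.toAlgHom k B F) v e₀) {y : F} {c : k} (hc : c ≠ 0)
    (hy : w₀.At y c)
    (hy' : ∀ (w : Place k F) (e : ℕ), w.Over (IsScalarTower.toAlgHom k B F) v e → w ≠ w₀ →
      w.Ge 1 y) :
    Algebra.trace B F y ≠ 0 ∧ v.ord (Algebra.trace B F y) = 0 := by
  classical
  have : CharZero F := charZero_of_injective_algebraMap (algebraMap k F).injective
  have : FiniteDimensional F N := Module.Finite.right B F N
  obtain ⟨W, E, hW⟩ := exists_over N w₀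
  have hWv : W.Over (IsScalarTower.toAlgHom k B N) v (E * e₀) := by
    have := hW.comp h₀
    rwa [show (IsScalarTower.toAlgHom k F N).comp (IsScalarTower.toAlgHom k B F) =
      IsScalarTower.toAlgHom k B N from
        AlgHom.ext fun b => (IsScalarTower.algebraMap_apply B F N b).symm] at this
  let ι : Gal(N/B) → (F →ₐ[k] N) := fun σ =>
    ((σ : N →ₐ[B] N).restrictScalars k).comp (IsScalarTower.toAlgHom k F N)
  have hι : ∀ σ, (ι σ).comp (IsScalarTower.toAlgHom k B F) = IsScalarTower.toAlgHom k B N := by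
    intro σ
    ext b
    change σ (algebraMap F N (algebraMap B F b)) = algebraMap B N b
    rw [← IsScalarTower.algebraMap_apply, AlgEquiv.commutes]
  have h1 : ∀ σ, ∃ (w : Place k F) (c e' : ℕ), W.Over (ι σ) w c ∧
      w.Over (IsScalarTower.toAlgHom k B F) v e' := fun σ => Over.of_comp (by rw [hι]; exact hWv)
  choose w cc ee hw using h1
  have h2 : ∀ σ : Gal(N/B), W.At (σ (algebraMap F N y)) (if w σ = w₀ then c else 0) := by
    intro σ
    change W.At (ι σ y) _
    rw [(hw σ).1.at_iff]
    split_ifs with h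
    · rwa [h]
    · simpa [At] using hy' _ _ (hw σ).2 h
  have h3 : W.At (∑ σ : Gal(N/B), σ (algebraMap F N y))
      (∑ σ : Gal(N/B), if w σ = w₀ then c else 0) := by
    rw [At, map_sum, ← Finset.sum_sub_distrib]
    exact Ge.sum fun σ _ => h2 σ
  have h4 : (∑ σ : Gal(N/B), if w σ = w₀ then c else 0) ≠ 0 := by
    rw [← Finset.sum_filter, Finset.sum_const, nsmul_eq_mul]
    refine mul_ne_zero ?_ hc
    rw [Nat.cast_ne_zero, Finset.card_ne_zero]
    exact ⟨1, by simpa using ((hw 1).1.unique hW).1⟩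
  have h5 := ord_eq_zero_of_ge_sub_const h4 h3
  rw [← trace_eq_sum_automorphisms, ← Algebra.trace_trace (S := F), Algebra.trace_algebraMap,
    map_nsmul, nsmul_eq_mul] at h5
  have h6 : Algebra.trace B F y ≠ 0 := by
    intro h; simp [h] at h5
  refine ⟨h6, ?_⟩
  have h7 := hWv.2 ((Module.finrank F N : B) * Algebra.trace B F y)
  have h8 : (Module.finrank F N : B) ≠ 0 := by
    intro h; simp [h] at h5
  rw [v.ord_mul h8 h6, ← map_natCast (algebraMap k B), ord_const, zero_add, map_natCast] at h7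
  have h9 : (0 : ℤ) < (E * e₀ : ℕ) := by have := hWv.1; omega
  have h10 : W.ord (IsScalarTower.toAlgHom k B N
    ((Module.finrank F N : B) * Algebra.trace B F y)) = 0 := h5.2
  rw [h10] at h7
  exact (mul_eq_zero.1 h7.symm).resolve_left h9.ne'

lemma trace_ord {v : Place k B} {w₀ : Place k F} {e₀ : ℕ}
    (h₀ : w₀.Over (IsScalarTower.toAlgHom k B F) v e₀) {y : F} {c : k} (hc : c ≠ 0)
    (hy : w₀.At y c)
    (hy' : ∀ (w : Place k F) (e : ℕ), w.Over (IsScalarTower.toAlgHom k B F) v e → w ≠ w₀ →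
      w.Ge 1 y) :
    Algebra.trace B F y ≠ 0 ∧ v.ord (Algebra.trace B F y) = 0 := by
  have : CharZero B := charZero_of_injective_algebraMap (algebraMap k B).injective
  let N := normalClosure B F (AlgebraicClosure F)
  have : IsScalarTower k F N := .of_algebraMap_eq fun c => by
    rw [IsScalarTower.algebraMap_apply k B F, ← IsScalarTower.algebraMap_apply B F N,
      ← IsScalarTower.algebraMap_apply k B N]
  have : IsGalois B N := {}
  exact trace_ord_aux N h₀ hc hy hy'

/-- An element of the codifferent at `v` has at most a pole of order `e - 1` above `v`. -/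
lemma ge_of_trace {v : Place k B} {w₀ : Place k F} {e₀ : ℕ}
    (h₀ : w₀.Over (IsScalarTower.toAlgHom k B F) v e₀)
    (hres : ∀ y, w₀.Ge 0 y → ∃ c, w₀.At y c) {f : F}
    (hf : ∀ g : F, (∀ (w : Place k F) (e : ℕ), w.Over (IsScalarTower.toAlgHom k B F) v e →
      w.Ge 0 g) → v.Ge 0 (Algebra.trace B F (f * g))) :
    w₀.Ge (1 - e₀) f := by
  classical
  have : CharZero B := charZero_of_injective_algebraMap (algebraMap k B).injective
  by_contra hcon
  rw [not_ge_iff] at hcon
  obtain ⟨hf0, hcon⟩ := hcon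
  obtain ⟨t, ht0, ht⟩ := v.exists_ord_eq_one
  have htF : algebraMap B F t ≠ 0 := by simpa using ht0
  let T := (finite_over F v).toFinset
  have hT : ∀ w e, w.Over (IsScalarTower.toAlgHom k B F) v e → w ∈ T := fun w e h => by
    simp only [T, Set.Finite.mem_toFinset]; exact ⟨e, h⟩
  obtain ⟨m, hm1, hm⟩ := exists_big T (fun _ => 1) (fun w => - w.ord (algebraMap B F t * f))
    (fun _ _ => one_pos) 0
  obtain ⟨y, hy0, hy, hyT⟩ := approx w₀ T 0 m
  obtain ⟨c, hc⟩ := hres y (ge_of_le hy.ge)
  have hc0 : c ≠ 0 := by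
    rintro rfl
    have := Ge.le hc (by simpa using hy0)
    simp at this; omega
  have h1 := trace_ord h₀ hc0 hc fun w e h hne => ge_of_le (by
    have := hyT w (hT w e h) hne; omega)
  have h2 := hf (y / (algebraMap B F t * f)) fun w e h => ge_of_le (by
    rw [w.ord_div hy0 (mul_ne_zero htF hf0)]
    by_cases hne : w = w₀
    · subst hne
      have h3 := h₀.2 t
      rw [ht] at h3
      change w.ord (algebraMap B F t) = _ at h3
      rw [w.ord_mul htF hf0, hy, h3]; omega
    · have := hyT w (hT w e h) hne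
      have := hm w (hT w e h)
      omega)
  have h3 : f * (y / (algebraMap B F t * f)) = t⁻¹ • y := by
    rw [Algebra.smul_def, map_inv₀]; field_simp
  rw [h3, map_smul, smul_eq_mul] at h2
  have h4 := h2.le (mul_ne_zero (inv_ne_zero ht0) h1.1)
  rw [v.ord_mul (inv_ne_zero ht0) h1.1, ord_inv, ht, h1.2] at h4
  omega

end Place

end Pool.Agent.Lib.MP_e06174_ag
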