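import Pool.Agent.Lib.MP_e06174_ag.Hur

/-! Classification of branch data and families of pluricanonical forms. -/

set_option linter.unusedSectionVars false

open Polynomial IntermediateField Module MulAction

namespace Pool.Agent.Lib.MP_e06174_ag

open Place

variable {k F G : Type*} [Field k] [Field F] [Algebra k F] [CharZero k] [IsAlgClosed k]
  [Group G] [Finite G] [MulSemiringAction G F] [SMulCommClass G k F] [FaithfulSMul G F]

/-- The form `Φ (dx)^m` is regular upstairs and has order at least `a` at big branch points. -/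
def Adm (x Φ : Fix k F G) (m a : ℕ) : Prop :=
  Φ ≠ 0 ∧ ∀ q : Place k (Fix k F G), (m : ℤ) ≤ q.ram * q.ord (Φ * q.loc x ^ m) ∧
    (6 ≤ q.ram → (a : ℤ) ≤ q.ord (Φ * q.loc x ^ m))

lemma Tri.swap₁ {a b c : Place k (Fix k F G)} (h : Tri a b c) : Tri b a c :=
  ⟨h.ab.symm, h.bc, h.ac, fun q h1 h2 h3 => h.ram q h2 h1 h3⟩

lemma Tri.swap₂ {a b c : Place k (Fix k F G)} (h : Tri a b c) : Tri a c b :=
  ⟨h.ac, h.ab, h.bc.symm, fun q h1 h2 h3 => h.ram q h1 h3 h2⟩

lemma Tri.cases {a b c : Place k (Fix k F G)} (h : Tri a b c) (q : Place k (Fix k F G)) :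
    q = a ∨ q = b ∨ q = c ∨ (q ≠ a ∧ q ≠ b ∧ q ≠ c ∧ q.ram = 1) := by
  by_cases h1 : q = a
  · exact Or.inl h1
  by_cases h2 : q = b
  · exact Or.inr (Or.inl h2)
  by_cases h3 : q = c
  · exact Or.inr (Or.inr (Or.inl h3))
  exact Or.inr (Or.inr (Or.inr ⟨h1, h2, h3, h.ram q h1 h2 h3⟩))

variable {x : Fix k F G}

lemma Tri.exists_form {a b c : Place k (Fix k F G)} (ht : Tri a b c) (h : IsCoord k (x : F))
    (hgen : k⟮x⟯ = ⊤) {m na nb nc : ℕ} (hs : na + nb + nc ≤ m) :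
    ∃ Φ : Fix k F G, Φ ≠ 0 ∧ (na : ℤ) ≤ a.ord (Φ * a.loc x ^ m) ∧
      (nb : ℤ) ≤ b.ord (Φ * b.loc x ^ m) ∧ (nc : ℤ) ≤ c.ord (Φ * c.loc x ^ m) ∧
      ∀ q : Place k (Fix k F G), q ≠ a → q ≠ b → q ≠ c → (m : ℤ) ≤ q.ord (Φ * q.loc x ^ m) := by
  classical
  obtain ⟨Φ, h1, h2, h3⟩ := h.fix.exists_del hgen m {a, b, c}
    (fun q => (if q = a then na else if q = b then nb else nc : ℕ) - m) (by
      rw [Finset.sum_insert (by simp [ht.ab, ht.ac]), Finset.sum_pair ht.bc]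
      simp only [if_true, if_neg ht.ab.symm, if_neg ht.ac.symm, if_neg ht.bc.symm]
      omega)
  have ha := h2 a (by simp)
  have hb := h2 b (by simp)
  have hc := h2 c (by simp)
  simp only [if_true, if_neg ht.ab.symm, if_neg ht.ac.symm, if_neg ht.bc.symm, del] at ha hb hc
  refine ⟨Φ, h1, by omega, by omega, by omega, fun q hqa hqb hqc => ?_⟩
  have := h3 q (by simp [hqa, hqb, hqc])
  rw [del] at this
  omega

lemma Tri.exists_adm {a b c : Place k (Fix k F G)} (ht : Tri a b c) (h : IsCoord k (x : F))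
    (hgen : k⟮x⟯ = ⊤) {m na nb nc s : ℕ} (hs : na + nb + nc ≤ m)
    (ha : m ≤ a.ram * na ∧ (6 ≤ a.ram → s ≤ na)) (hb : m ≤ b.ram * nb ∧ (6 ≤ b.ram → s ≤ nb))
    (hc : m ≤ c.ram * nc ∧ (6 ≤ c.ram → s ≤ nc)) :
    ∃ Φ : Fix k F G, Adm x Φ m s ∧ (nc : ℤ) ≤ c.ord (Φ * c.loc x ^ m) := by
  obtain ⟨Φ, h0, h1, h2, h3, h4⟩ := ht.exists_form h hgen hs
  have key : ∀ (q : Place k (Fix k F G)) (n : ℕ), (n : ℤ) ≤ q.ord (Φ * q.loc x ^ m) →
      m ≤ q.ram * n ∧ (6 ≤ q.ram → s ≤ n) → (m : ℤ) ≤ q.ram * q.ord (Φ * q.loc x ^ m) ∧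
      (6 ≤ q.ram → (s : ℤ) ≤ q.ord (Φ * q.loc x ^ m)) := fun q n h5 h6 => by
    refine ⟨?_, fun h7 => by have := h6.2 h7; omega⟩
    have h7 : (m : ℤ) ≤ q.ram * n := by exact_mod_cast h6.1
    nlinarith
  refine ⟨Φ, ⟨h0, fun q => ?_⟩, h3⟩
  rcases ht.cases q with rfl | rfl | rfl | ⟨hqa, hqb, hqc, hq⟩
  · exact key _ _ h1 ha
  · exact key _ _ h2 hb
  · exact key _ _ h3 hc
  · exact key _ _ (h4 q hqa hqb hqc) (by rw [hq]; omega)

lemma classify_tri (h : IsCoord k (x : F)) (hgen : k⟮x⟯ = ⊤) {a b c : Place k (Fix k F G)}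
    (ht : Tri a b c) (ha : 2 ≤ a.ram) (hab : a.ram ≤ b.ram) (hbc : b.ram ≤ c.ram)
    (hs : 1 / (a.ram : ℚ) + 1 / b.ram + 1 / c.ram ≤ 1) :
    (∃ Φ, Adm x Φ 12 4) ∨ ∃ a b c : Place k (Fix k F G), Tri a b c ∧ a.ram = 2 ∧ 6 ≤ c.ram ∧
      (b.ram = 3 ∨ 4 ≤ b.ram) := by
  by_cases h1 : 3 ≤ a.ram
  · obtain ⟨Φ, h2, -⟩ := ht.exists_adm h hgen (m := 12) (na := 4) (nb := 4) (nc := 4) (s := 4)
      (by omega) (by omega) (by omega) (by omega)
    exact Or.inl ⟨Φ, h2⟩
  have h2 : a.ram = 2 := by omega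
  have hc : (0 : ℚ) < 1 / c.ram := by
    have : (0 : ℚ) < c.ram := by exact_mod_cast c.one_le_ram
    positivity
  have h3 : b.ram ≠ 2 := fun h3 => by
    rw [h2, h3] at hs
    norm_num at hs hc
    linarith
  by_cases h4 : 6 ≤ c.ram
  · exact Or.inr ⟨a, b, c, ht, h2, h4, by omega⟩
  have h5 : b.ram ≠ 3 := fun h5 => by
    rw [h2, h5] at hs
    have : c.ram = 3 ∨ c.ram = 4 ∨ c.ram = 5 := by omega
    rcases this with h6 | h6 | h6 <;> rw [h6] at hs <;> norm_num at hs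
  obtain ⟨Φ, h6, -⟩ := ht.exists_adm h hgen (m := 12) (na := 6) (nb := 3) (nc := 3) (s := 4)
    (by omega) (by omega) (by omega) (by omega)
  exact Or.inl ⟨Φ, h6⟩

variable (G) in
theorem classify {y : F} (hy : IsCoord k y) (hirr : ∀ t : F, k⟮t⟯ ≠ ⊤) :
    ∃ x : Fix k F G, IsCoord k (x : F) ∧ ((∃ Φ, Adm x Φ 12 4) ∨ (k⟮x⟯ = ⊤ ∧
      ∃ a b c : Place k (Fix k F G), Tri a b c ∧ a.ram = 2 ∧ 6 ≤ c.ram ∧
        (b.ram = 3 ∨ 4 ≤ b.ram))) := by
  classical
  obtain ⟨x, hx, h | h⟩ := hy.exists_fix G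
  · obtain ⟨f, hf, hf'⟩ := hx.fix.exists_regular h
    refine ⟨x, hx, Or.inl ⟨f ^ 12, pow_ne_zero _ hf, fun q => ?_⟩⟩
    have h1 := hf' q
    have h2 : (1 : ℤ) ≤ q.ram := by exact_mod_cast q.one_le_ram
    rw [← mul_pow, ord_pow]
    exact ⟨by push_cast; nlinarith, fun _ => by omega⟩
  refine ⟨x, hx, ?_⟩
  obtain ⟨T₀, hT₀⟩ := exists_sum_ram hx h hirr
  let T := hx.finite_branch.toFinset
  have hT : ∀ q, q ∈ T ↔ 2 ≤ q.ram := fun q => by
    have := q.one_le_ram
    simp only [T, Set.Finite.mem_toFinset, Set.mem_ofPred_eq]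
    omega
  have hT' : ∀ q ∉ T, q.ram = 1 := fun q hq => by
    have := q.one_le_ram
    rw [hT] at hq
    omega
  have hlt : ∀ q : Place k (Fix k F G), 0 ≤ 1 - 1 / (q.ram : ℚ) ∧ 1 - 1 / (q.ram : ℚ) < 1 :=
    fun q => by
      have h1 : (1 : ℚ) ≤ q.ram := by exact_mod_cast q.one_le_ram
      have h2 : 0 < 1 / (q.ram : ℚ) := by positivity
      have h3 : 1 / (q.ram : ℚ) ≤ 1 := by rwa [div_le_one (by positivity)]
      constructor <;> linarith
  have h1 : 2 ≤ ∑ q ∈ T, (1 - 1 / (q.ram : ℚ)) := by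
    rw [Finset.sum_subset (Finset.subset_union_left (s₂ := T₀))
      fun q _ hq => by simp [hT' q hq]]
    exact hT₀.trans (Finset.sum_le_sum_of_subset_of_nonneg Finset.subset_union_right
      fun q _ _ => (hlt q).1)
  have h3 : 2 < T.card := by
    have hne : T.Nonempty := by
      rw [Finset.nonempty_iff_ne_empty]
      intro h4
      rw [h4] at h1
      norm_num at h1
    have := Finset.sum_lt_sum_of_nonempty hne fun q _ => (hlt q).2
    simp only [Finset.sum_const, nsmul_eq_mul, mul_one] at this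
    exact_mod_cast h1.trans_lt this
  by_cases h4 : T.card = 3
  · obtain ⟨a, b, c, hab, hac, hbc, h5⟩ := Finset.card_eq_three.1 h4
    have ht : Tri a b c := ⟨hab, hac, hbc, fun q h6 h7 h8 => hT' q (by simp [h5, h6, h7, h8])⟩
    have ha := (hT a).1 (by simp [h5])
    have hb := (hT b).1 (by simp [h5])
    have hc := (hT c).1 (by simp [h5])
    rw [h5, Finset.sum_insert (by simp [hab, hac]), Finset.sum_pair hbc] at h1
    refine Or.imp_right (fun h6 => ⟨h, h6⟩) ?_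
    rcases le_total a.ram b.ram with h6 | h6 <;> rcases le_total b.ram c.ram with h7 | h7 <;>
      rcases le_total a.ram c.ram with h8 | h8
    · exact classify_tri hx h ht ha h6 h7 (by linarith)
    · exact classify_tri hx h ht ha h6 h7 (by linarith)
    · exact classify_tri hx h ht.swap₂ ha h8 h7 (by linarith)
    · exact classify_tri hx h ht.swap₂.swap₁ hc h8 h6 (by linarith)
    · exact classify_tri hx h ht.swap₁ hb h6 h8 (by linarith)
    · exact classify_tri hx h ht.swap₁.swap₂ hb h7 h8 (by linarith)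
    · exact classify_tri hx h ht.swap₁.swap₂.swap₁ hc h7 h6 (by linarith)
    · exact classify_tri hx h ht.swap₁.swap₂.swap₁ hc h7 h6 (by linarith)
  · obtain ⟨Φ, h5, h6, h7⟩ := hx.fix.exists_del h 12 T (fun _ => -6) (by
      simp only [Finset.sum_const, nsmul_eq_mul]; omega)
    refine Or.inl ⟨Φ, h5, fun q => ?_⟩
    by_cases hq : q ∈ T
    · have h8 := h6 q hq
      have h9 : (2 : ℤ) ≤ q.ram := by exact_mod_cast (hT q).1 hq
      rw [del] at h8
      exact ⟨by push_cast at h8 ⊢; nlinarith, fun _ => by omega⟩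
    · have h8 := h7 q hq
      rw [del] at h8
      rw [hT' q hq]
      exact ⟨by omega, fun _ => by omega⟩

/-- Many linearly independent pluricanonical forms with prescribed vanishing. -/
theorem exists_family (h : IsCoord k (x : F)) (hgen : k⟮x⟯ = ⊤) :
    ∃ c : ℕ, ∀ (m M : ℕ) (T : Finset (Place k (Fix k F G))) (n : Place k (Fix k F G) → ℕ),
      (∀ q ∉ T, n q ≤ m) → ∑ q ∈ T, ((n q : ℤ) - m) + (M + c) ≤ -2 * m →
      ∃ W : Fin (Nat.card G) × Fin M → F, LinearIndependent k W ∧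
        ∀ s (p : Place k F) (q : Place k (Fix k F G)), p.Over (Fix k F G).val q q.ram →
          p.Ge (q.ram * n q) (W s * p.loc (x : F) ^ m) := by
  classical
  obtain ⟨c, hc⟩ := h.exists_many
  refine ⟨c, fun m M T n hn hs => ?_⟩
  obtain ⟨w, hw, hw1, hw2⟩ := hc M
  obtain ⟨q₀, hq₀⟩ := h.fix.exists_pole
  obtain ⟨Φ, h1, h2, h3⟩ := h.fix.exists_del hgen m (insert q₀ T)
    (fun q => (if q ∈ T then (n q : ℤ) - m else 0) + if q = q₀ then (M + c : ℤ) else 0) (by
      rw [Finset.sum_add_distrib, Finset.sum_ite_eq', if_pos (Finset.mem_insert_self _ _),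
        Finset.sum_ite_mem, Finset.inter_eq_right.2 (Finset.subset_insert _ _)]
      exact hs)
  have h4 : ∀ q : Place k (Fix k F G), (n q : ℤ) + (if q = q₀ then (M + c : ℤ) else 0) ≤
      q.ord (Φ * q.loc x ^ m) := fun q => by
    by_cases hq : q ∈ insert q₀ T
    · have := h2 q hq
      rw [del] at this
      by_cases hqT : q ∈ T
      · rw [if_pos hqT] at this; omega
      · rw [if_neg hqT] at this
        have := hn q hqT
        omega
    · have := h3 q hq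
      rw [Finset.mem_insert, not_or] at hq
      have := hn q hq.2
      rw [del] at *
      rw [if_neg hq.1]
      omega
  rw [← finrank_eq_card hgen]
  refine ⟨fun s => (Φ : F) * w s, ?_, fun s p q hp => ?_⟩
  · exact hw.map' (LinearMap.mulLeft k (Φ : F))
      (LinearMap.ker_eq_bot.2 (mul_right_injective₀ fun h5 => h1 (Subtype.ext h5)))
  · have h5 : p.Ge (q.ram * (n q + if q = q₀ then (M + c : ℤ) else 0))
        ((Φ : F) * p.loc (x : F) ^ m) := by
      have := (hp.ge_iff _ _).2 (ge_of_le (h4 q))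
      rwa [map_mul, map_pow, ← hp.loc_eq] at this
    rw [mul_right_comm]
    by_cases hq : q = q₀
    · subst hq
      have h6 : p.ord (x : F) = q.ram * -1 := by
        rw [← ord_eq_neg_one_of_pole hq₀ h.fix.trans hgen]; exact hp.2 x
      have h7 : (1 : ℤ) ≤ q.ram := by exact_mod_cast q.one_le_ram
      refine h5.mul' (hw2 s p (by omega)) ?_
      rw [h6, if_pos rfl]
      linarith
    · refine h5.mul' (hw1 s p ?_) (by rw [if_neg hq]; simp)
      refine (hp.ge_zero_iff x).2 (ge_of_le (not_lt.1 fun h6 => hq ?_))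
      exact ext_pole h6 hq₀ h.fix.trans hgen

end Pool.Agent.Lib.MP_e06174_ag
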