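import Pool.Agent.Lib.MP_e06174_ag.Loc4

/-! Weights of product forms, triangle types, and the product formula for characters. -/

set_option linter.unusedSectionVars false

open Polynomial IntermediateField Module MulAction

namespace Pool.Agent.Lib.MP_e06174_ag

open Place

variable {k F G : Type*} [Field k] [Field F] [Algebra k F] [CharZero k] [IsAlgClosed k]
  [Group G] [Finite G] [MulSemiringAction G F] [SMulCommClass G k F] [FaithfulSMul G F]

/-- There is an invariant form `Φ (dx)^m` that is regular upstairs with orders at least `nn`. -/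
def Wt (x : Fix k F G) (m : ℕ) (nn : Place k (Fix k F G) → ℕ) : Prop :=
  (∀ q : Place k (Fix k F G), m ≤ q.ram * nn q) ∧
    ∃ Φ : Fix k F G, Φ ≠ 0 ∧ ∀ q, (nn q : ℤ) ≤ q.ord (Φ * q.loc x ^ m)

variable (k F G) in
/-- Exactly three branch points, of Euclidean or hyperbolic type. -/
def TT : Prop :=
  ∃ a b c : Place k (Fix k F G), Tri a b c ∧ 2 ≤ a.ram ∧ a.ram ≤ b.ram ∧ b.ram ≤ c.ram ∧
    1 / (a.ram : ℚ) + 1 / b.ram + 1 / c.ram ≤ 1

variable {x : Fix k F G}

lemma Tri.wt {a b c : Place k (Fix k F G)} (ht : Tri a b c) (h : IsCoord k (x : F))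
    (hgen : k⟮x⟯ = ⊤) {m na nb nc : ℕ} (hs : na + nb + nc ≤ m) (ha : m ≤ a.ram * na)
    (hb : m ≤ b.ram * nb) (hc : m ≤ c.ram * nc) :
    ∃ nn, Wt x m nn ∧ nn a = na ∧ nn b = nb ∧ nn c = nc := by
  classical
  obtain ⟨Φ, h0, h1, h2, h3, h4⟩ := ht.exists_form h hgen hs
  refine ⟨fun q => if q = a then na else if q = b then nb else if q = c then nc else m,
    ⟨fun q => ?_, Φ, h0, fun q => ?_⟩, by simp, by simp [ht.ab.symm],
    by simp [ht.ac.symm, ht.bc.symm]⟩ <;>
  rcases ht.cases q with rfl | rfl | rfl | ⟨hqa, hqb, hqc, hq⟩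
  · simpa using ha
  · simpa [ht.ab.symm] using hb
  · simpa [ht.ac.symm, ht.bc.symm] using hc
  · simp [hqa, hqb, hqc, hq]
  · simpa using h1
  · simpa [ht.ab.symm] using h2
  · simpa [ht.ac.symm, ht.bc.symm] using h3
  · simpa [hqa, hqb, hqc] using h4 q hqa hqb hqc

/-- A version with a lower bound on the places satisfying a predicate. -/
lemma Tri.wt' {a b c : Place k (Fix k F G)} (ht : Tri a b c) (h : IsCoord k (x : F))
    (hgen : k⟮x⟯ = ⊤) {m na nb nc s : ℕ} (hs : na + nb + nc ≤ m) (ha : m ≤ a.ram * na)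
    (hb : m ≤ b.ram * nb) (hc : m ≤ c.ram * nc) {P : Place k (Fix k F G) → Prop}
    (hP : ∀ q, P q → q.ram ≠ 1) (ha' : P a → s ≤ na) (hb' : P b → s ≤ nb) (hc' : P c → s ≤ nc) :
    ∃ nn, Wt x m nn ∧ ∀ q, P q → s ≤ nn q := by
  obtain ⟨nn, h1, h2, h3, h4⟩ := ht.wt h hgen hs ha hb hc
  refine ⟨nn, h1, fun q hq => ?_⟩
  rcases ht.cases q with rfl | rfl | rfl | ⟨-, -, -, h5⟩
  · exact h2 ▸ ha' hq
  · exact h3 ▸ hb' hq
  · exact h4 ▸ hc' hq
  · exact absurd h5 (hP q hq)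

variable (G) in
theorem classify4 {y : F} (hy : IsCoord k y) (hirr : ∀ t : F, k⟮t⟯ ≠ ⊤) :
    ∃ x : Fix k F G, IsCoord k (x : F) ∧ ((∃ nn, Wt x 12 nn ∧ ∀ q, 6 ≤ nn q) ∨
      (k⟮x⟯ = ⊤ ∧ TT k F G)) := by
  classical
  obtain ⟨x, hx, h | h⟩ := hy.exists_fix G
  · obtain ⟨f, hf, hf'⟩ := hx.fix.exists_regular h
    refine ⟨x, hx, Or.inl ⟨fun _ => 12, ⟨fun q => Nat.le_mul_of_pos_left _ q.one_le_ram,
      f ^ 12, pow_ne_zero _ hf, fun q => ?_⟩, fun _ => by norm_num⟩⟩
    have h1 := hf' q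
    rw [← mul_pow, ord_pow]
    beta_reduce
    omega
  refine ⟨x, hx, ?_⟩
  obtain ⟨T₀, hT₀⟩ := exists_sum_ram hx h hirr
  let T := hx.finite_branch.toFinset
  have hT : ∀ q, q ∈ T ↔ 2 ≤ q.ram := fun q => by
    have := q.one_le_ram
    simp only [T, Set.Finite.mem_toFinset, Set.mem_ofPred_eq]
    omega
  have hT' : ∀ q ∉ T, q.ram = 1 := fun q hq => by
    have := q.one_le_ram
    rw [hT] at hq
    omega
  have hlt : ∀ q : Place k (Fix k F G), 0 ≤ 1 - 1 / (q.ram : ℚ) ∧ 1 - 1 / (q.ram : ℚ) < 1 :=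
    fun q => by
      have h1 : (1 : ℚ) ≤ q.ram := by exact_mod_cast q.one_le_ram
      have h2 : 0 < 1 / (q.ram : ℚ) := by positivity
      have h3 : 1 / (q.ram : ℚ) ≤ 1 := by rwa [div_le_one (by positivity)]
      constructor <;> linarith
  have h1 : 2 ≤ ∑ q ∈ T, (1 - 1 / (q.ram : ℚ)) := by
    rw [Finset.sum_subset (Finset.subset_union_left (s₂ := T₀))
      fun q _ hq => by simp [hT' q hq]]
    exact hT₀.trans (Finset.sum_le_sum_of_subset_of_nonneg Finset.subset_union_right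
      fun q _ _ => (hlt q).1)
  have h3 : 2 < T.card := by
    have hne : T.Nonempty := by
      rw [Finset.nonempty_iff_ne_empty]
      intro h4
      rw [h4] at h1
      norm_num at h1
    have := Finset.sum_lt_sum_of_nonempty hne fun q _ => (hlt q).2
    simp only [Finset.sum_const, nsmul_eq_mul, mul_one] at this
    exact_mod_cast h1.trans_lt this
  by_cases h4 : T.card = 3
  · obtain ⟨a, b, c, hab, hac, hbc, h5⟩ := Finset.card_eq_three.1 h4
    have ht : Tri a b c := ⟨hab, hac, hbc, fun q h6 h7 h8 => hT' q (by simp [h5, h6, h7, h8])⟩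
    have ha := (hT a).1 (by simp [h5])
    have hb := (hT b).1 (by simp [h5])
    have hc := (hT c).1 (by simp [h5])
    rw [h5, Finset.sum_insert (by simp [hab, hac]), Finset.sum_pair hbc] at h1
    refine Or.inr ⟨h, ?_⟩
    rcases le_total a.ram b.ram with h6 | h6 <;> rcases le_total b.ram c.ram with h7 | h7 <;>
      rcases le_total a.ram c.ram with h8 | h8
    · exact ⟨_, _, _, ht, ha, h6, h7, by linarith⟩
    · exact ⟨_, _, _, ht, ha, h6, h7, by linarith⟩
    · exact ⟨_, _, _, ht.swap₂, ha, h8, h7, by linarith⟩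
    · exact ⟨_, _, _, ht.swap₂.swap₁, hc, h8, h6, by linarith⟩
    · exact ⟨_, _, _, ht.swap₁, hb, h6, h8, by linarith⟩
    · exact ⟨_, _, _, ht.swap₁.swap₂, hb, h7, h8, by linarith⟩
    · exact ⟨_, _, _, ht.swap₁.swap₂.swap₁, hc, h7, h6, by linarith⟩
    · exact ⟨_, _, _, ht.swap₁.swap₂.swap₁, hc, h7, h6, by linarith⟩
  · obtain ⟨Φ, h5, h6, h7⟩ := hx.fix.exists_del h 12 T (fun _ => -6) (by
      simp only [Finset.sum_const, nsmul_eq_mul]; omega)
    refine Or.inl ⟨fun q => if q ∈ T then 6 else 12, ⟨fun q => ?_, Φ, h5, fun q => ?_⟩,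
      fun q => by beta_reduce; split_ifs <;> omega⟩
    · beta_reduce
      split_ifs with hq
      · have := (hT q).1 hq; omega
      · have := q.one_le_ram; omega
    · beta_reduce
      split_ifs with hq
      · have h8 := h6 q hq
        rw [del] at h8
        omega
      · have h8 := h7 q hq
        rw [del] at h8
        omega

/-- A triangle type is `(2, 3, r)` with `r ≥ 6`, `(2, s, t)` with `s ≥ 4`, or has indices `≥ 3`. -/
lemma TT.cases (h : TT k F G) : TA k F G (6 ≤ ·) ∨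
    (∃ a b c : Place k (Fix k F G), Tri a b c ∧ a.ram = 2 ∧ 4 ≤ b.ram ∧ b.ram ≤ c.ram) ∨
    ∃ a b c : Place k (Fix k F G), Tri a b c ∧ 3 ≤ a.ram ∧ a.ram ≤ b.ram ∧ b.ram ≤ c.ram := by
  obtain ⟨a, b, c, ht, ha, hab, hbc, hs⟩ := h
  by_cases h1 : 3 ≤ a.ram
  · exact Or.inr (Or.inr ⟨a, b, c, ht, h1, hab, hbc⟩)
  have h2 : a.ram = 2 := by omega
  have hc : (0 : ℚ) < 1 / c.ram := by
    have : (0 : ℚ) < c.ram := by exact_mod_cast c.one_le_ram
    positivity
  have h3 : b.ram ≠ 2 := fun h3 => by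
    rw [h2, h3] at hs
    norm_num at hs hc
    linarith
  by_cases h4 : b.ram = 3
  · refine Or.inl ⟨a, b, c, ht, h2, h4, ?_⟩
    by_contra h5
    rw [h2, h4] at hs
    have : c.ram = 3 ∨ c.ram = 4 ∨ c.ram = 5 := by omega
    rcases this with h6 | h6 | h6 <;> rw [h6] at hs <;> norm_num at hs
  · exact Or.inr (Or.inl ⟨a, b, c, ht, h2, by omega, hbc⟩)

lemma IsCoord.exists_chi_eq (h : IsCoord k (x : F)) (p : Place k F) {ξ : k}
    (hξ : ξ ^ Nat.card (stabilizer G p) = 1) : ∃ g ∈ stabilizer G p, p.chi g = ξ := by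
  obtain ⟨g, hg⟩ := (h.isCyclic (G := G) p).exists_ofOrder_eq_natCard
  have h1 : IsPrimitiveRoot (h.chiHom G p g) (Nat.card (stabilizer G p)) := by
    rw [← hg, ← orderOf_injective _ (h.chiHom_injective p) g]
    exact IsPrimitiveRoot.orderOf _
  have : NeZero (Nat.card (stabilizer G p)) := ⟨Nat.card_pos.ne'⟩
  obtain ⟨i, -, hi⟩ := h1.eq_pow_of_pow_eq_one hξ
  exact ⟨(g ^ i : stabilizer G p), (g ^ i).2, (map_pow (h.chiHom G p) g i).trans hi⟩

lemma IsCoord.chi_zpow_ord (h : IsCoord k (x : F)) {p : Place k F} {g : G}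
    (hg : g ∈ stabilizer G p) {y : F} (hy : y ≠ 0) {c : k} (hc : g • y = algebraMap k F c * y) :
    p.chi g ^ p.ord y = c := by
  have h1 : p.At (g • y / y) c := by
    rw [hc, mul_div_cancel_right₀ _ hy]; exact p.at_const c
  refine At.unique ?_ h1
  have h2 := h.at_chi hg p.unif_ne_zero p.ord_unif
  have h0 := p.unif_ne_zero
  have hg0 : g • p.unif ≠ 0 := (smul_ne_zero_iff_ne g).2 h0
  obtain ⟨s, hs | hs⟩ := (p.ord y).eq_nat_or_neg
  · have h3 := h2.pow s
    rw [div_pow, ← smul_pow'] at h3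
    rw [hs, zpow_natCast]
    exact h3.of_ord_eq (h.mem_inertia hg) (pow_ne_zero _ h0) hy (by simp [hs])
  · have h3 := h2.pow s
    rw [div_pow, ← smul_pow'] at h3
    have h4 := h3.of_ord_eq (h.mem_inertia hg) (pow_ne_zero _ h0) (inv_ne_zero hy) (by simp [hs])
    have h5 := h4.mul h1
    rw [smul_inv'', inv_div_inv, div_mul_div_cancel₀ ((smul_ne_zero_iff_ne g).2 hy),
      div_self hy] at h5
    have h6 := h5.unique (by simpa using p.at_const 1)
    rw [hs, zpow_neg, zpow_natCast, inv_eq_of_mul_eq_one_right h6]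
    exact h1

/-- The product formula for a character evaluated on normalised inertia generators. -/
theorem Tri.prod_char {a b c : Place k (Fix k F G)} (ht : Tri a b c) (h : IsCoord k (x : F))
    (hgen : k⟮x⟯ = ⊤) (χ : G →* k) {ξ : k} (hξ : IsPrimitiveRoot ξ (Nat.card G))
    {pa pb pc : Place k F} (ha : pa.Over (Fix k F G).val a a.ram)
    (hb : pb.Over (Fix k F G).val b b.ram) (hc : pc.Over (Fix k F G).val c c.ram)
    {ga gb gc : G} (hga : ga ∈ stabilizer G pa) (hgb : gb ∈ stabilizer G pb)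
    (hgc : gc ∈ stabilizer G pc) (ha' : pa.chi ga = ξ ^ (Nat.card G / a.ram))
    (hb' : pb.chi gb = ξ ^ (Nat.card G / b.ram)) (hc' : pc.chi gc = ξ ^ (Nat.card G / c.ram)) :
    χ ga * χ gb * χ gc = 1 := by
  classical
  obtain ⟨y, hy0, hy⟩ := exists_eigen (F := F) χ
  have hξ0 : ξ ≠ 0 := hξ.ne_zero Nat.card_pos.ne'
  let Ψ : Fix k F G := ⟨y ^ Nat.card G, mem_fix.2 fun g => by
    rw [smul_pow', hy, mul_pow, ← map_pow, ← map_pow, pow_card_eq_one', map_one, map_one, one_mul]⟩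
  have hΨ : Ψ ≠ 0 := fun h1 => pow_ne_zero _ hy0 (congrArg Subtype.val h1)
  have h1 : ∀ {q : Place k (Fix k F G)} {p : Place k F}, p.Over (Fix k F G).val q q.ram →
      q.ord Ψ = (Nat.card G / q.ram : ℕ) * p.ord y := fun {q p} hp => by
    have h1 := hp.2 Ψ
    have h2 : q.ram ∣ Nat.card G := h.card_stabilizer hp ▸ Subgroup.card_subgroup_dvd_card _
    have h3 : (q.ram : ℤ) ≠ 0 := by have := q.one_le_ram; omega
    change p.ord (y ^ Nat.card G) = _ at h1
    rw [ord_pow, ← Nat.mul_div_cancel' h2] at h1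
    apply mul_left_cancel₀ h3
    rw [← h1]
    push_cast
    ring
  have h2 : ∀ {q : Place k (Fix k F G)} {p : Place k F} {g : G},
      p.Over (Fix k F G).val q q.ram → g ∈ stabilizer G p →
      p.chi g = ξ ^ (Nat.card G / q.ram) → χ g = ξ ^ q.ord Ψ := fun {q p g} hp hg hg' => by
    rw [← h.chi_zpow_ord hg hy0 (hy g), hg', h1 hp, zpow_mul, zpow_natCast]
  rw [h2 ha hga ha', h2 hb hgb hb', h2 hc hgc hc', ← zpow_add₀ hξ0, ← zpow_add₀ hξ0,
    hξ.zpow_eq_one_iff_dvd]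
  obtain ⟨T, hT, hs⟩ := h.fix.exists_sum_del hgen 0 hΨ
  simp only [del, pow_zero, mul_one, Nat.cast_zero, sub_zero, mul_zero] at hT hs
  rw [Finset.sum_subset (Finset.subset_union_right (s₁ := {a, b, c})) fun q _ hq => hT q hq,
    ← Finset.sum_sdiff (Finset.subset_union_left (s₁ := {a, b, c})),
    Finset.sum_insert (by simp [ht.ab, ht.ac]), Finset.sum_pair ht.bc, ← add_assoc (a.ord Ψ)] at hs
  rw [eq_neg_of_add_eq_zero_right hs, dvd_neg]
  refine Finset.dvd_sum fun q hq => ?_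
  have h3 := (Finset.mem_sdiff.1 hq).2
  simp only [Finset.mem_insert, Finset.mem_singleton, not_or] at h3
  obtain ⟨p, hp⟩ := q.exists_over_ram
  rw [h1 hp, ht.ram q h3.1 h3.2.1 h3.2.2, Nat.div_one]
  exact Dvd.intro _ rfl

end Pool.Agent.Lib.MP_e06174_ag
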