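import Pool.Agent.Lib.MP_e06174_ag.Loc

/-! The dimension count producing a form that vanishes at the bad points. -/

set_option linter.unusedSectionVars false

open Polynomial IntermediateField Module MulAction

namespace Pool.Agent.Lib.MP_e06174_ag.Setup

open Place

variable {F : Fin 5 → Type} [∀ i, Field (F i)] [∀ i, Algebra ℂ (F i)]
  {G : Type} [Group G] [Finite G] [∀ i, MulSemiringAction G (F i)] [∀ i, SMulCommClass G ℂ (F i)]
  {K : Type} [Field K] [Algebra ℂ K] [MulSemiringAction G K] [SMulCommClass G ℂ K]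
  {ι : ∀ i, F i →ₐ[ℂ] K} (S : Setup G ι) [∀ i, FaithfulSMul G (F i)] [FaithfulSMul G K]
include S

theorem count (d : Fin 5 → ℕ) {j : Fin 5} (hd : d j = 1)
    (Big : ∀ i, Finset (Place ℂ (Fix ℂ (F i) G)))
    (hBig : ∀ i (q : Place ℂ (Fix ℂ (F i) G)), 6 ≤ q.ram → q ∈ Big i) {κ : ℕ}
    (hκ : ∀ (p : Place ℂ (F j)) (q : Place ℂ (Fix ℂ (F j) G)),
      p.Over (Fix ℂ (F j) G).val q q.ram → 6 ≤ q.ram →
        κ ≤ (Subgroup.centralizer (stabilizer G p : Set G)).index) :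
    ∃ BT : Finset (∀ i, Place ℂ (F i)), (∀ L : S.Loc, 6 ≤ L.e → L.d = d → L.p ∈ BT) ∧
      κ ^ 4 * ∑ P ∈ BT, ∏ i, Nat.card (stabilizer G (P i)) ≤
        (∏ i, (Big i).card) * Nat.card G ^ 5 := by
  classical
  have := Fintype.ofFinite G
  choose y hy using S.coord
  choose P hP using fun i (q : Place ℂ (Fix ℂ (F i) G)) => q.exists_over_ram
  let Pl : ∀ i, Finset (Place ℂ (F i)) := fun i =>
    (Big i).biUnion fun q => Finset.univ.image fun g : G => g • P i q
  have hPl : ∀ (L : S.Loc), 6 ≤ L.e → ∀ i, L.p i ∈ Pl i := fun L hL i => by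
    obtain ⟨g, hg⟩ := exists_smul_eq (hP i (L.q i)) (L.hq i)
    exact Finset.mem_biUnion.2 ⟨L.q i, hBig i _ (hL.trans (L.le_ram i)),
      Finset.mem_image.2 ⟨g, Finset.mem_univ _, hg.symm⟩⟩
  let A : ∀ i, Place ℂ (F j) → Finset (Place ℂ (F i)) := fun i pj =>
    (Pl i).filter fun p => ∃ L : S.Loc, 6 ≤ L.e ∧ L.d = d ∧ L.p j = pj ∧ L.p i = p
  let J : Finset (Place ℂ (F j)) := (Pl j).filter fun p => ∃ L : S.Loc, 6 ≤ L.e ∧ L.p j = p
  let BT := (Fintype.piFinset Pl).filter fun P => ∃ L : S.Loc, 6 ≤ L.e ∧ L.d = d ∧ L.p = P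
  refine ⟨BT, fun L h1 h2 => Finset.mem_filter.2
    ⟨Fintype.mem_piFinset.2 (hPl L h1), L, h1, h2, rfl⟩, ?_⟩
  have h1 : ∀ P ∈ BT, P j ∈ J := fun P hP => by
    obtain ⟨-, L, h1, -, rfl⟩ := Finset.mem_filter.1 hP
    exact Finset.mem_filter.2 ⟨hPl L h1 j, L, h1, rfl⟩
  have h2 : ∀ i pj, ∑ p ∈ A i pj, Nat.card (stabilizer G p) ≤
      (Big i).card * Nat.card (Subgroup.centralizer (stabilizer G pj : Set G)) := fun i pj => by
    refine sum_card_le (hy i) _ _ _ (fun p hp => ?_) fun p hp g hg a ha => ?_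
    · obtain ⟨-, L, h2, -, -, rfl⟩ := Finset.mem_filter.1 hp
      exact ⟨L.q i, hBig i _ (h2.trans (L.le_ram i)), L.hq i⟩
    · obtain ⟨-, L, -, h2, rfl, rfl⟩ := Finset.mem_filter.1 hp
      obtain ⟨-, L', -, h3, h4, h5⟩ := Finset.mem_filter.1 hg
      have hj : L.d j = 1 := h2 ▸ hd
      have hj' : L'.d j = 1 := h3 ▸ hd
      have h6 : L'.q i = L.q i := ((L'.hq i).unique (h5 ▸ (L.hq i).smul g)).1
      have h7 : L'.q j = L.q j := ((L'.hq j).unique (h4 ▸ L.hq j)).1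
      have h8 : L'.c i = L.c i := by
        have h8 := L'.hed i
        rw [← (L'.base hj').2, h7, (L.base hj).2, h3, ← h2, L.hed, h6] at h8
        exact (Nat.eq_of_mul_eq_mul_right (L.q i).one_le_ram h8).symm
      obtain ⟨h9, h10⟩ := L.chi_eq hj ha i
      obtain ⟨h11, h12⟩ := L'.chi_eq hj' (h4 ▸ ha) i
      rw [h5] at h11 h12
      obtain ⟨h13, h14⟩ := (hy i).chi_smul h11
      have h15 := (hy i).eq_of_chi h13 h9 (by rw [← h14, h12, h10, h8, h4])
      rw [mul_assoc, inv_mul_eq_iff_eq_mul] at h15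
      exact h15
  have h3 : ∀ pj ∈ J, κ ^ 4 * ∑ P ∈ BT.filter (fun P => P j = pj),
      ∏ i, Nat.card (stabilizer G (P i)) ≤ Nat.card (stabilizer G pj) *
        ((∏ l : Fin 4, (Big (j.succAbove l)).card) * Nat.card G ^ 4) := fun pj hpj => by
    obtain ⟨-, L₀, h3, rfl⟩ := Finset.mem_filter.1 hpj
    have h4 : BT.filter (fun P => P j = L₀.p j) ⊆ Fintype.piFinset fun i => A i (L₀.p j) := by
      intro P hP
      obtain ⟨h4, h5⟩ := Finset.mem_filter.1 hP
      obtain ⟨-, L, h6, h7, rfl⟩ := Finset.mem_filter.1 h4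
      exact Fintype.mem_piFinset.2 fun i => Finset.mem_filter.2 ⟨hPl L h6 i, L, h6, h7, h5, rfl⟩
    refine (Nat.mul_le_mul_left _ (Finset.sum_le_sum_of_subset h4)).trans ?_
    rw [← Finset.prod_univ_sum (fun i => A i (L₀.p j)) fun i p => Nat.card (stabilizer G p),
      Fin.prod_univ_succAbove _ j, mul_left_comm]
    refine Nat.mul_le_mul ?_ ?_
    · refine (Finset.sum_le_sum_of_subset (t := {L₀.p j}) fun p hp => ?_).trans (by simp)
      obtain ⟨-, L, -, -, h5, rfl⟩ := Finset.mem_filter.1 hp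
      exact Finset.mem_singleton.2 h5
    · have h5 : κ * Nat.card (Subgroup.centralizer (stabilizer G (L₀.p j) : Set G)) ≤
          Nat.card G := by
        rw [← (Subgroup.centralizer (stabilizer G (L₀.p j) : Set G)).index_mul_card]
        exact Nat.mul_le_mul_right _ (hκ _ _ (L₀.hq j) (h3.trans (L₀.le_ram j)))
      refine (Nat.mul_le_mul_left _ (Finset.prod_le_prod' fun l _ => h2 _ _)).trans ?_
      rw [Finset.prod_mul_distrib, Finset.prod_const, Finset.card_univ, Fintype.card_fin,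
        mul_left_comm, ← mul_pow]
      gcongr
  have h4 : ∑ p ∈ J, Nat.card (stabilizer G p) ≤ (Big j).card * Nat.card G := by
    rw [← Subgroup.card_top (G := G)]
    refine sum_card_le (hy j) _ _ _ (fun p hp => ?_) fun _ _ _ _ => Subgroup.mem_top _
    obtain ⟨-, L, h4, rfl⟩ := Finset.mem_filter.1 hp
    exact ⟨L.q j, hBig j _ (h4.trans (L.le_ram j)), L.hq j⟩
  rw [← Finset.sum_fiberwise_of_maps_to h1, Finset.mul_sum]
  refine (Finset.sum_le_sum h3).trans ?_
  rw [← Finset.sum_mul, Fin.prod_univ_succAbove _ j]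
  refine (Nat.mul_le_mul_right _ h4).trans (le_of_eq ?_)
  ring

theorem vol (x : ∀ i, Fix ℂ (F i) G) (hx : ∀ i, IsCoord ℂ (x i : F i)) {m : ℕ} (hm : 1 ≤ m)
    (nn : ∀ i, Place ℂ (Fix ℂ (F i) G) → ℕ) (hn : ∀ i q, m ≤ q.ram * nn i q)
    {a : ℕ} (ha : ∀ i (q : Place ℂ (Fix ℂ (F i) G)), 6 ≤ q.ram → a ≤ nn i q)
    {σ : Fin 5 → Type} [∀ i, Fintype (σ i)] (W : ∀ i, σ i → F i)
    (hli : ∀ i, LinearIndependent ℂ (W i))
    (hW : ∀ i s (p : Place ℂ (F i)) (q : Place ℂ (Fix ℂ (F i) G)),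
      p.Over (Fix ℂ (F i) G).val q q.ram → p.Ge (q.ram * nn i q) (W i s * p.loc (x i : F i) ^ m))
    (D : Finset (Fin 5 → ℕ))
    (hD : ∀ L : S.Loc, 6 ≤ L.e → ∑ i, L.d i * nn i (L.q i) < m → L.d ∈ D) {κ B : ℕ}
    (hcount : ∀ d ∈ D, ∃ BT : Finset (∀ i, Place ℂ (F i)),
      (∀ L : S.Loc, 6 ≤ L.e → L.d = d → L.p ∈ BT) ∧
        κ * ∑ P ∈ BT, ∏ i, Nat.card (stabilizer G (P i)) ≤ B)
    (hnum : B * ∑ d ∈ D, (m - a * ∑ i, d i + 4) ^ 5 < 120 * κ * ∏ i, Fintype.card (σ i)) :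
    ¬ KodairaNegInf ℂ (Fix ℂ K G) 5 := by
  classical
  choose! BT hBT hBT' using hcount
  choose u hu using fun i => (hx i).exists_under
  choose R hR hR' using fun (P : ∀ i, Place ℂ (F i)) (M : ℕ) =>
    exists_region (fun i => Nat.card (stabilizer G (P i))) (fun i => Nat.card_pos) M
  let U : ∀ i, Place ℂ (F i) → σ i → F i := fun i p s =>
    W i s * p.loc (x i : F i) ^ m / p.unif ^ ((u i p).ram * nn i (u i p))
  let C : Finset ((∀ i, Place ℂ (F i)) × (Fin 5 → ℕ)) := D.biUnion fun d =>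
    (BT d).biUnion fun P => (R P (m - a * ∑ i, d i)).image fun α => (P, α)
  have hC : C.card < Fintype.card (∀ i, σ i) := by
    rw [Fintype.card_pi]
    refine lt_of_mul_lt_mul_left (a := 120 * κ) (lt_of_le_of_lt ?_ hnum) (Nat.zero_le _)
    refine (Nat.mul_le_mul_left _ Finset.card_biUnion_le).trans ?_
    rw [Finset.mul_sum, Finset.mul_sum]
    refine Finset.sum_le_sum fun d hd => ?_
    refine (Nat.mul_le_mul_left _ Finset.card_biUnion_le).trans
      (le_trans ?_ (Nat.mul_le_mul_right _ (hBT' d hd)))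
    rw [mul_comm 120, mul_assoc, mul_assoc, Finset.mul_sum, Finset.sum_mul]
    exact Nat.mul_le_mul_left _ (Finset.sum_le_sum fun P _ =>
      (Nat.mul_le_mul_left _ Finset.card_image_le).trans (hR P _))
  obtain ⟨b, hb0, hb⟩ := exists_kernel C
    (fun z (β : ∀ i, σ i) => ∏ i, (z.1 i).cen ((z.1 i).sh^[z.2 i] (U i (z.1 i) (β i)))) hC
  refine S.red x hx hm nn hn (fun β i => W i (β i)) (fun β i => hW i (β i)) b
    (fun h => hb0 (funext (Fintype.linearIndependent_iff.1 (S.lin W hli) b h))) fun L h1 h2 => ?_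
  have hd := hD L h1 h2
  set M := m - a * ∑ i, L.d i with hM
  have hu' : ∀ i, u i (L.p i) = L.q i := fun i => ((hu i _).unique (L.hq i)).1
  have hU : ∀ i s, (L.p i).Ge 0 (U i (L.p i) s) := fun i s => by
    simp only [U, div_eq_mul_inv]
    exact Ge.mul' (hW i s _ _ (hu i _)) (ge_ord _) (by simp)
  have h3 : ∀ i s, ι i (W i s * (L.p i).loc (x i : F i) ^ m) =
      ι i ((L.p i).unif ^ ((L.q i).ram * nn i (L.q i))) *
        ∑ α ∈ Finset.range ((L.q i).ram * M + 1),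
          ι i ((L.p i).coef ((L.q i).ram * M) α (U i (L.p i) s)) * ι i ((L.p i).unif ^ α) := by
    intro i s
    simp only [← map_mul, ← map_sum, ← Place.taylor, U, hu']
    rw [mul_div_cancel₀ _ (pow_ne_zero _ (L.p i).unif_ne_zero)]
  have h4 : ∑ β : ∀ i, σ i, b β • ∏ i, ι i (W i (β i) * (L.p i).loc (x i : F i) ^ m) =
      ∑ α ∈ Fintype.piFinset fun i => Finset.range ((L.q i).ram * M + 1),
        (∑ β : ∀ i, σ i, b β • ∏ i, ι i ((L.p i).coef ((L.q i).ram * M) (α i)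
          (U i (L.p i) (β i)))) * ((∏ i, ι i ((L.p i).unif ^ ((L.q i).ram * nn i (L.q i)))) *
            ∏ i, ι i ((L.p i).unif ^ α i)) := by
    simp only [h3, Finset.prod_mul_distrib, Finset.prod_univ_sum, Finset.mul_sum, Finset.smul_sum,
      Finset.sum_mul, smul_mul_assoc]
    rw [Finset.sum_comm]
    refine Finset.sum_congr rfl fun α _ => Finset.sum_congr rfl fun β _ => ?_
    rw [mul_left_comm]
  rw [h4]
  refine Ge.sum fun α _ => ?_
  have h5 : ∀ i (l : ℕ), L.w.Ge (L.c i * l) (ι i ((L.p i).unif ^ l)) := fun i l =>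
    ((L.hp i).ge_iff _ _).2 (ge_of_le (by simp))
  by_cases hα : ∑ i, α i / (L.q i).ram < M
  · have h6 : ∀ i, α i < (L.q i).ram * M := fun i => by
      have := (Finset.single_le_sum (f := fun i => α i / (L.q i).ram) (fun _ _ => Nat.zero_le _)
        (Finset.mem_univ i)).trans_lt hα
      rwa [Nat.div_lt_iff_lt_mul (L.q i).one_le_ram, mul_comm] at this
    have h7 := hb (L.p, α) (Finset.mem_biUnion.2 ⟨L.d, hd, Finset.mem_biUnion.2
      ⟨L.p, hBT _ hd L h1 rfl, Finset.mem_image.2 ⟨α, hR' _ _ _ (by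
        simpa only [L.card_stab] using hα), rfl⟩⟩⟩)
    simp only [coef, if_pos (h6 _), AlgHom.commutes, ← map_prod, Algebra.smul_def, ← map_mul,
      ← map_sum]
    rw [h7]
    simp
  · refine Ge.mul' (Ge.sum fun β _ => (Ge.prod_zero fun i _ =>
      ((L.hp i).ge_zero_iff _).2 ((hx i).ge_coef (hU i _) _ _)).smul _)
      ((Ge.prod fun i _ => h5 i _).mul (Ge.prod fun i _ => h5 i _)) ?_
    have h6 : L.e * (a * ∑ i, L.d i) ≤ ∑ i, L.c i * ((L.q i).ram * nn i (L.q i)) := by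
      simp only [Finset.mul_sum]
      refine Finset.sum_le_sum fun i _ => ?_
      rw [← mul_assoc (L.c i), ← L.hed, mul_assoc, mul_comm a]
      gcongr
      exact ha i _ (h1.trans (L.le_ram i))
    have h7 : L.e * M ≤ ∑ i, L.c i * α i := by
      refine (Nat.mul_le_mul_left _ (not_lt.1 hα)).trans ?_
      rw [Finset.mul_sum]
      refine Finset.sum_le_sum fun i _ => ?_
      have h7 := Nat.mul_div_le (α i) (L.q i).ram
      have h8 := L.one_le_d i
      calc L.e * (α i / (L.q i).ram) ≤ L.e * L.d i * (α i / (L.q i).ram) :=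
            Nat.mul_le_mul_right _ (Nat.le_mul_of_pos_right _ h8)
        _ ≤ L.c i * α i := by rw [L.hed, mul_assoc]; gcongr
    have h8 : L.e * m ≤ L.e * (a * ∑ i, L.d i) + L.e * M := by
      rw [← mul_add]
      gcongr
      omega
    rw [zero_add]
    exact_mod_cast h8.trans (Nat.add_le_add h6 h7)

end Pool.Agent.Lib.MP_e06174_ag.Setup
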