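import Pool.Agent.Lib.MP_e06174_ag.Ret2

/-! The dimension count for products of four curves. -/

set_option linter.unusedSectionVars false

open Polynomial IntermediateField Module MulAction

namespace Pool.Agent.Lib.MP_e06174_ag

open Place

lemma exists_region4 (r d : Fin 4 → ℕ) (hr : ∀ i, 0 < r i) (hd : ∀ i, 0 < d i) (M : ℕ) :
    ∃ R : Finset (Fin 4 → ℕ), 24 * (∏ i, d i) * R.card ≤ (∏ i, r i) * (M + (∑ i, d i + 4)) ^ 4 ∧
      ∀ α : Fin 4 → ℕ, ∑ i, d i * (α i / r i) < M → α ∈ R := by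
  classical
  let B := (Fintype.piFinset fun _ : Fin 4 => Finset.range M).filter fun β => ∑ i, d i * β i < M
  have h1 : (B ×ˢ Fintype.piFinset fun i => Finset.range (d i)).card ≤
      ((Finset.univ : Finset (Option (Fin 4))).finsuppAntidiag (M + ∑ i, d i)).card := by
    refine Finset.card_le_card_of_injOn (fun z => Finsupp.equivFunOnFinite.symm fun o =>
      o.elim (M + ∑ i, d i - ∑ i, (d i * z.1 i + z.2 i)) fun i => d i * z.1 i + z.2 i)
      (fun z hz => ?_) fun z hz z' hz' h => ?_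
    · obtain ⟨h1, h2⟩ := Finset.mem_product.1 hz
      have h3 := (Finset.mem_filter.1 h1).2
      have h4 : ∑ i, z.2 i ≤ ∑ i, d i := Finset.sum_le_sum fun i _ =>
        (Finset.mem_range.1 (Fintype.mem_piFinset.1 h2 i)).le
      rw [Finset.mem_coe, Finset.mem_finsuppAntidiag, Fintype.sum_option]
      refine ⟨?_, Finset.subset_univ _⟩
      simp only [Finsupp.equivFunOnFinite_symm_apply_apply, Option.elim, Finset.sum_add_distrib]
      omega
    · have h1 := fun i => Finset.mem_range.1 (Fintype.mem_piFinset.1 (Finset.mem_product.1 hz).2 i)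
      have h2 := fun i => Finset.mem_range.1 (Fintype.mem_piFinset.1 (Finset.mem_product.1 hz').2 i)
      have h3 : ∀ i, d i * z.1 i + z.2 i = d i * z'.1 i + z'.2 i := fun i =>
        congrFun (Finsupp.equivFunOnFinite.symm.injective h) (some i)
      have h4 : ∀ i, z.2 i = z'.2 i := fun i => by
        have := congrArg (· % d i) (h3 i)
        simpa [Nat.mod_eq_of_lt (h1 i), Nat.mod_eq_of_lt (h2 i)] using this
      refine Prod.ext (funext fun i => Nat.eq_of_mul_eq_mul_left (hd i) ?_) (funext h4)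
      have := h3 i
      have := h4 i
      omega
  refine ⟨(B ×ˢ Fintype.piFinset fun i => Finset.range (r i)).image
      fun z i => r i * z.1 i + z.2 i, ?_, fun α hα => ?_⟩
  · refine (Nat.mul_le_mul_left _ Finset.card_image_le).trans ?_
    rw [Finset.card_product, Fintype.card_piFinset] at h1 ⊢
    rw [Finset.card_finsuppAntidiag_nat_eq_choose] at h1
    simp only [Finset.card_range, Finset.card_univ, Fintype.card_option, Fintype.card_fin] at h1 ⊢
    rw [show 4 + 1 + (M + ∑ i, d i) - 1 = (M + ∑ i, d i) + 4 by omega, Nat.choose_symm_add] at h1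
    have h2 := Nat.descFactorial_le_pow (M + ∑ i, d i + 4) 4
    rw [Nat.descFactorial_eq_factorial_mul_choose, show Nat.factorial 4 = 24 from rfl] at h2
    rw [← add_assoc]
    calc _ = (∏ i, r i) * (24 * (B.card * ∏ i, d i)) := by ring
      _ ≤ _ := Nat.mul_le_mul_left _ ((Nat.mul_le_mul_left _ h1).trans h2)
  · refine Finset.mem_image.2 ⟨⟨fun i => α i / r i, fun i => α i % r i⟩, Finset.mem_product.2
      ⟨Finset.mem_filter.2 ⟨Fintype.mem_piFinset.2 fun i => Finset.mem_range.2 ?_, hα⟩,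
        Fintype.mem_piFinset.2 fun i => Finset.mem_range.2 (Nat.mod_lt _ (hr i))⟩, ?_⟩
    · exact ((Nat.le_mul_of_pos_left _ (hd i)).trans (Finset.single_le_sum
        (f := fun i => d i * (α i / r i)) (fun _ _ => Nat.zero_le _) (Finset.mem_univ i))).trans_lt hα
    · funext i
      simp [Nat.div_add_mod]

lemma exists_large4 {τ : Type*} (D : Finset τ) (μ s : τ → ℕ) (w : τ → ℝ) (ε : Fin 4 → ℕ) (c : ℕ)
    (h : ∑ z ∈ D, (μ z : ℝ) ^ 4 / w z < ∏ i, (ε i : ℝ)) (hε : ∀ i, 0 < ε i) :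
    ∃ t : ℕ, 1 ≤ t ∧ (∀ i, c ≤ ε i * t) ∧
      ∑ z ∈ D, ((μ z * t + s z : ℕ) : ℝ) ^ 4 / w z < ∏ i, ((ε i * t - c : ℕ) : ℝ) := by
  have h0 : ∀ a : ℝ, Filter.Tendsto (fun t : ℕ => a / (t : ℝ)) Filter.atTop (nhds 0) :=
    tendsto_const_div_atTop_nhds_zero_nat
  have h1 : Filter.Tendsto (fun t : ℕ => ∑ z ∈ D, ((μ z : ℝ) + s z / t) ^ 4 / w z) Filter.atTop
      (nhds (∑ z ∈ D, ((μ z : ℝ) + 0) ^ 4 / w z)) :=
    tendsto_finsetSum _ fun d _ => (((h0 _).const_add _).pow 4).div_const _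
  have h2 : Filter.Tendsto (fun t : ℕ => ∏ i, ((ε i : ℝ) - c / t)) Filter.atTop
      (nhds (∏ i, ((ε i : ℝ) - 0))) := tendsto_finsetProd _ fun i _ => (h0 c).const_sub _
  have h3 := h1.eventually_lt h2 (by simpa only [add_zero, sub_zero] using h)
  obtain ⟨t, h4, h5⟩ := (h3.and (Filter.eventually_ge_atTop (c + 1))).exists
  have h6 : ∀ i, c ≤ ε i * t := fun i => by nlinarith [hε i]
  refine ⟨t, by omega, h6, ?_⟩
  have ht : (0 : ℝ) < t := by exact_mod_cast (by omega : 0 < t)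
  refine (Eq.trans_lt ?_ (mul_lt_mul_of_pos_right h4 (pow_pos ht 4))).trans_eq (Eq.symm ?_)
  · rw [Finset.sum_mul]
    refine Finset.sum_congr rfl fun z _ => ?_
    rw [div_mul_eq_mul_div, ← mul_pow, add_mul, div_mul_cancel₀ _ ht.ne']
    push_cast
    rfl
  · rw [← Fin.prod_const 4 (t : ℝ), ← Finset.prod_mul_distrib]
    refine Finset.prod_congr rfl fun i _ => ?_
    rw [Nat.cast_sub (h6 i), sub_mul, div_mul_cancel₀ _ ht.ne']
    push_cast
    rfl

namespace Setup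

variable {F : Fin 4 → Type} [∀ i, Field (F i)] [∀ i, Algebra ℂ (F i)]
  {G : Type} [Group G] [Finite G] [∀ i, MulSemiringAction G (F i)] [∀ i, SMulCommClass G ℂ (F i)]
  {K : Type} [Field K] [Algebra ℂ K] [MulSemiringAction G K] [SMulCommClass G ℂ K]
  {ι : ∀ i, F i →ₐ[ℂ] K} {S : Setup G ι} [∀ i, FaithfulSMul G (F i)] [FaithfulSMul G K]

lemma Loc.mem_inertia (L : S.Loc) (j : Fin 4) {a : G} (ha : a ∈ stabilizer G (L.p j))
    (h : a ^ L.e = 1) : a ∈ L.w.inertia G := by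
  have hy := (S.coord j).choose_spec
  have := hy.isCyclic (G := G) (L.p j)
  have := Subgroup.isCyclic_of_le (L.le_stab j)
  obtain ⟨g, hg⟩ := IsCyclic.exists_ofOrder_eq_natCard (α := L.w.inertia G)
  have h1 := L.le_stab j g.2
  have h2 : IsPrimitiveRoot ((L.p j).chi (g : G)) L.e := by
    rw [← L.card, ← hg, ← Subgroup.orderOf_coe, ← Subgroup.orderOf_mk (g : G) h1,
      ← orderOf_injective _ (hy.chiHom_injective _)]
    exact IsPrimitiveRoot.orderOf _
  have : NeZero L.e := ⟨by have := L.hw.1; omega⟩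
  obtain ⟨k, -, hk⟩ := h2.eq_pow_of_pow_eq_one (ξ := (L.p j).chi a) (by
    rw [← hy.chi_pow ha, h, hy.chi_one])
  rw [← hy.eq_of_chi (_root_.pow_mem h1 k) ha ((hy.chi_pow h1 k).trans hk)]
  exact _root_.pow_mem g.2 k

variable (S)
include S

theorem count4 (d : Fin 4 → ℕ) (e : ℕ) (j : Fin 4)
    (Big : ∀ i, Finset (Place ℂ (Fix ℂ (F i) G)))
    (hBig : ∀ i (q : Place ℂ (Fix ℂ (F i) G)), 5 ≤ q.ram → q ∈ Big i) {κ : ℕ}
    (hκ : ∀ L : S.Loc, 4 < L.e → L.d = d → L.e = e →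
      κ ≤ (Subgroup.centralizer (L.w.inertia G : Set G)).index) :
    ∃ BT : Finset (∀ i, Place ℂ (F i)), (∀ L : S.Loc, 4 < L.e → L.d = d → L.e = e → L.p ∈ BT) ∧
      κ ^ 3 * ∑ P ∈ BT, ∏ i, Nat.card (stabilizer G (P i)) ≤
        (∏ i, (Big i).card) * Nat.card G ^ 4 := by
  classical
  have := Fintype.ofFinite G
  choose y hy using S.coord
  choose P hP using fun i (q : Place ℂ (Fix ℂ (F i) G)) => q.exists_over_ram
  let Pl : ∀ i, Finset (Place ℂ (F i)) := fun i =>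
    (Big i).biUnion fun q => Finset.univ.image fun g : G => g • P i q
  have hb : ∀ (L : S.Loc), 4 < L.e → ∀ i, L.q i ∈ Big i := fun L hL i =>
    hBig i _ ((Nat.succ_le_of_lt hL).trans (L.le_ram i))
  have hPl : ∀ (L : S.Loc), 4 < L.e → ∀ i, L.p i ∈ Pl i := fun L hL i => by
    obtain ⟨g, hg⟩ := exists_smul_eq (hP i (L.q i)) (L.hq i)
    exact Finset.mem_biUnion.2 ⟨L.q i, hb L hL i,
      Finset.mem_image.2 ⟨g, Finset.mem_univ _, hg.symm⟩⟩
  let C : S.Loc → Prop := fun L => 4 < L.e ∧ L.d = d ∧ L.e = e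
  let A : ∀ i, Place ℂ (F j) → Finset (Place ℂ (F i)) := fun i pj =>
    (Pl i).filter fun p => ∃ L : S.Loc, C L ∧ L.p j = pj ∧ L.p i = p
  let J : Finset (Place ℂ (F j)) := (Pl j).filter fun p => ∃ L : S.Loc, C L ∧ L.p j = p
  let BT := (Fintype.piFinset Pl).filter fun P => ∃ L : S.Loc, C L ∧ L.p = P
  refine ⟨BT, fun L h1 h2 h3 => Finset.mem_filter.2
    ⟨Fintype.mem_piFinset.2 (hPl L h1), L, ⟨h1, h2, h3⟩, rfl⟩, ?_⟩
  have h1 : ∀ P ∈ BT, P j ∈ J := fun P hP => by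
    obtain ⟨-, L, h1, rfl⟩ := Finset.mem_filter.1 hP
    exact Finset.mem_filter.2 ⟨hPl L h1.1 j, L, h1, rfl⟩
  have hc : ∀ L L' : S.Loc, C L → C L' → ∀ i, L'.q i = L.q i → L'.c i = L.c i :=
    fun L L' h h' i hi => by
      have h8 := L'.hed i
      rw [h'.2.2, h'.2.1, ← h.2.2, ← h.2.1, L.hed, hi] at h8
      exact (Nat.eq_of_mul_eq_mul_right (L.q i).one_le_ram h8).symm
  have h2 : ∀ i (L₀ : S.Loc), C L₀ → ∑ p ∈ A i (L₀.p j), Nat.card (stabilizer G p) ≤
      (Big i).card * Nat.card (Subgroup.centralizer (L₀.w.inertia G : Set G)) := fun i L₀ h₀ => by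
    refine sum_card_le (hy i) _ _ _ (fun p hp => ?_) fun p hp g hg a ha => ?_
    · obtain ⟨-, L, h2, -, rfl⟩ := Finset.mem_filter.1 hp
      exact ⟨L.q i, hb L h2.1 i, L.hq i⟩
    · obtain ⟨-, L, h2, h2', rfl⟩ := Finset.mem_filter.1 hp
      obtain ⟨-, L', h3, h4, h5⟩ := Finset.mem_filter.1 hg
      have h6 : a ^ e = 1 := by
        rw [← h₀.2.2, ← L₀.card]
        exact congrArg Subtype.val (pow_card_eq_one' (x := (⟨a, ha⟩ : L₀.w.inertia G)))
      have h7 := L.mem_inertia j (h2' ▸ L₀.le_stab j ha) (h2.2.2 ▸ h6)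
      have h8 := L'.mem_inertia j (h4 ▸ L₀.le_stab j ha) (h3.2.2 ▸ h6)
      obtain ⟨θ, h9, h10⟩ := L.exists_theta h7
      obtain ⟨θ', h11, h12⟩ := L'.exists_theta h8
      have h13 : θ' ^ L.c j = θ ^ L.c j := by
        rw [← h10, ← hc L L' h2 h3 j ((L'.hq j).unique ((h2'.trans h4.symm) ▸ L.hq j)).1, ← h12,
          h4, h2']
      have h0 : θ ≠ 0 := by
        rintro rfl
        rw [zero_pow (by have := L.hw.1; omega)] at h9
        exact zero_ne_one h9
      obtain rfl : θ' = θ := by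
        rw [← div_eq_one_iff_eq h0, ← orderOf_eq_one_iff]
        refine Nat.eq_one_of_dvd_coprimes (L.coprime j) (orderOf_dvd_of_pow_eq_one ?_)
          (orderOf_dvd_of_pow_eq_one ?_)
        · rw [div_pow, h13, div_self (pow_ne_zero _ h0)]
        · rw [div_pow, h9, h2.2.2, ← h3.2.2, h11, div_one]
      have h14 := L'.le_stab i h8
      have h15 := h12 i
      rw [h5] at h14 h15
      obtain ⟨h16, h17⟩ := (hy i).chi_smul h14
      have h18 := (hy i).eq_of_chi h16 (L.le_stab i h7) (by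
        rw [← h17, h15, h10, hc L L' h2 h3 i ((L'.hq i).unique (h5 ▸ (L.hq i).smul g)).1])
      rw [mul_assoc, inv_mul_eq_iff_eq_mul] at h18
      exact h18
  have h3 : ∀ pj ∈ J, κ ^ 3 * ∑ P ∈ BT.filter (fun P => P j = pj),
      ∏ i, Nat.card (stabilizer G (P i)) ≤ Nat.card (stabilizer G pj) *
        ((∏ l : Fin 3, (Big (j.succAbove l)).card) * Nat.card G ^ 3) := fun pj hpj => by
    obtain ⟨-, L₀, h3, rfl⟩ := Finset.mem_filter.1 hpj
    have h4 : BT.filter (fun P => P j = L₀.p j) ⊆ Fintype.piFinset fun i => A i (L₀.p j) := by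
      intro P hP
      obtain ⟨h4, h5⟩ := Finset.mem_filter.1 hP
      obtain ⟨-, L, h6, rfl⟩ := Finset.mem_filter.1 h4
      exact Fintype.mem_piFinset.2 fun i => Finset.mem_filter.2 ⟨hPl L h6.1 i, L, h6, h5, rfl⟩
    refine (Nat.mul_le_mul_left _ (Finset.sum_le_sum_of_subset h4)).trans ?_
    rw [← Finset.prod_univ_sum (fun i => A i (L₀.p j)) fun i p => Nat.card (stabilizer G p),
      Fin.prod_univ_succAbove _ j, mul_left_comm]
    refine Nat.mul_le_mul ?_ ?_
    · refine (Finset.sum_le_sum_of_subset (t := {L₀.p j}) fun p hp => ?_).trans (by simp)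
      obtain ⟨-, L, -, h5, rfl⟩ := Finset.mem_filter.1 hp
      exact Finset.mem_singleton.2 h5
    · have h5 : κ * Nat.card (Subgroup.centralizer (L₀.w.inertia G : Set G)) ≤ Nat.card G := by
        rw [← (Subgroup.centralizer (L₀.w.inertia G : Set G)).index_mul_card]
        exact Nat.mul_le_mul_right _ (hκ _ h3.1 h3.2.1 h3.2.2)
      refine (Nat.mul_le_mul_left _ (Finset.prod_le_prod' fun l _ => h2 _ _ h3)).trans ?_
      rw [Finset.prod_mul_distrib, Finset.prod_const, Finset.card_univ, Fintype.card_fin,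
        mul_left_comm, ← mul_pow]
      gcongr
  have h4 : ∑ p ∈ J, Nat.card (stabilizer G p) ≤ (Big j).card * Nat.card G := by
    rw [← Subgroup.card_top (G := G)]
    refine sum_card_le (hy j) _ _ _ (fun p hp => ?_) fun _ _ _ _ => Subgroup.mem_top _
    obtain ⟨-, L, h4, rfl⟩ := Finset.mem_filter.1 hp
    exact ⟨L.q j, hb L h4.1 j, L.hq j⟩
  rw [← Finset.sum_fiberwise_of_maps_to h1, Finset.mul_sum]
  refine (Finset.sum_le_sum h3).trans ?_
  rw [← Finset.sum_mul, Fin.prod_univ_succAbove _ j]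
  refine (Nat.mul_le_mul_right _ h4).trans (le_of_eq ?_)
  ring

theorem vol4 (x : ∀ i, Fix ℂ (F i) G) (hx : ∀ i, IsCoord ℂ (x i : F i)) {m : ℕ} (hm : 1 ≤ m)
    (nn : ∀ i, Place ℂ (Fix ℂ (F i) G) → ℕ) (hn : ∀ i q, m ≤ q.ram * nn i q)
    (a : Fin 4 → ℕ) (ha : ∀ i (q : Place ℂ (Fix ℂ (F i) G)), 5 ≤ q.ram → a i ≤ nn i q)
    {σ : Fin 4 → Type} [∀ i, Fintype (σ i)] (W : ∀ i, σ i → F i)
    (hli : ∀ i, LinearIndependent ℂ (W i))
    (hW : ∀ i s (p : Place ℂ (F i)) (q : Place ℂ (Fix ℂ (F i) G)),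
      p.Over (Fix ℂ (F i) G).val q q.ram → p.Ge (q.ram * nn i q) (W i s * p.loc (x i : F i) ^ m))
    {τ : Type} (D : Finset τ) (dd : τ → Fin 4 → ℕ) (ee κ : τ → ℕ)
    (hD : ∀ L : S.Loc, 4 < L.e → ∑ i, L.d i * nn i (L.q i) < m →
      ∃ z ∈ D, L.d = dd z ∧ L.e = ee z) (hd : ∀ z ∈ D, (∀ i, 0 < dd z i) ∧ 0 < κ z) {B : ℕ}
    (hcount : ∀ z ∈ D, ∃ BT : Finset (∀ i, Place ℂ (F i)),
      (∀ L : S.Loc, 4 < L.e → L.d = dd z → L.e = ee z → L.p ∈ BT) ∧
        κ z * ∑ P ∈ BT, ∏ i, Nat.card (stabilizer G (P i)) ≤ B)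
    (hnum : (B : ℝ) * ∑ z ∈ D, ((m - ∑ i, a i * dd z i + (∑ i, dd z i + 4) : ℕ) : ℝ) ^ 4 /
      ((24 * (∏ i, dd z i) * κ z : ℕ) : ℝ) < ∏ i, Fintype.card (σ i)) :
    ¬ KodairaNegInf ℂ (Fix ℂ K G) 4 := by
  classical
  choose! BT hBT hBT' using hcount
  choose u hu using fun i => (hx i).exists_under
  choose! R hR hR' using fun (P : ∀ i, Place ℂ (F i)) (d : Fin 4 → ℕ) (hd : ∀ i, 0 < d i) (M : ℕ) =>
    exists_region4 (fun i => Nat.card (stabilizer G (P i))) d (fun i => Nat.card_pos) hd M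
  let U : ∀ i, Place ℂ (F i) → σ i → F i := fun i p s =>
    W i s * p.loc (x i : F i) ^ m / p.unif ^ ((u i p).ram * nn i (u i p))
  let C : Finset ((∀ i, Place ℂ (F i)) × (Fin 4 → ℕ)) := D.biUnion fun z =>
    (BT z).biUnion fun P => (R P (dd z) (m - ∑ i, a i * dd z i)).image fun α => (P, α)
  have hC : C.card < Fintype.card (∀ i, σ i) := by
    rw [Fintype.card_pi, ← Nat.cast_lt (α := ℝ)]
    refine lt_of_le_of_lt ((Nat.cast_le.2 Finset.card_biUnion_le).trans ?_) hnum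
    rw [Finset.mul_sum, Nat.cast_sum]
    refine Finset.sum_le_sum fun z hz => ?_
    have h1 : 0 < 24 * (∏ i, dd z i) * κ z :=
      Nat.mul_pos (Nat.mul_pos (by omega) (Finset.prod_pos fun i _ => (hd z hz).1 i)) (hd z hz).2
    rw [← mul_div_assoc, le_div_iff₀ (Nat.cast_pos.2 h1), ← Nat.cast_pow, ← Nat.cast_mul,
      ← Nat.cast_mul, Nat.cast_le]
    refine (Nat.mul_le_mul_right _ Finset.card_biUnion_le).trans
      (le_trans ?_ (Nat.mul_le_mul_right _ (hBT' z hz)))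
    rw [mul_comm, mul_comm _ (κ z), mul_assoc (κ z), mul_assoc (κ z), Finset.mul_sum, Finset.sum_mul]
    exact Nat.mul_le_mul_left _ (Finset.sum_le_sum fun P _ =>
      (Nat.mul_le_mul_left _ Finset.card_image_le).trans (hR P _ (hd z hz).1 _))
  obtain ⟨b, hb0, hb⟩ := exists_kernel C
    (fun z (β : ∀ i, σ i) => ∏ i, (z.1 i).cen ((z.1 i).sh^[z.2 i] (U i (z.1 i) (β i)))) hC
  refine S.redn x hx hm nn hn (fun β i => W i (β i)) (fun β i => hW i (β i)) b
    (fun h => hb0 (funext (Fintype.linearIndependent_iff.1 (S.lin W hli) b h))) fun L h1 h2 => ?_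
  obtain ⟨z, hz, hz1, hz2⟩ := hD L h1 h2
  set M := m - ∑ i, a i * L.d i with hM
  have hu' : ∀ i, u i (L.p i) = L.q i := fun i => ((hu i _).unique (L.hq i)).1
  have hU : ∀ i s, (L.p i).Ge 0 (U i (L.p i) s) := fun i s => by
    simp only [U, div_eq_mul_inv]
    exact Ge.mul' (hW i s _ _ (hu i _)) (ge_ord _) (by simp)
  have h3 : ∀ i s, ι i (W i s * (L.p i).loc (x i : F i) ^ m) =
      ι i ((L.p i).unif ^ ((L.q i).ram * nn i (L.q i))) *
        ∑ α ∈ Finset.range ((L.q i).ram * M + 1),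
          ι i ((L.p i).coef ((L.q i).ram * M) α (U i (L.p i) s)) * ι i ((L.p i).unif ^ α) := by
    intro i s
    simp only [← map_mul, ← map_sum, ← Place.taylor, U, hu']
    rw [mul_div_cancel₀ _ (pow_ne_zero _ (L.p i).unif_ne_zero)]
  have h4 : ∑ β : ∀ i, σ i, b β • ∏ i, ι i (W i (β i) * (L.p i).loc (x i : F i) ^ m) =
      ∑ α ∈ Fintype.piFinset fun i => Finset.range ((L.q i).ram * M + 1),
        (∑ β : ∀ i, σ i, b β • ∏ i, ι i ((L.p i).coef ((L.q i).ram * M) (α i)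
          (U i (L.p i) (β i)))) * ((∏ i, ι i ((L.p i).unif ^ ((L.q i).ram * nn i (L.q i)))) *
            ∏ i, ι i ((L.p i).unif ^ α i)) := by
    simp only [h3, Finset.prod_mul_distrib, Finset.prod_univ_sum, Finset.mul_sum, Finset.smul_sum,
      Finset.sum_mul, smul_mul_assoc]
    rw [Finset.sum_comm]
    refine Finset.sum_congr rfl fun α _ => Finset.sum_congr rfl fun β _ => ?_
    rw [mul_left_comm]
  rw [h4]
  refine Ge.sum fun α _ => ?_
  have h5 : ∀ i (l : ℕ), L.w.Ge (L.c i * l) (ι i ((L.p i).unif ^ l)) := fun i l =>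
    ((L.hp i).ge_iff _ _).2 (ge_of_le (by simp))
  by_cases hα : ∑ i, L.d i * (α i / (L.q i).ram) < M
  · have h6 : ∀ i, α i < (L.q i).ram * M := fun i => by
      have := ((Nat.le_mul_of_pos_left _ (L.one_le_d i)).trans (Finset.single_le_sum
        (f := fun i => L.d i * (α i / (L.q i).ram)) (fun _ _ => Nat.zero_le _)
        (Finset.mem_univ i))).trans_lt hα
      rwa [Nat.div_lt_iff_lt_mul (L.q i).one_le_ram, mul_comm] at this
    have h7 := hb (L.p, α) (Finset.mem_biUnion.2 ⟨z, hz, Finset.mem_biUnion.2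
      ⟨L.p, hBT _ hz L h1 hz1 hz2, Finset.mem_image.2 ⟨α, hR' _ _ (hd z hz).1 _ _ (by
        simpa only [L.card_stab, ← hz1] using hα), rfl⟩⟩⟩)
    simp only [coef, if_pos (h6 _), AlgHom.commutes, ← map_prod, Algebra.smul_def, ← map_mul,
      ← map_sum]
    rw [h7]
    simp
  · refine Ge.mul' (Ge.sum fun β _ => (Ge.prod_zero fun i _ =>
      ((L.hp i).ge_zero_iff _).2 ((hx i).ge_coef (hU i _) _ _)).smul _)
      ((Ge.prod fun i _ => h5 i _).mul (Ge.prod fun i _ => h5 i _)) ?_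
    have h6 : L.e * ∑ i, a i * L.d i ≤ ∑ i, L.c i * ((L.q i).ram * nn i (L.q i)) := by
      simp only [Finset.mul_sum]
      refine Finset.sum_le_sum fun i _ => ?_
      rw [← mul_assoc (L.c i), ← L.hed, mul_assoc, mul_comm (a i)]
      gcongr
      exact ha i _ ((Nat.succ_le_of_lt h1).trans (L.le_ram i))
    have h7 : L.e * M ≤ ∑ i, L.c i * α i := by
      refine (Nat.mul_le_mul_left _ (not_lt.1 hα)).trans ?_
      rw [Finset.mul_sum]
      refine Finset.sum_le_sum fun i _ => ?_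
      have h7 := Nat.mul_div_le (α i) (L.q i).ram
      rw [← mul_assoc, L.hed, mul_assoc]
      gcongr
    have h8 : L.e * m ≤ L.e * (∑ i, a i * L.d i) + L.e * M := by
      rw [← mul_add]
      gcongr
      omega
    rw [zero_add]
    exact_mod_cast h8.trans (Nat.add_le_add h6 h7)

end Setup

end Pool.Agent.Lib.MP_e06174_ag
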